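import Mathlib

set_option autoImplicit false

/-!
# Project MVX (Montgomery-Vaughan exceptional set, problem MP_4011c3_nt)

The interface between the L-core (zeros of Dirichlet L-functions) and Part II (circle method):
local means of `Λ χ` for all primitive characters of conductor `≤ X ^ δ` in all windows of length
`≥ X ^ (1 - a δ)`.
-/

namespace Pool.Agent.MVX

open Finset Filter

/-- A Dirichlet character together with its modulus. -/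
abbrev Chr : Type := (q : ℕ) × DirichletCharacter ℂ q

/-- the tent `max 0 (H - |n - x|)` -/
noncomputable def tent (H x n : ℕ) : ℝ := max 0 ((H : ℝ) - |(n : ℝ) - x|)

/-- The local mean of `Λ χ` at `x`: window `(x - H, x + H)` with the tent weight, total mass `1`
(if `1 ≤ H ≤ x`). -/
noncomputable def Bm (H x : ℕ) {q : ℕ} (χ : DirichletCharacter ℂ q) : ℂ :=
  ((H : ℂ) ^ 2)⁻¹ * ∑ n ∈ Icc 1 (x + H),
    (((ArithmeticFunction.vonMangoldt n : ℝ) : ℂ) * χ (n : ZMod q)) * ((tent H x n : ℝ) : ℂ)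

/-- The same mean of `n ^ (b - 1)`. -/
noncomputable def Um (b : ℝ) (H x : ℕ) : ℝ :=
  ((H : ℝ) ^ 2)⁻¹ * ∑ n ∈ Icc 1 (x + H), (n : ℝ) ^ (b - 1) * tent H x n

/-- The primitive characters modulo `q` (for `q = 1` this is the trivial character). -/
noncomputable def prm (q : ℕ) : Finset (DirichletCharacter ℂ q) := by
  classical exact Finset.univ.filter (fun χ => χ.IsPrimitive)

theorem mem_prm {q : ℕ} (χ : DirichletCharacter ℂ q) : χ ∈ prm q ↔ χ.IsPrimitive := by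
  classical
  simp [prm]

/-- A window: `X ^ (1 - a δ) ≤ H ≤ x ≤ X`. -/
def Win (X δ : ℝ) (a : ℕ) (H x : ℕ) : Prop :=
  X ^ (1 - a * δ) ≤ (H : ℝ) ∧ H ≤ x ∧ (x : ℝ) ≤ X

/-- What the L-core gives at `X`: a real primitive character `χ₁` (which only matters if
there is an exceptional zero), its weight `e * Um b` (`e = 0` if there is no exceptional zero,
`e = 1` if `b = β₁` is the exceptional zero), and `lam`, the distance of the exceptional zero from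
`1` in units of `1 / log X` (`lam = 1` if there is none). -/
structure ExcData (X δ : ℝ) (q₁ : ℕ) [NeZero q₁] (χ₁ : DirichletCharacter ℂ q₁) (e b lam : ℝ) :
    Prop where
  prim : χ₁.IsPrimitive
  real : χ₁ ^ 2 = 1
  nontriv : χ₁ ≠ 1
  cond : 1 < q₁ ∧ (q₁ : ℝ) ≤ X ^ δ
  cases : (e = 0 ∧ lam = 1) ∨
    (e = 1 ∧ 1 / 2 < b ∧ b < 1 ∧ χ₁.LFunction (b : ℂ) = 0 ∧ lam = min 1 ((1 - b) * Real.log X))

/-- The interface. -/
def GP : Prop := ∀ κ : ℝ, 0 < κ → ∀ a : ℕ, ∃ δ : ℝ, 0 < δ ∧ (a + 1) * δ ≤ 1 / 10 ∧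
  ∀ᶠ X : ℝ in atTop, ∃ (q₁ : ℕ) (_ : NeZero q₁) (χ₁ : DirichletCharacter ℂ q₁)
    (e b lam : ℝ) (E : Chr → ℝ),
    ExcData X δ q₁ χ₁ e b lam ∧
    X ^ (-(κ * δ)) ≤ lam ∧ lam ≤ 1 ∧
    (∀ H x : ℕ, Win X δ a H x → 0 ≤ e * Um b H x ∧ e * Um b H x ≤ 1 - lam / 4) ∧
    (∀ c : Chr, 0 ≤ E c) ∧
    (∑ q ∈ Icc 1 ⌊X ^ δ⌋₊, ∑ χ ∈ prm q, E ⟨q, χ⟩ ≤ κ * lam ^ 3) ∧
    ∀ H x : ℕ, Win X δ a H x →
      ‖Bm H x (1 : DirichletCharacter ℂ 1) - 1‖ ≤ E ⟨1, 1⟩ ∧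
      ‖Bm H x χ₁ + ((e * Um b H x : ℝ) : ℂ)‖ ≤ E ⟨q₁, χ₁⟩ ∧
      ∀ q : ℕ, 1 < q → (q : ℝ) ≤ X ^ δ → ∀ χ : DirichletCharacter ℂ q, χ.IsPrimitive →
        (⟨q, χ⟩ : Chr) ≠ ⟨q₁, χ₁⟩ → ‖Bm H x χ‖ ≤ E ⟨q, χ⟩

end Pool.Agent.MVX
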