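import Pool.Agent.MVX.StA
import Pool.Agent.BVX.A1

set_option autoImplicit false

/-!
# Project MVX [A1]: finite sums of `L(s, χ)`
-/

namespace Pool.Agent.MVX

open Finset Filter Topology Pool.Agent.BVX

/-- the difference of two consecutive powers -/
private theorem a1_b_sub' (s : ℂ) (hs : 0 < s.re) (k : ℕ) :
    ‖a1_b s k - a1_b s (k + 1)‖ ≤
      ‖s‖ / s.re * (((k : ℝ) + 1) ^ (-s.re) - ((k : ℝ) + 2) ^ (-s.re)) := by
  have hk : (0 : ℝ) < (k : ℝ) + 1 := by positivity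
  have hpos : ∀ x ∈ Set.Icc ((k : ℝ) + 1) ((k : ℝ) + 2), 0 < x := fun x hx =>
    lt_of_lt_of_le hk hx.1
  have hfd : ∀ x ∈ Set.Icc ((k : ℝ) + 1) ((k : ℝ) + 2),
      HasDerivAt (fun t : ℝ => (t : ℂ) ^ (-s) - (((k : ℝ) + 1 : ℝ) : ℂ) ^ (-s))
        (-s * (x : ℂ) ^ (-s - 1)) x := by
    intro x hx
    have h1 : HasDerivAt (fun z : ℂ => z ^ (-s)) (-s * (x : ℂ) ^ (-s - 1) * 1) (x : ℂ) :=
      (hasDerivAt_id (x : ℂ)).cpow_const (Or.inl (by simpa using hpos x hx))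
    rw [mul_one] at h1
    exact h1.comp_ofReal.sub_const _
  have hBd : ∀ x ∈ Set.Icc ((k : ℝ) + 1) ((k : ℝ) + 2),
      HasDerivAt (fun t : ℝ => ‖s‖ / s.re * (((k : ℝ) + 1) ^ (-s.re) - t ^ (-s.re)))
        (‖s‖ * x ^ (-s.re - 1)) x := by
    intro x hx
    have h1 := (Real.hasDerivAt_rpow_const (x := x) (p := -s.re) (Or.inl (hpos x hx).ne'))
    have h2 := (h1.const_sub (((k : ℝ) + 1) ^ (-s.re))).const_mul (‖s‖ / s.re)
    have h3 : ‖s‖ / s.re * -(-s.re * x ^ (-s.re - 1)) = ‖s‖ * x ^ (-s.re - 1) := by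
      field_simp
    rw [h3] at h2
    exact h2
  have key := image_norm_le_of_norm_deriv_right_le_deriv_boundary'
    (f := fun t : ℝ => (t : ℂ) ^ (-s) - (((k : ℝ) + 1 : ℝ) : ℂ) ^ (-s))
    (f' := fun t : ℝ => -s * (t : ℂ) ^ (-s - 1))
    (a := (k : ℝ) + 1) (b := (k : ℝ) + 2)
    (B := fun t : ℝ => ‖s‖ / s.re * (((k : ℝ) + 1) ^ (-s.re) - t ^ (-s.re)))
    (B' := fun x : ℝ => ‖s‖ * x ^ (-s.re - 1))
    (fun x hx => (hfd x hx).continuousAt.continuousWithinAt)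
    (fun x hx => (hfd x ⟨hx.1, hx.2.le⟩).hasDerivWithinAt)
    (by rw [sub_self, norm_zero, sub_self, mul_zero])
    (fun x hx => (hBd x hx).continuousAt.continuousWithinAt)
    (fun x hx => (hBd x ⟨hx.1, hx.2.le⟩).hasDerivWithinAt)
    (fun x hx => by
      rw [norm_mul, norm_neg, Complex.norm_cpow_eq_rpow_re_of_pos (hpos x ⟨hx.1, hx.2.le⟩)]
      have : (-s - 1).re = -s.re - 1 := by simp
      rw [this])
    (show (k : ℝ) + 2 ∈ Set.Icc ((k : ℝ) + 1) ((k : ℝ) + 2) by constructor <;> linarith)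
  have h3 : a1_b s (k + 1) = (((k : ℝ) + 2 : ℝ) : ℂ) ^ (-s) := by
    unfold a1_b
    congr 2
    push_cast
    ring
  rw [norm_sub_rev, h3]
  exact key

theorem thm_A1 : St_A1 := by
  intro q _ χ hχ s hs v hv
  have hs0 : 0 < s.re := by linarith
  obtain ⟨N, hN⟩ : ∃ N, N = ⌊v⌋₊ := ⟨_, rfl⟩
  have hvN : v < N + 1 := by rw [hN]; exact Nat.lt_floor_add_one v
  have h1 : Ssum (cf χ) s v = ∑ k ∈ range N, χ ((k + 1 : ℕ) : ZMod q) * a1_b s k := by
    unfold Ssum cf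
    rw [← hN]
    have h2 : Icc 1 N = (range N).image (· + 1) := by
      ext n
      rw [mem_Icc, mem_image]
      constructor
      · rintro ⟨h3, h4⟩
        exact ⟨n - 1, mem_range.2 (by omega), by omega⟩
      · rintro ⟨m, hm, rfl⟩
        rw [mem_range] at hm
        omega
    rw [h2, sum_image (fun a _ b _ h => by simpa using h)]
    refine sum_congr rfl fun k _ => ?_
    unfold a1_b
    congr 2
    push_cast
    rfl
  have hsum := a1_summable χ hχ s hs0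
  have h2 := hsum.sum_add_tsum_nat_add N
  have h3 : χ.LFunction s = ∑' k : ℕ, a1_T χ (k + 1) * (a1_b s k - a1_b s (k + 1)) :=
    a1_G_eq χ hχ s (by linarith)
  rw [h1, a1_abel χ (a1_b s) N, h3, ← h2]
  have h4 : a1_T χ N * a1_b s N + ∑ k ∈ range N, a1_T χ (k + 1) * (a1_b s k - a1_b s (k + 1)) -
      (∑ k ∈ range N, a1_T χ (k + 1) * (a1_b s k - a1_b s (k + 1)) +
        ∑' i : ℕ, a1_T χ (i + N + 1) * (a1_b s (i + N) - a1_b s (i + N + 1))) =
      a1_T χ N * a1_b s N -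
        ∑' i : ℕ, a1_T χ (i + N + 1) * (a1_b s (i + N) - a1_b s (i + N + 1)) := by ring
  rw [h4]
  have hNp : (0 : ℝ) < (N : ℝ) + 1 := by positivity
  obtain ⟨c, hc⟩ : ∃ c : ℝ, c = ((N : ℝ) + 1) ^ (-s.re) := ⟨_, rfl⟩
  have hc0 : 0 ≤ c := by rw [hc]; positivity
  have h5 : ‖a1_T χ N * a1_b s N‖ ≤ q * c := by
    rw [norm_mul, a1_norm_b, hc]
    exact mul_le_mul_of_nonneg_right (a1_T_bound χ hχ N) (by positivity)
  have h6 : ‖∑' i : ℕ, a1_T χ (i + N + 1) * (a1_b s (i + N) - a1_b s (i + N + 1))‖ ≤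
      q * (‖s‖ / s.re * c) := by
    have hsn : Summable fun i : ℕ =>
        ‖a1_T χ (i + N + 1) * (a1_b s (i + N) - a1_b s (i + N + 1))‖ := by
      have h7 : Summable fun k : ℕ => ‖a1_T χ (k + 1) * (a1_b s k - a1_b s (k + 1))‖ := hsum.norm
      exact (summable_nat_add_iff N).2 h7
    refine (norm_tsum_le_tsum_norm hsn).trans ?_
    refine Real.tsum_le_of_sum_range_le (fun i => norm_nonneg _) fun n => ?_
    have h7 : ∀ i : ℕ, ‖a1_T χ (i + N + 1) * (a1_b s (i + N) - a1_b s (i + N + 1))‖ ≤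
        q * (‖s‖ / s.re * ((((i : ℕ) : ℝ) + N + 1) ^ (-s.re) -
          (((i + 1 : ℕ) : ℝ) + N + 1) ^ (-s.re))) := by
      intro i
      rw [norm_mul]
      refine mul_le_mul (a1_T_bound χ hχ _) ?_ (norm_nonneg _) (by positivity)
      refine (a1_b_sub' s hs0 (i + N)).trans (le_of_eq ?_)
      push_cast
      rw [show ((i : ℝ) + N + 2) = (i : ℝ) + 1 + N + 1 by ring]
    refine (sum_le_sum fun i _ => h7 i).trans ?_
    rw [← mul_sum, ← mul_sum, sum_range_sub']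
    have h8 : ((((0 : ℕ) : ℝ) + N + 1) ^ (-s.re)) = c := by
      rw [hc, Nat.cast_zero, zero_add]
    rw [h8]
    have h9 : 0 ≤ ((n : ℝ) + N + 1) ^ (-s.re) := by positivity
    refine mul_le_mul_of_nonneg_left (mul_le_mul_of_nonneg_left ?_ (by positivity))
      (by positivity)
    linarith
  have h7 : ‖s‖ / s.re ≤ 2 * ‖s‖ := by
    rw [div_le_iff₀ hs0]
    nlinarith [norm_nonneg s]
  have h8 : c ≤ v ^ (-s.re) := by
    rw [hc]
    exact Real.rpow_le_rpow_of_nonpos (by linarith) hvN.le (by linarith)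
  have hq : (0 : ℝ) ≤ q := by positivity
  calc ‖a1_T χ N * a1_b s N -
        ∑' i : ℕ, a1_T χ (i + N + 1) * (a1_b s (i + N) - a1_b s (i + N + 1))‖
      ≤ q * c + q * (‖s‖ / s.re * c) := (norm_sub_le _ _).trans (add_le_add h5 h6)
    _ ≤ q * c + q * (2 * ‖s‖ * c) := by
        have := mul_le_mul_of_nonneg_left (mul_le_mul_of_nonneg_right h7 hc0) hq
        linarith
    _ ≤ 4 * q * (1 + ‖s‖) * c := by
        have e1 := mul_nonneg hq hc0
        have e2 := mul_nonneg (norm_nonneg s) e1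
        nlinarith
    _ ≤ 4 * q * (1 + ‖s‖) * v ^ (-s.re) := mul_le_mul_of_nonneg_left h8 (by positivity)

end Pool.Agent.MVX
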