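import Pool.Agent.MVX.StA
import Pool.Agent.SVB.ZetaD

set_option autoImplicit false

/-!
# Project MVX [A1p]: sums of `L(s, χ₀)`
-/

namespace Pool.Agent.MVX

open Finset Filter Topology MeasureTheory Pool.Agent.SVB.ZetaDAux

/-- the formula for `ζ` to the left of `1` -/
private theorem a1p_zeta_eq {s : ℂ} (h0 : 0 < s.re) (h1 : s ≠ 1) :
    riemannZeta s = s / (s - 1) - s * G s := by
  have hU : IsPreconnected {z : ℂ | 0 < z.re} := (convex_halfSpace_re_gt 0).isPreconnected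
  have hUo : IsOpen {z : ℂ | 0 < z.re} := isOpen_lt continuous_const Complex.continuous_re
  have hf : AnalyticOnNhd ℂ (DirichletCharacter.LFunctionTrivChar₁ 1) {z : ℂ | 0 < z.re} :=
    fun z _ => (DirichletCharacter.differentiable_LFunctionTrivChar₁ 1).analyticAt z
  have hg : AnalyticOnNhd ℂ F {z : ℂ | 0 < z.re} :=
    (DifferentiableOn.analyticOnNhd (fun z hz => (F_diff hz).differentiableWithinAt) hUo)
  have h2 : (2 : ℂ) ∈ {z : ℂ | 0 < z.re} := by simp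
  have hev : DirichletCharacter.LFunctionTrivChar₁ 1 =ᶠ[𝓝 (2 : ℂ)] F := by
    have h3 : {z : ℂ | 1 < z.re} ∈ 𝓝 (2 : ℂ) :=
      (isOpen_lt continuous_const Complex.continuous_re).mem_nhds (by simp)
    filter_upwards [h3] with z hz
    have hz1 : z ≠ 1 := by
      rintro rfl
      simp at hz
    rw [DirichletCharacter.LFunctionTrivChar₁, Function.update_of_ne hz1,
      ← F_eq hz, DirichletCharacter.LFunctionTrivChar, DirichletCharacter.LFunction_modOne_eq]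
  have h4 := hf.eqOn_of_preconnected_of_eventuallyEq hg hU h2 hev (show s ∈ {z : ℂ | 0 < z.re} from h0)
  rw [DirichletCharacter.LFunctionTrivChar₁, Function.update_of_ne h1,
    DirichletCharacter.LFunctionTrivChar, DirichletCharacter.LFunction_modOne_eq] at h4
  unfold F at h4
  have h5 : s - 1 ≠ 0 := sub_ne_zero.2 h1
  have h6 : riemannZeta s = (s - s * (s - 1) * G s) / (s - 1) := by
    rw [← h4]
    field_simp
  rw [h6]
  field_simp

private theorem a1p_Icc (N : ℕ) : Icc 0 N = insert 0 (Icc 1 N) := by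
  ext k
  simp only [mem_Icc, mem_insert]
  omega

private theorem a1p_floor (t : ℝ) (ht : 0 ≤ t) : ((⌊t⌋₊ : ℕ) : ℝ) = t - Int.fract t := by
  rw [natCast_floor_eq_intCast_floor ht, Int.self_sub_fract]

/-- the sums of the zeta function -/
private theorem a1p_zeta_sum {s : ℂ} (hs : 1 / 2 ≤ s.re) (h1 : s ≠ 1) {v : ℝ} (hv : 1 ≤ v) :
    ‖∑ n ∈ Icc 1 ⌊v⌋₊, (n : ℂ) ^ (-s) - (v : ℂ) ^ (1 - s) / (1 - s) - riemannZeta s‖ ≤
      2 * (1 + ‖s‖) * v ^ (-s.re) := by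
  have h0 : 0 < s.re := by linarith
  have hv0 : 0 < v := by linarith
  have hvc : (v : ℂ) ≠ 0 := Complex.ofReal_ne_zero.2 hv0.ne'
  have hs1 : 1 - s ≠ 0 := sub_ne_zero.2 (Ne.symm h1)
  have hs2 : s - 1 ≠ 0 := sub_ne_zero.2 h1
  have hder : ∀ t : ℝ, 0 < t → HasDerivAt (fun t : ℝ => (t : ℂ) ^ (-s)) (-s * (t : ℂ) ^ (-(s + 1))) t := by
    intro t ht
    have h2 : HasDerivAt (fun z : ℂ => z ^ (-s)) (-s * (t : ℂ) ^ (-s - 1) * 1) (t : ℂ) :=
      (hasDerivAt_id (t : ℂ)).cpow_const (Or.inl (by simpa using ht))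
    rw [mul_one] at h2
    have h3 := h2.comp_ofReal
    rw [show -s - 1 = -(s + 1) by ring] at h3
    exact h3
  have hcont : ContinuousOn (fun t : ℝ => -s * (t : ℂ) ^ (-(s + 1))) (Set.Icc 1 v) := by
    refine continuousOn_const.mul ?_
    intro t ht
    have ht0 : 0 < t := by linarith [ht.1]
    exact (Complex.continuousAt_ofReal_cpow_const t _ (Or.inr ht0.ne')).continuousWithinAt
  have hdeq : Set.EqOn (deriv (fun t : ℝ => (t : ℂ) ^ (-s))) (fun t : ℝ => -s * (t : ℂ) ^ (-(s + 1)))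
      (Set.Icc 1 v) := fun t ht => (hder t (by linarith [ht.1])).deriv
  have hint : IntegrableOn (deriv (fun t : ℝ => (t : ℂ) ^ (-s))) (Set.Icc 1 v) := by
    have h2 : IntegrableOn (fun t : ℝ => -s * (t : ℂ) ^ (-(s + 1))) (Set.Icc 1 v) :=
      hcont.integrableOn_Icc
    exact h2.congr_fun hdeq.symm measurableSet_Icc
  have habel := sum_mul_eq_sub_integral_mul₀ (f := fun t : ℝ => (t : ℂ) ^ (-s))
    (fun k : ℕ => if k = 0 then (0 : ℂ) else 1) (by simp) v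
    (fun t ht => (hder t (by linarith [ht.1])).differentiableAt) hint
  have hcs : ∀ N : ℕ, ∑ k ∈ Icc 0 N, (if k = 0 then (0 : ℂ) else 1) = N := by
    intro N
    rw [a1p_Icc, sum_insert (by simp)]
    simp only [if_true, zero_add]
    rw [sum_congr rfl (fun k hk => if_neg (by rw [mem_Icc] at hk; omega)), sum_const, Nat.card_Icc]
    simp
  have hlhs : ∑ k ∈ Icc 0 ⌊v⌋₊, ((k : ℝ) : ℂ) ^ (-s) * (if k = 0 then (0 : ℂ) else 1) =
      ∑ n ∈ Icc 1 ⌊v⌋₊, (n : ℂ) ^ (-s) := by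
    rw [a1p_Icc, sum_insert (by simp)]
    simp only [if_true, mul_zero, zero_add]
    refine sum_congr rfl fun k hk => ?_
    rw [if_neg (by rw [mem_Icc] at hk; omega), mul_one, Complex.ofReal_natCast]
  simp only [hcs] at habel
  rw [hlhs] at habel
  have hi1 : IntegrableOn (fun t : ℝ => ((Int.fract t : ℝ) : ℂ) * (t : ℂ) ^ (-(s + 1)))
      (Set.Ioi (1 : ℝ)) := G_integrable h0
  have hi2 : IntegrableOn (fun t : ℝ => ((Int.fract t : ℝ) : ℂ) * (t : ℂ) ^ (-(s + 1)))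
      (Set.Ioi v) := hi1.mono_set (Set.Ioi_subset_Ioi hv)
  have hi3 : IntegrableOn (fun t : ℝ => ((Int.fract t : ℝ) : ℂ) * (t : ℂ) ^ (-(s + 1)))
      (Set.Ioc 1 v) := hi1.mono_set Set.Ioc_subset_Ioi_self
  have hi4 : IntegrableOn (fun t : ℝ => (t : ℂ) ^ (-s)) (Set.Ioc 1 v) := by
    have h2 : ContinuousOn (fun t : ℝ => (t : ℂ) ^ (-s)) (Set.Icc 1 v) := by
      intro t ht
      have ht0 : 0 < t := by linarith [ht.1]
      exact (Complex.continuousAt_ofReal_cpow_const t _ (Or.inr ht0.ne')).continuousWithinAt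
    exact h2.integrableOn_Icc.mono_set Set.Ioc_subset_Icc_self
  have hG : G s = (∫ t in Set.Ioc 1 v, ((Int.fract t : ℝ) : ℂ) * (t : ℂ) ^ (-(s + 1))) +
      ∫ t in Set.Ioi v, ((Int.fract t : ℝ) : ℂ) * (t : ℂ) ^ (-(s + 1)) := by
    rw [G_eq, ← Set.Ioc_union_Ioi_eq_Ioi hv, setIntegral_union
      (Set.Ioc_disjoint_Ioi le_rfl) measurableSet_Ioi hi3 hi2]
  have hint2 : ∫ t in Set.Ioc 1 v, deriv (fun t : ℝ => (t : ℂ) ^ (-s)) t * (⌊t⌋₊ : ℂ) =
      -s * (∫ t in Set.Ioc 1 v, (t : ℂ) ^ (-s)) +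
        s * ∫ t in Set.Ioc 1 v, ((Int.fract t : ℝ) : ℂ) * (t : ℂ) ^ (-(s + 1)) := by
    rw [← integral_const_mul, ← integral_const_mul, ← integral_add (hi4.const_mul _)
      (hi3.const_mul _)]
    refine setIntegral_congr_fun measurableSet_Ioc fun t ht => ?_
    have ht0 : 0 < t := lt_trans one_pos ht.1
    have htc : (t : ℂ) ≠ 0 := Complex.ofReal_ne_zero.2 ht0.ne'
    have e0 : deriv (fun t : ℝ => (t : ℂ) ^ (-s)) t = -s * (t : ℂ) ^ (-(s + 1)) := (hder t ht0).deriv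
    have e1 : ((⌊t⌋₊ : ℕ) : ℂ) = (t : ℂ) - ((Int.fract t : ℝ) : ℂ) := by
      have := a1p_floor t ht0.le
      rw [← Complex.ofReal_natCast, this, Complex.ofReal_sub]
    have e2 : (t : ℂ) ^ (-s) = (t : ℂ) * (t : ℂ) ^ (-(s + 1)) := by
      have h : -s = 1 + -(s + 1) := by ring
      rw [h, Complex.cpow_add _ _ htc, Complex.cpow_one]
    rw [e0, e1, e2]
    ring
  have hint3 : ∫ t in Set.Ioc 1 v, (t : ℂ) ^ (-s) = ((v : ℂ) ^ (1 - s) - 1) / (1 - s) := by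
    rw [← intervalIntegral.integral_of_le hv]
    have h2 := integral_cpow (a := 1) (b := v) (r := -s)
      (Or.inr ⟨fun h => h1 (by
        have := congrArg (fun z : ℂ => -z) h
        simpa using this), by
        rw [Set.uIcc_of_le hv]
        intro h
        linarith [h.1]⟩)
    rw [h2]
    rw [show -s + 1 = 1 - s by ring]
    simp
  rw [hint2, hint3] at habel
  have hfl : ((⌊v⌋₊ : ℕ) : ℂ) = (v : ℂ) - ((Int.fract v : ℝ) : ℂ) := by
    have := a1p_floor v hv0.le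
    rw [← Complex.ofReal_natCast, this, Complex.ofReal_sub]
  have hvs : (v : ℂ) ^ (1 - s) = (v : ℂ) * (v : ℂ) ^ (-s) := by
    rw [show 1 - s = 1 + -s by ring, Complex.cpow_add _ _ hvc, Complex.cpow_one]
  have hmain : ∑ n ∈ Icc 1 ⌊v⌋₊, (n : ℂ) ^ (-s) - (v : ℂ) ^ (1 - s) / (1 - s) - riemannZeta s =
      -(((Int.fract v : ℝ) : ℂ) * (v : ℂ) ^ (-s)) +
        s * ∫ t in Set.Ioi v, ((Int.fract t : ℝ) : ℂ) * (t : ℂ) ^ (-(s + 1)) := by
    rw [habel, a1p_zeta_eq h0 h1, hG, hfl, hvs]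
    have h2 : s / (s - 1) = -(s / (1 - s)) := by
      rw [← neg_sub, div_neg]
    rw [h2]
    field_simp
    ring
  rw [hmain]
  have hb1 : ‖((Int.fract v : ℝ) : ℂ) * (v : ℂ) ^ (-s)‖ ≤ v ^ (-s.re) := by
    rw [norm_mul, Complex.norm_cpow_eq_rpow_re_of_pos hv0, Complex.norm_real, Real.norm_eq_abs,
      abs_of_nonneg (Int.fract_nonneg v), Complex.neg_re]
    calc Int.fract v * v ^ (-s.re) ≤ 1 * v ^ (-s.re) :=
          mul_le_mul_of_nonneg_right (Int.fract_lt_one v).le (by positivity)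
      _ = v ^ (-s.re) := one_mul _
  have hb2 : ‖∫ t in Set.Ioi v, ((Int.fract t : ℝ) : ℂ) * (t : ℂ) ^ (-(s + 1))‖ ≤
      2 * v ^ (-s.re) := by
    have h2 : IntegrableOn (fun t : ℝ => t ^ (-(s.re + 1))) (Set.Ioi v) :=
      integrableOn_Ioi_rpow_of_lt (by linarith) hv0
    have h3 : ∫ t in Set.Ioi v, t ^ (-(s.re + 1)) = v ^ (-s.re) / s.re := by
      rw [integral_Ioi_rpow_of_lt (by linarith) hv0]
      have h3 : -(s.re + 1) + 1 = -s.re := by ring
      rw [h3, neg_div_neg_eq]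
    have h4 : v ^ (-s.re) / s.re ≤ 2 * v ^ (-s.re) := by
      rw [div_le_iff₀ h0]
      have : 0 ≤ v ^ (-s.re) := by positivity
      nlinarith
    refine le_trans ?_ h4
    rw [← h3]
    refine norm_integral_le_of_norm_le h2 ?_
    filter_upwards [ae_restrict_mem measurableSet_Ioi] with t ht
    have ht0 : (0 : ℝ) < t := lt_trans hv0 ht
    rw [norm_mul, Complex.norm_cpow_eq_rpow_re_of_pos ht0, Complex.norm_real, Real.norm_eq_abs,
      abs_of_nonneg (Int.fract_nonneg t)]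
    have h3 : (-(s + 1)).re = -(s.re + 1) := by simp
    rw [h3]
    calc Int.fract t * t ^ (-(s.re + 1)) ≤ 1 * t ^ (-(s.re + 1)) :=
          mul_le_mul_of_nonneg_right (Int.fract_lt_one t).le (by positivity)
      _ = t ^ (-(s.re + 1)) := one_mul _
  refine (norm_add_le _ _).trans ?_
  rw [norm_neg, norm_mul s]
  have h5 : ‖s‖ * ‖∫ t in Set.Ioi v, ((Int.fract t : ℝ) : ℂ) * (t : ℂ) ^ (-(s + 1))‖ ≤
      ‖s‖ * (2 * v ^ (-s.re)) := mul_le_mul_of_nonneg_left hb2 (norm_nonneg _)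
  have h6 : 0 ≤ v ^ (-s.re) := by positivity
  nlinarith [h5, hb1, h6]

/-- the same for all positive `u` -/
private theorem a1p_zeta_all {s : ℂ} (hs : 1 / 2 ≤ s.re) (h1 : s ≠ 1) {u : ℝ} (hu : 0 < u) :
    ‖∑ n ∈ Icc 1 ⌊u⌋₊, (n : ℂ) ^ (-s) - (u : ℂ) ^ (1 - s) / (1 - s) - riemannZeta s‖ ≤
      4 * (1 + ‖s‖) * u ^ (-s.re) := by
  have hn := norm_nonneg s
  rcases le_or_gt 1 u with h | h
  · refine (a1p_zeta_sum hs h1 h).trans ?_
    have : 0 ≤ u ^ (-s.re) := by positivity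
    have h2 : 2 * (1 + ‖s‖) ≤ 4 * (1 + ‖s‖) := by linarith
    exact mul_le_mul_of_nonneg_right h2 this
  · have hs1 : 1 - s ≠ 0 := sub_ne_zero.2 (Ne.symm h1)
    have hfl : ⌊u⌋₊ = 0 := Nat.floor_eq_zero.2 h
    have h2 := a1p_zeta_sum hs h1 (le_refl (1 : ℝ))
    rw [Nat.floor_one, Icc_self, sum_singleton, Nat.cast_one, Complex.one_cpow, Complex.ofReal_one,
      Complex.one_cpow, Real.one_rpow, mul_one] at h2
    have hu1 : 1 ≤ u ^ (-s.re) := Real.one_le_rpow_of_pos_of_le_one_of_nonpos hu h.le (by linarith)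
    have hder : ∀ t ∈ Set.Icc u 1, HasDerivWithinAt (fun t : ℝ => (t : ℂ) ^ (1 - s))
        ((1 - s) * (t : ℂ) ^ (-s)) (Set.Icc u 1) t := by
      intro t ht
      have ht0 : 0 < t := by linarith [ht.1]
      have h2 : HasDerivAt (fun z : ℂ => z ^ (1 - s)) ((1 - s) * (t : ℂ) ^ (1 - s - 1) * 1) (t : ℂ) :=
        (hasDerivAt_id (t : ℂ)).cpow_const (Or.inl (by simpa using ht0))
      rw [mul_one] at h2
      have h3 := h2.comp_ofReal
      rw [show 1 - s - 1 = -s by ring] at h3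
      exact h3.hasDerivWithinAt
    have hbd : ∀ t ∈ Set.Icc u 1, ‖(1 - s) * (t : ℂ) ^ (-s)‖ ≤ ‖1 - s‖ * u ^ (-s.re) := by
      intro t ht
      have ht0 : 0 < t := by linarith [ht.1]
      rw [norm_mul, Complex.norm_cpow_eq_rpow_re_of_pos ht0, Complex.neg_re]
      exact mul_le_mul_of_nonneg_left (Real.rpow_le_rpow_of_nonpos hu ht.1 (by linarith))
        (norm_nonneg _)
    have h3 := (convex_Icc u 1).norm_image_sub_le_of_norm_hasDerivWithin_le hder hbd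
      (Set.left_mem_Icc.2 h.le) (Set.right_mem_Icc.2 h.le)
    rw [Complex.ofReal_one, Complex.one_cpow, Real.norm_eq_abs, abs_of_pos (by linarith)] at h3
    have h4 : ‖(1 - (u : ℂ) ^ (1 - s)) / (1 - s)‖ ≤ u ^ (-s.re) := by
      rw [norm_div, div_le_iff₀ (norm_pos_iff.2 hs1)]
      refine h3.trans ?_
      have h5 : 0 ≤ ‖1 - s‖ * u ^ (-s.re) := by positivity
      nlinarith
    rw [hfl, Icc_eq_empty (by norm_num), sum_empty]
    have h6 : (0 : ℂ) - (u : ℂ) ^ (1 - s) / (1 - s) - riemannZeta s =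
        (1 - 1 / (1 - s) - riemannZeta s) - 1 + (1 - (u : ℂ) ^ (1 - s)) / (1 - s) := by
      field_simp
      ring
    rw [h6]
    refine (norm_add_le _ _).trans ?_
    have h7 : ‖(1 - 1 / (1 - s) - riemannZeta s) - 1‖ ≤ 2 * (1 + ‖s‖) + 1 :=
      (norm_sub_le _ _).trans (by rw [norm_one]; linarith)
    nlinarith [h7, h4, hu1, hn]

/-- sums over the integers without prime factors in `P` -/
private noncomputable def a1p_A (P : Finset ℕ) (s : ℂ) (v : ℝ) : ℂ :=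
  ∑ n ∈ (Icc 1 ⌊v⌋₊).filter (fun n => ∀ p ∈ P, ¬ p ∣ n), (n : ℂ) ^ (-s)

private theorem a1p_A_insert {P : Finset ℕ} {p : ℕ} (hp : p.Prime) (hP : ∀ r ∈ P, r.Prime)
    (hpP : p ∉ P) (s : ℂ) (v : ℝ) :
    a1p_A (insert p P) s v = a1p_A P s v - (p : ℂ) ^ (-s) * a1p_A P s (v / p) := by
  have h1 : (Icc 1 ⌊v⌋₊).filter (fun n => ∀ r ∈ insert p P, ¬ r ∣ n) =
      ((Icc 1 ⌊v⌋₊).filter (fun n => ∀ r ∈ P, ¬ r ∣ n)).filter (fun n => ¬ p ∣ n) := by
    ext n
    simp only [mem_filter, mem_insert, forall_eq_or_imp]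
    tauto
  have h2 : ∑ n ∈ ((Icc 1 ⌊v⌋₊).filter (fun n => ∀ r ∈ P, ¬ r ∣ n)).filter (fun n => p ∣ n),
      (n : ℂ) ^ (-s) = (p : ℂ) ^ (-s) * a1p_A P s (v / p) := by
    unfold a1p_A
    rw [mul_sum]
    symm
    have hfl : ⌊v / (p : ℝ)⌋₊ = ⌊v⌋₊ / p := Nat.floor_div_natCast v p
    refine sum_bij (fun m _ => p * m) ?_ ?_ ?_ ?_
    · intro m hm
      rw [mem_filter, mem_Icc, hfl] at hm
      obtain ⟨⟨hm1, hm2⟩, hm3⟩ := hm
      rw [mem_filter, mem_filter, mem_Icc]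
      refine ⟨⟨⟨Nat.mul_pos hp.pos hm1, ?_⟩, ?_⟩, Dvd.intro _ rfl⟩
      · rw [mul_comm]
        exact (Nat.le_div_iff_mul_le hp.pos).1 hm2
      · intro r hr hd
        rcases (hP r hr).dvd_mul.1 hd with h | h
        · rw [(Nat.prime_dvd_prime_iff_eq (hP r hr) hp).1 h] at hr
          exact hpP hr
        · exact hm3 r hr h
    · intro a _ b _ h
      exact Nat.eq_of_mul_eq_mul_left hp.pos h
    · intro n hn
      rw [mem_filter, mem_filter, mem_Icc] at hn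
      obtain ⟨⟨⟨hn1, hn2⟩, hn3⟩, m, rfl⟩ := hn
      refine ⟨m, ?_, rfl⟩
      rw [mem_filter, mem_Icc, hfl]
      refine ⟨⟨Nat.pos_of_ne_zero (by rintro rfl; simp at hn1), ?_⟩, ?_⟩
      · rw [Nat.le_div_iff_mul_le hp.pos, mul_comm]
        exact hn2
      · intro r hr hd
        exact hn3 r hr (Dvd.dvd.mul_left hd p)
    · intro m _
      rw [Nat.cast_mul, Complex.natCast_mul_natCast_cpow]
  rw [← h2]
  unfold a1p_A
  rw [h1, eq_sub_iff_add_eq, add_comm]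
  exact sum_filter_add_sum_filter_not _ _ _

private theorem a1p_A_bound {s : ℂ} (hs : 1 / 2 ≤ s.re) (h1 : s ≠ 1) (P : Finset ℕ)
    (hP : ∀ r ∈ P, r.Prime) : ∀ v : ℝ, 0 < v →
    ‖a1p_A P s v - (∏ p ∈ P, (1 - (p : ℂ)⁻¹)) * ((v : ℂ) ^ (1 - s) / (1 - s)) -
      riemannZeta s * ∏ p ∈ P, (1 - (p : ℂ) ^ (-s))‖ ≤
      2 ^ P.card * (4 * (1 + ‖s‖)) * v ^ (-s.re) := by
  induction P using Finset.induction_on with
  | empty =>
    intro v hv
    have h2 : a1p_A ∅ s v = ∑ n ∈ Icc 1 ⌊v⌋₊, (n : ℂ) ^ (-s) := by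
      unfold a1p_A
      simp
    rw [h2]
    simp only [prod_empty, one_mul, mul_one, card_empty, pow_zero]
    exact a1p_zeta_all hs h1 hv
  | insert p P hpP ih =>
    intro v hv
    have hp : p.Prime := hP p (mem_insert_self p P)
    have hP' : ∀ r ∈ P, r.Prime := fun r hr => hP r (mem_insert_of_mem hr)
    have hp0 : (0 : ℝ) < p := by exact_mod_cast hp.pos
    have hpc : (p : ℂ) ≠ 0 := by exact_mod_cast hp.ne_zero
    have ih1 := ih hP' v hv
    have ih2 := ih hP' (v / p) (div_pos hv hp0)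
    rw [a1p_A_insert hp hP' hpP s v, prod_insert hpP, prod_insert hpP, card_insert_of_notMem hpP]
    have h2 : ((v / p : ℝ) : ℂ) ^ (1 - s) = (v : ℂ) ^ (1 - s) * (p : ℂ) ^ (s - 1) := by
      have h3 : ((v / p : ℝ) : ℂ) = (v : ℂ) / ((p : ℝ) : ℂ) := by
        push_cast
        rfl
      rw [h3, Complex.div_cpow_ofReal_nonneg hv.le hp0.le, div_eq_mul_inv, Complex.ofReal_natCast,
        ← Complex.cpow_neg, neg_sub]
    have h3 : (p : ℂ) ^ (-s) * (p : ℂ) ^ (s - 1) = (p : ℂ)⁻¹ := by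
      rw [← Complex.cpow_add _ _ hpc, show -s + (s - 1) = -1 by ring, Complex.cpow_neg_one]
    have h4 : ‖(p : ℂ) ^ (-s)‖ = (p : ℝ) ^ (-s.re) := by
      rw [← Complex.ofReal_natCast, Complex.norm_cpow_eq_rpow_re_of_pos hp0, Complex.neg_re]
    have h5 : (p : ℝ) ^ (-s.re) * (v / p) ^ (-s.re) = v ^ (-s.re) := by
      rw [← Real.mul_rpow hp0.le (by positivity)]
      congr 1
      field_simp
    have h6 : a1p_A P s v - (p : ℂ) ^ (-s) * a1p_A P s (v / p) -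
        ((1 - (p : ℂ)⁻¹) * ∏ r ∈ P, (1 - (r : ℂ)⁻¹)) * ((v : ℂ) ^ (1 - s) / (1 - s)) -
        riemannZeta s * ((1 - (p : ℂ) ^ (-s)) * ∏ r ∈ P, (1 - (r : ℂ) ^ (-s))) =
        (a1p_A P s v - (∏ r ∈ P, (1 - (r : ℂ)⁻¹)) * ((v : ℂ) ^ (1 - s) / (1 - s)) -
          riemannZeta s * ∏ r ∈ P, (1 - (r : ℂ) ^ (-s))) -
        (p : ℂ) ^ (-s) * (a1p_A P s (v / p) -
          (∏ r ∈ P, (1 - (r : ℂ)⁻¹)) * (((v / p : ℝ) : ℂ) ^ (1 - s) / (1 - s)) -
          riemannZeta s * ∏ r ∈ P, (1 - (r : ℂ) ^ (-s))) := by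
      rw [h2, ← h3]
      ring
    rw [h6]
    refine (norm_sub_le _ _).trans ?_
    rw [norm_mul, h4]
    have h7 := mul_le_mul_of_nonneg_left ih2 (show 0 ≤ (p : ℝ) ^ (-s.re) by positivity)
    have h8 : (p : ℝ) ^ (-s.re) * (2 ^ P.card * (4 * (1 + ‖s‖)) * (v / p) ^ (-s.re)) =
        2 ^ P.card * (4 * (1 + ‖s‖)) * v ^ (-s.re) := by
      rw [← h5]
      ring
    rw [h8] at h7
    calc _ ≤ 2 ^ P.card * (4 * (1 + ‖s‖)) * v ^ (-s.re) +
          2 ^ P.card * (4 * (1 + ‖s‖)) * v ^ (-s.re) := add_le_add ih1 h7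
      _ = _ := by
        rw [pow_succ]
        ring

theorem thm_A1p : St_A1p := by
  refine ⟨4, by norm_num, ?_⟩
  intro q _ s hs h1 v hv
  have hq : q ≠ 0 := NeZero.ne q
  have hP : ∀ r ∈ q.primeFactors, r.Prime := fun r hr => Nat.prime_of_mem_primeFactors hr
  have h2 := a1p_A_bound hs h1 q.primeFactors hP v (by linarith)
  have h3 : Ssum (cf (1 : DirichletCharacter ℂ q)) s v = a1p_A q.primeFactors s v := by
    unfold Ssum a1p_A cf
    rw [sum_filter]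
    refine sum_congr rfl fun n hn => ?_
    by_cases hc : Nat.Coprime n q
    · rw [if_pos, MulChar.one_apply ((ZMod.isUnit_iff_coprime n q).2 hc), one_mul]
      intro r hr hd
      have h4 := Nat.Coprime.eq_one_of_dvd (Nat.Coprime.coprime_dvd_left hd hc)
        (Nat.dvd_of_mem_primeFactors hr)
      exact (hP r hr).one_lt.ne' h4
    · rw [if_neg, MulChar.map_nonunit _ (fun h => hc ((ZMod.isUnit_iff_coprime n q).1 h)), zero_mul]
      intro h4
      obtain ⟨r, hr, hr1, hr2⟩ := Nat.Prime.not_coprime_iff_dvd.1 hc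
      exact h4 r (Nat.mem_primeFactors.2 ⟨hr, hr2, hq⟩) hr1
  have h4 : (∏ p ∈ q.primeFactors, (1 - (p : ℂ)⁻¹)) = (Nat.totient q : ℂ) / q := by
    have h5 := Nat.totient_eq_mul_prod_factors q
    have h6 : ((Nat.totient q : ℚ) : ℂ) = ((q * ∏ p ∈ q.primeFactors, (1 - (p : ℚ)⁻¹) : ℚ) : ℂ) := by
      rw [← h5]
    push_cast at h6
    rw [h6]
    have : (q : ℂ) ≠ 0 := by exact_mod_cast hq
    field_simp
  have h5 : (1 : DirichletCharacter ℂ q).LFunction s =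
      riemannZeta s * ∏ p ∈ q.primeFactors, (1 - (p : ℂ) ^ (-s)) := by
    have h6 := DirichletCharacter.LFunctionTrivChar_eq_mul_riemannZeta (N := q) h1
    unfold DirichletCharacter.LFunctionTrivChar at h6
    rw [h6, mul_comm]
  rw [h3, ← h4, h5]
  refine h2.trans ?_
  have h6 : (2 : ℝ) ^ q.primeFactors.card ≤ q := by
    have h7 : 2 ^ q.primeFactors.card ≤ ∏ p ∈ q.primeFactors, p :=
      Finset.pow_card_le_prod _ _ _ (fun p hp => (hP p hp).two_le)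
    have h8 : ∏ p ∈ q.primeFactors, p ≤ q :=
      Nat.le_of_dvd (Nat.pos_of_ne_zero hq) (Nat.prod_primeFactors_dvd q)
    exact_mod_cast h7.trans h8
  have h7 : 0 ≤ v ^ (-s.re) := by positivity
  have h8 := norm_nonneg s
  have h9 := mul_le_mul_of_nonneg_right h6 (show 0 ≤ 4 * (1 + ‖s‖) * v ^ (-s.re) by positivity)
  calc 2 ^ q.primeFactors.card * (4 * (1 + ‖s‖)) * v ^ (-s.re)
      = 2 ^ q.primeFactors.card * (4 * (1 + ‖s‖) * v ^ (-s.re)) := by ring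
    _ ≤ q * (4 * (1 + ‖s‖) * v ^ (-s.re)) := h9
    _ = 4 * q * (1 + ‖s‖) * v ^ (-s.re) := by ring

end Pool.Agent.MVX
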