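import Pool.Agent.MVX.StA
import Pool.Agent.Helper52.MDLower

set_option autoImplicit false

/-!
# Project MVX [A2]: growth of `Lf`, lower bound, logarithmic derivative
-/

namespace Pool.Agent.MVX

open Finset Filter Topology

private theorem a2_Ssum_one {q : ℕ} (χ : DirichletCharacter ℂ q) (s : ℂ) :
    Ssum (cf χ) s 1 = 1 := by
  unfold Ssum cf
  rw [Nat.floor_one, Icc_self, sum_singleton, Nat.cast_one, Nat.cast_one, map_one,
    Complex.one_cpow, one_mul]

private theorem a2_up_ne (h1 : St_A1) {q : ℕ} [NeZero q] {χ : DirichletCharacter ℂ q} (hχ : χ ≠ 1)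
    {z : ℂ} (hz : 1 / 2 ≤ z.re) : ‖χ.LFunction z‖ ≤ 5 * q * (1 + ‖z‖) := by
  have h2 := h1 q χ hχ z hz 1 le_rfl
  rw [a2_Ssum_one, Real.one_rpow, mul_one] at h2
  have hq : (1 : ℝ) ≤ q := by exact_mod_cast Nat.one_le_iff_ne_zero.2 (NeZero.ne q)
  have h3 : ‖χ.LFunction z‖ ≤ ‖1 - χ.LFunction z‖ + 1 := by
    have h4 : χ.LFunction z = 1 - (1 - χ.LFunction z) := by ring
    calc ‖χ.LFunction z‖ = ‖1 - (1 - χ.LFunction z)‖ := by rw [← h4]
      _ ≤ ‖(1 : ℂ)‖ + ‖1 - χ.LFunction z‖ := norm_sub_le _ _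
      _ = ‖1 - χ.LFunction z‖ + 1 := by rw [norm_one, add_comm]
  have h4 := norm_nonneg z
  have h5 : 1 ≤ q * (1 + ‖z‖) := by nlinarith
  nlinarith

private theorem a2_Lf_one_apply {q : ℕ} [NeZero q] {z : ℂ} (hz : z ≠ 1) :
    Lf (1 : DirichletCharacter ℂ q) z = (z - 1) * (1 : DirichletCharacter ℂ q).LFunction z := by
  rw [Lf_one, DirichletCharacter.LFunctionTrivChar₁, Function.update_of_ne hz]

private theorem a2_up_one {C : ℝ} {q : ℕ} [NeZero q]
    (h2 : ∀ (s : ℂ), 1 / 2 ≤ s.re → s ≠ 1 → ∀ v : ℝ, 1 ≤ v →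
    ‖Ssum (cf (1 : DirichletCharacter ℂ q)) s v
      - ((Nat.totient q : ℂ) / q) * ((v : ℂ) ^ (1 - s) / (1 - s))
      - (1 : DirichletCharacter ℂ q).LFunction s‖ ≤ C * q * (1 + ‖s‖) * v ^ (-s.re))
    {z : ℂ} (hz : 1 / 2 ≤ z.re) (hz1 : z ≠ 1) :
    ‖Lf (1 : DirichletCharacter ℂ q) z‖ ≤ (C + 2) * q * (1 + ‖z‖) ^ 2 := by
  have h3 := h2 z hz hz1 1 le_rfl
  rw [a2_Ssum_one, Real.one_rpow, mul_one, Complex.ofReal_one, Complex.one_cpow] at h3
  have hq : (1 : ℝ) ≤ q := by exact_mod_cast Nat.one_le_iff_ne_zero.2 (NeZero.ne q)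
  have hzs : 1 - z ≠ 0 := sub_ne_zero.2 (Ne.symm hz1)
  have hn := norm_nonneg z
  have h4 : ‖z - 1‖ ≤ 1 + ‖z‖ := by
    have := norm_sub_le z 1
    rw [norm_one] at this
    linarith
  have h5 : ‖((Nat.totient q : ℂ) / q)‖ ≤ 1 := by
    rw [norm_div, Complex.norm_natCast, Complex.norm_natCast, div_le_one (by linarith)]
    exact_mod_cast Nat.totient_le q
  have h6 : ‖(z - 1) * (((Nat.totient q : ℂ) / q) * (1 / (1 - z)))‖ ≤ 1 := by
    have e : (z - 1) * (((Nat.totient q : ℂ) / q) * (1 / (1 - z))) = -((Nat.totient q : ℂ) / q) := by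
      field_simp
      ring
    rw [e, norm_neg]
    exact h5
  rw [a2_Lf_one_apply hz1]
  have h7 : (z - 1) * (1 : DirichletCharacter ℂ q).LFunction z =
      (z - 1) - (z - 1) * (((Nat.totient q : ℂ) / q) * (1 / (1 - z))) -
      (z - 1) * (1 - ((Nat.totient q : ℂ) / q) * (1 / (1 - z)) -
        (1 : DirichletCharacter ℂ q).LFunction z) := by ring
  rw [h7]
  refine (norm_sub_le _ _).trans ?_
  rw [norm_mul (z - 1) (1 - ((Nat.totient q : ℂ) / q) * (1 / (1 - z)) -
        (1 : DirichletCharacter ℂ q).LFunction z)]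
  have h8 := norm_sub_le (z - 1) ((z - 1) * (((Nat.totient q : ℂ) / q) * (1 / (1 - z))))
  have h9 := mul_le_mul h4 h3 (norm_nonneg _) (by linarith)
  have h10 : (1 + ‖z‖) ^ 2 ≤ q * (1 + ‖z‖) ^ 2 := le_mul_of_one_le_left (by positivity) hq
  have h11 : 1 + ‖z‖ ≤ (1 + ‖z‖) ^ 2 := by nlinarith
  nlinarith [h8, h9, h6, h4, h10, h11]

/-- `-ζ'/ζ` near `1` -/
private theorem a2_zeta : ∃ B : ℝ, 1 ≤ B ∧ ∀ σ : ℝ, 1 < σ → σ ≤ 2 →
    ‖- deriv riemannZeta (σ : ℂ) / riemannZeta (σ : ℂ)‖ ≤ B / (σ - 1) := by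
  obtain ⟨Z, hZ⟩ : ∃ Z : ℂ → ℂ, Z = DirichletCharacter.LFunctionTrivChar₁ 1 := ⟨_, rfl⟩
  have hd : Differentiable ℂ Z := by
    rw [hZ]
    exact DirichletCharacter.differentiable_LFunctionTrivChar₁ 1
  have hne : ∀ z : ℂ, 1 ≤ z.re → Z z ≠ 0 := by
    intro z hz
    have := Lf_ne_zero (1 : DirichletCharacter ℂ 1) hz
    rw [Lf_one] at this
    rw [hZ]
    exact this
  have hcont : ContinuousOn (fun σ : ℝ => deriv Z (σ : ℂ) / Z (σ : ℂ)) (Set.Icc 1 2) := by
    refine ContinuousOn.div ?_ ?_ ?_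
    · exact ((hd.contDiff (n := 1)).continuous_deriv le_rfl |>.comp
        Complex.continuous_ofReal).continuousOn
    · exact (hd.continuous.comp Complex.continuous_ofReal).continuousOn
    · intro σ hσ
      exact hne _ (by simpa using hσ.1)
  obtain ⟨B, hB⟩ := isCompact_Icc.exists_bound_of_continuousOn hcont
  have hB0 : 0 ≤ B := (norm_nonneg _).trans (hB 1 ⟨le_rfl, by norm_num⟩)
  refine ⟨1 + B, by linarith, ?_⟩
  intro σ h1 h2
  have hσ : (1 : ℝ) < ((σ : ℂ)).re := by simpa using h1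
  have hσ1 : (σ : ℂ) ≠ 1 := by
    intro h
    rw [h] at hσ
    simp at hσ
  have hz0 : riemannZeta (σ : ℂ) ≠ 0 := riemannZeta_ne_zero_of_one_lt_re hσ
  have hev : Z =ᶠ[𝓝 (σ : ℂ)] fun z => (z - 1) * riemannZeta z := by
    filter_upwards [isOpen_ne.mem_nhds hσ1] with z hz
    rw [hZ, DirichletCharacter.LFunctionTrivChar₁, Function.update_of_ne hz,
      DirichletCharacter.LFunctionTrivChar, DirichletCharacter.LFunction_modOne_eq]
  have hder : deriv Z (σ : ℂ) = riemannZeta (σ : ℂ) + ((σ : ℂ) - 1) * deriv riemannZeta (σ : ℂ) := by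
    rw [hev.deriv_eq]
    have h3 : HasDerivAt (fun z : ℂ => (z - 1) * riemannZeta z)
        (1 * riemannZeta (σ : ℂ) + ((σ : ℂ) - 1) * deriv riemannZeta (σ : ℂ)) (σ : ℂ) :=
      ((hasDerivAt_id (σ : ℂ)).sub_const 1).mul
        (differentiableAt_riemannZeta hσ1).hasDerivAt
    rw [h3.deriv, one_mul]
  have hval : Z (σ : ℂ) = ((σ : ℂ) - 1) * riemannZeta (σ : ℂ) := hev.eq_of_nhds
  have hs0 : (σ : ℂ) - 1 ≠ 0 := sub_ne_zero.2 hσ1
  have h3 : - deriv riemannZeta (σ : ℂ) / riemannZeta (σ : ℂ) =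
      1 / ((σ : ℂ) - 1) - deriv Z (σ : ℂ) / Z (σ : ℂ) := by
    rw [hder, hval]
    field_simp
    ring
  rw [h3]
  refine (norm_sub_le _ _).trans ?_
  have h4 : ‖1 / ((σ : ℂ) - 1)‖ = 1 / (σ - 1) := by
    rw [norm_div, norm_one]
    congr 1
    rw [show (σ : ℂ) - 1 = ((σ - 1 : ℝ) : ℂ) by push_cast; rfl, Complex.norm_real,
      Real.norm_eq_abs, abs_of_pos (by linarith)]
  rw [h4]
  have h5 := hB σ ⟨h1.le, h2⟩
  have h6 : B ≤ B / (σ - 1) := by
    rw [le_div_iff₀ (by linarith)]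
    nlinarith
  rw [add_div]
  linarith

/-- the twisted series of the von Mangoldt function -/
private theorem a2_mang : ∃ B : ℝ, 1 ≤ B ∧ ∀ (q : ℕ) (χ : DirichletCharacter ℂ q) (s : ℂ),
    1 < s.re → s.re ≤ 2 →
    ‖LSeries ((fun n : ℕ => χ (n : ZMod q)) *
      (fun n : ℕ => ((ArithmeticFunction.vonMangoldt n : ℝ) : ℂ))) s‖ ≤ B / (s.re - 1) := by
  obtain ⟨B, hB1, hB⟩ := a2_zeta
  refine ⟨B, hB1, ?_⟩
  intro q χ s h1 h2
  have hσ : 1 < ((s.re : ℝ) : ℂ).re := by simpa using h1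
  have hsum : LSeriesSummable (fun n : ℕ => ((ArithmeticFunction.vonMangoldt n : ℝ) : ℂ))
      ((s.re : ℝ) : ℂ) := ArithmeticFunction.LSeriesSummable_vonMangoldt hσ
  have hterm : ∀ n : ℕ, LSeries.term (fun n : ℕ => ((ArithmeticFunction.vonMangoldt n : ℝ) : ℂ))
      ((s.re : ℝ) : ℂ) n =
      ((‖LSeries.term (fun n : ℕ => ((ArithmeticFunction.vonMangoldt n : ℝ) : ℂ))
      ((s.re : ℝ) : ℂ) n‖ : ℝ) : ℂ) := by
    intro n
    rcases eq_or_ne n 0 with rfl | hn
    · simp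
    · rw [LSeries.norm_term_eq, if_neg hn, LSeries.term_of_ne_zero hn, Complex.norm_real,
        Real.norm_eq_abs, abs_of_nonneg ArithmeticFunction.vonMangoldt_nonneg, Complex.ofReal_re,
        Complex.ofReal_div]
      congr 1
      rw [Complex.ofReal_cpow (by positivity), Complex.ofReal_natCast]
  have hL : LSeries (fun n : ℕ => ((ArithmeticFunction.vonMangoldt n : ℝ) : ℂ)) ((s.re : ℝ) : ℂ) =
      ((∑' n : ℕ, ‖LSeries.term (fun n : ℕ => ((ArithmeticFunction.vonMangoldt n : ℝ) : ℂ))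
      ((s.re : ℝ) : ℂ) n‖ : ℝ) : ℂ) := by
    unfold LSeries
    rw [Complex.ofReal_tsum]
    exact tsum_congr hterm
  have h3 : ‖LSeries (fun n : ℕ => ((ArithmeticFunction.vonMangoldt n : ℝ) : ℂ))
      ((s.re : ℝ) : ℂ)‖ ≤ B / (s.re - 1) := by
    have h4 := hB s.re h1 h2
    have h5 := ArithmeticFunction.LSeries_vonMangoldt_eq_deriv_riemannZeta_div hσ
    rw [h5]
    exact h4
  rw [hL, Complex.norm_real, Real.norm_eq_abs,
    abs_of_nonneg (tsum_nonneg fun n => norm_nonneg _)] at h3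
  refine le_trans ?_ h3
  have hle : ∀ n : ℕ, ‖LSeries.term ((fun n : ℕ => χ (n : ZMod q)) *
      (fun n : ℕ => ((ArithmeticFunction.vonMangoldt n : ℝ) : ℂ))) s n‖ ≤
      ‖LSeries.term (fun n : ℕ => ((ArithmeticFunction.vonMangoldt n : ℝ) : ℂ))
      ((s.re : ℝ) : ℂ) n‖ := by
    intro n
    rw [LSeries.norm_term_eq, LSeries.norm_term_eq, Complex.ofReal_re]
    rcases eq_or_ne n 0 with rfl | hn
    · simp
    · rw [if_neg hn, if_neg hn]
      refine div_le_div_of_nonneg_right ?_ (by positivity)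
      rw [Pi.mul_apply, norm_mul]
      exact mul_le_of_le_one_left (norm_nonneg _) (χ.norm_le_one _)
  exact (norm_tsum_le_tsum_norm (hsum.norm.of_nonneg_of_le (fun n => norm_nonneg _) hle)).trans
    ((hsum.norm.of_nonneg_of_le (fun n => norm_nonneg _) hle).tsum_le_tsum hle hsum.norm)

theorem thm_A2 (h1 : St_A1) (h2 : St_A1p) : St_A2 := by
  obtain ⟨C, hC, h2⟩ := h2
  obtain ⟨B, hB1, hB⟩ := a2_mang
  refine ⟨C + 8 + 2 * B, by linarith, ?_⟩
  intro q _ χ
  have hq : (1 : ℝ) ≤ q := by exact_mod_cast Nat.one_le_iff_ne_zero.2 (NeZero.ne q)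
  refine ⟨?_, ?_, ?_⟩
  · intro z hz
    have hn := norm_nonneg z
    by_cases hχ : χ = 1
    · subst hχ
      have hgen : ∀ z : ℂ, 1 / 2 ≤ z.re → z ≠ 1 →
          ‖Lf (1 : DirichletCharacter ℂ q) z‖ ≤ (C + 2) * q * (1 + ‖z‖) ^ 2 := fun z hz hz1 =>
        a2_up_one (fun s hs hs1 v hv => h2 q s hs hs1 v hv) hz hz1
      have hall : ‖Lf (1 : DirichletCharacter ℂ q) z‖ ≤ (C + 2) * q * (1 + ‖z‖) ^ 2 := by
        by_cases hz1 : z = 1
        · subst hz1
          have hev : ∀ᶠ w : ℂ in 𝓝[≠] 1,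
              ‖Lf (1 : DirichletCharacter ℂ q) w‖ ≤ (C + 2) * q * (1 + ‖w‖) ^ 2 := by
            have h3 : {w : ℂ | 1 / 2 < w.re} ∈ 𝓝 (1 : ℂ) :=
              (isOpen_lt continuous_const Complex.continuous_re).mem_nhds (by norm_num)
            filter_upwards [self_mem_nhdsWithin, mem_nhdsWithin_of_mem_nhds h3] with w hw hw2
            exact hgen w (le_of_lt hw2) hw
          have hc1 : Tendsto (fun w : ℂ => ‖Lf (1 : DirichletCharacter ℂ q) w‖) (𝓝[≠] 1)
              (𝓝 ‖Lf (1 : DirichletCharacter ℂ q) 1‖) :=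
            ((Lf_differentiable _).continuous.norm.tendsto 1).mono_left nhdsWithin_le_nhds
          have hc2 : Tendsto (fun w : ℂ => (C + 2) * q * (1 + ‖w‖) ^ 2) (𝓝[≠] 1)
              (𝓝 ((C + 2) * q * (1 + ‖(1 : ℂ)‖) ^ 2)) := by
            have h3 : Continuous fun w : ℂ => (C + 2) * q * (1 + ‖w‖) ^ 2 := by fun_prop
            exact (h3.tendsto 1).mono_left nhdsWithin_le_nhds
          exact le_of_tendsto_of_tendsto hc1 hc2 hev
        · exact hgen z hz hz1
      refine hall.trans ?_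
      have h3 : 0 ≤ (q : ℝ) * (1 + ‖z‖) ^ 2 := by positivity
      nlinarith
    · rw [Lf_of_ne hχ]
      refine (a2_up_ne h1 hχ hz).trans ?_
      have h3 : 1 + ‖z‖ ≤ (1 + ‖z‖) ^ 2 := by nlinarith
      have h4 : (q : ℝ) * (1 + ‖z‖) ≤ q * (1 + ‖z‖) ^ 2 :=
        mul_le_mul_of_nonneg_left h3 (by linarith)
      have h5 : 0 ≤ (q : ℝ) * (1 + ‖z‖) ^ 2 := by positivity
      nlinarith
  · intro t
    have hre : ((3 / 2 : ℂ) + t * Complex.I).re = 3 / 2 := by simp
    have h3 := Pool.Agent.Helper52.MD.trivial_lower χ (s := (3 / 2 : ℂ) + t * Complex.I)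
      (by rw [hre]; norm_num) (by rw [hre]; norm_num)
    rw [hre, ← χ.LFunction_eq_LSeries (by rw [hre]; norm_num)] at h3
    by_cases hχ : χ = 1
    · subst hχ
      have hz1 : (3 / 2 : ℂ) + t * Complex.I ≠ 1 := by
        intro h
        have := congrArg Complex.re h
        rw [hre] at this
        norm_num at this
      rw [a2_Lf_one_apply hz1, norm_mul]
      have h4 : 1 / 2 ≤ ‖(3 / 2 : ℂ) + t * Complex.I - 1‖ := by
        have h5 := Complex.abs_re_le_norm ((3 / 2 : ℂ) + t * Complex.I - 1)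
        rw [Complex.sub_re, hre, Complex.one_re] at h5
        refine le_trans ?_ h5
        rw [abs_of_pos] <;> norm_num
      have h5 : 1 / 8 ≤ ‖(3 / 2 : ℂ) + t * Complex.I - 1‖ *
          ‖(1 : DirichletCharacter ℂ q).LFunction ((3 / 2 : ℂ) + t * Complex.I)‖ := by
        have h6 := mul_le_mul h4 h3 (by norm_num) (norm_nonneg _)
        linarith
      nlinarith
    · rw [Lf_of_ne hχ]
      nlinarith [norm_nonneg (χ.LFunction ((3 / 2 : ℂ) + t * Complex.I))]
  · intro s hs1 hs2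
    have hpos : 0 < s.re - 1 := by linarith
    have h3 := hB q χ s hs1 hs2
    have h4 := χ.LSeries_twist_vonMangoldt_eq hs1
    have h5 : ‖deriv χ.LFunction s / χ.LFunction s‖ ≤ B / (s.re - 1) := by
      rw [χ.deriv_LFunction_eq_deriv_LSeries hs1, χ.LFunction_eq_LSeries hs1]
      rw [h4, neg_div, norm_neg] at h3
      exact h3
    by_cases hχ : χ = 1
    · subst hχ
      have hs1' : s ≠ 1 := by
        rintro rfl
        simp at hs1
      have hev : Lf (1 : DirichletCharacter ℂ q) =ᶠ[𝓝 s]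
          fun z => (z - 1) * (1 : DirichletCharacter ℂ q).LFunction z := by
        filter_upwards [isOpen_ne.mem_nhds hs1'] with z hz
        exact a2_Lf_one_apply hz
      have hder : deriv (Lf (1 : DirichletCharacter ℂ q)) s =
          (1 : DirichletCharacter ℂ q).LFunction s +
            (s - 1) * deriv (1 : DirichletCharacter ℂ q).LFunction s := by
        rw [hev.deriv_eq]
        have h6 : HasDerivAt (fun z : ℂ => (z - 1) * (1 : DirichletCharacter ℂ q).LFunction z)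
            (1 * (1 : DirichletCharacter ℂ q).LFunction s +
              (s - 1) * deriv (1 : DirichletCharacter ℂ q).LFunction s) s :=
          ((hasDerivAt_id s).sub_const 1).mul
            (DirichletCharacter.differentiableAt_LFunction _ s (Or.inl hs1')).hasDerivAt
        rw [h6.deriv, one_mul]
      have hL0 : (1 : DirichletCharacter ℂ q).LFunction s ≠ 0 := by
        rw [DirichletCharacter.LFunction_eq_LSeries _ hs1]
        exact DirichletCharacter.LSeries_ne_zero_of_one_lt_re _ hs1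
      have hs0 : s - 1 ≠ 0 := sub_ne_zero.2 hs1'
      have h6 : deriv (Lf (1 : DirichletCharacter ℂ q)) s / Lf (1 : DirichletCharacter ℂ q) s =
          1 / (s - 1) + deriv (1 : DirichletCharacter ℂ q).LFunction s /
            (1 : DirichletCharacter ℂ q).LFunction s := by
        rw [hder, a2_Lf_one_apply hs1']
        field_simp
      rw [h6]
      refine (norm_add_le _ _).trans ?_
      have h7 : ‖1 / (s - 1)‖ ≤ 1 / (s.re - 1) := by
        rw [norm_div, norm_one]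
        apply one_div_le_one_div_of_le hpos
        have h8 := Complex.re_le_norm (s - 1)
        simpa using h8
      calc ‖1 / (s - 1)‖ + ‖deriv (1 : DirichletCharacter ℂ q).LFunction s /
            (1 : DirichletCharacter ℂ q).LFunction s‖ ≤ 1 / (s.re - 1) + B / (s.re - 1) :=
            add_le_add h7 h5
        _ = (1 + B) / (s.re - 1) := by ring
        _ ≤ (C + 8 + 2 * B) / (s.re - 1) := div_le_div_of_nonneg_right (by linarith) hpos.le
    · rw [Lf_of_ne hχ]
      exact h5.trans (div_le_div_of_nonneg_right (by linarith) hpos.le)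

end Pool.Agent.MVX
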