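import Pool.Agent.MVX.StD
import Pool.Agent.MVX.A1p

set_option autoImplicit false

/-!
# Project MVX, module DuP: the dual sum, principal character

`V(n) = (∫_(T^40)^(T^42) 1_(n <= v) dv/v - ∫_(T^10)^(T^12) 1_(n <= v) dv/v) / (2 log T)`, so the sum is an
average of the sums `Σ_(n <= v)`, which are given by `A1p`.
-/

namespace Pool.Agent.MVX

open Finset MeasureTheory

/-- the weights -/
noncomputable def dup_w (y : ℝ) (d : ℕ) : ℝ :=
  (ArithmeticFunction.moebius d : ℝ) * Real.log (y / d) / Real.log y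

theorem dup_w_le {y : ℝ} (hy : 1 < y) {d : ℕ} (hd : d ∈ Icc 1 ⌊y⌋₊) : |dup_w y d| ≤ 1 := by
  obtain ⟨h1, h2⟩ := mem_Icc.1 hd
  have h3 : (d : ℝ) ≤ y := (Nat.le_floor_iff (by linarith)).1 h2
  have h4 : (1 : ℝ) ≤ d := by exact_mod_cast h1
  have h5 : 0 < Real.log y := Real.log_pos hy
  have h6 : 0 ≤ Real.log (y / d) := Real.log_nonneg (by rw [le_div_iff₀ (by linarith)]; linarith)
  have h7 : Real.log (y / d) ≤ Real.log y := by
    apply Real.log_le_log (by positivity)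
    rw [div_le_iff₀ (by linarith)]
    nlinarith
  have h8 : |(ArithmeticFunction.moebius d : ℝ)| ≤ 1 := by
    have := ArithmeticFunction.abs_moebius_le_one (n := d)
    exact_mod_cast this
  unfold dup_w
  rw [abs_div, abs_mul, abs_of_nonneg h6, abs_of_pos h5, div_le_one h5]
  calc |(ArithmeticFunction.moebius d : ℝ)| * Real.log (y / d) ≤ 1 * Real.log (y / d) :=
        mul_le_mul_of_nonneg_right h8 h6
    _ ≤ Real.log y := by rw [one_mul]; exact h7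

theorem dup_gw {y : ℝ} (hy : 0 ≤ y) {n : ℕ} (hn : n ≠ 0) :
    gw y n = ∑ d ∈ Icc 1 ⌊y⌋₊, if d ∣ n then dup_w y d else 0 := by
  unfold gw
  rw [← sum_filter, sum_div]
  refine sum_congr ?_ fun d _ => rfl
  ext d
  rw [mem_filter, mem_filter, Nat.mem_divisors, mem_Icc, Nat.le_floor_iff hy]
  constructor
  · rintro ⟨⟨h1, -⟩, h2⟩
    exact ⟨⟨Nat.pos_of_dvd_of_pos h1 (Nat.pos_of_ne_zero hn), h2⟩, h1⟩
  · rintro ⟨⟨-, h2⟩, h1⟩
    exact ⟨⟨h1, hn⟩, h2⟩

theorem dup_sq {y : ℝ} (hy : 0 ≤ y) {n : ℕ} (hn : n ≠ 0) :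
    gw y n ^ 2 = ∑ d ∈ Icc 1 ⌊y⌋₊, ∑ e ∈ Icc 1 ⌊y⌋₊,
      if d.lcm e ∣ n then dup_w y d * dup_w y e else 0 := by
  rw [dup_gw hy hn, pow_two, sum_mul_sum]
  refine sum_congr rfl fun d _ => sum_congr rfl fun e _ => ?_
  by_cases hd : d ∣ n
  · by_cases he : e ∣ n
    · rw [if_pos hd, if_pos he, if_pos (Nat.lcm_dvd hd he)]
    · rw [if_pos hd, if_neg he, mul_zero,
        if_neg fun h => he ((Nat.dvd_lcm_right d e).trans h)]
  · rw [if_neg hd, zero_mul, if_neg fun h => hd ((Nat.dvd_lcm_left d e).trans h)]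

/-- sums over multiples -/
theorem dup_mult {k : ℕ} (χ : DirichletCharacter ℂ k) (w : ℂ) {D : ℕ} (hD : 0 < D) (v : ℝ) :
    ∑ n ∈ Icc 1 ⌊v⌋₊, (if D ∣ n then χ (n : ZMod k) * (n : ℂ) ^ (-w) else 0) =
      χ (D : ZMod k) * (D : ℂ) ^ (-w) * Ssum (cf χ) w (v / D) := by
  rw [← sum_filter]
  have h1 : (Icc 1 ⌊v⌋₊).filter (fun n => D ∣ n) = (Icc 1 ⌊v / D⌋₊).image fun m => D * m := by
    ext n
    rw [mem_filter, mem_image, mem_Icc, Nat.floor_div_natCast]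
    constructor
    · rintro ⟨⟨h1, h2⟩, m, rfl⟩
      refine ⟨m, ?_, rfl⟩
      rw [mem_Icc, Nat.le_div_iff_mul_le hD]
      exact ⟨Nat.pos_of_mul_pos_left h1, by rw [mul_comm]; exact h2⟩
    · rintro ⟨m, hm, rfl⟩
      rw [mem_Icc, Nat.le_div_iff_mul_le hD] at hm
      exact ⟨⟨Nat.mul_pos hD hm.1, by rw [mul_comm]; exact hm.2⟩, Dvd.intro m rfl⟩
  rw [h1, sum_image (fun a _ b _ h => Nat.eq_of_mul_eq_mul_left hD h)]
  unfold Ssum cf
  rw [mul_sum]
  refine sum_congr rfl fun m _ => ?_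
  rw [Nat.cast_mul, Nat.cast_mul, map_mul, Complex.natCast_mul_natCast_cpow]
  ring

/-- the sums over `n ≤ v` -/
noncomputable def dup_F {k : ℕ} (χ : DirichletCharacter ℂ k) (T : ℝ) (w : ℂ) (v : ℝ) : ℂ :=
  ∑ n ∈ Icc 1 ⌊v⌋₊, ((gw T n ^ 2 : ℝ) : ℂ) * χ (n : ZMod k) * (n : ℂ) ^ (-w)

theorem dup_F_eq {k : ℕ} (χ : DirichletCharacter ℂ k) {T : ℝ} (hT : 0 ≤ T) (w : ℂ) (v : ℝ) :
    dup_F χ T w v = ∑ d ∈ Icc 1 ⌊T⌋₊, ∑ e ∈ Icc 1 ⌊T⌋₊,
      ((dup_w T d * dup_w T e : ℝ) : ℂ) * (χ ((d.lcm e : ℕ) : ZMod k) *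
        ((d.lcm e : ℕ) : ℂ) ^ (-w) * Ssum (cf χ) w (v / (d.lcm e : ℕ))) := by
  unfold dup_F
  have h1 : ∀ n ∈ Icc 1 ⌊v⌋₊, ((gw T n ^ 2 : ℝ) : ℂ) * χ (n : ZMod k) * (n : ℂ) ^ (-w) =
      ∑ d ∈ Icc 1 ⌊T⌋₊, ∑ e ∈ Icc 1 ⌊T⌋₊, ((dup_w T d * dup_w T e : ℝ) : ℂ) *
        (if d.lcm e ∣ n then χ (n : ZMod k) * (n : ℂ) ^ (-w) else 0) := by
    intro n hn
    have hn0 : n ≠ 0 := by
      have := (mem_Icc.1 hn).1
      omega
    rw [dup_sq hT hn0, mul_assoc]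
    push_cast
    rw [sum_mul]
    refine sum_congr rfl fun d _ => ?_
    rw [sum_mul]
    refine sum_congr rfl fun e _ => ?_
    split_ifs
    · push_cast
      ring
    · push_cast
      ring
  rw [sum_congr rfl h1, sum_comm]
  refine sum_congr rfl fun d hd => ?_
  rw [sum_comm]
  refine sum_congr rfl fun e he => ?_
  rw [← mul_sum, dup_mult χ w (Nat.lcm_pos (mem_Icc.1 hd).1 (mem_Icc.1 he).1)]

theorem dup_one (k n : ℕ) : (1 : DirichletCharacter ℂ k) (n : ZMod k) =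
    if n.Coprime k then 1 else 0 := by
  split_ifs with h
  · exact MulChar.one_apply ((ZMod.isUnit_iff_coprime n k).2 h)
  · exact MulChar.map_nonunit _ fun h' => h ((ZMod.isUnit_iff_coprime n k).1 h')

theorem dup_cop (k d e : ℕ) : (d.lcm e).Coprime k ↔ d.Coprime k ∧ e.Coprime k := by
  constructor
  · intro h
    exact ⟨Nat.Coprime.coprime_dvd_left (Nat.dvd_lcm_left d e) h,
      Nat.Coprime.coprime_dvd_left (Nat.dvd_lcm_right d e) h⟩
  · rintro ⟨h1, h2⟩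
    exact Nat.Coprime.coprime_dvd_left (Nat.lcm_dvd_mul d e) (Nat.Coprime.mul_left h1 h2)

theorem dup_Mk (T : ℝ) (k : ℕ) : ((Mk T k : ℝ) : ℂ) =
    ∑ d ∈ Icc 1 ⌊T⌋₊, ∑ e ∈ Icc 1 ⌊T⌋₊, ((dup_w T d * dup_w T e : ℝ) : ℂ) *
      ((1 : DirichletCharacter ℂ k) ((d.lcm e : ℕ) : ZMod k) *
        (((Nat.totient k : ℂ) / k) / ((d.lcm e : ℕ) : ℂ))) := by
  unfold Mk
  rw [sum_filter]
  push_cast
  rw [mul_sum]
  refine sum_congr rfl fun d _ => ?_
  by_cases hd : d.Coprime k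
  · rw [if_pos hd, sum_filter]
    push_cast
    rw [mul_sum]
    refine sum_congr rfl fun e _ => ?_
    rw [dup_one]
    by_cases he : e.Coprime k
    · rw [if_pos he, if_pos ((dup_cop k d e).2 ⟨hd, he⟩)]
      unfold dup_w
      push_cast
      ring
    · rw [if_neg he, if_neg fun h => he ((dup_cop k d e).1 h).2]
      simp
  · rw [if_neg hd]
    push_cast
    rw [mul_zero]
    symm
    refine sum_eq_zero fun e _ => ?_
    rw [dup_one, if_neg fun h => hd ((dup_cop k d e).1 h).1]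
    simp

theorem dup_F_main {C : ℝ} (hC : 0 < C) {T : ℝ} (hT : 2 ≤ T) (k : ℕ) [NeZero k]
    (hk : (k : ℝ) ≤ T ^ 2) {w : ℂ} (hw1 : 199 / 200 ≤ w.re) (hw2 : w.re ≤ 1)
    (hw3 : |w.im| ≤ 2 * T)
    (hA : ∀ v : ℝ, 1 ≤ v → ‖Ssum (cf (1 : DirichletCharacter ℂ k)) w v
      - ((Nat.totient k : ℂ) / k) * ((v : ℂ) ^ (1 - w) / (1 - w))
      - (1 : DirichletCharacter ℂ k).LFunction w‖ ≤ C * k * (1 + ‖w‖) * v ^ (-w.re)) :
    ∃ G : ℂ, ∀ v : ℝ, T ^ 10 ≤ v →
      ‖dup_F (1 : DirichletCharacter ℂ k) T w v - (Mk T k : ℂ) * ((v : ℂ) ^ (1 - w) / (1 - w)) - G‖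
        ≤ 3 * C / T ^ 4 := by
  set χ := (1 : DirichletCharacter ℂ k) with hχ
  refine ⟨∑ d ∈ Icc 1 ⌊T⌋₊, ∑ e ∈ Icc 1 ⌊T⌋₊, ((dup_w T d * dup_w T e : ℝ) : ℂ) *
      (χ ((d.lcm e : ℕ) : ZMod k) * ((d.lcm e : ℕ) : ℂ) ^ (-w) * χ.LFunction w), fun v hv => ?_⟩
  have hT0 : 0 ≤ T := by linarith
  have hT1 : 1 < T := by linarith
  have hv0 : 0 < v := lt_of_lt_of_le (by positivity) hv
  rw [dup_F_eq χ hT0, dup_Mk, ← hχ, sum_mul, ← sum_sub_distrib, ← sum_sub_distrib]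
  have hterm : ∀ d ∈ Icc 1 ⌊T⌋₊, ∀ e ∈ Icc 1 ⌊T⌋₊,
      ‖((dup_w T d * dup_w T e : ℝ) : ℂ) * (χ ((d.lcm e : ℕ) : ZMod k) *
        ((d.lcm e : ℕ) : ℂ) ^ (-w) * Ssum (cf χ) w (v / (d.lcm e : ℕ))) -
        ((dup_w T d * dup_w T e : ℝ) : ℂ) * (χ ((d.lcm e : ℕ) : ZMod k) *
        (((Nat.totient k : ℂ) / k) / ((d.lcm e : ℕ) : ℂ))) * ((v : ℂ) ^ (1 - w) / (1 - w)) -
        ((dup_w T d * dup_w T e : ℝ) : ℂ) *
      (χ ((d.lcm e : ℕ) : ZMod k) * ((d.lcm e : ℕ) : ℂ) ^ (-w) * χ.LFunction w)‖ ≤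
        C * k * (1 + ‖w‖) * v ^ (-w.re) := by
    intro d hd e he
    have hd0 := (mem_Icc.1 hd).1
    have he0 := (mem_Icc.1 he).1
    have hdT : (d : ℝ) ≤ T := (Nat.le_floor_iff hT0).1 (mem_Icc.1 hd).2
    have heT : (e : ℝ) ≤ T := (Nat.le_floor_iff hT0).1 (mem_Icc.1 he).2
    set D : ℕ := d.lcm e with hD
    have hDpos : 0 < D := Nat.lcm_pos hd0 he0
    have hD0 : (0 : ℝ) < D := by exact_mod_cast hDpos
    have hDT : (D : ℝ) ≤ T ^ 2 := by
      have h1 : D ≤ d * e := Nat.le_of_dvd (Nat.mul_pos hd0 he0) (Nat.lcm_dvd_mul d e)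
      have h2 : (D : ℝ) ≤ d * e := by exact_mod_cast h1
      calc (D : ℝ) ≤ d * e := h2
        _ ≤ T * T := mul_le_mul hdT heT (Nat.cast_nonneg e) hT0
        _ = T ^ 2 := by ring
    have hvD : 1 ≤ v / D := by
      rw [one_le_div hD0]
      calc (D : ℝ) ≤ T ^ 2 := hDT
        _ ≤ T ^ 10 := pow_le_pow_right₀ hT1.le (by norm_num)
        _ ≤ v := hv
    have hkey : ((D : ℕ) : ℂ) ^ (-w) * (((v / D : ℝ) : ℂ) ^ (1 - w)) =
        (v : ℂ) ^ (1 - w) / ((D : ℕ) : ℂ) := by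
      have hDc : ((D : ℕ) : ℂ) ≠ 0 := by exact_mod_cast hDpos.ne'
      have h1 : (v : ℂ) ^ (1 - w) = (((v / D : ℝ) : ℂ)) ^ (1 - w) * (((D : ℝ) : ℂ)) ^ (1 - w) := by
        rw [← Complex.mul_cpow_ofReal_nonneg (by positivity) hD0.le]
        congr 1
        rw [← Complex.ofReal_mul, div_mul_cancel₀ _ hD0.ne']
      have h2 : (((D : ℝ) : ℂ)) ^ (1 - w) = ((D : ℕ) : ℂ) * ((D : ℕ) : ℂ) ^ (-w) := by
        rw [Complex.ofReal_natCast, sub_eq_add_neg, Complex.cpow_add _ _ hDc, Complex.cpow_one]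
      rw [h1, h2]
      field_simp
    have hid : ((dup_w T d * dup_w T e : ℝ) : ℂ) * (χ ((D : ℕ) : ZMod k) *
        ((D : ℕ) : ℂ) ^ (-w) * Ssum (cf χ) w (v / (D : ℕ))) -
        ((dup_w T d * dup_w T e : ℝ) : ℂ) * (χ ((D : ℕ) : ZMod k) *
        (((Nat.totient k : ℂ) / k) / ((D : ℕ) : ℂ))) * ((v : ℂ) ^ (1 - w) / (1 - w)) -
        ((dup_w T d * dup_w T e : ℝ) : ℂ) *
      (χ ((D : ℕ) : ZMod k) * ((D : ℕ) : ℂ) ^ (-w) * χ.LFunction w) =
        ((dup_w T d * dup_w T e : ℝ) : ℂ) * χ ((D : ℕ) : ZMod k) * ((D : ℕ) : ℂ) ^ (-w) *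
          (Ssum (cf χ) w (v / (D : ℕ)) -
            ((Nat.totient k : ℂ) / k) * (((v / D : ℝ) : ℂ) ^ (1 - w) / (1 - w)) -
            χ.LFunction w) := by
      have h3 : ((dup_w T d * dup_w T e : ℝ) : ℂ) * (χ ((D : ℕ) : ZMod k) *
        (((Nat.totient k : ℂ) / k) / ((D : ℕ) : ℂ))) * ((v : ℂ) ^ (1 - w) / (1 - w)) =
        ((dup_w T d * dup_w T e : ℝ) : ℂ) * χ ((D : ℕ) : ZMod k) *
          ((Nat.totient k : ℂ) / k) * ((v : ℂ) ^ (1 - w) / ((D : ℕ) : ℂ)) / (1 - w) := by ring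
      rw [h3, ← hkey]
      ring
    rw [hid, norm_mul, norm_mul, norm_mul, Complex.norm_real, Real.norm_eq_abs, abs_mul,
      Complex.norm_natCast_cpow_of_pos hDpos, Complex.neg_re]
    have h4 := hA (v / D) hvD
    have h5 : |dup_w T d| * |dup_w T e| ≤ 1 := by
      calc |dup_w T d| * |dup_w T e| ≤ 1 * 1 :=
            mul_le_mul (dup_w_le hT1 hd) (dup_w_le hT1 he) (abs_nonneg _) zero_le_one
        _ = 1 := one_mul 1
    have h6 : ‖χ ((D : ℕ) : ZMod k)‖ ≤ 1 := DirichletCharacter.norm_le_one χ _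
    have h7 : |dup_w T d| * |dup_w T e| * ‖χ ((D : ℕ) : ZMod k)‖ ≤ 1 := by
      calc |dup_w T d| * |dup_w T e| * ‖χ ((D : ℕ) : ZMod k)‖ ≤ 1 * 1 :=
            mul_le_mul h5 h6 (norm_nonneg _) zero_le_one
        _ = 1 := one_mul 1
    have h8 : (D : ℝ) ^ (-w.re) * (v / D) ^ (-w.re) = v ^ (-w.re) := by
      rw [← Real.mul_rpow hD0.le (by positivity)]
      congr 1
      field_simp
    have h9 : 0 ≤ (D : ℝ) ^ (-w.re) := by positivity
    calc |dup_w T d| * |dup_w T e| * ‖χ ((D : ℕ) : ZMod k)‖ * (D : ℝ) ^ (-w.re) * _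
        ≤ 1 * (D : ℝ) ^ (-w.re) * (C * k * (1 + ‖w‖) * (v / D) ^ (-w.re)) :=
          mul_le_mul (mul_le_mul_of_nonneg_right h7 h9) h4 (norm_nonneg _) (by positivity)
      _ = C * k * (1 + ‖w‖) * ((D : ℝ) ^ (-w.re) * (v / D) ^ (-w.re)) := by ring
      _ = _ := by rw [h8]
  refine (norm_sum_le_of_le _ (n := fun _ => (⌊T⌋₊ : ℝ) * (C * k * (1 + ‖w‖) * v ^ (-w.re)))
    fun d hd => ?_).trans ?_
  · rw [sum_mul, ← sum_sub_distrib, ← sum_sub_distrib]
    refine (norm_sum_le_of_le _ fun e he => hterm d hd e he).trans (le_of_eq ?_)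
    rw [sum_const, Nat.card_Icc, nsmul_eq_mul]
    simp
  · rw [sum_const, Nat.card_Icc, nsmul_eq_mul, Nat.add_sub_cancel]
    have hf : (⌊T⌋₊ : ℝ) ≤ T := Nat.floor_le hT0
    have hf0 : (0 : ℝ) ≤ ⌊T⌋₊ := Nat.cast_nonneg _
    have hwn : 1 + ‖w‖ ≤ 3 * T := by
      have h1 := Complex.norm_le_abs_re_add_abs_im w
      have h2 : |w.re| ≤ 1 := by
        rw [abs_le]
        constructor <;> linarith
      linarith
    have hvw : v ^ (-w.re) ≤ 1 / T ^ 9 := by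
      have h1 : v ^ (-w.re) ≤ (T ^ 10) ^ (-w.re) :=
        Real.rpow_le_rpow_of_nonpos (by positivity) hv (by linarith)
      refine h1.trans ?_
      have h2 : ((T : ℝ) ^ 10) ^ (-w.re) = T ^ (10 * (-w.re)) := by
        rw [← Real.rpow_natCast T 10, ← Real.rpow_mul hT0]
        norm_num
      have h3 : (1 : ℝ) / T ^ 9 = T ^ (-9 : ℝ) := by
        rw [Real.rpow_neg hT0, one_div]
        norm_cast
      rw [h2, h3]
      exact Real.rpow_le_rpow_of_exponent_le hT1.le (by linarith)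
    have hvw0 : 0 ≤ v ^ (-w.re) := by positivity
    have hk0 : (0 : ℝ) ≤ k := Nat.cast_nonneg k
    have h1 : C * k * (1 + ‖w‖) * v ^ (-w.re) ≤ C * T ^ 2 * (3 * T) * (1 / T ^ 9) := by
      refine mul_le_mul (mul_le_mul (mul_le_mul_of_nonneg_left hk hC.le) hwn (by positivity)
        (by positivity)) hvw hvw0 (by positivity)
    have h2 : 0 ≤ C * k * (1 + ‖w‖) * v ^ (-w.re) := by positivity
    calc (⌊T⌋₊ : ℝ) * ((⌊T⌋₊ : ℝ) * (C * k * (1 + ‖w‖) * v ^ (-w.re)))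
        ≤ T * (T * (C * T ^ 2 * (3 * T) * (1 / T ^ 9))) := by
          refine mul_le_mul hf (mul_le_mul hf h1 h2 hT0) (by positivity) hT0
      _ = 3 * C / T ^ 4 := by
          have : T ≠ 0 := by linarith
          field_simp

theorem dup_lp {n : ℕ} (hn : 1 ≤ n) {a b : ℝ} (ha : 0 < a) (hab : a ≤ b) :
    IntervalIntegrable (fun v : ℝ => if (n : ℝ) < v then v⁻¹ else 0) volume a b ∧
    ∫ v in a..b, (if (n : ℝ) < v then v⁻¹ else 0) = lp (b / n) - lp (a / n) := by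
  have hb : 0 < b := lt_of_lt_of_le ha hab
  have hn0 : (0 : ℝ) < n := by
    have : 0 < n := by omega
    exact_mod_cast this
  have hfun : (fun v : ℝ => if (n : ℝ) < v then v⁻¹ else 0) =
      Set.indicator (Set.Ioi (n : ℝ)) (fun v : ℝ => v⁻¹) := by
    ext v
    rw [Set.indicator_apply]
    rfl
  have hint : IntervalIntegrable (fun v : ℝ => v⁻¹) volume a b := by
    apply ContinuousOn.intervalIntegrable
    rw [Set.uIcc_of_le hab]
    exact continuousOn_inv₀.mono fun v hv => (lt_of_lt_of_le ha hv.1).ne'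
  constructor
  · rw [hfun]
    exact ⟨hint.1.indicator measurableSet_Ioi, hint.2.indicator measurableSet_Ioi⟩
  · rw [intervalIntegral.integral_of_le hab, hfun, integral_indicator measurableSet_Ioi,
      Measure.restrict_restrict measurableSet_Ioi, Set.inter_comm, Set.Ioc_inter_Ioi]
    unfold lp
    rcases le_or_gt b n with h | h
    · rw [Set.Ioc_eq_empty (by
        rw [not_lt]
        exact h.trans (le_max_right _ _)), Measure.restrict_empty, integral_zero_measure]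
      rw [max_eq_left (Real.log_nonpos (by positivity) (by rw [div_le_one hn0]; exact h)),
        max_eq_left (Real.log_nonpos (by positivity)
          (by rw [div_le_one hn0]; exact hab.trans h)), sub_zero]
    · rw [← intervalIntegral.integral_of_le (max_le hab h.le),
        integral_inv_of_pos (lt_of_lt_of_le ha (le_max_left _ _)) hb]
      rw [max_eq_right (Real.log_nonneg (by rw [one_le_div hn0]; exact h.le)),
        Real.log_div hb.ne' hn0.ne', Real.log_div hb.ne' (lt_of_lt_of_le ha (le_max_left _ _)).ne',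
        Real.log_div ha.ne' hn0.ne']
      rcases le_or_gt a n with h' | h'
      · rw [max_eq_right h', max_eq_left (sub_nonpos.2 (Real.log_le_log ha h')), sub_zero]
      · rw [max_eq_left h'.le, max_eq_right (sub_nonneg.2 (Real.log_le_log hn0 h'.le))]
        ring

theorem dup_int (c : ℕ → ℂ) (N : ℕ) {a b : ℝ} (ha : 0 < a) (hab : a ≤ b) :
    IntervalIntegrable (fun v : ℝ => ∑ n ∈ Icc 1 N,
      c n * (((if (n : ℝ) < v then v⁻¹ else 0 : ℝ)) : ℂ)) volume a b ∧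
    ∫ v in a..b, ∑ n ∈ Icc 1 N, c n * (((if (n : ℝ) < v then v⁻¹ else 0 : ℝ)) : ℂ) =
      ∑ n ∈ Icc 1 N, c n * ((lp (b / n) - lp (a / n) : ℝ) : ℂ) := by
  have h1 : ∀ n ∈ Icc 1 N, IntervalIntegrable
      (fun v : ℝ => c n * (((if (n : ℝ) < v then v⁻¹ else 0 : ℝ)) : ℂ)) volume a b := by
    intro n hn
    have h2 := (dup_lp (mem_Icc.1 hn).1 ha hab).1
    have h3 : IntervalIntegrable
        (fun v : ℝ => (((if (n : ℝ) < v then v⁻¹ else 0 : ℝ)) : ℂ)) volume a b :=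
      ⟨h2.1.ofReal, h2.2.ofReal⟩
    exact h3.const_mul (c n)
  constructor
  · have h4 := IntervalIntegrable.sum (Icc 1 N) h1
    have h5 : (∑ n ∈ Icc 1 N, fun v : ℝ => c n * (((if (n : ℝ) < v then v⁻¹ else 0 : ℝ)) : ℂ)) =
        fun v : ℝ => ∑ n ∈ Icc 1 N, c n * (((if (n : ℝ) < v then v⁻¹ else 0 : ℝ)) : ℂ) := by
      ext v
      rw [Finset.sum_apply]
    rwa [h5] at h4
  · rw [intervalIntegral.integral_finsetSum h1]
    refine sum_congr rfl fun n hn => ?_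
    rw [intervalIntegral.integral_const_mul, intervalIntegral.integral_ofReal,
      (dup_lp (mem_Icc.1 hn).1 ha hab).2]

/-- the sums over `n ≤ v`, for `v` not an integer -/
theorem dup_step (c : ℕ → ℂ) {N : ℕ} {v : ℝ} (hv0 : 0 ≤ v) (hv : ⌊v⌋₊ ≤ N)
    (hvn : v ∉ Set.range (Nat.cast : ℕ → ℝ)) :
    ∑ n ∈ Icc 1 N, c n * (((if (n : ℝ) < v then v⁻¹ else 0 : ℝ)) : ℂ) =
      (∑ n ∈ Icc 1 ⌊v⌋₊, c n) * ((v⁻¹ : ℝ) : ℂ) := by
  have h1 : ∀ n ∈ Icc 1 N, c n * (((if (n : ℝ) < v then v⁻¹ else 0 : ℝ)) : ℂ) =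
      if n ≤ ⌊v⌋₊ then c n * ((v⁻¹ : ℝ) : ℂ) else 0 := by
    intro n hn
    by_cases h : n ≤ ⌊v⌋₊
    · have h2 : (n : ℝ) ≤ v := (Nat.le_floor_iff hv0).1 h
      have h3 : (n : ℝ) < v := lt_of_le_of_ne h2 fun h4 => hvn ⟨n, h4⟩
      rw [if_pos h3, if_pos h]
    · have h3 : ¬ (n : ℝ) < v := fun h4 => h ((Nat.le_floor_iff hv0).2 h4.le)
      rw [if_neg h3, if_neg h]
      simp
  rw [sum_congr rfl h1, ← sum_filter, sum_mul]
  refine sum_congr ?_ fun _ _ => rfl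
  ext n
  rw [mem_filter, mem_Icc, mem_Icc]
  omega

theorem dup_J (c : ℕ → ℂ) {N : ℕ} {a b : ℝ} (ha : 0 < a) (hab : a ≤ b) (hN : ⌊b⌋₊ ≤ N)
    {w : ℂ} (hw : w ≠ 1) (M G : ℂ) {ε : ℝ}
    (h : ∀ v : ℝ, a ≤ v → ‖∑ n ∈ Icc 1 ⌊v⌋₊, c n - M * ((v : ℂ) ^ (1 - w) / (1 - w)) - G‖ ≤ ε) :
    ‖∑ n ∈ Icc 1 N, c n * ((lp (b / n) - lp (a / n) : ℝ) : ℂ) -
      (M * (((b : ℂ) ^ (1 - w) - (a : ℂ) ^ (1 - w)) / (1 - w) ^ 2) + G * (Real.log (b / a) : ℝ))‖
      ≤ ε * Real.log (b / a) := by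
  have hb : 0 < b := lt_of_lt_of_le ha hab
  have hw' : (1 : ℂ) - w ≠ 0 := sub_ne_zero.2 (Ne.symm hw)
  have hmem : (0 : ℝ) ∉ Set.uIcc a b := by
    rw [Set.uIcc_of_le hab]
    exact fun h0 => absurd h0.1 (not_le.2 ha)
  obtain ⟨i1, i2⟩ := dup_int c N ha hab
  -- the main term
  have j1 : IntervalIntegrable (fun v : ℝ => (v : ℂ) ^ (-w)) volume a b :=
    intervalIntegral.intervalIntegrable_cpow (Or.inr hmem)
  have hinv : IntervalIntegrable (fun v : ℝ => v⁻¹) volume a b := by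
    apply ContinuousOn.intervalIntegrable
    rw [Set.uIcc_of_le hab]
    exact continuousOn_inv₀.mono fun v hv => (lt_of_lt_of_le ha hv.1).ne'
  have j2 : IntervalIntegrable (fun v : ℝ => ((v⁻¹ : ℝ) : ℂ)) volume a b :=
    ⟨hinv.1.ofReal, hinv.2.ofReal⟩
  have j3 : ∫ v in a..b, (M / (1 - w) * (v : ℂ) ^ (-w) + G * ((v⁻¹ : ℝ) : ℂ)) =
      M * (((b : ℂ) ^ (1 - w) - (a : ℂ) ^ (1 - w)) / (1 - w) ^ 2) + G * (Real.log (b / a) : ℝ) := by
    rw [intervalIntegral.integral_add (j1.const_mul _) (j2.const_mul _),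
      intervalIntegral.integral_const_mul, intervalIntegral.integral_const_mul,
      intervalIntegral.integral_ofReal, integral_inv_of_pos ha hb,
      integral_cpow (Or.inr ⟨fun h0 => hw (by linear_combination (-1 : ℂ) * h0), hmem⟩)]
    have e1 : -w + 1 = 1 - w := by ring
    rw [e1]
    field_simp
  rw [← i2, ← j3, ← intervalIntegral.integral_sub i1 ((j1.const_mul _).add (j2.const_mul _))]
  refine (intervalIntegral.norm_integral_le_of_norm_le hab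
    (g := fun v : ℝ => ε * v⁻¹) ?_ (hinv.const_mul ε)).trans (le_of_eq ?_)
  · have hae : ∀ᵐ v : ℝ, v ∉ Set.range (Nat.cast : ℕ → ℝ) :=
      (Set.countable_range (Nat.cast : ℕ → ℝ)).ae_notMem volume
    filter_upwards [hae] with v hv hv'
    have hv0 : 0 < v := lt_trans ha hv'.1
    have hvc : (v : ℂ) ≠ 0 := by exact_mod_cast hv0.ne'
    rw [dup_step c hv0.le ((Nat.floor_le_floor hv'.2).trans hN) hv]
    have e1 : M / (1 - w) * (v : ℂ) ^ (-w) =
        M * ((v : ℂ) ^ (1 - w) / (1 - w)) * ((v⁻¹ : ℝ) : ℂ) := by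
      have e2 : (v : ℂ) ^ (1 - w) = (v : ℂ) * (v : ℂ) ^ (-w) := by
        rw [sub_eq_add_neg, Complex.cpow_add _ _ hvc, Complex.cpow_one]
      rw [e2]
      push_cast
      field_simp
    rw [e1]
    have e3 : (∑ n ∈ Icc 1 ⌊v⌋₊, c n) * ((v⁻¹ : ℝ) : ℂ) -
        (M * ((v : ℂ) ^ (1 - w) / (1 - w)) * ((v⁻¹ : ℝ) : ℂ) + G * ((v⁻¹ : ℝ) : ℂ)) =
        (∑ n ∈ Icc 1 ⌊v⌋₊, c n - M * ((v : ℂ) ^ (1 - w) / (1 - w)) - G) * ((v⁻¹ : ℝ) : ℂ) := by
      ring
    rw [e3, norm_mul, Complex.norm_real, Real.norm_eq_abs, abs_of_pos (inv_pos.2 hv0)]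
    exact mul_le_mul_of_nonneg_right (h v hv'.1.le) (inv_pos.2 hv0).le
  · rw [intervalIntegral.integral_const_mul, integral_inv_of_pos ha hb]

theorem dup_exp {ζ : ℂ} (h : 0 ≤ ζ.re) :
    ‖Complex.exp ζ - 1‖ ≤ ‖ζ‖ * Real.exp ζ.re ∧ ‖Complex.exp ζ - 1‖ ≤ 2 * Real.exp ζ.re := by
  constructor
  · have h1 : Convex ℝ {u : ℂ | u.re ≤ ζ.re} := convex_halfSpace_re_le ζ.re
    have h2 := h1.norm_image_sub_le_of_norm_deriv_le (f := Complex.exp) (C := Real.exp ζ.re)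
      (x := 0) (y := ζ) (fun u _ => Complex.differentiable_exp.differentiableAt)
      (fun u hu => by
        rw [Complex.deriv_exp, Complex.norm_exp]
        exact Real.exp_le_exp.2 hu) (by simpa using h) (by simp)
    rw [Complex.exp_zero, sub_zero, mul_comm] at h2
    exact h2
  · have h1 := norm_sub_le (Complex.exp ζ) 1
    rw [Complex.norm_exp, norm_one] at h1
    have h2 : 1 ≤ Real.exp ζ.re := Real.one_le_exp h
    linarith

theorem dup_cpow {T : ℝ} (hT : 0 < T) (m : ℕ) (z : ℂ) :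
    ((T ^ m : ℝ) : ℂ) ^ z = Complex.exp (m * (Real.log T * z)) := by
  have h1 : ((T ^ m : ℝ) : ℂ) ≠ 0 := by
    have : T ^ m ≠ 0 := (pow_pos hT m).ne'
    exact_mod_cast this
  rw [Complex.cpow_def_of_ne_zero h1, ← Complex.ofReal_log (pow_pos hT m).le, Real.log_pow]
  push_cast
  congr 1
  ring

/-- the bracket in the main term -/
theorem dup_bracket {L : ℝ} (hL : 0 ≤ L) {z : ℂ} (hz : 0 ≤ z.re) :
    ‖Complex.exp (42 * (L * z)) - Complex.exp (40 * (L * z)) - Complex.exp (12 * (L * z)) +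
      Complex.exp (10 * (L * z))‖ ≤ 60 * (L * ‖z‖) ^ 2 * Real.exp (42 * (L * z.re)) ∧
    ‖Complex.exp (42 * (L * z)) - Complex.exp (40 * (L * z)) - Complex.exp (12 * (L * z)) +
      Complex.exp (10 * (L * z))‖ ≤ 4 * Real.exp (42 * (L * z.re)) := by
  have h1 : Complex.exp (42 * (L * z)) - Complex.exp (40 * (L * z)) -
      Complex.exp (12 * (L * z)) + Complex.exp (10 * (L * z)) =
      Complex.exp (10 * (L * z)) * ((Complex.exp (2 * (L * z)) - 1) *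
        (Complex.exp (30 * (L * z)) - 1)) := by
    have e1 : Complex.exp (42 * (L * z)) = Complex.exp (10 * (L * z)) *
        (Complex.exp (2 * (L * z)) * Complex.exp (30 * (L * z))) := by
      rw [← Complex.exp_add, ← Complex.exp_add]
      congr 1
      ring
    have e2 : Complex.exp (40 * (L * z)) = Complex.exp (10 * (L * z)) *
        Complex.exp (30 * (L * z)) := by
      rw [← Complex.exp_add]
      congr 1
      ring
    have e3 : Complex.exp (12 * (L * z)) = Complex.exp (10 * (L * z)) *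
        Complex.exp (2 * (L * z)) := by
      rw [← Complex.exp_add]
      congr 1
      ring
    rw [e1, e2, e3]
    ring
  have hre : ∀ m : ℝ, ((m : ℂ) * (L * z)).re = m * (L * z.re) := by
    intro m
    rw [Complex.re_ofReal_mul, Complex.re_ofReal_mul]
  have hn : ∀ m : ℝ, 0 ≤ m → ‖(m : ℂ) * (L * z)‖ = m * (L * ‖z‖) := by
    intro m hm
    rw [norm_mul, norm_mul, Complex.norm_real, Complex.norm_real, Real.norm_eq_abs,
      Real.norm_eq_abs, abs_of_nonneg hm, abs_of_nonneg hL]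
  have hLz : 0 ≤ L * z.re := mul_nonneg hL hz
  have hLn : 0 ≤ L * ‖z‖ := mul_nonneg hL (norm_nonneg z)
  have r2 := hre 2
  have r10 := hre 10
  have r30 := hre 30
  have n2 := hn 2 (by norm_num)
  have n30 := hn 30 (by norm_num)
  push_cast at r2 r10 r30 n2 n30
  have a2 := dup_exp (ζ := 2 * (L * z)) (by rw [r2]; positivity)
  have a30 := dup_exp (ζ := 30 * (L * z)) (by rw [r30]; positivity)
  rw [r2, n2] at a2
  rw [r30, n30] at a30
  have hE : Real.exp (42 * (L * z.re)) = Real.exp (10 * (L * z.re)) *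
      (Real.exp (2 * (L * z.re)) * Real.exp (30 * (L * z.re))) := by
    rw [← Real.exp_add, ← Real.exp_add]
    congr 1
    ring
  rw [h1, norm_mul, norm_mul, Complex.norm_exp, r10, hE]
  have p10 := (Real.exp_pos (10 * (L * z.re))).le
  have p2 := (Real.exp_pos (2 * (L * z.re))).le
  constructor
  · calc Real.exp (10 * (L * z.re)) * (‖Complex.exp (2 * (L * z)) - 1‖ *
          ‖Complex.exp (30 * (L * z)) - 1‖)
        ≤ Real.exp (10 * (L * z.re)) * ((2 * (L * ‖z‖) * Real.exp (2 * (L * z.re))) *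
          (30 * (L * ‖z‖) * Real.exp (30 * (L * z.re)))) :=
          mul_le_mul_of_nonneg_left (mul_le_mul a2.1 a30.1 (norm_nonneg _) (by positivity)) p10
      _ = _ := by ring
  · calc Real.exp (10 * (L * z.re)) * (‖Complex.exp (2 * (L * z)) - 1‖ *
          ‖Complex.exp (30 * (L * z)) - 1‖)
        ≤ Real.exp (10 * (L * z.re)) * ((2 * Real.exp (2 * (L * z.re))) *
          (2 * Real.exp (30 * (L * z.re)))) :=
          mul_le_mul_of_nonneg_left (mul_le_mul a2.2 a30.2 (norm_nonneg _) (by positivity)) p10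
      _ = _ := by ring

/-- the sum -/
noncomputable def dup_S (T : ℝ) (k : ℕ) (w : ℂ) : ℂ :=
  ∑ n ∈ Icc 1 ⌊T ^ 42⌋₊, (((VT T n * gw T n ^ 2 : ℝ) : ℂ) *
    (1 : DirichletCharacter ℂ k) (n : ZMod k)) * (n : ℂ) ^ (-w)

theorem dup_ne {C : ℝ} (hC : 0 < C) {M : ℝ} {T : ℝ} (hT : 2 ≤ T) (k : ℕ) [NeZero k]
    (hk : (k : ℝ) ≤ T ^ 2) {w : ℂ} (hw1 : 199 / 200 ≤ w.re) (hw2 : w.re ≤ 1)
    (hw3 : |w.im| ≤ 2 * T) (hne : w ≠ 1) (hMk0 : 0 ≤ Mk T k) (hMk : Mk T k ≤ M / Real.log T)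
    (hA : ∀ v : ℝ, 1 ≤ v → ‖Ssum (cf (1 : DirichletCharacter ℂ k)) w v
      - ((Nat.totient k : ℂ) / k) * ((v : ℂ) ^ (1 - w) / (1 - w))
      - (1 : DirichletCharacter ℂ k).LFunction w‖ ≤ C * k * (1 + ‖w‖) * v ^ (-w.re)) :
    ‖dup_S T k w‖ ≤ (32 * M + 30 * C) * T ^ (42 * (1 - w.re)) /
      (1 + (w.im * Real.log T) ^ 2) := by
  obtain ⟨G, hG⟩ := dup_F_main hC hT k hk hw1 hw2 hw3 hA
  set χ := (1 : DirichletCharacter ℂ k) with hχ
  have hT0 : 0 < T := by linarith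
  have hT1 : 1 < T := by linarith
  set L := Real.log T with hL
  have hL0 : 0 < L := Real.log_pos hT1
  set c : ℕ → ℂ := fun n => ((gw T n ^ 2 : ℝ) : ℂ) * χ (n : ZMod k) * (n : ℂ) ^ (-w) with hc
  set z : ℂ := 1 - w with hz
  have hz0 : z ≠ 0 := sub_ne_zero.2 (Ne.symm hne)
  have hzre : z.re = 1 - w.re := by simp [hz]
  have hzim : z.im = -w.im := by simp [hz]
  have hlog : ∀ m n : ℕ, Real.log (T ^ (m + n) / T ^ m) = n * L := by
    intro m n
    rw [Real.log_div (pow_pos hT0 _).ne' (pow_pos hT0 _).ne', Real.log_pow, Real.log_pow]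
    push_cast
    ring
  have hmono : ∀ m n : ℕ, m ≤ n → T ^ m ≤ T ^ n := fun m n h => pow_le_pow_right₀ hT1.le h
  have J1 := dup_J c (N := ⌊T ^ 42⌋₊) (pow_pos hT0 40) (hmono 40 42 (by norm_num)) le_rfl hne
    (Mk T k : ℂ) G (fun v hv => hG v ((hmono 10 40 (by norm_num)).trans hv))
  have J2 := dup_J c (N := ⌊T ^ 42⌋₊) (pow_pos hT0 10) (hmono 10 12 (by norm_num))
    (Nat.floor_le_floor (hmono 12 42 (by norm_num))) hne (Mk T k : ℂ) G (fun v hv => hG v hv)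
  have hl1 : Real.log (T ^ 42 / T ^ 40) = 2 * L := by
    have := hlog 40 2
    norm_num at this
    exact this
  have hl2 : Real.log (T ^ 12 / T ^ 10) = 2 * L := by
    have := hlog 10 2
    norm_num at this
    exact this
  rw [hl1, ← hz, dup_cpow hT0, dup_cpow hT0] at J1
  rw [hl2, ← hz, dup_cpow hT0, dup_cpow hT0] at J2
  push_cast at J1 J2
  rw [← hL] at J1 J2
  set S1 := ∑ n ∈ Icc 1 ⌊T ^ 42⌋₊, c n * ((lp (T ^ 42 / n) : ℂ) - (lp (T ^ 40 / n) : ℂ)) with hS1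
  set S2 := ∑ n ∈ Icc 1 ⌊T ^ 42⌋₊, c n * ((lp (T ^ 12 / n) : ℂ) - (lp (T ^ 10 / n) : ℂ)) with hS2
  have hS : (2 * (L : ℂ)) * dup_S T k w = S1 - S2 := by
    unfold dup_S
    rw [mul_sum, hS1, hS2, ← sum_sub_distrib]
    refine sum_congr rfl fun n _ => ?_
    have hLc : (L : ℂ) ≠ 0 := by exact_mod_cast hL0.ne'
    unfold VT
    rw [hc, ← hL]
    push_cast
    field_simp
    ring
  set br := Complex.exp (42 * (L * z)) - Complex.exp (40 * (L * z)) - Complex.exp (12 * (L * z)) +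
      Complex.exp (10 * (L * z)) with hbr
  obtain ⟨hb1, hb2⟩ := dup_bracket hL0.le (z := z) (by rw [hzre]; linarith)
  rw [← hbr] at hb1 hb2
  have hdiff : ‖(2 * (L : ℂ)) * dup_S T k w - (Mk T k : ℂ) * (br / z ^ 2)‖ ≤
      3 * C / T ^ 4 * (2 * L) + 3 * C / T ^ 4 * (2 * L) := by
    have e1 : (2 * (L : ℂ)) * dup_S T k w - (Mk T k : ℂ) * (br / z ^ 2) =
        (S1 - ((Mk T k : ℂ) * ((Complex.exp (42 * (L * z)) - Complex.exp (40 * (L * z))) / z ^ 2) +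
          G * (2 * L))) -
        (S2 - ((Mk T k : ℂ) * ((Complex.exp (12 * (L * z)) - Complex.exp (10 * (L * z))) / z ^ 2) +
          G * (2 * L))) := by
      rw [hS, hbr]
      ring
    rw [e1]
    exact (norm_sub_le _ _).trans (add_le_add J1 J2)
  have hE : T ^ (42 * (1 - w.re)) = Real.exp (42 * (L * z.re)) := by
    rw [Real.rpow_def_of_pos hT0, hzre, ← hL]
    congr 1
    ring
  set E := Real.exp (42 * (L * z.re)) with hEd
  have hE1 : 1 ≤ E := Real.one_le_exp (by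
    rw [hzre]
    have : 0 ≤ 1 - w.re := by linarith
    positivity)
  have hzn : 0 < ‖z‖ := norm_pos_iff.2 hz0
  set A := (L * ‖z‖) ^ 2 with hA'
  have hτA : (w.im * L) ^ 2 ≤ A := by
    have h1 : |z.im| ≤ ‖z‖ := Complex.abs_im_le_norm z
    rw [hzim, abs_neg] at h1
    have h2 : |w.im * L| ≤ L * ‖z‖ := by
      rw [abs_mul, abs_of_pos hL0, mul_comm]
      exact mul_le_mul_of_nonneg_left h1 hL0.le
    calc (w.im * L) ^ 2 = |w.im * L| ^ 2 := (sq_abs _).symm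
      _ ≤ A := pow_le_pow_left₀ (abs_nonneg _) h2 2
  have hLT : L ≤ T := by
    have := Real.log_le_sub_one_of_pos hT0
    linarith
  have hτT : 1 + (w.im * L) ^ 2 ≤ 5 * T ^ 4 := by
    have h2 : |w.im * L| ≤ 2 * T * T := by
      rw [abs_mul, abs_of_pos hL0]
      exact mul_le_mul hw3 hLT hL0.le (by positivity)
    have h3 : (w.im * L) ^ 2 ≤ (2 * T * T) ^ 2 := by
      calc (w.im * L) ^ 2 = |w.im * L| ^ 2 := (sq_abs _).symm
        _ ≤ _ := pow_le_pow_left₀ (abs_nonneg _) h2 2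
    have h4 : 1 ≤ T ^ 4 := one_le_pow₀ hT1.le
    nlinarith
  set τ := 1 + (w.im * L) ^ 2 with hτ
  have hτ0 : 0 < τ := by positivity
  rw [hE, le_div_iff₀ hτ0]
  have hn1 : 2 * L * ‖dup_S T k w‖ ≤ Mk T k * (‖br‖ / ‖z‖ ^ 2) + 12 * C * L / T ^ 4 := by
    have h1 : ‖(2 * (L : ℂ)) * dup_S T k w‖ = 2 * L * ‖dup_S T k w‖ := by
      rw [norm_mul, norm_mul, Complex.norm_real, Real.norm_eq_abs, abs_of_pos hL0]
      norm_num
    have h2 : ‖(Mk T k : ℂ) * (br / z ^ 2)‖ = Mk T k * (‖br‖ / ‖z‖ ^ 2) := by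
      rw [norm_mul, Complex.norm_real, Real.norm_eq_abs, abs_of_nonneg hMk0, norm_div, norm_pow]
    have h3 := norm_le_norm_add_norm_sub' ((2 * (L : ℂ)) * dup_S T k w)
      ((Mk T k : ℂ) * (br / z ^ 2))
    rw [h1, h2] at h3
    have h4 : 3 * C / T ^ 4 * (2 * L) + 3 * C / T ^ 4 * (2 * L) = 12 * C * L / T ^ 4 := by ring
    linarith
  have hn2 : ‖br‖ * τ ≤ 64 * A * E := by
    have h1 : ‖br‖ * τ ≤ ‖br‖ * (1 + A) :=
      mul_le_mul_of_nonneg_left (by linarith) (norm_nonneg _)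
    have hA0 : 0 ≤ A := sq_nonneg _
    have h2 : ‖br‖ * A ≤ 4 * E * A := mul_le_mul_of_nonneg_right hb2 hA0
    linarith
  have hn3 : Mk T k * (‖br‖ / ‖z‖ ^ 2) * τ ≤ 64 * M * L * E := by
    have h1 : ‖br‖ / ‖z‖ ^ 2 * τ ≤ 64 * L ^ 2 * E := by
      rw [div_mul_eq_mul_div, div_le_iff₀ (by positivity)]
      calc ‖br‖ * τ ≤ 64 * A * E := hn2
        _ = 64 * L ^ 2 * E * ‖z‖ ^ 2 := by rw [hA']; ring
    have h2 : Mk T k * L ≤ M := by
      rw [le_div_iff₀ hL0] at hMk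
      exact hMk
    calc Mk T k * (‖br‖ / ‖z‖ ^ 2) * τ = Mk T k * (‖br‖ / ‖z‖ ^ 2 * τ) := by ring
      _ ≤ Mk T k * (64 * L ^ 2 * E) := mul_le_mul_of_nonneg_left h1 hMk0
      _ = (Mk T k * L) * (64 * L * E) := by ring
      _ ≤ M * (64 * L * E) := mul_le_mul_of_nonneg_right h2 (by positivity)
      _ = 64 * M * L * E := by ring
  have hn4 : 12 * C * L / T ^ 4 * τ ≤ 60 * C * L * E := by
    calc 12 * C * L / T ^ 4 * τ ≤ 12 * C * L / T ^ 4 * (5 * T ^ 4) :=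
          mul_le_mul_of_nonneg_left hτT (by positivity)
      _ = 60 * C * L * 1 := by field_simp; norm_num
      _ ≤ 60 * C * L * E := mul_le_mul_of_nonneg_left hE1 (by positivity)
  have hn5 : 2 * L * (‖dup_S T k w‖ * τ) ≤ 2 * L * ((32 * M + 30 * C) * E) := by
    have h1 := mul_le_mul_of_nonneg_right hn1 hτ0.le
    have h2 : (Mk T k * (‖br‖ / ‖z‖ ^ 2) + 12 * C * L / T ^ 4) * τ =
      Mk T k * (‖br‖ / ‖z‖ ^ 2) * τ + 12 * C * L / T ^ 4 * τ := by ring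
    rw [h2] at h1
    linarith
  exact le_of_mul_le_mul_left hn5 (by positivity)

/-- [DuP] -/
theorem thm_DuP (h : St_Mk) : St_DuP := by
  obtain ⟨M, hM, hMk⟩ := h
  obtain ⟨C, hC, hA⟩ := thm_A1p
  refine ⟨42 + 32 * M + 30 * C, 2, by positivity, le_rfl, fun T hT k _ hk w hw1 hw2 hw3 => ?_⟩
  have hT0 : 0 < T := by linarith
  have hkn : 1 ≤ k := Nat.one_le_iff_ne_zero.2 (NeZero.ne k)
  obtain ⟨m1, m2⟩ := hMk T hT k hkn
  have hbound : ∀ w : ℂ, 199 / 200 ≤ w.re → w.re ≤ 1 → |w.im| ≤ 2 * T → w ≠ 1 →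
      ‖dup_S T k w‖ ≤ (42 + 32 * M + 30 * C) * T ^ ((42 + 32 * M + 30 * C) * (1 - w.re)) /
        (1 + (w.im * Real.log T) ^ 2) := by
    intro w hw1 hw2 hw3 hne
    refine (dup_ne hC hT k hk hw1 hw2 hw3 hne m1 m2
      (fun v hv => hA k w (by linarith) hne v hv)).trans ?_
    refine div_le_div_of_nonneg_right (mul_le_mul (by linarith) ?_ (by positivity)
      (by positivity)) (by positivity)
    refine Real.rpow_le_rpow_of_exponent_le (by linarith) ?_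
    refine mul_le_mul_of_nonneg_right ?_ (by linarith)
    linarith
  show ‖dup_S T k w‖ ≤ _
  by_cases hne : w = 1
  · subst hne
    -- continuity
    have hcont : Continuous fun t : ℝ => ‖dup_S T k (1 + t * Complex.I)‖ := by
      unfold dup_S
      refine (continuous_finsetSum _ fun n hn => ?_).norm
      have hn0 : (n : ℂ) ≠ 0 := by
        have := (mem_Icc.1 hn).1
        have h0 : n ≠ 0 := by omega
        exact_mod_cast h0
      refine continuous_const.mul ?_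
      refine Continuous.const_cpow ?_ (Or.inl hn0)
      fun_prop
    have hcont2 : Continuous fun t : ℝ => (42 + 32 * M + 30 * C) *
        T ^ ((42 + 32 * M + 30 * C) * (1 - (1 + t * Complex.I : ℂ).re)) /
        (1 + ((1 + t * Complex.I : ℂ).im * Real.log T) ^ 2) := by
      refine Continuous.div ?_ ?_ fun t => by positivity
      · simp only [Complex.add_re, Complex.one_re, Complex.mul_re, Complex.ofReal_re,
          Complex.I_re, mul_zero, Complex.ofReal_im, Complex.I_im, zero_mul, sub_zero, add_zero]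
        exact continuous_const
      · simp only [Complex.add_im, Complex.one_im, Complex.mul_im, Complex.ofReal_re,
          Complex.I_im, mul_one, Complex.ofReal_im, Complex.I_re, mul_zero, add_zero, zero_add]
        fun_prop
    have hlim1 := (hcont.tendsto 0).mono_left (nhdsWithin_le_nhds (s := Set.Ioi (0 : ℝ)))
    have hlim2 := (hcont2.tendsto 0).mono_left (nhdsWithin_le_nhds (s := Set.Ioi (0 : ℝ)))
    have hle : ∀ᶠ t : ℝ in nhdsWithin 0 (Set.Ioi 0), ‖dup_S T k (1 + t * Complex.I)‖ ≤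
        (42 + 32 * M + 30 * C) *
        T ^ ((42 + 32 * M + 30 * C) * (1 - (1 + t * Complex.I : ℂ).re)) /
        (1 + ((1 + t * Complex.I : ℂ).im * Real.log T) ^ 2) := by
      have h1 : Set.Ioo (0 : ℝ) (2 * T) ∈ nhdsWithin (0 : ℝ) (Set.Ioi 0) :=
        Ioo_mem_nhdsGT (by linarith)
      filter_upwards [h1] with t ht
      have hre : (1 + t * Complex.I : ℂ).re = 1 := by simp
      have him : (1 + t * Complex.I : ℂ).im = t := by simp
      refine hbound _ (by rw [hre]; norm_num) (by rw [hre]) ?_ ?_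
      · rw [him, abs_of_pos ht.1]
        exact ht.2.le
      · intro h0
        have := congrArg Complex.im h0
        rw [him, Complex.one_im] at this
        exact ht.1.ne' this
    have := le_of_tendsto_of_tendsto hlim1 hlim2 hle
    simpa using this
  · exact hbound w (by linarith) hw2 hw3 hne

end Pool.Agent.MVX
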