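import Pool.Agent.MVX.StF

set_option autoImplicit false

/-!
# Project MVX, module GPf: the interface `GP` from the theorems on zeros
-/

namespace Pool.Agent.MVX

open Finset Filter

/-- the weighted sum over the zeros `ρ` of `c` with `η ≤ 1 - Re ρ` -/
noncomputable def gpf_S (T Y η : ℝ) (c : Chr) : ℝ :=
  ∑ ρ ∈ (zc c (rect (7 / 8) (T + 1))).filter (fun ρ => η ≤ 1 - ρ.re),
    (mc c ρ : ℝ) * Y ^ (-(1 - ρ.re))

theorem gpf_S_nonneg (T Y η : ℝ) (hY : 0 ≤ Y) (c : Chr) : 0 ≤ gpf_S T Y η c :=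
  Finset.sum_nonneg (fun _ _ => mul_nonneg (Nat.cast_nonneg _) (Real.rpow_nonneg hY _))

theorem gpf_card (T : ℝ) (hT : 0 ≤ T) : ((PS T).card : ℝ) ≤ T ^ 2 := by
  classical
  have h1 : (PS T).card ≤ ⌊T⌋₊ ^ 2 := by
    unfold PS
    rw [card_sigma]
    calc ∑ q ∈ Icc 1 ⌊T⌋₊, (prm q).card ≤ ∑ q ∈ Icc 1 ⌊T⌋₊, ⌊T⌋₊ := by
          refine sum_le_sum fun q hq => ?_
          rw [mem_Icc] at hq
          have : NeZero q := ⟨by omega⟩
          calc (prm q).card ≤ Fintype.card (DirichletCharacter ℂ q) := card_le_univ _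
            _ = Nat.card (DirichletCharacter ℂ q) := (Nat.card_eq_fintype_card).symm
            _ = q.totient := DirichletCharacter.card_eq_totient_of_hasEnoughRootsOfUnity ℂ q
            _ ≤ q := Nat.totient_le q
            _ ≤ ⌊T⌋₊ := hq.2
      _ = ⌊T⌋₊ ^ 2 := by
          rw [sum_const, Nat.card_Icc, Nat.add_sub_cancel, smul_eq_mul, pow_two]
  have h2 : ((PS T).card : ℝ) ≤ (⌊T⌋₊ : ℝ) ^ 2 := by exact_mod_cast h1
  exact h2.trans (pow_le_pow_left₀ (Nat.cast_nonneg _) (Nat.floor_le hT) 2)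

theorem gpf_mem_PS {T : ℝ} (hT : 0 ≤ T) (c : Chr) :
    c ∈ PS T ↔ c.1 ≠ 0 ∧ (c.1 : ℝ) ≤ T ∧ c.2.IsPrimitive := by
  unfold PS
  rw [mem_sigma, mem_Icc, mem_prm, Nat.le_floor_iff hT, Nat.one_le_iff_ne_zero, and_assoc]

theorem gpf_zc {q : ℕ} [NeZero q] (χ : DirichletCharacter ℂ q) (K : Set ℂ) :
    zc ⟨q, χ⟩ K = zs χ K := by
  unfold zc
  exact dif_neg (NeZero.ne q)

theorem gpf_mc {q : ℕ} [NeZero q] (χ : DirichletCharacter ℂ q) (ρ : ℂ) :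
    mc ⟨q, χ⟩ ρ = zm χ ρ := by
  unfold mc
  exact dif_neg (NeZero.ne q)

/-- the sum of the errors -/
theorem gpf_sum {CW T Y η D r : ℝ} (hD : 0 ≤ D) (hDT : D ≤ T) (hY : 0 ≤ Y) (hr : 0 ≤ r)
    (hW : ∑ c ∈ PS T, ∑ ρ ∈ (zc c (rect (7 / 8) (T + 1))).filter (fun ρ => η ≤ 1 - ρ.re),
      (mc c ρ : ℝ) * Y ^ (-(1 - ρ.re)) ≤ CW * (Y ^ (-(η / 2)) + Y ^ (-(1 / 800 : ℝ)))) :
    ∑ q ∈ Icc 1 ⌊D⌋₊, ∑ χ ∈ prm q, (8 * gpf_S T Y η ⟨q, χ⟩ + r) ≤
      8 * (CW * (Y ^ (-(η / 2)) + Y ^ (-(1 / 800 : ℝ)))) + D ^ 2 * r := by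
  have e1 : ∑ q ∈ Icc 1 ⌊D⌋₊, ∑ χ ∈ prm q, (8 * gpf_S T Y η ⟨q, χ⟩ + r) =
      ∑ c ∈ PS D, (8 * gpf_S T Y η c + r) := by
    unfold PS
    rw [Finset.sum_sigma]
  rw [e1, Finset.sum_add_distrib, Finset.sum_const, nsmul_eq_mul, ← Finset.mul_sum]
  have e2 : PS D ⊆ PS T := by
    unfold PS
    exact sigma_mono (Icc_subset_Icc_right (Nat.floor_mono hDT)) fun _ => Subset.refl _
  have e3 : ∑ c ∈ PS D, gpf_S T Y η c ≤ ∑ c ∈ PS T, gpf_S T Y η c :=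
    Finset.sum_le_sum_of_subset_of_nonneg e2 (fun c _ _ => gpf_S_nonneg T Y η hY c)
  have e4 : ∑ c ∈ PS T, gpf_S T Y η c ≤ CW * (Y ^ (-(η / 2)) + Y ^ (-(1 / 800 : ℝ))) := hW
  have e5 : ((PS D).card : ℝ) * r ≤ D ^ 2 * r := mul_le_mul_of_nonneg_right (gpf_card D hD) hr
  linarith

/-- the window bound for one character; `B` are the zeros which are kept -/
theorem gpf_bd (h2 : St_Wbd) {T Y η err : ℝ} {q : ℕ} [NeZero q] (χ : DirichletCharacter ℂ q)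
    (p : ℂ) (B : Finset ℂ) (H x : ℕ) (hH : 1 ≤ H) (hHx : H ≤ x) (hY : 0 < Y) (hYx : Y ≤ x)
    (hBs : B ⊆ zs χ (rect (7 / 8) (T + 1)))
    (hB : ∀ ρ ∈ zs χ (rect (7 / 8) (T + 1)), ρ ∉ B → η ≤ 1 - ρ.re)
    (hE : ‖Bm H x χ - p + ∑ ρ ∈ zs χ (rect (7 / 8) (T + 1)), (zm χ ρ : ℂ) * Wn ρ H x‖ ≤ err) :
    ‖Bm H x χ - p + ∑ ρ ∈ B, (zm χ ρ : ℂ) * Wn ρ H x‖ ≤ 8 * gpf_S T Y η ⟨q, χ⟩ + err := by
  classical
  set Z := zs χ (rect (7 / 8) (T + 1)) with hZ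
  have e1 : ∑ ρ ∈ Z, (zm χ ρ : ℂ) * Wn ρ H x =
      ∑ ρ ∈ Z \ B, (zm χ ρ : ℂ) * Wn ρ H x + ∑ ρ ∈ B, (zm χ ρ : ℂ) * Wn ρ H x :=
    (Finset.sum_sdiff hBs).symm
  have e2 : Bm H x χ - p + ∑ ρ ∈ B, (zm χ ρ : ℂ) * Wn ρ H x =
      (Bm H x χ - p + ∑ ρ ∈ Z, (zm χ ρ : ℂ) * Wn ρ H x) -
        ∑ ρ ∈ Z \ B, (zm χ ρ : ℂ) * Wn ρ H x := by
    rw [e1]
    ring
  rw [e2]
  refine (norm_sub_le _ _).trans ?_
  have e3 : ‖∑ ρ ∈ Z \ B, (zm χ ρ : ℂ) * Wn ρ H x‖ ≤ 8 * gpf_S T Y η ⟨q, χ⟩ := by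
    refine (norm_sum_le _ _).trans ?_
    have e4 : ∀ ρ ∈ Z \ B, ‖(zm χ ρ : ℂ) * Wn ρ H x‖ ≤
        8 * ((zm χ ρ : ℝ) * Y ^ (-(1 - ρ.re))) := by
      intro ρ hρ
      rw [Finset.mem_sdiff] at hρ
      have hr := ((mem_zs χ (rect_bounded _ _) ρ).1 hρ.1).1
      have hw := h2 ρ (by linarith [hr.1]) hr.2.1 H x hH hHx
      have hx : (x : ℝ) ^ (ρ.re - 1) ≤ Y ^ (-(1 - ρ.re)) := by
        have : -(1 - ρ.re) = ρ.re - 1 := by ring
        rw [this]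
        exact Real.rpow_le_rpow_of_nonpos hY hYx (by linarith [hr.2.1])
      rw [norm_mul, Complex.norm_natCast]
      have h8 : ‖Wn ρ H x‖ ≤ 8 * Y ^ (-(1 - ρ.re)) := by linarith
      calc (zm χ ρ : ℝ) * ‖Wn ρ H x‖ ≤ (zm χ ρ : ℝ) * (8 * Y ^ (-(1 - ρ.re))) :=
            mul_le_mul_of_nonneg_left h8 (Nat.cast_nonneg _)
        _ = 8 * ((zm χ ρ : ℝ) * Y ^ (-(1 - ρ.re))) := by ring
    refine (Finset.sum_le_sum e4).trans ?_
    rw [← Finset.mul_sum]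
    refine mul_le_mul_of_nonneg_left ?_ (by norm_num)
    unfold gpf_S
    rw [gpf_zc]
    have e5 : Z \ B ⊆ Z.filter (fun ρ => η ≤ 1 - ρ.re) := by
      intro ρ hρ
      rw [Finset.mem_sdiff] at hρ
      rw [Finset.mem_filter]
      exact ⟨hρ.1, hB ρ hρ.1 hρ.2⟩
    refine le_trans (Finset.sum_le_sum_of_subset_of_nonneg e5 (fun ρ _ _ =>
      mul_nonneg (Nat.cast_nonneg _) (Real.rpow_nonneg hY.le _))) ?_
    refine Finset.sum_le_sum (fun ρ _ => ?_)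
    rw [gpf_mc]
  linarith

/-- the conclusion of the interface at `X` -/
def gpf_Con (κ : ℝ) (a : ℕ) (δ X : ℝ) : Prop :=
  ∃ (q₁ : ℕ) (_ : NeZero q₁) (χ₁ : DirichletCharacter ℂ q₁)
    (e b lam : ℝ) (E : Chr → ℝ),
    ExcData X δ q₁ χ₁ e b lam ∧
    X ^ (-(κ * δ)) ≤ lam ∧ lam ≤ 1 ∧
    (∀ H x : ℕ, Win X δ a H x → 0 ≤ e * Um b H x ∧ e * Um b H x ≤ 1 - lam / 4) ∧
    (∀ c : Chr, 0 ≤ E c) ∧
    (∑ q ∈ Icc 1 ⌊X ^ δ⌋₊, ∑ χ ∈ prm q, E ⟨q, χ⟩ ≤ κ * lam ^ 3) ∧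
    ∀ H x : ℕ, Win X δ a H x →
      ‖Bm H x (1 : DirichletCharacter ℂ 1) - 1‖ ≤ E ⟨1, 1⟩ ∧
      ‖Bm H x χ₁ + ((e * Um b H x : ℝ) : ℂ)‖ ≤ E ⟨q₁, χ₁⟩ ∧
      ∀ q : ℕ, 1 < q → (q : ℝ) ≤ X ^ δ → ∀ χ : DirichletCharacter ℂ q, χ.IsPrimitive →
        (⟨q, χ⟩ : Chr) ≠ ⟨q₁, χ₁⟩ → ‖Bm H x χ‖ ≤ E ⟨q, χ⟩

/-- WLOG `κ` small -/
theorem gpf_mono {κ κ' : ℝ} {a : ℕ} {δ X : ℝ} (hκ : κ ≤ κ') (hδ : 0 ≤ δ) (hX : 1 ≤ X)
    (h : gpf_Con κ a δ X) : gpf_Con κ' a δ X := by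
  obtain ⟨q₁, hq, χ₁, e, b, lam, E, h1, h2, h3, h4, h5, h6, h7⟩ := h
  refine ⟨q₁, hq, χ₁, e, b, lam, E, h1, ?_, h3, h4, h5, ?_, h7⟩
  · refine le_trans ?_ h2
    apply Real.rpow_le_rpow_of_exponent_le hX
    have : κ * δ ≤ κ' * δ := mul_le_mul_of_nonneg_right hκ hδ
    linarith
  · refine h6.trans ?_
    have : 0 < lam := lt_of_lt_of_le (Real.rpow_pos_of_pos (by linarith) _) h2
    exact mul_le_mul_of_nonneg_right hκ (by positivity)

/-- The bookkeeping facts at `X` (with `T = X ^ (N δ)`, `Y = X ^ (1/2)`) -/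
structure gpf_Fac (κ : ℝ) (a : ℕ) (δ X T CE CU CW : ℝ) : Prop where
  X2 : 2 ≤ X
  δ0 : 0 < δ
  δa : (a + 1) * δ ≤ 1 / 10
  T2 : 2 ≤ T
  TX : T ≤ X
  DT : X ^ δ ≤ T
  err : CE * X ^ (2 * a * δ) * (Real.log T * Real.log (2 * X + 2)) ^ 2 *
    (T * X ^ (-(1 / 20 : ℝ)) + 1 / T) + CU * X ^ (-(9 / 10 : ℝ)) ≤ X ^ (-(3 * δ))
  small : 16 * CW * X ^ (-(1 / 1600 : ℝ)) ≤ κ / 4 * X ^ (-(3 * κ * δ))
  small' : X ^ (-δ) ≤ κ / 4 * X ^ (-(3 * κ * δ))

/-- windows are long -/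
theorem gpf_win {X δ : ℝ} {a H x : ℕ} (hX : 2 ≤ X) (hδ : 0 < δ) (hδa : (a + 1) * δ ≤ 1 / 10)
    (hw : Win X δ a H x) : X ^ (9 / 10 : ℝ) ≤ H ∧ X ^ (1 / 2 : ℝ) ≤ x ∧ 1 ≤ H ∧ H ≤ x ∧
      (x : ℝ) ≤ X := by
  obtain ⟨w1, w2, w3⟩ := hw
  have h1 : X ^ (9 / 10 : ℝ) ≤ H := by
    refine le_trans (Real.rpow_le_rpow_of_exponent_le (by linarith) ?_) w1
    linarith
  have h2 : X ^ (1 / 2 : ℝ) ≤ X ^ (9 / 10 : ℝ) :=
    Real.rpow_le_rpow_of_exponent_le (by linarith) (by norm_num)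
  have h3 : (H : ℝ) ≤ x := by exact_mod_cast w2
  have h4 : (1 : ℝ) ≤ X ^ (9 / 10 : ℝ) := Real.one_le_rpow (by linarith) (by norm_num)
  refine ⟨h1, by linarith, ?_, w2, w3⟩
  exact_mod_cast h4.trans h1

/-- the core: conclusion from a lower bound `η` for `1 - Re ρ` for all zeros except one -/
theorem gpf_core {κ : ℝ} {a : ℕ} {δ X T CE CU CW : ℝ} (hκ : 0 < κ)
    (hF : gpf_Fac κ a δ X T CE CU CW) (hCU : 0 < CU)
    (hEFW : ∀ (q : ℕ) [NeZero q] (χ : DirichletCharacter ℂ q), (q : ℝ) ≤ T → ∀ p : ℂ,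
      (χ = 1 → p = 1) → (χ ≠ 1 → p = 0) → ∀ H x : ℕ, Win X δ a H x →
      ‖Bm H x χ - p + ∑ ρ ∈ zs χ (rect (7 / 8) (T + 1)), (zm χ ρ : ℂ) * Wn ρ H x‖
        ≤ CE * X ^ (2 * a * δ) * (Real.log T * Real.log (2 * X + 2)) ^ 2 *
          (T * X ^ (-(1 / 20 : ℝ)) + 1 / T))
    (hWbd : St_Wbd)
    (hUm1 : ∀ b : ℝ, 1 / 2 ≤ b → b ≤ 1 → ∀ H x : ℕ, 1 ≤ H → H ≤ x →
      ‖Wn (b : ℂ) H x - ((Um b H x : ℝ) : ℂ)‖ ≤ CU / H)
    (η : ℝ)
    (hW : ∑ c ∈ PS T, ∑ ρ ∈ (zc c (rect (7 / 8) (T + 1))).filter (fun ρ => η ≤ 1 - ρ.re),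
      (mc c ρ : ℝ) * (X ^ (1 / 2 : ℝ)) ^ (-(1 - ρ.re)) ≤
        CW * ((X ^ (1 / 2 : ℝ)) ^ (-(η / 2)) + (X ^ (1 / 2 : ℝ)) ^ (-(1 / 800 : ℝ))))
    (q₁ : ℕ) [NeZero q₁] (χ₁ : DirichletCharacter ℂ q₁) (e b lam : ℝ)
    (hED : ExcData X δ q₁ χ₁ e b lam) (hl0 : X ^ (-(κ * δ)) ≤ lam) (hl1 : lam ≤ 1)
    (hUm : ∀ H x : ℕ, Win X δ a H x → 0 ≤ e * Um b H x ∧ e * Um b H x ≤ 1 - lam / 4)
    (hη : 8 * CW * (X ^ (1 / 2 : ℝ)) ^ (-(η / 2)) ≤
      κ / 4 * lam ^ 3 + 8 * CW * (X ^ (1 / 2 : ℝ)) ^ (-(1 / 800 : ℝ)))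
    (hz : (e = 0 ∧ ∀ (q : ℕ) [NeZero q] (χ : DirichletCharacter ℂ q), (q : ℝ) ≤ X ^ δ →
        χ.IsPrimitive → ∀ ρ ∈ zs χ (rect (7 / 8) (T + 1)), η ≤ 1 - ρ.re) ∨
      (e = 1 ∧ 7 / 8 ≤ b ∧ b ≤ 1 ∧ zm χ₁ (b : ℂ) = 1 ∧ Lf χ₁ (b : ℂ) = 0 ∧
        ∀ (q : ℕ) [NeZero q] (χ : DirichletCharacter ℂ q), (q : ℝ) ≤ X ^ δ → χ.IsPrimitive →
          ∀ ρ ∈ zs χ (rect (7 / 8) (T + 1)), ¬ ((⟨q, χ⟩ : Chr) = ⟨q₁, χ₁⟩ ∧ ρ = (b : ℂ)) →
            η ≤ 1 - ρ.re)) :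
    gpf_Con κ a δ X := by
  obtain ⟨X2, δ0, δa, T2, TX, DT, herr, hsm, hsm'⟩ := hF
  have hX0 : 0 < X := by linarith
  have hX1 : 1 ≤ X := by linarith
  set Y : ℝ := X ^ (1 / 2 : ℝ) with hYdef
  have hY0 : 0 < Y := Real.rpow_pos_of_pos hX0 _
  set err : ℝ := CE * X ^ (2 * a * δ) * (Real.log T * Real.log (2 * X + 2)) ^ 2 *
    (T * X ^ (-(1 / 20 : ℝ)) + 1 / T) with herrdef
  have hr0 : 0 ≤ X ^ (-(3 * δ)) := Real.rpow_nonneg hX0.le _
  have hU0 : 0 ≤ CU * X ^ (-(9 / 10 : ℝ)) := by positivity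
  have hone : (1 : ℝ) ≤ X ^ δ := Real.one_le_rpow hX1 δ0.le
  -- characters without exceptional zero
  have hgen : ∀ (q : ℕ) [NeZero q] (χ : DirichletCharacter ℂ q), (q : ℝ) ≤ X ^ δ →
      ∀ p : ℂ, (χ = 1 → p = 1) → (χ ≠ 1 → p = 0) →
      (∀ ρ ∈ zs χ (rect (7 / 8) (T + 1)), η ≤ 1 - ρ.re) → ∀ H x : ℕ, Win X δ a H x →
      ‖Bm H x χ - p‖ ≤ 8 * gpf_S T Y η ⟨q, χ⟩ + X ^ (-(3 * δ)) := by
    intro q _ χ hq p hp1 hp2 hzz H x hw
    obtain ⟨w1, w2, w3, w4, w5⟩ := gpf_win X2 δ0 δa hw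
    have := gpf_bd hWbd χ p ∅ H x w3 w4 hY0 w2 (Finset.empty_subset _)
      (fun ρ hρ _ => hzz ρ hρ) (hEFW q χ (hq.trans DT) p hp1 hp2 H x hw)
    rw [Finset.sum_empty, add_zero] at this
    linarith
  refine ⟨q₁, inferInstance, χ₁, e, b, lam, fun c => 8 * gpf_S T Y η c + X ^ (-(3 * δ)), hED,
    hl0, hl1, hUm, ?_, ?_, ?_⟩
  · intro c
    have := gpf_S_nonneg T Y η hY0.le c
    positivity
  · have hs := gpf_sum (D := X ^ δ) (r := X ^ (-(3 * δ))) (by linarith) DT hY0.le hr0 hW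
    refine hs.trans ?_
    have e1 : (X ^ δ) ^ 2 * X ^ (-(3 * δ)) = X ^ (-δ) := by
      rw [← Real.rpow_natCast, ← Real.rpow_mul hX0.le, ← Real.rpow_add hX0]
      congr 1
      push_cast
      ring
    rw [e1]
    have e2 : Y ^ (-(1 / 800 : ℝ)) = X ^ (-(1 / 1600 : ℝ)) := by
      rw [hYdef, ← Real.rpow_mul hX0.le]
      norm_num
    rw [e2] at hη ⊢
    have e3 : X ^ (-(3 * κ * δ)) ≤ lam ^ 3 := by
      have : (X ^ (-(κ * δ))) ^ 3 ≤ lam ^ 3 :=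
        pow_le_pow_left₀ (Real.rpow_nonneg hX0.le _) hl0 3
      refine le_trans (le_of_eq ?_) this
      rw [← Real.rpow_natCast, ← Real.rpow_mul hX0.le]
      congr 1
      push_cast
      ring
    have e4 : κ / 4 * X ^ (-(3 * κ * δ)) ≤ κ / 4 * lam ^ 3 :=
      mul_le_mul_of_nonneg_left e3 (by positivity)
    have e5 : 0 ≤ κ * lam ^ 3 := mul_nonneg hκ.le ((Real.rpow_nonneg hX0.le _).trans e3)
    linarith
  · intro H x hw
    obtain ⟨w1, w2, w3, w4, w5⟩ := gpf_win X2 δ0 δa hw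
    have : NeZero (1 : ℕ) := ⟨one_ne_zero⟩
    rcases hz with ⟨he, hzz⟩ | ⟨he, hb1, hb2, hzm, hL, hzz⟩
    · refine ⟨?_, ?_, ?_⟩
      · exact hgen 1 1 (by rw [Nat.cast_one]; exact hone) 1 (fun _ => rfl)
          (fun h => absurd rfl h)
          (hzz 1 1 (by rw [Nat.cast_one]; exact hone) DirichletCharacter.isPrimitive_one_level_one)
          H x hw
      · have := hgen q₁ χ₁ hED.cond.2 0 (fun h => absurd h hED.nontriv) (fun _ => rfl)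
          (hzz q₁ χ₁ hED.cond.2 hED.prim) H x hw
        rw [he]
        simpa using this
      · intro q hq1 hq2 χ hχ _
        have : NeZero q := ⟨by omega⟩
        have hne : χ ≠ 1 := by
          intro h
          subst h
          rw [DirichletCharacter.isPrimitive_def, DirichletCharacter.conductor_one] at hχ
          · omega
        have := hgen q χ hq2 0 (fun h => absurd h hne) (fun _ => rfl) (hzz q χ hq2 hχ) H x hw
        simpa using this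
    · have hq1 : 1 < q₁ := hED.cond.1
      refine ⟨?_, ?_, ?_⟩
      · exact hgen 1 1 (by rw [Nat.cast_one]; exact hone) 1 (fun _ => rfl)
          (fun h => absurd rfl h)
          (fun ρ hρ => hzz 1 1 (by rw [Nat.cast_one]; exact hone)
            DirichletCharacter.isPrimitive_one_level_one ρ hρ (by
              rintro ⟨h, _⟩
              have : (1 : ℕ) = q₁ := congrArg Sigma.fst h
              omega))
          H x hw
      · have hbz : (b : ℂ) ∈ zs χ₁ (rect (7 / 8) (T + 1)) := by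
          rw [mem_zs χ₁ (rect_bounded _ _)]
          refine ⟨⟨by simpa using hb1, by simpa using hb2, ?_⟩, hL⟩
          rw [Complex.ofReal_im, abs_zero]
          linarith
        have := gpf_bd hWbd (T := T) (Y := Y) (η := η) χ₁ 0 {(b : ℂ)} H x w3 w4 hY0 w2
          (by
            intro ρ hρ
            rw [Finset.mem_singleton] at hρ
            rw [hρ]
            exact hbz)
          (fun ρ hρ hρ' => hzz q₁ χ₁ hED.cond.2 hED.prim ρ hρ (by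
            rintro ⟨_, h⟩
            exact hρ' (Finset.mem_singleton.2 h)))
          (hEFW q₁ χ₁ (hED.cond.2.trans DT) 0 (fun h => absurd h hED.nontriv) (fun _ => rfl)
            H x hw)
        rw [Finset.sum_singleton, hzm, Nat.cast_one, one_mul, sub_zero] at this
        have hU := hUm1 b (by linarith) hb2 H x w3 w4
        have hHX : CU / H ≤ CU * X ^ (-(9 / 10 : ℝ)) := by
          rw [div_eq_mul_inv]
          refine mul_le_mul_of_nonneg_left ?_ hCU.le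
          rw [Real.rpow_neg hX0.le]
          exact inv_anti₀ (Real.rpow_pos_of_pos hX0 _) w1
        rw [he, one_mul]
        have e1 : Bm H x χ₁ + ((Um b H x : ℝ) : ℂ) =
            (Bm H x χ₁ + Wn (b : ℂ) H x) - (Wn (b : ℂ) H x - ((Um b H x : ℝ) : ℂ)) := by ring
        rw [e1]
        refine (norm_sub_le _ _).trans ?_
        linarith
      · intro q hq1 hq2 χ hχ hne1
        have : NeZero q := ⟨by omega⟩
        have hne : χ ≠ 1 := by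
          intro h
          subst h
          rw [DirichletCharacter.isPrimitive_def, DirichletCharacter.conductor_one] at hχ
          · omega
        have := hgen q χ hq2 0 (fun h => absurd h hne) (fun _ => rfl)
          (fun ρ hρ => hzz q χ hq2 hχ ρ hρ (fun h => hne1 h.1)) H x hw
        simpa using this

theorem gpf_ev (K r : ℝ) (hr : 0 < r) : ∀ᶠ δ : ℝ in nhdsWithin 0 (Set.Ioi 0), K * δ ≤ r := by
  have h1 : Tendsto (fun δ : ℝ => K * δ) (nhds 0) (nhds 0) :=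
    (continuous_const.mul continuous_id).tendsto' 0 0 (by simp)
  have h2 : Tendsto (fun δ : ℝ => K * δ) (nhdsWithin 0 (Set.Ioi 0)) (nhds 0) :=
    h1.mono_left nhdsWithin_le_nhds
  exact h2.eventually_le_const hr

/-- the choice of `δ` -/
theorem gpf_delta (κ A CD CW c : ℝ) (a : ℕ) (hκ : 0 < κ) (hCD : 0 < CD)
    (hCW : 0 < CW) (hc : 0 < c) :
    ∃ δ : ℝ, 0 < δ ∧ (a + 1) * δ ≤ 1 / 10 ∧ (2 * a + 4) * δ * A ≤ 1 / 2 ∧
      (4 * a + 8) * δ ≤ 1 / 20 ∧ 3 * κ * δ ≤ 1 / 3200 ∧ κ * δ ≤ 1 / 10 ∧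
      8 * CW * Real.exp (-(c / (8 * ((2 * a + 4) * δ)))) ≤ κ / 4 ∧
      32 * ((2 * a + 4) * δ) * CD ≤ 1 ∧ 8 * CW * (2 * ((2 * a + 4) * δ) * CD) ^ 4 ≤ κ / 4 := by
  have e1 := gpf_ev ((a : ℝ) + 1) (1 / 10) (by norm_num)
  have e2 := gpf_ev ((2 * a + 4) * A) (1 / 2) (by norm_num)
  have e3 := gpf_ev (4 * (a : ℝ) + 8) (1 / 20) (by norm_num)
  have e4 := gpf_ev (3 * κ) (1 / 3200) (by norm_num)
  have e5 := gpf_ev κ (1 / 10) (by norm_num)
  have e6 := gpf_ev (8 * CW * (8 * (2 * a + 4) / c)) (κ / 4) (by positivity)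
  have e7 := gpf_ev (32 * (2 * a + 4) * CD) 1 (by norm_num)
  have e8 := gpf_ev (8 * CW * (2 * (2 * a + 4) * CD)) (κ / 4) (by positivity)
  have e9 : ∀ᶠ δ : ℝ in nhdsWithin 0 (Set.Ioi 0), 0 < δ := eventually_mem_nhdsWithin
  obtain ⟨δ, f1, f2, f3, f4, f5, f6, f7, f8, f9⟩ :=
    (e1.and (e2.and (e3.and (e4.and (e5.and (e6.and (e7.and (e8.and e9)))))))).exists
  refine ⟨δ, f9, f1, by linarith, f3, f4, f5, ?_, by linarith, ?_⟩
  · refine le_trans ?_ f6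
    have hN : 0 < (2 * (a : ℝ) + 4) * δ := by positivity
    have g1 : Real.exp (-(c / (8 * ((2 * a + 4) * δ)))) ≤ 8 * (2 * a + 4) / c * δ := by
      have g2 : c / (8 * ((2 * a + 4) * δ)) ≤ Real.exp (c / (8 * ((2 * a + 4) * δ))) := by
        have := Real.add_one_le_exp (c / (8 * ((2 * a + 4) * δ)))
        linarith
      rw [Real.exp_neg]
      have g3 : 0 < c / (8 * ((2 * a + 4) * δ)) := by positivity
      refine (inv_anti₀ g3 g2).trans (le_of_eq ?_)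
      field_simp
    calc 8 * CW * Real.exp (-(c / (8 * ((2 * a + 4) * δ))))
        ≤ 8 * CW * (8 * (2 * a + 4) / c * δ) := mul_le_mul_of_nonneg_left g1 (by positivity)
      _ = 8 * CW * (8 * (2 * a + 4) / c) * δ := by ring
  · refine le_trans ?_ f8
    have g0 : 0 ≤ 2 * ((2 * a + 4) * δ) * CD := by positivity
    have g1 : 2 * ((2 * a + 4) * δ) * CD ≤ 1 := by linarith
    have g2 : (2 * ((2 * a + 4) * δ) * CD) ^ 4 ≤ 2 * ((2 * a + 4) * δ) * CD :=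
      pow_le_of_le_one g0 g1 (by norm_num)
    calc 8 * CW * (2 * ((2 * a + 4) * δ) * CD) ^ 4
        ≤ 8 * CW * (2 * ((2 * a + 4) * δ) * CD) := mul_le_mul_of_nonneg_left g2 (by positivity)
      _ = 8 * CW * (2 * (2 * a + 4) * CD) * δ := by ring

/-- the error of the explicit formula -/
theorem gpf_err (a : ℕ) (δ CE CU : ℝ) (hδ : 0 < δ) (hCE : 0 < CE) (hCU : 0 < CU)
    (hδ2 : (4 * a + 8) * δ ≤ 1 / 20) :
    ∀ᶠ X : ℝ in atTop, CE * X ^ (2 * a * δ) *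
      (Real.log (X ^ ((2 * a + 4) * δ)) * Real.log (2 * X + 2)) ^ 2 *
      (X ^ ((2 * a + 4) * δ) * X ^ (-(1 / 20 : ℝ)) + 1 / X ^ ((2 * a + 4) * δ)) +
        CU * X ^ (-(9 / 10 : ℝ)) ≤ X ^ (-(3 * δ)) := by
  have ha : (0 : ℝ) ≤ a := Nat.cast_nonneg a
  have hε : 0 < δ / 8 := by positivity
  filter_upwards [(tendsto_rpow_atTop (by positivity : 0 < δ / 2)).eventually_ge_atTop
    (2 * CE * ((4 : ℝ) ^ (δ / 2) * (8 / δ) ^ 4) + CU), Filter.eventually_ge_atTop 2] with X hbig hX2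
  have hX0 : 0 < X := by linarith
  have hX1 : 1 ≤ X := by linarith
  have hlog2 : 0 ≤ Real.log (2 * X + 2) := Real.log_nonneg (by linarith)
  have hlogX : 0 ≤ Real.log X := Real.log_nonneg hX1
  set N : ℝ := (2 * a + 4) * δ with hN
  have hN1 : N ≤ 1 := by
    have : N * 2 = (4 * a + 8) * δ := by rw [hN]; ring
    linarith
  have hN0 : 0 < N := by positivity
  -- logs
  have l1 : Real.log (X ^ N) ≤ Real.log (2 * X + 2) := by
    apply Real.log_le_log (Real.rpow_pos_of_pos hX0 _)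
    have : X ^ N ≤ X ^ (1 : ℝ) := Real.rpow_le_rpow_of_exponent_le hX1 hN1
    rw [Real.rpow_one] at this
    linarith
  have l0 : 0 ≤ Real.log (X ^ N) := Real.log_nonneg (Real.one_le_rpow hX1 hN0.le)
  have l2 : (Real.log (X ^ N) * Real.log (2 * X + 2)) ^ 2 ≤ Real.log (2 * X + 2) ^ 4 := by
    have : Real.log (X ^ N) * Real.log (2 * X + 2) ≤ Real.log (2 * X + 2) ^ 2 := by
      rw [pow_two]
      exact mul_le_mul_of_nonneg_right l1 hlog2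
    calc (Real.log (X ^ N) * Real.log (2 * X + 2)) ^ 2 ≤ (Real.log (2 * X + 2) ^ 2) ^ 2 :=
          pow_le_pow_left₀ (mul_nonneg l0 hlog2) this 2
      _ = Real.log (2 * X + 2) ^ 4 := by ring
  have l3 : Real.log (2 * X + 2) ≤ (4 * X) ^ (δ / 8) * (8 / δ) := by
    have h := Real.log_le_rpow_div (by linarith : 0 ≤ 2 * X + 2) hε
    refine h.trans ?_
    have h' : (2 * X + 2) ^ (δ / 8) ≤ (4 * X) ^ (δ / 8) :=
      Real.rpow_le_rpow (by linarith) (by linarith) hε.le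
    calc (2 * X + 2) ^ (δ / 8) / (δ / 8) = (2 * X + 2) ^ (δ / 8) * (8 / δ) := by
          field_simp
      _ ≤ (4 * X) ^ (δ / 8) * (8 / δ) := mul_le_mul_of_nonneg_right h' (by positivity)
  have l4 : Real.log (2 * X + 2) ^ 4 ≤ (4 : ℝ) ^ (δ / 2) * (8 / δ) ^ 4 * X ^ (δ / 2) := by
    refine (pow_le_pow_left₀ hlog2 l3 4).trans (le_of_eq ?_)
    rw [mul_pow, ← Real.rpow_natCast ((4 * X) ^ (δ / 8)), ← Real.rpow_mul (by linarith)]
    have : δ / 8 * ((4 : ℕ) : ℝ) = δ / 2 := by push_cast; ring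
    rw [this, Real.mul_rpow (by norm_num) hX0.le]
    ring
  -- the powers
  have p1 : X ^ (2 * a * δ) * (X ^ N * X ^ (-(1 / 20 : ℝ)) + 1 / X ^ N) ≤
      2 * X ^ (-(4 * δ)) := by
    have q1 : X ^ (2 * a * δ) * (X ^ N * X ^ (-(1 / 20 : ℝ))) ≤ X ^ (-(4 * δ)) := by
      rw [← Real.rpow_add hX0, ← Real.rpow_add hX0]
      apply Real.rpow_le_rpow_of_exponent_le hX1
      rw [hN]
      linarith
    have q2 : X ^ (2 * a * δ) * (1 / X ^ N) = X ^ (-(4 * δ)) := by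
      rw [one_div, ← Real.rpow_neg hX0.le, ← Real.rpow_add hX0]
      congr 1
      rw [hN]
      ring
    rw [mul_add, q2]
    linarith
  have p2 : X ^ (-(9 / 10 : ℝ)) ≤ X ^ (-(4 * δ)) := by
    apply Real.rpow_le_rpow_of_exponent_le hX1
    have : 0 ≤ a * δ := by positivity
    linarith
  have p3 : X ^ (-(3 * δ)) = X ^ (δ / 2) * (X ^ (δ / 2) * X ^ (-(4 * δ))) := by
    rw [← Real.rpow_add hX0, ← Real.rpow_add hX0]
    congr 1
    ring
  have p0 : 0 < X ^ (-(4 * δ)) := Real.rpow_pos_of_pos hX0 _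
  have p4 : 1 ≤ X ^ (δ / 2) := Real.one_le_rpow hX1 (by positivity)
  set K : ℝ := (4 : ℝ) ^ (δ / 2) * (8 / δ) ^ 4 with hK
  have hK0 : 0 ≤ K := by positivity
  set S : ℝ := X ^ (δ / 2) with hS
  set P : ℝ := X ^ (-(4 * δ)) with hP
  have f1 : CE * X ^ (2 * a * δ) * (Real.log (X ^ N) * Real.log (2 * X + 2)) ^ 2 *
      (X ^ N * X ^ (-(1 / 20 : ℝ)) + 1 / X ^ N) ≤ CE * (K * S) * (2 * P) := by
    have g1 : (Real.log (X ^ N) * Real.log (2 * X + 2)) ^ 2 ≤ K * S := l2.trans l4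
    have g0 : 0 ≤ X ^ (2 * a * δ) * (X ^ N * X ^ (-(1 / 20 : ℝ)) + 1 / X ^ N) := by positivity
    calc CE * X ^ (2 * a * δ) * (Real.log (X ^ N) * Real.log (2 * X + 2)) ^ 2 *
        (X ^ N * X ^ (-(1 / 20 : ℝ)) + 1 / X ^ N)
        = CE * (Real.log (X ^ N) * Real.log (2 * X + 2)) ^ 2 *
          (X ^ (2 * a * δ) * (X ^ N * X ^ (-(1 / 20 : ℝ)) + 1 / X ^ N)) := by ring
      _ ≤ CE * (K * S) * (2 * P) := by
          refine mul_le_mul (mul_le_mul_of_nonneg_left g1 hCE.le) p1 g0 ?_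
          have : 0 ≤ S := by linarith
          positivity
  have f2 : CU * X ^ (-(9 / 10 : ℝ)) ≤ CU * P := mul_le_mul_of_nonneg_left p2 hCU.le
  have f3 : CU * P ≤ CU * S * P := by
    have : CU * 1 * P ≤ CU * S * P :=
      mul_le_mul_of_nonneg_right (mul_le_mul_of_nonneg_left p4 hCU.le) p0.le
    linarith
  have f4 : (2 * CE * K + CU) * (S * P) ≤ S * (S * P) :=
    mul_le_mul_of_nonneg_right hbig (by positivity)
  rw [p3]
  have f5 : CE * (K * S) * (2 * P) + CU * S * P = (2 * CE * K + CU) * (S * P) := by ring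
  linarith

theorem gpf_fac (κ : ℝ) (a : ℕ) (δ CE CU CW : ℝ) (hκ : 0 < κ) (hκ1 : κ ≤ 1 / 10) (hδ : 0 < δ)
    (hCE : 0 < CE) (hCU : 0 < CU) (hCW : 0 < CW) (hδ1 : (a + 1) * δ ≤ 1 / 10)
    (hδ2 : (4 * a + 8) * δ ≤ 1 / 20) (hδ3 : 3 * κ * δ ≤ 1 / 3200) :
    ∀ᶠ X : ℝ in atTop, gpf_Fac κ a δ X (X ^ ((2 * a + 4) * δ)) CE CU CW := by
  have ha : (0 : ℝ) ≤ a := Nat.cast_nonneg a
  have hN0 : 0 < (2 * (a : ℝ) + 4) * δ := by positivity
  filter_upwards [gpf_err a δ CE CU hδ hCE hCU hδ2, Filter.eventually_ge_atTop 2,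
    (tendsto_rpow_atTop hN0).eventually_ge_atTop 2,
    (tendsto_rpow_atTop (by linarith : 0 < 1 / 1600 - 3 * κ * δ)).eventually_ge_atTop
      (64 * CW / κ),
    (tendsto_rpow_atTop (by nlinarith : 0 < δ - 3 * κ * δ)).eventually_ge_atTop (4 / κ)]
    with X h1 hX2 hT2 h3 h4
  have hX0 : 0 < X := by linarith
  have hX1 : 1 ≤ X := by linarith
  refine ⟨hX2, hδ, hδ1, hT2, ?_, ?_, h1, ?_, ?_⟩
  · have : X ^ ((2 * a + 4) * δ) ≤ X ^ (1 : ℝ) := by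
      apply Real.rpow_le_rpow_of_exponent_le hX1
      linarith
    rwa [Real.rpow_one] at this
  · apply Real.rpow_le_rpow_of_exponent_le hX1
    have : 0 ≤ a * δ := by positivity
    linarith
  · have e1 : X ^ (-(3 * κ * δ)) = X ^ (1 / 1600 - 3 * κ * δ) * X ^ (-(1 / 1600 : ℝ)) := by
      rw [← Real.rpow_add hX0]
      congr 1
      ring
    rw [e1]
    have e2 : 16 * CW = κ / 4 * (64 * CW / κ) := by
      field_simp
      ring
    rw [e2, ← mul_assoc]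
    refine mul_le_mul_of_nonneg_right ?_ (Real.rpow_nonneg hX0.le _)
    exact mul_le_mul_of_nonneg_left h3 (by positivity)
  · have e1 : X ^ (-(3 * κ * δ)) = X ^ (δ - 3 * κ * δ) * X ^ (-δ) := by
      rw [← Real.rpow_add hX0]
      congr 1
      ring
    rw [e1, ← mul_assoc]
    have e2 : 1 ≤ κ / 4 * X ^ (δ - 3 * κ * δ) := by
      have : κ / 4 * (4 / κ) ≤ κ / 4 * X ^ (δ - 3 * κ * δ) :=
        mul_le_mul_of_nonneg_left h4 (by positivity)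
      refine le_trans (le_of_eq ?_) this
      field_simp
    exact le_mul_of_one_le_left (Real.rpow_nonneg hX0.le _) e2

/-- the exponential bound -/
theorem gpf_exp {X c L N : ℝ} (hX : 2 ≤ X) (hc : 0 < c) (hL : 0 < L) (hN : 0 < N)
    (hLN : L ≤ 2 * N * Real.log X) :
    (X ^ (1 / 2 : ℝ)) ^ (-((c / L) / 2)) ≤ Real.exp (-(c / (8 * N))) := by
  have hX0 : 0 < X := by linarith
  have hlog : 0 < Real.log X := Real.log_pos (by linarith)
  rw [← Real.rpow_mul hX0.le, Real.rpow_def_of_pos hX0]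
  apply Real.exp_le_exp.2
  have e1 : c / (8 * N) ≤ Real.log X * (c / (4 * L)) := by
    rw [mul_div_assoc', div_le_div_iff₀ (by positivity) (by positivity)]
    have := mul_le_mul_of_nonneg_left hLN (by positivity : 0 ≤ 4 * c)
    linarith
  have e2 : Real.log X * (1 / 2 * -(c / L / 2)) = -(Real.log X * (c / (4 * L))) := by
    field_simp
    ring
  rw [e2]
  linarith

/-- the bound by the fourth power -/
theorem gpf_pow4 {X u L N CD : ℝ} (hX : 2 ≤ X) (hL : 0 < L) (hCD : 0 < CD)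
    (hLN : L ≤ 2 * N * Real.log X) (hu0 : 0 < u) (hu1 : u ≤ 1) (hN : 32 * N * CD ≤ 1) :
    (X ^ (1 / 2 : ℝ)) ^ (-((-Real.log u / (CD * L)) / 2)) ≤ u ^ 4 := by
  have hX0 : 0 < X := by linarith
  have hlog : 0 < Real.log X := Real.log_pos (by linarith)
  have hlu : Real.log u ≤ 0 := Real.log_nonpos hu0.le hu1
  rw [← Real.rpow_mul hX0.le, Real.rpow_def_of_pos hX0]
  have e0 : u ^ 4 = Real.exp (4 * Real.log u) := by
    rw [mul_comm, Real.exp_mul, Real.exp_log hu0]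
    norm_cast
  rw [e0]
  apply Real.exp_le_exp.2
  have e2 : Real.log X * (1 / 2 * -(-Real.log u / (CD * L) / 2)) =
      Real.log X / (4 * (CD * L)) * Real.log u := by
    field_simp
    ring
  rw [e2]
  have e3 : 4 ≤ Real.log X / (4 * (CD * L)) := by
    rw [le_div_iff₀ (by positivity)]
    have g1 := mul_le_mul_of_nonneg_left hLN (by positivity : 0 ≤ 16 * CD)
    have g2 := mul_le_mul_of_nonneg_right hN hlog.le
    linarith
  nlinarith [mul_le_mul_of_nonneg_left e3 (neg_nonneg.2 hlu)]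

theorem gpf_rect {c c' L T : ℝ} (hL : 0 < L) (hcc : c ≤ c') (hT : 2 ≤ T) {ρ : ℂ}
    (h1 : ρ ∈ rect (7 / 8) (T + 1)) (h2 : 1 - ρ.re < c / L) : ρ ∈ rect (1 - c' / L) (2 * T) := by
  have : c / L ≤ c' / L := div_le_div_of_nonneg_right hcc hL.le
  exact ⟨by linarith, h1.2.1, h1.2.2.trans (by linarith)⟩

theorem gpf_small (h1 : St_EFW) (h2 : St_Wbd) (h3 : St_Um1) (h4 : St_Um2) (h5 : St_Ch)
    (h6 : St_Exc) (h7 : St_Zlow) (h8 : St_DH) (h9 : St_Wsum) (κ : ℝ) (hκ : 0 < κ)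
    (hκ1 : κ ≤ 1 / 10) (a : ℕ) :
    ∃ δ : ℝ, 0 < δ ∧ (a + 1) * δ ≤ 1 / 10 ∧ ∀ᶠ X : ℝ in atTop, gpf_Con κ a δ X := by
  obtain ⟨CE, hCE, hEFW⟩ := h1
  obtain ⟨CU, hCU, hUm1⟩ := h3
  obtain ⟨XU, hXU, hUm2⟩ := h4
  obtain ⟨q0, hq0, χ0, hq01, hp0, hr0, hn0⟩ := h5
  obtain ⟨c0, Te, hc0, hc01, hTe, hExc⟩ := h6
  obtain ⟨CD, c1, Td, hCD, hc1, hTd, hDH⟩ := h8
  obtain ⟨CW, A, Tw, hCW, hA, hTw, hWs⟩ := h9
  obtain ⟨cz, hcz, hZl⟩ := h7 (κ / 2) (by positivity)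
  set c : ℝ := min c0 c1 with hc
  have hcpos : 0 < c := lt_min hc0 hc1
  have hc1' : c ≤ 1 := (min_le_left _ _).trans hc01
  obtain ⟨δ, hδ, d1, d2, d3, d4, d5, d6, d7, d8⟩ := gpf_delta κ A CD CW c a hκ hCD hCW hcpos
  refine ⟨δ, hδ, d1, ?_⟩
  have ha : (0 : ℝ) ≤ a := Nat.cast_nonneg a
  set N : ℝ := (2 * a + 4) * δ with hN
  have hN0 : 0 < N := by positivity
  have hrp := tendsto_rpow_atTop hN0
  filter_upwards [gpf_fac κ a δ CE CU CW hκ hκ1 hδ hCE hCU hCW d1 d3 d4,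
    hrp.eventually_ge_atTop Te, hrp.eventually_ge_atTop Td, hrp.eventually_ge_atTop Tw,
    hrp.eventually_ge_atTop (Real.exp 400), (tendsto_rpow_atTop hδ).eventually_ge_atTop (q0 : ℝ),
    Real.tendsto_log_atTop.eventually_ge_atTop (1 / cz), Filter.eventually_ge_atTop XU,
    Filter.eventually_ge_atTop 2]
    with X hF hTe' hTd' hTw' h400 hq0X hlogX hXU' hX2
  have hX0 : 0 < X := by linarith
  have hX1 : 1 ≤ X := by linarith
  set T : ℝ := X ^ N with hT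
  have hFac := hF
  obtain ⟨_, _, _, T2, TX, DT, _, _, _⟩ := hF
  have hlX : 0 < Real.log X := Real.log_pos (by linarith)
  set L : ℝ := Real.log (2 * T) with hL
  have hL400 : 400 ≤ L := by
    rw [hL, Real.le_log_iff_exp_le (by linarith)]
    linarith
  have hLpos : 0 < L := by linarith
  have hlogT : Real.log T = N * Real.log X := by rw [hT, Real.log_rpow hX0]
  have hLN : L ≤ 2 * N * Real.log X := by
    rw [hL, Real.log_mul (by norm_num) (by linarith), hlogT]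
    have : Real.log 2 ≤ Real.log T := Real.log_le_log (by norm_num) T2
    linarith
  have hcL : c / L ≤ 1 / 400 := by
    rw [div_le_div_iff₀ hLpos (by norm_num)]
    linarith
  have hcL0 : 0 ≤ c / L := by positivity
  have hTA : T ^ A ≤ X ^ (1 / 2 : ℝ) := by
    rw [hT, ← Real.rpow_mul hX0.le]
    apply Real.rpow_le_rpow_of_exponent_le hX1
    exact d2
  have hY0 : 0 < X ^ (1 / 2 : ℝ) := Real.rpow_pos_of_pos hX0 _
  have hW := fun η hη0 hη1 => hWs T hTw' (X ^ (1 / 2 : ℝ)) hTA η hη0 hη1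
  have hE := fun (q : ℕ) (_ : NeZero q) (χ : DirichletCharacter ℂ q) =>
    hEFW X δ a hX2 hδ d1 T T2 TX q χ
  have hU := fun b hb1 hb2 H x hH hHx => hUm1 b hb1 hb2 H x hH hHx
  have hexp : 8 * CW * (X ^ (1 / 2 : ℝ)) ^ (-((c / L) / 2)) ≤ κ / 4 := by
    have e1 := gpf_exp hX2 hcpos hLpos hN0 hLN
    exact (mul_le_mul_of_nonneg_left e1 (by positivity)).trans d6
  have hκδ : X ^ (-(κ * δ)) ≤ 1 := by
    apply Real.rpow_le_one_of_one_le_of_nonpos hX1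
    have : 0 ≤ κ * δ := by positivity
    linarith
  by_cases hex : ∃ (q : ℕ) (_ : NeZero q) (χ : DirichletCharacter ℂ q), (q : ℝ) ≤ X ^ δ ∧
      χ.IsPrimitive ∧ ∃ ρ ∈ rect (1 - c / L) (2 * T), Lf χ ρ = 0
  · -- exceptional zero
    obtain ⟨q₁, hq₁, χ₁, hqX, hprim, ρ₁, hρ₁, hL₁⟩ := hex
    have hq₁T : (q₁ : ℝ) ≤ 2 * T := by linarith
    have hρ₁' : ρ₁ ∈ rect (1 - c0 / Real.log (2 * T)) (2 * T) := by
      refine ⟨?_, hρ₁.2.1, hρ₁.2.2⟩
      have : c / L ≤ c0 / L := div_le_div_of_nonneg_right (min_le_left _ _) hLpos.le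
      have := hρ₁.1
      linarith
    obtain ⟨hne, hsq, him, hzm, huni⟩ := hExc (2 * T) (by linarith) q₁ χ₁ hprim hq₁T ρ₁ hρ₁' hL₁
    set β : ℝ := ρ₁.re with hβ
    have hρβ : ρ₁ = (β : ℂ) := Complex.ext (by simp [hβ]) (by simpa using him)
    have hβ1 : β < 1 := by
      by_contra hcon
      exact Lf_ne_zero χ₁ (s := ρ₁) (not_lt.1 hcon) hL₁
    have hβ0 : 1 - c / L ≤ β := hρ₁.1
    have hβ2 : 399 / 400 ≤ β := by linarith
    rw [hρβ] at hL₁ hzm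
    have hLF : χ₁.LFunction (β : ℂ) = 0 := by rwa [Lf_of_ne hne] at hL₁
    have hq₁1 : 1 < q₁ := by
      have h0 : q₁ ≠ 0 := NeZero.ne q₁
      have h1 : q₁ ≠ 1 := by
        rintro rfl
        exact hne (DirichletCharacter.level_one χ₁)
      omega
    set l0 : ℝ := (1 - β) * Real.log X with hl0
    have hl0pos : 0 < l0 := mul_pos (by linarith) hlX
    have hED : ExcData X δ q₁ χ₁ 1 β (min 1 l0) :=
      ⟨hprim, hsq, hne, ⟨hq₁1, hqX⟩, Or.inr ⟨rfl, by linarith, hβ1, hLF, rfl⟩⟩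
    have hZ : X ^ (-(κ * δ)) ≤ l0 := by
      have e1 := hZl q₁ χ₁ hsq hne β (by linarith) hβ1 hLF
      have e2 : X ^ (-(κ * δ)) ≤ (q₁ : ℝ) ^ (-(κ / 2)) := by
        have e3 : (X ^ δ) ^ (-(κ / 2)) ≤ (q₁ : ℝ) ^ (-(κ / 2)) :=
          Real.rpow_le_rpow_of_nonpos (by exact_mod_cast (by omega : 0 < q₁)) hqX
            (by linarith)
        refine le_trans ?_ e3
        rw [← Real.rpow_mul hX0.le]
        apply Real.rpow_le_rpow_of_exponent_le hX1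
        have : 0 ≤ δ * κ := by positivity
        linarith
      have e4 : 1 ≤ cz * Real.log X := by
        have := mul_le_mul_of_nonneg_left hlogX hcz.le
        refine le_trans (le_of_eq ?_) this
        field_simp
      have e5 : cz * (q₁ : ℝ) ^ (-(κ / 2)) * Real.log X ≤ l0 :=
        mul_le_mul_of_nonneg_right e1 hlX.le
      have e6 : (q₁ : ℝ) ^ (-(κ / 2)) * 1 ≤ (q₁ : ℝ) ^ (-(κ / 2)) * (cz * Real.log X) :=
        mul_le_mul_of_nonneg_left e4 (Real.rpow_nonneg (Nat.cast_nonneg _) _)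
      linarith
    have hlam : X ^ (-(κ * δ)) ≤ min 1 l0 := le_min hκδ hZ
    have hUm : ∀ H x : ℕ, Win X δ a H x → 0 ≤ 1 * Um β H x ∧
        1 * Um β H x ≤ 1 - (min 1 l0) / 4 := by
      intro H x hw
      obtain ⟨w1, w2, w3, w4, w5⟩ := gpf_win hX2 hδ d1 hw
      rw [one_mul]
      refine hUm2 X hXU' β (by linarith) hβ1 ?_ H x w1 w4 w5
      refine le_trans ?_ hZ
      apply Real.rpow_le_rpow_of_exponent_le hX1
      linarith
    have hmemz : ∀ (q : ℕ) [NeZero q] (χ : DirichletCharacter ℂ q), ∀ ρ ∈ zs χ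
        (rect (7 / 8) (T + 1)), ρ ∈ rect (7 / 8) (T + 1) ∧ Lf χ ρ = 0 :=
      fun q _ χ ρ hρ => (mem_zs χ (rect_bounded _ _) ρ).1 hρ
    by_cases hcase : 1 ≤ l0
    · -- `lam = 1`
      refine gpf_core hκ hFac hCU (fun q _ χ => hE q inferInstance χ) h2
        (fun b hb1 hb2 H x => hU b hb1 hb2 H x) (c / L) (hW _ hcL0 hcL) q₁ χ₁ 1 β (min 1 l0) hED
        hlam (min_le_left _ _) hUm ?_ (Or.inr ⟨rfl, by linarith, hβ1.le, hzm, hL₁, ?_⟩)
      · rw [min_eq_left hcase]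
        have : 0 ≤ 8 * CW * (X ^ (1 / 2 : ℝ)) ^ (-(1 / 800 : ℝ)) := by positivity
        linarith
      · intro q _ χ hq hχ ρ hρ hne2
        by_contra hcon
        push Not at hcon
        obtain ⟨g1, g2⟩ := hmemz q χ ρ hρ
        have g3 := gpf_rect hLpos (min_le_left c0 c1) T2 g1 hcon
        obtain ⟨g4, g5⟩ := huni q χ hχ (by linarith) ρ g3 g2
        exact hne2 ⟨g4, g5.trans hρβ⟩
    · -- `lam < 1`
      push Not at hcase
      have hmin : min 1 l0 = l0 := min_eq_right hcase.le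
      set u : ℝ := CD * ((1 - β) * L) with hu
      have hβ' : 0 < 1 - β := by linarith
      have hu0 : 0 < u := by positivity
      have hu1 : u ≤ 2 * N * CD * l0 := by
        have := mul_le_mul_of_nonneg_left hLN (by positivity : 0 ≤ CD * (1 - β))
        rw [hu, hl0]
        linarith
      have hu2 : 2 * N * CD ≤ 1 := by
        have : 0 ≤ N * CD := by positivity
        linarith
      have hu3 : u ≤ 1 := by
        refine hu1.trans ?_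
        exact mul_le_one₀ hu2 hl0pos.le hcase.le
      have hlu : Real.log u ≤ 0 := Real.log_nonpos hu0.le hu3
      set m : ℝ := -Real.log u / (CD * L) with hm
      have hm0 : 0 ≤ m := div_nonneg (by linarith) (by positivity)
      refine gpf_core hκ hFac hCU (fun q _ χ => hE q inferInstance χ) h2
        (fun b hb1 hb2 H x => hU b hb1 hb2 H x) (min (1 / 400) m)
        (hW _ (le_min (by norm_num) hm0) (min_le_left _ _)) q₁ χ₁ 1 β (min 1 l0) hED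
        hlam (min_le_left _ _) hUm ?_ (Or.inr ⟨rfl, by linarith, hβ1.le, hzm, hL₁, ?_⟩)
      · rw [hmin]
        have hb0 : 0 ≤ 8 * CW * (X ^ (1 / 2 : ℝ)) ^ (-(1 / 800 : ℝ)) := by positivity
        rcases le_total (1 / 400) m with hle | hle
        · rw [min_eq_left hle]
          have e1 : -((1 / 400 : ℝ) / 2) = -(1 / 800 : ℝ) := by norm_num
          rw [e1]
          have : 0 ≤ κ / 4 * l0 ^ 3 := by positivity
          linarith
        · rw [min_eq_right hle]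
          have e1 := gpf_pow4 hX2 hLpos hCD hLN hu0 hu3 d7
          have e2 : u ^ 4 ≤ (2 * N * CD) ^ 4 * l0 ^ 3 := by
            have e3 : u ^ 4 ≤ (2 * N * CD * l0) ^ 4 := pow_le_pow_left₀ hu0.le hu1 4
            have e4 : l0 ^ 4 ≤ l0 ^ 3 := pow_le_pow_of_le_one hl0pos.le hcase.le (by norm_num)
            rw [mul_pow (2 * N * CD) l0 4] at e3
            exact e3.trans (mul_le_mul_of_nonneg_left e4 (by positivity))
          have e5 : 8 * CW * (X ^ (1 / 2 : ℝ)) ^ (-(m / 2)) ≤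
              8 * CW * ((2 * N * CD) ^ 4 * l0 ^ 3) :=
            mul_le_mul_of_nonneg_left (e1.trans e2) (by positivity)
          have e6 : 8 * CW * (2 * N * CD) ^ 4 * l0 ^ 3 ≤ κ / 4 * l0 ^ 3 :=
            mul_le_mul_of_nonneg_right d8 (by positivity)
          linarith
      · intro q _ χ hq hχ ρ hρ hne2
        obtain ⟨g1, g2⟩ := hmemz q χ ρ hρ
        have g3 : ρ ∈ rect (7 / 8) (2 * T) := ⟨g1.1, g1.2.1, g1.2.2.trans (by linarith)⟩
        have hβc1 : 1 - c1 / Real.log (2 * T) ≤ β := by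
          have : c / L ≤ c1 / L := div_le_div_of_nonneg_right (min_le_right _ _) hLpos.le
          linarith
        have g4 := hDH (2 * T) (by linarith) q₁ χ₁ hprim hsq hne hq₁T β hβc1 hβ1 hLF q χ hχ
          (by linarith) ρ g3 g2 hne2
        have g5 : 0 < (2 * T) ^ (CD * (1 - ρ.re)) := Real.rpow_pos_of_pos (by linarith) _
        have g6 : 0 ≤ Real.log u + CD * (1 - ρ.re) * L := by
          have := Real.log_nonneg g4
          rw [Real.log_mul (ne_of_gt hu0) (ne_of_gt g5), Real.log_rpow (by linarith)] at this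
          exact this
        refine (min_le_right _ _).trans ?_
        rw [hm, div_le_iff₀ (by positivity)]
        linarith
  · -- no exceptional zero
    push Not at hex
    refine gpf_core hκ hFac hCU (fun q _ χ => hE q inferInstance χ) h2
      (fun b hb1 hb2 H x => hU b hb1 hb2 H x) (c / L) (hW _ hcL0 hcL) q0 χ0 0 0 1
      ⟨hp0, hr0, hn0, ⟨hq01, hq0X⟩, Or.inl ⟨rfl, rfl⟩⟩ hκδ le_rfl ?_ ?_ (Or.inl ⟨rfl, ?_⟩)
    · intro H x _
      rw [zero_mul]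
      norm_num
    · have : 0 ≤ 8 * CW * (X ^ (1 / 2 : ℝ)) ^ (-(1 / 800 : ℝ)) := by positivity
      linarith
    · intro q _ χ hq hχ ρ hρ
      by_contra hcon
      push Not at hcon
      obtain ⟨g1, g2⟩ := (mem_zs χ (rect_bounded _ _) ρ).1 hρ
      exact hex q inferInstance χ hq hχ ρ (gpf_rect hLpos le_rfl T2 g1 hcon) g2

/-- GPf -/
theorem thm_GPf (h1 : St_EFW) (h2 : St_Wbd) (h3 : St_Um1) (h4 : St_Um2) (h5 : St_Ch)
    (h6 : St_Exc) (h7 : St_Zlow) (h8 : St_DH) (h9 : St_Wsum) : GP := by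
  intro κ hκ a
  obtain ⟨δ, hδ, hδ1, hev⟩ := gpf_small h1 h2 h3 h4 h5 h6 h7 h8 h9 (min κ (1 / 10))
    (lt_min hκ (by norm_num)) (min_le_right _ _) a
  refine ⟨δ, hδ, hδ1, ?_⟩
  filter_upwards [hev, Filter.eventually_ge_atTop 1] with X hX hX1
  exact gpf_mono (min_le_left _ _) hδ.le hX1 hX

end Pool.Agent.MVX
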