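import Pool.Agent.MVX.StF

set_option autoImplicit false

/-!
# MVX Um1: discrete versus continuous mean of `n ^ (b - 1)`
-/

namespace Pool.Agent.MVX

open Finset

private theorem um1_conv {b y : ℝ} (hb : 0 < b) (hy : 0 ≤ y) :
    (b + 1) * y ^ b ≤ (y + 1) ^ (b + 1) - y ^ (b + 1) ∧
      (y + 1) ^ (b + 1) - y ^ (b + 1) ≤ (b + 1) * (y + 1) ^ b := by
  have hy1 : 0 < y + 1 := by linarith
  constructor
  · rcases hy.eq_or_lt with rfl | hy0
    · have h0 : (0 : ℝ) ^ (b + 1) = 0 := Real.zero_rpow (by linarith)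
      have h1 : (0 : ℝ) ^ b = 0 := Real.zero_rpow hb.ne'
      rw [h0, h1, zero_add, Real.one_rpow]
      norm_num
    · have h1 := one_add_mul_self_le_rpow_one_add (s := 1 / y) (p := b + 1)
        (by have : 0 < 1 / y := by positivity
            linarith) (by linarith)
      have h2 : (y + 1) ^ (b + 1) = y ^ (b + 1) * (1 + 1 / y) ^ (b + 1) := by
        rw [← Real.mul_rpow hy (by positivity)]
        congr 1
        field_simp
      have h3 : y ^ (b + 1) = y ^ b * y := by
        rw [Real.rpow_add hy0, Real.rpow_one]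
      have h4 := mul_le_mul_of_nonneg_left h1 (Real.rpow_nonneg hy (b + 1))
      rw [← h2] at h4
      have h5 : y ^ (b + 1) * (1 + (b + 1) * (1 / y)) = y ^ (b + 1) + (b + 1) * y ^ b := by
        rw [h3]
        field_simp
      linarith
  · have h1 := one_add_mul_self_le_rpow_one_add (s := -(1 / (y + 1))) (p := b + 1)
      (by rw [neg_le_neg_iff, div_le_one hy1]
          linarith) (by linarith)
    have h2 : y ^ (b + 1) = (y + 1) ^ (b + 1) * (1 + -(1 / (y + 1))) ^ (b + 1) := by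
      rw [← Real.mul_rpow hy1.le (by
        have : 1 / (y + 1) ≤ 1 := by rw [div_le_one hy1]; linarith
        linarith)]
      congr 1
      field_simp
      ring
    have h3 : (y + 1) ^ (b + 1) = (y + 1) ^ b * (y + 1) := by
      rw [Real.rpow_add hy1, Real.rpow_one]
    have h4 := mul_le_mul_of_nonneg_left h1 (Real.rpow_nonneg hy1.le (b + 1))
    rw [← h2] at h4
    have h5 : (y + 1) ^ (b + 1) * (1 + (b + 1) * -(1 / (y + 1))) =
        (y + 1) ^ (b + 1) - (b + 1) * (y + 1) ^ b := by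
      rw [h3]
      field_simp
      ring
    linarith

private theorem um1_conc {b y : ℝ} (hb : 0 < b) (hb1 : b ≤ 1) (hy : 0 ≤ y) :
    b * (y + 1) ^ (b - 1) ≤ (y + 1) ^ b - y ^ b ∧
      (y + 1 + 1) ^ b - (y + 1) ^ b ≤ b * (y + 1) ^ (b - 1) := by
  have hy1 : 0 < y + 1 := by linarith
  have h3 : (y + 1) ^ b = (y + 1) ^ (b - 1) * (y + 1) := by
    have : b = (b - 1) + 1 := by ring
    conv_lhs => rw [this, Real.rpow_add hy1, Real.rpow_one]
  constructor
  · have h1 := rpow_one_add_le_one_add_mul_self (s := -(1 / (y + 1))) (p := b)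
      (by rw [neg_le_neg_iff, div_le_one hy1]
          linarith) hb.le hb1
    have h2 : y ^ b = (y + 1) ^ b * (1 + -(1 / (y + 1))) ^ b := by
      rw [← Real.mul_rpow hy1.le (by
        have : 1 / (y + 1) ≤ 1 := by rw [div_le_one hy1]; linarith
        linarith)]
      congr 1
      field_simp
      ring
    have h4 := mul_le_mul_of_nonneg_left h1 (Real.rpow_nonneg hy1.le b)
    rw [← h2] at h4
    have h5 : (y + 1) ^ b * (1 + b * -(1 / (y + 1))) =
        (y + 1) ^ b - b * (y + 1) ^ (b - 1) := by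
      rw [h3]
      field_simp
      ring
    linarith
  · have h1 := rpow_one_add_le_one_add_mul_self (s := 1 / (y + 1)) (p := b)
      (by have : 0 < 1 / (y + 1) := by positivity
          linarith) hb.le hb1
    have h2 : (y + 1 + 1) ^ b = (y + 1) ^ b * (1 + 1 / (y + 1)) ^ b := by
      rw [← Real.mul_rpow hy1.le (by positivity)]
      congr 1
      field_simp
    have h4 := mul_le_mul_of_nonneg_left h1 (Real.rpow_nonneg hy1.le b)
    rw [← h2] at h4
    have h5 : (y + 1) ^ b * (1 + b * (1 / (y + 1))) =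
        (y + 1) ^ b + b * (y + 1) ^ (b - 1) := by
      rw [h3]
      field_simp
    linarith

/-- the sums -/
private noncomputable def um1_S (b : ℝ) (y : ℕ) : ℝ := ∑ n ∈ Icc 1 y, (n : ℝ) ^ (b - 1)

/-- the double sums -/
private noncomputable def um1_G (b : ℝ) (y : ℕ) : ℝ :=
  ∑ n ∈ Icc 1 y, (n : ℝ) ^ (b - 1) * ((y - n : ℕ) : ℝ)

private noncomputable def um1_F (b : ℝ) (y : ℕ) : ℝ := (y : ℝ) ^ (b + 1) / (b * (b + 1))

private theorem um1_Sbd {b : ℝ} (hb : 0 < b) (hb1 : b ≤ 1) (y : ℕ) :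
    (((y : ℝ) + 1) ^ b - 1) / b ≤ um1_S b y ∧ um1_S b y ≤ (y : ℝ) ^ b / b := by
  induction y with
  | zero =>
    unfold um1_S
    simp [hb.ne']
  | succ y ih =>
    have h1 : um1_S b (y + 1) = um1_S b y + ((y : ℝ) + 1) ^ (b - 1) := by
      unfold um1_S
      rw [sum_Icc_succ_top (by omega)]
      push_cast
      rfl
    obtain ⟨h2, h3⟩ := um1_conc hb hb1 (Nat.cast_nonneg y)
    have h4 : ((y : ℝ) + 1) ^ (b - 1) ≤ (((y : ℝ) + 1) ^ b - (y : ℝ) ^ b) / b := by
      rw [le_div_iff₀ hb]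
      linarith
    have h5 : (((y : ℝ) + 1 + 1) ^ b - ((y : ℝ) + 1) ^ b) / b ≤ ((y : ℝ) + 1) ^ (b - 1) := by
      rw [div_le_iff₀ hb]
      linarith
    rw [h1]
    push_cast
    constructor
    · have e1 : (((y : ℝ) + 1 + 1) ^ b - 1) / b = (((y : ℝ) + 1) ^ b - 1) / b +
          (((y : ℝ) + 1 + 1) ^ b - ((y : ℝ) + 1) ^ b) / b := by ring
      rw [e1]
      exact add_le_add ih.1 h5
    · have e1 : ((y : ℝ) + 1) ^ b / b = (y : ℝ) ^ b / b +
          (((y : ℝ) + 1) ^ b - (y : ℝ) ^ b) / b := by ring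
      rw [e1]
      exact add_le_add ih.2 h4

private theorem um1_Gs (b : ℝ) (y : ℕ) : um1_G b (y + 1) = um1_G b y + um1_S b y := by
  unfold um1_G um1_S
  rw [sum_Icc_succ_top (by omega), Nat.sub_self, Nat.cast_zero, mul_zero, add_zero,
    ← sum_add_distrib]
  refine sum_congr rfl fun n hn => ?_
  have h1 := (mem_Icc.1 hn).2
  have h2 : y + 1 - n = (y - n) + 1 := by omega
  rw [h2]
  push_cast
  ring

private theorem um1_step {b : ℝ} (hb : 0 < b) (hb1 : b ≤ 1) (y : ℕ) :
    0 ≤ (um1_F b (y + 1) - um1_G b (y + 1)) - (um1_F b y - um1_G b y) ∧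
      (um1_F b (y + 1) - um1_G b (y + 1)) - (um1_F b y - um1_G b y) ≤ 1 / b := by
  obtain ⟨h1, h2⟩ := um1_Sbd hb hb1 y
  obtain ⟨h3, h4⟩ := um1_conv hb (Nat.cast_nonneg y)
  have hbb : 0 < b * (b + 1) := by positivity
  have h5 : (y : ℝ) ^ b / b ≤ um1_F b (y + 1) - um1_F b y := by
    unfold um1_F
    push_cast
    rw [← sub_div, div_le_div_iff₀ hb hbb]
    have := mul_le_mul_of_nonneg_left h3 hb.le
    linarith
  have h6 : um1_F b (y + 1) - um1_F b y ≤ ((y : ℝ) + 1) ^ b / b := by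
    unfold um1_F
    push_cast
    rw [← sub_div, div_le_div_iff₀ hbb hb]
    have := mul_le_mul_of_nonneg_left h4 hb.le
    linarith
  rw [um1_Gs]
  rw [sub_div] at h1
  constructor
  · linarith
  · linarith

private theorem um1_tele {b : ℝ} (hb : 0 < b) (hb1 : b ≤ 1) (y m : ℕ) :
    0 ≤ (um1_F b (y + m) - um1_G b (y + m)) - (um1_F b y - um1_G b y) ∧
      (um1_F b (y + m) - um1_G b (y + m)) - (um1_F b y - um1_G b y) ≤ m * (1 / b) := by
  induction m with
  | zero => simp
  | succ m ih =>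
    obtain ⟨h1, h2⟩ := um1_step hb hb1 (y + m)
    rw [← add_assoc]
    push_cast
    constructor
    · linarith [ih.1]
    · linarith [ih.2]

private theorem um1_tent (H x n : ℕ) (hH : H ≤ x) :
    tent H x n = ((x + H - n : ℕ) : ℝ) - 2 * ((x - n : ℕ) : ℝ) + ((x - H - n : ℕ) : ℝ) := by
  unfold tent
  rcases le_total n x with h | h
  · have e1 : |(n : ℝ) - x| = x - n := by
      rw [abs_of_nonpos]
      · ring
      · have : (n : ℝ) ≤ x := by exact_mod_cast h
        linarith
    rw [e1]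
    have e2 : ((x + H - n : ℕ) : ℝ) = x + H - n := by
      rw [Nat.cast_sub (by omega)]
      push_cast
      ring
    have e3 : ((x - n : ℕ) : ℝ) = x - n := Nat.cast_sub h
    rw [e2, e3]
    rcases le_total n (x - H) with h' | h'
    · have e4 : ((x - H - n : ℕ) : ℝ) = x - H - n := by
        rw [Nat.cast_sub h', Nat.cast_sub hH]
      rw [e4, max_eq_left]
      · ring
      · have h5 : n + H ≤ x := by omega
        have : (n : ℝ) + H ≤ x := by exact_mod_cast h5
        linarith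
    · have e4 : x - H - n = 0 := by omega
      rw [e4, max_eq_right]
      · push_cast
        ring
      · have h5 : x ≤ n + H := by omega
        have : (x : ℝ) ≤ n + H := by exact_mod_cast h5
        linarith
  · have e1 : |(n : ℝ) - x| = n - x := by
      rw [abs_of_nonneg]
      have : (x : ℝ) ≤ n := by exact_mod_cast h
      linarith
    rw [e1]
    have e3 : x - n = 0 := by omega
    have e4 : x - H - n = 0 := by omega
    rw [e3, e4]
    rcases le_total n (x + H) with h' | h'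
    · have e2 : ((x + H - n : ℕ) : ℝ) = x + H - n := by
        rw [Nat.cast_sub h']
        push_cast
        ring
      rw [e2, max_eq_right]
      · push_cast
        ring
      · have : (n : ℝ) ≤ x + H := by exact_mod_cast h'
        linarith
    · have e2 : x + H - n = 0 := by omega
      rw [e2, max_eq_left]
      · push_cast
        ring
      · have : (x : ℝ) + H ≤ n := by exact_mod_cast h'
        linarith

private theorem um1_ext (b : ℝ) (y M : ℕ) (h : y ≤ M) :
    ∑ n ∈ Icc 1 M, (n : ℝ) ^ (b - 1) * ((y - n : ℕ) : ℝ) = um1_G b y := by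
  unfold um1_G
  symm
  refine sum_subset (Icc_subset_Icc_right h) fun n hn hn' => ?_
  have h1 : y - n = 0 := by
    by_contra h2
    exact hn' (mem_Icc.2 ⟨(mem_Icc.1 hn).1, by omega⟩)
  rw [h1, Nat.cast_zero, mul_zero]

private theorem um1_Um (b : ℝ) (H x : ℕ) (hH : H ≤ x) :
    Um b H x = ((H : ℝ) ^ 2)⁻¹ * (um1_G b (x + H) - 2 * um1_G b x + um1_G b (x - H)) := by
  unfold Um
  congr 1
  rw [← um1_ext b (x + H) (x + H) le_rfl, ← um1_ext b x (x + H) (by omega),
    ← um1_ext b (x - H) (x + H) (by omega), mul_sum, ← sum_sub_distrib, ← sum_add_distrib]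
  refine sum_congr rfl fun n _ => ?_
  rw [um1_tent H x n hH]
  ring

private theorem um1_Wn (b : ℝ) (H x : ℕ) :
    Wn (b : ℂ) H x =
      ((((H : ℝ) ^ 2)⁻¹ * (um1_F b (x + H) - 2 * um1_F b x + um1_F b (x - H)) : ℝ) : ℂ) := by
  have h1 : ∀ y : ℕ, ((y : ℕ) : ℂ) ^ ((b : ℂ) + 1) = (((y : ℝ) ^ (b + 1) : ℝ) : ℂ) := by
    intro y
    rw [Complex.ofReal_cpow (Nat.cast_nonneg y)]
    push_cast
    rfl
  unfold Wn um1_F
  rw [h1, h1, h1]
  push_cast
  ring

theorem thm_Um1 : St_Um1 := by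
  refine ⟨2, by norm_num, ?_⟩
  intro b hb hb1 H x hH hHx
  have hb0 : 0 < b := by linarith
  have hH0 : (0 : ℝ) < H := by exact_mod_cast hH
  rw [um1_Wn, um1_Um b H x hHx, ← Complex.ofReal_sub, Complex.norm_real, Real.norm_eq_abs]
  obtain ⟨h1, h2⟩ := um1_tele hb0 hb1 x H
  obtain ⟨h3, h4⟩ := um1_tele hb0 hb1 (x - H) H
  rw [Nat.sub_add_cancel hHx] at h3 h4
  have hbb : 1 / b ≤ 2 := by
    rw [div_le_iff₀ hb0]
    linarith
  have h5 : (H : ℝ) * (1 / b) ≤ 2 * H := by
    have := mul_le_mul_of_nonneg_left hbb hH0.le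
    linarith
  rw [← mul_sub, abs_mul, abs_of_pos (by positivity : (0 : ℝ) < ((H : ℝ) ^ 2)⁻¹)]
  have h6 : |um1_F b (x + H) - 2 * um1_F b x + um1_F b (x - H) -
      (um1_G b (x + H) - 2 * um1_G b x + um1_G b (x - H))| ≤ 2 * H := by
    rw [abs_le]
    constructor
    · linarith
    · linarith
  have h7 := mul_le_mul_of_nonneg_left h6 (by positivity : (0 : ℝ) ≤ ((H : ℝ) ^ 2)⁻¹)
  refine h7.trans (le_of_eq ?_)
  field_simp

end Pool.Agent.MVX
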