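import Pool.Agent.MVX.Asm0
import Pool.Agent.MVX.DuP
import Pool.Agent.MVX.Um1
import Pool.Agent.MVX.GPf

set_option autoImplicit false

/-! Assembly of the L-core. -/

namespace Pool.Agent.MVX

/-- the interface -/
theorem gp : GP :=
  thm_GPf asm_EFW thm_Wbd thm_Um1 thm_Um2 thm_Ch asm_Exc asm_Zlow asm_DH
    (asm_Wsum (thm_DuP asm_Mk))

end Pool.Agent.MVX
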