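import Pool.Agent.MVX.StD

set_option autoImplicit false

/-!
# Project MVX, L-core: the Barban-Vehov quadratic form
-/

namespace Pool.Agent.MVX

open Finset MeasureTheory

/-! ### the inner sums -/

/-- the integral of the second derivative of `e^(-εv) (L - v)` -/
theorem bv_G_int (ε L : ℝ) :
    ∫ v in (0 : ℝ)..L, Real.exp (-ε * v) * (ε ^ 2 * (L - v) + 2 * ε) =
      1 + ε * L - Real.exp (-ε * L) := by
  have hd : ∀ v ∈ Set.uIcc (0 : ℝ) L,
      HasDerivAt (fun v : ℝ => -(Real.exp (-ε * v) * (ε * (L - v) + 1)))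
        (Real.exp (-ε * v) * (ε ^ 2 * (L - v) + 2 * ε)) v := by
    intro v _
    have h1 : HasDerivAt (fun v : ℝ => Real.exp (-ε * v)) (Real.exp (-ε * v) * (-ε)) v := by
      have := ((hasDerivAt_id v).const_mul (-ε)).exp
      simpa using this
    have h2 : HasDerivAt (fun v : ℝ => ε * (L - v) + 1) (-ε) v := by
      have := (((hasDerivAt_id v).const_sub L).const_mul ε).add_const 1
      simpa using this
    have h3 := (h1.mul h2).neg
    refine h3.congr_deriv ?_
    ring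
  rw [intervalIntegral.integral_eq_sub_of_hasDerivAt hd
    (Continuous.intervalIntegrable (by fun_prop) _ _)]
  simp
  ring

theorem bv_F_int (ε L u : ℝ) (hu : 0 ≤ u) (huL : u ≤ L) :
    ∫ v in (0 : ℝ)..L, max 0 (v - u) * (Real.exp (-ε * v) * (ε ^ 2 * (L - v) + 2 * ε)) =
      Real.exp (-ε * u) * (L - u) - Real.exp (-ε * L) * (L - u) := by
  have hc : Continuous (fun v : ℝ => max 0 (v - u) *
      (Real.exp (-ε * v) * (ε ^ 2 * (L - v) + 2 * ε))) := by fun_prop
  rw [← intervalIntegral.integral_add_adjacent_intervals (b := u)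
    (hc.intervalIntegrable _ _) (hc.intervalIntegrable _ _)]
  have e1 : ∫ v in (0 : ℝ)..u, max 0 (v - u) *
      (Real.exp (-ε * v) * (ε ^ 2 * (L - v) + 2 * ε)) = ∫ v in (0 : ℝ)..u, (0 : ℝ) := by
    apply intervalIntegral.integral_congr
    intro v hv
    rw [Set.uIcc_of_le hu] at hv
    simp only
    rw [max_eq_left (by linarith [hv.2]), zero_mul]
  have e2 : ∫ v in u..L, max 0 (v - u) *
      (Real.exp (-ε * v) * (ε ^ 2 * (L - v) + 2 * ε)) =
      ∫ v in u..L, (v - u) * (Real.exp (-ε * v) * (ε ^ 2 * (L - v) + 2 * ε)) := by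
    apply intervalIntegral.integral_congr
    intro v hv
    rw [Set.uIcc_of_le huL] at hv
    simp only
    rw [max_eq_right (by linarith [hv.1])]
  have hd : ∀ v ∈ Set.uIcc u L,
      HasDerivAt (fun v : ℝ => -((v - u) * (Real.exp (-ε * v) * (ε * (L - v) + 1)) +
        Real.exp (-ε * v) * (L - v)))
        ((v - u) * (Real.exp (-ε * v) * (ε ^ 2 * (L - v) + 2 * ε))) v := by
    intro v _
    have h1 : HasDerivAt (fun v : ℝ => Real.exp (-ε * v)) (Real.exp (-ε * v) * (-ε)) v := by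
      have := ((hasDerivAt_id v).const_mul (-ε)).exp
      simpa using this
    have h2 : HasDerivAt (fun v : ℝ => ε * (L - v) + 1) (-ε) v := by
      have := (((hasDerivAt_id v).const_sub L).const_mul ε).add_const 1
      simpa using this
    have h3 : HasDerivAt (fun v : ℝ => v - u) 1 v := (hasDerivAt_id v).sub_const u
    have h4 : HasDerivAt (fun v : ℝ => L - v) (-1) v := (hasDerivAt_id v).const_sub L
    have h5 := ((h3.mul (h1.mul h2)).add (h1.mul h4)).neg
    refine h5.congr_deriv ?_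
    simp only [Pi.mul_apply]
    ring
  rw [e1, e2, intervalIntegral.integral_eq_sub_of_hasDerivAt hd
    (Continuous.intervalIntegrable (by fun_prop) _ _)]
  simp
  ring

/-- the inner sum with the exponent `1 + ε` -/
theorem bv_inner (B : ℝ) (k : ℕ)
    (hH : ∀ Y : ℝ, |∑ j ∈ (Icc 1 ⌊Y⌋₊).filter (fun j => j.Coprime k),
      (ArithmeticFunction.moebius j : ℝ) / j * Real.log (Y / j)| ≤ B)
    (Y ε : ℝ) (hY : 1 ≤ Y) (hε : 0 ≤ ε) (hεL : ε * Real.log Y ≤ 4) :
    |∑ j ∈ (Icc 1 ⌊Y⌋₊).filter (fun j => j.Coprime k),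
      (ArithmeticFunction.moebius j : ℝ) * Real.log (Y / j) * (j : ℝ) ^ (-(1 + ε))| ≤ 5 * B := by
  have hY0 : 0 < Y := by linarith
  set L : ℝ := Real.log Y with hL
  have hL0 : 0 ≤ L := Real.log_nonneg hY
  set J : Finset ℕ := (Icc 1 ⌊Y⌋₊).filter (fun j => j.Coprime k) with hJ
  have hB : 0 ≤ B := (abs_nonneg _).trans (hH Y)
  have hmem : ∀ j ∈ J, 0 < (j : ℝ) ∧ 0 ≤ Real.log j ∧ Real.log j ≤ L := by
    intro j hj
    rw [hJ, mem_filter, mem_Icc] at hj
    have h1 : (1 : ℝ) ≤ j := by exact_mod_cast hj.1.1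
    have h2 : (j : ℝ) ≤ Y := (Nat.le_floor_iff hY0.le).mp hj.1.2
    exact ⟨by linarith, Real.log_nonneg h1, Real.log_le_log (by linarith) h2⟩
  -- rewriting of the terms
  have hterm : ∀ j ∈ J, (ArithmeticFunction.moebius j : ℝ) * Real.log (Y / j) *
      (j : ℝ) ^ (-(1 + ε)) = Real.exp (-ε * L) * ((ArithmeticFunction.moebius j : ℝ) / j *
        Real.log (Y / j)) + ∫ v in (0 : ℝ)..L, (ArithmeticFunction.moebius j : ℝ) / j *
        (max 0 (v - Real.log j) * (Real.exp (-ε * v) * (ε ^ 2 * (L - v) + 2 * ε))) := by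
    intro j hj
    obtain ⟨h1, h2, h3⟩ := hmem j hj
    rw [intervalIntegral.integral_const_mul, bv_F_int ε L (Real.log j) h2 h3,
      Real.log_div hY0.ne' h1.ne', ← hL]
    have h4 : (j : ℝ) ^ (-(1 + ε)) = (1 / j) * Real.exp (-ε * Real.log j) := by
      rw [neg_add, Real.rpow_add h1, Real.rpow_neg_one, Real.rpow_def_of_pos h1, one_div]
      congr 2
      ring
    rw [h4]
    ring
  have hint : ∀ j ∈ J, IntervalIntegrable (fun v : ℝ => (ArithmeticFunction.moebius j : ℝ) / j *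
        (max 0 (v - Real.log j) * (Real.exp (-ε * v) * (ε ^ 2 * (L - v) + 2 * ε)))) volume 0 L := by
    intro j _
    exact Continuous.intervalIntegrable (by fun_prop) _ _
  rw [sum_congr rfl hterm, sum_add_distrib, ← mul_sum, ← intervalIntegral.integral_finsetSum hint]
  -- the first part
  have hfirst : |Real.exp (-ε * L) * ∑ j ∈ J, (ArithmeticFunction.moebius j : ℝ) / j *
        Real.log (Y / j)| ≤ Real.exp (-ε * L) * B := by
    rw [abs_mul, abs_of_pos (Real.exp_pos _)]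
    exact mul_le_mul_of_nonneg_left (hH Y) (Real.exp_pos _).le
  -- the second part
  have hG0 : ∀ v, v ≤ L → 0 ≤ Real.exp (-ε * v) * (ε ^ 2 * (L - v) + 2 * ε) := by
    intro v hv
    have : 0 ≤ ε ^ 2 * (L - v) := mul_nonneg (sq_nonneg _) (by linarith)
    exact mul_nonneg (Real.exp_pos _).le (by linarith)
  have hpt : ∀ v : ℝ, 0 < v → v ≤ L → |∑ j ∈ J, (ArithmeticFunction.moebius j : ℝ) / j *
        (max 0 (v - Real.log j) * (Real.exp (-ε * v) * (ε ^ 2 * (L - v) + 2 * ε)))| ≤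
        B * (Real.exp (-ε * v) * (ε ^ 2 * (L - v) + 2 * ε)) := by
    intro v hv hvL
    have h1 : ∑ j ∈ J, (ArithmeticFunction.moebius j : ℝ) / j *
        (max 0 (v - Real.log j) * (Real.exp (-ε * v) * (ε ^ 2 * (L - v) + 2 * ε))) =
        (∑ j ∈ (Icc 1 ⌊Real.exp v⌋₊).filter (fun j => j.Coprime k),
          (ArithmeticFunction.moebius j : ℝ) / j * Real.log (Real.exp v / j)) *
          (Real.exp (-ε * v) * (ε ^ 2 * (L - v) + 2 * ε)) := by
      have hsub : (Icc 1 ⌊Real.exp v⌋₊).filter (fun j => j.Coprime k) ⊆ J := by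
        rw [hJ]
        apply filter_subset_filter
        apply Icc_subset_Icc_right
        apply Nat.floor_le_floor
        rw [← Real.exp_log hY0]
        exact Real.exp_le_exp.mpr hvL
      rw [← sum_subset hsub, sum_mul]
      · apply sum_congr rfl
        intro j hj
        rw [mem_filter, mem_Icc] at hj
        have h2 : (1 : ℝ) ≤ j := by exact_mod_cast hj.1.1
        have h3 : (j : ℝ) ≤ Real.exp v := (Nat.le_floor_iff (Real.exp_pos _).le).mp hj.1.2
        have h4 : Real.log j ≤ v := by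
          rw [← Real.log_exp v]
          exact Real.log_le_log (by linarith) h3
        rw [Real.log_div (Real.exp_pos _).ne' (by linarith), Real.log_exp,
          max_eq_right (by linarith)]
        ring
      · intro j hj hj2
        obtain ⟨h2, -, -⟩ := hmem j hj
        have h3 : v < Real.log j := by
          by_contra h4
          push Not at h4
          apply hj2
          rw [hJ, mem_filter, mem_Icc] at hj
          rw [mem_filter, mem_Icc]
          refine ⟨⟨hj.1.1, ?_⟩, hj.2⟩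
          rw [Nat.le_floor_iff (Real.exp_pos _).le, ← Real.exp_log h2]
          exact Real.exp_le_exp.mpr h4
        rw [max_eq_left (by linarith)]
        ring
    rw [h1, abs_mul, abs_of_nonneg (hG0 v hvL)]
    exact mul_le_mul_of_nonneg_right (hH _) (hG0 v hvL)
  have hsecond : |∫ v in (0 : ℝ)..L, ∑ j ∈ J, (ArithmeticFunction.moebius j : ℝ) / j *
        (max 0 (v - Real.log j) * (Real.exp (-ε * v) * (ε ^ 2 * (L - v) + 2 * ε)))| ≤
        B * (1 + ε * L - Real.exp (-ε * L)) := by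
    rw [← bv_G_int, ← intervalIntegral.integral_const_mul, ← Real.norm_eq_abs]
    apply intervalIntegral.norm_integral_le_of_norm_le hL0
    · filter_upwards with v hv
      rw [Real.norm_eq_abs]
      exact hpt v hv.1 hv.2
    · exact Continuous.intervalIntegrable (by fun_prop) _ _
  refine (abs_add_le _ _).trans ?_
  have h5 : B * (ε * L) ≤ B * 4 := mul_le_mul_of_nonneg_left hεL hB
  linarith

/-! ### multiplicative functions on squarefree numbers -/

theorem bv_divisors_sum (f : ℕ → ℝ) (n : ℕ) (hn : Squarefree n) :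
    ∑ d ∈ n.divisors, ∏ p ∈ d.primeFactors, f p = ∏ p ∈ n.primeFactors, (1 + f p) := by
  have h1 := (ArithmeticFunction.IsMultiplicative.prodPrimeFactors
    (R := ℝ) f).prodPrimeFactors_one_add_of_squarefree hn
  have h2 : ∀ p ∈ n.primeFactors, (1 : ℝ) + ArithmeticFunction.prodPrimeFactors f p = 1 + f p := by
    intro p hp
    have hp' := Nat.prime_of_mem_primeFactors hp
    rw [ArithmeticFunction.prodPrimeFactors_apply hp'.ne_zero, hp'.primeFactors, prod_singleton]
  rw [prod_congr rfl h2] at h1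
  rw [h1]
  apply sum_congr rfl
  intro d hd
  rw [ArithmeticFunction.prodPrimeFactors_apply (Nat.pos_of_mem_divisors hd).ne']

theorem bv_prime_ge {n p : ℕ} (hp : p ∈ n.primeFactors) : (2 : ℝ) ≤ p := by
  exact_mod_cast (Nat.prime_of_mem_primeFactors hp).two_le

/-- the diagonal coefficients -/
noncomputable def bv_J (s : ℝ) (k : ℕ) : ℝ := ∏ p ∈ k.primeFactors, ((p : ℝ) ^ s - 1)

theorem bv_J_sum (s : ℝ) (n : ℕ) (hn : Squarefree n) :
    ∑ d ∈ n.divisors, bv_J s d = (n : ℝ) ^ s := by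
  unfold bv_J
  rw [bv_divisors_sum (fun p => (p : ℝ) ^ s - 1) n hn]
  have h1 : ∀ p ∈ n.primeFactors, (1 : ℝ) + ((p : ℝ) ^ s - 1) = (p : ℝ) ^ s := by
    intro p _
    ring
  rw [prod_congr rfl h1, Real.finsetProd_rpow _ _ (fun p _ => Nat.cast_nonneg p)]
  have h2 := Nat.prod_primeFactors_of_squarefree hn
  rw [← Nat.cast_prod, h2]

theorem bv_J_nonneg (s : ℝ) (hs : 0 ≤ s) (k : ℕ) : 0 ≤ bv_J s k := by
  apply prod_nonneg
  intro p hp
  have h1 := Real.one_le_rpow (x := (p : ℝ)) (by linarith [bv_prime_ge hp]) hs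
  linarith

theorem bv_J_le (s : ℝ) (hs : 0 ≤ s) (k : ℕ) (hk : Squarefree k) : bv_J s k ≤ (k : ℝ) ^ s := by
  rw [← bv_J_sum s k hk]
  exact single_le_sum (f := fun d => bv_J s d) (fun d _ => bv_J_nonneg s hs d)
    (Nat.mem_divisors_self k hk.ne_zero)

/-- the square of `k / φ(k)` -/
theorem bv_phi (k : ℕ) (hk : Squarefree k) :
    ((k : ℝ) / (Nat.totient k : ℝ)) ^ 2 ≤
      ∑ d ∈ k.divisors, ∏ p ∈ d.primeFactors, (8 / (p : ℝ)) := by
  rw [bv_divisors_sum (fun p => 8 / (p : ℝ)) k hk]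
  have hk0 : (k : ℝ) ≠ 0 := by exact_mod_cast hk.ne_zero
  have h1 : (k.totient : ℝ) = k * ∏ p ∈ k.primeFactors, (1 - 1 / (p : ℝ)) := by
    have h4 := Nat.totient_eq_mul_prod_factors k
    have h5 : ((k.totient : ℚ) : ℝ) = ((k * ∏ p ∈ k.primeFactors, (1 - (p : ℚ)⁻¹) : ℚ) : ℝ) := by
      rw [h4]
    push_cast at h5
    rw [h5]
    simp [one_div]
  have h2 : (k : ℝ) / (Nat.totient k : ℝ) = ∏ p ∈ k.primeFactors, (1 - 1 / (p : ℝ))⁻¹ := by
    rw [h1, prod_inv_distrib, div_mul_eq_div_div, div_self hk0, one_div]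
  rw [h2, ← prod_pow]
  apply prod_le_prod
  · intro p _
    positivity
  · intro p hp
    have hp2 := bv_prime_ge hp
    have h3 : (1 - 1 / (p : ℝ))⁻¹ = p / (p - 1) := by
      have : (p : ℝ) - 1 ≠ 0 := by linarith
      field_simp
    rw [h3, div_pow, div_le_iff₀ (by nlinarith)]
    have h4 : (1 + 8 / (p : ℝ)) * (p - 1) ^ 2 = (p + 8) * (p - 1) ^ 2 / p := by
      field_simp
    rw [h4, le_div_iff₀ (by linarith)]
    nlinarith [sq_nonneg ((p : ℝ) - 2), mul_nonneg (sub_nonneg.mpr hp2) (sub_nonneg.mpr hp2)]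

theorem bv_T_sum (N : ℕ) :
    ∑ d ∈ (Icc 1 N).filter Squarefree, (∏ p ∈ d.primeFactors, (8 / (p : ℝ))) / d ≤
      Real.exp 16 := by
  have h1 : ∀ d ∈ (Icc 1 N).filter Squarefree, (∏ p ∈ d.primeFactors, (8 / (p : ℝ))) / d =
      ∏ p ∈ d.primeFactors, (8 / (p : ℝ) ^ 2) := by
    intro d hd
    have hsq := (mem_filter.mp hd).2
    have h2 : (d : ℝ) = ∏ p ∈ d.primeFactors, (p : ℝ) := by
      rw [← Nat.cast_prod, Nat.prod_primeFactors_of_squarefree hsq]
    rw [h2, ← prod_div_distrib]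
    apply prod_congr rfl
    intro p _
    rw [div_div, sq]
  rw [sum_congr rfl h1]
  have h3 : ∑ d ∈ (Icc 1 N).filter Squarefree, ∏ p ∈ d.primeFactors, (8 / (p : ℝ) ^ 2) ≤
      ∑ S ∈ (Icc 2 N).powerset, ∏ p ∈ S, (8 / (p : ℝ) ^ 2) := by
    have hinj : Set.InjOn Nat.primeFactors ((Icc 1 N).filter Squarefree : Finset ℕ) := by
      intro a ha b hb hab
      have ha' := (mem_filter.mp (mem_coe.mp ha)).2
      have hb' := (mem_filter.mp (mem_coe.mp hb)).2
      rw [← Nat.prod_primeFactors_of_squarefree ha', ← Nat.prod_primeFactors_of_squarefree hb',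
        hab]
    rw [← sum_image (f := fun S : Finset ℕ => ∏ p ∈ S, (8 / (p : ℝ) ^ 2)) hinj]
    apply sum_le_sum_of_subset_of_nonneg
    · intro S hS
      obtain ⟨d, hd, rfl⟩ := mem_image.mp hS
      rw [mem_filter, mem_Icc] at hd
      rw [mem_powerset]
      intro p hp
      have hp' := Nat.mem_primeFactors.mp hp
      rw [mem_Icc]
      exact ⟨hp'.1.two_le, (Nat.le_of_dvd (by omega) hp'.2.1).trans hd.1.2⟩
    · intro S _ _
      apply prod_nonneg
      intro p _
      positivity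
  refine h3.trans ?_
  rw [← prod_one_add]
  have h4 : ∏ p ∈ Icc 2 N, (1 + 8 / (p : ℝ) ^ 2) ≤ ∏ p ∈ Icc 2 N, Real.exp (8 / (p : ℝ) ^ 2) := by
    apply prod_le_prod
    · intro p _
      positivity
    · intro p _
      have := Real.add_one_le_exp (8 / (p : ℝ) ^ 2)
      linarith
  refine h4.trans ?_
  rw [← Real.exp_sum]
  apply Real.exp_le_exp.mpr
  have h5 : ∀ M : ℕ, ∑ p ∈ Icc 2 (M + 1), (8 / (p : ℝ) ^ 2) ≤ 16 * (1 - 1 / ((M : ℝ) + 1)) := by
    intro M
    induction M with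
    | zero => simp
    | succ M ih =>
      rw [sum_Icc_succ_top (by omega)]
      have h6 : 8 / ((M + 1 + 1 : ℕ) : ℝ) ^ 2 ≤ 16 * (1 / ((M : ℝ) + 1) - 1 / ((M : ℝ) + 2)) := by
        have h7 : 1 / ((M : ℝ) + 1) - 1 / ((M : ℝ) + 2) = 1 / (((M : ℝ) + 1) * ((M : ℝ) + 2)) := by
          have : (M : ℝ) + 1 ≠ 0 := by positivity
          have : (M : ℝ) + 2 ≠ 0 := by positivity
          field_simp
          ring
        rw [h7]
        push_cast
        rw [mul_one_div, div_le_div_iff₀ (by positivity) (by positivity)]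
        nlinarith
      push_cast
      have e : (M : ℝ) + 1 + 1 = M + 2 := by ring
      rw [e]
      push_cast at h6
      rw [e] at h6
      linarith
  rcases Nat.eq_zero_or_pos N with hN | hN
  · subst hN
    simp
  · obtain ⟨M, rfl⟩ := Nat.exists_eq_add_of_le' hN
    have h6 := h5 M
    have h7 : 0 < 1 / ((M : ℝ) + 1) := by positivity
    linarith

theorem bv_harm (n : ℕ) : ∑ m ∈ Icc 1 n, 1 / (m : ℝ) ≤ 1 + Real.log n := by
  have h1 := harmonic_le_one_add_log n
  rw [harmonic_eq_sum_Icc] at h1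
  push_cast at h1
  simpa [one_div] using h1

theorem bv_mult (N d : ℕ) (hd : 1 ≤ d) (f : ℕ → ℝ) :
    ∑ k ∈ (Icc 1 N).filter (fun k => d ∣ k), f k = ∑ m ∈ Icc 1 (N / d), f (d * m) := by
  have h1 : (Icc 1 N).filter (fun k => d ∣ k) = (Icc 1 (N / d)).image (fun m => d * m) := by
    ext k
    rw [mem_filter, mem_Icc, mem_image]
    constructor
    · rintro ⟨⟨h1, h2⟩, m, rfl⟩
      refine ⟨m, ?_, rfl⟩
      rw [mem_Icc]
      refine ⟨?_, (Nat.le_div_iff_mul_le hd).2 (by rw [mul_comm]; exact h2)⟩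
      rcases Nat.eq_zero_or_pos m with h | h
      · subst h; simp at h1
      · exact h
    · rintro ⟨m, hm, rfl⟩
      rw [mem_Icc] at hm
      have h2 := (Nat.le_div_iff_mul_le hd).1 hm.2
      exact ⟨⟨Nat.mul_pos hd hm.1, by rw [mul_comm]; exact h2⟩, dvd_mul_right d m⟩
  rw [h1, sum_image]
  intro a _ b _ hab
  exact Nat.eq_of_mul_eq_mul_left hd hab

/-- the sum over squarefree numbers -/
theorem bv_phi_sum (N : ℕ) (hN : 1 ≤ N) :
    ∑ k ∈ (Icc 1 N).filter Squarefree, ((k : ℝ) / (Nat.totient k : ℝ)) ^ 2 / k ≤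
      Real.exp 16 * (1 + Real.log N) := by
  set T : ℕ → ℝ := fun d => ∏ p ∈ d.primeFactors, (8 / (p : ℝ)) with hT
  have hT0 : ∀ d, 0 ≤ T d := fun d => prod_nonneg fun p _ => by positivity
  have hlog : 0 ≤ Real.log N := Real.log_nonneg (by exact_mod_cast hN)
  have h1 : ∀ k ∈ (Icc 1 N).filter Squarefree, ((k : ℝ) / (Nat.totient k : ℝ)) ^ 2 / k ≤
      ∑ d ∈ (Icc 1 N).filter Squarefree, if d ∣ k then T d * (1 / k) else 0 := by
    intro k hk
    rw [mem_filter, mem_Icc] at hk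
    have h2 := bv_phi k hk.2
    have h3 : ∑ d ∈ (Icc 1 N).filter Squarefree, (if d ∣ k then T d * (1 / (k : ℝ)) else 0) =
        (∑ d ∈ k.divisors, T d) * (1 / k) := by
      rw [← sum_filter, sum_mul]
      apply sum_congr _ fun _ _ => rfl
      ext d
      rw [mem_filter, mem_filter, mem_Icc, Nat.mem_divisors]
      constructor
      · rintro ⟨_, h4⟩
        exact ⟨h4, by omega⟩
      · rintro ⟨h4, _⟩
        exact ⟨⟨⟨Nat.pos_of_dvd_of_pos h4 (by omega),
          (Nat.le_of_dvd (by omega) h4).trans hk.1.2⟩, hk.2.squarefree_of_dvd h4⟩, h4⟩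
    rw [h3, div_eq_mul_one_div]
    exact mul_le_mul_of_nonneg_right h2 (by positivity)
  refine (sum_le_sum h1).trans ?_
  rw [sum_comm]
  have h5 : ∀ d ∈ (Icc 1 N).filter Squarefree,
      ∑ k ∈ (Icc 1 N).filter Squarefree, (if d ∣ k then T d * (1 / (k : ℝ)) else 0) ≤
      T d / d * (1 + Real.log N) := by
    intro d hd
    rw [mem_filter, mem_Icc] at hd
    have h6 : ∑ k ∈ (Icc 1 N).filter Squarefree, (if d ∣ k then T d * (1 / (k : ℝ)) else 0) ≤
        ∑ k ∈ Icc 1 N, (if d ∣ k then T d * (1 / (k : ℝ)) else 0) := by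
      apply sum_le_sum_of_subset_of_nonneg (filter_subset _ _)
      intro k _ _
      split_ifs
      · exact mul_nonneg (hT0 d) (by positivity)
      · exact le_rfl
    refine h6.trans ?_
    rw [← sum_filter, bv_mult N d hd.1.1 (fun k => T d * (1 / (k : ℝ)))]
    have h7 : ∑ m ∈ Icc 1 (N / d), T d * (1 / ((d * m : ℕ) : ℝ)) =
        T d / d * ∑ m ∈ Icc 1 (N / d), 1 / (m : ℝ) := by
      rw [mul_sum]
      apply sum_congr rfl
      intro m _
      push_cast
      rw [div_mul_div_comm, mul_one_div, mul_one]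
    rw [h7]
    apply mul_le_mul_of_nonneg_left _ (div_nonneg (hT0 d) (Nat.cast_nonneg d))
    refine (bv_harm _).trans ?_
    rcases Nat.eq_zero_or_pos (N / d) with h8 | h8
    · rw [h8]
      simp [hlog]
    · have h9 : Real.log ((N / d : ℕ) : ℝ) ≤ Real.log N := by
        apply Real.log_le_log (by exact_mod_cast h8)
        exact_mod_cast Nat.div_le_self N d
      linarith
  refine (sum_le_sum h5).trans ?_
  rw [← sum_mul]
  exact mul_le_mul_of_nonneg_right (bv_T_sum N) (by linarith)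

/-! ### diagonalization -/

theorem bv_diag (N : ℕ) (x : ℕ → ℝ) (s : ℝ) (hx : ∀ d, ¬ Squarefree d → x d = 0) :
    ∑ d ∈ Icc 1 N, ∑ e ∈ Icc 1 N, x d * x e * ((Nat.gcd d e : ℕ) : ℝ) ^ s =
      ∑ k ∈ Icc 1 N, bv_J s k * (∑ d ∈ (Icc 1 N).filter (fun d => k ∣ d), x d) ^ 2 := by
  have h1 : ∀ d ∈ Icc 1 N, ∀ e ∈ Icc 1 N, x d * x e * ((Nat.gcd d e : ℕ) : ℝ) ^ s =
      ∑ k ∈ Icc 1 N, bv_J s k * ((if k ∣ d then x d else 0) * (if k ∣ e then x e else 0)) := by
    intro d hd e he
    rw [mem_Icc] at hd he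
    by_cases hsd : Squarefree d
    · have hg : Squarefree (Nat.gcd d e) := hsd.squarefree_of_dvd (Nat.gcd_dvd_left d e)
      rw [← bv_J_sum s _ hg, mul_sum]
      have h2 : ∑ k ∈ Icc 1 N, bv_J s k *
          ((if k ∣ d then x d else 0) * (if k ∣ e then x e else 0)) =
          ∑ k ∈ (Icc 1 N).filter (fun k => k ∣ Nat.gcd d e), x d * x e * bv_J s k := by
        rw [sum_filter]
        apply sum_congr rfl
        intro k _
        by_cases h3 : k ∣ d
        · by_cases h4 : k ∣ e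
          · rw [if_pos h3, if_pos h4, if_pos (Nat.dvd_gcd h3 h4)]
            ring
          · have h5 : ¬ k ∣ Nat.gcd d e := fun h => h4 (h.trans (Nat.gcd_dvd_right d e))
            rw [if_neg h4, if_neg h5]
            ring
        · have h5 : ¬ k ∣ Nat.gcd d e := fun h => h3 (h.trans (Nat.gcd_dvd_left d e))
          rw [if_neg h3, if_neg h5]
          ring
      rw [h2]
      apply sum_congr _ fun _ _ => rfl
      ext k
      rw [Nat.mem_divisors, mem_filter, mem_Icc]
      have hg0 : 0 < Nat.gcd d e := Nat.gcd_pos_of_pos_left e (by omega)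
      constructor
      · rintro ⟨h3, _⟩
        exact ⟨⟨Nat.pos_of_dvd_of_pos h3 hg0, (Nat.le_of_dvd (by omega)
          (h3.trans (Nat.gcd_dvd_left d e))).trans hd.2⟩, h3⟩
      · rintro ⟨_, h3⟩
        exact ⟨h3, by omega⟩
    · rw [hx d hsd]
      simp
  rw [sum_congr rfl fun d hd => sum_congr rfl fun e he => h1 d hd e he]
  rw [sum_congr rfl fun d _ => sum_comm, sum_comm]
  apply sum_congr rfl
  intro k _
  rw [sum_filter, sq, sum_mul_sum, mul_sum]
  apply sum_congr rfl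
  intro d _
  rw [mul_sum]

/-- the inner sum of the diagonal form -/
theorem bv_Sk (B : ℝ) (hH : ∀ k : ℕ, 1 ≤ k → ∀ Y : ℝ,
    |∑ j ∈ (Icc 1 ⌊Y⌋₊).filter (fun j => j.Coprime k),
      (ArithmeticFunction.moebius j : ℝ) / j * Real.log (Y / j)| ≤ B * (k / (Nat.totient k : ℝ)))
    (y ε : ℝ) (hy : 2 ≤ y) (hε : 0 ≤ ε) (hεL : ε * Real.log y ≤ 4) (k : ℕ)
    (hk : k ∈ Icc 1 ⌊y⌋₊) :
    |∑ d ∈ (Icc 1 ⌊y⌋₊).filter (fun d => k ∣ d), (ArithmeticFunction.moebius d : ℝ) *
      Real.log (y / d) * (d : ℝ) ^ (-(1 + ε))| ≤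
      if Squarefree k then (k : ℝ) ^ (-(1 + ε)) * (5 * (B * (k / (Nat.totient k : ℝ)))) else 0 := by
  have hy0 : 0 < y := by linarith
  rw [mem_Icc] at hk
  have hk1 : (1 : ℝ) ≤ k := by exact_mod_cast hk.1
  have hky : (k : ℝ) ≤ y := (Nat.le_floor_iff hy0.le).mp hk.2
  rw [bv_mult ⌊y⌋₊ k hk.1 (fun d => (ArithmeticFunction.moebius d : ℝ) *
      Real.log (y / d) * (d : ℝ) ^ (-(1 + ε)))]
  split_ifs with hsq
  · have h1 : ⌊y⌋₊ / k = ⌊y / k⌋₊ := (Nat.floor_div_natCast y k).symm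
    rw [h1]
    have h2 : ∀ j ∈ Icc 1 ⌊y / k⌋₊, (ArithmeticFunction.moebius (k * j) : ℝ) *
        Real.log (y / ((k * j : ℕ) : ℝ)) * ((k * j : ℕ) : ℝ) ^ (-(1 + ε)) =
        if j.Coprime k then ((ArithmeticFunction.moebius k : ℝ) * (k : ℝ) ^ (-(1 + ε))) *
          ((ArithmeticFunction.moebius j : ℝ) * Real.log (y / k / j) * (j : ℝ) ^ (-(1 + ε)))
        else 0 := by
      intro j hj
      split_ifs with hc
      · rw [ArithmeticFunction.isMultiplicative_moebius.map_mul_of_coprime hc.symm]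
        push_cast
        rw [Real.mul_rpow (by linarith) (Nat.cast_nonneg j), div_div]
        ring
      · have h3 : ArithmeticFunction.moebius (k * j) = 0 := by
          apply ArithmeticFunction.moebius_eq_zero_of_not_squarefree
          intro h4
          rw [Nat.squarefree_mul_iff] at h4
          exact hc h4.1.symm
        rw [h3]
        simp
    rw [sum_congr rfl h2, ← sum_filter, ← mul_sum, abs_mul, abs_mul]
    have h3 : |(ArithmeticFunction.moebius k : ℝ)| ≤ 1 := by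
      have := ArithmeticFunction.abs_moebius_le_one (n := k)
      exact_mod_cast this
    have h4 : |(k : ℝ) ^ (-(1 + ε))| = (k : ℝ) ^ (-(1 + ε)) := abs_of_nonneg (by positivity)
    have hyk : 1 ≤ y / k := by
      rw [le_div_iff₀ (by linarith)]
      linarith
    have h5 := bv_inner (B * (k / (Nat.totient k : ℝ))) k (hH k hk.1) (y / k) ε hyk hε (by
      refine le_trans (mul_le_mul_of_nonneg_left ?_ hε) hεL
      apply Real.log_le_log (by linarith)
      exact div_le_self hy0.le hk1)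
    rw [h4]
    apply mul_le_mul _ h5 (abs_nonneg _) (by positivity)
    calc |(ArithmeticFunction.moebius k : ℝ)| * (k : ℝ) ^ (-(1 + ε)) ≤
        1 * (k : ℝ) ^ (-(1 + ε)) := mul_le_mul_of_nonneg_right h3 (by positivity)
      _ = _ := one_mul _
  · have h2 : ∀ j ∈ Icc 1 (⌊y⌋₊ / k), (ArithmeticFunction.moebius (k * j) : ℝ) *
        Real.log (y / ((k * j : ℕ) : ℝ)) * ((k * j : ℕ) : ℝ) ^ (-(1 + ε)) = 0 := by
      intro j _
      have h3 : ArithmeticFunction.moebius (k * j) = 0 := by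
        apply ArithmeticFunction.moebius_eq_zero_of_not_squarefree
        intro h4
        exact hsq (h4.squarefree_of_dvd (dvd_mul_right k j))
      rw [h3]
      simp
    rw [sum_congr rfl h2]
    simp

/-- **BV.** The Barban-Vehov quadratic form. -/
theorem thm_BV (h : St_H) : St_BV := by
  obtain ⟨B, hB, hH⟩ := h
  refine ⟨25 * B ^ 2 * Real.exp 16 * 3, by positivity, fun y hy ε hε hεL => ?_⟩
  have hy0 : 0 < y := by linarith
  set N : ℕ := ⌊y⌋₊ with hN
  have hN1 : 1 ≤ N := by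
    rw [hN, Nat.one_le_floor_iff]
    linarith
  have hNy : (N : ℝ) ≤ y := Nat.floor_le hy0.le
  set x : ℕ → ℝ := fun d => (ArithmeticFunction.moebius d : ℝ) * Real.log (y / d) *
    (d : ℝ) ^ (-(1 + ε)) with hx
  have hQ : QBV y ε = ∑ k ∈ Icc 1 N, bv_J (1 + ε) k *
      (∑ d ∈ (Icc 1 N).filter (fun d => k ∣ d), x d) ^ 2 := by
    rw [← bv_diag N x (1 + ε) (by
      intro d hd
      rw [hx]
      simp only
      rw [ArithmeticFunction.moebius_eq_zero_of_not_squarefree hd]
      simp), QBV]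
    apply sum_congr rfl
    intro d hd
    apply sum_congr rfl
    intro e he
    rw [mem_Icc] at hd he
    have hd0 : (0 : ℝ) < d := by exact_mod_cast hd.1
    have he0 : (0 : ℝ) < e := by exact_mod_cast he.1
    have hg0 : (0 : ℝ) < ((Nat.gcd d e : ℕ) : ℝ) := by
      exact_mod_cast Nat.gcd_pos_of_pos_left e (by omega)
    have hl0 : (0 : ℝ) < ((Nat.lcm d e : ℕ) : ℝ) := by
      exact_mod_cast Nat.lcm_pos (by omega) (by omega)
    have h1 : ((Nat.gcd d e : ℕ) : ℝ) * ((Nat.lcm d e : ℕ) : ℝ) = d * e := by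
      exact_mod_cast Nat.gcd_mul_lcm d e
    have h2 : ((Nat.lcm d e : ℕ) : ℝ) ^ (-(1 + ε)) =
        (d : ℝ) ^ (-(1 + ε)) * (e : ℝ) ^ (-(1 + ε)) * ((Nat.gcd d e : ℕ) : ℝ) ^ (1 + ε) := by
      rw [← Real.mul_rpow hd0.le he0.le, ← h1, Real.mul_rpow hg0.le hl0.le,
        Real.rpow_neg hg0.le]
      have h3 : ((Nat.gcd d e : ℕ) : ℝ) ^ (1 + ε) ≠ 0 := (Real.rpow_pos_of_pos hg0 _).ne'
      field_simp
    rw [h2, hx]
    ring
  have hJ0 : ∀ k, 0 ≤ bv_J (1 + ε) k := fun k => bv_J_nonneg _ (by linarith) k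
  refine ⟨?_, ?_⟩
  · rw [hQ]
    exact sum_nonneg fun k _ => mul_nonneg (hJ0 k) (sq_nonneg _)
  · rw [hQ]
    have h1 : ∀ k ∈ Icc 1 N, bv_J (1 + ε) k *
        (∑ d ∈ (Icc 1 N).filter (fun d => k ∣ d), x d) ^ 2 ≤
        if Squarefree k then 25 * B ^ 2 * (((k : ℝ) / (Nat.totient k : ℝ)) ^ 2 / k) else 0 := by
      intro k hk
      have h2 := bv_Sk B hH y ε hy hε hεL k hk
      rw [mem_Icc] at hk
      have hk0 : (0 : ℝ) < k := by exact_mod_cast hk.1
      have hk1 : (1 : ℝ) ≤ k := by exact_mod_cast hk.1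
      split_ifs at h2 ⊢ with hsq
      · have h3 : (∑ d ∈ (Icc 1 N).filter (fun d => k ∣ d), x d) ^ 2 ≤
            ((k : ℝ) ^ (-(1 + ε)) * (5 * (B * (k / (Nat.totient k : ℝ))))) ^ 2 := by
          rw [← sq_abs]
          exact pow_le_pow_left₀ (abs_nonneg _) h2 2
        have h4 := bv_J_le (1 + ε) (by linarith) k hsq
        have h5 : (k : ℝ) ^ (1 + ε) * (k : ℝ) ^ (-(1 + ε)) = 1 := by
          rw [← Real.rpow_add hk0]
          simp
        have h6 : (k : ℝ) ^ (-(1 + ε)) ≤ 1 / k := by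
          have h7 := Real.rpow_le_rpow_of_exponent_le hk1 (show -(1 + ε) ≤ -1 by linarith)
          rw [Real.rpow_neg_one] at h7
          rwa [one_div]
        calc bv_J (1 + ε) k * (∑ d ∈ (Icc 1 N).filter (fun d => k ∣ d), x d) ^ 2
            ≤ (k : ℝ) ^ (1 + ε) *
              ((k : ℝ) ^ (-(1 + ε)) * (5 * (B * (k / (Nat.totient k : ℝ))))) ^ 2 :=
              mul_le_mul h4 h3 (sq_nonneg _) (by positivity)
          _ = ((k : ℝ) ^ (1 + ε) * (k : ℝ) ^ (-(1 + ε))) * (k : ℝ) ^ (-(1 + ε)) *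
              (25 * B ^ 2 * ((k : ℝ) / (Nat.totient k : ℝ)) ^ 2) := by ring
          _ ≤ 1 * (1 / k) * (25 * B ^ 2 * ((k : ℝ) / (Nat.totient k : ℝ)) ^ 2) := by
              rw [h5]
              apply mul_le_mul_of_nonneg_right _ (by positivity)
              exact mul_le_mul_of_nonneg_left h6 zero_le_one
          _ = _ := by ring
      · have h3 : ∑ d ∈ (Icc 1 N).filter (fun d => k ∣ d), x d = 0 :=
          abs_eq_zero.mp (le_antisymm h2 (abs_nonneg _))
        rw [h3]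
        simp
    refine (sum_le_sum h1).trans ?_
    rw [← sum_filter, ← mul_sum]
    have h2 := bv_phi_sum N hN1
    have h3 : Real.log N ≤ Real.log y := Real.log_le_log (by exact_mod_cast hN1) hNy
    have h4 : 0.6931 ≤ Real.log y := by
      have h5 := Real.log_le_log (by norm_num) hy
      linarith [Real.log_two_gt_d9]
    have h5 : Real.exp 16 * (1 + Real.log N) ≤ Real.exp 16 * (3 * Real.log y) :=
      mul_le_mul_of_nonneg_left (by linarith) (Real.exp_pos _).le
    calc 25 * B ^ 2 * ∑ k ∈ (Icc 1 N).filter Squarefree,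
          ((k : ℝ) / (Nat.totient k : ℝ)) ^ 2 / k
        ≤ 25 * B ^ 2 * (Real.exp 16 * (3 * Real.log y)) :=
          mul_le_mul_of_nonneg_left (h2.trans h5) (by positivity)
      _ = _ := by ring

end Pool.Agent.MVX
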