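import Pool.Agent.MVX.StF

set_option autoImplicit false

/-!
# Project MVX: the tent mean as second difference of Riesz sums (helper87)
-/

namespace Pool.Agent.MVX

open Finset Filter

private lemma bdec_Rz {q : ℕ} (χ : DirichletCharacter ℂ q) {m M : ℕ} (h : m ≤ M) :
    Rz χ (m : ℝ) = ∑ n ∈ Icc 1 M, if n ≤ m then
      ((m : ℂ) - n) * (((ArithmeticFunction.vonMangoldt n : ℝ) : ℂ) * χ (n : ZMod q)) else 0 := by
  unfold Rz
  rw [Nat.floor_natCast, ← Finset.sum_filter]
  have e : (Icc 1 M).filter (fun n => n ≤ m) = Icc 1 m := by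
    ext n
    simp only [Finset.mem_filter, Finset.mem_Icc]
    omega
  rw [e]
  rfl

private lemma bdec_tent1 {H x n : ℕ} (h : n + H ≤ x) : tent H x n = 0 := by
  have h1 : (n : ℝ) + H ≤ x := by exact_mod_cast h
  have h0 : (0 : ℝ) ≤ H := Nat.cast_nonneg H
  unfold tent
  rw [abs_of_nonpos (by linarith), max_eq_left (by linarith)]

private lemma bdec_tent2 {H x n : ℕ} (h : x < n + H) (h' : n ≤ x) :
    tent H x n = (H : ℝ) - x + n := by
  have h1 : (x : ℝ) < n + H := by exact_mod_cast h
  have h2 : (n : ℝ) ≤ x := by exact_mod_cast h'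
  unfold tent
  rw [abs_of_nonpos (by linarith), max_eq_right (by linarith)]
  ring

private lemma bdec_tent3 {H x n : ℕ} (h : x < n) (h' : n ≤ x + H) :
    tent H x n = (x : ℝ) + H - n := by
  have h1 : (x : ℝ) < n := by exact_mod_cast h
  have h2 : (n : ℝ) ≤ x + H := by exact_mod_cast h'
  unfold tent
  rw [abs_of_nonneg (by linarith), max_eq_right (by linarith)]
  ring

/-- Bdec. -/
theorem thm_Bdec : St_Bdec := by
  intro q χ H x hH hx
  unfold Bm
  rw [bdec_Rz χ (le_refl (x + H)), bdec_Rz χ (show x ≤ x + H by omega),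
    bdec_Rz χ (show x - H ≤ x + H by omega)]
  congr 1
  rw [Finset.mul_sum, ← Finset.sum_sub_distrib, ← Finset.sum_add_distrib]
  refine Finset.sum_congr rfl fun n hn => ?_
  rw [Finset.mem_Icc] at hn
  have hc : ((x - H : ℕ) : ℂ) = (x : ℂ) - H := Nat.cast_sub hx
  rw [if_pos hn.2]
  by_cases h1 : n + H ≤ x
  · rw [bdec_tent1 h1, if_pos (show n ≤ x by omega), if_pos (show n ≤ x - H by omega), hc]
    push_cast
    ring
  · by_cases h2 : n ≤ x
    · rw [bdec_tent2 (by omega) h2, if_pos h2, if_neg (show ¬ n ≤ x - H by omega)]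
      push_cast
      ring
    · rw [bdec_tent3 (by omega) hn.2, if_neg h2, if_neg (show ¬ n ≤ x - H by omega)]
      push_cast
      ring

end Pool.Agent.MVX
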