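import Pool.Agent.MVX.StF

set_option autoImplicit false

/-!
# Project MVX: a real primitive nonprincipal character exists (helper87)
-/

namespace Pool.Agent.MVX

open Finset Filter

/-- Ch. -/
theorem thm_Ch : St_Ch := by
  have hinj : Function.Injective (Int.castRingHom ℂ) := Int.cast_injective
  have hr : ringChar (ZMod 3) ≠ 2 := by
    rw [ZMod.ringChar_zmod_n]
    norm_num
  set χ : DirichletCharacter ℂ 3 :=
    (quadraticChar (ZMod 3)).ringHomComp (Int.castRingHom ℂ) with hχ
  have h1 : χ ≠ 1 := (MulChar.ringHomComp_ne_one_iff hinj).2 (quadraticChar_ne_one hr)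
  have h2 : χ ^ 2 = 1 :=
    ((quadraticChar_isQuadratic (ZMod 3)).comp (Int.castRingHom ℂ)).sq_eq_one
  refine ⟨3, inferInstance, χ, by norm_num, ?_, h2, h1⟩
  rw [DirichletCharacter.isPrimitive_def]
  rcases (Nat.dvd_prime Nat.prime_three).1 χ.conductor_dvd_level with h | h
  · exact absurd (χ.eq_one_iff_conductor_eq_one.2 h) h1
  · exact h

end Pool.Agent.MVX
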