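import Pool.Agent.MVX.StA

/-!
# Project MVX, module Cnt: zeros in small discs around `1 + i t`
-/

set_option autoImplicit false

namespace Pool.Agent.MVX

open Finset Filter Topology Metric

/-- real part of `1 / w` -/
theorem cnt_re_inv_nonneg {w : ℂ} (h : 0 ≤ w.re) : 0 ≤ (w⁻¹).re := by
  rw [Complex.inv_re]
  exact div_nonneg h (Complex.normSq_nonneg w)

theorem cnt_re_inv_ge {w : ℂ} {r : ℝ} (hr : 0 < r) (h : r ≤ w.re) (h2 : ‖w‖ ≤ 2 * r) :
    1 / (4 * r) ≤ (w⁻¹).re := by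
  have hw : 0 < Complex.normSq w := by
    apply Complex.normSq_pos.mpr
    rintro rfl
    simp at h
    linarith
  have hw2 : Complex.normSq w ≤ 4 * r ^ 2 := by
    rw [Complex.normSq_eq_norm_sq]
    nlinarith [norm_nonneg w]
  rw [Complex.inv_re, div_le_div_iff₀ (by positivity) hw]
  nlinarith

theorem thm_Cnt (h1 : St_Loc) (h2 : St_A2) : St_Cnt := by
  obtain ⟨C₁, hC₁, hL⟩ := h1
  obtain ⟨C₂, hC₂, hA⟩ := h2
  refine ⟨4 * (C₁ + C₂), by positivity, ?_⟩
  intro T hT q _ χ hq t ht r hr hr8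
  have hT0 : 0 < T := by linarith
  have hlog : 0 < Real.log T := Real.log_pos (by linarith)
  obtain ⟨-, hL2⟩ := hL T hT q χ hq t (by linarith)
  obtain ⟨-, -, hA3⟩ := hA q χ
  set s : ℂ := 1 + r + t * Complex.I with hs
  have hsre : s.re = 1 + r := by simp [hs]
  have hs1 : s ∈ disc (3 / 2) t (5 / 8) := by
    unfold disc
    rw [mem_closedBall, dist_eq_norm]
    have h3 : s - (((3 / 2 : ℝ) : ℂ) + t * Complex.I) = ((r - 1 / 2 : ℝ) : ℂ) := by
      rw [hs]
      push_cast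
      ring
    rw [h3, Complex.norm_real, Real.norm_eq_abs, abs_le]
    constructor <;> linarith
  have hs0 : Lf χ s ≠ 0 := Lf_ne_zero χ (by rw [hsre]; linarith)
  have h3 := hL2 s hs1 hs0
  have h4 := hA3 s (by rw [hsre]; linarith) (by rw [hsre]; linarith)
  rw [hsre, add_sub_cancel_left] at h4
  set D := zs χ (disc (3 / 2) t (3 / 4)) with hD
  have h5 : ‖∑ ρ ∈ D, (zm χ ρ : ℂ) / (s - ρ)‖ ≤ C₂ / r + C₁ * Real.log T := by
    calc ‖∑ ρ ∈ D, (zm χ ρ : ℂ) / (s - ρ)‖ = ‖deriv (Lf χ) s / Lf χ s -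
          (deriv (Lf χ) s / Lf χ s - ∑ ρ ∈ D, (zm χ ρ : ℂ) / (s - ρ))‖ := by
          rw [sub_sub_cancel]
      _ ≤ _ := norm_sub_le _ _
      _ ≤ _ := add_le_add h4 h3
  have h6 : ∑ ρ ∈ D, (zm χ ρ : ℝ) * ((s - ρ)⁻¹).re ≤ C₂ / r + C₁ * Real.log T := by
    have h7 : (∑ ρ ∈ D, (zm χ ρ : ℂ) / (s - ρ)).re =
        ∑ ρ ∈ D, (zm χ ρ : ℝ) * ((s - ρ)⁻¹).re := by
      rw [Complex.re_sum]
      refine Finset.sum_congr rfl ?_
      intro ρ _
      rw [div_eq_mul_inv, ← Complex.ofReal_natCast, Complex.re_ofReal_mul]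
    rw [← h7]
    exact (Complex.re_le_norm _).trans h5
  have hmD : ∀ ρ ∈ D, ρ.re < 1 := by
    intro ρ hρ
    have h8 := ((mem_zs χ (disc_bounded _ _ _) ρ).mp hρ).2
    by_contra h9
    exact Lf_ne_zero χ (not_lt.mp h9) h8
  have hsub : zs χ (disc 1 t r) ⊆ D := by
    intro ρ hρ
    have h8 := (mem_zs χ (disc_bounded _ _ _) ρ).mp hρ
    refine (mem_zs χ (disc_bounded _ _ _) ρ).mpr ⟨?_, h8.2⟩
    have h9 := h8.1
    unfold disc at h9 ⊢
    rw [mem_closedBall, dist_eq_norm] at h9 ⊢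
    have h10 : ρ - (((3 / 2 : ℝ) : ℂ) + t * Complex.I) =
        (ρ - (((1 : ℝ) : ℂ) + t * Complex.I)) + ((-(1 / 2) : ℝ) : ℂ) := by
      push_cast
      ring
    rw [h10]
    refine (norm_add_le _ _).trans ?_
    rw [Complex.norm_real, Real.norm_eq_abs]
    have h11 : |(-(1 / 2) : ℝ)| = 1 / 2 := by norm_num [abs_of_pos]
    rw [h11]
    linarith
  have h12 : ∑ ρ ∈ zs χ (disc 1 t r), (zm χ ρ : ℝ) * (1 / (4 * r)) ≤
      C₂ / r + C₁ * Real.log T := by
    calc ∑ ρ ∈ zs χ (disc 1 t r), (zm χ ρ : ℝ) * (1 / (4 * r)) ≤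
          ∑ ρ ∈ zs χ (disc 1 t r), (zm χ ρ : ℝ) * ((s - ρ)⁻¹).re := by
          refine Finset.sum_le_sum ?_
          intro ρ hρ
          refine mul_le_mul_of_nonneg_left ?_ (Nat.cast_nonneg _)
          have h13 := hmD ρ (hsub hρ)
          have h14 := ((mem_zs χ (disc_bounded _ _ _) ρ).mp hρ).1
          unfold disc at h14
          rw [mem_closedBall, dist_eq_norm, norm_sub_rev] at h14
          refine cnt_re_inv_ge hr ?_ ?_
          · rw [Complex.sub_re, hsre]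
            linarith
          · have h15 : s - ρ = ((r : ℝ) : ℂ) + ((((1 : ℝ) : ℂ) + t * Complex.I) - ρ) := by
              rw [hs]
              push_cast
              ring
            rw [h15]
            refine (norm_add_le _ _).trans ?_
            rw [Complex.norm_real, Real.norm_eq_abs, abs_of_pos hr]
            linarith
      _ ≤ ∑ ρ ∈ D, (zm χ ρ : ℝ) * ((s - ρ)⁻¹).re := by
          refine Finset.sum_le_sum_of_subset_of_nonneg hsub ?_
          intro ρ hρ _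
          refine mul_nonneg (Nat.cast_nonneg _) (cnt_re_inv_nonneg ?_)
          have h13 := hmD ρ hρ
          rw [Complex.sub_re, hsre]
          linarith
      _ ≤ _ := h6
  rw [← Finset.sum_mul] at h12
  have h16 : (∑ ρ ∈ zs χ (disc 1 t r), (zm χ ρ : ℝ)) ≤ (C₂ / r + C₁ * Real.log T) * (4 * r) := by
    have h17 := mul_le_mul_of_nonneg_right h12 (show (0 : ℝ) ≤ 4 * r by positivity)
    have h18 : (∑ ρ ∈ zs χ (disc 1 t r), (zm χ ρ : ℝ)) * (1 / (4 * r)) * (4 * r) =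
        ∑ ρ ∈ zs χ (disc 1 t r), (zm χ ρ : ℝ) := by
      field_simp
    rw [h18] at h17
    exact h17
  refine h16.trans ?_
  have h19 : (C₂ / r + C₁ * Real.log T) * (4 * r) = 4 * C₂ + 4 * C₁ * (r * Real.log T) := by
    field_simp
  rw [h19]
  have h20 : 0 ≤ r * Real.log T := by positivity
  nlinarith [mul_nonneg (show (0 : ℝ) ≤ C₂ by linarith) h20]

end Pool.Agent.MVX
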