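import Pool.Agent.MVX.StE

set_option autoImplicit false

/-!
# Project MVX [DD1]: sums over multiples, two nonprincipal characters
-/

namespace Pool.Agent.MVX

open Finset

private theorem dd1_cf_mul {q : ℕ} (χ : DirichletCharacter ℂ q) (m n : ℕ) :
    cf χ (m * n) = cf χ m * cf χ n := by
  unfold cf
  rw [Nat.cast_mul, map_mul]

private theorem dd1_moebius (c : ℕ) : ‖((ArithmeticFunction.moebius c : ℤ) : ℂ)‖ ≤ 1 := by
  rw [Complex.norm_intCast]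
  exact_mod_cast ArithmeticFunction.abs_moebius_le_one

theorem thm_DD1 (h1 : St_Hyp1) (h2 : St_Mul) : St_DD1 := by
  obtain ⟨C, hC, h⟩ := h1
  refine ⟨C, hC, ?_⟩
  intro k₁ k₂ _ _ ψ₁ ψ₂ K n1 n2 hk1 hk2 s hs hs' hL D hD x hx
  have hD0 : D ≠ 0 := hD.ne_zero
  have hD1 : 0 < D := Nat.pos_of_ne_zero hD0
  rw [h2 (cf ψ₁) (cf ψ₂) (dd1_cf_mul ψ₁) (dd1_cf_mul ψ₂) D hD s x hx.le]
  set E := C * K ^ 2 * (1 + ‖s‖) ^ 2 * x ^ (-(3 / 8 : ℝ)) with hE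
  have hE0 : 0 ≤ E := by positivity
  have key : ∀ c ∈ D.divisors, ∀ a ∈ (D / c).divisors,
      ‖(ArithmeticFunction.moebius c : ℂ) * cf ψ₁ (a * c) * cf ψ₂ (D / c / a * c) *
        ((D * c : ℕ) : ℂ) ^ (-s) * Ssum (cv (cf ψ₁) (cf ψ₂)) s (x / ((D * c : ℕ) : ℝ))‖ ≤ E := by
    intro c hc a _
    have hc0 : 0 < c := Nat.pos_of_mem_divisors hc
    have hm : 0 < D * c := Nat.mul_pos hD1 hc0
    have hmr : (0 : ℝ) < ((D * c : ℕ) : ℝ) := by exact_mod_cast hm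
    have hm1 : (1 : ℝ) ≤ ((D * c : ℕ) : ℝ) := by exact_mod_cast hm
    have e1 : ‖((D * c : ℕ) : ℂ) ^ (-s)‖ = ((D * c : ℕ) : ℝ) ^ (-s.re) := by
      rw [Complex.norm_natCast_cpow_of_pos hm, Complex.neg_re]
    have e2 := h k₁ k₂ ψ₁ ψ₂ K n1 n2 hk1 hk2 s hs hs' hL (x / ((D * c : ℕ) : ℝ)) (by positivity)
    have e3 : ((D * c : ℕ) : ℝ) ^ (-s.re) * (x / ((D * c : ℕ) : ℝ)) ^ (-(3 / 8 : ℝ)) ≤
        x ^ (-(3 / 8 : ℝ)) := by
      rw [Real.div_rpow hx.le hmr.le, div_eq_mul_inv, ← Real.rpow_neg hmr.le, neg_neg]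
      have e4 : ((D * c : ℕ) : ℝ) ^ (-s.re) * ((D * c : ℕ) : ℝ) ^ (3 / 8 : ℝ) ≤ 1 := by
        rw [← Real.rpow_add hmr]
        exact Real.rpow_le_one_of_one_le_of_nonpos hm1 (by linarith)
      have e5 : 0 < x ^ (-(3 / 8 : ℝ)) := by positivity
      nlinarith
    have p1 : ‖(ArithmeticFunction.moebius c : ℂ) * cf ψ₁ (a * c) * cf ψ₂ (D / c / a * c)‖ ≤ 1 := by
      rw [norm_mul, norm_mul]
      exact mul_le_one₀ (mul_le_one₀ (dd1_moebius c) (norm_nonneg _) (ψ₁.norm_le_one _))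
        (norm_nonneg _) (ψ₂.norm_le_one _)
    rw [norm_mul, norm_mul, e1]
    calc ‖(ArithmeticFunction.moebius c : ℂ) * cf ψ₁ (a * c) * cf ψ₂ (D / c / a * c)‖ *
          ((D * c : ℕ) : ℝ) ^ (-s.re) *
          ‖Ssum (cv (cf ψ₁) (cf ψ₂)) s (x / ((D * c : ℕ) : ℝ))‖
        ≤ 1 * ((D * c : ℕ) : ℝ) ^ (-s.re) * (C * K ^ 2 * (1 + ‖s‖) ^ 2 *
          (x / ((D * c : ℕ) : ℝ)) ^ (-(3 / 8 : ℝ))) := by
          refine mul_le_mul (mul_le_mul_of_nonneg_right p1 (by positivity)) e2 (norm_nonneg _)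
            (by positivity)
      _ = C * K ^ 2 * (1 + ‖s‖) ^ 2 * (((D * c : ℕ) : ℝ) ^ (-s.re) *
          (x / ((D * c : ℕ) : ℝ)) ^ (-(3 / 8 : ℝ))) := by ring
      _ ≤ C * K ^ 2 * (1 + ‖s‖) ^ 2 * x ^ (-(3 / 8 : ℝ)) :=
          mul_le_mul_of_nonneg_left e3 (by positivity)
  have hcard : ∀ m : ℕ, 0 < m → m ≤ D → ((m.divisors.card : ℕ) : ℝ) ≤ D := by
    intro m _ hm
    exact_mod_cast (Nat.card_divisors_le_self m).trans hm
  calc _ ≤ ∑ c ∈ D.divisors, ∑ a ∈ (D / c).divisors, E :=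
        (norm_sum_le _ _).trans (sum_le_sum fun c hc =>
          (norm_sum_le _ _).trans (sum_le_sum fun a ha => key c hc a ha))
    _ ≤ ∑ c ∈ D.divisors, D * E := by
        refine sum_le_sum fun c hc => ?_
        rw [sum_const, nsmul_eq_mul]
        refine mul_le_mul_of_nonneg_right (hcard (D / c) ?_ (Nat.div_le_self D c)) hE0
        exact Nat.div_pos (Nat.divisor_le hc) (Nat.pos_of_mem_divisors hc)
    _ ≤ D * (D * E) := by
        rw [sum_const, nsmul_eq_mul]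
        exact mul_le_mul_of_nonneg_right (hcard D hD1 le_rfl) (by positivity)
    _ = C * K ^ 2 * (1 + ‖s‖) ^ 2 * D ^ 2 * x ^ (-(3 / 8 : ℝ)) := by
        rw [hE]
        ring

end Pool.Agent.MVX
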