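import Pool.Agent.MVX.StE

set_option autoImplicit false

/-!
# Project MVX, L-core, part E: sum over multiples for `1 * χ`
-/

namespace Pool.Agent.MVX

open Finset

private theorem dd2_B (g : ℕ → ℂ) (hg : ∀ m n, g (m * n) = g m * g n) (hg1 : g 1 = 1) :
    ∃ B : ArithmeticFunction ℂ, B.IsMultiplicative ∧
      ∀ n, B n = (ArithmeticFunction.moebius n : ℂ) * g n / n := by
  refine ⟨⟨fun n => (ArithmeticFunction.moebius n : ℂ) * g n / n, by simp⟩, ⟨?_, ?_⟩, fun n => rfl⟩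
  · change (ArithmeticFunction.moebius 1 : ℂ) * g 1 / (1 : ℕ) = 1
    simp [hg1]
  · intro m n hmn
    change (ArithmeticFunction.moebius (m * n) : ℂ) * g (m * n) / ((m * n : ℕ) : ℂ) =
      (ArithmeticFunction.moebius m : ℂ) * g m / m * ((ArithmeticFunction.moebius n : ℂ) * g n / n)
    rw [ArithmeticFunction.isMultiplicative_moebius.map_mul_of_coprime hmn, hg]
    push_cast
    rw [div_mul_div_comm]
    ring

private theorem dd2_G (g : ℕ → ℂ) (hg : ∀ m n, g (m * n) = g m * g n) (hg1 : g 1 = 1) :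
    ∃ G : ArithmeticFunction ℂ, G.IsMultiplicative ∧ ∀ n, n ≠ 0 → G n = g n := by
  refine ⟨⟨fun n => if n = 0 then 0 else g n, by simp⟩, ?_, fun n hn => ?_⟩
  · rw [ArithmeticFunction.IsMultiplicative.iff_ne_zero]
    refine ⟨?_, ?_⟩
    · change (if (1 : ℕ) = 0 then 0 else g 1) = 1
      simp [hg1]
    · intro m n hm hn _
      change (if m * n = 0 then 0 else g (m * n)) =
        (if m = 0 then 0 else g m) * (if n = 0 then 0 else g n)
      rw [if_neg (mul_ne_zero hm hn), if_neg hm, if_neg hn, hg]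
  · change (if n = 0 then 0 else g n) = g n
    rw [if_neg hn]

private theorem dd2_prod (g : ℕ → ℂ) (hg : ∀ m n, g (m * n) = g m * g n) (hg1 : g 1 = 1)
    (D : ℕ) (hD : Squarefree D) :
    ∑ c ∈ D.divisors, ∑ a ∈ (D / c).divisors,
      (ArithmeticFunction.moebius c : ℂ) * g (D / c / a * c) / ((D * c : ℕ) : ℂ)
      = ∏ p ∈ D.primeFactors, (1 / (p : ℂ) + g p / p - g p / p ^ 2) := by
  obtain ⟨B, hB, hBa⟩ := dd2_B g hg hg1
  obtain ⟨G, hG, hGa⟩ := dd2_G g hg hg1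
  have hA : ((ArithmeticFunction.zeta : ArithmeticFunction ℂ) * G).IsMultiplicative :=
    ArithmeticFunction.isMultiplicative_zeta.natCast.mul hG
  have h1 := hA.prodPrimeFactors_add_of_squarefree hB hD
  rw [ArithmeticFunction.prodPrimeFactors_apply hD.ne_zero, ArithmeticFunction.mul_apply,
    Nat.sum_divisorsAntidiagonal' (fun x y =>
      ((ArithmeticFunction.zeta : ArithmeticFunction ℂ) * G) x * B y)] at h1
  have hD0 : (D : ℂ) ≠ 0 := Nat.cast_ne_zero.mpr hD.ne_zero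
  have h2 : ∑ c ∈ D.divisors, ∑ a ∈ (D / c).divisors,
      (ArithmeticFunction.moebius c : ℂ) * g (D / c / a * c) / ((D * c : ℕ) : ℂ)
      = (∑ c ∈ D.divisors, ((ArithmeticFunction.zeta : ArithmeticFunction ℂ) * G) (D / c) * B c)
        / D := by
    rw [Finset.sum_div]
    refine Finset.sum_congr rfl fun c hc => ?_
    rw [ArithmeticFunction.coe_zeta_mul_apply, ← Nat.sum_div_divisors (D / c) (fun i => G i),
      Finset.sum_mul, Finset.sum_div]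
    refine Finset.sum_congr rfl fun a ha => ?_
    have h3 : D / c / a ≠ 0 := by
      have h4 := Nat.mem_divisors.mp ha
      exact (Nat.div_pos (Nat.le_of_dvd (Nat.pos_of_ne_zero h4.2) h4.1)
        (Nat.pos_of_dvd_of_pos h4.1 (Nat.pos_of_ne_zero h4.2))).ne'
    rw [hGa _ h3, hBa, hg]
    push_cast
    rw [mul_div_assoc', div_div]
    congr 1
    · ring
    · ring
  rw [h2, ← h1]
  have h5 : (D : ℂ) = ∏ p ∈ D.primeFactors, (p : ℂ) := by
    rw [← Nat.cast_prod, Nat.prod_primeFactors_of_squarefree hD]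
  rw [h5, ← Finset.prod_div_distrib]
  refine Finset.prod_congr rfl fun p hp => ?_
  have hpp := Nat.prime_of_mem_primeFactors hp
  have hp0 : (p : ℂ) ≠ 0 := Nat.cast_ne_zero.mpr hpp.ne_zero
  rw [ArithmeticFunction.add_apply, ArithmeticFunction.coe_zeta_mul_apply, hpp.sum_divisors, hBa,
    hGa _ hpp.ne_zero, hGa 1 one_ne_zero, hg1, ArithmeticFunction.moebius_apply_prime hpp]
  push_cast
  field_simp
  ring

private theorem dd2_re {q : ℕ} (χ : DirichletCharacter ℂ q) (hχ : χ ^ 2 = 1) (n : ℕ) :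
    (((χ (n : ZMod q)).re : ℝ) : ℂ) = χ (n : ZMod q) := by
  rcases (MulChar.isQuadratic_iff_sq_eq_one.mpr hχ) (n : ZMod q) with h | h | h <;> rw [h] <;> simp

private theorem dd2_pr {q : ℕ} (χ : DirichletCharacter ℂ q) (hχ : χ ^ 2 = 1) (D : ℕ) :
    ((pr (ga χ) D : ℝ) : ℂ)
      = ∏ p ∈ D.primeFactors, (1 / (p : ℂ) + cf χ p / p - cf χ p / p ^ 2) := by
  unfold pr
  rw [Complex.ofReal_prod]
  refine Finset.prod_congr rfl fun p hp => ?_
  have hp0 : (p : ℂ) ≠ 0 :=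
    Nat.cast_ne_zero.mpr (Nat.prime_of_mem_primeFactors hp).ne_zero
  unfold ga cf
  push_cast
  rw [dd2_re χ hχ p]
  field_simp
  ring

theorem thm_DD2 (h1 : St_Hyp2) (h2 : St_Mul) : St_DD2 := by
  obtain ⟨C, hC, H⟩ := h1
  refine ⟨C, hC, ?_⟩
  intro q _ χ hχ1 hχ2 s hs1 hs2 hs3 hz D hD x hx
  have hf : ∀ m n : ℕ, (fun _ : ℕ => (1 : ℂ)) (m * n) = (fun _ : ℕ => (1 : ℂ)) m *
      (fun _ : ℕ => (1 : ℂ)) n := fun _ _ => by simp
  have hg : ∀ m n : ℕ, cf χ (m * n) = cf χ m * cf χ n := fun m n => by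
    unfold cf; push_cast; rw [map_mul]
  have hg1 : cf χ 1 = 1 := by unfold cf; simp
  have hgn : ∀ n, ‖cf χ n‖ ≤ 1 := fun n => DirichletCharacter.norm_le_one χ _
  rw [h2 _ _ hf hg D hD s x hx.le, dd2_pr χ hχ2 D, ← dd2_prod (cf χ) hg hg1 D hD, Finset.mul_sum,
    ← Finset.sum_sub_distrib]
  have hs1' : (1 : ℂ) - s ≠ 0 := sub_ne_zero.mpr (Ne.symm hs3)
  have hE : ∀ c ∈ D.divisors, ∀ a ∈ (D / c).divisors,
      ‖(ArithmeticFunction.moebius c : ℂ) * 1 * cf χ (D / c / a * c) * ((D * c : ℕ) : ℂ) ^ (-s) *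
          Ssum (cv (fun _ => 1) (cf χ)) s (x / ((D * c : ℕ) : ℝ)) -
        χ.LFunction 1 * ((x : ℂ) ^ (1 - s) / (1 - s)) *
          ((ArithmeticFunction.moebius c : ℂ) * cf χ (D / c / a * c) / ((D * c : ℕ) : ℂ))‖
      ≤ C * (q : ℝ) ^ 2 * (1 + ‖s‖) ^ 2 * (1 + 1 / ‖1 - s‖) * x ^ (-(1 / 4 : ℝ)) := by
    intro c hc a ha
    have hc0 : 0 < c := Nat.pos_of_mem_divisors hc
    have hn0 : 0 < D * c := Nat.mul_pos (Nat.pos_of_ne_zero hD.ne_zero) hc0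
    generalize hn : D * c = n at hn0
    have hnR : (0 : ℝ) < (n : ℝ) := Nat.cast_pos.mpr hn0
    have hnC : (n : ℂ) ≠ 0 := Nat.cast_ne_zero.mpr hn0.ne'
    have hy : 0 < x / (n : ℝ) := div_pos hx hnR
    have h3 := H q χ hχ1 s hs1 hs2 hs3 hz (x / (n : ℝ)) hy
    have h4 : (x : ℂ) ^ (1 - s) / (1 - s) / (n : ℂ)
        = (n : ℂ) ^ (-s) * (((x / (n : ℝ) : ℝ) : ℂ) ^ (1 - s) / (1 - s)) := by
      have h5 : (x : ℂ) ^ (1 - s) = ((x / (n : ℝ) : ℝ) : ℂ) ^ (1 - s) * (n : ℂ) ^ (1 - s) := by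
        have h6 := Complex.mul_cpow_ofReal_nonneg hy.le hnR.le (1 - s)
        rw [Complex.ofReal_natCast] at h6
        rw [← h6]
        congr 1
        push_cast
        field_simp
      have h7 : (n : ℂ) ^ (1 - s) = (n : ℂ) * (n : ℂ) ^ (-s) := by
        rw [sub_eq_add_neg, Complex.cpow_add _ _ hnC, Complex.cpow_one]
      rw [h5, h7]
      field_simp
    have h8 : (ArithmeticFunction.moebius c : ℂ) * 1 * cf χ (D / c / a * c) * (n : ℂ) ^ (-s) *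
          Ssum (cv (fun _ => 1) (cf χ)) s (x / (n : ℝ)) -
        χ.LFunction 1 * ((x : ℂ) ^ (1 - s) / (1 - s)) *
          ((ArithmeticFunction.moebius c : ℂ) * cf χ (D / c / a * c) / (n : ℂ))
        = (ArithmeticFunction.moebius c : ℂ) * cf χ (D / c / a * c) * ((n : ℂ) ^ (-s) *
          (Ssum (cv (fun _ => 1) (cf χ)) s (x / (n : ℝ)) -
            χ.LFunction 1 * (((x / (n : ℝ) : ℝ) : ℂ) ^ (1 - s) / (1 - s)))) := by
      have h9 : χ.LFunction 1 * ((x : ℂ) ^ (1 - s) / (1 - s)) *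
          ((ArithmeticFunction.moebius c : ℂ) * cf χ (D / c / a * c) / (n : ℂ))
          = (ArithmeticFunction.moebius c : ℂ) * cf χ (D / c / a * c) * (χ.LFunction 1 *
            ((x : ℂ) ^ (1 - s) / (1 - s) / (n : ℂ))) := by
        field_simp
      rw [h9, h4]
      ring
    rw [h8, norm_mul, norm_mul, norm_mul]
    have hmu : ‖(ArithmeticFunction.moebius c : ℂ)‖ ≤ 1 := by
      have h10 : |ArithmeticFunction.moebius c| ≤ 1 := ArithmeticFunction.abs_moebius_le_one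
      rw [Complex.norm_intCast]
      exact_mod_cast h10
    have h11 : ‖(ArithmeticFunction.moebius c : ℂ)‖ * ‖cf χ (D / c / a * c)‖ ≤ 1 :=
      mul_le_one₀ hmu (norm_nonneg _) (hgn _)
    have h12 : ‖(n : ℂ) ^ (-s)‖ * (x / (n : ℝ)) ^ (-(1 / 4 : ℝ)) ≤ x ^ (-(1 / 4 : ℝ)) := by
      rw [Complex.norm_natCast_cpow_of_pos hn0, Complex.neg_re, Real.div_rpow hx.le hnR.le]
      have hn1 : (1 : ℝ) ≤ n := by exact_mod_cast hn0
      have h13 : (n : ℝ) ^ (-s.re) ≤ (n : ℝ) ^ (-(1 / 4 : ℝ)) :=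
        Real.rpow_le_rpow_of_exponent_le hn1 (by linarith)
      have h14 : 0 < (n : ℝ) ^ (-(1 / 4 : ℝ)) := Real.rpow_pos_of_pos hnR _
      have h15 : 0 ≤ x ^ (-(1 / 4 : ℝ)) := Real.rpow_nonneg hx.le _
      calc (n : ℝ) ^ (-s.re) * (x ^ (-(1 / 4 : ℝ)) / (n : ℝ) ^ (-(1 / 4 : ℝ)))
          ≤ (n : ℝ) ^ (-(1 / 4 : ℝ)) * (x ^ (-(1 / 4 : ℝ)) / (n : ℝ) ^ (-(1 / 4 : ℝ))) :=
            mul_le_mul_of_nonneg_right h13 (div_nonneg h15 h14.le)
        _ = x ^ (-(1 / 4 : ℝ)) := by field_simp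
    have hK : 0 ≤ C * (q : ℝ) ^ 2 * (1 + ‖s‖) ^ 2 * (1 + 1 / ‖1 - s‖) := by positivity
    calc ‖(ArithmeticFunction.moebius c : ℂ)‖ * ‖cf χ (D / c / a * c)‖ * (‖(n : ℂ) ^ (-s)‖ *
          ‖Ssum (cv (fun _ => 1) (cf χ)) s (x / (n : ℝ)) -
            χ.LFunction 1 * (((x / (n : ℝ) : ℝ) : ℂ) ^ (1 - s) / (1 - s))‖)
        ≤ 1 * (‖(n : ℂ) ^ (-s)‖ * (C * (q : ℝ) ^ 2 * (1 + ‖s‖) ^ 2 * (1 + 1 / ‖1 - s‖) *
            (x / (n : ℝ)) ^ (-(1 / 4 : ℝ)))) :=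
          mul_le_mul h11 (mul_le_mul_of_nonneg_left h3 (norm_nonneg _)) (by positivity) zero_le_one
      _ = (C * (q : ℝ) ^ 2 * (1 + ‖s‖) ^ 2 * (1 + 1 / ‖1 - s‖)) *
            (‖(n : ℂ) ^ (-s)‖ * (x / (n : ℝ)) ^ (-(1 / 4 : ℝ))) := by ring
      _ ≤ (C * (q : ℝ) ^ 2 * (1 + ‖s‖) ^ 2 * (1 + 1 / ‖1 - s‖)) * x ^ (-(1 / 4 : ℝ)) :=
          mul_le_mul_of_nonneg_left h12 hK
  set E : ℝ := C * (q : ℝ) ^ 2 * (1 + ‖s‖) ^ 2 * (1 + 1 / ‖1 - s‖) * x ^ (-(1 / 4 : ℝ)) with hEdef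
  have hE0 : 0 ≤ E := by
    have := Real.rpow_nonneg hx.le (-(1 / 4 : ℝ))
    positivity
  calc _ ≤ ∑ c ∈ D.divisors, (D : ℝ) * E := by
        refine norm_sum_le_of_le _ fun c hc => ?_
        rw [Finset.mul_sum, ← Finset.sum_sub_distrib]
        refine (norm_sum_le_of_le _ fun a ha => hE c hc a ha).trans ?_
        rw [Finset.sum_const, nsmul_eq_mul]
        refine mul_le_mul_of_nonneg_right ?_ hE0
        exact_mod_cast (Nat.card_divisors_le_self (D / c)).trans (Nat.div_le_self D c)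
    _ = (D.divisors.card : ℝ) * ((D : ℝ) * E) := by rw [Finset.sum_const, nsmul_eq_mul]
    _ ≤ (D : ℝ) * ((D : ℝ) * E) := by
        refine mul_le_mul_of_nonneg_right ?_ (by positivity)
        exact_mod_cast Nat.card_divisors_le_self D
    _ = C * (q : ℝ) ^ 2 * (1 + ‖s‖) ^ 2 * (1 + 1 / ‖1 - s‖) * D ^ 2 * x ^ (-(1 / 4 : ℝ)) := by
        rw [hEdef]; ring

end Pool.Agent.MVX
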