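import Pool.Agent.MVX.StE

set_option autoImplicit false

/-!
# Project MVX, module DH: the Deuring-Heilbronn phenomenon (helper18)
-/

namespace Pool.Agent.MVX

open Finset

/-- values of a real character -/
private lemma dh_real {q : ℕ} (χ : DirichletCharacter ℂ q) (h : χ ^ 2 = 1) (a : ZMod q) :
    (((χ a).re : ℝ) : ℂ) = χ a := by
  rcases MulChar.isQuadratic_iff_sq_eq_one.mpr h a with h1 | h1 | h1 <;> rw [h1] <;> simp

private lemma dh_ax_cast {q : ℕ} (χ : DirichletCharacter ℂ q) (h : χ ^ 2 = 1) (n : ℕ) :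
    ((ax χ n : ℝ) : ℂ) = ∑ d ∈ n.divisors, χ (d : ZMod q) := by
  rw [ax, Complex.ofReal_sum]
  exact Finset.sum_congr rfl fun d _ => dh_real χ h d

private lemma dh_ax_nonneg {q : ℕ} (χ : DirichletCharacter ℂ q) (h : χ ^ 2 = 1) (n : ℕ) :
    0 ≤ ax χ n := by
  have h1 := DirichletCharacter.zetaMul_nonneg h n
  have h2 : χ.zetaMul n = ((ax χ n : ℝ) : ℂ) := by
    rw [dh_ax_cast χ h, DirichletCharacter.zetaMul, ArithmeticFunction.coe_zeta_mul_apply]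
    refine Finset.sum_congr rfl fun d hd => ?_
    have h3 : d ≠ 0 := (Nat.pos_of_mem_divisors hd).ne'
    simp [toArithmeticFunction, h3]
  rw [h2] at h1
  exact_mod_cast h1

private lemma dh_cvA {q q₁ : ℕ} (χ : DirichletCharacter ℂ q) (χ₁ : DirichletCharacter ℂ q₁)
    (h : χ₁ ^ 2 = 1) (n : ℕ) :
    cv (cf χ) (cf (MT.prodChar χ χ₁)) n = ((ax χ₁ n : ℝ) : ℂ) * χ (n : ZMod q) := by
  rw [dh_ax_cast χ₁ h, cv, ← Nat.sum_div_divisors n (fun d => χ₁ (d : ZMod q₁)), Finset.sum_mul]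
  refine Finset.sum_congr rfl fun d hd => ?_
  have h1 : (n : ZMod q) = (d : ZMod q) * ((n / d : ℕ) : ZMod q) := by
    rw [← Nat.cast_mul, Nat.mul_div_cancel' (Nat.dvd_of_mem_divisors hd)]
  rw [cf, cf, MT.prodChar_nat, h1, map_mul]
  ring

private lemma dh_cvB {q₁ : ℕ} (χ₁ : DirichletCharacter ℂ q₁) (h : χ₁ ^ 2 = 1) (n : ℕ) :
    cv (fun _ => 1) (cf χ₁) n = ((ax χ₁ n : ℝ) : ℂ) := by
  rw [dh_ax_cast χ₁ h, cv, ← Nat.sum_div_divisors n (fun d => χ₁ (d : ZMod q₁))]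
  refine Finset.sum_congr rfl fun d hd => ?_
  rw [one_mul, cf]

private lemma dh_sq (θ : ℕ → ℝ) (Y : ℕ) (hθ : ∀ d, θ d ≠ 0 → 1 ≤ d ∧ d ≤ Y) {n : ℕ} (hn : 1 ≤ n) :
    sq θ n = ∑ d ∈ Icc 1 Y, ∑ e ∈ Icc 1 Y, θ d * θ e * (if d.lcm e ∣ n then 1 else 0) := by
  have h1 : ∑ d ∈ n.divisors, θ d = ∑ d ∈ Icc 1 Y, (if d ∣ n then θ d else 0) := by
    rw [← Finset.sum_filter]
    symm
    refine Finset.sum_subset ?_ ?_
    · intro d hd
      rw [Finset.mem_filter] at hd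
      exact Nat.mem_divisors.2 ⟨hd.2, by omega⟩
    · intro d hd hd'
      by_contra h0
      obtain ⟨h2, h3⟩ := hθ d h0
      exact hd' (Finset.mem_filter.2 ⟨Finset.mem_Icc.2 ⟨h2, h3⟩, Nat.dvd_of_mem_divisors hd⟩)
  rw [sq, h1, pow_two, Finset.sum_mul_sum]
  refine Finset.sum_congr rfl fun d _ => Finset.sum_congr rfl fun e _ => ?_
  by_cases hd : d ∣ n
  · by_cases he : e ∣ n
    · rw [if_pos hd, if_pos he, if_pos (Nat.lcm_dvd hd he), mul_one]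
    · rw [if_neg he, if_neg (fun h => he ((Nat.dvd_lcm_right d e).trans h)), mul_zero, mul_zero]
  · rw [if_neg hd, if_neg (fun h => hd ((Nat.dvd_lcm_left d e).trans h)), mul_zero, zero_mul]

/-- expansion of the square of the sieve weight -/
private lemma dh_expand (θ : ℕ → ℝ) (Y : ℕ) (hθ : ∀ d, θ d ≠ 0 → 1 ≤ d ∧ d ≤ Y) (f : ℕ → ℂ) (s : ℂ)
    (x : ℝ) :
    ∑ n ∈ Icc 1 ⌊x⌋₊, f n * ((sq θ n : ℝ) : ℂ) * (n : ℂ) ^ (-s) =
      ∑ d ∈ Icc 1 Y, ∑ e ∈ Icc 1 Y, ((θ d * θ e : ℝ) : ℂ) * SsumD (d.lcm e) f s x := by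
  have h1 : ∀ n ∈ Icc 1 ⌊x⌋₊, f n * ((sq θ n : ℝ) : ℂ) * (n : ℂ) ^ (-s) =
      ∑ d ∈ Icc 1 Y, ∑ e ∈ Icc 1 Y, ((θ d * θ e : ℝ) : ℂ) *
        (if d.lcm e ∣ n then f n * (n : ℂ) ^ (-s) else 0) := by
    intro n hn
    rw [dh_sq θ Y hθ (Finset.mem_Icc.1 hn).1, mul_right_comm, Complex.ofReal_sum, Finset.mul_sum]
    refine Finset.sum_congr rfl fun d _ => ?_
    rw [Complex.ofReal_sum, Finset.mul_sum]
    refine Finset.sum_congr rfl fun e _ => ?_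
    by_cases h : d.lcm e ∣ n
    · rw [if_pos h, if_pos h, mul_one]
      ring
    · rw [if_neg h, if_neg h, mul_zero, mul_zero, Complex.ofReal_zero, mul_zero]
  rw [Finset.sum_congr rfl h1, Finset.sum_comm]
  refine Finset.sum_congr rfl fun d _ => ?_
  rw [Finset.sum_comm]
  refine Finset.sum_congr rfl fun e _ => ?_
  rw [← Finset.mul_sum, SsumD, Finset.sum_filter]

/-- the sum with the sieve weight from the sums over multiples -/
private lemma dh_main (θ : ℕ → ℝ) (Y : ℕ) (hθ : ∀ d, θ d ≠ 0 → 1 ≤ d ∧ d ≤ Y ∧ Squarefree d)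
    (hθ1 : ∀ d, |θ d| ≤ 1) (f : ℕ → ℂ) (s : ℂ) (x : ℝ) (g : ℕ → ℝ) (M : ℂ) (E : ℝ) (hE : 0 ≤ E)
    (hD : ∀ D : ℕ, Squarefree D → ‖SsumD D f s x - M * ((g D : ℝ) : ℂ)‖ ≤ E * (D : ℝ) ^ 2) :
    ‖∑ n ∈ Icc 1 ⌊x⌋₊, f n * ((sq θ n : ℝ) : ℂ) * (n : ℂ) ^ (-s) -
      M * ((∑ d ∈ Icc 1 Y, ∑ e ∈ Icc 1 Y, θ d * θ e * g (d.lcm e) : ℝ) : ℂ)‖ ≤
      E * (Y : ℝ) ^ 6 := by
  rw [dh_expand θ Y (fun d hd => ⟨(hθ d hd).1, (hθ d hd).2.1⟩) f s x, Complex.ofReal_sum,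
    Finset.mul_sum, ← Finset.sum_sub_distrib]
  have h1 : ∀ d ∈ Icc 1 Y, ‖∑ e ∈ Icc 1 Y, ((θ d * θ e : ℝ) : ℂ) * SsumD (d.lcm e) f s x -
      M * ((∑ e ∈ Icc 1 Y, θ d * θ e * g (d.lcm e) : ℝ) : ℂ)‖ ≤ (Y : ℝ) * (E * (Y : ℝ) ^ 4) := by
    intro d hd
    rw [Complex.ofReal_sum, Finset.mul_sum, ← Finset.sum_sub_distrib]
    have h2 : ∀ e ∈ Icc 1 Y, ‖((θ d * θ e : ℝ) : ℂ) * SsumD (d.lcm e) f s x -
        M * ((θ d * θ e * g (d.lcm e) : ℝ) : ℂ)‖ ≤ E * (Y : ℝ) ^ 4 := by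
      intro e he
      by_cases h0 : θ d * θ e = 0
      · rw [h0, zero_mul, Complex.ofReal_zero, zero_mul, mul_zero, sub_zero, norm_zero]
        positivity
      · have hd0 : θ d ≠ 0 := left_ne_zero_of_mul h0
        have he0 : θ e ≠ 0 := right_ne_zero_of_mul h0
        have hsf : Squarefree (d.lcm e) := by
          rw [Nat.squarefree_iff_prime_squarefree]
          intro p hp hpp
          have hpd : Squarefree d := (hθ d hd0).2.2
          have hpe : Squarefree e := (hθ e he0).2.2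
          have hdd : d ≠ 0 := by have := (hθ d hd0).1; omega
          have hee : e ≠ 0 := by have := (hθ e he0).1; omega
          have h5 : p ^ 2 ∣ d.lcm e := by rwa [pow_two]
          rw [hp.pow_dvd_iff_le_factorization (Nat.lcm_ne_zero hdd hee),
            Nat.factorization_lcm hdd hee] at h5
          have h6 := hpd.natFactorization_le_one p
          have h7 := hpe.natFactorization_le_one p
          rw [Finsupp.sup_apply] at h5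
          have h8 := le_sup_iff.1 h5
          omega
        have h3 : ((θ d * θ e : ℝ) : ℂ) * SsumD (d.lcm e) f s x -
            M * ((θ d * θ e * g (d.lcm e) : ℝ) : ℂ) = ((θ d * θ e : ℝ) : ℂ) *
            (SsumD (d.lcm e) f s x - M * ((g (d.lcm e) : ℝ) : ℂ)) := by
          push_cast
          ring
        rw [h3, norm_mul, Complex.norm_real, Real.norm_eq_abs, abs_mul]
        have h4 : |θ d| * |θ e| ≤ 1 := mul_le_one₀ (hθ1 d) (abs_nonneg _) (hθ1 e)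
        refine (mul_le_of_le_one_left (norm_nonneg _) h4).trans ((hD _ hsf).trans ?_)
        refine mul_le_mul_of_nonneg_left ?_ hE
        have h5 : ((d.lcm e : ℕ) : ℝ) ≤ (Y : ℝ) ^ 2 := by
          have h6 : d.lcm e ≤ Y ^ 2 := by
            refine (Nat.le_of_dvd ?_ (Nat.lcm_dvd_mul d e)).trans ?_
            · exact Nat.mul_pos (hθ d hd0).1 (hθ e he0).1
            · rw [pow_two]
              exact Nat.mul_le_mul (hθ d hd0).2.1 (hθ e he0).2.1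
          exact_mod_cast h6
        calc ((d.lcm e : ℕ) : ℝ) ^ 2 ≤ ((Y : ℝ) ^ 2) ^ 2 := pow_le_pow_left₀ (Nat.cast_nonneg _) h5 2
          _ = (Y : ℝ) ^ 4 := by ring
    refine (norm_sum_le_of_le _ h2).trans ?_
    rw [Finset.sum_const, Nat.card_Icc, nsmul_eq_mul, Nat.add_sub_cancel]
  refine (norm_sum_le_of_le _ h1).trans ?_
  rw [Finset.sum_const, Nat.card_Icc, nsmul_eq_mul, Nat.add_sub_cancel]
  refine le_of_eq ?_
  ring

/-- the final step, from the bound of the whole sum -/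
private lemma dh_tail (a : ℕ → ℝ) (ha : ∀ n, 0 ≤ a n) (w : ℕ → ℝ) (hw : ∀ n, 0 ≤ w n) (f : ℕ → ℂ)
    (hf : ∀ n, ‖f n‖ ≤ a n) (hf1 : f 1 = 1) (hw1 : w 1 = 1) (x : ℝ) (hx : 1 ≤ x) (ρ : ℂ) (β : ℝ)
    (hβ : β ≤ 1) (hρ : ρ.re ≤ 1) (B A : ℝ)
    (hA : ‖∑ n ∈ Icc 1 ⌊x⌋₊, f n * ((w n : ℝ) : ℂ) * (n : ℂ) ^ (-ρ)‖ ≤ A)
    (hB : ∑ n ∈ Icc 2 ⌊x⌋₊, a n * w n * (n : ℝ) ^ (-β) ≤ B) :
    1 ≤ A + x ^ (1 - ρ.re) * B := by
  have hX : 1 ≤ ⌊x⌋₊ := by
    rw [Nat.one_le_floor_iff]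
    exact hx
  have h1 : Icc 1 ⌊x⌋₊ = insert 1 (Icc 2 ⌊x⌋₊) := by
    ext n
    simp only [Finset.mem_insert, Finset.mem_Icc]
    omega
  rw [h1, Finset.sum_insert (by simp), hf1, hw1, Complex.ofReal_one, mul_one, Nat.cast_one,
    Complex.one_cpow, mul_one] at hA
  have h2 : ‖∑ n ∈ Icc 2 ⌊x⌋₊, f n * ((w n : ℝ) : ℂ) * (n : ℂ) ^ (-ρ)‖ ≤ x ^ (1 - ρ.re) * B := by
    have h3 : ∀ n ∈ Icc 2 ⌊x⌋₊, ‖f n * ((w n : ℝ) : ℂ) * (n : ℂ) ^ (-ρ)‖ ≤
        x ^ (1 - ρ.re) * (a n * w n * (n : ℝ) ^ (-β)) := by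
      intro n hn
      rw [Finset.mem_Icc] at hn
      have hn0 : 0 < n := by omega
      have hn1 : (1 : ℝ) ≤ n := by exact_mod_cast hn0
      have hnx : (n : ℝ) ≤ x := (Nat.le_floor_iff (by linarith)).1 hn.2
      rw [norm_mul, norm_mul, Complex.norm_natCast_cpow_of_pos hn0, Complex.norm_real,
        Real.norm_eq_abs, abs_of_nonneg (hw n), Complex.neg_re]
      have h4 : (n : ℝ) ^ (-ρ.re) ≤ x ^ (1 - ρ.re) * (n : ℝ) ^ (-β) := by
        have h5 : (n : ℝ) ^ (-ρ.re) = (n : ℝ) ^ (β - ρ.re) * (n : ℝ) ^ (-β) := by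
          rw [← Real.rpow_add (by linarith)]
          congr 1
          ring
        rw [h5]
        refine mul_le_mul_of_nonneg_right ?_ (Real.rpow_nonneg (by linarith) _)
        calc (n : ℝ) ^ (β - ρ.re) ≤ (n : ℝ) ^ (1 - ρ.re) :=
              Real.rpow_le_rpow_of_exponent_le hn1 (by linarith)
          _ ≤ x ^ (1 - ρ.re) := Real.rpow_le_rpow (by linarith) hnx (by linarith)
      calc ‖f n‖ * w n * (n : ℝ) ^ (-ρ.re)
          ≤ a n * w n * (x ^ (1 - ρ.re) * (n : ℝ) ^ (-β)) :=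
            mul_le_mul (mul_le_mul_of_nonneg_right (hf n) (hw n)) h4
              (Real.rpow_nonneg (by linarith) _) (mul_nonneg (ha n) (hw n))
        _ = x ^ (1 - ρ.re) * (a n * w n * (n : ℝ) ^ (-β)) := by ring
    refine (norm_sum_le_of_le _ h3).trans ?_
    rw [← Finset.mul_sum]
    exact mul_le_mul_of_nonneg_left hB (Real.rpow_nonneg (by linarith) _)
  have h3 : ‖(1 : ℂ)‖ ≤ ‖(1 : ℂ) + ∑ n ∈ Icc 2 ⌊x⌋₊, f n * ((w n : ℝ) : ℂ) * (n : ℂ) ^ (-ρ)‖ +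
      ‖∑ n ∈ Icc 2 ⌊x⌋₊, f n * ((w n : ℝ) : ℂ) * (n : ℂ) ^ (-ρ)‖ := by
    have := norm_sub_le ((1 : ℂ) + ∑ n ∈ Icc 2 ⌊x⌋₊, f n * ((w n : ℝ) : ℂ) * (n : ℂ) ^ (-ρ))
      (∑ n ∈ Icc 2 ⌊x⌋₊, f n * ((w n : ℝ) : ℂ) * (n : ℂ) ^ (-ρ))
    rwa [add_sub_cancel_right] at this
  rw [norm_one] at h3
  linarith

/-- **DH** (Deuring-Heilbronn). -/
theorem thm_DH (h1 : St_Mass) (h2 : St_DD1) (h3 : St_DD2) (h4 : St_Exc) (h5 : St_L0) : St_DH := by
  obtain ⟨CM, TM, hCM, hTM, hM⟩ := h1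
  obtain ⟨C₁, hC₁, hD1⟩ := h2
  obtain ⟨C₂, hC₂, hD2⟩ := h3
  obtain ⟨c₀, TE, hc₀, hc₀1, hTE, hE⟩ := h4
  set C := max 1000 (2 * CM * (1 / c₀ + 1)) with hC
  have hC0 : 0 < C := lt_of_lt_of_le (by norm_num) (le_max_left _ _)
  refine ⟨C, c₀, max (max TM TE) (max (16 * C₁) (32 * C₂ / c₀)), hC0, hc₀,
    hTM.trans ((le_max_left _ _).trans (le_max_left _ _)), ?_⟩
  intro T hT q₁ _ χ₁ hp₁ hχ₁ hne₁ hq₁ β₁ hβ₁ hβ₁1 hL₁ q _ χ hp hq ρ hρ hLρ hnot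
  have hTM' : TM ≤ T := ((le_max_left _ _).trans (le_max_left _ _)).trans hT
  have hTE' : TE ≤ T := ((le_max_right _ _).trans (le_max_left _ _)).trans hT
  have hTC₁ : 16 * C₁ ≤ T := ((le_max_left _ _).trans (le_max_right _ _)).trans hT
  have hTC₂ : 32 * C₂ / c₀ ≤ T := ((le_max_right _ _).trans (le_max_right _ _)).trans hT
  have hT2 : 2 ≤ T := hTM.trans hTM'
  have hT0 : 0 < T := by linarith
  have hT1 : 1 ≤ T := by linarith
  have hL0 : 0 < Real.log T := Real.log_pos (by linarith)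
  have hlogT : Real.log T ≤ T := (Real.log_le_sub_one_of_pos hT0).trans (by linarith)
  have hβM : 1 - 1 / Real.log T ≤ β₁ := by
    have : c₀ / Real.log T ≤ 1 / Real.log T := div_le_div_of_nonneg_right hc₀1 hL0.le
    linarith
  obtain ⟨θ, hθ1, hθs, hθa, hmass, hS⟩ := hM T hTM' q₁ χ₁ hχ₁ hne₁ hq₁ β₁ hβM hβ₁1 hL₁
  set x : ℝ := T ^ 1000 with hx
  set Y : ℕ := ⌊T ^ 32⌋₊ with hY
  have hx1 : 1 ≤ x := one_le_pow₀ hT1
  have hx0 : 0 < x := by linarith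
  have hYT : (Y : ℝ) ≤ T ^ 32 := Nat.floor_le (by positivity)
  have hY6 : (Y : ℝ) ^ 6 ≤ T ^ 192 := by
    calc (Y : ℝ) ^ 6 ≤ (T ^ 32) ^ 6 := pow_le_pow_left₀ (Nat.cast_nonneg _) hYT 6
      _ = T ^ 192 := by ring
  have hθY : ∀ d, θ d ≠ 0 → 1 ≤ d ∧ d ≤ Y ∧ Squarefree d := by
    intro d hd
    obtain ⟨e1, e2, e3⟩ := hθs d hd
    exact ⟨e1, Nat.le_floor e2, e3⟩
  have hρ1 : ρ.re ≤ 1 := hρ.2.1
  have hρn : ‖ρ‖ ≤ 1 + T := by
    refine (Complex.norm_le_abs_re_add_abs_im ρ).trans ?_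
    have e1 : |ρ.re| ≤ 1 := by
      rw [abs_le]
      constructor <;> linarith [hρ.1]
    linarith [hρ.2.2]
  have hρs : (1 + ‖ρ‖) ^ 2 ≤ 4 * T ^ 2 := by
    have e1 : 1 + ‖ρ‖ ≤ 2 * T := by linarith
    calc (1 + ‖ρ‖) ^ 2 ≤ (2 * T) ^ 2 := pow_le_pow_left₀ (by positivity) e1 2
      _ = 4 * T ^ 2 := by ring
  have hsq1 : sq θ 1 = 1 := by
    rw [sq, Nat.divisors_one, Finset.sum_singleton, hθ1, one_pow]
  have hsq0 : ∀ n, 0 ≤ sq θ n := fun n => sq_nonneg _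
  have hax0 := dh_ax_nonneg χ₁ hχ₁
  have hax1 : ax χ₁ 1 = 1 := by
    rw [ax, Nat.divisors_one, Finset.sum_singleton, Nat.cast_one, map_one, Complex.one_re]
  have hδ0 : 0 < 1 - β₁ := by linarith
  have hxT : x ^ (1 - ρ.re) ≤ T ^ (C * (1 - ρ.re)) := by
    rw [hx, ← Real.rpow_natCast T 1000, ← Real.rpow_mul hT0.le]
    refine Real.rpow_le_rpow_of_exponent_le hT1 ?_
    refine mul_le_mul_of_nonneg_right ?_ (by linarith)
    push_cast
    exact le_max_left _ _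
  -- the end of both cases
  have hfin : ∀ A : ℝ, A ≤ 1 / 4 + CM * (1 / c₀) * ((1 - β₁) * Real.log T) * x ^ (1 - ρ.re) →
      1 ≤ A + x ^ (1 - ρ.re) * (CM * ((1 - β₁) * Real.log T)) →
      1 ≤ C * ((1 - β₁) * Real.log T) * T ^ (C * (1 - ρ.re)) := by
    intro A hA1 hA2
    have e0 : 0 < x ^ (1 - ρ.re) := Real.rpow_pos_of_pos hx0 _
    have e1 : 0 < (1 - β₁) * Real.log T := mul_pos hδ0 hL0
    have e2 : 1 ≤ 2 * CM * (1 / c₀ + 1) * ((1 - β₁) * Real.log T) * x ^ (1 - ρ.re) := by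
      have e3 : 0 < CM * (1 / c₀) * ((1 - β₁) * Real.log T) * x ^ (1 - ρ.re) := by positivity
      have e4 : 0 < CM * ((1 - β₁) * Real.log T) * x ^ (1 - ρ.re) := by positivity
      nlinarith [hA1, hA2, e3, e4]
    refine e2.trans ?_
    refine mul_le_mul (mul_le_mul_of_nonneg_right (le_max_right _ _) e1.le) hxT e0.le ?_
    exact mul_nonneg hC0.le e1.le
  have h38 : x ^ (-(3 / 8 : ℝ)) = (T ^ 375)⁻¹ := by
    rw [hx, ← Real.rpow_natCast T 1000, ← Real.rpow_mul hT0.le,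
      show ((1000 : ℕ) : ℝ) * (-(3 / 8)) = -((375 : ℕ) : ℝ) by norm_num, Real.rpow_neg hT0.le,
      Real.rpow_natCast]
  have h14 : x ^ (-(1 / 4 : ℝ)) = (T ^ 250)⁻¹ := by
    rw [hx, ← Real.rpow_natCast T 1000, ← Real.rpow_mul hT0.le,
      show ((1000 : ℕ) : ℝ) * (-(1 / 4)) = -((250 : ℕ) : ℝ) by norm_num, Real.rpow_neg hT0.le,
      Real.rpow_natCast]
  have hχ₁inv : χ₁⁻¹ = χ₁ := by
    rw [inv_eq_iff_mul_eq_one, ← pow_two]
    exact hχ₁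
  by_cases hA : χ ≠ 1 ∧ Dif χ χ₁
  · -- Case A
    obtain ⟨hχ, hdif⟩ := hA
    rw [Dif, hχ₁inv] at hdif
    have hLz : χ.LFunction ρ * (MT.prodChar χ χ₁).LFunction ρ = 0 := by
      rw [Lf_of_ne hχ] at hLρ
      rw [hLρ, zero_mul]
    set E := C₁ * (T ^ 2) ^ 2 * (1 + ‖ρ‖) ^ 2 * x ^ (-(3 / 8 : ℝ)) with hEdef
    have hE0 : 0 ≤ E := by positivity
    have hDD := dh_main θ Y hθY hθa (cv (cf χ) (cf (MT.prodChar χ χ₁))) ρ x (fun _ => 0) 0 E hE0 (by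
      intro D hD
      rw [zero_mul, sub_zero]
      have e1 := hD1 q (q * q₁) χ (MT.prodChar χ χ₁) (T ^ 2) hχ hdif
        (hq.trans (by nlinarith)) (by
          push_cast
          calc (q : ℝ) * q₁ ≤ T * T := mul_le_mul hq hq₁ (Nat.cast_nonneg _) hT0.le
            _ = T ^ 2 := by ring) ρ hρ.1 hρ1 hLz D hD x hx0
      refine e1.trans (le_of_eq ?_)
      rw [hEdef]
      ring)
    rw [zero_mul, sub_zero] at hDD
    have hEY : E * (Y : ℝ) ^ 6 ≤ 1 / 4 := by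
      have e1 : E ≤ C₁ * (T ^ 2) ^ 2 * (4 * T ^ 2) * (T ^ 375)⁻¹ := by
        rw [hEdef, h38]
        refine mul_le_mul_of_nonneg_right ?_ (by positivity)
        exact mul_le_mul_of_nonneg_left hρs (by positivity)
      have e2 : E * (Y : ℝ) ^ 6 ≤ C₁ * (T ^ 2) ^ 2 * (4 * T ^ 2) * (T ^ 375)⁻¹ * T ^ 192 :=
        mul_le_mul e1 hY6 (by positivity) (by positivity)
      have e3 : C₁ * (T ^ 2) ^ 2 * (4 * T ^ 2) * (T ^ 375)⁻¹ * T ^ 192 = 4 * C₁ / T ^ 177 := by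
        have e4 : T ^ 375 = T ^ 198 * T ^ 177 := by ring
        rw [e4]
        field_simp
      rw [e3] at e2
      refine e2.trans ?_
      rw [div_le_iff₀ (by positivity)]
      have e5 : T ≤ T ^ 177 := le_self_pow₀ hT1 (by norm_num)
      linarith
    refine hfin (1 / 4) ?_ (dh_tail (ax χ₁) hax0 (sq θ) hsq0 (cv (cf χ) (cf (MT.prodChar χ χ₁))) ?_ ?_ hsq1 x
      hx1 ρ β₁ hβ₁1.le hρ1 _ (1 / 4) (hDD.trans hEY) hmass)
    · have e0 : 0 < x ^ (1 - ρ.re) := Real.rpow_pos_of_pos hx0 _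
      have e1 : 0 ≤ CM * (1 / c₀) * ((1 - β₁) * Real.log T) * x ^ (1 - ρ.re) := by positivity
      linarith
    · intro n
      rw [dh_cvA χ χ₁ hχ₁ n, norm_mul, Complex.norm_real, Real.norm_eq_abs, abs_of_nonneg (hax0 n)]
      exact mul_le_of_le_one_right (hax0 n) (χ.norm_le_one _)
    · rw [dh_cvA χ χ₁ hχ₁ 1, hax1, Nat.cast_one, map_one, Complex.ofReal_one, one_mul]
  · -- Case B
    have hρne : ρ ≠ 1 := by
      rintro rfl
      exact Lf_ne_zero χ (by simp) hLρ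
    have hzL : riemannZeta ρ * χ₁.LFunction ρ = 0 := by
      by_cases hχ : χ = 1
      · subst hχ
        have e1 : q = 1 := by
          rw [DirichletCharacter.isPrimitive_def, DirichletCharacter.conductor_one] at hp
          exact hp.symm
        subst e1
        rw [Lf_eq_zero_iff _ hρne, DirichletCharacter.LFunction_modOne_eq] at hLρ
        rw [hLρ, zero_mul]
      · have e1 : ¬ Dif χ χ₁ := fun h => hA ⟨hχ, h⟩
        have e2 := h5 q q₁ χ χ₁ hp hp₁ e1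
        obtain ⟨e3, e4⟩ := Sigma.mk.inj_iff.1 e2
        subst e3
        have e5 := eq_of_heq e4
        subst e5
        rw [Lf_of_ne hχ] at hLρ
        rw [hLρ, mul_zero]
    have hout : c₀ / Real.log T ≤ ‖1 - ρ‖ := by
      have e1 : ρ.re < 1 - c₀ / Real.log T := by
        by_contra hcon
        push Not at hcon
        have hβr : (β₁ : ℂ) ∈ rect (1 - c₀ / Real.log T) T := by
          refine ⟨?_, ?_, ?_⟩
          · rw [Complex.ofReal_re]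
            exact hβ₁
          · rw [Complex.ofReal_re]
            exact hβ₁1.le
          · rw [Complex.ofReal_im, abs_zero]
            exact hT0.le
        have e2 := (hE T hTE' q₁ χ₁ hp₁ hq₁ (β₁ : ℂ) hβr (by rw [Lf_of_ne hne₁]; exact hL₁)).2.2.2.2
          q χ hp hq ρ ⟨hcon, hρ.2.1, hρ.2.2⟩ hLρ
        exact hnot e2
      have e2 : (1 - ρ).re ≤ ‖1 - ρ‖ := Complex.re_le_norm _
      rw [Complex.sub_re, Complex.one_re] at e2
      linarith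
    have hc : 0 < c₀ / Real.log T := div_pos hc₀ hL0
    have hinv : 1 / ‖1 - ρ‖ ≤ Real.log T / c₀ := by
      rw [div_le_iff₀ (lt_of_lt_of_le hc hout)]
      calc (1 : ℝ) = Real.log T / c₀ * (c₀ / Real.log T) := by field_simp
        _ ≤ Real.log T / c₀ * ‖1 - ρ‖ := mul_le_mul_of_nonneg_left hout (by positivity)
    set E := C₂ * (q₁ : ℝ) ^ 2 * (1 + ‖ρ‖) ^ 2 * (1 + 1 / ‖1 - ρ‖) * x ^ (-(1 / 4 : ℝ)) with hEdef
    have hE0 : 0 ≤ E := by positivity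
    set M : ℂ := χ₁.LFunction 1 * ((x : ℂ) ^ (1 - ρ) / (1 - ρ)) with hMdef
    have hDD := dh_main θ Y hθY hθa (cv (fun _ => 1) (cf χ₁)) ρ x (pr (ga χ₁)) M E hE0 (by
      intro D hD
      have e1 := hD2 q₁ χ₁ hne₁ hχ₁ ρ hρ.1 hρ1 hρne hzL D hD x hx0
      refine e1.trans (le_of_eq ?_)
      rw [hEdef]
      ring)
    have hEY : E * (Y : ℝ) ^ 6 ≤ 1 / 4 := by
      have hlog2 : 1 + 1 / ‖1 - ρ‖ ≤ 2 * T / c₀ := by
        have e1 : Real.log T / c₀ ≤ T / c₀ := div_le_div_of_nonneg_right hlogT hc₀.le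
        have e2 : 1 ≤ T / c₀ := by
          rw [le_div_iff₀ hc₀]
          linarith
        have e3 : 2 * T / c₀ = T / c₀ + T / c₀ := by ring
        rw [e3]
        linarith
      have e1 : E ≤ C₂ * T ^ 2 * (4 * T ^ 2) * (2 * T / c₀) * (T ^ 250)⁻¹ := by
        rw [hEdef, h14]
        refine mul_le_mul_of_nonneg_right ?_ (by positivity)
        refine mul_le_mul ?_ hlog2 (by positivity) (by positivity)
        refine mul_le_mul ?_ hρs (by positivity) (by positivity)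
        exact mul_le_mul_of_nonneg_left (pow_le_pow_left₀ (Nat.cast_nonneg _) hq₁ 2) hC₂.le
      have e2 : E * (Y : ℝ) ^ 6 ≤
          C₂ * T ^ 2 * (4 * T ^ 2) * (2 * T / c₀) * (T ^ 250)⁻¹ * T ^ 192 :=
        mul_le_mul e1 hY6 (by positivity) (by positivity)
      have e3 : C₂ * T ^ 2 * (4 * T ^ 2) * (2 * T / c₀) * (T ^ 250)⁻¹ * T ^ 192 =
          8 * C₂ / c₀ / T ^ 53 := by
        have e4 : T ^ 250 = T ^ 197 * T ^ 53 := by ring
        rw [e4]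
        field_simp
        ring
      rw [e3] at e2
      refine e2.trans ?_
      rw [div_le_iff₀ (by positivity)]
      have e5 : T ≤ T ^ 53 := le_self_pow₀ hT1 (by norm_num)
      have e6 : 8 * C₂ / c₀ = 1 / 4 * (32 * C₂ / c₀) := by ring
      rw [e6]
      exact mul_le_mul_of_nonneg_left (hTC₂.trans e5) (by norm_num)
    set S : ℝ := ∑ d ∈ Icc 1 Y, ∑ e ∈ Icc 1 Y, θ d * θ e * pr (ga χ₁) (d.lcm e) with hSdef
    have hMS : ‖M * ((S : ℝ) : ℂ)‖ ≤ CM * (1 / c₀) * ((1 - β₁) * Real.log T) * x ^ (1 - ρ.re) := by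
      rw [hMdef, norm_mul, norm_mul, norm_div, Complex.norm_real, Real.norm_eq_abs,
        Complex.norm_cpow_eq_rpow_re_of_pos hx0, Complex.sub_re, Complex.one_re]
      have e1 : ‖χ₁.LFunction 1‖ * (x ^ (1 - ρ.re) / ‖1 - ρ‖) * |S| =
          (‖χ₁.LFunction 1‖ * |S|) * x ^ (1 - ρ.re) * (1 / ‖1 - ρ‖) := by ring
      rw [e1]
      calc ‖χ₁.LFunction 1‖ * |S| * x ^ (1 - ρ.re) * (1 / ‖1 - ρ‖)
          ≤ CM * (1 - β₁) * x ^ (1 - ρ.re) * (Real.log T / c₀) := by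
            refine mul_le_mul ?_ hinv (by positivity) (by positivity)
            exact mul_le_mul_of_nonneg_right hS (by positivity)
        _ = CM * (1 / c₀) * ((1 - β₁) * Real.log T) * x ^ (1 - ρ.re) := by ring
    have htot : ‖∑ n ∈ Icc 1 ⌊x⌋₊, cv (fun _ => 1) (cf χ₁) n * ((sq θ n : ℝ) : ℂ) *
        (n : ℂ) ^ (-ρ)‖ ≤ 1 / 4 + CM * (1 / c₀) * ((1 - β₁) * Real.log T) * x ^ (1 - ρ.re) := by
      have e1 := norm_le_insert' (∑ n ∈ Icc 1 ⌊x⌋₊, cv (fun _ => 1) (cf χ₁) n *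
        ((sq θ n : ℝ) : ℂ) * (n : ℂ) ^ (-ρ)) (M * ((S : ℝ) : ℂ))
      refine e1.trans ?_
      linarith [hDD.trans hEY, hMS]
    refine hfin _ le_rfl (dh_tail (ax χ₁) hax0 (sq θ) hsq0 (cv (fun _ => 1) (cf χ₁)) ?_ ?_ hsq1 x
      hx1 ρ β₁ hβ₁1.le hρ1 _ _ htot hmass)
    · intro n
      rw [dh_cvB χ₁ hχ₁ n, Complex.norm_real, Real.norm_eq_abs, abs_of_nonneg (hax0 n)]
    · rw [dh_cvB χ₁ hχ₁ 1, hax1, Complex.ofReal_one]

end Pool.Agent.MVX
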