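import Pool.Agent.MVX.StD

set_option autoImplicit false

/-!
# Project MVX, L-core: log-free zero density for spaced zeros
-/

namespace Pool.Agent.MVX

open Finset

private theorem dens_summable : Summable fun k : ℤ => 4 / (1 + (k : ℝ) ^ 2) := by
  have h1 : Summable fun k : ℤ => 4 * (1 / (k : ℝ) ^ 2) :=
    (Real.summable_one_div_int_pow.2 one_lt_two).mul_left 4
  have h2 : Summable fun k : ℤ => if k = 0 then (4 : ℝ) else 0 :=
    summable_of_ne_finset_zero (s := {0}) fun k hk => by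
      rw [mem_singleton] at hk
      simp [hk]
  refine Summable.of_nonneg_of_le (fun k => by positivity) (fun k => ?_) (h1.add h2)
  by_cases hk : k = 0
  · subst hk
    simp
  · have h3 : (0 : ℝ) < (k : ℝ) ^ 2 := by positivity
    simp only [hk, if_false, add_zero]
    rw [mul_one_div]
    apply div_le_div_of_nonneg_left (by norm_num) h3
    linarith

/-- separated points -/
private theorem dens_sep {ι : Type} (J : Finset ι) (x : ι → ℝ)
    (hx : ∀ i ∈ J, ∀ j ∈ J, i ≠ j → 1 ≤ |x i - x j|) :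
    ∑ j ∈ J, 1 / (1 + x j ^ 2) ≤ ∑' k : ℤ, 4 / (1 + (k : ℝ) ^ 2) := by
  classical
  have h1 : ∀ j, 1 / (1 + x j ^ 2) ≤ 4 / (1 + ((⌊x j⌋ : ℤ) : ℝ) ^ 2) := by
    intro j
    have e1 := Int.floor_le (x j)
    have e2 := Int.lt_floor_add_one (x j)
    set k := ⌊x j⌋
    rw [div_le_div_iff₀ (by positivity) (by positivity)]
    rcases le_or_gt 0 k with hk | hk
    · have hk' : (0 : ℝ) ≤ k := by exact_mod_cast hk
      nlinarith
    · have hk' : (k : ℝ) ≤ -1 := by
        have : k ≤ -1 := by omega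
        exact_mod_cast this
      nlinarith [sq_nonneg ((k : ℝ) + 4 / 3), mul_nonneg (by linarith : (0 : ℝ) ≤ -1 - k)
        (by linarith : (0 : ℝ) ≤ k + 1 - x j), sq_nonneg (x j - k - 1)]
  have h2 : Set.InjOn (fun j => ⌊x j⌋) (J : Set ι) := by
    intro i hi j hj h
    by_contra hne
    have h3 := hx i hi j hj hne
    have h4 := Int.abs_sub_lt_one_of_floor_eq_floor h
    linarith
  calc ∑ j ∈ J, 1 / (1 + x j ^ 2) ≤ ∑ j ∈ J, 4 / (1 + ((⌊x j⌋ : ℤ) : ℝ) ^ 2) :=
        sum_le_sum fun j _ => h1 j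
    _ = ∑ k ∈ J.image fun j => ⌊x j⌋, 4 / (1 + (k : ℝ) ^ 2) := by
        rw [sum_image h2]
    _ ≤ ∑' k : ℤ, 4 / (1 + (k : ℝ) ^ 2) :=
        dens_summable.sum_le_tsum _ fun k _ => by positivity

private theorem dens_lp_mono {x y : ℝ} (hx : 0 < x) (h : x ≤ y) : lp x ≤ lp y :=
  max_le_max le_rfl (Real.log_le_log hx h)

private theorem dens_VT_nonneg {T u : ℝ} (hT : 1 < T) (hu : 0 < u) : 0 ≤ VT T u := by
  have hT0 : 0 < T := by linarith
  have hL : 0 < Real.log T := Real.log_pos hT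
  have hlog : ∀ n : ℕ, Real.log (T ^ n / u) = n * Real.log T - Real.log u := fun n => by
    rw [Real.log_div (by positivity) hu.ne', Real.log_pow]
  unfold VT lp
  apply div_nonneg _ (by linarith)
  rw [hlog, hlog, hlog, hlog]
  push_cast
  rcases le_total 0 (42 * Real.log T - Real.log u) with h1 | h1 <;>
  rcases le_total 0 (40 * Real.log T - Real.log u) with h2 | h2 <;>
  rcases le_total 0 (12 * Real.log T - Real.log u) with h3 | h3 <;>
  rcases le_total 0 (10 * Real.log T - Real.log u) with h4 | h4 <;>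
  simp only [max_eq_left, max_eq_right, h1, h2, h3, h4] <;> linarith

private theorem dens_VT_one {T u : ℝ} (hT : 1 < T) (h1 : T ^ 12 ≤ u) (h2 : u ≤ T ^ 40) :
    1 ≤ VT T u := by
  have hT0 : 0 < T := by linarith
  have hu : 0 < u := lt_of_lt_of_le (by positivity) h1
  have hL : 0 < Real.log T := Real.log_pos hT
  have hlog : ∀ n : ℕ, Real.log (T ^ n / u) = n * Real.log T - Real.log u := fun n => by
    rw [Real.log_div (by positivity) hu.ne', Real.log_pow]
  have h3 : 12 * Real.log T ≤ Real.log u := by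
    have := Real.log_le_log (by positivity) h1
    rw [Real.log_pow] at this
    exact_mod_cast this
  have h4 : Real.log u ≤ 40 * Real.log T := by
    have := Real.log_le_log hu h2
    rw [Real.log_pow] at this
    exact_mod_cast this
  unfold VT lp
  rw [hlog, hlog, hlog, hlog, le_div_iff₀ (by linarith)]
  push_cast
  rw [max_eq_right (by linarith : (0 : ℝ) ≤ 42 * Real.log T - Real.log u),
    max_eq_right (by linarith : (0 : ℝ) ≤ 40 * Real.log T - Real.log u),
    max_eq_left (by linarith : 12 * Real.log T - Real.log u ≤ 0),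
    max_eq_left (by linarith : 10 * Real.log T - Real.log u ≤ 0)]
  linarith

private theorem dens_prod_one (d e : Chr) (h : d = e) : MT.prodChar d.2 e.2⁻¹ = 1 := by
  subst h
  unfold MT.prodChar
  rw [map_inv]
  exact mul_inv_cancel _

theorem thm_Dens (h1 : St_Det) (h2 : St_DuN) (h3 : St_DuP) (h4 : St_Dua) (h5 : St_Fsq) :
    St_Dens := by
  classical
  obtain ⟨T₁, hT₁, hDet⟩ := h1
  obtain ⟨T₂, hT₂, hDuN⟩ := h2
  obtain ⟨C₃, T₃, hC₃, hT₃, hDuP⟩ := h3
  obtain ⟨C₅, hC₅, hFsq⟩ := h5 4 (by norm_num)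
  set Cs : ℝ := ∑' k : ℤ, 4 / (1 + (k : ℝ) ^ 2) with hCs
  have hCs0 : 0 ≤ Cs := tsum_nonneg fun k => by positivity
  refine ⟨8 * C₅ * C₃ * Cs + 2 * C₃, T₁ + T₂ + T₃ + 8 * C₅, by positivity, by nlinarith, ?_⟩
  intro T hT η hη0 hη1 ι _ c _ ρ hc hρ hz hone hdif hsp
  have hTT₁ : T₁ ≤ T := by linarith
  have hTT₂ : T₂ ≤ T := by linarith
  have hTT₃ : T₃ ≤ T := by linarith
  have hTC : 8 * C₅ ≤ T := by linarith
  have hT2 : 2 ≤ T := by linarith
  have hT0 : 0 < T := by linarith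
  have hT1 : 1 < T := by linarith
  have hL : 0 < Real.log T := Real.log_pos hT1
  set R := Icc 1 ⌊T ^ 42⌋₊ with hR
  set R' := Ioc ⌊T ^ 12⌋₊ ⌊T ^ 40⌋₊ with hR'
  have hRR : R' ⊆ R := by
    intro n hn
    rw [hR', mem_Ioc] at hn
    rw [hR, mem_Icc]
    refine ⟨by omega, hn.2.trans (Nat.floor_le_floor ?_)⟩
    exact pow_le_pow_right₀ hT1.le (by norm_num)
  have hR'1 : ∀ n ∈ R', T ^ 12 ≤ (n : ℝ) ∧ (n : ℝ) ≤ T ^ 40 := by
    intro n hn
    rw [hR', mem_Ioc] at hn
    refine ⟨((Nat.floor_lt (by positivity)).1 hn.1).le, ?_⟩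
    exact (Nat.le_floor_iff (by positivity)).1 hn.2
  have hRpos : ∀ n ∈ R, 0 < n := by
    intro n hn
    rw [hR, mem_Icc] at hn
    omega
  set a : ℕ → ℂ := fun n => if n ∈ R' then ((fBV (T ^ 12) n : ℝ) : ℂ) * (n : ℂ) ^ (-(1 / 2 : ℂ))
    else 0 with ha
  set b : ι → ℕ → ℂ := fun i n => ((gw T n : ℝ) : ℂ) * ((c i).2 (n : ZMod (c i).1)) *
    (n : ℂ) ^ ((1 / 2 : ℂ) - ρ i) with hb
  -- the Gram matrix
  set w : ι → ι → ℂ := fun i j => ρ i + (starRingEnd ℂ) (ρ j) - 1 with hw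
  have hwre : ∀ i j, (w i j).re = (ρ i).re + (ρ j).re - 1 := fun i j => by simp [hw]
  have hwim : ∀ i j, (w i j).im = (ρ i).im - (ρ j).im := fun i j => by
    simp [hw, sub_eq_add_neg]
  have hw1 : ∀ i j, 1 - 2 * η ≤ (w i j).re := fun i j => by
    rw [hwre]
    linarith [(hρ i).1, (hρ j).1]
  have hw2 : ∀ i j, (w i j).re ≤ 1 := fun i j => by
    rw [hwre]
    linarith [(hρ i).2.1, (hρ j).2.1]
  have hw3 : ∀ i j, |(w i j).im| ≤ 2 * T := fun i j => by
    rw [hwim]
    have := abs_sub (ρ i).im (ρ j).im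
    linarith [(hρ i).2.2, (hρ j).2.2]
  have hS : ∀ i j, ∑ n ∈ R, (VT T n : ℂ) * (b i n * (starRingEnd ℂ) (b j n)) =
      ∑ n ∈ R, (((VT T n * gw T n ^ 2 : ℝ) : ℂ) *
        MT.prodChar (c i).2 (c j).2⁻¹ (n : ZMod ((c i).1 * (c j).1))) * (n : ℂ) ^ (-(w i j)) := by
    intro i j
    refine sum_congr rfl fun n hn => ?_
    have hn0 : (n : ℂ) ≠ 0 := by exact_mod_cast (hRpos n hn).ne'
    have e1 : (starRingEnd ℂ) ((c j).2 (n : ZMod (c j).1)) = (c j).2⁻¹ (n : ZMod (c j).1) :=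
      MulChar.star_apply' _ _
    have e2 : (starRingEnd ℂ) ((n : ℂ) ^ ((1 / 2 : ℂ) - ρ j)) =
        (n : ℂ) ^ ((1 / 2 : ℂ) - (starRingEnd ℂ) (ρ j)) := by
      have e4 : (1 / 2 : ℂ) - (starRingEnd ℂ) (ρ j) = (starRingEnd ℂ) ((1 / 2 : ℂ) - ρ j) := by
        rw [map_sub, map_div₀, map_one, Complex.conj_ofNat]
      rw [e4, Complex.cpow_conj _ _ (by rw [Complex.natCast_arg]; exact Real.pi_pos.ne),
        Complex.conj_natCast]
    have e3 : (n : ℂ) ^ ((1 / 2 : ℂ) - ρ i) * (n : ℂ) ^ ((1 / 2 : ℂ) - (starRingEnd ℂ) (ρ j)) =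
        (n : ℂ) ^ (-(w i j)) := by
      rw [← Complex.cpow_add _ _ hn0]
      congr 1
      simp only [hw]
      ring
    simp only [hb, map_mul, Complex.conj_ofReal]
    rw [MT.prodChar_nat, e1, e2, ← e3]
    push_cast
    ring
  have hk : ∀ i j, (((c i).1 * (c j).1 : ℕ) : ℝ) ≤ T ^ 2 := fun i j => by
    rw [pow_two]
    push_cast
    exact mul_le_mul (hc i) (hc j) (Nat.cast_nonneg _) hT0.le
  set m : ℝ := (Fintype.card ι : ℝ) with hm
  have hm0 : 0 ≤ m := Nat.cast_nonneg _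
  set P : ℝ := C₃ * T ^ (C₃ * (2 * η)) with hP
  have hP0 : 0 ≤ P := by positivity
  -- the rows
  have hrow : ∀ i, ∑ j, ‖∑ n ∈ R, (VT T n : ℂ) * (b i n * (starRingEnd ℂ) (b j n))‖ ≤
      m / T + P * Cs := by
    intro i
    have e1 : ∀ j, ‖∑ n ∈ R, (VT T n : ℂ) * (b i n * (starRingEnd ℂ) (b j n))‖ ≤
        1 / T + if c j = c i then P * (1 / (1 + (((ρ j).im - (ρ i).im) * Real.log T) ^ 2)) else 0 := by
      intro j
      rw [hS i j]
      split_ifs with hij
      · have e2 : MT.prodChar (c i).2 (c j).2⁻¹ = 1 := dens_prod_one _ _ hij.symm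
        rw [e2]
        have e3 := hDuP T hTT₃ ((c i).1 * (c j).1) (hk i j) (w i j)
          (by linarith [hw1 i j]) (hw2 i j) (hw3 i j)
        refine e3.trans ?_
        have e4 : C₃ * T ^ (C₃ * (1 - (w i j).re)) ≤ P := by
          rw [hP]
          apply mul_le_mul_of_nonneg_left _ hC₃.le
          apply Real.rpow_le_rpow_of_exponent_le hT1.le
          apply mul_le_mul_of_nonneg_left _ hC₃.le
          linarith [hw1 i j]
        have e5 : ((w i j).im * Real.log T) ^ 2 = (((ρ j).im - (ρ i).im) * Real.log T) ^ 2 := by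
          rw [hwim]
          ring
        rw [e5, mul_one_div]
        have e6 : C₃ * T ^ (C₃ * (1 - (w i j).re)) /
            (1 + (((ρ j).im - (ρ i).im) * Real.log T) ^ 2) ≤
            P / (1 + (((ρ j).im - (ρ i).im) * Real.log T) ^ 2) :=
          div_le_div_of_nonneg_right e4 (by positivity)
        have e7 : 0 ≤ 1 / T := by positivity
        linarith
      · rw [add_zero]
        exact hDuN T hTT₂ ((c i).1 * (c j).1) _ (hk i j) (hdif i j fun h => hij h.symm) (w i j)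
          (by linarith [hw1 i j]) (hw2 i j) (hw3 i j)
    refine (sum_le_sum fun j _ => e1 j).trans ?_
    rw [sum_add_distrib, sum_const, card_univ, nsmul_eq_mul, ← sum_filter, ← mul_sum]
    have e2 : ∑ j ∈ univ.filter (fun j => c j = c i),
        1 / (1 + (((ρ j).im - (ρ i).im) * Real.log T) ^ 2) ≤ Cs := by
      apply dens_sep
      intro j hj j' hj' hne
      rw [mem_filter] at hj hj'
      have e3 := hsp j j' hne (hj.2.trans hj'.2.symm)
      rw [← sub_mul, abs_mul, abs_of_pos hL, sub_sub_sub_cancel_right]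
      rwa [div_le_iff₀ hL] at e3
    have e3 : (Fintype.card ι : ℝ) * (1 / T) = m / T := by
      rw [mul_one_div]
    rw [e3]
    have := mul_le_mul_of_nonneg_left e2 hP0
    linarith
  have hB0 : 0 ≤ m / T + P * Cs := by positivity
  have key := h4 ι R a b (fun n => VT T n) (m / T + P * Cs) hB0
    (fun n hn => dens_VT_nonneg hT1 (by exact_mod_cast hRpos n hn))
    (fun n _ hn => by
      have hnR : n ∈ R' := by
        by_contra hcon
        exact hn (by simp [ha, hcon])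
      exact dens_VT_one hT1 (hR'1 n hnR).1 (hR'1 n hnR).2) hrow
  -- lower bound
  have hlow : m * (1 / 4) ≤ ∑ j, ‖∑ n ∈ R, a n * b j n‖ ^ 2 := by
    have e1 : ∀ j, 1 / 4 ≤ ‖∑ n ∈ R, a n * b j n‖ ^ 2 := by
      intro j
      have e2 : ∑ n ∈ R, a n * b j n = ∑ n ∈ R', (((fBV (T ^ 12) n * gw T n : ℝ) : ℂ) *
          (c j).2 (n : ZMod (c j).1)) * (n : ℂ) ^ (-(ρ j)) := by
        rw [← sum_subset hRR (f := fun n => a n * b j n) fun n _ hn => by simp [ha, hn]]
        refine sum_congr rfl fun n hn => ?_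
        have hn0 : (n : ℂ) ≠ 0 := by exact_mod_cast (hRpos n (hRR hn)).ne'
        have e3 : (n : ℂ) ^ (-(1 / 2 : ℂ)) * (n : ℂ) ^ ((1 / 2 : ℂ) - ρ j) = (n : ℂ) ^ (-(ρ j)) := by
          rw [← Complex.cpow_add _ _ hn0]
          congr 1
          ring
        simp only [ha, hb, hn, if_true]
        rw [← e3]
        push_cast
        ring
      have e4 := hDet T hTT₁ (c j).1 (c j).2 (hc j) (ρ j)
        ⟨by linarith [(hρ j).1], (hρ j).2.1, (hρ j).2.2⟩ (hz j) (hone j)
      rw [e2]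
      calc (1 / 4 : ℝ) = (1 / 2) ^ 2 := by norm_num
        _ ≤ _ := pow_le_pow_left₀ (by norm_num) e4 2
    calc m * (1 / 4) = ∑ j : ι, (1 / 4 : ℝ) := by
          rw [sum_const, card_univ, nsmul_eq_mul]
      _ ≤ _ := sum_le_sum fun j _ => e1 j
  -- the norm of the coefficients
  have hnorm : ∑ n ∈ R, ‖a n‖ ^ 2 ≤ C₅ := by
    have e1 := hFsq (T ^ 12) (by
      calc (2 : ℝ) ≤ T := hT2
        _ = T ^ 1 := (pow_one T).symm
        _ ≤ T ^ 12 := pow_le_pow_right₀ hT1.le (by norm_num)) (T ^ 40)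
      (one_le_pow₀ hT1.le) (by
        rw [show ((4 : ℝ)) = ((4 : ℕ) : ℝ) by norm_num, Real.rpow_natCast, ← pow_mul]
        exact pow_le_pow_right₀ hT1.le (by norm_num))
    refine le_trans ?_ e1
    have e2 : ∑ n ∈ R, ‖a n‖ ^ 2 = ∑ n ∈ R', fBV (T ^ 12) n ^ 2 / n := by
      rw [← sum_subset hRR (f := fun n => ‖a n‖ ^ 2) fun n _ hn => by simp [ha, hn]]
      refine sum_congr rfl fun n hn => ?_
      have hn0 : (0 : ℝ) < n := by exact_mod_cast hRpos n (hRR hn)
      simp only [ha, hn, if_true]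
      rw [norm_mul, mul_pow, Complex.norm_real, Real.norm_eq_abs, sq_abs,
        Complex.norm_natCast_cpow_of_pos (hRpos n (hRR hn)), div_eq_mul_inv]
      congr 1
      rw [← Real.rpow_natCast, ← Real.rpow_mul hn0.le]
      norm_num
      exact Real.rpow_neg_one _
    rw [e2]
    apply sum_le_sum_of_subset_of_nonneg
    · intro n hn
      have hn2 := mem_Ioc.1 hn
      rw [mem_Icc]
      exact ⟨by omega, hn2.2⟩
    · intro n _ _
      positivity
  have h6 : m * (1 / 4) ≤ (m / T + P * Cs) * C₅ :=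
    hlow.trans (key.trans (mul_le_mul_of_nonneg_left hnorm hB0))
  have h7 : m / T * C₅ ≤ m * (1 / 8) := by
    rw [div_mul_eq_mul_div, div_le_iff₀ hT0]
    nlinarith
  have h8 : m ≤ 8 * C₅ * C₃ * Cs * T ^ (C₃ * (2 * η)) := by
    have : (m / T + P * Cs) * C₅ = m / T * C₅ + P * Cs * C₅ := by ring
    have e1 : P * Cs * C₅ = C₅ * C₃ * Cs * T ^ (C₃ * (2 * η)) := by
      rw [hP]
      ring
    linarith
  refine h8.trans ?_
  have h9 : T ^ (C₃ * (2 * η)) ≤ T ^ ((8 * C₅ * C₃ * Cs + 2 * C₃) * η) := by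
    apply Real.rpow_le_rpow_of_exponent_le hT1.le
    have : 0 ≤ 8 * C₅ * C₃ * Cs * η := by positivity
    nlinarith
  apply mul_le_mul _ h9 (by positivity) (by positivity)
  linarith

end Pool.Agent.MVX
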