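import Pool.Agent.MVX.StD

set_option autoImplicit false

/-!
# Project MVX, L-core, part D: the zero detector
-/

namespace Pool.Agent.MVX

open Finset

/-! ### The weights -/

private theorem det_gw_small (y : ℝ) (hy : 1 < y) (n : ℕ) (hny : (n : ℝ) ≤ y) :
    gw y n = (if n = 1 then 1 else 0) + ArithmeticFunction.vonMangoldt n / Real.log y := by
  have hlog : 0 < Real.log y := Real.log_pos hy
  unfold gw
  have hf : n.divisors.filter (fun d : ℕ => (d : ℝ) ≤ y) = n.divisors := by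
    apply Finset.filter_true_of_mem
    intro d hd
    have h1 : d ≤ n := Nat.divisor_le hd
    exact le_trans (by exact_mod_cast h1) hny
  rw [hf]
  have h1 : ∑ d ∈ n.divisors, (ArithmeticFunction.moebius d : ℝ) * Real.log (y / d) =
      Real.log y * ∑ d ∈ n.divisors, (ArithmeticFunction.moebius d : ℝ) -
        ∑ d ∈ n.divisors, (ArithmeticFunction.moebius d : ℝ) * Real.log d := by
    rw [Finset.mul_sum, ← Finset.sum_sub_distrib]
    apply Finset.sum_congr rfl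
    intro d hd
    have hd0 : (d : ℝ) ≠ 0 := by
      have := Nat.pos_of_mem_divisors hd
      positivity
    rw [Real.log_div (by positivity) hd0]
    ring
  have h2 : ∑ d ∈ n.divisors, (ArithmeticFunction.moebius d : ℝ) = if n = 1 then 1 else 0 := by
    have h3 := congrArg (fun f : ArithmeticFunction ℤ => f n)
      ArithmeticFunction.coe_zeta_mul_moebius
    simp only [ArithmeticFunction.coe_zeta_mul_apply, ArithmeticFunction.one_apply] at h3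
    have h4 := congrArg (fun a : ℤ => (a : ℝ)) h3
    simp only [Int.cast_sum] at h4
    rw [h4]
    split_ifs <;> simp
  have h5 : ∑ d ∈ n.divisors, (ArithmeticFunction.moebius d : ℝ) * Real.log d =
      -ArithmeticFunction.vonMangoldt n := by
    rw [← ArithmeticFunction.sum_moebius_mul_log_eq]
    rfl
  rw [h1, h2, h5]
  field_simp
  ring

private theorem det_fBV_one (z : ℝ) (hz : 1 < z) : fBV z 1 = 1 := by
  have hz2 : 1 < z ^ 2 := by nlinarith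
  unfold fBV
  rw [det_gw_small (z ^ 2) hz2 1 (by push_cast; exact hz2.le),
    det_gw_small z hz 1 (by push_cast; exact hz.le)]
  simp
  norm_num

private theorem det_gw_one (y : ℝ) (hy : 1 < y) : gw y 1 = 1 := by
  rw [det_gw_small y hy 1 (by push_cast; exact hy.le)]
  simp

private theorem det_fBV_zero (z : ℝ) (hz : 1 < z) (n : ℕ) (hn : 1 < n) (hnz : (n : ℝ) ≤ z) :
    fBV z n = 0 := by
  have hz2 : 1 < z ^ 2 := by nlinarith
  have hlog : 0 < Real.log z := Real.log_pos hz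
  unfold fBV
  rw [det_gw_small (z ^ 2) hz2 n (by nlinarith), det_gw_small z hz n hnz,
    if_neg (by omega), Real.log_pow]
  push_cast
  field_simp
  ring

/-- the coefficients of `gw` -/
private noncomputable def det_th (y : ℝ) (d : ℕ) : ℝ :=
  if (d : ℝ) ≤ y then (ArithmeticFunction.moebius d : ℝ) * Real.log (y / d) / Real.log y else 0

private theorem det_th_abs (y : ℝ) (hy : 1 < y) (d : ℕ) (hd : 1 ≤ d) : |det_th y d| ≤ 1 := by
  have hlog : 0 < Real.log y := Real.log_pos hy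
  unfold det_th
  split_ifs with h
  · have hd1 : (1 : ℝ) ≤ d := by exact_mod_cast hd
    have h1 : 0 ≤ Real.log (y / d) := Real.log_nonneg (by rw [le_div_iff₀ (by linarith)]; linarith)
    have h2 : Real.log (y / d) ≤ Real.log y := by
      apply Real.log_le_log (by positivity)
      exact div_le_self (by linarith) hd1
    have h3 : |(ArithmeticFunction.moebius d : ℝ)| ≤ 1 := by
      exact_mod_cast ArithmeticFunction.abs_moebius_le_one (n := d)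
    rw [abs_div, abs_mul, abs_of_nonneg h1, abs_of_pos hlog, div_le_one hlog]
    calc |(ArithmeticFunction.moebius d : ℝ)| * Real.log (y / d) ≤ 1 * Real.log (y / d) :=
          mul_le_mul_of_nonneg_right h3 h1
      _ ≤ Real.log y := by linarith
  · simp

private theorem det_gw_expand (y : ℝ) (X : ℕ) (hX : ⌊y⌋₊ ≤ X) (n : ℕ) (hn : 1 ≤ n) :
    gw y n = ∑ d ∈ Icc 1 X, if d ∣ n then det_th y d else 0 := by
  unfold gw
  rw [Finset.sum_div, ← Finset.sum_filter]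
  have h1 : ∑ d ∈ (Icc 1 X).filter (fun d => d ∣ n), det_th y d =
      ∑ d ∈ ((Icc 1 X).filter (fun d => d ∣ n)).filter (fun d : ℕ => (d : ℝ) ≤ y),
        (ArithmeticFunction.moebius d : ℝ) * Real.log (y / d) / Real.log y := by
    rw [Finset.sum_filter (s := (Icc 1 X).filter (fun d => d ∣ n))]
    rfl
  rw [h1]
  apply Finset.sum_congr _ (fun _ _ => rfl)
  ext d
  simp only [Finset.mem_filter, Nat.mem_divisors, Finset.mem_Icc]
  constructor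
  · rintro ⟨⟨h2, h3⟩, h4⟩
    refine ⟨⟨⟨Nat.pos_of_dvd_of_pos h2 hn, ?_⟩, h2⟩, h4⟩
    exact le_trans (Nat.le_floor h4) hX
  · rintro ⟨⟨⟨h2, h3⟩, h4⟩, h5⟩
    exact ⟨⟨h4, by omega⟩, h5⟩

/-- the coefficients of `fBV` -/
private noncomputable def det_nu (z : ℝ) (d : ℕ) : ℝ := 2 * det_th (z ^ 2) d - det_th z d

private theorem det_nu_abs (z : ℝ) (hz : 1 < z) (d : ℕ) (hd : 1 ≤ d) : |det_nu z d| ≤ 3 := by
  have hz2 : 1 < z ^ 2 := by nlinarith
  have h1 := det_th_abs (z ^ 2) hz2 d hd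
  have h2 := det_th_abs z hz d hd
  unfold det_nu
  rw [abs_le] at *
  constructor <;> linarith [h1.1, h1.2, h2.1, h2.2]

private theorem det_fBV_expand (z : ℝ) (hz : 1 < z) (n : ℕ) (hn : 1 ≤ n) :
    fBV z n = ∑ d ∈ Icc 1 ⌊z ^ 2⌋₊, if d ∣ n then det_nu z d else 0 := by
  have hz2 : 1 < z ^ 2 := by nlinarith
  have hX : ⌊z⌋₊ ≤ ⌊z ^ 2⌋₊ := Nat.floor_le_floor (by nlinarith)
  unfold fBV
  rw [det_gw_expand (z ^ 2) _ le_rfl n hn, det_gw_expand z _ hX n hn, Finset.mul_sum,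
    ← Finset.sum_sub_distrib]
  apply Finset.sum_congr rfl
  intro d hd
  unfold det_nu
  split_ifs <;> ring

/-! ### Sums over multiples -/

private theorem det_mult {M : Type} [AddCommMonoid M] (F : ℕ → M) (X D : ℕ) (hD : 0 < D) :
    ∑ n ∈ (Icc 1 X).filter (fun n => D ∣ n), F n = ∑ m ∈ Icc 1 (X / D), F (D * m) := by
  symm
  apply Finset.sum_bij (fun m _ => D * m)
  · intro m hm
    rw [Finset.mem_Icc] at hm
    rw [Finset.mem_filter, Finset.mem_Icc]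
    refine ⟨⟨Nat.mul_pos hD hm.1, ?_⟩, Dvd.intro _ rfl⟩
    calc D * m ≤ D * (X / D) := Nat.mul_le_mul_left D hm.2
      _ ≤ X := Nat.mul_div_le X D
  · intro a _ b _ h
    exact Nat.eq_of_mul_eq_mul_left hD h
  · intro n hn
    rw [Finset.mem_filter, Finset.mem_Icc] at hn
    obtain ⟨⟨h1, h2⟩, m, rfl⟩ := hn
    refine ⟨m, ?_, rfl⟩
    rw [Finset.mem_Icc]
    refine ⟨Nat.pos_of_ne_zero (by rintro rfl; simp at h1), ?_⟩
    rw [Nat.le_div_iff_mul_le hD]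
    linarith [Nat.mul_comm D m]
  · intro m hm
    rfl

private theorem det_inner {q : ℕ} (χ : DirichletCharacter ℂ q) (ρ : ℂ) (Y : ℝ) (D : ℕ)
    (hD : 0 < D) :
    ∑ n ∈ (Icc 1 ⌊Y⌋₊).filter (fun n => D ∣ n), χ (n : ZMod q) * (n : ℂ) ^ (-ρ) =
      χ (D : ZMod q) * (D : ℂ) ^ (-ρ) * Ssum (cf χ) ρ (Y / D) := by
  rw [det_mult _ _ _ hD, Ssum, Nat.floor_div_natCast, Finset.mul_sum]
  apply Finset.sum_congr rfl
  intro m hm
  rw [cf, Nat.cast_mul, map_mul, Nat.cast_mul, Complex.natCast_mul_natCast_cpow]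
  ring

private theorem det_swap {q : ℕ} (χ : DirichletCharacter ℂ q) (ρ : ℂ) (Y : ℝ) (A B : ℕ)
    (f g : ℕ → ℝ) (a b : ℕ → ℝ)
    (hf : ∀ n, 1 ≤ n → f n = ∑ d ∈ Icc 1 A, if d ∣ n then a d else 0)
    (hg : ∀ n, 1 ≤ n → g n = ∑ e ∈ Icc 1 B, if e ∣ n then b e else 0) :
    ∑ n ∈ Icc 1 ⌊Y⌋₊, (((f n * g n : ℝ) : ℂ) * χ (n : ZMod q)) * (n : ℂ) ^ (-ρ) =
      ∑ d ∈ Icc 1 A, ∑ e ∈ Icc 1 B, ((a d * b e : ℝ) : ℂ) *
        (χ ((d.lcm e : ℕ) : ZMod q) * ((d.lcm e : ℕ) : ℂ) ^ (-ρ) *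
          Ssum (cf χ) ρ (Y / (d.lcm e : ℕ))) := by
  have h1 : ∀ n ∈ Icc 1 ⌊Y⌋₊, (((f n * g n : ℝ) : ℂ) * χ (n : ZMod q)) * (n : ℂ) ^ (-ρ) =
      ∑ d ∈ Icc 1 A, ∑ e ∈ Icc 1 B, if d.lcm e ∣ n then
        ((a d * b e : ℝ) : ℂ) * (χ (n : ZMod q) * (n : ℂ) ^ (-ρ)) else 0 := by
    intro n hn
    rw [Finset.mem_Icc] at hn
    rw [hf n hn.1, hg n hn.1, Finset.sum_mul_sum, mul_assoc]
    push_cast
    rw [Finset.sum_mul]
    apply Finset.sum_congr rfl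
    intro d hd
    rw [Finset.sum_mul]
    apply Finset.sum_congr rfl
    intro e he
    by_cases hde : d.lcm e ∣ n
    · have h2 : d ∣ n := (Nat.dvd_lcm_left d e).trans hde
      have h3 : e ∣ n := (Nat.dvd_lcm_right d e).trans hde
      simp [h2, h3, hde]
    · rw [if_neg hde]
      by_cases h2 : d ∣ n
      · have h3 : ¬ e ∣ n := fun h => hde (Nat.lcm_dvd h2 h)
        simp [h3]
      · simp [h2]
  rw [Finset.sum_congr rfl h1, Finset.sum_comm]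
  apply Finset.sum_congr rfl
  intro d hd
  rw [Finset.sum_comm]
  apply Finset.sum_congr rfl
  intro e he
  rw [Finset.mem_Icc] at hd he
  have hD : 0 < d.lcm e := Nat.lcm_pos hd.1 he.1
  rw [← det_inner χ ρ Y _ hD, ← Finset.sum_filter, Finset.mul_sum]

/-! ### The sum of `1/[d,e]` -/

private theorem det_H (N : ℕ) : ∑ n ∈ Icc 1 N, (1 : ℝ) / n ≤ 1 + Real.log N := by
  have h1 := harmonic_le_one_add_log N
  rw [harmonic_eq_sum_Icc] at h1
  push_cast at h1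
  simpa [one_div] using h1

private theorem det_lcm (A B : ℕ) :
    ∑ d ∈ Icc 1 A, ∑ e ∈ Icc 1 B, (1 : ℝ) / (d.lcm e : ℕ) ≤
      (∑ n ∈ Icc 1 A, (1 : ℝ) / n) * (∑ n ∈ Icc 1 B, (1 : ℝ) / n) ^ 2 := by
  have h1 : ∀ d ∈ Icc 1 A, ∀ e ∈ Icc 1 B, (1 : ℝ) / (d.lcm e : ℕ) ≤
      ∑ g ∈ Icc 1 B, if g ∣ d ∧ g ∣ e then (g : ℝ) * ((1 / d) * (1 / e)) else 0 := by
    intro d hd e he
    rw [Finset.mem_Icc] at hd he
    have hg : d.gcd e ∈ Icc 1 B := by
      rw [Finset.mem_Icc]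
      exact ⟨Nat.gcd_pos_of_pos_left e hd.1, (Nat.gcd_le_right d he.1).trans he.2⟩
    have h2 := Finset.single_le_sum (s := Icc 1 B)
      (f := fun g : ℕ => if g ∣ d ∧ g ∣ e then (g : ℝ) * ((1 / d) * (1 / e)) else 0)
      (fun g _ => by
        show (0 : ℝ) ≤ if g ∣ d ∧ g ∣ e then (g : ℝ) * ((1 / d) * (1 / e)) else 0
        split_ifs <;> positivity) hg
    refine le_trans (le_of_eq ?_) h2
    show _ = if d.gcd e ∣ d ∧ d.gcd e ∣ e then ((d.gcd e : ℕ) : ℝ) * ((1 / d) * (1 / e)) else 0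
    rw [if_pos ⟨Nat.gcd_dvd_left d e, Nat.gcd_dvd_right d e⟩]
    have h3 : ((d.gcd e : ℕ) : ℝ) * (d.lcm e : ℕ) = d * e := by
      exact_mod_cast Nat.gcd_mul_lcm d e
    have hd0 : (d : ℝ) ≠ 0 := by have := hd.1; positivity
    have he0 : (e : ℝ) ≠ 0 := by have := he.1; positivity
    have hl0 : ((d.lcm e : ℕ) : ℝ) ≠ 0 := by
      have := Nat.lcm_pos hd.1 he.1
      positivity
    field_simp
    linarith
  refine (Finset.sum_le_sum fun d hd => Finset.sum_le_sum fun e he => h1 d hd e he).trans ?_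
  have h4 : ∑ d ∈ Icc 1 A, ∑ e ∈ Icc 1 B, ∑ g ∈ Icc 1 B,
      (if g ∣ d ∧ g ∣ e then (g : ℝ) * ((1 / d) * (1 / e)) else 0) =
      ∑ g ∈ Icc 1 B, (g : ℝ) * ((∑ d ∈ (Icc 1 A).filter (fun d => g ∣ d), (1 : ℝ) / d) *
        ∑ e ∈ (Icc 1 B).filter (fun e => g ∣ e), (1 : ℝ) / e) := by
    have h5 : ∀ d ∈ Icc 1 A, ∑ e ∈ Icc 1 B, ∑ g ∈ Icc 1 B,
        (if g ∣ d ∧ g ∣ e then (g : ℝ) * ((1 / d) * (1 / e)) else 0) =
        ∑ g ∈ Icc 1 B, ∑ e ∈ Icc 1 B,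
        (if g ∣ d ∧ g ∣ e then (g : ℝ) * ((1 / d) * (1 / e)) else 0) := fun d _ =>
      Finset.sum_comm
    rw [Finset.sum_congr rfl h5, Finset.sum_comm]
    apply Finset.sum_congr rfl
    intro g hg
    rw [Finset.sum_mul_sum, Finset.mul_sum, Finset.sum_filter]
    apply Finset.sum_congr rfl
    intro d hd
    by_cases h6 : g ∣ d
    · rw [if_pos h6, Finset.mul_sum, Finset.sum_filter]
      apply Finset.sum_congr rfl
      intro e he
      by_cases h7 : g ∣ e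
      · simp [h6, h7]
      · simp [h7]
    · simp [h6]
  rw [h4]
  have hS : ∀ (X g : ℕ), 1 ≤ g → ∑ d ∈ (Icc 1 X).filter (fun d => g ∣ d), (1 : ℝ) / d ≤
      (1 / g) * ∑ n ∈ Icc 1 X, (1 : ℝ) / n := by
    intro X g hg
    rw [det_mult _ _ _ hg, Finset.mul_sum]
    refine le_trans (le_of_eq ?_) (Finset.sum_le_sum_of_subset_of_nonneg
      (Finset.Icc_subset_Icc_right (Nat.div_le_self X g)) ?_)
    · apply Finset.sum_congr rfl
      intro m hm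
      push_cast
      rw [one_div_mul_one_div]
    · intro i _ _
      positivity
  have hA0 : 0 ≤ ∑ n ∈ Icc 1 A, (1 : ℝ) / n := Finset.sum_nonneg fun i _ => by positivity
  have hB0 : 0 ≤ ∑ n ∈ Icc 1 B, (1 : ℝ) / n := Finset.sum_nonneg fun i _ => by positivity
  calc ∑ g ∈ Icc 1 B, (g : ℝ) * ((∑ d ∈ (Icc 1 A).filter (fun d => g ∣ d), (1 : ℝ) / d) *
        ∑ e ∈ (Icc 1 B).filter (fun e => g ∣ e), (1 : ℝ) / e)
      ≤ ∑ g ∈ Icc 1 B, (1 / (g : ℝ)) * ((∑ n ∈ Icc 1 A, (1 : ℝ) / n) *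
          ∑ n ∈ Icc 1 B, (1 : ℝ) / n) := by
        apply Finset.sum_le_sum
        intro g hg
        rw [Finset.mem_Icc] at hg
        have hg0 : (0 : ℝ) < g := by exact_mod_cast hg.1
        have h7 : (∑ d ∈ (Icc 1 A).filter (fun d => g ∣ d), (1 : ℝ) / d) *
            ∑ e ∈ (Icc 1 B).filter (fun e => g ∣ e), (1 : ℝ) / e ≤
            ((1 / g) * ∑ n ∈ Icc 1 A, (1 : ℝ) / n) * ((1 / g) * ∑ n ∈ Icc 1 B, (1 : ℝ) / n) :=
          mul_le_mul (hS A g hg.1) (hS B g hg.1) (Finset.sum_nonneg fun i _ => by positivity)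
            (by positivity)
        refine (mul_le_mul_of_nonneg_left h7 hg0.le).trans (le_of_eq ?_)
        field_simp
    _ = (∑ n ∈ Icc 1 A, (1 : ℝ) / n) * (∑ n ∈ Icc 1 B, (1 : ℝ) / n) ^ 2 := by
        rw [← Finset.sum_mul]
        ring

/-! ### The main estimate -/

private theorem det_split {q : ℕ} (χ : DirichletCharacter ℂ q) (T : ℝ) (hT : 2 ≤ T) (ρ : ℂ) :
    ∑ n ∈ Icc 1 ⌊T ^ 40⌋₊, (((fBV (T ^ 12) n * gw T n : ℝ) : ℂ) * χ (n : ZMod q)) *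
        (n : ℂ) ^ (-ρ) =
      1 + ∑ n ∈ Ioc ⌊T ^ 12⌋₊ ⌊T ^ 40⌋₊, (((fBV (T ^ 12) n * gw T n : ℝ) : ℂ) *
        χ (n : ZMod q)) * (n : ℂ) ^ (-ρ) := by
  have hT1 : 1 < T := by linarith
  have hz : 1 < T ^ 12 := one_lt_pow₀ hT1 (by norm_num)
  have hM : 1 ≤ ⌊T ^ 12⌋₊ := Nat.le_floor (by push_cast; exact hz.le)
  have hN : ⌊T ^ 12⌋₊ ≤ ⌊T ^ 40⌋₊ :=
    Nat.floor_le_floor (pow_le_pow_right₀ hT1.le (by norm_num))
  have h0 : Icc 1 ⌊T ^ 40⌋₊ = Ioc 0 ⌊T ^ 40⌋₊ := by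
    ext n
    simp only [Finset.mem_Icc, Finset.mem_Ioc]
    omega
  rw [h0, ← Finset.sum_Ioc_consecutive _ (Nat.zero_le 1) (hM.trans hN),
    ← Finset.sum_Ioc_consecutive _ hM hN]
  have h1 : ∑ n ∈ Ioc 0 1, (((fBV (T ^ 12) n * gw T n : ℝ) : ℂ) * χ (n : ZMod q)) *
      (n : ℂ) ^ (-ρ) = 1 := by
    have : Ioc 0 1 = ({1} : Finset ℕ) := rfl
    rw [this, Finset.sum_singleton, det_fBV_one _ hz, det_gw_one _ hT1]
    simp
  have h2 : ∑ n ∈ Ioc 1 ⌊T ^ 12⌋₊, (((fBV (T ^ 12) n * gw T n : ℝ) : ℂ) * χ (n : ZMod q)) *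
      (n : ℂ) ^ (-ρ) = 0 := by
    apply Finset.sum_eq_zero
    intro n hn
    rw [Finset.mem_Ioc] at hn
    rw [det_fBV_zero _ hz n hn.1 ((Nat.le_floor_iff (by linarith)).1 hn.2)]
    simp
  rw [h1, h2, zero_add]

private theorem det_term {q : ℕ} (χ : DirichletCharacter ℂ q) (ρ : ℂ) (Y : ℝ) (P E : ℝ)
    (hS : ∀ v : ℝ, 1 ≤ v → ‖Ssum (cf χ) ρ v‖ ≤ P * v ^ (1 - ρ.re) + E * v ^ (-ρ.re))
    (D : ℕ) (hD : 0 < D) (hDY : (D : ℝ) ≤ Y) :
    ‖χ (D : ZMod q) * (D : ℂ) ^ (-ρ) * Ssum (cf χ) ρ (Y / D)‖ ≤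
      P * Y ^ (1 - ρ.re) * (1 / D) + E * Y ^ (-ρ.re) := by
  have hD0 : (0 : ℝ) < D := by exact_mod_cast hD
  have hY0 : 0 < Y := lt_of_lt_of_le hD0 hDY
  have hv : 1 ≤ Y / D := by rwa [le_div_iff₀ hD0, one_mul]
  rw [norm_mul, norm_mul, Complex.norm_natCast_cpow_of_pos hD]
  have h1 : ‖χ (D : ZMod q)‖ ≤ 1 := DirichletCharacter.norm_le_one χ _
  have h2 : (0 : ℝ) ≤ (D : ℝ) ^ (-ρ).re := Real.rpow_nonneg hD0.le _
  have h3 := hS (Y / D) hv
  calc ‖χ (D : ZMod q)‖ * (D : ℝ) ^ (-ρ).re * ‖Ssum (cf χ) ρ (Y / D)‖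
      ≤ 1 * (D : ℝ) ^ (-ρ).re * (P * (Y / D) ^ (1 - ρ.re) + E * (Y / D) ^ (-ρ.re)) := by
        apply mul_le_mul (mul_le_mul_of_nonneg_right h1 h2) h3 (norm_nonneg _) (by positivity)
    _ = P * Y ^ (1 - ρ.re) * (1 / D) + E * Y ^ (-ρ.re) := by
        rw [Real.div_rpow hY0.le hD0.le, Real.div_rpow hY0.le hD0.le, Complex.neg_re, one_mul]
        have h4 : (D : ℝ) ^ (1 - ρ.re) = D * (D : ℝ) ^ (-ρ.re) := by
          rw [sub_eq_add_neg, Real.rpow_add hD0, Real.rpow_one]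
        have h5 : (D : ℝ) ^ (-ρ.re) ≠ 0 := (Real.rpow_pos_of_pos hD0 _).ne'
        rw [h4]
        field_simp

private theorem det_total {q : ℕ} (χ : DirichletCharacter ℂ q) (T : ℝ) (hT : 2 ≤ T) (ρ : ℂ)
    (hρ : 1 - 1 / 400 ≤ ρ.re) (P E : ℝ) (hE : 0 ≤ E) (hP : 0 ≤ P)
    (hS : ∀ v : ℝ, 1 ≤ v → ‖Ssum (cf χ) ρ v‖ ≤ P * v ^ (1 - ρ.re) + E * v ^ (-ρ.re)) :
    ‖∑ n ∈ Icc 1 ⌊T ^ 40⌋₊, (((fBV (T ^ 12) n * gw T n : ℝ) : ℂ) * χ (n : ZMod q)) *
        (n : ℂ) ^ (-ρ)‖ ≤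
      3 * P * T ^ (1 / 10 : ℝ) * ((1 + 24 * Real.log T) * (1 + Real.log T) ^ 2) +
        3 * T ^ 25 * E * T ^ (-(399 / 10) : ℝ) := by
  have hT1 : 1 < T := by linarith
  have hT0 : 0 < T := by linarith
  have hz : 1 < T ^ 12 := one_lt_pow₀ hT1 (by norm_num)
  have hlog : 0 < Real.log T := Real.log_pos hT1
  set A : ℕ := ⌊(T ^ 12) ^ 2⌋₊ with hA
  set B : ℕ := ⌊T⌋₊ with hB
  have hAT : (A : ℝ) ≤ T ^ 24 := by
    have := Nat.floor_le (a := (T ^ 12) ^ 2) (by positivity)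
    rw [← hA] at this
    calc (A : ℝ) ≤ (T ^ 12) ^ 2 := this
      _ = T ^ 24 := by ring
  have hBT : (B : ℝ) ≤ T := Nat.floor_le hT0.le
  have hA1 : 1 ≤ A := Nat.le_floor (by push_cast; nlinarith)
  have hB1 : 1 ≤ B := Nat.le_floor (by push_cast; linarith)
  have hY1 : (T ^ 40 : ℝ) ^ (1 - ρ.re) ≤ T ^ (1 / 10 : ℝ) := by
    rw [← Real.rpow_natCast, ← Real.rpow_mul hT0.le]
    apply Real.rpow_le_rpow_of_exponent_le hT1.le
    push_cast
    linarith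
  have hY2 : (T ^ 40 : ℝ) ^ (-ρ.re) ≤ T ^ (-(399 / 10) : ℝ) := by
    rw [← Real.rpow_natCast, ← Real.rpow_mul hT0.le]
    apply Real.rpow_le_rpow_of_exponent_le hT1.le
    push_cast
    linarith
  rw [det_swap χ ρ (T ^ 40) A B (fBV (T ^ 12)) (gw T) (det_nu (T ^ 12)) (det_th T)
    (fun n hn => det_fBV_expand _ hz n hn) (fun n hn => det_gw_expand T B le_rfl n hn)]
  have hterm : ∀ d ∈ Icc 1 A, ∀ e ∈ Icc 1 B,
      ‖((det_nu (T ^ 12) d * det_th T e : ℝ) : ℂ) *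
        (χ ((d.lcm e : ℕ) : ZMod q) * ((d.lcm e : ℕ) : ℂ) ^ (-ρ) *
          Ssum (cf χ) ρ (T ^ 40 / (d.lcm e : ℕ)))‖ ≤
      3 * (P * T ^ (1 / 10 : ℝ) * (1 / (d.lcm e : ℕ)) + E * T ^ (-(399 / 10) : ℝ)) := by
    intro d hd e he
    rw [Finset.mem_Icc] at hd he
    have hD : 0 < d.lcm e := Nat.lcm_pos hd.1 he.1
    have hDA : d.lcm e ≤ A * B := by
      refine (Nat.le_of_dvd (Nat.mul_pos hd.1 he.1) (Nat.lcm_dvd_mul d e)).trans ?_
      exact Nat.mul_le_mul hd.2 he.2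
    have hDY : ((d.lcm e : ℕ) : ℝ) ≤ T ^ 40 := by
      have h1 : ((d.lcm e : ℕ) : ℝ) ≤ (A : ℝ) * B := by exact_mod_cast hDA
      have h2 : (A : ℝ) * B ≤ T ^ 24 * T := mul_le_mul hAT hBT (by positivity) (by positivity)
      have h3 : T ^ 24 * T ≤ T ^ 40 := by
        rw [← pow_succ]
        exact pow_le_pow_right₀ hT1.le (by norm_num)
      linarith
    rw [norm_mul, Complex.norm_real, Real.norm_eq_abs, abs_mul]
    have h4 : |det_nu (T ^ 12) d| * |det_th T e| ≤ 3 * 1 :=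
      mul_le_mul (det_nu_abs _ hz d hd.1) (det_th_abs _ hT1 e he.1) (abs_nonneg _) (by norm_num)
    have h5 := det_term χ ρ (T ^ 40) P E hS (d.lcm e) hD hDY
    have h6 : P * (T ^ 40 : ℝ) ^ (1 - ρ.re) * (1 / (d.lcm e : ℕ)) +
        E * (T ^ 40 : ℝ) ^ (-ρ.re) ≤
        P * T ^ (1 / 10 : ℝ) * (1 / (d.lcm e : ℕ)) + E * T ^ (-(399 / 10) : ℝ) := by
      apply add_le_add
      · exact mul_le_mul_of_nonneg_right (mul_le_mul_of_nonneg_left hY1 hP) (by positivity)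
      · exact mul_le_mul_of_nonneg_left hY2 hE
    calc |det_nu (T ^ 12) d| * |det_th T e| * _ ≤ (3 * 1) * _ :=
          mul_le_mul h4 (h5.trans h6) (norm_nonneg _) (by norm_num)
      _ = _ := by ring
  have hsum : ‖∑ d ∈ Icc 1 A, ∑ e ∈ Icc 1 B, ((det_nu (T ^ 12) d * det_th T e : ℝ) : ℂ) *
        (χ ((d.lcm e : ℕ) : ZMod q) * ((d.lcm e : ℕ) : ℂ) ^ (-ρ) *
          Ssum (cf χ) ρ (T ^ 40 / (d.lcm e : ℕ)))‖ ≤
      ∑ d ∈ Icc 1 A, ∑ e ∈ Icc 1 B,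
        3 * (P * T ^ (1 / 10 : ℝ) * (1 / (d.lcm e : ℕ)) + E * T ^ (-(399 / 10) : ℝ)) := by
    refine (norm_sum_le _ _).trans (Finset.sum_le_sum fun d hd => ?_)
    exact (norm_sum_le _ _).trans (Finset.sum_le_sum fun e he => hterm d hd e he)
  refine hsum.trans ?_
  have hexp : ∑ d ∈ Icc 1 A, ∑ e ∈ Icc 1 B,
        3 * (P * T ^ (1 / 10 : ℝ) * (1 / ((d.lcm e : ℕ) : ℝ)) + E * T ^ (-(399 / 10) : ℝ)) =
      3 * P * T ^ (1 / 10 : ℝ) * (∑ d ∈ Icc 1 A, ∑ e ∈ Icc 1 B, 1 / ((d.lcm e : ℕ) : ℝ)) +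
        3 * ((A : ℝ) * B) * E * T ^ (-(399 / 10) : ℝ) := by
    rw [Finset.mul_sum]
    simp only [Finset.mul_sum, mul_add, Finset.sum_add_distrib, Finset.sum_const, Nat.card_Icc,
      nsmul_eq_mul]
    congr 1
    · apply Finset.sum_congr rfl
      intro d _
      apply Finset.sum_congr rfl
      intro e _
      ring
    · rw [Nat.add_sub_cancel, Nat.add_sub_cancel]
      ring
  rw [hexp]
  have hHA : ∑ n ∈ Icc 1 A, (1 : ℝ) / n ≤ 1 + 24 * Real.log T := by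
    refine (det_H A).trans ?_
    have h7 : Real.log A ≤ Real.log (T ^ 24) :=
      Real.log_le_log (by exact_mod_cast hA1) hAT
    rw [Real.log_pow] at h7
    push_cast at h7
    linarith
  have hHB : ∑ n ∈ Icc 1 B, (1 : ℝ) / n ≤ 1 + Real.log T := by
    refine (det_H B).trans ?_
    have h7 : Real.log B ≤ Real.log T := Real.log_le_log (by exact_mod_cast hB1) hBT
    linarith
  have hA0 : 0 ≤ ∑ n ∈ Icc 1 A, (1 : ℝ) / n := Finset.sum_nonneg fun i _ => by positivity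
  have hB0 : 0 ≤ ∑ n ∈ Icc 1 B, (1 : ℝ) / n := Finset.sum_nonneg fun i _ => by positivity
  apply add_le_add
  · apply mul_le_mul_of_nonneg_left _ (by positivity)
    refine (det_lcm A B).trans ?_
    exact mul_le_mul hHA (pow_le_pow_left₀ hB0 hHB 2) (by positivity) (by positivity)
  · have h8 : (A : ℝ) * B ≤ T ^ 25 := by
      have h2 : (A : ℝ) * B ≤ T ^ 24 * T := mul_le_mul hAT hBT (by positivity) (by positivity)
      calc (A : ℝ) * B ≤ T ^ 24 * T := h2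
        _ = T ^ 25 := by ring
    have h9 : 0 ≤ T ^ (-(399 / 10) : ℝ) := Real.rpow_nonneg hT0.le _
    apply mul_le_mul_of_nonneg_right _ h9
    apply mul_le_mul_of_nonneg_right _ hE
    linarith

private theorem det_norm (T : ℝ) (hT : 2 ≤ T) (ρ : ℂ) (hρ : ρ ∈ rect (1 - 1 / 400) T) :
    1 + ‖ρ‖ ≤ 2 * T := by
  have h1 := Complex.norm_le_abs_re_add_abs_im ρ
  have h2 : |ρ.re| ≤ 1 := by
    rw [abs_le]
    constructor
    · linarith [hρ.1]
    · exact hρ.2.1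
  linarith [hρ.2.2]

private theorem det_log (T : ℝ) (hT : 2 ≤ T) :
    (1 + 24 * Real.log T) * (1 + Real.log T) ^ 2 ≤ 961 * 1681 * T ^ (3 / 40 : ℝ) := by
  have hT1 : 1 < T := by linarith
  have hT0 : 0 < T := by linarith
  have hlog : 0 < Real.log T := Real.log_pos hT1
  have h1 := Real.log_le_rpow_div hT0.le (show (0 : ℝ) < 1 / 40 by norm_num)
  set u : ℝ := T ^ (1 / 40 : ℝ) with hu
  have hu1 : 1 ≤ u := Real.one_le_rpow hT1.le (by norm_num)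
  have h2 : Real.log T ≤ 40 * u := by linarith
  have h3 : T ^ (3 / 40 : ℝ) = u ^ 3 := by
    rw [hu, ← Real.rpow_natCast, ← Real.rpow_mul hT0.le]
    norm_num
  rw [h3]
  have h4 : 1 + 24 * Real.log T ≤ 961 * u := by linarith
  have h5 : 1 + Real.log T ≤ 41 * u := by linarith
  calc (1 + 24 * Real.log T) * (1 + Real.log T) ^ 2 ≤ (961 * u) * (41 * u) ^ 2 :=
        mul_le_mul h4 (pow_le_pow_left₀ (by positivity) h5 2) (by positivity) (by positivity)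
    _ = 961 * 1681 * u ^ 3 := by ring

theorem thm_Det (h1 : St_A1) (h2 : St_A1p) : St_Det := by
  obtain ⟨C, hC, hA1p⟩ := h2
  have hlim : ∀ᶠ T : ℝ in Filter.atTop, 3 * (961 * 1681) * T ^ (-(3 / 40) : ℝ) ≤ 1 / 8 ∧
      (6 * C + 24) * T ^ (-1 : ℝ) ≤ 1 / 8 := by
    have e1 : Filter.Tendsto (fun T : ℝ => 3 * (961 * 1681) * T ^ (-(3 / 40) : ℝ)) Filter.atTop
        (nhds (3 * (961 * 1681) * 0)) :=
      (tendsto_rpow_neg_atTop (by norm_num)).const_mul _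
    have e2 : Filter.Tendsto (fun T : ℝ => (6 * C + 24) * T ^ (-1 : ℝ)) Filter.atTop
        (nhds ((6 * C + 24) * 0)) :=
      (tendsto_rpow_neg_atTop (by norm_num)).const_mul _
    rw [mul_zero] at e1 e2
    exact (e1.eventually_le_const (by norm_num)).and (e2.eventually_le_const (by norm_num))
  obtain ⟨T₁, hT₁⟩ := Filter.eventually_atTop.1 hlim
  refine ⟨max 2 T₁, le_max_left _ _, ?_⟩
  intro T hT q _ χ hq ρ hρ hL him
  have hT2 : 2 ≤ T := (le_max_left _ _).trans hT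
  have hT1 : 1 < T := by linarith
  have hT0 : 0 < T := by linarith
  obtain ⟨hl1, hl2⟩ := hT₁ T ((le_max_right _ _).trans hT)
  have hρ1 : ρ ≠ 1 := by
    rintro rfl
    exact Lf_ne_zero χ (by simp) hL
  have hL' : χ.LFunction ρ = 0 := (Lf_eq_zero_iff χ hρ1).1 hL
  have hn := det_norm T hT2 ρ hρ
  have hn0 := norm_nonneg ρ
  have hq0 : (0 : ℝ) ≤ q := Nat.cast_nonneg q
  have hqn : (q : ℝ) * (1 + ‖ρ‖) ≤ 2 * T ^ 2 := by
    calc (q : ℝ) * (1 + ‖ρ‖) ≤ T * (2 * T) :=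
          mul_le_mul hq hn (by positivity) hT0.le
      _ = 2 * T ^ 2 := by ring
  have hhalf : (1 / 2 : ℝ) ≤ ρ.re := by linarith [hρ.1]
  -- the error part
  have herr : ∀ K : ℝ, 0 ≤ K → 3 * T ^ 25 * (K * (2 * T ^ 2)) * T ^ (-(399 / 10) : ℝ) ≤
      6 * K * T ^ (-1 : ℝ) := by
    intro K hK
    have e1 : T ^ 25 * T ^ 2 * T ^ (-(399 / 10) : ℝ) ≤ T ^ (-1 : ℝ) := by
      rw [← pow_add, ← Real.rpow_natCast, ← Real.rpow_add hT0]
      apply Real.rpow_le_rpow_of_exponent_le hT1.le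
      norm_num
    calc 3 * T ^ 25 * (K * (2 * T ^ 2)) * T ^ (-(399 / 10) : ℝ)
        = 6 * K * (T ^ 25 * T ^ 2 * T ^ (-(399 / 10) : ℝ)) := by ring
      _ ≤ 6 * K * T ^ (-1 : ℝ) := mul_le_mul_of_nonneg_left e1 (by positivity)
  have hTm : 0 ≤ T ^ (-1 : ℝ) := Real.rpow_nonneg hT0.le _
  have hfull : ‖∑ n ∈ Icc 1 ⌊T ^ 40⌋₊, (((fBV (T ^ 12) n * gw T n : ℝ) : ℂ) *
      χ (n : ZMod q)) * (n : ℂ) ^ (-ρ)‖ ≤ 1 / 2 := by
    by_cases hχ : χ = 1
    · subst hχ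
      have him' := him rfl
      have hi0 : 0 < T ^ (1 / 4 : ℝ) := Real.rpow_pos_of_pos hT0 _
      have h1ρ : T ^ (1 / 4 : ℝ) ≤ ‖1 - ρ‖ := by
        refine him'.trans ?_
        have := Complex.abs_im_le_norm (1 - ρ)
        simpa using this
      have hS : ∀ v : ℝ, 1 ≤ v → ‖Ssum (cf (1 : DirichletCharacter ℂ q)) ρ v‖ ≤
          T ^ (-(1 / 4) : ℝ) * v ^ (1 - ρ.re) + C * (2 * T ^ 2) * v ^ (-ρ.re) := by
        intro v hv
        have hv0 : 0 < v := by linarith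
        have h3 := hA1p q ρ hhalf hρ1 v hv
        rw [hL', sub_zero] at h3
        have h4 : ‖((Nat.totient q : ℂ) / q) * ((v : ℂ) ^ (1 - ρ) / (1 - ρ))‖ ≤
            T ^ (-(1 / 4) : ℝ) * v ^ (1 - ρ.re) := by
          rw [norm_mul, norm_div, norm_div, Complex.norm_cpow_eq_rpow_re_of_pos hv0]
          have h5 : ‖(Nat.totient q : ℂ)‖ / ‖(q : ℂ)‖ ≤ 1 := by
            rw [Complex.norm_natCast, Complex.norm_natCast]
            apply div_le_one_of_le₀ _ hq0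
            exact_mod_cast Nat.totient_le q
          have h6 : v ^ (1 - ρ).re / ‖1 - ρ‖ ≤ T ^ (-(1 / 4) : ℝ) * v ^ (1 - ρ.re) := by
            rw [Complex.sub_re, Complex.one_re, Real.rpow_neg hT0.le, div_eq_inv_mul]
            exact mul_le_mul_of_nonneg_right (inv_anti₀ hi0 h1ρ) (Real.rpow_nonneg hv0.le _)
          calc _ ≤ 1 * (T ^ (-(1 / 4) : ℝ) * v ^ (1 - ρ.re)) :=
                mul_le_mul h5 h6 (by positivity) (by norm_num)
            _ = _ := one_mul _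
        have h7 : C * q * (1 + ‖ρ‖) * v ^ (-ρ.re) ≤ C * (2 * T ^ 2) * v ^ (-ρ.re) := by
          apply mul_le_mul_of_nonneg_right _ (Real.rpow_nonneg hv0.le _)
          rw [mul_assoc]
          exact mul_le_mul_of_nonneg_left hqn hC.le
        have h8 := norm_sub_norm_le (Ssum (cf (1 : DirichletCharacter ℂ q)) ρ v)
          (((Nat.totient q : ℂ) / q) * ((v : ℂ) ^ (1 - ρ) / (1 - ρ)))
        linarith
      have h9 := det_total (1 : DirichletCharacter ℂ q) T hT2 ρ hρ.1 (T ^ (-(1 / 4) : ℝ))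
        (C * (2 * T ^ 2)) (by positivity) (Real.rpow_nonneg hT0.le _) hS
      have h10 := herr C hC.le
      have h11 : 3 * T ^ (-(1 / 4) : ℝ) * T ^ (1 / 10 : ℝ) *
          ((1 + 24 * Real.log T) * (1 + Real.log T) ^ 2) ≤ 1 / 8 := by
        have h12 := det_log T hT2
        have h13 : 0 ≤ 3 * T ^ (-(1 / 4) : ℝ) * T ^ (1 / 10 : ℝ) := by positivity
        have h14 : 3 * T ^ (-(1 / 4) : ℝ) * T ^ (1 / 10 : ℝ) *
            (961 * 1681 * T ^ (3 / 40 : ℝ)) = 3 * (961 * 1681) * T ^ (-(3 / 40) : ℝ) := by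
          have h15 : T ^ (-(3 / 40) : ℝ) =
              T ^ (-(1 / 4) : ℝ) * T ^ (1 / 10 : ℝ) * T ^ (3 / 40 : ℝ) := by
            rw [← Real.rpow_add hT0, ← Real.rpow_add hT0]
            norm_num
          rw [h15]
          ring
        calc _ ≤ _ := mul_le_mul_of_nonneg_left h12 h13
          _ = _ := h14
          _ ≤ 1 / 8 := hl1
      have h16 : 6 * C * T ^ (-1 : ℝ) ≤ (6 * C + 24) * T ^ (-1 : ℝ) := by nlinarith
      linarith
    · have hS : ∀ v : ℝ, 1 ≤ v → ‖Ssum (cf χ) ρ v‖ ≤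
          0 * v ^ (1 - ρ.re) + 4 * (2 * T ^ 2) * v ^ (-ρ.re) := by
        intro v hv
        have hv0 : 0 < v := by linarith
        have h3 := h1 q χ hχ ρ hhalf v hv
        rw [hL', sub_zero] at h3
        refine h3.trans ?_
        rw [zero_mul, zero_add]
        apply mul_le_mul_of_nonneg_right _ (Real.rpow_nonneg hv0.le _)
        rw [mul_assoc]
        exact mul_le_mul_of_nonneg_left hqn (by norm_num)
      have h9 := det_total χ T hT2 ρ hρ.1 0 (4 * (2 * T ^ 2)) (by positivity) le_rfl hS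
      have h10 := herr 4 (by norm_num)
      have h16 : 6 * 4 * T ^ (-1 : ℝ) ≤ (6 * C + 24) * T ^ (-1 : ℝ) := by nlinarith
      linarith
  rw [det_split χ T hT2 ρ] at hfull
  have h20 := norm_sub_norm_le (1 : ℂ) (-(∑ n ∈ Ioc ⌊T ^ 12⌋₊ ⌊T ^ 40⌋₊,
    (((fBV (T ^ 12) n * gw T n : ℝ) : ℂ) * χ (n : ZMod q)) * (n : ℂ) ^ (-ρ)))
  rw [sub_neg_eq_add, norm_neg, norm_one] at h20
  linarith

end Pool.Agent.MVX
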