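import Pool.Agent.MVX.StD
import Pool.Agent.BVX.A1

set_option autoImplicit false

/-!
# Project MVX [DuN]: the dual sum, nonprincipal characters
-/

namespace Pool.Agent.MVX

open Finset Pool.Agent.BVX

/-! ### the weights of the divisors -/

private noncomputable def dun_lam (T : ℝ) (d : ℕ) : ℝ :=
  (ArithmeticFunction.moebius d : ℝ) * Real.log (T / d) / Real.log T

private theorem dun_lam_le {T : ℝ} (hT : 2 ≤ T) {d : ℕ} (hd : d ∈ Icc 1 ⌊T⌋₊) :
    |dun_lam T d| ≤ 1 := by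
  rw [mem_Icc] at hd
  have h1 : (1 : ℝ) ≤ d := by exact_mod_cast hd.1
  have h2 : (d : ℝ) ≤ T := (Nat.le_floor_iff (by linarith)).1 hd.2
  have hL : 0 < Real.log T := Real.log_pos (by linarith)
  have h3 : 0 ≤ Real.log (T / d) :=
    Real.log_nonneg (by rw [le_div_iff₀ (by linarith)]; linarith)
  have h4 : Real.log (T / d) ≤ Real.log T :=
    Real.log_le_log (div_pos (by linarith) (by linarith)) (div_le_self (by linarith) h1)
  have h5 : |(ArithmeticFunction.moebius d : ℝ)| ≤ 1 := by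
    have := ArithmeticFunction.abs_moebius_le_one (n := d)
    exact_mod_cast this
  unfold dun_lam
  rw [abs_div, abs_mul, abs_of_nonneg h3, abs_of_pos hL, div_le_one hL]
  calc |(ArithmeticFunction.moebius d : ℝ)| * Real.log (T / d) ≤ 1 * Real.log (T / d) :=
        mul_le_mul_of_nonneg_right h5 h3
    _ ≤ Real.log T := by rw [one_mul]; exact h4

private theorem dun_gw {T : ℝ} (hT : 2 ≤ T) {n : ℕ} (hn : 1 ≤ n) :
    gw T n = ∑ d ∈ Icc 1 ⌊T⌋₊, if d ∣ n then dun_lam T d else 0 := by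
  unfold gw
  rw [sum_div, ← sum_filter]
  refine sum_congr ?_ fun d _ => rfl
  ext d
  rw [mem_filter, mem_filter, Nat.mem_divisors, mem_Icc, Nat.le_floor_iff (by linarith)]
  constructor
  · rintro ⟨⟨h1, h2⟩, h3⟩
    exact ⟨⟨Nat.pos_of_dvd_of_pos h1 hn, h3⟩, h1⟩
  · rintro ⟨⟨h1, h2⟩, h3⟩
    exact ⟨⟨h3, by omega⟩, h2⟩

private theorem dun_sq {T : ℝ} (hT : 2 ≤ T) {n : ℕ} (hn : 1 ≤ n) :
    gw T n ^ 2 = ∑ d ∈ Icc 1 ⌊T⌋₊, ∑ e ∈ Icc 1 ⌊T⌋₊,
      if d.lcm e ∣ n then dun_lam T d * dun_lam T e else 0 := by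
  rw [dun_gw hT hn, sq, sum_mul_sum]
  refine sum_congr rfl fun d _ => sum_congr rfl fun e _ => ?_
  by_cases h1 : d ∣ n
  · by_cases h2 : e ∣ n
    · rw [if_pos h1, if_pos h2, if_pos (Nat.lcm_dvd h1 h2)]
    · rw [if_neg h2, mul_zero, if_neg fun h => h2 ((Nat.dvd_lcm_right d e).trans h)]
  · rw [if_neg h1, zero_mul, if_neg fun h => h1 ((Nat.dvd_lcm_left d e).trans h)]

private theorem dun_mult (D N : ℕ) (hD : 0 < D) (g : ℕ → ℂ) :
    ∑ n ∈ (Icc 1 N).filter (fun n => D ∣ n), g n = ∑ k ∈ range (N / D), g (D * (k + 1)) := by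
  symm
  refine sum_nbij (fun k => D * (k + 1)) ?_ ?_ ?_ ?_
  · intro k hk
    rw [mem_range] at hk
    rw [mem_filter, mem_Icc]
    refine ⟨⟨Nat.mul_pos hD k.succ_pos, ?_⟩, dvd_mul_right _ _⟩
    calc D * (k + 1) ≤ D * (N / D) := Nat.mul_le_mul_left _ hk
      _ ≤ N := Nat.mul_div_le N D
  · intro a _ b _ h
    have h1 := Nat.eq_of_mul_eq_mul_left hD h
    omega
  · intro n hn
    have hn' := mem_coe.1 hn
    rw [mem_filter, mem_Icc] at hn'
    obtain ⟨⟨h1, h2⟩, c, rfl⟩ := hn'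
    have hc : 0 < c := by
      rcases Nat.eq_zero_or_pos c with h | h
      · rw [h, mul_zero] at h1
        omega
      · exact h
    refine ⟨c - 1, ?_, ?_⟩
    · rw [mem_coe, mem_range]
      have h3 : c ≤ N / D := by
        rw [Nat.le_div_iff_mul_le hD, mul_comm]
        exact h2
      omega
    · show D * (c - 1 + 1) = D * c
      rw [Nat.sub_add_cancel hc]
  · intro k _
    rfl

/-! ### the trapezoid -/

private noncomputable def dun_tr (L x : ℝ) : ℝ :=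
  max 0 (42 * L - x) - max 0 (40 * L - x) - max 0 (12 * L - x) + max 0 (10 * L - x)

private theorem dun_VT {T u : ℝ} (hT : 0 < T) (hu : 0 < u) :
    VT T u = dun_tr (Real.log T) (Real.log u) / (2 * Real.log T) := by
  have h1 : ∀ n : ℕ, lp (T ^ n / u) = max 0 (n * Real.log T - Real.log u) := by
    intro n
    unfold lp
    rw [Real.log_div (by positivity) hu.ne', Real.log_pow]
  unfold VT dun_tr
  rw [h1 42, h1 40, h1 12, h1 10]
  norm_num

private theorem dun_tr_le {L : ℝ} (hL : 0 ≤ L) (x : ℝ) : |dun_tr L x| ≤ 2 * L := by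
  unfold dun_tr
  rw [abs_le]
  rcases max_cases 0 (42 * L - x) with ⟨h1, h1'⟩ | ⟨h1, h1'⟩ <;>
  rcases max_cases 0 (40 * L - x) with ⟨h2, h2'⟩ | ⟨h2, h2'⟩ <;>
  rcases max_cases 0 (12 * L - x) with ⟨h3, h3'⟩ | ⟨h3, h3'⟩ <;>
  rcases max_cases 0 (10 * L - x) with ⟨h4, h4'⟩ | ⟨h4, h4'⟩ <;>
  rw [h1, h2, h3, h4] <;> constructor <;> linarith

private theorem dun_max (a x y : ℝ) : |max 0 (a - x) - max 0 (a - y)| ≤ |x - y| := by
  have h := abs_max_sub_max_le_abs (a - x) (a - y) 0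
  rw [max_comm (a - x), max_comm (a - y)] at h
  refine h.trans (le_of_eq ?_)
  rw [show a - x - (a - y) = -(x - y) by ring, abs_neg]

private theorem dun_tr_lip (L x y : ℝ) : |dun_tr L x - dun_tr L y| ≤ 4 * |x - y| := by
  have h1 := abs_le.1 (dun_max (42 * L) x y)
  have h2 := abs_le.1 (dun_max (40 * L) x y)
  have h3 := abs_le.1 (dun_max (12 * L) x y)
  have h4 := abs_le.1 (dun_max (10 * L) x y)
  unfold dun_tr
  rw [abs_le]
  constructor <;> linarith [h1.1, h1.2, h2.1, h2.2, h3.1, h3.2, h4.1, h4.2]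

private theorem dun_VT_le {T u : ℝ} (hT : 2 ≤ T) (hu : 0 < u) : |VT T u| ≤ 1 := by
  have hL : 0 < Real.log T := Real.log_pos (by linarith)
  rw [dun_VT (by linarith) hu, abs_div, abs_of_pos (show 0 < 2 * Real.log T by linarith),
    div_le_one (by linarith)]
  exact dun_tr_le hL.le _

private theorem dun_VT_hi {T u : ℝ} (hT : 2 ≤ T) (hu : T ^ 42 ≤ u) : VT T u = 0 := by
  have hL : 0 < Real.log T := Real.log_pos (by linarith)
  have hu0 : 0 < u := lt_of_lt_of_le (by positivity) hu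
  have h1 : 42 * Real.log T ≤ Real.log u := by
    have h2 := Real.log_le_log (by positivity) hu
    rw [Real.log_pow] at h2
    exact_mod_cast h2
  rw [dun_VT (by linarith) hu0]
  unfold dun_tr
  rw [max_eq_left (by linarith), max_eq_left (by linarith), max_eq_left (by linarith),
    max_eq_left (by linarith)]
  norm_num

private theorem dun_VT_lo {T u : ℝ} (hT : 2 ≤ T) (hu0 : 0 < u) (hu : u ≤ T ^ 10) :
    VT T u = 0 := by
  have hL : 0 < Real.log T := Real.log_pos (by linarith)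
  have h1 : Real.log u ≤ 10 * Real.log T := by
    have h2 := Real.log_le_log hu0 hu
    rw [Real.log_pow] at h2
    exact_mod_cast h2
  rw [dun_VT (by linarith) hu0]
  unfold dun_tr
  rw [max_eq_right (by linarith), max_eq_right (by linarith), max_eq_right (by linarith),
    max_eq_right (by linarith)]
  have : 42 * Real.log T - Real.log u - (40 * Real.log T - Real.log u) -
      (12 * Real.log T - Real.log u) + (10 * Real.log T - Real.log u) = 0 := by ring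
  rw [this, zero_div]

private theorem dun_VT_lip {T u v : ℝ} (hT : 2 ≤ T) (hL : 2 ≤ Real.log T) (hu : 0 < u)
    (hv : 0 < v) : |VT T u - VT T v| ≤ |Real.log u - Real.log v| := by
  rw [dun_VT (by linarith) hu, dun_VT (by linarith) hv, ← sub_div, abs_div,
    abs_of_pos (show 0 < 2 * Real.log T by linarith), div_le_iff₀ (by linarith)]
  refine (dun_tr_lip _ _ _).trans ?_
  have := abs_nonneg (Real.log u - Real.log v)
  nlinarith

/-! ### the inner sum -/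

private noncomputable def dun_b (T : ℝ) (D : ℕ) (w : ℂ) (k : ℕ) : ℂ :=
  ((VT T ((D * (k + 1) : ℕ) : ℝ) : ℝ) : ℂ) * a1_b w k

private theorem dun_b_sub {T : ℝ} (hT : 4 ≤ T) (hL : 2 ≤ Real.log T) {D : ℕ} (hD : 0 < D)
    (hDT : (D : ℝ) ≤ T ^ 2) {w : ℂ} (hw : 1 - 1 / 200 ≤ w.re) (k : ℕ) :
    ‖dun_b T D w k - dun_b T D w (k + 1)‖ ≤ (‖w‖ + 1) * (T ^ 7)⁻¹ * ((k : ℝ) + 1)⁻¹ := by
  have hT2 : (2 : ℝ) ≤ T := by linarith
  have hk : (0 : ℝ) < (k : ℝ) + 1 := by positivity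
  have hD0 : (0 : ℝ) < D := by exact_mod_cast hD
  have hp1 : (0 : ℝ) < ((D * (k + 1) : ℕ) : ℝ) := by positivity
  have hp2 : (0 : ℝ) < ((D * (k + 1 + 1) : ℕ) : ℝ) := by positivity
  have hR : 0 ≤ (‖w‖ + 1) * (T ^ 7)⁻¹ * ((k : ℝ) + 1)⁻¹ := by positivity
  by_cases h : ((D * (k + 1 + 1) : ℕ) : ℝ) ≤ T ^ 10
  · have h1 : ((D * (k + 1) : ℕ) : ℝ) ≤ T ^ 10 := by
      refine le_trans ?_ h
      exact_mod_cast Nat.mul_le_mul_left D (Nat.le_succ _)
    unfold dun_b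
    rw [dun_VT_lo hT2 hp1 h1, dun_VT_lo hT2 hp2 h, Complex.ofReal_zero, zero_mul, zero_mul,
      sub_zero, norm_zero]
    exact hR
  · push Not at h
    -- the size of `k`
    have hkT : T ^ (15 / 2 : ℝ) ≤ (k : ℝ) + 1 := by
      have h1 : T ^ 8 ≤ (k : ℝ) + 2 := by
        push_cast at h
        by_contra hc
        push Not at hc
        have h2 : (D : ℝ) * ((k : ℝ) + 1 + 1) ≤ T ^ 2 * T ^ 8 :=
          mul_le_mul hDT (by linarith) (by positivity) (by positivity)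
        have h3 : T ^ 2 * T ^ 8 = T ^ 10 := by ring
        linarith
      have h2 : T ^ (15 / 2 : ℝ) * 2 ≤ T ^ 8 := by
        have h3 : T ^ 8 = T ^ (15 / 2 : ℝ) * T ^ (1 / 2 : ℝ) := by
          rw [← Real.rpow_add (by linarith), ← Real.rpow_natCast]
          norm_num
        rw [h3]
        refine mul_le_mul_of_nonneg_left ?_ (by positivity)
        have h4 : (2 : ℝ) = 4 ^ (1 / 2 : ℝ) := by
          rw [← Real.sqrt_eq_rpow, show (4 : ℝ) = 2 ^ 2 by norm_num,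
            Real.sqrt_sq (by norm_num)]
        have h5 : (4 : ℝ) ^ (1 / 2 : ℝ) ≤ T ^ (1 / 2 : ℝ) :=
          Real.rpow_le_rpow (by norm_num) hT (by norm_num)
        exact h4.le.trans h5
      have h3 : (k : ℝ) + 2 ≤ 2 * ((k : ℝ) + 1) := by
        have : (0 : ℝ) ≤ k := by positivity
        linarith
      linarith
    have hk1 : (1 : ℝ) ≤ (k : ℝ) + 1 := by
      have : (0 : ℝ) ≤ k := by positivity
      linarith
    have hpow : ((k : ℝ) + 1) ^ (-w.re) ≤ (T ^ 7)⁻¹ := by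
      calc ((k : ℝ) + 1) ^ (-w.re) ≤ ((k : ℝ) + 1) ^ (-(14 / 15) : ℝ) :=
            Real.rpow_le_rpow_of_exponent_le hk1 (by linarith)
        _ ≤ (T ^ (15 / 2 : ℝ)) ^ (-(14 / 15) : ℝ) :=
            Real.rpow_le_rpow_of_nonpos (by positivity) hkT (by norm_num)
        _ = (T ^ 7)⁻¹ := by
            rw [← Real.rpow_mul (by linarith), ← Real.rpow_natCast, ← Real.rpow_neg (by linarith)]
            norm_num
    have hpow' : ((k : ℝ) + 1) ^ (-w.re - 1) ≤ (T ^ 7)⁻¹ * ((k : ℝ) + 1)⁻¹ := by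
      rw [sub_eq_add_neg, Real.rpow_add hk, Real.rpow_neg_one]
      exact mul_le_mul_of_nonneg_right hpow (by positivity)
    -- the difference
    have e1 : dun_b T D w k - dun_b T D w (k + 1) =
        ((VT T ((D * (k + 1) : ℕ) : ℝ) : ℝ) : ℂ) * (a1_b w k - a1_b w (k + 1)) +
        ((VT T ((D * (k + 1) : ℕ) : ℝ) - VT T ((D * (k + 1 + 1) : ℕ) : ℝ) : ℝ) : ℂ) *
          a1_b w (k + 1) := by
      unfold dun_b
      push_cast
      ring
    rw [e1]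
    have h1 : ‖((VT T ((D * (k + 1) : ℕ) : ℝ) : ℝ) : ℂ) * (a1_b w k - a1_b w (k + 1))‖ ≤
        ‖w‖ * ((T ^ 7)⁻¹ * ((k : ℝ) + 1)⁻¹) := by
      rw [norm_mul, Complex.norm_real, Real.norm_eq_abs]
      calc |VT T ((D * (k + 1) : ℕ) : ℝ)| * ‖a1_b w k - a1_b w (k + 1)‖
          ≤ 1 * (‖w‖ * ((k : ℝ) + 1) ^ (-w.re - 1)) :=
            mul_le_mul (dun_VT_le hT2 hp1) (a1_b_sub w (by linarith) k) (norm_nonneg _)
              zero_le_one
        _ ≤ ‖w‖ * ((T ^ 7)⁻¹ * ((k : ℝ) + 1)⁻¹) := by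
            rw [one_mul]
            exact mul_le_mul_of_nonneg_left hpow' (norm_nonneg _)
    have h2 : ‖((VT T ((D * (k + 1) : ℕ) : ℝ) - VT T ((D * (k + 1 + 1) : ℕ) : ℝ) : ℝ) : ℂ) *
        a1_b w (k + 1)‖ ≤ (T ^ 7)⁻¹ * ((k : ℝ) + 1)⁻¹ := by
      rw [norm_mul, Complex.norm_real, Real.norm_eq_abs, a1_norm_b]
      have h3 : |VT T ((D * (k + 1) : ℕ) : ℝ) - VT T ((D * (k + 1 + 1) : ℕ) : ℝ)| ≤
          ((k : ℝ) + 1)⁻¹ := by
        refine (dun_VT_lip hT2 hL hp1 hp2).trans ?_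
        have h4 : Real.log ((D * (k + 1) : ℕ) : ℝ) ≤ Real.log ((D * (k + 1 + 1) : ℕ) : ℝ) := by
          refine Real.log_le_log hp1 ?_
          exact_mod_cast Nat.mul_le_mul_left D (Nat.le_succ _)
        rw [abs_sub_comm, abs_of_nonneg (by linarith), ← Real.log_div hp2.ne' hp1.ne']
        refine (Real.log_le_sub_one_of_pos (by positivity)).trans (le_of_eq ?_)
        push_cast
        field_simp
        ring
      have h5 : (((k + 1 : ℕ) : ℝ) + 1) ^ (-w.re) ≤ (T ^ 7)⁻¹ := by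
        refine le_trans ?_ hpow
        refine Real.rpow_le_rpow_of_nonpos hk ?_ (by linarith)
        push_cast
        linarith
      rw [mul_comm]
      exact mul_le_mul h5 h3 (abs_nonneg _) (by positivity)
    calc _ ≤ _ := norm_add_le _ _
      _ ≤ ‖w‖ * ((T ^ 7)⁻¹ * ((k : ℝ) + 1)⁻¹) + (T ^ 7)⁻¹ * ((k : ℝ) + 1)⁻¹ := add_le_add h1 h2
      _ = (‖w‖ + 1) * (T ^ 7)⁻¹ * ((k : ℝ) + 1)⁻¹ := by ring

private theorem dun_harm (M : ℕ) : ∑ k ∈ range M, ((k : ℝ) + 1)⁻¹ ≤ 1 + Real.log M := by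
  have h1 := harmonic_le_one_add_log M
  unfold harmonic at h1
  push_cast at h1
  exact h1

private theorem dun_inner {T : ℝ} (hT : 4 ≤ T) (hL : 2 ≤ Real.log T) {q : ℕ} [NeZero q]
    (ψ : DirichletCharacter ℂ q) (hψ : ψ ≠ 1) (hq : (q : ℝ) ≤ T ^ 2) {D : ℕ} (hD : 0 < D)
    (hDT : (D : ℝ) ≤ T ^ 2) {w : ℂ} (hw : 1 - 1 / 200 ≤ w.re) (hw1 : w.re ≤ 1)
    (hwi : |w.im| ≤ 2 * T) :
    ‖∑ n ∈ (Icc 1 ⌊T ^ 42⌋₊).filter (fun n => D ∣ n),
      (((VT T n : ℝ) : ℂ) * ψ (n : ZMod q)) * (n : ℂ) ^ (-w)‖ ≤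
      T ^ 2 * ((2 * T + 2) * (T ^ 7)⁻¹ * (1 + 42 * Real.log T)) := by
  have hT2 : (2 : ℝ) ≤ T := by linarith
  have hD0 : (0 : ℝ) < D := by exact_mod_cast hD
  obtain ⟨N, hN⟩ : ∃ N, N = ⌊T ^ 42⌋₊ := ⟨_, rfl⟩
  have hNT : T ^ 42 < (N : ℝ) + 1 := by
    rw [hN]
    exact Nat.lt_floor_add_one _
  have hNT' : (N : ℝ) ≤ T ^ 42 := by
    rw [hN]
    exact Nat.floor_le (by positivity)
  rw [← hN, dun_mult D N hD]
  have h1 : ∀ k : ℕ, (((VT T ((D * (k + 1) : ℕ) : ℝ) : ℝ) : ℂ) *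
      ψ ((D * (k + 1) : ℕ) : ZMod q)) * ((D * (k + 1) : ℕ) : ℂ) ^ (-w) =
      (ψ (D : ZMod q) * (D : ℂ) ^ (-w)) * (ψ ((k + 1 : ℕ) : ZMod q) * dun_b T D w k) := by
    intro k
    have h2 : ((D * (k + 1) : ℕ) : ℂ) ^ (-w) = (D : ℂ) ^ (-w) * a1_b w k := by
      have h3 := Complex.natCast_mul_natCast_cpow D (k + 1) (-w)
      unfold a1_b
      push_cast at h3 ⊢
      exact h3
    have h3 : ψ ((D * (k + 1) : ℕ) : ZMod q) = ψ (D : ZMod q) * ψ ((k + 1 : ℕ) : ZMod q) := by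
      rw [Nat.cast_mul, map_mul]
    rw [h2, h3]
    unfold dun_b
    ring
  rw [sum_congr rfl fun k _ => h1 k, ← mul_sum, a1_abel ψ (dun_b T D w) (N / D)]
  have h2 : dun_b T D w (N / D) = 0 := by
    unfold dun_b
    have h3 : T ^ 42 ≤ ((D * (N / D + 1) : ℕ) : ℝ) := by
      have h4 : N + 1 ≤ D * (N / D + 1) := by
        have := Nat.lt_mul_div_succ N hD
        omega
      have h5 : ((N + 1 : ℕ) : ℝ) ≤ ((D * (N / D + 1) : ℕ) : ℝ) := by exact_mod_cast h4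
      push_cast at h5 ⊢
      linarith
    rw [dun_VT_hi hT2 h3, Complex.ofReal_zero, zero_mul]
  rw [h2, mul_zero, zero_add]
  have h3 : ‖ψ (D : ZMod q) * (D : ℂ) ^ (-w)‖ ≤ 1 := by
    rw [norm_mul, Complex.norm_natCast_cpow_of_pos hD, Complex.neg_re]
    have h4 : ((D : ℕ) : ℝ) ^ (-w.re) ≤ 1 :=
      Real.rpow_le_one_of_one_le_of_nonpos (by exact_mod_cast hD) (by linarith)
    have h5 := DirichletCharacter.norm_le_one ψ (D : ZMod q)
    calc ‖ψ (D : ZMod q)‖ * (D : ℝ) ^ (-w.re) ≤ 1 * 1 :=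
          mul_le_mul h5 h4 (by positivity) zero_le_one
      _ = 1 := one_mul 1
  have hwn : ‖w‖ + 1 ≤ 2 * T + 2 := by
    have h4 := Complex.norm_le_abs_re_add_abs_im w
    have h5 : |w.re| ≤ 1 := abs_le.2 ⟨by linarith, hw1⟩
    linarith
  have h4 : ‖∑ k ∈ range (N / D), a1_T ψ (k + 1) * (dun_b T D w k - dun_b T D w (k + 1))‖ ≤
      T ^ 2 * ((2 * T + 2) * (T ^ 7)⁻¹ * (1 + 42 * Real.log T)) := by
    refine (norm_sum_le _ _).trans ?_
    have h5 : ∀ k ∈ range (N / D), ‖a1_T ψ (k + 1) * (dun_b T D w k - dun_b T D w (k + 1))‖ ≤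
        T ^ 2 * ((2 * T + 2) * (T ^ 7)⁻¹) * ((k : ℝ) + 1)⁻¹ := by
      intro k _
      rw [norm_mul, mul_assoc]
      refine mul_le_mul ((a1_T_bound ψ hψ _).trans hq) ?_ (norm_nonneg _) (by positivity)
      refine (dun_b_sub hT hL hD hDT hw k).trans ?_
      exact mul_le_mul_of_nonneg_right (mul_le_mul_of_nonneg_right hwn (by positivity))
        (by positivity)
    refine (sum_le_sum h5).trans ?_
    rw [← mul_sum, mul_assoc]
    refine mul_le_mul_of_nonneg_left ?_ (by positivity)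
    refine mul_le_mul_of_nonneg_left ?_ (by positivity)
    refine (dun_harm _).trans ?_
    have h6 : Real.log ((N / D : ℕ) : ℝ) ≤ 42 * Real.log T := by
      rcases Nat.eq_zero_or_pos (N / D) with h0 | h0
      · rw [h0, Nat.cast_zero, Real.log_zero]
        linarith
      · have h7 : ((N / D : ℕ) : ℝ) ≤ T ^ 42 := by
          refine le_trans ?_ hNT'
          exact_mod_cast Nat.div_le_self N D
        have h8 := Real.log_le_log (by exact_mod_cast h0) h7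
        rw [Real.log_pow] at h8
        exact_mod_cast h8
    linarith
  rw [norm_mul]
  calc _ ≤ 1 * (T ^ 2 * ((2 * T + 2) * (T ^ 7)⁻¹ * (1 + 42 * Real.log T))) :=
        mul_le_mul h3 h4 (norm_nonneg _) zero_le_one
    _ = _ := one_mul _

theorem thm_DuN : St_DuN := by
  refine ⟨10 ^ 6, by norm_num, fun T hT0 q _ ψ hq hψ w hw hw1 hwi => ?_⟩
  have hT : (4 : ℝ) ≤ T := le_trans (by norm_num) hT0
  have hTp : (0 : ℝ) < T := by linarith
  have hT2 : (2 : ℝ) ≤ T := by linarith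
  have hL : 2 ≤ Real.log T := by
    rw [Real.le_log_iff_exp_le hTp]
    have h1 : Real.exp 2 ≤ 10 ^ 6 := by
      have h2 : Real.exp 2 = Real.exp 1 * Real.exp 1 := by
        rw [← Real.exp_add]
        norm_num
      have h3 := Real.exp_one_lt_d9
      have h4 := Real.exp_pos 1
      rw [h2]
      nlinarith
    linarith
  have e1 : ∑ n ∈ Icc 1 ⌊T ^ 42⌋₊, (((VT T n * gw T n ^ 2 : ℝ) : ℂ) * ψ (n : ZMod q)) *
      (n : ℂ) ^ (-w) = ∑ d ∈ Icc 1 ⌊T⌋₊, ∑ e ∈ Icc 1 ⌊T⌋₊,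
        ((dun_lam T d * dun_lam T e : ℝ) : ℂ) *
        ∑ n ∈ (Icc 1 ⌊T ^ 42⌋₊).filter (fun n => d.lcm e ∣ n),
          (((VT T n : ℝ) : ℂ) * ψ (n : ZMod q)) * (n : ℂ) ^ (-w) := by
    have h1 : ∀ n ∈ Icc 1 ⌊T ^ 42⌋₊, (((VT T n * gw T n ^ 2 : ℝ) : ℂ) * ψ (n : ZMod q)) *
        (n : ℂ) ^ (-w) = ∑ d ∈ Icc 1 ⌊T⌋₊, ∑ e ∈ Icc 1 ⌊T⌋₊,
          if d.lcm e ∣ n then ((dun_lam T d * dun_lam T e : ℝ) : ℂ) *
            ((((VT T n : ℝ) : ℂ) * ψ (n : ZMod q)) * (n : ℂ) ^ (-w)) else 0 := by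
      intro n hn
      rw [dun_sq hT2 (mem_Icc.1 hn).1]
      push_cast
      rw [mul_sum, sum_mul, sum_mul]
      refine sum_congr rfl fun d _ => ?_
      rw [mul_sum, sum_mul, sum_mul]
      refine sum_congr rfl fun e _ => ?_
      split_ifs
      · push_cast
        ring
      · push_cast
        ring
    rw [sum_congr rfl h1, sum_comm]
    refine sum_congr rfl fun d _ => ?_
    rw [sum_comm]
    refine sum_congr rfl fun e _ => ?_
    rw [mul_sum, sum_filter]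
  rw [e1]
  have h2 : ∀ d ∈ Icc 1 ⌊T⌋₊, ∀ e ∈ Icc 1 ⌊T⌋₊, ‖((dun_lam T d * dun_lam T e : ℝ) : ℂ) *
        ∑ n ∈ (Icc 1 ⌊T ^ 42⌋₊).filter (fun n => d.lcm e ∣ n),
          (((VT T n : ℝ) : ℂ) * ψ (n : ZMod q)) * (n : ℂ) ^ (-w)‖ ≤
      T ^ 2 * ((2 * T + 2) * (T ^ 7)⁻¹ * (1 + 42 * Real.log T)) := by
    intro d hd e he
    have hd' := mem_Icc.1 hd
    have he' := mem_Icc.1 he
    have h3 : 0 < d.lcm e := Nat.lcm_pos hd'.1 he'.1
    have h4 : ((d.lcm e : ℕ) : ℝ) ≤ T ^ 2 := by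
      have h5 : d.lcm e ≤ d * e := Nat.lcm_le_mul hd'.1 he'.1
      have h6 : (d : ℝ) ≤ T := (Nat.le_floor_iff (by linarith)).1 hd'.2
      have h7 : (e : ℝ) ≤ T := (Nat.le_floor_iff (by linarith)).1 he'.2
      calc ((d.lcm e : ℕ) : ℝ) ≤ ((d * e : ℕ) : ℝ) := by exact_mod_cast h5
        _ = d * e := by push_cast; ring
        _ ≤ T * T := mul_le_mul h6 h7 (by positivity) (by linarith)
        _ = T ^ 2 := by ring
    have h5 := dun_inner hT hL ψ hψ hq h3 h4 hw hw1 hwi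
    have h6 : ‖((dun_lam T d * dun_lam T e : ℝ) : ℂ)‖ ≤ 1 := by
      rw [Complex.norm_real, Real.norm_eq_abs, abs_mul]
      calc |dun_lam T d| * |dun_lam T e| ≤ 1 * 1 :=
            mul_le_mul (dun_lam_le hT2 hd) (dun_lam_le hT2 he) (abs_nonneg _) zero_le_one
        _ = 1 := one_mul 1
    rw [norm_mul]
    calc _ ≤ 1 * (T ^ 2 * ((2 * T + 2) * (T ^ 7)⁻¹ * (1 + 42 * Real.log T))) :=
          mul_le_mul h6 h5 (norm_nonneg _) zero_le_one
      _ = _ := one_mul _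
  have hB : 0 ≤ T ^ 2 * ((2 * T + 2) * (T ^ 7)⁻¹ * (1 + 42 * Real.log T)) := by positivity
  have hfl : ((⌊T⌋₊ : ℕ) : ℝ) ≤ T := Nat.floor_le hTp.le
  have h3 : ∀ d ∈ Icc 1 ⌊T⌋₊, ‖∑ e ∈ Icc 1 ⌊T⌋₊, ((dun_lam T d * dun_lam T e : ℝ) : ℂ) *
        ∑ n ∈ (Icc 1 ⌊T ^ 42⌋₊).filter (fun n => d.lcm e ∣ n),
          (((VT T n : ℝ) : ℂ) * ψ (n : ZMod q)) * (n : ℂ) ^ (-w)‖ ≤
      T * (T ^ 2 * ((2 * T + 2) * (T ^ 7)⁻¹ * (1 + 42 * Real.log T))) := by
    intro d hd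
    refine (norm_sum_le_of_le _ (h2 d hd)).trans ?_
    rw [sum_const, Nat.card_Icc, Nat.add_sub_cancel, nsmul_eq_mul]
    exact mul_le_mul_of_nonneg_right hfl hB
  refine (norm_sum_le_of_le _ h3).trans ?_
  rw [sum_const, Nat.card_Icc, Nat.add_sub_cancel, nsmul_eq_mul]
  refine (mul_le_mul_of_nonneg_right hfl (mul_nonneg hTp.le hB)).trans ?_
  -- the final estimate
  have hlog : Real.log T ≤ 2 * T ^ (1 / 2 : ℝ) := by
    have h4 := Real.log_le_rpow_div hTp.le (show (0 : ℝ) < 1 / 2 by norm_num)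
    linarith
  have hs : (T ^ (1 / 2 : ℝ)) ^ 2 = T := by
    rw [← Real.rpow_natCast, ← Real.rpow_mul hTp.le]
    norm_num
  have hs1 : (1000 : ℝ) ≤ T ^ (1 / 2 : ℝ) := by
    have h4 : (0 : ℝ) ≤ T ^ (1 / 2 : ℝ) := by positivity
    by_contra hc
    push Not at hc
    have h5 : (T ^ (1 / 2 : ℝ)) ^ 2 < 1000 ^ 2 := by
      exact pow_lt_pow_left₀ hc h4 (by norm_num)
    rw [hs] at h5
    linarith
  have h4 : 3 * (1 + 42 * Real.log T) ≤ T := by
    have h5 : 3 * (1 + 84 * T ^ (1 / 2 : ℝ)) ≤ (T ^ (1 / 2 : ℝ)) ^ 2 := by nlinarith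
    rw [hs] at h5
    linarith
  have h5 : T * (T * (T ^ 2 * ((2 * T + 2) * (T ^ 7)⁻¹ * (1 + 42 * Real.log T)))) =
      (2 * T + 2) * (1 + 42 * Real.log T) / T ^ 3 := by
    field_simp
  rw [h5, div_le_div_iff₀ (by positivity) hTp]
  have h6 : 2 * T + 2 ≤ 3 * T := by linarith
  have h7 : 0 ≤ 1 + 42 * Real.log T := by linarith
  calc (2 * T + 2) * (1 + 42 * Real.log T) * T ≤ 3 * T * (1 + 42 * Real.log T) * T :=
        mul_le_mul_of_nonneg_right (mul_le_mul_of_nonneg_right h6 h7) hTp.le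
    _ = (3 * (1 + 42 * Real.log T)) * T ^ 2 := by ring
    _ ≤ T * T ^ 2 := mul_le_mul_of_nonneg_right h4 (by positivity)
    _ = 1 * T ^ 3 := by ring

end Pool.Agent.MVX
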