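import Pool.Agent.MVX.StD

set_option autoImplicit false

/-!
# Project MVX [Dua]: duality with a majorant
-/

namespace Pool.Agent.MVX

open Finset

theorem thm_Dua : St_Dua := by
  intro ι _ R a b V B hB hV0 hV1 hS
  classical
  obtain ⟨A, hA⟩ : ∃ A : ι → ℂ, A = fun j => ∑ n ∈ R, a n * b j n := ⟨_, rfl⟩
  obtain ⟨F, hF⟩ : ∃ F : ℕ → ℂ, F = fun n => ∑ j, (starRingEnd ℂ) (A j) * b j n := ⟨_, rfl⟩
  obtain ⟨S, hSd⟩ : ∃ S : ℝ, S = ∑ j, ‖A j‖ ^ 2 := ⟨_, rfl⟩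
  have hS0 : 0 ≤ S := by
    rw [hSd]
    exact sum_nonneg fun j _ => by positivity
  -- `S` as a sum over `n`
  have h1 : (S : ℂ) = ∑ n ∈ R, a n * F n := by
    rw [hSd, Complex.ofReal_sum]
    have h2 : ∀ j, ((‖A j‖ ^ 2 : ℝ) : ℂ) = ∑ n ∈ R, a n * ((starRingEnd ℂ) (A j) * b j n) := by
      intro j
      have h3 : ((‖A j‖ ^ 2 : ℝ) : ℂ) = (starRingEnd ℂ) (A j) * A j := by
        rw [Complex.ofReal_pow, Complex.conj_mul']
      rw [h3]
      nth_rewrite 2 [hA]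
      rw [mul_sum]
      exact sum_congr rfl fun n _ => by ring
    rw [sum_congr rfl fun j _ => h2 j, sum_comm]
    refine sum_congr rfl fun n _ => ?_
    rw [hF, mul_sum]
  -- Cauchy
  have h2 : S ^ 2 ≤ (∑ n ∈ R, ‖a n‖ ^ 2) * ∑ n ∈ R, V n * ‖F n‖ ^ 2 := by
    have h3 : S ≤ ∑ n ∈ R, ‖a n‖ * (Real.sqrt (V n) * ‖F n‖) := by
      have h4 : S = ‖(S : ℂ)‖ := by
        rw [Complex.norm_real, Real.norm_eq_abs, abs_of_nonneg hS0]
      rw [h4, h1]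
      refine (norm_sum_le _ _).trans (sum_le_sum fun n hn => ?_)
      rw [norm_mul]
      by_cases h0 : a n = 0
      · rw [h0, norm_zero, zero_mul, zero_mul]
      · refine mul_le_mul_of_nonneg_left ?_ (norm_nonneg _)
        have h5 : 1 ≤ Real.sqrt (V n) := by
          rw [Real.one_le_sqrt]
          exact hV1 n hn h0
        calc ‖F n‖ = 1 * ‖F n‖ := (one_mul _).symm
          _ ≤ Real.sqrt (V n) * ‖F n‖ := mul_le_mul_of_nonneg_right h5 (norm_nonneg _)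
    have h4 := sum_mul_sq_le_sq_mul_sq R (fun n => ‖a n‖) (fun n => Real.sqrt (V n) * ‖F n‖)
    have h5 : ∑ n ∈ R, (Real.sqrt (V n) * ‖F n‖) ^ 2 = ∑ n ∈ R, V n * ‖F n‖ ^ 2 := by
      refine sum_congr rfl fun n hn => ?_
      rw [mul_pow, Real.sq_sqrt (hV0 n hn)]
    rw [h5] at h4
    exact (pow_le_pow_left₀ hS0 h3 2).trans h4
  -- the dual form
  have h3 : ∑ n ∈ R, V n * ‖F n‖ ^ 2 ≤ B * S := by
    have h4 : ((∑ n ∈ R, V n * ‖F n‖ ^ 2 : ℝ) : ℂ) = ∑ i, ∑ j, (starRingEnd ℂ) (A i) * A j *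
        ∑ n ∈ R, (V n : ℂ) * (b i n * (starRingEnd ℂ) (b j n)) := by
      rw [Complex.ofReal_sum]
      have h5 : ∀ n ∈ R, ((V n * ‖F n‖ ^ 2 : ℝ) : ℂ) = ∑ i, ∑ j, (starRingEnd ℂ) (A i) * A j *
          ((V n : ℂ) * (b i n * (starRingEnd ℂ) (b j n))) := by
        intro n _
        have h6 : ((‖F n‖ ^ 2 : ℝ) : ℂ) = F n * (starRingEnd ℂ) (F n) := by
          rw [Complex.ofReal_pow, Complex.mul_conj']
        have h7 : (starRingEnd ℂ) (F n) = ∑ j, A j * (starRingEnd ℂ) (b j n) := by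
          rw [hF, map_sum]
          refine sum_congr rfl fun j _ => ?_
          rw [map_mul, Complex.conj_conj]
        rw [Complex.ofReal_mul, h6, h7]
        nth_rewrite 1 [hF]
        rw [sum_mul_sum, mul_sum]
        refine sum_congr rfl fun i _ => ?_
        rw [mul_sum]
        exact sum_congr rfl fun j _ => by ring
      rw [sum_congr rfl h5, sum_comm]
      refine sum_congr rfl fun i _ => ?_
      rw [sum_comm]
      refine sum_congr rfl fun j _ => ?_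
      rw [mul_sum]
    have h5 : ∑ n ∈ R, V n * ‖F n‖ ^ 2 ≤ ∑ i, ∑ j, ‖A i‖ * ‖A j‖ *
        ‖∑ n ∈ R, (V n : ℂ) * (b i n * (starRingEnd ℂ) (b j n))‖ := by
      have h6 : 0 ≤ ∑ n ∈ R, V n * ‖F n‖ ^ 2 :=
        sum_nonneg fun n hn => mul_nonneg (hV0 n hn) (by positivity)
      have h7 : ∑ n ∈ R, V n * ‖F n‖ ^ 2 = ‖((∑ n ∈ R, V n * ‖F n‖ ^ 2 : ℝ) : ℂ)‖ := by
        rw [Complex.norm_real, Real.norm_eq_abs, abs_of_nonneg h6]
      rw [h7, h4]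
      refine (norm_sum_le _ _).trans (sum_le_sum fun i _ => ?_)
      refine (norm_sum_le _ _).trans (sum_le_sum fun j _ => ?_)
      rw [norm_mul, norm_mul, RCLike.norm_conj]
    -- symmetry
    have hsym : ∀ i j, ‖∑ n ∈ R, (V n : ℂ) * (b j n * (starRingEnd ℂ) (b i n))‖ =
        ‖∑ n ∈ R, (V n : ℂ) * (b i n * (starRingEnd ℂ) (b j n))‖ := by
      intro i j
      rw [← RCLike.norm_conj (∑ n ∈ R, (V n : ℂ) * (b i n * (starRingEnd ℂ) (b j n)))]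
      congr 1
      rw [map_sum]
      refine sum_congr rfl fun n _ => ?_
      rw [map_mul, map_mul, Complex.conj_conj, Complex.conj_ofReal]
      ring
    have h6 : ∑ i, ∑ j, ‖A i‖ * ‖A j‖ *
        ‖∑ n ∈ R, (V n : ℂ) * (b i n * (starRingEnd ℂ) (b j n))‖ ≤
        ∑ i, ∑ j, (‖A i‖ ^ 2 / 2 + ‖A j‖ ^ 2 / 2) *
        ‖∑ n ∈ R, (V n : ℂ) * (b i n * (starRingEnd ℂ) (b j n))‖ := by
      refine sum_le_sum fun i _ => sum_le_sum fun j _ => ?_
      refine mul_le_mul_of_nonneg_right ?_ (norm_nonneg _)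
      nlinarith [sq_nonneg (‖A i‖ - ‖A j‖)]
    have h7 : ∑ i, ∑ j, (‖A i‖ ^ 2 / 2 + ‖A j‖ ^ 2 / 2) *
        ‖∑ n ∈ R, (V n : ℂ) * (b i n * (starRingEnd ℂ) (b j n))‖ =
        ∑ i, ‖A i‖ ^ 2 * ∑ j, ‖∑ n ∈ R, (V n : ℂ) * (b i n * (starRingEnd ℂ) (b j n))‖ := by
      have h8 : ∑ i, ∑ j, ‖A j‖ ^ 2 / 2 *
          ‖∑ n ∈ R, (V n : ℂ) * (b i n * (starRingEnd ℂ) (b j n))‖ =
          ∑ i, ∑ j, ‖A i‖ ^ 2 / 2 *
          ‖∑ n ∈ R, (V n : ℂ) * (b i n * (starRingEnd ℂ) (b j n))‖ := by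
        rw [sum_comm]
        refine sum_congr rfl fun i _ => sum_congr rfl fun j _ => ?_
        rw [hsym i j]
      have h9 : ∑ i, ∑ j, (‖A i‖ ^ 2 / 2 + ‖A j‖ ^ 2 / 2) *
          ‖∑ n ∈ R, (V n : ℂ) * (b i n * (starRingEnd ℂ) (b j n))‖ =
          (∑ i, ∑ j, ‖A i‖ ^ 2 / 2 *
          ‖∑ n ∈ R, (V n : ℂ) * (b i n * (starRingEnd ℂ) (b j n))‖) +
          ∑ i, ∑ j, ‖A j‖ ^ 2 / 2 *
          ‖∑ n ∈ R, (V n : ℂ) * (b i n * (starRingEnd ℂ) (b j n))‖ := by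
        rw [← sum_add_distrib]
        refine sum_congr rfl fun i _ => ?_
        rw [← sum_add_distrib]
        exact sum_congr rfl fun j _ => by ring
      rw [h9, h8, ← sum_add_distrib]
      refine sum_congr rfl fun i _ => ?_
      rw [← sum_add_distrib, mul_sum]
      exact sum_congr rfl fun j _ => by ring
    refine h5.trans (h6.trans (h7.le.trans ?_))
    rw [hSd, mul_sum]
    refine sum_le_sum fun i _ => ?_
    rw [mul_comm B]
    exact mul_le_mul_of_nonneg_left (hS i) (by positivity)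
  have hSA : ∑ j, ‖∑ n ∈ R, a n * b j n‖ ^ 2 = S := by
    rw [hSd, hA]
  rw [hSA]
  have ha : 0 ≤ ∑ n ∈ R, ‖a n‖ ^ 2 := sum_nonneg fun n _ => by positivity
  rcases hS0.lt_or_eq with h | h
  · have h4 : S ^ 2 ≤ (∑ n ∈ R, ‖a n‖ ^ 2) * (B * S) :=
      h2.trans (mul_le_mul_of_nonneg_left h3 ha)
    have h5 : S * S ≤ (B * ∑ n ∈ R, ‖a n‖ ^ 2) * S := by
      calc S * S = S ^ 2 := by ring
        _ ≤ _ := h4
        _ = _ := by ring
    exact le_of_mul_le_mul_right h5 h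
  · rw [← h]
    exact mul_nonneg hB ha

end Pool.Agent.MVX
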