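import Pool.Agent.MVX.StA

set_option autoImplicit false

/-!
# Project MVX, L-core: the explicit formula as an inequality
-/

namespace Pool.Agent.MVX

open Finset MeasureTheory

/-! ### logarithmic derivatives -/

theorem ef_ls {q : ℕ} [NeZero q] (χ : DirichletCharacter ℂ q) {s : ℂ} (hs : 1 < s.re) :
    -(deriv χ.LFunction s / χ.LFunction s) =
      ∑' n : ℕ, (((ArithmeticFunction.vonMangoldt n : ℝ) : ℂ) * χ (n : ZMod q)) *
        (n : ℂ) ^ (-s) := by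
  have h1 := DirichletCharacter.LSeries_twist_vonMangoldt_eq χ hs
  rw [← DirichletCharacter.LFunction_eq_LSeries χ hs,
    ← DirichletCharacter.deriv_LFunction_eq_deriv_LSeries χ hs, neg_div] at h1
  rw [← h1, LSeries]
  apply tsum_congr
  intro n
  rcases Nat.eq_zero_or_pos n with hn | hn
  · subst hn
    simp
  · rw [LSeries.term_of_ne_zero hn.ne', Complex.cpow_neg]
    simp only [Pi.mul_apply]
    rw [div_eq_mul_inv, mul_comm (χ (n : ZMod q))]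

theorem ef_ld {q : ℕ} [NeZero q] (χ : DirichletCharacter ℂ q) (p : ℂ) (hp1 : χ = 1 → p = 1)
    (hp0 : χ ≠ 1 → p = 0) {s : ℂ} (hs : 1 < s.re) :
    deriv (Lf χ) s / Lf χ s =
      -(∑' n : ℕ, (((ArithmeticFunction.vonMangoldt n : ℝ) : ℂ) * χ (n : ZMod q)) *
        (n : ℂ) ^ (-s)) + p * (s - 1)⁻¹ := by
  rw [← ef_ls χ hs, neg_neg]
  by_cases h : χ = 1
  · rw [hp1 h]
    subst h
    have hs1 : s ≠ 1 := by
      intro h1
      rw [h1] at hs
      simp at hs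
    have hL : (1 : DirichletCharacter ℂ q).LFunction s ≠ 0 :=
      DirichletCharacter.LFunction_ne_zero_of_one_le_re 1 (Or.inr hs1) hs.le
    have hs2 : s - 1 ≠ 0 := sub_ne_zero.mpr hs1
    rw [Lf_one, DirichletCharacter.deriv_LFunctionTrivChar₁_apply_of_ne_one q hs1,
      DirichletCharacter.LFunctionTrivChar₁, Function.update_of_ne hs1]
    change ((s - 1) * deriv (1 : DirichletCharacter ℂ q).LFunction s +
      (1 : DirichletCharacter ℂ q).LFunction s) / ((s - 1) *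
      (1 : DirichletCharacter ℂ q).LFunction s) = _
    field_simp
  · rw [hp0 h, Lf_of_ne h]
    simp

theorem ef_fac (f g : ℂ → ℂ) (Z : Finset ℂ) (m : ℂ → ℕ) (hg : Differentiable ℂ g)
    (hfac : ∀ z, f z = g z * ∏ ρ ∈ Z, (z - ρ) ^ m ρ) {s : ℂ} (hs : f s ≠ 0) (hZ : s ∉ Z) :
    deriv g s / g s = deriv f s / f s - ∑ ρ ∈ Z, (m ρ : ℂ) / (s - ρ) := by
  have h0 : f = fun z => g z * ∏ ρ ∈ Z, (z - ρ) ^ m ρ := funext hfac
  have h1 : g s ≠ 0 := by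
    intro h
    apply hs
    rw [hfac, h, zero_mul]
  have h2 : ∀ ρ ∈ Z, s - ρ ≠ 0 := by
    intro ρ hρ h
    apply hZ
    rw [sub_eq_zero] at h
    rw [h]
    exact hρ
  have h3 : ∀ ρ ∈ Z, (fun z : ℂ => (z - ρ) ^ m ρ) s ≠ 0 := fun ρ hρ => pow_ne_zero _ (h2 ρ hρ)
  have h4 : ∀ ρ ∈ Z, DifferentiableAt ℂ (fun z : ℂ => (z - ρ) ^ m ρ) s := by
    intro ρ _
    fun_prop
  have h5 : logDeriv (fun z => ∏ ρ ∈ Z, (z - ρ) ^ m ρ) s = ∑ ρ ∈ Z, (m ρ : ℂ) / (s - ρ) := by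
    have h6 := logDeriv_prod (s := Z) (f := fun ρ (z : ℂ) => (z - ρ) ^ m ρ) (x := s) h3 h4
    rw [h6]
    apply sum_congr rfl
    intro ρ _
    rw [logDeriv_fun_pow (by fun_prop), logDeriv_apply]
    simp [div_eq_mul_inv]
  have h7 : logDeriv f s = logDeriv g s + ∑ ρ ∈ Z, (m ρ : ℂ) / (s - ρ) := by
    rw [h0, logDeriv_mul s h1 (by rw [prod_ne_zero_iff]; exact h3) hg.differentiableAt
      (by fun_prop), h5]
  rw [logDeriv_apply, logDeriv_apply] at h7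
  rw [h7]
  ring

/-! ### contour integrals -/

theorem ef_box (F : ℂ → ℂ) (a b T BL BT : ℝ) (hab : a ≤ b) (hT : 0 ≤ T)
    (hF : DifferentiableOn ℂ F (Set.uIcc a b ×ℂ Set.uIcc (-T) T))
    (hL : ∀ᵐ y : ℝ, y ∈ Set.uIoc (-T) T → ‖F (a + y * Complex.I)‖ ≤ BL)
    (hB : ∀ᵐ x : ℝ, x ∈ Set.uIoc a b → ‖F (x + ((-T : ℝ) : ℂ) * Complex.I)‖ ≤ BT)
    (hU : ∀ᵐ x : ℝ, x ∈ Set.uIoc a b → ‖F (x + (T : ℂ) * Complex.I)‖ ≤ BT) :
    ‖∫ y in (-T)..T, F (b + y * Complex.I)‖ ≤ BL * (2 * T) + 2 * (BT * (b - a)) := by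
  have h1 := Complex.integral_boundary_rect_eq_zero_of_differentiableOn F ⟨a, -T⟩ ⟨b, T⟩ hF
  simp only at h1
  have h2 := intervalIntegral.norm_integral_le_of_norm_le_const_ae hL
  have h3 := intervalIntegral.norm_integral_le_of_norm_le_const_ae hB
  have h4 := intervalIntegral.norm_integral_le_of_norm_le_const_ae hU
  have e1 : |T - -T| = 2 * T := by rw [abs_of_nonneg (by linarith)]; ring
  have e2 : |b - a| = b - a := abs_of_nonneg (by linarith)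
  rw [e1] at h2
  rw [e2] at h3 h4
  have h5 : ∫ y in (-T)..T, F (b + y * Complex.I) = (∫ y in (-T)..T, F (a + y * Complex.I)) +
      Complex.I * ((∫ x in a..b, F (x + ((-T : ℝ) : ℂ) * Complex.I)) -
        ∫ x in a..b, F (x + (T : ℂ) * Complex.I)) := by
    simp only [smul_eq_mul] at h1
    have h6 : Complex.I * (Complex.I * (∫ y in (-T)..T, F (b + y * Complex.I)) -
      Complex.I * (∫ y in (-T)..T, F (a + y * Complex.I)) +
      ((∫ x in a..b, F (x + ((-T : ℝ) : ℂ) * Complex.I)) -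
        ∫ x in a..b, F (x + (T : ℂ) * Complex.I))) = 0 := by
      rw [mul_eq_zero]
      right
      rw [← h1]
      ring
    have h7 : Complex.I * Complex.I = -1 := Complex.I_mul_I
    linear_combination (-1 : ℂ) * h6 + ((∫ y in (-T)..T, F (b + y * Complex.I)) -
      (∫ y in (-T)..T, F (a + y * Complex.I))) * h7
  rw [h5]
  refine (norm_add_le _ _).trans ?_
  rw [norm_mul, Complex.norm_I, one_mul]
  have h8 := norm_sub_le (∫ x in a..b, F (x + ((-T : ℝ) : ℂ) * Complex.I))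
    (∫ x in a..b, F (x + (T : ℂ) * Complex.I))
  linarith

theorem ef_ae_v (Z : Finset ℂ) (a : ℝ) : ∀ᵐ y : ℝ, ((a : ℂ) + y * Complex.I) ∉ Z := by
  have h1 : {y : ℝ | ((a : ℂ) + y * Complex.I) ∈ Z}.Finite := by
    apply (Z.finite_toSet.image Complex.im).subset
    intro y hy
    exact ⟨_, hy, by simp⟩
  have h2 := h1.measure_zero volume
  rw [ae_iff]
  simpa using h2

theorem ef_ae_h (Z : Finset ℂ) (b : ℝ) : ∀ᵐ x : ℝ, ((x : ℂ) + (b : ℂ) * Complex.I) ∉ Z := by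
  have h1 : {x : ℝ | ((x : ℂ) + (b : ℂ) * Complex.I) ∈ Z}.Finite := by
    apply (Z.finite_toSet.image Complex.re).subset
    intro y hy
    exact ⟨_, hy, by simp⟩
  have h2 := h1.measure_zero volume
  rw [ae_iff]
  simpa using h2

theorem ef_half (f : ℝ → ℂ) (T K : ℝ) (hT : 0 < T)
    (h : ∀ t : ℝ, T ≤ t → ‖f t‖ ≤ K / t ^ 2) : ‖∫ t in Set.Ioi T, f t‖ ≤ K / T := by
  have h1 : IntegrableOn (fun t : ℝ => K * t ^ (-2 : ℝ)) (Set.Ioi T) :=
    (integrableOn_Ioi_rpow_of_lt (by norm_num) hT).const_mul K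
  have h2 : ∀ᵐ t ∂(volume.restrict (Set.Ioi T)), ‖f t‖ ≤ K * t ^ (-2 : ℝ) := by
    rw [ae_restrict_iff' measurableSet_Ioi]
    filter_upwards with t ht
    have ht' : T < t := ht
    have h3 := h t ht'.le
    have h4 : t ^ (-2 : ℝ) = (t ^ 2)⁻¹ := by
      rw [Real.rpow_neg (by linarith)]
      norm_cast
    rw [h4, ← div_eq_mul_inv]
    exact h3
  refine (norm_integral_le_of_norm_le h1 h2).trans (le_of_eq ?_)
  rw [integral_const_mul, integral_Ioi_rpow_of_lt (by norm_num) hT]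
  have h5 : T ^ ((-2 : ℝ) + 1) = T⁻¹ := by
    rw [show ((-2 : ℝ) + 1) = -1 by norm_num, Real.rpow_neg_one]
  rw [h5]
  norm_num
  rw [div_eq_mul_inv]

theorem ef_tail (f : ℝ → ℂ) (T K : ℝ) (hT : 0 < T) (hf : Integrable f)
    (h : ∀ t : ℝ, T ≤ |t| → ‖f t‖ ≤ K / t ^ 2) :
    ‖∫ t, f t‖ ≤ ‖∫ t in (-T)..T, f t‖ + 2 * (K / T) := by
  have h1 := intervalIntegral.integral_Iic_add_Ioi (b := -T) (f := f) (μ := volume)
    hf.integrableOn hf.integrableOn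
  have h2 := intervalIntegral.integral_interval_add_Ioi (a := -T) (b := T) (f := f) (μ := volume)
    hf.integrableOn hf.integrableOn
  have h3 : ‖∫ t in Set.Ioi T, f t‖ ≤ K / T := by
    apply ef_half f T K hT
    intro t ht
    exact h t (ht.trans (le_abs_self t))
  have h4 : ‖∫ t in Set.Iic (-T), f t‖ ≤ K / T := by
    rw [← integral_comp_neg_Ioi]
    apply ef_half (fun t => f (-t)) T K hT
    intro t ht
    have h5 := h (-t) (by rw [abs_neg]; exact ht.trans (le_abs_self t))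
    rwa [neg_sq] at h5
  rw [← h1, ← h2]
  refine (norm_add_le _ _).trans ?_
  have h6 := norm_add_le (∫ t in (-T)..T, f t) (∫ t in Set.Ioi T, f t)
  linarith

/-! ### the kernel -/

/-- the kernel as a function of a complex variable -/
noncomputable def ef_kf (x : ℝ) (s : ℂ) : ℂ := (x : ℂ) ^ (s + 1) / (s * (s + 1))

theorem ef_ker (x σ t : ℝ) : ker x σ t = ef_kf x ((σ : ℂ) + t * Complex.I) := rfl

theorem ef_kf_im (x : ℝ) (hx : 0 < x) (s : ℂ) (hs : s.im ≠ 0) :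
    ‖ef_kf x s‖ ≤ x ^ (s.re + 1) / s.im ^ 2 := by
  rw [ef_kf, norm_div, norm_mul, Complex.norm_cpow_eq_rpow_re_of_pos hx]
  have h1 : |s.im| ≤ ‖s‖ := Complex.abs_im_le_norm s
  have h2 : |s.im| ≤ ‖s + 1‖ := by
    have := Complex.abs_im_le_norm (s + 1)
    simpa using this
  have h3 : s.im ^ 2 ≤ ‖s‖ * ‖s + 1‖ := by
    rw [← sq_abs, sq]
    exact mul_le_mul h1 h2 (abs_nonneg _) (norm_nonneg _)
  have h4 : 0 < s.im ^ 2 := by positivity
  have h5 : (s + 1).re = s.re + 1 := by simp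
  rw [h5]
  exact div_le_div_of_nonneg_left (by positivity) h4 h3

theorem ef_kf_re (x : ℝ) (hx : 0 < x) (s : ℂ) (hs : 15 / 16 ≤ s.re) :
    ‖ef_kf x s‖ ≤ x ^ (s.re + 1) := by
  rw [ef_kf, norm_div, norm_mul, Complex.norm_cpow_eq_rpow_re_of_pos hx]
  have h1 : s.re ≤ ‖s‖ := Complex.re_le_norm s
  have h2 : s.re + 1 ≤ ‖s + 1‖ := by
    have := Complex.re_le_norm (s + 1)
    simpa using this
  have h3 : 1 ≤ ‖s‖ * ‖s + 1‖ := by
    have h4 : (15 / 16 : ℝ) * (31 / 16) ≤ ‖s‖ * ‖s + 1‖ :=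
      mul_le_mul (by linarith) (by linarith) (by norm_num) (norm_nonneg _)
    linarith
  have h5 : (s + 1).re = s.re + 1 := by simp
  rw [h5]
  exact div_le_self (by positivity) h3

theorem ef_kf_diff (x : ℝ) (hx : 0 < x) (s : ℂ) (hs : 0 < s.re) :
    DifferentiableAt ℂ (ef_kf x) s := by
  have h1 : s ≠ 0 := by
    rintro rfl
    simp at hs
  have h2 : s + 1 ≠ 0 := by
    intro h
    have h3 : (s + 1).re = 0 := by rw [h]; simp
    simp at h3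
    linarith
  have h3 : (x : ℂ) ≠ 0 := by exact_mod_cast hx.ne'
  unfold ef_kf
  refine DifferentiableAt.div ?_ (by fun_prop) (mul_ne_zero h1 h2)
  exact DifferentiableAt.const_cpow (by fun_prop) (Or.inl h3)

/-! ### the integral of the regularized logarithmic derivative -/

/-- The integral over the line: bound. -/
theorem ef_int (h3 : St_HB) (h4 : St_Fac) : ∃ A : ℝ, 0 < A ∧ ∀ T : ℝ, 2 ≤ T → ∀ (q : ℕ) [NeZero q]
    (χ : DirichletCharacter ℂ q), (q : ℝ) ≤ T → ∀ x : ℝ, 2 ≤ x → ∀ σ : ℝ, 1 < σ → σ ≤ 2 →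
    Integrable (fun t : ℝ => (deriv (Lf χ) ((σ : ℂ) + t * Complex.I) /
        Lf χ ((σ : ℂ) + t * Complex.I) - ∑ ρ ∈ zs χ (rect (7 / 8) (T + 1)),
        (zm χ ρ : ℂ) / ((σ : ℂ) + t * Complex.I - ρ)) * ker x σ t) →
    (∑ ρ ∈ zs χ (rect (7 / 8) (T + 1)), (zm χ ρ : ℝ) ≤ A * T * Real.log T) ∧
    ‖∫ t : ℝ, (deriv (Lf χ) ((σ : ℂ) + t * Complex.I) /
        Lf χ ((σ : ℂ) + t * Complex.I) - ∑ ρ ∈ zs χ (rect (7 / 8) (T + 1)),
        (zm χ ρ : ℂ) / ((σ : ℂ) + t * Complex.I - ρ)) * ker x σ t‖ ≤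
      A * Real.log T ^ 2 * x ^ (31 / 16 : ℝ) * (2 * T) +
      2 * (A * Real.log T ^ 2 * x ^ (σ + 1) / T ^ 2 * (σ - 15 / 16)) +
      2 * (A * Real.log T * (1 / (σ - 1) + Real.log T) * x ^ (σ + 1) / T) := by
  obtain ⟨A, hA, h3⟩ := h3
  refine ⟨A, hA, fun T hT q _ χ hq x hx σ hσ hσ2 hint => ?_⟩
  obtain ⟨h3a, h3b, h3c⟩ := h3 T hT q χ hq
  refine ⟨h3c, ?_⟩
  have hx0 : 0 < x := by linarith
  have hx1 : 1 ≤ x := by linarith
  have hT0 : 0 < T := by linarith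
  have hlog : 0 ≤ Real.log T := Real.log_nonneg (by linarith)
  set Z : Finset ℂ := zs χ (rect (7 / 8) (T + 1)) with hZ
  obtain ⟨g, hg, hfac, hg0⟩ := h4 (Lf χ) (Lf_differentiable χ) ⟨2, Lf_ne_zero χ (by norm_num)⟩ Z
  -- zeros
  have hzero : ∀ s : ℂ, 15 / 16 ≤ s.re → |s.im| ≤ T → s ∈ Z ∨ Lf χ s ≠ 0 := by
    intro s hs1 hs2
    by_cases h : Lf χ s = 0
    · left
      rw [hZ, mem_zs χ (rect_bounded _ _)]
      refine ⟨⟨by linarith, ?_, by linarith⟩, h⟩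
      by_contra h5
      push Not at h5
      exact Lf_ne_zero χ h5.le h
    · exact Or.inr h
  have hlim : ∀ s : ℂ, Lf χ s ≠ 0 → s ∉ Z := by
    intro s hs hsZ
    rw [hZ, mem_zs χ (rect_bounded _ _)] at hsZ
    exact hs hsZ.2
  have hgF : ∀ s : ℂ, Lf χ s ≠ 0 → deriv g s / g s =
      deriv (Lf χ) s / Lf χ s - ∑ ρ ∈ Z, (zm χ ρ : ℂ) / (s - ρ) := by
    intro s hs
    exact ef_fac (Lf χ) g Z (fun ρ => zm χ ρ) hg hfac hs (hlim s hs)
  -- the function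
  set F : ℂ → ℂ := fun s => deriv g s / g s * ef_kf x s with hF
  have hbound : ∀ s : ℂ, 15 / 16 ≤ s.re → s.re ≤ 2 → |s.im| ≤ T → s ∉ Z →
      ‖deriv g s / g s‖ ≤ A * Real.log T ^ 2 := by
    intro s hs1 hs2 hs3 hs4
    have h5 : Lf χ s ≠ 0 := (hzero s hs1 hs3).resolve_left hs4
    rw [hgF s h5]
    exact h3a s hs1 hs2 hs3 h5
  have hdiff : DifferentiableOn ℂ F (Set.uIcc (15 / 16) σ ×ℂ Set.uIcc (-T) T) := by
    intro s hs
    apply DifferentiableAt.differentiableWithinAt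
    rw [Complex.mem_reProdIm, Set.uIcc_of_le (by linarith), Set.uIcc_of_le (by linarith)] at hs
    obtain ⟨⟨hs1, hs2⟩, hs3, hs4⟩ := hs
    have h5 : g s ≠ 0 := hg0 s (hzero s hs1 (abs_le.mpr ⟨hs3, hs4⟩))
    have h6 : DifferentiableAt ℂ (deriv g) s :=
      (hg.contDiff.differentiable_deriv_two).differentiableAt
    exact (h6.div hg.differentiableAt h5).mul (ef_kf_diff x hx0 s (by linarith))
  have hL : ∀ᵐ y : ℝ, y ∈ Set.uIoc (-T) T → ‖F (((15 / 16 : ℝ) : ℂ) + y * Complex.I)‖ ≤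
      A * Real.log T ^ 2 * x ^ (31 / 16 : ℝ) := by
    filter_upwards [ef_ae_v Z (15 / 16)] with y hy hy2
    rw [Set.uIoc_of_le (by linarith)] at hy2
    have hre : (((15 / 16 : ℝ) : ℂ) + y * Complex.I).re = 15 / 16 := by simp
    have him : (((15 / 16 : ℝ) : ℂ) + y * Complex.I).im = y := by simp
    rw [hF]
    simp only
    rw [norm_mul]
    have h5 := hbound _ hre.ge (by rw [hre]; norm_num)
      (by rw [him]; exact abs_le.mpr ⟨hy2.1.le, hy2.2⟩) hy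
    have h6 := ef_kf_re x hx0 _ hre.ge
    rw [hre, show ((15 / 16 : ℝ) + 1) = 31 / 16 by norm_num] at h6
    exact mul_le_mul h5 h6 (norm_nonneg _) (by positivity)
  have hside : ∀ b : ℝ, |b| = T → ∀ᵐ u : ℝ, u ∈ Set.uIoc (15 / 16) σ →
      ‖F ((u : ℂ) + (b : ℂ) * Complex.I)‖ ≤ A * Real.log T ^ 2 * x ^ (σ + 1) / T ^ 2 := by
    intro b hb
    filter_upwards [ef_ae_h Z b] with u hu hu2
    rw [Set.uIoc_of_le (by linarith)] at hu2
    have hre : ((u : ℂ) + (b : ℂ) * Complex.I).re = u := by simp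
    have him : ((u : ℂ) + (b : ℂ) * Complex.I).im = b := by simp
    have hb0 : b ≠ 0 := by
      rintro rfl
      rw [abs_zero] at hb
      linarith
    rw [hF]
    simp only
    rw [norm_mul]
    have h5 := hbound _ (by rw [hre]; exact hu2.1.le) (by rw [hre]; linarith [hu2.2])
      (by rw [him]; exact hb.le) hu
    have h6 := ef_kf_im x hx0 ((u : ℂ) + (b : ℂ) * Complex.I) (by rw [him]; exact hb0)
    rw [hre, him, ← sq_abs, hb] at h6
    have h7 : x ^ (u + 1) / T ^ 2 ≤ x ^ (σ + 1) / T ^ 2 := by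
      apply div_le_div_of_nonneg_right _ (by positivity)
      exact Real.rpow_le_rpow_of_exponent_le hx1 (by linarith [hu2.2])
    rw [mul_div_assoc]
    exact mul_le_mul h5 (h6.trans h7) (norm_nonneg _) (by positivity)
  have hbox := ef_box F (15 / 16) σ T _ _ (by linarith) hT0.le hdiff hL
    (hside (-T) (by rw [abs_neg, abs_of_pos hT0])) (hside T (abs_of_pos hT0))
  have hG : ∀ t : ℝ, F ((σ : ℂ) + t * Complex.I) = (deriv (Lf χ) ((σ : ℂ) + t * Complex.I) /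
        Lf χ ((σ : ℂ) + t * Complex.I) - ∑ ρ ∈ Z,
        (zm χ ρ : ℂ) / ((σ : ℂ) + t * Complex.I - ρ)) * ker x σ t := by
    intro t
    have h5 : Lf χ ((σ : ℂ) + t * Complex.I) ≠ 0 := Lf_ne_zero χ (by simp; linarith)
    rw [← hgF _ h5, ef_ker]
  have htail := ef_tail _ T (A * Real.log T * (1 / (σ - 1) + Real.log T) * x ^ (σ + 1)) hT0 hint
    (by
      intro t ht
      have ht0 : t ≠ 0 := by
        rintro rfl
        rw [abs_zero] at ht
        linarith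
      have hre : ((σ : ℂ) + t * Complex.I).re = σ := by simp
      have him : ((σ : ℂ) + t * Complex.I).im = t := by simp
      rw [norm_mul]
      have h5 := h3b ((σ : ℂ) + t * Complex.I) (by rw [hre]; exact hσ) (by rw [hre]; exact hσ2)
      have h6 := ef_kf_im x hx0 ((σ : ℂ) + t * Complex.I) (by rw [him]; exact ht0)
      rw [hre] at h5
      rw [hre, him, ← ef_ker] at h6
      rw [mul_div_assoc]
      exact mul_le_mul h5 h6 (norm_nonneg _) (le_trans (norm_nonneg _) h5))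
  have hcong : ∫ t in (-T)..T, (deriv (Lf χ) ((σ : ℂ) + t * Complex.I) /
        Lf χ ((σ : ℂ) + t * Complex.I) - ∑ ρ ∈ Z,
        (zm χ ρ : ℂ) / ((σ : ℂ) + t * Complex.I - ρ)) * ker x σ t =
      ∫ y in (-T)..T, F ((σ : ℂ) + y * Complex.I) := by
    apply intervalIntegral.integral_congr
    intro t _
    exact (hG t).symm
  rw [hcong] at htail
  refine htail.trans ?_
  linarith

/-! ### the identity -/

theorem ef_summable {q : ℕ} [NeZero q] (χ : DirichletCharacter ℂ q) (σ : ℝ) (hσ : 1 < σ) :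
    Summable (fun n : ℕ => ‖((ArithmeticFunction.vonMangoldt n : ℝ) : ℂ) * χ (n : ZMod q)‖ *
      (n : ℝ) ^ (-σ)) := by
  have h1 := (DirichletCharacter.LSeriesSummable_twist_vonMangoldt χ (s := (σ : ℂ))
    (by simpa using hσ)).norm
  refine h1.congr ?_
  intro n
  rw [LSeries.norm_term_eq]
  rcases Nat.eq_zero_or_pos n with hn | hn
  · subst hn
    simp
  · rw [if_neg hn.ne', Complex.ofReal_re, Real.rpow_neg (by positivity), div_eq_mul_inv]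
    simp only [Pi.mul_apply]
    rw [mul_comm (χ (n : ZMod q))]

theorem ef_id (h1 : St_PerS) (h2 : St_PerR) {q : ℕ} [NeZero q] (χ : DirichletCharacter ℂ q)
    (p : ℂ) (hp1 : χ = 1 → p = 1) (hp0 : χ ≠ 1 → p = 0) (Z : Finset ℂ)
    (hZ : ∀ ρ ∈ Z, 0 < ρ.re ∧ ρ.re ≤ 1) (σ x : ℝ) (hσ : 1 < σ) (hx : 1 ≤ x) :
    Integrable (fun t : ℝ => (deriv (Lf χ) ((σ : ℂ) + t * Complex.I) /
        Lf χ ((σ : ℂ) + t * Complex.I) - ∑ ρ ∈ Z,
        (zm χ ρ : ℂ) / ((σ : ℂ) + t * Complex.I - ρ)) * ker x σ t) ∧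
    ∫ t : ℝ, (deriv (Lf χ) ((σ : ℂ) + t * Complex.I) /
        Lf χ ((σ : ℂ) + t * Complex.I) - ∑ ρ ∈ Z,
        (zm χ ρ : ℂ) / ((σ : ℂ) + t * Complex.I - ρ)) * ker x σ t =
      2 * Real.pi * (-(∑ n ∈ Icc 1 ⌊x⌋₊, ((x : ℂ) - n) *
        (((ArithmeticFunction.vonMangoldt n : ℝ) : ℂ) * χ (n : ZMod q))) +
        p * ((x : ℂ) ^ 2 / 2 - x + 1 / 2) -
        ∑ ρ ∈ Z, (zm χ ρ : ℂ) * ((x : ℂ) ^ (ρ + 1) / (ρ * (ρ + 1)) - x / ρ + 1 / (ρ + 1))) := by
  obtain ⟨hS1, hS2⟩ := h1 (fun n => ((ArithmeticFunction.vonMangoldt n : ℝ) : ℂ) *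
    χ (n : ZMod q)) σ x (by linarith) (by linarith) (by simp) (ef_summable χ σ hσ)
  have hR := fun (ρ : ℂ) (hρ : 0 < ρ.re ∧ ρ.re ≤ 1) =>
    h2 ρ σ x (by linarith) hρ.1 (by linarith [hρ.2]) hx
  obtain ⟨hO1, hO2⟩ := hR 1 ⟨by simp, by simp⟩
  have e : (fun t : ℝ => (deriv (Lf χ) ((σ : ℂ) + t * Complex.I) /
        Lf χ ((σ : ℂ) + t * Complex.I) - ∑ ρ ∈ Z,
        (zm χ ρ : ℂ) / ((σ : ℂ) + t * Complex.I - ρ)) * ker x σ t) =
      fun t : ℝ => (-((∑' n : ℕ, (((ArithmeticFunction.vonMangoldt n : ℝ) : ℂ) *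
        χ (n : ZMod q)) * (n : ℂ) ^ (-((σ : ℂ) + t * Complex.I))) * ker x σ t) +
        p * (((σ : ℂ) + t * Complex.I - 1)⁻¹ * ker x σ t)) -
        ∑ ρ ∈ Z, (zm χ ρ : ℂ) * (((σ : ℂ) + t * Complex.I - ρ)⁻¹ * ker x σ t) := by
    funext t
    rw [ef_ld χ p hp1 hp0 (s := (σ : ℂ) + t * Complex.I) (by simpa using hσ), sub_mul, sum_mul]
    congr 1
    · ring
    · apply sum_congr rfl
      intro ρ _
      rw [div_eq_mul_inv, mul_assoc]
  have hI1 : Integrable (fun t : ℝ => -((∑' n : ℕ, (((ArithmeticFunction.vonMangoldt n : ℝ) : ℂ) *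
        χ (n : ZMod q)) * (n : ℂ) ^ (-((σ : ℂ) + t * Complex.I))) * ker x σ t)) := hS1.neg
  have hI2 : Integrable (fun t : ℝ => p * (((σ : ℂ) + t * Complex.I - 1)⁻¹ * ker x σ t)) :=
    hO1.const_mul p
  have hI3 : ∀ ρ ∈ Z, Integrable (fun t : ℝ => (zm χ ρ : ℂ) *
      (((σ : ℂ) + t * Complex.I - ρ)⁻¹ * ker x σ t)) :=
    fun ρ hρ => (hR ρ (hZ ρ hρ)).1.const_mul _
  have hI4 := integrable_finsetSum Z hI3
  have hI5 : Integrable (fun t : ℝ => -((∑' n : ℕ, (((ArithmeticFunction.vonMangoldt n : ℝ) : ℂ) *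
        χ (n : ZMod q)) * (n : ℂ) ^ (-((σ : ℂ) + t * Complex.I))) * ker x σ t) +
        p * (((σ : ℂ) + t * Complex.I - 1)⁻¹ * ker x σ t)) := hI1.add hI2
  refine ⟨?_, ?_⟩
  · rw [e]
    exact hI5.sub hI4
  · rw [e, integral_sub hI5 hI4, integral_add hI1 hI2, integral_neg, hS2,
      integral_const_mul, hO2, integral_finsetSum Z hI3]
    have h5 : ∀ ρ ∈ Z, ∫ t : ℝ, (zm χ ρ : ℂ) * (((σ : ℂ) + t * Complex.I - ρ)⁻¹ * ker x σ t) =
        2 * Real.pi * ((zm χ ρ : ℂ) *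
          ((x : ℂ) ^ (ρ + 1) / (ρ * (ρ + 1)) - x / ρ + 1 / (ρ + 1))) := by
      intro ρ hρ
      rw [integral_const_mul, (hR ρ (hZ ρ hρ)).2]
      ring
    rw [sum_congr rfl h5, ← mul_sum]
    have h6 : (x : ℂ) ^ ((1 : ℂ) + 1) = (x : ℂ) ^ 2 := by
      rw [show ((1 : ℂ) + 1) = 2 by norm_num, Complex.cpow_ofNat]
    rw [h6]
    ring

/-! ### the estimate -/

theorem ef_num (A L X T x σ : ℝ) (hA : 0 < A) (hL : 0.6931 ≤ L) (hX : 0.6931 ≤ X) (hT : 2 ≤ T)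
    (hx : 2 ≤ x) (hσ : σ = 1 + 1 / (2 * X)) (hxσ : x ^ (σ + 1) ≤ 2 * x ^ 2) :
    A * L ^ 2 * x ^ (31 / 16 : ℝ) * (2 * T) +
      2 * (A * L ^ 2 * x ^ (σ + 1) / T ^ 2 * (σ - 15 / 16)) +
      2 * (A * L * (1 / (σ - 1) + L) * x ^ (σ + 1) / T) + x + 3 * x * (A * T * L) ≤
    (60 * A + 5) * x ^ 2 * (L * X) ^ 2 * (T * x ^ (-(1 / 16 : ℝ)) + 1 / T) := by
  have hx0 : 0 < x := by linarith
  have hT0 : 0 < T := by linarith
  have hL0 : 0 < L := by linarith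
  have hX0 : 0 < X := by linarith
  set W : ℝ := (L * X) ^ 2 with hW
  have hW0 : 0 < W := by positivity
  have hX2 : 0.48 ≤ X ^ 2 := by nlinarith
  have hL2 : 0.48 ≤ L ^ 2 := by nlinarith
  have hLX : 0.48 ≤ L * X := by nlinarith
  have w1 : L ^ 2 ≤ 3 * W := by
    rw [hW, mul_pow]
    nlinarith
  have w2 : L * X ≤ 3 * W := by
    rw [hW, sq]
    nlinarith
  have w3 : L ≤ 5 * W := by
    have h1 : L * 1 ≤ L * (5 * (L * X ^ 2)) := by
      apply mul_le_mul_of_nonneg_left _ hL0.le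
      nlinarith
    rw [hW, mul_pow]
    nlinarith
  have w4 : 1 ≤ 5 * W := by
    rw [hW, sq]
    nlinarith
  -- powers
  have hP1 : x ^ 2 * (T * x ^ (-(1 / 16 : ℝ))) = T * x ^ (31 / 16 : ℝ) := by
    have h1 : x ^ (31 / 16 : ℝ) = x ^ (2 : ℝ) * x ^ (-(1 / 16 : ℝ)) := by
      rw [← Real.rpow_add hx0]
      norm_num
    have h2 : x ^ (2 : ℝ) = x ^ 2 := Real.rpow_natCast x 2
    rw [h1, h2]
    ring
  have hxx : x ≤ x ^ (31 / 16 : ℝ) := by
    have h1 := Real.rpow_le_rpow_of_exponent_le (x := x) (y := 1) (z := 31 / 16) (by linarith)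
      (by norm_num)
    rwa [Real.rpow_one] at h1
  set P1 : ℝ := T * x ^ (31 / 16 : ℝ) with hP1'
  set P2 : ℝ := x ^ 2 / T with hP2
  have hP10 : 0 < P1 := by positivity
  have hP20 : 0 < P2 := by positivity
  have e0 : (60 * A + 5) * x ^ 2 * W * (T * x ^ (-(1 / 16 : ℝ)) + 1 / T) =
      (60 * A + 5) * W * (P1 + P2) := by
    rw [← hP1, hP2]
    ring
  rw [e0]
  have hs1 : 1 / (σ - 1) = 2 * X := by
    rw [hσ]
    field_simp
    ring
  have hσ2 : σ - 15 / 16 ≤ 2 := by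
    rw [hσ]
    have h1 : 1 / (2 * X) ≤ 1 := by
      rw [div_le_one (by positivity)]
      linarith
    linarith
  have hσ3 : 0 ≤ σ - 15 / 16 := by
    rw [hσ]
    have h1 : 0 < 1 / (2 * X) := by positivity
    linarith
  -- the terms
  have t1 : A * L ^ 2 * x ^ (31 / 16 : ℝ) * (2 * T) ≤ 6 * A * W * P1 := by
    have h1 : A * L ^ 2 * x ^ (31 / 16 : ℝ) * (2 * T) = 2 * A * P1 * L ^ 2 := by
      rw [hP1']; ring
    rw [h1]
    have h2 : 2 * A * P1 * L ^ 2 ≤ 2 * A * P1 * (3 * W) :=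
      mul_le_mul_of_nonneg_left w1 (by positivity)
    linarith
  have hTT : 2 * x ^ 2 / T ^ 2 ≤ 2 * P2 := by
    rw [hP2, mul_div_assoc]
    apply mul_le_mul_of_nonneg_left _ (by norm_num)
    apply div_le_div_of_nonneg_left (by positivity) hT0
    nlinarith
  have t2 : 2 * (A * L ^ 2 * x ^ (σ + 1) / T ^ 2 * (σ - 15 / 16)) ≤ 24 * A * W * P2 := by
    have h1 : x ^ (σ + 1) / T ^ 2 ≤ 2 * P2 :=
      (div_le_div_of_nonneg_right hxσ (by positivity)).trans hTT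
    have h2 : A * L ^ 2 * (x ^ (σ + 1) / T ^ 2) ≤ A * (3 * W) * (2 * P2) := by
      apply mul_le_mul _ h1 (by positivity) (by positivity)
      exact mul_le_mul_of_nonneg_left w1 hA.le
    have h3 : A * L ^ 2 * (x ^ (σ + 1) / T ^ 2) * (σ - 15 / 16) ≤
        A * (3 * W) * (2 * P2) * 2 := mul_le_mul h2 hσ2 hσ3 (by positivity)
    have h4 : 2 * (A * L ^ 2 * x ^ (σ + 1) / T ^ 2 * (σ - 15 / 16)) =
      2 * (A * L ^ 2 * (x ^ (σ + 1) / T ^ 2) * (σ - 15 / 16)) := by ring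
    rw [h4]
    linarith
  have t3 : 2 * (A * L * (1 / (σ - 1) + L) * x ^ (σ + 1) / T) ≤ 36 * A * W * P2 := by
    rw [hs1]
    have h1 : L * (2 * X + L) ≤ 9 * W := by
      have : L * (2 * X + L) = 2 * (L * X) + L ^ 2 := by ring
      linarith
    have h2 : x ^ (σ + 1) / T ≤ 2 * P2 := by
      rw [hP2, ← mul_div_assoc]
      exact div_le_div_of_nonneg_right hxσ hT0.le
    have h3 : (L * (2 * X + L)) * (x ^ (σ + 1) / T) ≤ (9 * W) * (2 * P2) :=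
      mul_le_mul h1 h2 (by positivity) (by positivity)
    have h4 : 2 * (A * L * (2 * X + L) * x ^ (σ + 1) / T) =
        2 * A * ((L * (2 * X + L)) * (x ^ (σ + 1) / T)) := by ring
    rw [h4]
    have h5 := mul_le_mul_of_nonneg_left h3 (show 0 ≤ 2 * A by positivity)
    linarith
  have hxT : x * T ≤ P1 := by
    rw [hP1', mul_comm]
    exact mul_le_mul_of_nonneg_left hxx hT0.le
  have t4 : x ≤ 5 * W * P1 := by
    have h1 : x ≤ P1 := by nlinarith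
    nlinarith
  have t5 : 3 * x * (A * T * L) ≤ 15 * A * W * P1 := by
    have h1 : 3 * x * (A * T * L) = 3 * A * ((x * T) * L) := by ring
    rw [h1]
    have h2 : (x * T) * L ≤ P1 * (5 * W) := mul_le_mul hxT w3 hL0.le hP10.le
    have h3 := mul_le_mul_of_nonneg_left h2 (show 0 ≤ 3 * A by positivity)
    linarith
  have h6 : 0 ≤ A * W * P1 := by positivity
  have h7 : 0 ≤ W * P2 := by positivity
  have h8 : (60 * A + 5) * W * (P1 + P2) = 60 * (A * W * P1) + 60 * (A * W * P2) + 5 * (W * P1) +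
      5 * (W * P2) := by ring
  rw [h8]
  linarith

theorem ef_pow (x : ℝ) (hx : 2 ≤ x) :
    x ^ ((1 + 1 / (2 * Real.log x)) + 1) ≤ 2 * x ^ 2 := by
  have hx0 : 0 < x := by linarith
  have hX : 0 < Real.log x := Real.log_pos (by linarith)
  have h1 : (1 + 1 / (2 * Real.log x)) + 1 = 2 + 1 / (2 * Real.log x) := by ring
  have h2 : x ^ (1 / (2 * Real.log x)) = Real.exp (1 / 2) := by
    rw [Real.rpow_def_of_pos hx0]
    congr 1
    field_simp
  have h3 : Real.exp (1 / 2) ≤ 2 := by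
    have h4 : Real.exp (1 / 2) ^ 2 = Real.exp 1 := by
      rw [← Real.exp_nat_mul]
      norm_num
    have h5 := Real.exp_one_lt_d9
    have h6 := Real.exp_pos (1 / 2)
    nlinarith
  have h7 : x ^ (2 : ℝ) = x ^ 2 := Real.rpow_natCast x 2
  rw [h1, Real.rpow_add hx0, h2, h7, mul_comm]
  exact mul_le_mul_of_nonneg_right h3 (by positivity)

/-- the explicit formula for `x ≥ 2` -/
theorem ef_main (h1 : St_PerS) (h2 : St_PerR) (h3 : St_HB) (h4 : St_Fac) : ∃ C : ℝ, 0 < C ∧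
    ∀ T : ℝ, 2 ≤ T → ∀ (q : ℕ) [NeZero q]
    (χ : DirichletCharacter ℂ q), (q : ℝ) ≤ T → ∀ x : ℝ, 2 ≤ x → ∀ p : ℂ,
    (χ = 1 → p = 1) → (χ ≠ 1 → p = 0) →
    ‖∑ n ∈ Icc 1 ⌊x⌋₊, ((x : ℂ) - n) * (((ArithmeticFunction.vonMangoldt n : ℝ) : ℂ) * χ (n : ZMod q))
      - p * ((x : ℂ) ^ 2 / 2)
      + ∑ ρ ∈ zs χ (rect (7 / 8) (T + 1)), (zm χ ρ : ℂ) * ((x : ℂ) ^ (ρ + 1) / (ρ * (ρ + 1)))‖
      ≤ C * x ^ 2 * (Real.log T * Real.log x) ^ 2 * (T * x ^ (-(1 / 16 : ℝ)) + 1 / T) := by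
  obtain ⟨A, hA, hint⟩ := ef_int h3 h4
  refine ⟨60 * A + 5, by linarith, fun T hT q _ χ hq x hx p hp1 hp0 => ?_⟩
  have hl2 := Real.log_two_gt_d9
  have hL : 0.6931 ≤ Real.log T := by
    have := Real.log_le_log (by norm_num) hT
    linarith
  have hX : 0.6931 ≤ Real.log x := by
    have := Real.log_le_log (by norm_num) hx
    linarith
  have hX0 : 0 < Real.log x := by linarith
  have hL0 : 0 < Real.log T := by linarith
  have hx0 : 0 < x := by linarith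
  have hT0 : 0 < T := by linarith
  set σ : ℝ := 1 + 1 / (2 * Real.log x) with hσ
  have hσ1 : 1 < σ := by
    rw [hσ]
    have : 0 < 1 / (2 * Real.log x) := by positivity
    linarith
  have hσ2 : σ ≤ 2 := by
    rw [hσ]
    have : 1 / (2 * Real.log x) ≤ 1 := by
      rw [div_le_one (by positivity)]
      linarith
    linarith
  set Z : Finset ℂ := zs χ (rect (7 / 8) (T + 1)) with hZ
  have hZr : ∀ ρ ∈ Z, 7 / 8 ≤ ρ.re ∧ ρ.re ≤ 1 := by
    intro ρ hρ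
    rw [hZ, mem_zs χ (rect_bounded _ _)] at hρ
    exact ⟨hρ.1.1, hρ.1.2.1⟩
  obtain ⟨hI, hid⟩ := ef_id h1 h2 χ p hp1 hp0 Z
    (fun ρ hρ => ⟨by linarith [(hZr ρ hρ).1], (hZr ρ hρ).2⟩) σ x hσ1 (by linarith)
  obtain ⟨hcount, hbd⟩ := hint T hT q χ hq x hx σ hσ1 hσ2 hI
  have hnum := ef_num A (Real.log T) (Real.log x) T x σ hA hL hX hT hx hσ (ef_pow x hx)
  refine le_trans ?_ hnum
  set J : ℂ := ∫ t : ℝ, (deriv (Lf χ) ((σ : ℂ) + t * Complex.I) /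
        Lf χ ((σ : ℂ) + t * Complex.I) - ∑ ρ ∈ Z,
        (zm χ ρ : ℂ) / ((σ : ℂ) + t * Complex.I - ρ)) * ker x σ t with hJ
  have hpi : (2 * Real.pi : ℂ) ≠ 0 := by
    simp [Real.pi_ne_zero]
  have hsplit : ∑ ρ ∈ Z, (zm χ ρ : ℂ) *
      ((x : ℂ) ^ (ρ + 1) / (ρ * (ρ + 1)) - x / ρ + 1 / (ρ + 1)) =
      ∑ ρ ∈ Z, (zm χ ρ : ℂ) * ((x : ℂ) ^ (ρ + 1) / (ρ * (ρ + 1))) -
      ∑ ρ ∈ Z, (zm χ ρ : ℂ) * (x / ρ - 1 / (ρ + 1)) := by
    rw [← sum_sub_distrib]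
    apply sum_congr rfl
    intro ρ _
    ring
  have hmain : ∑ n ∈ Icc 1 ⌊x⌋₊, ((x : ℂ) - n) *
      (((ArithmeticFunction.vonMangoldt n : ℝ) : ℂ) * χ (n : ZMod q))
      - p * ((x : ℂ) ^ 2 / 2)
      + ∑ ρ ∈ Z, (zm χ ρ : ℂ) * ((x : ℂ) ^ (ρ + 1) / (ρ * (ρ + 1))) =
      -(J / (2 * Real.pi)) + p * (-x + 1 / 2) +
        ∑ ρ ∈ Z, (zm χ ρ : ℂ) * (x / ρ - 1 / (ρ + 1)) := by
    rw [hid, hsplit, mul_div_cancel_left₀ _ hpi]
    ring
  rw [hmain]
  have b1 : ‖-(J / (2 * Real.pi))‖ ≤ ‖J‖ := by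
    rw [norm_neg, norm_div]
    apply div_le_self (norm_nonneg _)
    have h6 : ‖(2 * Real.pi : ℂ)‖ = 2 * Real.pi := by
      rw [norm_mul, Complex.norm_real, Real.norm_of_nonneg Real.pi_pos.le]
      simp
    rw [h6]
    linarith [Real.pi_gt_three]
  have b2 : ‖p * (-x + 1 / 2 : ℂ)‖ ≤ x := by
    have hp : ‖p‖ ≤ 1 := by
      by_cases h : χ = 1
      · rw [hp1 h]; simp
      · rw [hp0 h]; simp
    have h7 : ‖(-x + 1 / 2 : ℂ)‖ = x - 1 / 2 := by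
      have h8 : (-x + 1 / 2 : ℂ) = ((-(x - 1 / 2) : ℝ) : ℂ) := by push_cast; ring
      rw [h8, Complex.norm_real, norm_neg, Real.norm_of_nonneg (by linarith)]
    rw [norm_mul, h7]
    have h9 : ‖p‖ * (x - 1 / 2) ≤ 1 * (x - 1 / 2) :=
      mul_le_mul_of_nonneg_right hp (by linarith)
    linarith
  have b3 : ‖∑ ρ ∈ Z, (zm χ ρ : ℂ) * (x / ρ - 1 / (ρ + 1))‖ ≤ 3 * x * (A * T * Real.log T) := by
    have h10 : ∀ ρ ∈ Z, ‖(zm χ ρ : ℂ) * (x / ρ - 1 / (ρ + 1))‖ ≤ (zm χ ρ : ℝ) * (3 * x) := by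
      intro ρ hρ
      have hr := (hZr ρ hρ).1
      have n1 : 7 / 8 ≤ ‖ρ‖ := hr.trans (Complex.re_le_norm ρ)
      have n2 : 1 ≤ ‖ρ + 1‖ := by
        have := Complex.re_le_norm (ρ + 1)
        simp only [Complex.add_re, Complex.one_re] at this
        linarith
      rw [norm_mul, Complex.norm_natCast]
      apply mul_le_mul_of_nonneg_left _ (Nat.cast_nonneg _)
      refine (norm_sub_le _ _).trans ?_
      rw [norm_div, norm_div, norm_one, Complex.norm_real, Real.norm_of_nonneg hx0.le]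
      have n3 : x / ‖ρ‖ ≤ x / (7 / 8) :=
        div_le_div_of_nonneg_left hx0.le (by norm_num) n1
      have n4 : 1 / ‖ρ + 1‖ ≤ 1 := by
        rw [div_le_one (by linarith)]
        exact n2
      have n5 : x / (7 / 8) = 8 / 7 * x := by ring
      linarith
    refine (norm_sum_le_of_le Z h10).trans ?_
    rw [← sum_mul]
    have h11 := mul_le_mul_of_nonneg_right hcount (show (0 : ℝ) ≤ 3 * x by linarith)
    linarith
  have b4 := norm_add₃_le (a := -(J / (2 * Real.pi))) (b := p * (-x + 1 / 2 : ℂ))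
    (c := ∑ ρ ∈ Z, (zm χ ρ : ℂ) * (x / ρ - 1 / (ρ + 1)))
  linarith

theorem ef_p216 (x : ℝ) (hx : 0 < x) (T : ℝ) :
    x ^ 2 * (T * x ^ (-(1 / 16 : ℝ))) = T * x ^ (31 / 16 : ℝ) := by
  have h1 : x ^ (31 / 16 : ℝ) = x ^ (2 : ℝ) * x ^ (-(1 / 16 : ℝ)) := by
    rw [← Real.rpow_add hx]
    norm_num
  have h2 : x ^ (2 : ℝ) = x ^ 2 := Real.rpow_natCast x 2
  rw [h1, h2]
  ring

theorem ef_mono (C L T x : ℝ) (hC : 0 ≤ C) (hT : 2 ≤ T) (hx : 2 ≤ x) :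
    C * x ^ 2 * (L * Real.log x) ^ 2 * (T * x ^ (-(1 / 16 : ℝ)) + 1 / T) ≤
    C * (x + 2) ^ 2 * (L * Real.log (x + 2)) ^ 2 *
        (T * (x + 2) ^ (-(1 / 16 : ℝ)) + 1 / T) := by
  have hx0 : 0 < x := by linarith
  have hT0 : 0 < T := by linarith
  have hl0 : 0 ≤ Real.log x := Real.log_nonneg (by linarith)
  have hl : Real.log x ≤ Real.log (x + 2) := Real.log_le_log hx0 (by linarith)
  have e1 : C * x ^ 2 * (L * Real.log x) ^ 2 * (T * x ^ (-(1 / 16 : ℝ)) + 1 / T) =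
      C * L ^ 2 * (Real.log x ^ 2 * (T * x ^ (31 / 16 : ℝ) + x ^ 2 / T)) := by
    rw [← ef_p216 x hx0]
    ring
  have e2 : C * (x + 2) ^ 2 * (L * Real.log (x + 2)) ^ 2 *
        (T * (x + 2) ^ (-(1 / 16 : ℝ)) + 1 / T) =
      C * L ^ 2 * (Real.log (x + 2) ^ 2 * (T * (x + 2) ^ (31 / 16 : ℝ) + (x + 2) ^ 2 / T)) := by
    rw [← ef_p216 (x + 2) (by linarith)]
    ring
  rw [e1, e2]
  apply mul_le_mul_of_nonneg_left _ (by positivity)
  have h1 : x ^ (31 / 16 : ℝ) ≤ (x + 2) ^ (31 / 16 : ℝ) :=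
    Real.rpow_le_rpow hx0.le (by linarith) (by norm_num)
  have h2 : x ^ 2 / T ≤ (x + 2) ^ 2 / T := by
    apply div_le_div_of_nonneg_right _ hT0.le
    exact pow_le_pow_left₀ hx0.le (by linarith) 2
  have h3 : T * x ^ (31 / 16 : ℝ) ≤ T * (x + 2) ^ (31 / 16 : ℝ) :=
    mul_le_mul_of_nonneg_left h1 hT0.le
  exact mul_le_mul (pow_le_pow_left₀ hl0 hl 2) (by linarith) (by positivity) (by positivity)

/-- small `x` -/
theorem ef_small (A T : ℝ) (hA : 0 < A) (hT : 2 ≤ T) (q : ℕ) [NeZero q]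
    (χ : DirichletCharacter ℂ q) (p : ℂ) (hp : ‖p‖ ≤ 1) (x : ℝ) (hx : 0 ≤ x) (hx2 : x < 2)
    (hcount : ∑ ρ ∈ zs χ (rect (7 / 8) (T + 1)), (zm χ ρ : ℝ) ≤ A * T * Real.log T) :
    ‖∑ n ∈ Icc 1 ⌊x⌋₊, ((x : ℂ) - n) * (((ArithmeticFunction.vonMangoldt n : ℝ) : ℂ) * χ (n : ZMod q))
      - p * ((x : ℂ) ^ 2 / 2)
      + ∑ ρ ∈ zs χ (rect (7 / 8) (T + 1)), (zm χ ρ : ℂ) * ((x : ℂ) ^ (ρ + 1) / (ρ * (ρ + 1)))‖
      ≤ (60 * A + 5) * (x + 2) ^ 2 * (Real.log T * Real.log (x + 2)) ^ 2 *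
        (T * (x + 2) ^ (-(1 / 16 : ℝ)) + 1 / T) := by
  have hT0 : 0 < T := by linarith
  have hl2 := Real.log_two_gt_d9
  have hL : 0.6931 ≤ Real.log T := by
    have := Real.log_le_log (by norm_num) hT
    linarith
  have hX : 0.6931 ≤ Real.log (x + 2) := by
    have := Real.log_le_log (by norm_num) (show (2 : ℝ) ≤ x + 2 by linarith)
    linarith
  set Z : Finset ℂ := zs χ (rect (7 / 8) (T + 1)) with hZ
  have hZr : ∀ ρ ∈ Z, 7 / 8 ≤ ρ.re ∧ ρ.re ≤ 1 := by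
    intro ρ hρ
    rw [hZ, mem_zs χ (rect_bounded _ _)] at hρ
    exact ⟨hρ.1.1, hρ.1.2.1⟩
  -- the sum over `n` vanishes
  have h0 : ∑ n ∈ Icc 1 ⌊x⌋₊, ((x : ℂ) - n) *
      (((ArithmeticFunction.vonMangoldt n : ℝ) : ℂ) * χ (n : ZMod q)) = 0 := by
    apply sum_eq_zero
    intro n hn
    rw [mem_Icc] at hn
    have h1 : ⌊x⌋₊ < 2 := by
      rw [Nat.floor_lt hx]
      exact_mod_cast hx2
    have h2 : n = 1 := by omega
    subst h2
    simp
  have b2 : ‖p * ((x : ℂ) ^ 2 / 2)‖ ≤ 2 := by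
    rw [norm_mul, norm_div, norm_pow, Complex.norm_real, Real.norm_of_nonneg hx]
    have h1 : x ^ 2 ≤ 4 := by nlinarith
    have h2 : ‖(2 : ℂ)‖ = 2 := by simp
    rw [h2]
    have h3 : ‖p‖ * (x ^ 2 / 2) ≤ 1 * (x ^ 2 / 2) := mul_le_mul_of_nonneg_right hp (by positivity)
    linarith
  have b3 : ‖∑ ρ ∈ Z, (zm χ ρ : ℂ) * ((x : ℂ) ^ (ρ + 1) / (ρ * (ρ + 1)))‖ ≤
      4 * (A * T * Real.log T) := by
    have h10 : ∀ ρ ∈ Z, ‖(zm χ ρ : ℂ) * ((x : ℂ) ^ (ρ + 1) / (ρ * (ρ + 1)))‖ ≤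
        (zm χ ρ : ℝ) * 4 := by
      intro ρ hρ
      obtain ⟨hr, hr1⟩ := hZr ρ hρ
      have n1 : 7 / 8 ≤ ‖ρ‖ := hr.trans (Complex.re_le_norm ρ)
      have n2 : 15 / 8 ≤ ‖ρ + 1‖ := by
        have := Complex.re_le_norm (ρ + 1)
        simp only [Complex.add_re, Complex.one_re] at this
        linarith
      rw [norm_mul, Complex.norm_natCast]
      apply mul_le_mul_of_nonneg_left _ (Nat.cast_nonneg _)
      rw [norm_div, norm_mul]
      have n3 : 1 ≤ ‖ρ‖ * ‖ρ + 1‖ := by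
        have h4 : (7 / 8 : ℝ) * (15 / 8) ≤ ‖ρ‖ * ‖ρ + 1‖ :=
          mul_le_mul n1 n2 (by norm_num) (norm_nonneg _)
        linarith
      refine (div_le_self (norm_nonneg _) n3).trans ?_
      rcases hx.eq_or_lt with h5 | h5
      · have h6 : ρ + 1 ≠ 0 := by
          intro h
          rw [h, norm_zero] at n2
          linarith
        rw [← h5, Complex.ofReal_zero, Complex.zero_cpow h6, norm_zero]
        norm_num
      · rw [Complex.norm_cpow_eq_rpow_re_of_pos h5]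
        have h6 : (ρ + 1).re = ρ.re + 1 := by simp
        rw [h6]
        calc x ^ (ρ.re + 1) ≤ 2 ^ (ρ.re + 1) := Real.rpow_le_rpow hx hx2.le (by linarith)
          _ ≤ 2 ^ (2 : ℝ) := Real.rpow_le_rpow_of_exponent_le (by norm_num) (by linarith)
          _ = 4 := by norm_num
    refine (norm_sum_le_of_le Z h10).trans ?_
    rw [← sum_mul]
    have h11 := mul_le_mul_of_nonneg_right hcount (show (0 : ℝ) ≤ 4 by norm_num)
    linarith
  rw [h0, zero_sub]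
  have b4 := norm_add_le (-(p * ((x : ℂ) ^ 2 / 2)))
    (∑ ρ ∈ Z, (zm χ ρ : ℂ) * ((x : ℂ) ^ (ρ + 1) / (ρ * (ρ + 1))))
  rw [norm_neg] at b4
  refine b4.trans ?_
  -- the right side
  have e2 : (60 * A + 5) * (x + 2) ^ 2 * (Real.log T * Real.log (x + 2)) ^ 2 *
        (T * (x + 2) ^ (-(1 / 16 : ℝ)) + 1 / T) =
      (60 * A + 5) * (Real.log T * Real.log (x + 2)) ^ 2 *
        (T * (x + 2) ^ (31 / 16 : ℝ) + (x + 2) ^ 2 / T) := by
    rw [← ef_p216 (x + 2) (by linarith)]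
    ring
  rw [e2]
  have h1 : 1 ≤ (x + 2) ^ (31 / 16 : ℝ) := Real.one_le_rpow (by linarith) (by norm_num)
  have h2 : T ≤ T * (x + 2) ^ (31 / 16 : ℝ) + (x + 2) ^ 2 / T := by
    have h3 : T * 1 ≤ T * (x + 2) ^ (31 / 16 : ℝ) := mul_le_mul_of_nonneg_left h1 hT0.le
    have h4 : 0 ≤ (x + 2) ^ 2 / T := by positivity
    linarith
  set L : ℝ := Real.log T with hLd
  set X : ℝ := Real.log (x + 2) with hXd
  have h5 : 0.33 * L ≤ (L * X) ^ 2 := by
    have h6 : 0.48 ≤ X ^ 2 := by nlinarith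
    have h7 : 0.6931 * L ≤ L ^ 2 := by nlinarith
    rw [mul_pow]
    nlinarith
  have h8 : (60 * A + 5) * (0.33 * L) * T ≤ (60 * A + 5) * (L * X) ^ 2 *
      (T * (x + 2) ^ (31 / 16 : ℝ) + (x + 2) ^ 2 / T) := by
    apply mul_le_mul _ h2 hT0.le (by positivity)
    exact mul_le_mul_of_nonneg_left h5 (by positivity)
  have h9 : 1.3 ≤ L * T := by nlinarith
  have h10 : (60 * A + 5) * (0.33 * L) * T = 19.8 * (A * T * L) + 1.65 * (L * T) := by ring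
  have h11 : 0 ≤ A * T * L := by positivity
  linarith

/-- **EF.** The explicit formula as an inequality. -/
theorem thm_EF (h1 : St_PerS) (h2 : St_PerR) (h3 : St_HB) (h4 : St_Fac) (_h5 : St_A2) : St_EF := by
  obtain ⟨C, hC, hmain⟩ := ef_main h1 h2 h3 h4
  obtain ⟨A, hA, hHB⟩ := h3
  refine ⟨C + (60 * A + 5), by positivity, fun T hT q _ χ hq x hx p hp1 hp0 => ?_⟩
  have hT0 : 0 < T := by linarith
  have hpos : 0 ≤ (x + 2) ^ 2 * (Real.log T * Real.log (x + 2)) ^ 2 *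
        (T * (x + 2) ^ (-(1 / 16 : ℝ)) + 1 / T) := by positivity
  rcases lt_or_ge x 2 with hx2 | hx2
  · have hp : ‖p‖ ≤ 1 := by
      by_cases h : χ = 1
      · rw [hp1 h]; simp
      · rw [hp0 h]; simp
    refine (ef_small A T hA hT q χ p hp x hx hx2 (hHB T hT q χ hq).2.2).trans ?_
    have h5 : C * ((x + 2) ^ 2 * (Real.log T * Real.log (x + 2)) ^ 2 *
        (T * (x + 2) ^ (-(1 / 16 : ℝ)) + 1 / T)) ≥ 0 := mul_nonneg hC.le hpos
    linarith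
  · refine (hmain T hT q χ hq x hx2 p hp1 hp0).trans ?_
    refine (ef_mono C (Real.log T) T x hC.le hT hx2).trans ?_
    have h5 : (60 * A + 5) * ((x + 2) ^ 2 * (Real.log T * Real.log (x + 2)) ^ 2 *
        (T * (x + 2) ^ (-(1 / 16 : ℝ)) + 1 / T)) ≥ 0 := mul_nonneg (by positivity) hpos
    linarith

end Pool.Agent.MVX
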