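import Pool.Agent.MVX.StF

set_option autoImplicit false

/-!
# Project MVX, L-core, module EFW: explicit formula for the local means
-/

namespace Pool.Agent.MVX

open Finset Filter

/-- the error term of the explicit formula -/
noncomputable def efw_E (C T y : ℝ) : ℝ :=
  C * (y + 2) ^ 2 * (Real.log T * Real.log (y + 2)) ^ 2 * (T * (y + 2) ^ (-(1 / 16 : ℝ)) + 1 / T)

theorem efw_E_le (C T y X : ℝ) (hC : 0 < C) (hT : 2 ≤ T) (hy : 0 ≤ y) (hX : 2 ≤ X)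
    (hyX : y ≤ 2 * X) :
    efw_E C T y ≤ 9 * C * X ^ 2 * (Real.log T * Real.log (2 * X + 2)) ^ 2 *
      (T * X ^ (-(1 / 20 : ℝ)) + 1 / T) := by
  have hY : y + 2 ≤ 2 * X + 2 := by linarith
  have hy2 : 0 < y + 2 := by linarith
  have hYX : X ≤ 2 * X + 2 := by linarith
  have hX0 : 0 < X := by linarith
  have hT0 : 0 < T := by linarith
  have hlT : 0 ≤ Real.log T := Real.log_nonneg (by linarith)
  have hly : 0 ≤ Real.log (y + 2) := Real.log_nonneg (by linarith)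
  have hl : Real.log (y + 2) ≤ Real.log (2 * X + 2) := Real.log_le_log hy2 hY
  have h1 : (Real.log T * Real.log (y + 2)) ^ 2 ≤ (Real.log T * Real.log (2 * X + 2)) ^ 2 := by
    apply pow_le_pow_left₀ (mul_nonneg hlT hly)
    exact mul_le_mul_of_nonneg_left hl hlT
  have h2 : (y + 2) ^ 2 * (T * (y + 2) ^ (-(1 / 16 : ℝ)) + 1 / T) ≤
      9 * X ^ 2 * (T * X ^ (-(1 / 20 : ℝ)) + 1 / T) := by
    have e1 : (y + 2) ^ 2 * (y + 2) ^ (-(1 / 16 : ℝ)) ≤ 9 * X ^ 2 * X ^ (-(1 / 20 : ℝ)) := by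
      have e2 : (y + 2) ^ 2 * (y + 2) ^ (-(1 / 16 : ℝ)) = (y + 2) ^ (31 / 16 : ℝ) := by
        rw [← Real.rpow_natCast (y + 2) 2, ← Real.rpow_add hy2]
        norm_num
      have e3 : (y + 2) ^ (31 / 16 : ℝ) ≤ (3 * X) ^ (31 / 16 : ℝ) :=
        Real.rpow_le_rpow hy2.le (by linarith) (by norm_num)
      have e4 : (3 * X) ^ (31 / 16 : ℝ) = (3 * X) ^ 2 * (3 * X) ^ (-(1 / 16 : ℝ)) := by
        rw [← Real.rpow_natCast (3 * X) 2, ← Real.rpow_add (by linarith)]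
        norm_num
      have e5 : (3 * X) ^ (-(1 / 16 : ℝ)) ≤ X ^ (-(1 / 16 : ℝ)) :=
        Real.rpow_le_rpow_of_nonpos hX0 (by linarith) (by norm_num)
      have e6 : X ^ (-(1 / 16 : ℝ)) ≤ X ^ (-(1 / 20 : ℝ)) :=
        Real.rpow_le_rpow_of_exponent_le (by linarith) (by norm_num)
      rw [e2]
      refine e3.trans ?_
      rw [e4]
      have e7 : 0 ≤ (3 * X) ^ 2 := by positivity
      refine (mul_le_mul_of_nonneg_left (e5.trans e6) e7).trans (le_of_eq ?_)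
      ring
    have e8 : (y + 2) ^ 2 ≤ 9 * X ^ 2 := by nlinarith
    have e9 : 0 ≤ 1 / T := by positivity
    calc (y + 2) ^ 2 * (T * (y + 2) ^ (-(1 / 16 : ℝ)) + 1 / T)
        = T * ((y + 2) ^ 2 * (y + 2) ^ (-(1 / 16 : ℝ))) + (y + 2) ^ 2 * (1 / T) := by ring
      _ ≤ T * (9 * X ^ 2 * X ^ (-(1 / 20 : ℝ))) + 9 * X ^ 2 * (1 / T) :=
          add_le_add (mul_le_mul_of_nonneg_left e1 hT0.le) (mul_le_mul_of_nonneg_right e8 e9)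
      _ = 9 * X ^ 2 * (T * X ^ (-(1 / 20 : ℝ)) + 1 / T) := by ring
  have h3 : 0 ≤ (y + 2) ^ 2 * (T * (y + 2) ^ (-(1 / 16 : ℝ)) + 1 / T) := by
    have := Real.rpow_nonneg hy2.le (-(1 / 16 : ℝ))
    positivity
  have h4 : 0 ≤ C * (Real.log T * Real.log (2 * X + 2)) ^ 2 := by positivity
  calc efw_E C T y = C * (Real.log T * Real.log (y + 2)) ^ 2 *
        ((y + 2) ^ 2 * (T * (y + 2) ^ (-(1 / 16 : ℝ)) + 1 / T)) := by rw [efw_E]; ring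
    _ ≤ C * (Real.log T * Real.log (2 * X + 2)) ^ 2 *
        ((y + 2) ^ 2 * (T * (y + 2) ^ (-(1 / 16 : ℝ)) + 1 / T)) := by
        apply mul_le_mul_of_nonneg_right _ h3
        exact mul_le_mul_of_nonneg_left h1 hC.le
    _ ≤ C * (Real.log T * Real.log (2 * X + 2)) ^ 2 *
        (9 * X ^ 2 * (T * X ^ (-(1 / 20 : ℝ)) + 1 / T)) := mul_le_mul_of_nonneg_left h2 h4
    _ = _ := by ring

theorem thm_EFW (h1 : St_Bdec) (h2 : St_EF) : St_EFW := by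
  obtain ⟨C, hC, hEF⟩ := h2
  refine ⟨36 * C, by positivity, ?_⟩
  intro X δ a hX hδ haδ T hT hTX q _ χ hq p hp1 hp0 H x hW
  obtain ⟨hHX, hHx, hxX⟩ := hW
  have hX0 : 0 < X := by linarith
  have hHpos : (0 : ℝ) < H := lt_of_lt_of_le (Real.rpow_pos_of_pos hX0 _) hHX
  have hH1 : 1 ≤ H := by exact_mod_cast hHpos
  have hHC : (H : ℂ) ≠ 0 := by exact_mod_cast hHpos.ne'
  have hHxR : (H : ℝ) ≤ x := by exact_mod_cast hHx
  set Z := zs χ (rect (7 / 8) (T + 1)) with hZ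
  let er : ℝ → ℂ := fun y => Rz χ y - p * ((y : ℂ) ^ 2 / 2) +
    ∑ ρ ∈ Z, (zm χ ρ : ℂ) * ((y : ℂ) ^ (ρ + 1) / (ρ * (ρ + 1)))
  have her : ∀ y : ℝ, 0 ≤ y → y ≤ 2 * X → ‖er y‖ ≤
      9 * C * X ^ 2 * (Real.log T * Real.log (2 * X + 2)) ^ 2 *
      (T * X ^ (-(1 / 20 : ℝ)) + 1 / T) := by
    intro y hy hyX
    exact (hEF T hT q χ hq y hy p hp1 hp0).trans (efw_E_le C T y X hC hT hy hX hyX)
  set B := 9 * C * X ^ 2 * (Real.log T * Real.log (2 * X + 2)) ^ 2 *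
      (T * X ^ (-(1 / 20 : ℝ)) + 1 / T) with hB
  have hkey : Bm H x χ - p + ∑ ρ ∈ Z, (zm χ ρ : ℂ) * Wn ρ H x =
      ((H : ℂ) ^ 2)⁻¹ * (er ((x + H : ℕ) : ℝ) - 2 * er (x : ℝ) + er ((x - H : ℕ) : ℝ)) := by
    rw [h1 q χ H x hH1 hHx]
    have hsum : ((H : ℂ) ^ 2)⁻¹ * ((∑ ρ ∈ Z, (zm χ ρ : ℂ) * ((((x + H : ℕ) : ℝ) : ℂ) ^ (ρ + 1) /
          (ρ * (ρ + 1)))) - 2 * (∑ ρ ∈ Z, (zm χ ρ : ℂ) * (((x : ℝ) : ℂ) ^ (ρ + 1) /
          (ρ * (ρ + 1)))) + ∑ ρ ∈ Z, (zm χ ρ : ℂ) * ((((x - H : ℕ) : ℝ) : ℂ) ^ (ρ + 1) /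
          (ρ * (ρ + 1)))) = ∑ ρ ∈ Z, (zm χ ρ : ℂ) * Wn ρ H x := by
      rw [mul_sum (s := Z) (a := (2 : ℂ)), ← sum_sub_distrib, ← sum_add_distrib, mul_sum]
      apply sum_congr rfl
      intro ρ _
      rw [Wn]
      push_cast
      ring
    have hsq : p = ((H : ℂ) ^ 2)⁻¹ * (p * (((((x + H : ℕ) : ℝ) : ℂ)) ^ 2 / 2) -
        2 * (p * (((x : ℝ) : ℂ) ^ 2 / 2)) + p * ((((x - H : ℕ) : ℝ) : ℂ) ^ 2 / 2)) := by
      rw [Nat.cast_sub hHx]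
      push_cast
      field_simp
      ring
    conv_lhs => rw [← hsum]
    show _ = ((H : ℂ) ^ 2)⁻¹ * ((Rz χ ((x + H : ℕ) : ℝ) - p * ((((x + H : ℕ) : ℝ) : ℂ) ^ 2 / 2) +
      ∑ ρ ∈ Z, (zm χ ρ : ℂ) * ((((x + H : ℕ) : ℝ) : ℂ) ^ (ρ + 1) / (ρ * (ρ + 1)))) -
      2 * (Rz χ (x : ℝ) - p * (((x : ℝ) : ℂ) ^ 2 / 2) +
      ∑ ρ ∈ Z, (zm χ ρ : ℂ) * (((x : ℝ) : ℂ) ^ (ρ + 1) / (ρ * (ρ + 1)))) +
      (Rz χ ((x - H : ℕ) : ℝ) - p * ((((x - H : ℕ) : ℝ) : ℂ) ^ 2 / 2) +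
      ∑ ρ ∈ Z, (zm χ ρ : ℂ) * ((((x - H : ℕ) : ℝ) : ℂ) ^ (ρ + 1) / (ρ * (ρ + 1)))))
    nth_rewrite 1 [hsq]
    ring
  rw [hkey, norm_mul, norm_inv, norm_pow, Complex.norm_natCast]
  have hb1 := her ((x + H : ℕ) : ℝ) (Nat.cast_nonneg _) (by push_cast; linarith)
  have hb2 := her (x : ℝ) (Nat.cast_nonneg _) (by linarith)
  have hb3 := her ((x - H : ℕ) : ℝ) (Nat.cast_nonneg _) (by
    rw [Nat.cast_sub hHx]; linarith)
  have hn : ‖er ((x + H : ℕ) : ℝ) - 2 * er (x : ℝ) + er ((x - H : ℕ) : ℝ)‖ ≤ 4 * B := by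
    have t1 := norm_add_le (er ((x + H : ℕ) : ℝ) - 2 * er (x : ℝ)) (er ((x - H : ℕ) : ℝ))
    have t2 := norm_sub_le (er ((x + H : ℕ) : ℝ)) (2 * er (x : ℝ))
    have t3 : ‖2 * er (x : ℝ)‖ = 2 * ‖er (x : ℝ)‖ := by
      rw [norm_mul]
      norm_num
    linarith
  have hinv : ((H : ℝ) ^ 2)⁻¹ ≤ X ^ (2 * a * δ) / X ^ 2 := by
    have e1 : (X ^ (1 - a * δ)) ^ 2 ≤ (H : ℝ) ^ 2 :=
      pow_le_pow_left₀ (Real.rpow_nonneg hX0.le _) hHX 2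
    have e2 : (X ^ (1 - a * δ)) ^ 2 = X ^ 2 / X ^ (2 * a * δ) := by
      rw [← Real.rpow_natCast, ← Real.rpow_mul hX0.le, ← Real.rpow_natCast X 2,
        ← Real.rpow_sub hX0]
      congr 1
      push_cast
      ring
    have e3 : 0 < X ^ 2 / X ^ (2 * a * δ) := by
      have := Real.rpow_pos_of_pos hX0 (2 * a * δ)
      positivity
    rw [e2] at e1
    refine (inv_anti₀ e3 e1).trans (le_of_eq ?_)
    rw [inv_div]
  have hBnn : 0 ≤ 4 * B := (norm_nonneg _).trans hn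
  have hXa : 0 ≤ X ^ (2 * a * δ) / X ^ 2 := by
    have := Real.rpow_nonneg hX0.le (2 * a * δ)
    positivity
  calc ((H : ℝ) ^ 2)⁻¹ * ‖er ((x + H : ℕ) : ℝ) - 2 * er (x : ℝ) + er ((x - H : ℕ) : ℝ)‖
      ≤ (X ^ (2 * a * δ) / X ^ 2) * (4 * B) :=
        mul_le_mul hinv hn (norm_nonneg _) hXa
    _ = _ := by
        rw [hB]
        field_simp
        ring

end Pool.Agent.MVX
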