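import Pool.Agent.MVX.StA

set_option autoImplicit false

/-!
# Project MVX, module Exc: at most one exceptional zero
-/

namespace Pool.Agent.MVX

open Finset Filter Topology ComplexConjugate

/-- the Dirichlet series and complex conjugation -/
private lemma exc_series {q : ℕ} (χ : DirichletCharacter ℂ q) (s : ℂ) :
    conj (LSeries (fun n => χ (n : ZMod q)) (conj s)) =
      LSeries (fun n => χ⁻¹ (n : ZMod q)) s := by
  rw [LSeries, LSeries, Complex.conj_tsum]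
  refine tsum_congr fun n => ?_
  rcases eq_or_ne n 0 with rfl | hn
  · rw [LSeries.term_zero, LSeries.term_zero, map_zero]
  · rw [LSeries.term_of_ne_zero hn, LSeries.term_of_ne_zero hn, map_div₀, ← MulChar.star_apply']
    congr 1
    rw [Complex.cpow_conj _ _ (by rw [Complex.natCast_arg]; exact Real.pi_ne_zero.symm),
      Complex.conj_natCast, Complex.conj_conj]

/-- the function `Lf` in the half plane of convergence -/
private lemma exc_Lf {q : ℕ} [NeZero q] (χ : DirichletCharacter ℂ q) {s : ℂ} (hs : 1 < s.re) :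
    Lf χ s = (if χ = 1 then s - 1 else 1) * LSeries (fun n => χ (n : ZMod q)) s := by
  have hs1 : s ≠ 1 := by
    rintro rfl
    simp at hs
  by_cases h : χ = 1
  · subst h
    rw [if_pos rfl, Lf_one, DirichletCharacter.LFunctionTrivChar₁, Function.update_of_ne hs1,
      DirichletCharacter.LFunctionTrivChar, DirichletCharacter.LFunction_eq_LSeries _ hs]
  · rw [if_neg h, Lf_of_ne h, one_mul, DirichletCharacter.LFunction_eq_LSeries _ hs]

/-- complex conjugation -/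
private lemma exc_conj {q : ℕ} [NeZero q] (χ : DirichletCharacter ℂ q) (s : ℂ) :
    conj (Lf χ (conj s)) = Lf χ⁻¹ s := by
  have h1 : Differentiable ℂ (fun s => conj (Lf χ (conj s))) := by
    intro s
    have := (Lf_differentiable χ (conj s)).conj_conj
    rw [Complex.conj_conj] at this
    exact this
  have h2 := Lf_differentiable χ⁻¹
  have h3 : (fun s => conj (Lf χ (conj s))) = Lf χ⁻¹ := by
    refine AnalyticOnNhd.eq_of_eventuallyEq (𝕜 := ℂ) (z₀ := (2 : ℂ))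
      (fun w _ => h1.analyticAt w) (fun w _ => h2.analyticAt w) ?_
    have h4 : ∀ᶠ s : ℂ in 𝓝 2, 1 < s.re :=
      (isOpen_lt continuous_const Complex.continuous_re).mem_nhds (by simp)
    filter_upwards [h4] with s hs
    have hs' : 1 < (conj s).re := by rwa [Complex.conj_re]
    rw [exc_Lf χ hs', exc_Lf χ⁻¹ hs, map_mul, exc_series]
    congr 1
    by_cases h : χ = 1
    · rw [if_pos h, if_pos (inv_eq_one.2 h), map_sub, Complex.conj_conj, map_one]
    · rw [if_neg h, if_neg (fun h' => h (inv_eq_one.1 h')), map_one]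
  exact congrFun h3 s

/-- **Exc.** Landau-Page: at most one exceptional zero. -/
theorem thm_Exc (h1 : St_Unq) (h2 : St_L0) : St_Exc := by
  classical
  obtain ⟨c₁, T₁, hc₁, hT₁, hU⟩ := h1
  set c₀ := min c₁ 1 with hc₀
  have hc₀0 : 0 < c₀ := lt_min hc₁ one_pos
  -- no real zero of `ζ` near `1`
  obtain ⟨δ, hδ, hδ1⟩ : ∃ δ > 0, ∀ s : ℂ, ‖s - 1‖ < δ → Lf (1 : DirichletCharacter ℂ 1) s ≠ 0 := by
    have h3 : Lf (1 : DirichletCharacter ℂ 1) 1 ≠ 0 := Lf_ne_zero _ (by simp)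
    have h4 := (Lf_differentiable (1 : DirichletCharacter ℂ 1)).continuous.continuousAt
      (x := (1 : ℂ))
    obtain ⟨δ, hδ, h5⟩ := Metric.eventually_nhds_iff.1 (h4.eventually_ne h3)
    exact ⟨δ, hδ, fun s hs => h5 (by rwa [dist_eq_norm])⟩
  refine ⟨c₀, max T₁ (max 2 (Real.exp (2 / δ))), hc₀0, min_le_right _ _,
    (le_max_left _ _).trans (le_max_right _ _), fun T hT => ?_⟩
  have hTT₁ : T₁ ≤ T := (le_max_left _ _).trans hT
  have hT2 : 2 ≤ T := ((le_max_left _ _).trans (le_max_right _ _)).trans hT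
  have hTe : Real.exp (2 / δ) ≤ T := ((le_max_right _ _).trans (le_max_right _ _)).trans hT
  have hL0 : 0 < Real.log T := Real.log_pos (by linarith)
  have hLδ : 2 / δ ≤ Real.log T := by
    rw [Real.le_log_iff_exp_le (by linarith)]
    exact hTe
  obtain ⟨hU1, hU2⟩ := hU T hTT₁
  have hsub : rect (1 - c₀ / Real.log T) T ⊆ rect (1 - c₁ / Real.log T) T := by
    intro z hz
    refine ⟨?_, hz.2⟩
    have : c₀ / Real.log T ≤ c₁ / Real.log T := div_le_div_of_nonneg_right (min_le_left _ _) hL0.le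
    have := hz.1
    linarith
  -- two zeros of the same function
  have htwo : ∀ (q : ℕ) [NeZero q] (χ : DirichletCharacter ℂ q), (q : ℝ) ≤ T →
      ∀ ρ ∈ rect (1 - c₀ / Real.log T) T, Lf χ ρ = 0 →
      zm χ ρ = 1 ∧ ∀ ρ' ∈ rect (1 - c₀ / Real.log T) T, Lf χ ρ' = 0 → ρ' = ρ := by
    intro q _ χ hq ρ hρ h0
    have h3 := hU2 q χ hq
    have hρ' : ρ ∈ zs χ (rect (1 - c₁ / Real.log T) T) :=
      (mem_zs χ (rect_bounded _ _) ρ).2 ⟨hsub hρ, h0⟩
    have h4 := zm_pos χ h0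
    have h5 := Finset.single_le_sum (f := fun ρ => zm χ ρ) (fun _ _ => Nat.zero_le _) hρ'
    refine ⟨by omega, fun ρ' hρ'' h0' => ?_⟩
    by_contra hne
    have h6 : ρ' ∈ zs χ (rect (1 - c₁ / Real.log T) T) :=
      (mem_zs χ (rect_bounded _ _) ρ').2 ⟨hsub hρ'', h0'⟩
    have h7 : ∑ r ∈ ({ρ', ρ} : Finset ℂ), zm χ r ≤
        ∑ r ∈ zs χ (rect (1 - c₁ / Real.log T) T), zm χ r := by
      refine Finset.sum_le_sum_of_subset ?_
      intro r hr
      rcases Finset.mem_insert.1 hr with rfl | hr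
      · exact h6
      · rw [Finset.mem_singleton.1 hr]
        exact hρ'
    rw [Finset.sum_pair hne] at h7
    have h8 := zm_pos χ h0'
    omega
  intro q₁ _ χ₁ hp₁ hq₁ ρ₁ hρ₁ h0₁
  -- the conjugate zero
  have hpi : (χ₁⁻¹).IsPrimitive := by
    rw [DirichletCharacter.isPrimitive_def] at hp₁ ⊢
    rw [DirichletCharacter.conductor_inv, hp₁]
  have hρc : conj ρ₁ ∈ rect (1 - c₀ / Real.log T) T := by
    refine ⟨?_, ?_, ?_⟩
    · rw [Complex.conj_re]; exact hρ₁.1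
    · rw [Complex.conj_re]; exact hρ₁.2.1
    · rw [Complex.conj_im, abs_neg]; exact hρ₁.2.2
  have h0c : Lf χ₁⁻¹ (conj ρ₁) = 0 := by
    rw [← exc_conj, Complex.conj_conj, h0₁, map_zero]
  have hinv : χ₁ = χ₁⁻¹ := by
    by_cases hD : Dif χ₁ χ₁⁻¹
    · exact absurd (hU1 q₁ q₁ χ₁ χ₁⁻¹ hq₁ hq₁ hD ρ₁ (hsub hρ₁) _ (hsub hρc) h0₁ h0c) id
    · have h3 := h2 q₁ q₁ χ₁ χ₁⁻¹ hp₁ hpi hD
      exact eq_of_heq (Sigma.mk.inj_iff.1 h3).2
  rw [← hinv] at h0c
  obtain ⟨hz1, hz2⟩ := htwo q₁ χ₁ hq₁ ρ₁ hρ₁ h0₁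
  have him : ρ₁.im = 0 := by
    have h3 := congrArg Complex.im (hz2 _ hρc h0c)
    rw [Complex.conj_im] at h3
    linarith
  refine ⟨?_, ?_, him, hz1, ?_⟩
  · rintro rfl
    have h3 : q₁ = 1 := by
      rw [DirichletCharacter.isPrimitive_def, DirichletCharacter.conductor_one]
        at hp₁
      exact hp₁.symm
    subst h3
    refine hδ1 ρ₁ ?_ h0₁
    have h4 : ρ₁ - 1 = ((ρ₁.re - 1 : ℝ) : ℂ) := by
      apply Complex.ext
      · simp
      · simp [him]
    rw [h4, Complex.norm_real, Real.norm_eq_abs, abs_of_nonpos (by linarith [hρ₁.2.1])]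
    have h5 := hρ₁.1
    have h6 : c₀ / Real.log T ≤ 1 / Real.log T :=
      div_le_div_of_nonneg_right (min_le_right _ _) hL0.le
    have h7 : 1 / Real.log T ≤ δ / 2 := by
      rw [div_le_div_iff₀ hL0 (by norm_num)]
      rw [div_le_iff₀ hδ] at hLδ
      linarith
    linarith
  · rw [sq]
    nth_rw 1 [hinv]
    exact inv_mul_cancel χ₁
  · intro q₂ _ χ₂ hp₂ hq₂ ρ₂ hρ₂ h0₂
    have h3 : (⟨q₂, χ₂⟩ : Chr) = ⟨q₁, χ₁⟩ := by
      by_cases hD : Dif χ₂ χ₁
      · exact absurd (hU1 q₂ q₁ χ₂ χ₁ hq₂ hq₁ hD ρ₂ (hsub hρ₂) ρ₁ (hsub hρ₁) h0₂ h0₁) id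
      · exact h2 q₂ q₁ χ₂ χ₁ hp₂ hp₁ hD
    refine ⟨h3, ?_⟩
    obtain ⟨h4, h5⟩ := Sigma.mk.inj_iff.1 h3
    subst h4
    have h6 := eq_of_heq h5
    subst h6
    exact hz2 ρ₂ hρ₂ h0₂

end Pool.Agent.MVX
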