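import Pool.Agent.MVX.StD

set_option autoImplicit false

/-!
# Project MVX, module Fsq: mean square of the Barban-Vehov weight
-/

namespace Pool.Agent.MVX

open Finset

/-- the zeta function at `s > 1` -/
private noncomputable def fsqZ (s : ℝ) : ℝ := ∑' m : ℕ, (m : ℝ) ^ (-s)

private lemma fsq_summable {s : ℝ} (hs : 1 < s) : Summable fun m : ℕ => (m : ℝ) ^ (-s) :=
  Real.summable_nat_rpow.2 (by linarith)

private lemma fsq_Z_le {s : ℝ} (hs : 1 < s) : fsqZ s ≤ 1 + 1 / (s - 1) := by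
  have h1 := ZetaAsymptotics.zeta_limit_aux1 hs
  have h2 : 0 ≤ ZetaAsymptotics.termTSum s :=
    tsum_nonneg fun n => ZetaAsymptotics.term_nonneg _ _
  have h3 : fsqZ s = ∑' n : ℕ, 1 / (n + 1 : ℝ) ^ s := by
    unfold fsqZ
    rw [(fsq_summable hs).tsum_eq_zero_add]
    have : ((0 : ℕ) : ℝ) ^ (-s) = 0 := by
      rw [Nat.cast_zero, Real.zero_rpow (by linarith)]
    rw [this, zero_add]
    refine tsum_congr fun n => ?_
    rw [Nat.cast_add, Nat.cast_one, Real.rpow_neg (by positivity), one_div]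
  rw [h3]
  have h4 := mul_nonneg (by linarith : (0 : ℝ) ≤ s) h2
  linarith

private lemma fsq_hasSum {s : ℝ} (hs : 1 < s) (L : ℕ) (hL : L ≠ 0) :
    HasSum (fun n : ℕ => if L ∣ n then (n : ℝ) ^ (-s) else 0) ((L : ℝ) ^ (-s) * fsqZ s) := by
  have hinj : Function.Injective fun m : ℕ => L * m := fun a b h =>
    Nat.eq_of_mul_eq_mul_left (Nat.pos_of_ne_zero hL) h
  rw [← hinj.hasSum_iff]
  · have h1 : ((fun n : ℕ => if L ∣ n then (n : ℝ) ^ (-s) else 0) ∘ fun m : ℕ => L * m) =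
        fun m : ℕ => (L : ℝ) ^ (-s) * (m : ℝ) ^ (-s) := by
      funext m
      simp only [Function.comp_apply, dvd_mul_right, if_true]
      rw [Nat.cast_mul, Real.mul_rpow (Nat.cast_nonneg _) (Nat.cast_nonneg _)]
    rw [h1]
    exact (fsq_summable hs).hasSum.mul_left _
  · intro n hn
    rw [if_neg]
    rintro ⟨m, rfl⟩
    exact hn ⟨m, rfl⟩

/-- the weight -/
private noncomputable def fsqw (y : ℝ) (d : ℕ) : ℝ :=
  (ArithmeticFunction.moebius d : ℝ) * Real.log (y / d)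

private lemma fsq_gw {y : ℝ} (hy : 2 ≤ y) {n : ℕ} (hn : n ≠ 0) :
    gw y n * Real.log y = ∑ d ∈ Icc 1 ⌊y⌋₊, if d ∣ n then fsqw y d else 0 := by
  have hlog : Real.log y ≠ 0 := (Real.log_pos (by linarith)).ne'
  unfold gw
  rw [div_mul_cancel₀ _ hlog, ← Finset.sum_filter]
  refine Finset.sum_congr ?_ fun d _ => rfl
  ext d
  simp only [Finset.mem_filter, Nat.mem_divisors, Finset.mem_Icc]
  constructor
  · rintro ⟨⟨h1, -⟩, h2⟩
    exact ⟨⟨Nat.pos_of_dvd_of_pos h1 (Nat.pos_of_ne_zero hn), Nat.le_floor h2⟩, h1⟩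
  · rintro ⟨⟨h1, h2⟩, h3⟩
    exact ⟨⟨h3, hn⟩, (Nat.le_floor_iff (by linarith)).1 h2⟩

private lemma fsq_sq {y : ℝ} (hy : 2 ≤ y) {n : ℕ} (hn : n ≠ 0) :
    (gw y n) ^ 2 * (Real.log y) ^ 2 = ∑ d ∈ Icc 1 ⌊y⌋₊, ∑ e ∈ Icc 1 ⌊y⌋₊,
      fsqw y d * fsqw y e * if d.lcm e ∣ n then 1 else 0 := by
  rw [← mul_pow, sq, fsq_gw hy hn, Finset.sum_mul_sum]
  refine Finset.sum_congr rfl fun d _ => Finset.sum_congr rfl fun e _ => ?_
  by_cases h1 : d ∣ n
  · by_cases h2 : e ∣ n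
    · rw [if_pos h1, if_pos h2, if_pos (Nat.lcm_dvd h1 h2), mul_one]
    · rw [if_neg h2, if_neg fun h => h2 ((Nat.dvd_lcm_right d e).trans h), mul_zero, mul_zero]
  · rw [if_neg h1, if_neg fun h => h1 ((Nat.dvd_lcm_left d e).trans h), zero_mul, mul_zero]

private lemma fsq_hasSum' {y ε : ℝ} (hy : 2 ≤ y) (hε : 0 < ε) :
    HasSum (fun n : ℕ => (gw y n) ^ 2 * (Real.log y) ^ 2 * (n : ℝ) ^ (-(1 + ε)))
      (QBV y ε * fsqZ (1 + ε)) := by
  have h1 : HasSum (fun n : ℕ => ∑ d ∈ Icc 1 ⌊y⌋₊, ∑ e ∈ Icc 1 ⌊y⌋₊,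
      fsqw y d * fsqw y e * if d.lcm e ∣ n then (n : ℝ) ^ (-(1 + ε)) else 0)
      (∑ d ∈ Icc 1 ⌊y⌋₊, ∑ e ∈ Icc 1 ⌊y⌋₊,
        fsqw y d * fsqw y e * (((d.lcm e : ℕ) : ℝ) ^ (-(1 + ε)) * fsqZ (1 + ε))) := by
    refine hasSum_sum fun d hd => hasSum_sum fun e he => HasSum.mul_left _ ?_
    refine fsq_hasSum (by linarith) _ ?_
    exact Nat.lcm_ne_zero (by have := (Finset.mem_Icc.1 hd).1; omega)
      (by have := (Finset.mem_Icc.1 he).1; omega)
  have h2 : (∑ d ∈ Icc 1 ⌊y⌋₊, ∑ e ∈ Icc 1 ⌊y⌋₊,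
      fsqw y d * fsqw y e * (((d.lcm e : ℕ) : ℝ) ^ (-(1 + ε)) * fsqZ (1 + ε))) =
      QBV y ε * fsqZ (1 + ε) := by
    unfold QBV
    rw [Finset.sum_mul]
    refine Finset.sum_congr rfl fun d _ => ?_
    rw [Finset.sum_mul]
    refine Finset.sum_congr rfl fun e _ => ?_
    simp only [fsqw]
    ring
  rw [h2] at h1
  have h3 : (fun n : ℕ => (gw y n) ^ 2 * (Real.log y) ^ 2 * (n : ℝ) ^ (-(1 + ε))) =
      fun n : ℕ => ∑ d ∈ Icc 1 ⌊y⌋₊, ∑ e ∈ Icc 1 ⌊y⌋₊,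
        fsqw y d * fsqw y e * if d.lcm e ∣ n then (n : ℝ) ^ (-(1 + ε)) else 0 := by
    funext n
    rcases eq_or_ne n 0 with hn | hn
    · have h0 : ((0 : ℕ) : ℝ) ^ (-(1 + ε)) = 0 := by
        rw [Nat.cast_zero, Real.zero_rpow (by linarith)]
      rw [hn, h0, mul_zero]
      symm
      refine Finset.sum_eq_zero fun d _ => Finset.sum_eq_zero fun e _ => ?_
      rw [ite_self, mul_zero]
    · rw [fsq_sq hy hn, Finset.sum_mul]
      refine Finset.sum_congr rfl fun d _ => ?_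
      rw [Finset.sum_mul]
      refine Finset.sum_congr rfl fun e _ => ?_
      split_ifs <;> ring
  rw [h3]
  exact h1

/-- the mean square of one weight -/
private lemma fsq_one {C y z x A : ℝ} (hC : 0 < C) (hz : 2 ≤ z) (hzy : z ≤ y) (hyz : y ≤ z ^ 2)
    (hx : 1 ≤ x) (hxA : x ≤ z ^ A)
    (hQ : ∀ ε : ℝ, 0 ≤ ε → ε * Real.log y ≤ 4 → 0 ≤ QBV y ε ∧ QBV y ε ≤ C * Real.log y) :
    ∑ n ∈ Icc 1 ⌊x⌋₊, gw y n ^ 2 / n ≤ Real.exp A * (3 * C) := by
  have hlz : 0 < Real.log z := Real.log_pos (by linarith)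
  have hly : Real.log z ≤ Real.log y := Real.log_le_log (by linarith) hzy
  have hly0 : 0 < Real.log y := hlz.trans_le hly
  have hly2 : Real.log y ≤ 2 * Real.log z := by
    have := Real.log_le_log (by linarith) hyz
    rwa [Real.log_pow, Nat.cast_ofNat] at this
  set ε : ℝ := 1 / Real.log z with hε
  have hεp : 0 < ε := one_div_pos.2 hlz
  have hεz : ε * Real.log z = 1 := by rw [hε, one_div_mul_cancel hlz.ne']
  have hy2 : 2 ≤ y := hz.trans hzy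
  obtain ⟨hq0, hq1⟩ := hQ ε hεp.le (by nlinarith)
  have hsum := fsq_hasSum' hy2 hεp
  have h1 : ∑ n ∈ Icc 1 ⌊x⌋₊, (gw y n) ^ 2 * (Real.log y) ^ 2 * (n : ℝ) ^ (-(1 + ε)) ≤
      QBV y ε * fsqZ (1 + ε) :=
    sum_le_hasSum _ (fun n _ => by positivity) hsum
  have hZ : fsqZ (1 + ε) ≤ 1 + Real.log z := by
    have := fsq_Z_le (s := 1 + ε) (by linarith)
    rw [add_sub_cancel_left, hε, one_div_one_div] at this
    exact this
  have hZ0 : 0 ≤ fsqZ (1 + ε) := tsum_nonneg fun m => by positivity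
  have h2 : QBV y ε * fsqZ (1 + ε) ≤ C * Real.log y * (1 + Real.log z) :=
    mul_le_mul hq1 hZ hZ0 (by positivity)
  have hlog2 : 1 / 2 ≤ Real.log z := by
    have h3 := Real.log_two_gt_d9
    have h4 := Real.log_le_log (by norm_num) hz
    linarith
  have h3 : C * Real.log y * (1 + Real.log z) ≤ 3 * C * (Real.log y) ^ 2 := by
    have h4 : 1 + Real.log z ≤ 3 * Real.log y := by linarith
    nlinarith [mul_le_mul_of_nonneg_left h4 (by positivity : 0 ≤ C * Real.log y)]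
  -- comparison of the weights
  have h5 : ∀ n ∈ Icc 1 ⌊x⌋₊, gw y n ^ 2 / n ≤ Real.exp A / (Real.log y) ^ 2 *
      ((gw y n) ^ 2 * (Real.log y) ^ 2 * (n : ℝ) ^ (-(1 + ε))) := by
    intro n hn
    obtain ⟨hn1, hn2⟩ := Finset.mem_Icc.1 hn
    have hn0 : (0 : ℝ) < n := by exact_mod_cast hn1
    have hnx : (n : ℝ) ≤ x := (Nat.le_floor_iff (by linarith)).1 hn2
    have e1 : Real.exp A / (Real.log y) ^ 2 *
        ((gw y n) ^ 2 * (Real.log y) ^ 2 * (n : ℝ) ^ (-(1 + ε))) =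
        gw y n ^ 2 * (Real.exp A * (n : ℝ) ^ (-(1 + ε))) := by
      field_simp
    rw [e1, div_eq_mul_inv]
    refine mul_le_mul_of_nonneg_left ?_ (sq_nonneg _)
    have e2 : (n : ℝ) ^ (-(1 + ε)) = (n : ℝ)⁻¹ * (n : ℝ) ^ (-ε) := by
      rw [neg_add, Real.rpow_add hn0, Real.rpow_neg_one]
    rw [e2]
    have e3 : 1 ≤ Real.exp A * (n : ℝ) ^ (-ε) := by
      rw [Real.rpow_def_of_pos hn0, ← Real.exp_add]
      apply Real.one_le_exp
      have e4 : Real.log n ≤ A * Real.log z := by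
        have := Real.log_le_log hn0 (hnx.trans hxA)
        rwa [Real.log_rpow (by linarith)] at this
      have e5 : Real.log n * ε ≤ A := by
        calc Real.log n * ε ≤ (A * Real.log z) * ε := mul_le_mul_of_nonneg_right e4 hεp.le
          _ = A * (ε * Real.log z) := by ring
          _ = A := by rw [hεz, mul_one]
      linarith [mul_neg (Real.log n) ε]
    calc (n : ℝ)⁻¹ = (n : ℝ)⁻¹ * 1 := (mul_one _).symm
      _ ≤ (n : ℝ)⁻¹ * (Real.exp A * (n : ℝ) ^ (-ε)) :=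
          mul_le_mul_of_nonneg_left e3 (inv_nonneg.2 hn0.le)
      _ = _ := by ring
  refine (Finset.sum_le_sum h5).trans ?_
  rw [← Finset.mul_sum]
  calc Real.exp A / (Real.log y) ^ 2 * _ ≤ Real.exp A / (Real.log y) ^ 2 *
        (3 * C * (Real.log y) ^ 2) :=
        mul_le_mul_of_nonneg_left ((h1.trans h2).trans h3) (by positivity)
    _ = _ := by field_simp

theorem thm_Fsq (h : St_BV) : St_Fsq := by
  obtain ⟨C, hC, hBV⟩ := h
  intro A hA
  refine ⟨10 * (Real.exp A * (3 * C)), by positivity, fun z hz x hx hxA => ?_⟩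
  have hz2 : z ≤ z ^ 2 := by nlinarith
  have h1 := fsq_one hC hz hz2 le_rfl hx hxA (hBV (z ^ 2) (hz.trans hz2))
  have h2 := fsq_one hC hz le_rfl hz2 hx hxA (hBV z hz)
  have h3 : ∀ n ∈ Icc 1 ⌊x⌋₊, fBV z n ^ 2 / n ≤
      8 * (gw (z ^ 2) n ^ 2 / n) + 2 * (gw z n ^ 2 / n) := by
    intro n _
    have e1 : fBV z n ^ 2 ≤ 8 * gw (z ^ 2) n ^ 2 + 2 * gw z n ^ 2 := by
      unfold fBV
      nlinarith [sq_nonneg (2 * gw (z ^ 2) n + gw z n)]
    calc fBV z n ^ 2 / n ≤ (8 * gw (z ^ 2) n ^ 2 + 2 * gw z n ^ 2) / n :=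
          div_le_div_of_nonneg_right e1 (Nat.cast_nonneg _)
      _ = _ := by ring
  refine (Finset.sum_le_sum h3).trans ?_
  rw [Finset.sum_add_distrib, ← Finset.mul_sum, ← Finset.mul_sum]
  linarith

end Pool.Agent.MVX
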