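import Pool.Agent.MVX.StE

set_option autoImplicit false

/-!
# Project MVX [GS]: lower bound of the Selberg sum for `1 * χ`
-/

namespace Pool.Agent.MVX

open Finset

/-- the real values of the character -/
private theorem gs_val {q : ℕ} [NeZero q] (χ : DirichletCharacter ℂ q) (h : χ ^ 2 = 1) (a : ZMod q) :
    χ a = 0 ∨ χ a = 1 ∨ χ a = -1 := (MulChar.isQuadratic_iff_sq_eq_one.mpr h) a

private theorem gs_re_mul {q : ℕ} [NeZero q] (χ : DirichletCharacter ℂ q) (h : χ ^ 2 = 1)
    (m n : ℕ) : (χ ((m * n : ℕ) : ZMod q)).re = (χ (m : ZMod q)).re * (χ (n : ZMod q)).re := by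
  rw [Nat.cast_mul, map_mul]
  rcases gs_val χ h (m : ZMod q) with e | e | e <;> rcases gs_val χ h (n : ZMod q) with e' | e' | e'
    <;> rw [e, e'] <;> simp

private theorem gs_re {q : ℕ} [NeZero q] (χ : DirichletCharacter ℂ q) (h : χ ^ 2 = 1)
    (m : ℕ) : (χ (m : ZMod q)).re = 0 ∨ (χ (m : ZMod q)).re = 1 ∨ (χ (m : ZMod q)).re = -1 := by
  rcases gs_val χ h (m : ZMod q) with e | e | e <;> rw [e] <;> simp

/-- the real character as an arithmetic function -/
private noncomputable def gs_F {q : ℕ} (χ : DirichletCharacter ℂ q) : ArithmeticFunction ℝ :=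
  ⟨fun n => if n = 0 then 0 else (χ (n : ZMod q)).re, if_pos rfl⟩

private theorem gs_F_mult {q : ℕ} [NeZero q] (χ : DirichletCharacter ℂ q) (h : χ ^ 2 = 1) :
    (gs_F χ).IsMultiplicative := by
  refine ⟨?_, fun {m n} _ => ?_⟩
  · show (if (1 : ℕ) = 0 then (0 : ℝ) else (χ ((1 : ℕ) : ZMod q)).re) = 1
    rw [if_neg one_ne_zero, Nat.cast_one, map_one, Complex.one_re]
  · show (if m * n = 0 then (0 : ℝ) else (χ ((m * n : ℕ) : ZMod q)).re) =
      (if m = 0 then (0 : ℝ) else (χ (m : ZMod q)).re) *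
        (if n = 0 then (0 : ℝ) else (χ (n : ZMod q)).re)
    by_cases hm : m = 0
    · rw [if_pos (by rw [hm, zero_mul]), if_pos hm, zero_mul]
    · by_cases hn : n = 0
      · rw [if_pos (by rw [hn, mul_zero]), if_pos hn, mul_zero]
      · rw [if_neg (Nat.mul_ne_zero hm hn), if_neg hm, if_neg hn, gs_re_mul χ h]

private theorem gs_ax {q : ℕ} (χ : DirichletCharacter ℂ q) (n : ℕ) :
    ax χ n = (gs_F χ * ((ArithmeticFunction.zeta : ArithmeticFunction ℕ) : ArithmeticFunction ℝ)) n := by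
  rw [ArithmeticFunction.coe_mul_zeta_apply]
  unfold ax
  refine sum_congr rfl fun d hd => ?_
  have hd0 : d ≠ 0 := by
    rintro rfl
    rw [Nat.mem_divisors, zero_dvd_iff] at hd
    exact hd.2 hd.1
  show _ = if d = 0 then (0 : ℝ) else (χ (d : ZMod q)).re
  rw [if_neg hd0]

private theorem gs_ax_mul {q : ℕ} [NeZero q] (χ : DirichletCharacter ℂ q) (h : χ ^ 2 = 1)
    {m n : ℕ} (hmn : Nat.Coprime m n) : ax χ (m * n) = ax χ m * ax χ n := by
  rw [gs_ax, gs_ax, gs_ax]
  exact ((gs_F_mult χ h).mul ArithmeticFunction.isMultiplicative_zeta.natCast).map_mul_of_coprime hmn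

private theorem gs_ax_one {q : ℕ} [NeZero q] (χ : DirichletCharacter ℂ q) : ax χ 1 = 1 := by
  unfold ax
  rw [Nat.divisors_one, sum_singleton, Nat.cast_one, map_one, Complex.one_re]

private theorem gs_ax_pow {q : ℕ} [NeZero q] (χ : DirichletCharacter ℂ q) (h : χ ^ 2 = 1)
    {p : ℕ} (hp : p.Prime) (k : ℕ) :
    ax χ (p ^ k) = ∑ j ∈ range (k + 1), (χ (p : ZMod q)).re ^ j := by
  have hpow : ∀ j : ℕ, (χ ((p ^ j : ℕ) : ZMod q)).re = (χ (p : ZMod q)).re ^ j := by
    intro j
    induction j with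
    | zero => rw [pow_zero, pow_zero, Nat.cast_one, map_one, Complex.one_re]
    | succ j ih => rw [pow_succ, gs_re_mul χ h, ih, pow_succ]
  unfold ax
  rw [Nat.sum_divisors_prime_pow hp]
  exact sum_congr rfl fun j _ => hpow j

/-- the coefficients at prime powers are not negative -/
private theorem gs_c_nonneg {r : ℝ} (hr : r = 0 ∨ r = 1 ∨ r = -1) (k : ℕ) :
    0 ≤ ∑ j ∈ range (k + 1), r ^ j := by
  rcases hr with rfl | rfl | rfl
  · exact sum_nonneg fun j _ => pow_nonneg le_rfl j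
  · exact sum_nonneg fun j _ => pow_nonneg zero_le_one j
  · have h : ∀ k : ℕ, ∑ j ∈ range k, (-1 : ℝ) ^ j = if k % 2 = 0 then 0 else 1 := by
      intro k
      induction k with
      | zero => simp
      | succ k ih =>
        rw [sum_range_succ, ih]
        rcases Nat.even_or_odd k with hk | hk
        · have h1 : k % 2 = 0 := Nat.even_iff.1 hk
          rw [hk.neg_one_pow, if_pos h1, if_neg (by omega)]
          norm_num
        · have h1 : k % 2 = 1 := Nat.odd_iff.1 hk
          rw [hk.neg_one_pow, if_neg (by omega), if_pos (by omega)]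
          norm_num
    rw [h]
    split_ifs <;> norm_num

/-- the truncated Euler factor -/
private theorem gs_euler {r : ℝ} (hr : r = 0 ∨ r = 1 ∨ r = -1) {x : ℝ} (hx0 : 0 ≤ x) (hx1 : x ≤ 1)
    (N : ℕ) : (1 - x) * (1 - r * x) * ∑ k ∈ range (N + 1), (∑ j ∈ range (k + 1), r ^ j) * x ^ k
      ≤ 1 := by
  have hc : ∀ k : ℕ, ∑ j ∈ range (k + 1 + 1), r ^ j = 1 + r * ∑ j ∈ range (k + 1), r ^ j := by
    intro k
    rw [sum_range_succ' _ (k + 1), mul_sum, pow_zero, add_comm]
    congr 1
    exact sum_congr rfl fun j _ => by rw [pow_succ]; ring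
  have hid : (1 - x) * (1 - r * x) * ∑ k ∈ range (N + 1), (∑ j ∈ range (k + 1), r ^ j) * x ^ k =
      1 - x ^ (N + 1) * (∑ j ∈ range (N + 1 + 1), r ^ j - r * x * ∑ j ∈ range (N + 1), r ^ j) := by
    induction N with
    | zero =>
      simp only [zero_add, sum_range_one, pow_zero, mul_one, pow_one]
      rw [sum_range_succ, sum_range_one, pow_zero, pow_one]
      ring
    | succ N ih =>
      rw [sum_range_succ _ (N + 1), mul_add, ih, hc (N + 1)]
      have h1 := hc N
      obtain ⟨c, hc'⟩ : ∃ c, c = ∑ j ∈ range (N + 1), r ^ j := ⟨_, rfl⟩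
      obtain ⟨c', hc''⟩ : ∃ c, c = ∑ j ∈ range (N + 1 + 1), r ^ j := ⟨_, rfl⟩
      rw [← hc', ← hc''] at h1 ⊢
      rw [pow_succ x (N + 1)]
      linear_combination -(x ^ (N + 1) * x) * h1
  rw [hid]
  have h0 : 0 ≤ x ^ (N + 1) * (∑ j ∈ range (N + 1 + 1), r ^ j -
      r * x * ∑ j ∈ range (N + 1), r ^ j) := by
    refine mul_nonneg (pow_nonneg hx0 _) ?_
    have h1 := gs_c_nonneg hr N
    have h2 := gs_c_nonneg hr (N + 1)
    rcases hr with rfl | rfl | rfl
    · linarith
    · have h3 := hc N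
      nlinarith
    · nlinarith
  linarith

private theorem gs_ga {q : ℕ} [NeZero q] (χ : DirichletCharacter ℂ q) (h : χ ^ 2 = 1)
    {p : ℕ} (hp : p.Prime) : 0 < ga χ p ∧ ga χ p < 1 := by
  have hp2 : (2 : ℝ) ≤ p := by exact_mod_cast hp.two_le
  have hx0 : 0 < 1 / (p : ℝ) := by positivity
  have hx1 : 1 / (p : ℝ) ≤ 1 / 2 := one_div_le_one_div_of_le (by norm_num) hp2
  unfold ga
  obtain ⟨x, hx⟩ : ∃ x, x = 1 / (p : ℝ) := ⟨_, rfl⟩
  have e : (χ (p : ZMod q)).re / (p : ℝ) = (χ (p : ZMod q)).re * x := by rw [hx]; ring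
  rw [e, ← hx]
  rw [← hx] at hx0 hx1
  rcases gs_re χ h p with e' | e' | e' <;> rw [e'] <;> constructor <;> nlinarith

private theorem gs_nonneg {q : ℕ} [NeZero q] (χ : DirichletCharacter ℂ q) (h : χ ^ 2 = 1) (n : ℕ) :
    0 ≤ ax χ n := by
  induction n using Nat.recOnPosPrimePosCoprime with
  | prime_pow p n hp hn =>
    rw [gs_ax_pow χ h hp]
    exact gs_c_nonneg (gs_re χ h p) n
  | zero => unfold ax; simp
  | one => rw [gs_ax_one]; exact zero_le_one
  | coprime a b _ _ hab ha hb => rw [gs_ax_mul χ h hab]; exact mul_nonneg ha hb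

/-- the sum over the powers of a prime -/
private theorem gs_prime {q : ℕ} [NeZero q] (χ : DirichletCharacter ℂ q) (h : χ ^ 2 = 1)
    {p : ℕ} (hp : p.Prime) (N : ℕ) :
    ∑ k ∈ Icc 1 N, ax χ (p ^ k) / ((p ^ k : ℕ) : ℝ) ≤ ga χ p / (1 - ga χ p) := by
  have hp2 : (2 : ℝ) ≤ p := by exact_mod_cast hp.two_le
  obtain ⟨x, hx⟩ : ∃ x, x = 1 / (p : ℝ) := ⟨_, rfl⟩
  have hx0 : 0 < x := by rw [hx]; positivity
  have hx1 : x ≤ 1 / 2 := by rw [hx]; exact one_div_le_one_div_of_le (by norm_num) hp2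
  obtain ⟨r, hr⟩ : ∃ r, r = (χ (p : ZMod q)).re := ⟨_, rfl⟩
  have hr' : r = 0 ∨ r = 1 ∨ r = -1 := by rw [hr]; exact gs_re χ h p
  have h1 := gs_euler hr' hx0.le (by linarith) N
  have h2 : ∑ k ∈ range (N + 1), (∑ j ∈ range (k + 1), r ^ j) * x ^ k =
      1 + ∑ k ∈ Icc 1 N, ax χ (p ^ k) / ((p ^ k : ℕ) : ℝ) := by
    have h3 : range (N + 1) = insert 0 (Icc 1 N) := by
      ext k
      rw [mem_range, mem_insert, mem_Icc]
      omega
    rw [h3, sum_insert (by simp)]
    congr 1
    · simp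
    · refine sum_congr rfl fun k _ => ?_
      rw [gs_ax_pow χ h hp, ← hr, hx, one_div_pow, Nat.cast_pow, mul_one_div]
  have hg := gs_ga χ h hp
  have hga : 1 - ga χ p = (1 - x) * (1 - r * x) := by
    unfold ga
    rw [← hx, ← hr]
    have : r / (p : ℝ) = r * x := by rw [hx]; ring
    rw [this]
    ring
  rw [le_div_iff₀ (by linarith [hg.2])]
  rw [h2, ← hga] at h1
  linarith

/-- the numbers with given prime factors -/
private theorem gs_fib {q : ℕ} [NeZero q] (χ : DirichletCharacter ℂ q) (h : χ ^ 2 = 1) (N : ℕ)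
    (s : Finset ℕ) : (∀ p ∈ s, p.Prime) →
    ∑ n ∈ (Icc 1 N).filter (fun n => n.primeFactors = s), ax χ n / n ≤
      ∏ p ∈ s, ga χ p / (1 - ga χ p) := by
  induction s using Finset.induction_on with
  | empty =>
    intro _
    rw [prod_empty]
    have h1 : (Icc 1 N).filter (fun n => n.primeFactors = ∅) ⊆ {1} := by
      intro n hn
      rw [mem_filter, mem_Icc, Nat.primeFactors_eq_empty] at hn
      rw [mem_singleton]
      omega
    calc ∑ n ∈ (Icc 1 N).filter (fun n => n.primeFactors = ∅), ax χ n / n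
        ≤ ∑ n ∈ ({1} : Finset ℕ), ax χ n / n :=
          sum_le_sum_of_subset_of_nonneg h1 fun n _ _ =>
            div_nonneg (gs_nonneg χ h n) (Nat.cast_nonneg n)
      _ = 1 := by rw [sum_singleton, gs_ax_one]; norm_num
  | insert p s hps ih =>
    intro hP
    have hp : p.Prime := hP p (mem_insert_self _ _)
    have ih' := ih fun p' hp' => hP p' (mem_insert_of_mem hp')
    rw [prod_insert hps]
    obtain ⟨φ, hφ⟩ : ∃ φ : ℕ → ℕ × ℕ, φ = fun n => (n.factorization p, n / p ^ n.factorization p) :=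
      ⟨_, rfl⟩
    have key : ∀ n, n ≠ 0 → p ^ n.factorization p * (n / p ^ n.factorization p) = n := fun n _ =>
      Nat.ordProj_mul_ordCompl_eq_self n p
    have hmaps : ∀ n ∈ (Icc 1 N).filter (fun n => n.primeFactors = insert p s),
        φ n ∈ Icc 1 N ×ˢ (Icc 1 N).filter (fun n => n.primeFactors = s) := by
      intro n hn
      rw [mem_filter, mem_Icc] at hn
      obtain ⟨⟨hn1, hnN⟩, hnp⟩ := hn
      have hn0 : n ≠ 0 := by omega
      have hdvd : p ∣ n := by
        have : p ∈ n.primeFactors := by rw [hnp]; exact mem_insert_self _ _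
        exact Nat.dvd_of_mem_primeFactors this
      rw [hφ, mem_product, mem_Icc, mem_filter, mem_Icc]
      refine ⟨⟨?_, ?_⟩, ⟨?_, ?_⟩, ?_⟩
      · exact (hp.dvd_iff_one_le_factorization hn0).1 hdvd
      · exact (Nat.factorization_lt p hn0).le.trans hnN
      · exact Nat.ordCompl_pos p hn0
      · exact (Nat.ordCompl_le n p).trans hnN
      · show (n / p ^ n.factorization p).primeFactors = s
        rw [← Nat.support_factorization, Nat.factorization_ordCompl, Finsupp.support_erase,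
          Nat.support_factorization, hnp, erase_insert hps]
    have hinj : Set.InjOn φ ((Icc 1 N).filter (fun n => n.primeFactors = insert p s)) := by
      intro n hn m hm hnm
      rw [mem_coe, mem_filter, mem_Icc] at hn hm
      rw [hφ] at hnm
      have e1 : n.factorization p = m.factorization p := congrArg Prod.fst hnm
      have e2 : n / p ^ n.factorization p = m / p ^ m.factorization p := congrArg Prod.snd hnm
      rw [← key n (by omega), ← key m (by omega), e2, e1]
    have hval : ∀ n ∈ (Icc 1 N).filter (fun n => n.primeFactors = insert p s),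
        ax χ n / n = (ax χ (p ^ (φ n).1) / ((p ^ (φ n).1 : ℕ) : ℝ)) *
          (ax χ (φ n).2 / ((φ n).2 : ℝ)) := by
      intro n hn
      rw [mem_filter, mem_Icc] at hn
      have hn0 : n ≠ 0 := by omega
      have hcop : Nat.Coprime (p ^ n.factorization p) (n / p ^ n.factorization p) :=
        Nat.Coprime.pow_left _ (Nat.coprime_ordCompl hp hn0)
      rw [hφ]
      show ax χ n / n = (ax χ (p ^ n.factorization p) / ((p ^ n.factorization p : ℕ) : ℝ)) *
        (ax χ (n / p ^ n.factorization p) / ((n / p ^ n.factorization p : ℕ) : ℝ))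
      rw [div_mul_div_comm, ← gs_ax_mul χ h hcop, ← Nat.cast_mul, key n hn0]
    rw [sum_congr rfl hval]
    have hnn : ∀ k : ℕ, 0 ≤ ax χ k / (k : ℝ) := fun k =>
      div_nonneg (gs_nonneg χ h k) (Nat.cast_nonneg k)
    have hg := gs_ga χ h hp
    calc ∑ n ∈ (Icc 1 N).filter (fun n => n.primeFactors = insert p s),
          (ax χ (p ^ (φ n).1) / ((p ^ (φ n).1 : ℕ) : ℝ)) * (ax χ (φ n).2 / ((φ n).2 : ℝ))
        = ∑ z ∈ ((Icc 1 N).filter (fun n => n.primeFactors = insert p s)).image φ,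
          (ax χ (p ^ z.1) / ((p ^ z.1 : ℕ) : ℝ)) * (ax χ z.2 / (z.2 : ℝ)) :=
          (sum_image (f := fun z : ℕ × ℕ => (ax χ (p ^ z.1) / ((p ^ z.1 : ℕ) : ℝ)) *
            (ax χ z.2 / (z.2 : ℝ))) hinj).symm
      _ ≤ ∑ z ∈ Icc 1 N ×ˢ (Icc 1 N).filter (fun n => n.primeFactors = s),
          (ax χ (p ^ z.1) / ((p ^ z.1 : ℕ) : ℝ)) * (ax χ z.2 / (z.2 : ℝ)) := by
          refine sum_le_sum_of_subset_of_nonneg ?_ fun z _ _ => mul_nonneg (hnn _) (hnn _)
          intro z hz
          rw [mem_image] at hz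
          obtain ⟨n, hn, rfl⟩ := hz
          exact hmaps n hn
      _ = (∑ k ∈ Icc 1 N, ax χ (p ^ k) / ((p ^ k : ℕ) : ℝ)) *
          ∑ m ∈ (Icc 1 N).filter (fun n => n.primeFactors = s), ax χ m / m := by
          rw [sum_product, sum_mul_sum]
      _ ≤ _ := mul_le_mul (gs_prime χ h hp N) ih' (sum_nonneg fun m _ => hnn m)
          (div_nonneg hg.1.le (by linarith [hg.2]))

theorem thm_GS : St_GS := by
  intro q _ χ h
  refine ⟨gs_nonneg χ h, fun p hp => gs_ga χ h hp, fun y hy => ?_⟩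
  unfold GG
  obtain ⟨N, hN⟩ : ∃ N, N = ⌊y⌋₊ := ⟨_, rfl⟩
  rw [← hN]
  have hmaps : ∀ n ∈ Icc 1 N, (∏ p ∈ n.primeFactors, p) ∈ (Icc 1 N).filter Squarefree := by
    intro n hn
    rw [mem_Icc] at hn
    have hd := Nat.prod_primeFactors_dvd n
    rw [mem_filter, mem_Icc]
    refine ⟨⟨?_, (Nat.le_of_dvd (by omega) hd).trans hn.2⟩, ?_⟩
    · exact Nat.pos_of_dvd_of_pos hd (by omega)
    · rw [Nat.squarefree_iff_prime_squarefree]
      intro p hp hpp
      have h1 : (∏ p ∈ n.primeFactors, p).factorization p ≤ 1 := by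
        rw [Nat.factorization_prod fun p' hp' => (Nat.prime_of_mem_primeFactors hp').ne_zero]
        rw [Finsupp.finsetSum_apply]
        calc ∑ p' ∈ n.primeFactors, p'.factorization p
            ≤ ∑ p' ∈ n.primeFactors, if p' = p then 1 else 0 := by
              refine sum_le_sum fun p' hp' => ?_
              rw [(Nat.prime_of_mem_primeFactors hp').factorization, Finsupp.single_apply]
          _ ≤ 1 := by
              rw [sum_ite_eq']
              split_ifs <;> norm_num
      have h2 : 2 ≤ (∏ p ∈ n.primeFactors, p).factorization p := by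
        have h3 : (∏ p ∈ n.primeFactors, p) ≠ 0 :=
          prod_ne_zero_iff.2 fun p' hp' => (Nat.prime_of_mem_primeFactors hp').ne_zero
        rw [← hp.pow_dvd_iff_le_factorization h3, pow_two]
        exact hpp
      omega
  rw [← sum_fiberwise_of_maps_to hmaps]
  refine sum_le_sum fun d hd => ?_
  refine le_trans (le_of_eq ?_) (gs_fib χ h N d.primeFactors fun p hp =>
    Nat.prime_of_mem_primeFactors hp)
  rw [mem_filter, mem_Icc] at hd
  refine sum_congr ?_ fun _ _ => rfl
  refine filter_congr fun n hn => ?_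
  constructor
  · intro e
    rw [← e, Nat.primeFactors_prod fun p hp => Nat.prime_of_mem_primeFactors hp]
  · intro e
    rw [e]
    exact Nat.prod_primeFactors_of_squarefree hd.2

end Pool.Agent.MVX
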