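import Pool.Agent.MVX.StD

set_option autoImplicit false

/-!
# MVX [H]: sums of `μ(j)/j log(Y/j)` over `j` coprime to `k`
-/

namespace Pool.Agent.MVX

open Finset

private theorem h_mu_le (n : ℕ) : |((ArithmeticFunction.moebius n : ℤ) : ℝ)| ≤ 1 := by
  have h := ArithmeticFunction.abs_moebius_le_one (n := n)
  exact_mod_cast h

private theorem h_mu_zeta (n : ℕ) : ∑ x ∈ n.divisorsAntidiagonal,
    ((ArithmeticFunction.moebius x.1 : ℤ) : ℝ) = if n = 1 then 1 else 0 := by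
  have h1 := congrArg (fun f : ArithmeticFunction ℤ => f n)
    ArithmeticFunction.moebius_mul_coe_zeta
  simp only [ArithmeticFunction.mul_apply, ArithmeticFunction.one_apply] at h1
  have h2 : ∑ x ∈ n.divisorsAntidiagonal, (ArithmeticFunction.moebius x.1 : ℤ) =
      if n = 1 then 1 else 0 := by
    rw [← h1]
    refine sum_congr rfl fun x hx => ?_
    have h3 : x.2 ≠ 0 := by
      intro h
      have := Nat.mem_divisorsAntidiagonal.1 hx
      rw [h, mul_zero] at this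
      exact this.2 this.1.symm
    rw [ArithmeticFunction.natCoe_apply, ArithmeticFunction.zeta_apply_ne h3]
    simp
  have h3 := congrArg (fun z : ℤ => (z : ℝ)) h2
  push_cast at h3
  exact h3

/-- `|∑ μ(b)/b| ≤ 2` -/
private theorem h_m (N : ℕ) : |∑ b ∈ Ioc 0 N, ((ArithmeticFunction.moebius b : ℤ) : ℝ) / b| ≤ 2 := by
  rcases Nat.eq_zero_or_pos N with rfl | hN
  · simp
  have hN' : (0 : ℝ) < N := by exact_mod_cast hN
  have h1 := ArithmeticFunction.sum_Ioc_mul_zeta_eq_sum ArithmeticFunction.moebius N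
  rw [ArithmeticFunction.moebius_mul_coe_zeta] at h1
  have h2 : ∑ n ∈ Ioc 0 N, (1 : ArithmeticFunction ℤ) n = 1 := by
    rw [sum_eq_single 1]
    · simp
    · intro b _ hb
      exact ArithmeticFunction.one_apply_ne hb
    · intro h
      exact absurd (mem_Ioc.2 ⟨one_pos, hN⟩) h
  rw [h2] at h1
  have h3 : (1 : ℝ) = ∑ n ∈ Ioc 0 N, ((ArithmeticFunction.moebius n : ℤ) : ℝ) * ((N / n : ℕ) : ℝ) := by
    have := congrArg (fun z : ℤ => (z : ℝ)) h1
    push_cast at this
    exact this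
  have h4 : (N : ℝ) * ∑ b ∈ Ioc 0 N, ((ArithmeticFunction.moebius b : ℤ) : ℝ) / b =
      1 + ∑ b ∈ Ioc 0 N, ((ArithmeticFunction.moebius b : ℤ) : ℝ) *
        ((N : ℝ) / b - ((N / b : ℕ) : ℝ)) := by
    rw [h3, ← sum_add_distrib, mul_sum]
    refine sum_congr rfl fun b _ => ?_
    ring
  have h5 : |∑ b ∈ Ioc 0 N, ((ArithmeticFunction.moebius b : ℤ) : ℝ) *
        ((N : ℝ) / b - ((N / b : ℕ) : ℝ))| ≤ N := by
    refine (abs_sum_le_sum_abs _ _).trans ?_
    have h6 : ∀ b ∈ Ioc 0 N, |((ArithmeticFunction.moebius b : ℤ) : ℝ) *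
        ((N : ℝ) / b - ((N / b : ℕ) : ℝ))| ≤ 1 := by
      intro b hb
      have hb0 : 0 < b := (mem_Ioc.1 hb).1
      have hb1 : (0 : ℝ) < b := by exact_mod_cast hb0
      have h7 : ((N / b : ℕ) : ℝ) ≤ (N : ℝ) / b := Nat.cast_div_le
      have h8 : (N : ℝ) / b ≤ ((N / b : ℕ) : ℝ) + 1 := by
        rw [div_le_iff₀ hb1]
        have h9 : N < (N / b + 1) * b := by
          have := Nat.lt_div_mul_add (a := N) hb0
          nlinarith
        exact_mod_cast h9.le
      rw [abs_mul]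
      have h10 : |(N : ℝ) / b - ((N / b : ℕ) : ℝ)| ≤ 1 := by
        rw [abs_le]
        constructor <;> linarith
      calc |((ArithmeticFunction.moebius b : ℤ) : ℝ)| * |(N : ℝ) / b - ((N / b : ℕ) : ℝ)|
          ≤ 1 * 1 := mul_le_mul (h_mu_le b) h10 (abs_nonneg _) zero_le_one
        _ = 1 := one_mul 1
    refine (sum_le_sum h6).trans ?_
    simp
  have h6 : |(N : ℝ) * ∑ b ∈ Ioc 0 N, ((ArithmeticFunction.moebius b : ℤ) : ℝ) / b| ≤ N * 2 := by
    rw [h4]
    refine (abs_add_le _ _).trans ?_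
    have h7 : (1 : ℝ) ≤ N := by exact_mod_cast hN
    rw [abs_one]
    linarith
  rw [abs_mul, abs_of_pos hN'] at h6
  exact le_of_mul_le_mul_left h6 hN'

/-- the harmonic sums -/
private theorem h_harm (v : ℝ) (hv : 1 ≤ v) :
    |∑ n ∈ Ioc 0 ⌊v⌋₊, (1 : ℝ) / n - Real.log v - Real.eulerMascheroniConstant| ≤ 2 / v := by
  have hv0 : 0 < v := by linarith
  obtain ⟨n, hn⟩ : ∃ n, n = ⌊v⌋₊ := ⟨_, rfl⟩
  have hn1 : 1 ≤ n := by
    rw [hn]
    exact Nat.le_floor (by exact_mod_cast hv)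
  have hn1' : (1 : ℝ) ≤ n := by exact_mod_cast hn1
  have hnv : (n : ℝ) ≤ v := by
    rw [hn]
    exact Nat.floor_le hv0.le
  have hvn : v < n + 1 := by
    rw [hn]
    exact Nat.lt_floor_add_one v
  have hH : ∑ i ∈ Ioc 0 n, (1 : ℝ) / i = ((harmonic n : ℚ) : ℝ) := by
    rw [harmonic_eq_sum_Icc]
    push_cast
    have : Ioc 0 n = Icc 1 n := rfl
    rw [this]
    refine sum_congr rfl fun i _ => ?_
    rw [one_div]
  have h1 := Real.eulerMascheroniSeq_lt_eulerMascheroniConstant n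
  have h2 := Real.eulerMascheroniConstant_lt_eulerMascheroniSeq' n
  rw [Real.eulerMascheroniSeq] at h1
  rw [Real.eulerMascheroniSeq', if_neg (by omega)] at h2
  rw [← hn, hH]
  have h3 : Real.log n ≤ Real.log v := Real.log_le_log (by linarith) hnv
  have h4 : Real.log v ≤ Real.log (n + 1) := Real.log_le_log hv0 hvn.le
  have h5 : Real.log (n + 1) - Real.log n ≤ 1 / n := by
    rw [← Real.log_div (by positivity) (by positivity)]
    have h6 := Real.log_le_sub_one_of_pos (show (0 : ℝ) < ((n : ℝ) + 1) / n by positivity)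
    have h7 : ((n : ℝ) + 1) / n - 1 = 1 / n := by
      field_simp
      ring
    linarith
  have h6 : (1 : ℝ) / n ≤ 2 / v := by
    rw [div_le_div_iff₀ (by linarith) hv0]
    linarith
  rw [abs_le]
  constructor <;> linarith

/-- the case `k = 1` -/
private theorem h_one (Y : ℝ) : |∑ j ∈ Ioc 0 ⌊Y⌋₊,
    ((ArithmeticFunction.moebius j : ℤ) : ℝ) / j * Real.log (Y / j)| ≤ 5 := by
  rcases lt_or_ge Y 1 with hY | hY
  · have : ⌊Y⌋₊ = 0 := Nat.floor_eq_zero.2 hY
    rw [this]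
    simp
  have hY0 : 0 < Y := by linarith
  obtain ⟨N, hN⟩ : ∃ N, N = ⌊Y⌋₊ := ⟨_, rfl⟩
  have hNY : (N : ℝ) ≤ Y := by
    rw [hN]
    exact Nat.floor_le hY0.le
  have hN1 : 1 ≤ N := by
    rw [hN]
    exact Nat.le_floor (by exact_mod_cast hY)
  rw [← hN]
  let f : ArithmeticFunction ℝ := ⟨fun n => ((ArithmeticFunction.moebius n : ℤ) : ℝ) / n, by simp⟩
  let g : ArithmeticFunction ℝ := ⟨fun n => 1 / n, by simp⟩
  have h1 := ArithmeticFunction.sum_Ioc_mul_eq_sum_sum f g N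
  have h2 : ∀ n ∈ Ioc 0 N, (f * g) n = if n = 1 then 1 else 0 := by
    intro n hn
    have hn0 : (n : ℝ) ≠ 0 := by
      have := (mem_Ioc.1 hn).1
      positivity
    have h3 : (f * g) n = (∑ x ∈ n.divisorsAntidiagonal,
        ((ArithmeticFunction.moebius x.1 : ℤ) : ℝ)) / n := by
      rw [ArithmeticFunction.mul_apply, sum_div]
      refine sum_congr rfl fun x hx => ?_
      have h4 := (Nat.mem_divisorsAntidiagonal.1 hx).1
      show ((ArithmeticFunction.moebius x.1 : ℤ) : ℝ) / x.1 * (1 / x.2) = _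
      rw [← h4]
      push_cast
      rw [div_mul_div_comm, mul_one]
    rw [h3, h_mu_zeta]
    split_ifs with h5
    · rw [h5]
      simp
    · simp
  have h3 : ∑ n ∈ Ioc 0 N, (f * g) n = 1 := by
    rw [sum_congr rfl h2, sum_ite_eq']
    rw [if_pos (mem_Ioc.2 ⟨one_pos, hN1⟩)]
  rw [h3] at h1
  have h4 : ∀ b ∈ Ioc 0 N, f b * ∑ m ∈ Ioc 0 (N / b), g m =
      ((ArithmeticFunction.moebius b : ℤ) : ℝ) / b * Real.log (Y / b) +
      Real.eulerMascheroniConstant * (((ArithmeticFunction.moebius b : ℤ) : ℝ) / b) +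
      ((ArithmeticFunction.moebius b : ℤ) : ℝ) / b *
        (∑ n ∈ Ioc 0 ⌊Y / b⌋₊, (1 : ℝ) / n - Real.log (Y / b) -
          Real.eulerMascheroniConstant) := by
    intro b _
    have h5 : ⌊Y / (b : ℝ)⌋₊ = N / b := by rw [Nat.floor_div_natCast, hN]
    rw [h5]
    show ((ArithmeticFunction.moebius b : ℤ) : ℝ) / b * ∑ m ∈ Ioc 0 (N / b), (1 : ℝ) / m = _
    ring
  rw [sum_congr rfl h4, sum_add_distrib, sum_add_distrib, ← mul_sum] at h1
  have h5 : |∑ b ∈ Ioc 0 N, ((ArithmeticFunction.moebius b : ℤ) : ℝ) / b *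
        (∑ n ∈ Ioc 0 ⌊Y / b⌋₊, (1 : ℝ) / n - Real.log (Y / b) -
          Real.eulerMascheroniConstant)| ≤ 2 := by
    refine (abs_sum_le_sum_abs _ _).trans ?_
    have h6 : ∀ b ∈ Ioc 0 N, |((ArithmeticFunction.moebius b : ℤ) : ℝ) / b *
        (∑ n ∈ Ioc 0 ⌊Y / b⌋₊, (1 : ℝ) / n - Real.log (Y / b) -
          Real.eulerMascheroniConstant)| ≤ 2 / Y := by
      intro b hb
      obtain ⟨hb1, hb2⟩ := mem_Ioc.1 hb
      have hb1' : (0 : ℝ) < b := by exact_mod_cast hb1
      have hb2' : (b : ℝ) ≤ Y := by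
        have : (b : ℝ) ≤ N := by exact_mod_cast hb2
        linarith
      have h7 := h_harm (Y / b) (by rw [le_div_iff₀ hb1']; linarith)
      rw [abs_mul, abs_div, abs_of_pos hb1']
      calc |((ArithmeticFunction.moebius b : ℤ) : ℝ)| / b *
            |∑ n ∈ Ioc 0 ⌊Y / b⌋₊, (1 : ℝ) / n - Real.log (Y / b) -
              Real.eulerMascheroniConstant| ≤ 1 / b * (2 / (Y / b)) := by
            apply mul_le_mul _ h7 (abs_nonneg _) (by positivity)
            exact div_le_div_of_nonneg_right (h_mu_le b) hb1'.le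
        _ = 2 / Y := by field_simp
    refine (sum_le_sum h6).trans ?_
    rw [sum_const, Nat.card_Ioc, nsmul_eq_mul, Nat.sub_zero, ← mul_div_assoc,
      div_le_iff₀ hY0]
    linarith
  have h6 := h_m N
  have h7 := Real.eulerMascheroniConstant_lt_two_thirds
  have h8 := Real.one_half_lt_eulerMascheroniConstant
  rw [abs_le] at h5 h6 ⊢
  constructor <;> nlinarith [h5.1, h5.2, h6.1, h6.2]

/-- the sums over the `j` without prime factor in `S` -/
private noncomputable def h_S (S : Finset ℕ) (Y : ℝ) : ℝ :=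
  ∑ j ∈ (Ioc 0 ⌊Y⌋₊).filter (fun j => ∀ p ∈ S, ¬ p ∣ j),
    ((ArithmeticFunction.moebius j : ℤ) : ℝ) / j * Real.log (Y / j)

private theorem h_rec (S : Finset ℕ) (hS : ∀ q ∈ S, q.Prime) (p : ℕ) (hp : p.Prime) (hpS : p ∉ S)
    (Y : ℝ) : h_S S Y = h_S (insert p S) Y - 1 / p * h_S (insert p S) (Y / p) := by
  have hp0 : 0 < p := hp.pos
  have hp0' : (0 : ℝ) < p := by exact_mod_cast hp0
  have h1 : h_S S Y = ∑ j ∈ ((Ioc 0 ⌊Y⌋₊).filter (fun j => ∀ q ∈ S, ¬ q ∣ j)).filter
        (fun j => ¬ p ∣ j), ((ArithmeticFunction.moebius j : ℤ) : ℝ) / j * Real.log (Y / j) +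
      ∑ j ∈ ((Ioc 0 ⌊Y⌋₊).filter (fun j => ∀ q ∈ S, ¬ q ∣ j)).filter
        (fun j => p ∣ j), ((ArithmeticFunction.moebius j : ℤ) : ℝ) / j * Real.log (Y / j) := by
    rw [add_comm, sum_filter_add_sum_filter_not]
    rfl
  have h2 : ((Ioc 0 ⌊Y⌋₊).filter (fun j => ∀ q ∈ S, ¬ q ∣ j)).filter (fun j => ¬ p ∣ j) =
      (Ioc 0 ⌊Y⌋₊).filter (fun j => ∀ q ∈ insert p S, ¬ q ∣ j) := by
    ext j
    simp only [mem_filter, mem_insert, forall_eq_or_imp]
    tauto
  have h3 : ∑ j ∈ ((Ioc 0 ⌊Y⌋₊).filter (fun j => ∀ q ∈ S, ¬ q ∣ j)).filter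
        (fun j => p ∣ j), ((ArithmeticFunction.moebius j : ℤ) : ℝ) / j * Real.log (Y / j) =
      ∑ i ∈ (Ioc 0 ⌊Y / p⌋₊).filter (fun j => ∀ q ∈ S, ¬ q ∣ j),
        ((ArithmeticFunction.moebius (p * i) : ℤ) : ℝ) / (p * i : ℕ) *
          Real.log (Y / (p * i : ℕ)) := by
    symm
    apply sum_bij (fun i _ => p * i)
    · intro i hi
      simp only [mem_filter, mem_Ioc] at hi ⊢
      obtain ⟨⟨hi1, hi2⟩, hi3⟩ := hi
      rw [Nat.floor_div_natCast] at hi2
      refine ⟨⟨⟨Nat.mul_pos hp0 hi1, ?_⟩, ?_⟩, dvd_mul_right _ _⟩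
      · calc p * i ≤ p * (⌊Y⌋₊ / p) := Nat.mul_le_mul_left _ hi2
          _ ≤ ⌊Y⌋₊ := Nat.mul_div_le _ _
      · intro q hq hqi
        rcases (hS q hq).dvd_mul.1 hqi with h | h
        · rw [(Nat.prime_dvd_prime_iff_eq (hS q hq) hp).1 h] at hq
          exact hpS hq
        · exact hi3 q hq h
    · intro a _ b _ h
      exact Nat.eq_of_mul_eq_mul_left hp0 h
    · intro j hj
      simp only [mem_filter, mem_Ioc] at hj
      obtain ⟨⟨⟨hj1, hj2⟩, hj3⟩, i, rfl⟩ := hj
      refine ⟨i, ?_, rfl⟩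
      simp only [mem_filter, mem_Ioc]
      refine ⟨⟨Nat.pos_of_ne_zero fun h => by rw [h, mul_zero] at hj1; exact lt_irrefl _ hj1, ?_⟩,
        fun q hq h => hj3 q hq (h.mul_left p)⟩
      rw [Nat.floor_div_natCast, Nat.le_div_iff_mul_le hp0, mul_comm]
      exact hj2
    · intro i _
      rfl
  have h4 : ∀ i ∈ (Ioc 0 ⌊Y / p⌋₊).filter (fun j => ∀ q ∈ S, ¬ q ∣ j),
      ((ArithmeticFunction.moebius (p * i) : ℤ) : ℝ) / (p * i : ℕ) *
          Real.log (Y / (p * i : ℕ)) =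
      if ¬ p ∣ i then -(1 / p * (((ArithmeticFunction.moebius i : ℤ) : ℝ) / i *
        Real.log (Y / p / i))) else 0 := by
    intro i hi
    by_cases h : p ∣ i
    · rw [if_neg (not_not.2 h)]
      have h5 : ArithmeticFunction.moebius (p * i) = 0 := by
        apply ArithmeticFunction.moebius_eq_zero_of_not_squarefree
        intro h6
        obtain ⟨c, rfl⟩ := h
        have := h6 p ⟨c, by ring⟩
        exact hp.one_lt.ne' (Nat.isUnit_iff.1 this)
      rw [h5]
      simp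
    · rw [if_pos h]
      have h5 : ArithmeticFunction.moebius (p * i) = - ArithmeticFunction.moebius i := by
        rw [ArithmeticFunction.isMultiplicative_moebius.map_mul_of_coprime
          ((Nat.Prime.coprime_iff_not_dvd hp).2 h), ArithmeticFunction.moebius_apply_prime hp]
        ring
      rw [h5]
      push_cast
      rw [div_div Y]
      have hi0 : (i : ℝ) ≠ 0 := by
        have := (mem_Ioc.1 (mem_filter.1 hi).1).1
        positivity
      field_simp
  rw [h1, h2, h3, sum_congr rfl h4, ← sum_filter]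
  have h5 : ((Ioc 0 ⌊Y / p⌋₊).filter (fun j => ∀ q ∈ S, ¬ q ∣ j)).filter (fun j => ¬ p ∣ j) =
      (Ioc 0 ⌊Y / p⌋₊).filter (fun j => ∀ q ∈ insert p S, ¬ q ∣ j) := by
    ext j
    simp only [mem_filter, mem_insert, forall_eq_or_imp]
    tauto
  rw [h5, sum_neg_distrib, ← mul_sum, h_S, h_S]
  ring

private theorem h_step (S : Finset ℕ) (hS : ∀ q ∈ S, q.Prime) (p : ℕ) (hp : p.Prime)
    (hpS : p ∉ S) (B : ℝ) (hB : ∀ Y, |h_S S Y| ≤ B) :
    ∀ Y, |h_S (insert p S) Y| ≤ B * (p / (p - 1)) := by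
  have hp1 : (1 : ℝ) < p := by exact_mod_cast hp.one_lt
  have hB0 : 0 ≤ B := (abs_nonneg _).trans (hB 0)
  have h1 : ∀ n : ℕ, ∀ Y : ℝ, ⌊Y⌋₊ = n → |h_S (insert p S) Y| ≤ B * (p / (p - 1)) := by
    intro n
    induction n using Nat.strong_induction_on with
    | _ n ih =>
      intro Y hY
      rcases Nat.eq_zero_or_pos n with h0 | h0
      · rw [h_S, hY, h0]
        simp only [Ioc_self, filter_empty, sum_empty, abs_zero]
        apply mul_nonneg hB0
        apply div_nonneg <;> linarith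
      · have h2 := h_rec S hS p hp hpS Y
        have h3 : ⌊Y / p⌋₊ < n := by
          rw [Nat.floor_div_natCast, hY]
          exact Nat.div_lt_self h0 hp.one_lt
        have h4 := ih _ h3 (Y / p) rfl
        have h5 := hB Y
        have h6 : h_S (insert p S) Y = h_S S Y + 1 / p * h_S (insert p S) (Y / p) := by
          rw [h2]
          ring
        rw [h6]
        refine (abs_add_le _ _).trans ?_
        rw [abs_mul, abs_of_pos (show (0 : ℝ) < 1 / p by positivity)]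
        calc |h_S S Y| + 1 / p * |h_S (insert p S) (Y / p)|
            ≤ B + 1 / p * (B * (p / (p - 1))) := by
              apply add_le_add h5
              exact mul_le_mul_of_nonneg_left h4 (by positivity)
          _ = B * (p / (p - 1)) := by
              have : (p : ℝ) - 1 ≠ 0 := by linarith
              field_simp
              ring
  exact fun Y => h1 _ Y rfl

private theorem h_all (S : Finset ℕ) (hS : ∀ q ∈ S, q.Prime) :
    ∀ Y, |h_S S Y| ≤ 5 * ∏ p ∈ S, ((p : ℝ) / (p - 1)) := by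
  classical
  induction S using Finset.induction_on with
  | empty =>
    intro Y
    rw [h_S]
    simpa using h_one Y
  | insert p S hpS ih =>
    intro Y
    have h1 := h_step S (fun q hq => hS q (mem_insert_of_mem hq)) p (hS p (mem_insert_self _ _))
      hpS _ (ih fun q hq => hS q (mem_insert_of_mem hq)) Y
    rw [prod_insert hpS]
    calc |h_S (insert p S) Y| ≤ _ := h1
      _ = _ := by ring

theorem thm_H : St_H := by
  refine ⟨5, by norm_num, fun k hk Y => ?_⟩
  have h1 := h_all k.primeFactors (fun q hq => Nat.prime_of_mem_primeFactors hq) Y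
  have h2 : ((k : ℝ) / (Nat.totient k : ℝ)) = ∏ p ∈ k.primeFactors, ((p : ℝ) / (p - 1)) := by
    have h3 := Nat.totient_mul_prod_primeFactors k
    have h4 : (Nat.totient k : ℝ) * ∏ p ∈ k.primeFactors, (p : ℝ) =
        k * ∏ p ∈ k.primeFactors, ((p : ℝ) - 1) := by
      have h5 := congrArg (fun n : ℕ => (n : ℝ)) h3
      push_cast at h5
      rw [h5]
      congr 1
      refine prod_congr rfl fun p hp => ?_
      rw [Nat.cast_sub (Nat.prime_of_mem_primeFactors hp).one_lt.le, Nat.cast_one]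
    have h5 : (0 : ℝ) < Nat.totient k := by exact_mod_cast Nat.totient_pos.2 hk
    have h6 : (0 : ℝ) < ∏ p ∈ k.primeFactors, ((p : ℝ) - 1) := by
      apply prod_pos
      intro p hp
      have : (1 : ℝ) < p := by exact_mod_cast (Nat.prime_of_mem_primeFactors hp).one_lt
      linarith
    rw [prod_div_distrib, div_eq_div_iff h5.ne' h6.ne', ← h4]
    ring
  rw [h2]
  have h3 : h_S k.primeFactors Y = ∑ j ∈ (Icc 1 ⌊Y⌋₊).filter (fun j => j.Coprime k),
      (ArithmeticFunction.moebius j : ℝ) / j * Real.log (Y / j) := by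
    rw [h_S]
    apply sum_congr _ fun _ _ => rfl
    ext j
    simp only [mem_filter, mem_Ioc, mem_Icc, Nat.mem_primeFactors]
    constructor
    · rintro ⟨⟨h4, h5⟩, h6⟩
      refine ⟨⟨h4, h5⟩, ?_⟩
      by_contra h7
      obtain ⟨p, hp, hpj, hpk⟩ := Nat.Prime.not_coprime_iff_dvd.1 h7
      exact h6 p ⟨hp, hpk, by omega⟩ hpj
    · rintro ⟨⟨h4, h5⟩, h6⟩
      refine ⟨⟨h4, h5⟩, fun p hp hpj => ?_⟩
      exact Nat.Prime.not_coprime_iff_dvd.2 ⟨p, hp.1, hpj, hp.2.1⟩ h6
  rw [← h3]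
  exact h1

end Pool.Agent.MVX
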