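import Pool.Agent.MVX.StA

set_option autoImplicit false

/-!
# Project MVX, module HB: the logarithmic derivative after removing the zeros of the rectangle
-/

namespace Pool.Agent.MVX

open Finset

/-- grouping of the zeros by the distance of the imaginary part from `t₀` -/
private lemma hb_group (Z Z' : Finset ℂ) (hZ : Z' ⊆ Z) (w : ℂ → ℝ) (hw : ∀ ρ, 0 ≤ w ρ) (B : ℝ)
    (hB : ∀ t : ℝ, ∑ ρ ∈ Z.filter (fun ρ => |ρ.im - t| ≤ 2 / 5), w ρ ≤ B) (t₀ : ℝ) (K : ℕ)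
    (hK : ∀ ρ ∈ Z', 5 / 4 * |ρ.im - t₀| + 1 / 2 < K + 1) (g : ℂ → ℝ) (c : ℕ → ℝ)
    (hc : ∀ m, 0 ≤ c m) (hg : ∀ ρ ∈ Z', g ρ ≤ c ⌊5 / 4 * |ρ.im - t₀| + 1 / 2⌋₊) :
    ∑ ρ ∈ Z', w ρ * g ρ ≤ 2 * B * ∑ m ∈ range (K + 1), c m := by
  classical
  set μ : ℂ → ℕ := fun ρ => ⌊5 / 4 * |ρ.im - t₀| + 1 / 2⌋₊ with hμ
  have hpos : ∀ ρ : ℂ, 0 ≤ 5 / 4 * |ρ.im - t₀| + 1 / 2 := fun ρ => by positivity
  have h1 : ∀ ρ ∈ Z', μ ρ ∈ range (K + 1) := by
    intro ρ hρ
    rw [Finset.mem_range, hμ]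
    have := hK ρ hρ
    rw [Nat.floor_lt (hpos ρ)]
    exact_mod_cast this
  calc ∑ ρ ∈ Z', w ρ * g ρ ≤ ∑ ρ ∈ Z', w ρ * c (μ ρ) :=
        Finset.sum_le_sum fun ρ hρ => mul_le_mul_of_nonneg_left (hg ρ hρ) (hw ρ)
    _ = ∑ m ∈ range (K + 1), ∑ ρ ∈ Z' with μ ρ = m, w ρ * c (μ ρ) :=
        (Finset.sum_fiberwise_of_maps_to h1 _).symm
    _ ≤ ∑ m ∈ range (K + 1), 2 * B * c m := by
        refine Finset.sum_le_sum fun m _ => ?_
        have h2 : ∑ ρ ∈ Z' with μ ρ = m, w ρ * c (μ ρ) = (∑ ρ ∈ Z' with μ ρ = m, w ρ) * c m := by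
          rw [Finset.sum_mul]
          refine Finset.sum_congr rfl fun ρ hρ => ?_
          rw [(Finset.mem_filter.1 hρ).2]
        rw [h2]
        refine mul_le_mul_of_nonneg_right ?_ (hc m)
        set A := Z.filter (fun ρ => |ρ.im - (t₀ + 4 / 5 * m)| ≤ 2 / 5) with hA
        set A' := Z.filter (fun ρ => |ρ.im - (t₀ - 4 / 5 * m)| ≤ 2 / 5) with hA'
        have h3 : Z'.filter (fun ρ => μ ρ = m) ⊆ A ∪ A' := by
          intro ρ hρ
          obtain ⟨h4, h5⟩ := Finset.mem_filter.1 hρ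
          rw [hμ] at h5
          beta_reduce at h5
          rw [Nat.floor_eq_iff (hpos ρ)] at h5
          rcases le_total 0 (ρ.im - t₀) with h6 | h6
          · refine Finset.mem_union_left _ (Finset.mem_filter.2 ⟨hZ h4, ?_⟩)
            rw [abs_of_nonneg h6] at h5
            rw [abs_le]
            constructor <;> linarith [h5.1, h5.2]
          · refine Finset.mem_union_right _ (Finset.mem_filter.2 ⟨hZ h4, ?_⟩)
            rw [abs_of_nonpos h6] at h5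
            rw [abs_le]
            constructor <;> linarith [h5.1, h5.2]
        have h7 := Finset.sum_union_inter (s₁ := A) (s₂ := A') (f := w)
        have h8 : 0 ≤ ∑ ρ ∈ A ∩ A', w ρ := Finset.sum_nonneg fun ρ _ => hw ρ
        have h9 := Finset.sum_le_sum_of_subset_of_nonneg h3 (f := w) fun ρ _ _ => hw ρ
        have h10 := hB (t₀ + 4 / 5 * m)
        have h11 := hB (t₀ - 4 / 5 * m)
        linarith
    _ = 2 * B * ∑ m ∈ range (K + 1), c m := by rw [Finset.mul_sum]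

/-- the sum of the weights -/
private lemma hb_harm (c₀ : ℝ) (K : ℕ) :
    ∑ m ∈ range (K + 1), (if m = 0 then c₀ else 5 / 2 / (m : ℝ)) ≤
      c₀ + 5 / 2 * (1 + Real.log K) := by
  rw [Finset.sum_range_succ', if_pos rfl, add_comm]
  refine add_le_add le_rfl ?_
  have h1 := harmonic_le_one_add_log K
  rw [harmonic] at h1
  push_cast at h1
  calc ∑ m ∈ range K, (if m + 1 = 0 then c₀ else 5 / 2 / ((m + 1 : ℕ) : ℝ)) =
      5 / 2 * ∑ m ∈ range K, ((m : ℝ) + 1)⁻¹ := by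
        rw [Finset.mul_sum]
        refine Finset.sum_congr rfl fun m _ => ?_
        rw [if_neg (Nat.succ_ne_zero m)]
        push_cast
        rw [div_eq_mul_inv]
    _ ≤ 5 / 2 * (1 + Real.log K) := mul_le_mul_of_nonneg_left h1 (by norm_num)

/-- the distances in the group with number `m ≥ 1` -/
private lemma hb_dist (s ρ : ℂ) (c₀ : ℝ) (h0 : ‖s - ρ‖⁻¹ ≤ c₀) :
    ‖s - ρ‖⁻¹ ≤ if ⌊5 / 4 * |ρ.im - s.im| + 1 / 2⌋₊ = 0 then c₀ else
      5 / 2 / ((⌊5 / 4 * |ρ.im - s.im| + 1 / 2⌋₊ : ℕ) : ℝ) := by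
  set m := ⌊5 / 4 * |ρ.im - s.im| + 1 / 2⌋₊ with hm
  by_cases h : m = 0
  · rw [if_pos h]
    exact h0
  · rw [if_neg h]
    have h1 : (1 : ℝ) ≤ m := by exact_mod_cast Nat.one_le_iff_ne_zero.2 h
    have h2 : (m : ℝ) ≤ 5 / 4 * |ρ.im - s.im| + 1 / 2 := Nat.floor_le (by positivity)
    have h3 : |ρ.im - s.im| ≤ ‖s - ρ‖ := by
      have := Complex.abs_im_le_norm (s - ρ)
      rwa [Complex.sub_im, abs_sub_comm] at this
    have h4 : 2 / 5 * (m : ℝ) ≤ ‖s - ρ‖ := by linarith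
    have h5 : (0 : ℝ) < 2 / 5 * m := by linarith
    calc ‖s - ρ‖⁻¹ ≤ (2 / 5 * (m : ℝ))⁻¹ := inv_anti₀ h5 h4
      _ = 5 / 2 / (m : ℝ) := by
        rw [mul_inv]
        ring

/-- **HB.** The logarithmic derivative after removing the zeros of the rectangle. -/
theorem thm_HB (h1 : St_Loc) (h2 : St_A2) : St_HB := by
  classical
  obtain ⟨C₁, hC₁, hLoc⟩ := h1
  obtain ⟨C₂, hC₂, hA2⟩ := h2
  refine ⟨200 * (C₁ + C₂), by positivity, fun T hT q _ χ hq => ?_⟩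
  set L := Real.log T with hL
  have hT0 : 0 < T := by linarith
  have hL2 : 1 / 2 ≤ L := by
    have e1 : Real.log 2 ≤ L := Real.log_le_log (by norm_num) hT
    have e2 := Real.log_two_gt_d9
    linarith
  have hqT : (q : ℝ) ≤ T ^ 2 := by nlinarith
  have hLoc' := fun t ht => hLoc T hT q χ hqT t ht
  set Z := zs χ (rect (7 / 8) (T + 1)) with hZ
  have hZm : ∀ ρ, ρ ∈ Z ↔ ρ ∈ rect (7 / 8) (T + 1) ∧ Lf χ ρ = 0 := mem_zs χ (rect_bounded _ _)
  set w : ℂ → ℝ := fun ρ => (zm χ ρ : ℝ) with hw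
  have hw0 : ∀ ρ, 0 ≤ w ρ := fun ρ => Nat.cast_nonneg _
  set B := C₁ * L with hB
  have hB0 : 0 ≤ B := by positivity
  -- points of the disc
  have hdisc : ∀ (ρ : ℂ) (t : ℝ), 7 / 8 ≤ ρ.re → ρ.re ≤ 1 → |ρ.im - t| ≤ 2 / 5 →
      ρ ∈ disc (3 / 2) t (3 / 4) := by
    intro ρ t h3 h4 h5
    rw [disc, Metric.mem_closedBall, dist_eq_norm]
    have h6 : ‖ρ - (((3 / 2 : ℝ) : ℂ) + t * Complex.I)‖ ^ 2 ≤ (3 / 4) ^ 2 := by
      rw [Complex.sq_norm, Complex.normSq_apply]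
      have e1 : (ρ - (((3 / 2 : ℝ) : ℂ) + t * Complex.I)).re = ρ.re - 3 / 2 := by simp
      have e2 : (ρ - (((3 / 2 : ℝ) : ℂ) + t * Complex.I)).im = ρ.im - t := by simp
      rw [e1, e2]
      rw [abs_le] at h5
      nlinarith [h5.1, h5.2]
    exact (pow_le_pow_iff_left₀ (norm_nonneg _) (by norm_num) two_ne_zero).1 h6
  have hwin : ∀ t : ℝ, ∑ ρ ∈ Z.filter (fun ρ => |ρ.im - t| ≤ 2 / 5), w ρ ≤ B := by
    intro t
    rcases le_or_gt |t| (4 * T) with ht | ht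
    · refine le_trans ?_ (hLoc' t ht).1
      refine Finset.sum_le_sum_of_subset_of_nonneg ?_ fun ρ _ _ => hw0 ρ
      intro ρ hρ
      obtain ⟨h3, h4⟩ := Finset.mem_filter.1 hρ
      obtain ⟨⟨h5, h6, h7⟩, h8⟩ := (hZm ρ).1 h3
      exact (mem_zs χ (disc_bounded _ _ _) ρ).2 ⟨hdisc ρ t h5 h6 h4, h8⟩
    · have : Z.filter (fun ρ => |ρ.im - t| ≤ 2 / 5) = ∅ := by
        rw [Finset.filter_eq_empty_iff]
        intro ρ hρ h4
        obtain ⟨⟨h5, h6, h7⟩, h8⟩ := (hZm ρ).1 hρ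
        have h9 : |t| ≤ |ρ.im| + |ρ.im - t| := by
          have := abs_sub_abs_le_abs_sub t ρ.im
          rw [abs_sub_comm t] at this
          linarith
        linarith
      rw [this, Finset.sum_empty]
      exact hB0
  set K := ⌊8 * T⌋₊ with hK
  have hKT : 8 * T < K + 1 := Nat.lt_floor_add_one _
  have hKT' : (K : ℝ) ≤ 8 * T := Nat.floor_le (by positivity)
  have hlogK : Real.log K ≤ 4 * L := by
    have hK0 : (0 : ℝ) < K := by linarith
    have e1 : Real.log K ≤ Real.log (8 * T) := Real.log_le_log hK0 hKT'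
    have e2 : Real.log (8 * T) = 3 * Real.log 2 + L := by
      rw [Real.log_mul (by norm_num) hT0.ne', show (8 : ℝ) = 2 ^ 3 by norm_num, Real.log_pow]
      norm_num
      exact hL.symm
    have e3 : Real.log 2 ≤ L := Real.log_le_log (by norm_num) hT
    linarith
  -- sums over subsets of `Z`
  have hsum : ∀ (Z' : Finset ℂ), Z' ⊆ Z → ∀ (s : ℂ) (c₀ : ℝ), 0 ≤ c₀ → |s.im| ≤ 2 * T + 4 →
      (∀ ρ ∈ Z', ‖s - ρ‖⁻¹ ≤ c₀) →
      ‖∑ ρ ∈ Z', (zm χ ρ : ℂ) / (s - ρ)‖ ≤ 2 * B * (c₀ + 5 / 2 * (1 + 4 * L)) := by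
    intro Z' hZ' s c₀ hc₀ hs hd
    have e1 : ‖∑ ρ ∈ Z', (zm χ ρ : ℂ) / (s - ρ)‖ ≤ ∑ ρ ∈ Z', w ρ * ‖s - ρ‖⁻¹ := by
      refine (norm_sum_le _ _).trans (Finset.sum_le_sum fun ρ _ => ?_)
      rw [norm_div, div_eq_mul_inv, Complex.norm_natCast]
    refine e1.trans ?_
    have e2 := hb_group Z Z' hZ' w hw0 B hwin s.im K ?_ (fun ρ => ‖s - ρ‖⁻¹)
      (fun m => if m = 0 then c₀ else 5 / 2 / (m : ℝ)) ?_ (fun ρ hρ => hb_dist s ρ c₀ (hd ρ hρ))
    · refine e2.trans ?_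
      refine mul_le_mul_of_nonneg_left ?_ (by positivity)
      refine (hb_harm c₀ K).trans ?_
      linarith
    · intro ρ hρ
      obtain ⟨⟨-, -, h7⟩, -⟩ := (hZm ρ).1 (hZ' hρ)
      have h8 : |ρ.im - s.im| ≤ |ρ.im| + |s.im| := abs_sub _ _
      linarith
    · intro m
      split_ifs
      · exact hc₀
      · positivity
  -- the number of zeros
  have hnum : ∑ ρ ∈ Z, w ρ ≤ 2 * B * (9 * T) := by
    have e2 := hb_group Z Z subset_rfl w hw0 B hwin 0 K ?_ (fun _ => 1) (fun _ => 1)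
      (fun _ => zero_le_one) (fun _ _ => le_rfl)
    · simp only [mul_one, Finset.sum_const, Finset.card_range, nsmul_eq_mul] at e2
      refine e2.trans (mul_le_mul_of_nonneg_left ?_ (by positivity))
      push_cast
      linarith
    · intro ρ hρ
      obtain ⟨⟨-, -, h7⟩, -⟩ := (hZm ρ).1 hρ
      rw [sub_zero]
      linarith
  have hLL : L ≤ 2 * L ^ 2 := by nlinarith
  have hC₂0 : 0 < C₂ := by linarith
  refine ⟨?_, ?_, ?_⟩
  · -- the rectangle
    intro s hs1 hs2 hs3 hs4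
    set D := zs χ (disc (3 / 2) s.im (3 / 4)) with hD
    have hDm : ∀ ρ, ρ ∈ D ↔ ρ ∈ disc (3 / 2) s.im (3 / 4) ∧ Lf χ ρ = 0 :=
      mem_zs χ (disc_bounded _ _ _)
    have hsd : s ∈ disc (3 / 2) s.im (5 / 8) := by
      rw [disc, Metric.mem_closedBall, dist_eq_norm]
      have e1 : s - (((3 / 2 : ℝ) : ℂ) + s.im * Complex.I) = ((s.re - 3 / 2 : ℝ) : ℂ) := by
        apply Complex.ext <;> simp
      rw [e1, Complex.norm_real, Real.norm_eq_abs, abs_le]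
      constructor <;> linarith
    obtain ⟨hD1, hD2⟩ := hLoc' s.im (by linarith)
    have h3 := hD2 s hsd hs4
    rw [← hD] at h3 hD1
    have h4 : ∑ ρ ∈ D, (zm χ ρ : ℂ) / (s - ρ) - ∑ ρ ∈ Z, (zm χ ρ : ℂ) / (s - ρ) =
        ∑ ρ ∈ D \ Z, (zm χ ρ : ℂ) / (s - ρ) - ∑ ρ ∈ Z \ D, (zm χ ρ : ℂ) / (s - ρ) := by
      have e1 := Finset.sum_inter_add_sum_sdiff D Z fun ρ => (zm χ ρ : ℂ) / (s - ρ)
      have e2 := Finset.sum_inter_add_sum_sdiff Z D fun ρ => (zm χ ρ : ℂ) / (s - ρ)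
      rw [Finset.inter_comm] at e2
      rw [← e1, ← e2]
      ring
    have h5 : ‖∑ ρ ∈ D \ Z, (zm χ ρ : ℂ) / (s - ρ)‖ ≤ 16 * B := by
      have e1 : ∀ ρ ∈ D \ Z, ‖(zm χ ρ : ℂ) / (s - ρ)‖ ≤ 16 * w ρ := by
        intro ρ hρ
        obtain ⟨h6, h7⟩ := Finset.mem_sdiff.1 hρ
        obtain ⟨h8, h9⟩ := (hDm ρ).1 h6
        have h10 : ρ.re < 1 := by
          by_contra hcon
          exact Lf_ne_zero χ (not_lt.1 hcon) h9
        have h11 : 1 / 16 ≤ ‖s - ρ‖ := by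
          by_contra hcon
          push Not at hcon
          have e1 := Complex.abs_re_le_norm (s - ρ)
          have e2 := Complex.abs_im_le_norm (s - ρ)
          rw [Complex.sub_re] at e1
          rw [Complex.sub_im] at e2
          have e3 := le_abs_self (s.re - ρ.re)
          have e4 : |ρ.im| ≤ |s.im| + |s.im - ρ.im| := by
            have := abs_sub_abs_le_abs_sub ρ.im s.im
            rw [abs_sub_comm ρ.im] at this
            linarith
          exact h7 ((hZm ρ).2 ⟨⟨by linarith, h10.le, by linarith⟩, h9⟩)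
        rw [norm_div, Complex.norm_natCast, div_le_iff₀ (by linarith)]
        have := hw0 ρ
        change w ρ ≤ 16 * w ρ * ‖s - ρ‖
        nlinarith
      refine (norm_sum_le _ _).trans ((Finset.sum_le_sum e1).trans ?_)
      rw [← Finset.mul_sum]
      refine mul_le_mul_of_nonneg_left (le_trans ?_ hD1) (by norm_num)
      exact Finset.sum_le_sum_of_subset_of_nonneg Finset.sdiff_subset fun ρ _ _ => hw0 ρ
    have h6 := hsum (Z \ D) Finset.sdiff_subset s (5 / 2) (by norm_num) (by linarith) (by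
      intro ρ hρ
      obtain ⟨h6, h7⟩ := Finset.mem_sdiff.1 hρ
      obtain ⟨⟨h8, h9, h10⟩, h11⟩ := (hZm ρ).1 h6
      have h12 : 2 / 5 ≤ ‖s - ρ‖ := by
        by_contra hcon
        push Not at hcon
        have e2 := Complex.abs_im_le_norm (s - ρ)
        rw [Complex.sub_im, abs_sub_comm] at e2
        exact h7 ((hDm ρ).2 ⟨hdisc ρ s.im h8 h9 (by linarith), h11⟩)
      calc ‖s - ρ‖⁻¹ ≤ (2 / 5 : ℝ)⁻¹ := inv_anti₀ (by norm_num) h12
        _ = 5 / 2 := by norm_num)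
    have h7 : deriv (Lf χ) s / Lf χ s - ∑ ρ ∈ Z, (zm χ ρ : ℂ) / (s - ρ) =
        (deriv (Lf χ) s / Lf χ s - ∑ ρ ∈ D, (zm χ ρ : ℂ) / (s - ρ)) +
        (∑ ρ ∈ D \ Z, (zm χ ρ : ℂ) / (s - ρ) - ∑ ρ ∈ Z \ D, (zm χ ρ : ℂ) / (s - ρ)) := by
      rw [← h4]
      ring
    rw [h7]
    have h8 := norm_add_le (deriv (Lf χ) s / Lf χ s - ∑ ρ ∈ D, (zm χ ρ : ℂ) / (s - ρ))
      (∑ ρ ∈ D \ Z, (zm χ ρ : ℂ) / (s - ρ) - ∑ ρ ∈ Z \ D, (zm χ ρ : ℂ) / (s - ρ))
    have h9 := norm_sub_le (∑ ρ ∈ D \ Z, (zm χ ρ : ℂ) / (s - ρ))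
      (∑ ρ ∈ Z \ D, (zm χ ρ : ℂ) / (s - ρ))
    have h10 : B + 16 * B + 2 * B * (5 / 2 + 5 / 2 * (1 + 4 * L)) ≤
        200 * (C₁ + C₂) * L ^ 2 := by
      have e1 : B + 16 * B + 2 * B * (5 / 2 + 5 / 2 * (1 + 4 * L)) =
          C₁ * (27 * L + 20 * L ^ 2) := by
        rw [hB]; ring
      rw [e1]
      have e2 : C₁ * (27 * L + 20 * L ^ 2) ≤ C₁ * (200 * L ^ 2) :=
        mul_le_mul_of_nonneg_left (by linarith [sq_nonneg L]) hC₁.le
      have e3 : 0 ≤ C₂ * L ^ 2 := by positivity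
      linarith
    linarith
  · -- to the right of `1`
    intro s hs1 hs2
    set d := s.re - 1 with hd
    have hd0 : 0 < d := by rw [hd]; linarith
    have hd1 : 1 ≤ 1 / d := by
      rw [le_div_iff₀ hd0]
      rw [hd]
      linarith
    have h3 := (hA2 q χ).2.2 s hs1 hs2
    have h4 := norm_sub_le (deriv (Lf χ) s / Lf χ s) (∑ ρ ∈ Z, (zm χ ρ : ℂ) / (s - ρ))
    have h5 : C₂ / d ≤ 2 * C₂ * L * (1 / d) := by
      have e1 : C₂ / d = C₂ * (1 / d) := by ring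
      rw [e1]
      have e2 : C₂ * 1 ≤ C₂ * (2 * L) := mul_le_mul_of_nonneg_left (by linarith) hC₂0.le
      have e3 := mul_le_mul_of_nonneg_right e2 (by linarith : (0 : ℝ) ≤ 1 / d)
      linarith
    have h6 : ‖∑ ρ ∈ Z, (zm χ ρ : ℂ) / (s - ρ)‖ ≤ C₁ * L * (1 / d + L) * 50 := by
      have e0 : 0 ≤ C₁ * L := by positivity
      rcases le_or_gt |s.im| (2 * T + 4) with him | him
      · have e1 := hsum Z subset_rfl s (1 / d) (by linarith) him (by
          intro ρ hρ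
          obtain ⟨⟨h8, h9, h10⟩, h11⟩ := (hZm ρ).1 hρ
          have e2 := Complex.abs_re_le_norm (s - ρ)
          rw [Complex.sub_re] at e2
          have e3 := le_abs_self (s.re - ρ.re)
          rw [one_div]
          refine inv_anti₀ hd0 ?_
          rw [hd]
          linarith)
        refine e1.trans ?_
        have e4 : 2 * B * (1 / d + 5 / 2 * (1 + 4 * L)) =
            C₁ * L * (2 * (1 / d) + 5 + 20 * L) := by
          rw [hB]; ring
        rw [e4, mul_assoc (C₁ * L)]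
        refine mul_le_mul_of_nonneg_left ?_ e0
        linarith
      · have e1 : ∀ ρ ∈ Z, ‖(zm χ ρ : ℂ) / (s - ρ)‖ ≤ w ρ / T := by
          intro ρ hρ
          obtain ⟨⟨h8, h9, h10⟩, h11⟩ := (hZm ρ).1 hρ
          have e2 := Complex.abs_im_le_norm (s - ρ)
          rw [Complex.sub_im] at e2
          have e3 := abs_sub_abs_le_abs_sub s.im ρ.im
          rw [norm_div, Complex.norm_natCast]
          exact div_le_div_of_nonneg_left (hw0 ρ) hT0 (by linarith)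
        have e2 : ‖∑ ρ ∈ Z, (zm χ ρ : ℂ) / (s - ρ)‖ ≤ 2 * B * 9 := by
          refine (norm_sum_le _ _).trans ((Finset.sum_le_sum e1).trans ?_)
          rw [← Finset.sum_div, div_le_iff₀ hT0]
          linarith
        refine e2.trans ?_
        rw [mul_assoc (C₁ * L)]
        have e3 : 2 * B * 9 = C₁ * L * 18 := by rw [hB]; ring
        rw [e3]
        refine mul_le_mul_of_nonneg_left ?_ e0
        linarith
    have h7 : 0 ≤ C₂ * L * L := by positivity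
    have h8 : 0 ≤ C₂ * L * (1 / d) := by positivity
    have h9 : 0 ≤ C₁ * L * (1 / d) := by positivity
    have h10 : 0 ≤ C₁ * L * L := by positivity
    linarith
  · -- the number of zeros
    refine hnum.trans ?_
    have e1 : 2 * B * (9 * T) = C₁ * (T * L) * 18 := by rw [hB]; ring
    rw [e1]
    have e2 : 0 ≤ C₂ * (T * L) := by positivity
    have e3 : 0 ≤ C₁ * (T * L) := by positivity
    linarith

end Pool.Agent.MVX
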