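import Pool.Agent.MVX.StE

set_option autoImplicit false

/-!
# Project MVX [Hyp1]: the hyperbola method, two nonprincipal characters
-/

namespace Pool.Agent.MVX

open Finset

/-- the arithmetic function `f(n) n^-s` -/
private noncomputable def hyp1_af (f : ℕ → ℂ) (s : ℂ) : ArithmeticFunction ℂ :=
  ⟨fun n => if n = 0 then 0 else f n * (n : ℂ) ^ (-s), by simp⟩

private theorem hyp1_af_apply (f : ℕ → ℂ) (s : ℂ) {n : ℕ} (hn : n ≠ 0) :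
    hyp1_af f s n = f n * (n : ℂ) ^ (-s) := by
  show (if n = 0 then 0 else f n * (n : ℂ) ^ (-s)) = _
  rw [if_neg hn]

private theorem hyp1_conv (f g : ℕ → ℂ) (s : ℂ) {n : ℕ} (hn : n ≠ 0) :
    cv f g n * (n : ℂ) ^ (-s) = (hyp1_af f s * hyp1_af g s) n := by
  rw [ArithmeticFunction.mul_apply, Nat.sum_divisorsAntidiagonal
    (f := fun a b => hyp1_af f s a * hyp1_af g s b), cv, sum_mul]
  refine sum_congr rfl fun d hd => ?_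
  have hd1 := Nat.dvd_of_mem_divisors hd
  have hd0 : d ≠ 0 := fun h => hn (Nat.eq_zero_of_zero_dvd (h ▸ hd1))
  have he0 : n / d ≠ 0 := (Nat.div_pos (Nat.le_of_dvd (Nat.pos_of_ne_zero hn) hd1)
    (Nat.pos_of_ne_zero hd0)).ne'
  have e : ((d : ℕ) : ℂ) ^ (-s) * ((n / d : ℕ) : ℂ) ^ (-s) = (n : ℂ) ^ (-s) := by
    rw [← Complex.natCast_mul_natCast_cpow, ← Nat.cast_mul, Nat.mul_div_cancel' hd1]
  rw [hyp1_af_apply f s hd0, hyp1_af_apply g s he0, ← e]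
  ring

/-- the hyperbola method -/
theorem hyp1_hyperbola (f g : ℕ → ℂ) (s : ℂ) (y : ℝ) (hy : 1 ≤ y) :
    Ssum (cv f g) s y = ∑ m ∈ Icc 1 ⌊√y⌋₊, f m * (m : ℂ) ^ (-s) * Ssum g s (y / m) +
      ∑ n ∈ Icc 1 ⌊√y⌋₊, g n * (n : ℂ) ^ (-s) * Ssum f s (y / n) -
      Ssum f s (√y) * Ssum g s (√y) := by
  set N := ⌊y⌋₊ with hN
  set Q := ⌊√y⌋₊ with hQ
  have hy0 : 0 ≤ y := by linarith
  have hQN : Q ≤ N := Nat.floor_le_floor (by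
    rw [Real.sqrt_le_left hy0]
    nlinarith)
  have hQ2 : ∀ a b : ℕ, a ≤ Q → b ≤ Q → a * b ≤ N := by
    intro a b ha hb
    rw [hN, Nat.le_floor_iff hy0]
    have h1 : (a : ℝ) ≤ √y := (Nat.le_floor_iff (Real.sqrt_nonneg y)).1 ha
    have h2 : (b : ℝ) ≤ √y := (Nat.le_floor_iff (Real.sqrt_nonneg y)).1 hb
    push_cast
    calc (a : ℝ) * b ≤ √y * √y := mul_le_mul h1 h2 (Nat.cast_nonneg b) (Real.sqrt_nonneg y)
      _ = y := Real.mul_self_sqrt hy0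
  have hQ3 : ∀ a b : ℕ, Q < a → Q < b → N < a * b := by
    intro a b ha hb
    rw [hN, Nat.floor_lt hy0]
    have h1 : √y < a := (Nat.floor_lt (Real.sqrt_nonneg y)).1 ha
    have h2 : √y < b := (Nat.floor_lt (Real.sqrt_nonneg y)).1 hb
    push_cast
    calc y = √y * √y := (Real.mul_self_sqrt hy0).symm
      _ < a * b := mul_lt_mul'' h1 h2 (Real.sqrt_nonneg y) (Real.sqrt_nonneg y)
  set F := hyp1_af f s with hF
  set G := hyp1_af g s with hG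
  have hIcc : ∀ M : ℕ, Icc 1 M = Ioc 0 M := fun M => by
    ext n
    rw [mem_Icc, mem_Ioc]
    omega
  have hs : ∀ (h : ℕ → ℂ) (M : ℕ), ∑ n ∈ Icc 1 M, h n * (n : ℂ) ^ (-s) =
      ∑ n ∈ Ioc 0 M, hyp1_af h s n := by
    intro h M
    rw [hIcc]
    refine sum_congr rfl fun n hn => ?_
    rw [hyp1_af_apply h s (by rw [mem_Ioc] at hn; omega)]
  have hfl : ∀ m : ℕ, ⌊y / m⌋₊ = N / m := fun m => Nat.floor_div_natCast y m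
  have e1 : Ssum (cv f g) s y =
      ∑ x ∈ (Ioc 0 N ×ˢ Ioc 0 N).filter (fun x => x.1 * x.2 ≤ N), F x.1 * G x.2 := by
    rw [← ArithmeticFunction.sum_Ioc_mul_eq_sum_prod_filter]
    unfold Ssum
    rw [hIcc]
    refine sum_congr rfl fun n hn => ?_
    exact hyp1_conv f g s (by rw [mem_Ioc] at hn; omega)
  have e2 : ∑ m ∈ Icc 1 Q, f m * (m : ℂ) ^ (-s) * Ssum g s (y / m) =
      ∑ x ∈ (Ioc 0 N ×ˢ Ioc 0 N).filter (fun x => x.1 * x.2 ≤ N ∧ x.1 ≤ Q), F x.1 * G x.2 := by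
    have h1 : (Ioc 0 N ×ˢ Ioc 0 N).filter (fun x : ℕ × ℕ => x.1 * x.2 ≤ N ∧ x.1 ≤ Q) =
        ((Ioc 0 Q).sigma (fun m => Ioc 0 (N / m))).map
          ⟨fun x => (x.1, x.2), fun a b h => by
            rw [Prod.mk.injEq] at h
            exact Sigma.ext h.1 (heq_of_eq h.2)⟩ := by
      ext ⟨a, b⟩
      simp only [mem_filter, mem_product, mem_Ioc, mem_map, mem_sigma, Function.Embedding.coeFn_mk,
        Prod.mk.injEq, Sigma.exists]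
      constructor
      · rintro ⟨⟨⟨ha, ha'⟩, hb, hb'⟩, h, hq⟩
        exact ⟨a, b, ⟨⟨ha, hq⟩, hb, (Nat.le_div_iff_mul_le ha).2 (by rw [mul_comm]; exact h)⟩, rfl, rfl⟩
      · rintro ⟨a', b', ⟨⟨ha, hq⟩, hb, h⟩, rfl, rfl⟩
        have h' := (Nat.le_div_iff_mul_le ha).1 h
        have h'' : b' ≤ N := h.trans (Nat.div_le_self _ _)
        exact ⟨⟨⟨ha, hq.trans hQN⟩, hb, h''⟩, by rw [mul_comm]; exact h', hq⟩
    rw [h1, sum_map, sum_sigma, hIcc]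
    refine sum_congr rfl fun m hm => ?_
    show _ = ∑ b ∈ Ioc 0 (N / m), F m * G b
    rw [← mul_sum, Ssum, hfl, hs g, hF, hyp1_af_apply f s (by rw [mem_Ioc] at hm; omega)]
  have e3 : ∑ n ∈ Icc 1 Q, g n * (n : ℂ) ^ (-s) * Ssum f s (y / n) =
      ∑ x ∈ (Ioc 0 N ×ˢ Ioc 0 N).filter (fun x => x.1 * x.2 ≤ N ∧ x.2 ≤ Q), F x.1 * G x.2 := by
    have h1 : (Ioc 0 N ×ˢ Ioc 0 N).filter (fun x : ℕ × ℕ => x.1 * x.2 ≤ N ∧ x.2 ≤ Q) =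
        ((Ioc 0 Q).sigma (fun m => Ioc 0 (N / m))).map
          ⟨fun x => (x.2, x.1), fun a b h => by
            rw [Prod.mk.injEq] at h
            exact Sigma.ext h.2 (heq_of_eq h.1)⟩ := by
      ext ⟨a, b⟩
      simp only [mem_filter, mem_product, mem_Ioc, mem_map, mem_sigma, Function.Embedding.coeFn_mk,
        Prod.mk.injEq, Sigma.exists]
      constructor
      · rintro ⟨⟨⟨ha, ha'⟩, hb, hb'⟩, h, hq⟩
        exact ⟨b, a, ⟨⟨hb, hq⟩, ha, (Nat.le_div_iff_mul_le hb).2 h⟩, rfl, rfl⟩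
      · rintro ⟨b', a', ⟨⟨hb, hq⟩, ha, h⟩, rfl, rfl⟩
        have h' := (Nat.le_div_iff_mul_le hb).1 h
        have h'' : a' ≤ N := h.trans (Nat.div_le_self _ _)
        exact ⟨⟨⟨ha, h''⟩, hb, hq.trans hQN⟩, h', hq⟩
    rw [h1, sum_map, sum_sigma, hIcc]
    refine sum_congr rfl fun m hm => ?_
    show _ = ∑ a ∈ Ioc 0 (N / m), F a * G m
    rw [← sum_mul, Ssum, hfl, hs f, hG, hyp1_af_apply g s (by rw [mem_Ioc] at hm; omega), mul_comm]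
  have e4 : Ssum f s (√y) * Ssum g s (√y) =
      ∑ x ∈ (Ioc 0 N ×ˢ Ioc 0 N).filter (fun x => x.1 * x.2 ≤ N ∧ x.1 ≤ Q ∧ x.2 ≤ Q),
        F x.1 * G x.2 := by
    have h1 : (Ioc 0 N ×ˢ Ioc 0 N).filter (fun x : ℕ × ℕ => x.1 * x.2 ≤ N ∧ x.1 ≤ Q ∧ x.2 ≤ Q) =
        Ioc 0 Q ×ˢ Ioc 0 Q := by
      ext ⟨a, b⟩
      simp only [mem_filter, mem_product, mem_Ioc]
      constructor
      · rintro ⟨⟨⟨ha, -⟩, hb, -⟩, -, h, h'⟩
        exact ⟨⟨ha, h⟩, hb, h'⟩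
      · rintro ⟨⟨ha, h⟩, hb, h'⟩
        exact ⟨⟨⟨ha, h.trans hQN⟩, hb, h'.trans hQN⟩, hQ2 a b h h', h, h'⟩
    rw [h1, sum_product, Ssum, Ssum, hs f, hs g, sum_mul_sum]
  have e5 : ∑ x ∈ (Ioc 0 N ×ˢ Ioc 0 N).filter (fun x => x.1 * x.2 ≤ N), F x.1 * G x.2 +
      ∑ x ∈ (Ioc 0 N ×ˢ Ioc 0 N).filter (fun x => x.1 * x.2 ≤ N ∧ x.1 ≤ Q ∧ x.2 ≤ Q),
        F x.1 * G x.2 =
      ∑ x ∈ (Ioc 0 N ×ˢ Ioc 0 N).filter (fun x => x.1 * x.2 ≤ N ∧ x.1 ≤ Q), F x.1 * G x.2 +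
      ∑ x ∈ (Ioc 0 N ×ˢ Ioc 0 N).filter (fun x => x.1 * x.2 ≤ N ∧ x.2 ≤ Q), F x.1 * G x.2 := by
    rw [sum_filter, sum_filter, sum_filter, sum_filter, ← sum_add_distrib, ← sum_add_distrib]
    refine sum_congr rfl fun x _ => ?_
    by_cases h : x.1 * x.2 ≤ N
    · by_cases h1 : x.1 ≤ Q
      · by_cases h2 : x.2 ≤ Q
        · simp [h, h1, h2]
        · simp [h, h1, h2]
      · by_cases h2 : x.2 ≤ Q
        · simp [h, h1, h2]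
        · exact absurd (hQ3 x.1 x.2 (by omega) (by omega)) (by omega)
    · simp [h]
  rw [e1, e2, e3, e4]
  linear_combination e5

/-- the sum of `n^-σ` times the error terms -/
theorem hyp1_err (f : ℕ → ℂ) (hf : ∀ n, ‖f n‖ ≤ 1) (g : ℕ → ℂ) (s L : ℂ) (B y : ℝ) (hB : 0 ≤ B)
    (hy : 1 ≤ y) (hg : ∀ v : ℝ, 1 ≤ v → ‖Ssum g s v - L‖ ≤ B * v ^ (-s.re)) :
    ‖∑ m ∈ Icc 1 ⌊√y⌋₊, f m * (m : ℂ) ^ (-s) * (Ssum g s (y / m) - L)‖ ≤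
      B * y ^ (1 / 2 - s.re) := by
  have hy0 : 0 < y := by linarith
  have h1 : ∀ m ∈ Icc 1 ⌊√y⌋₊, ‖f m * (m : ℂ) ^ (-s) * (Ssum g s (y / m) - L)‖ ≤
      B * y ^ (-s.re) := by
    intro m hm
    rw [mem_Icc] at hm
    have hm0 : (0 : ℝ) < m := by exact_mod_cast hm.1
    have hm1 : (m : ℝ) ≤ y := by
      have h2 : (m : ℝ) ≤ √y := (Nat.le_floor_iff (Real.sqrt_nonneg y)).1 hm.2
      refine h2.trans ?_
      rw [Real.sqrt_le_left hy0.le]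
      nlinarith
    have h2 := hg (y / m) ((one_le_div hm0).2 hm1)
    have h3 : ‖(m : ℂ) ^ (-s)‖ = (m : ℝ) ^ (-s.re) := by
      rw [Complex.norm_natCast_cpow_of_pos (by omega), Complex.neg_re]
    have h4 : (m : ℝ) ^ (-s.re) * (y / m) ^ (-s.re) = y ^ (-s.re) := by
      rw [← Real.mul_rpow hm0.le (by positivity), mul_div_cancel₀ _ hm0.ne']
    calc ‖f m * (m : ℂ) ^ (-s) * (Ssum g s (y / m) - L)‖
        = ‖f m‖ * (m : ℝ) ^ (-s.re) * ‖Ssum g s (y / m) - L‖ := by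
          rw [norm_mul, norm_mul, h3]
      _ ≤ 1 * (m : ℝ) ^ (-s.re) * (B * (y / m) ^ (-s.re)) := by
          refine mul_le_mul (mul_le_mul_of_nonneg_right (hf m) (by positivity)) h2 (norm_nonneg _)
            (by positivity)
      _ = B * ((m : ℝ) ^ (-s.re) * (y / m) ^ (-s.re)) := by ring
      _ = B * y ^ (-s.re) := by rw [h4]
  calc ‖∑ m ∈ Icc 1 ⌊√y⌋₊, f m * (m : ℂ) ^ (-s) * (Ssum g s (y / m) - L)‖
      ≤ ∑ m ∈ Icc 1 ⌊√y⌋₊, B * y ^ (-s.re) := (norm_sum_le _ _).trans (sum_le_sum h1)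
    _ = ⌊√y⌋₊ * (B * y ^ (-s.re)) := by simp
    _ ≤ √y * (B * y ^ (-s.re)) :=
        mul_le_mul_of_nonneg_right (Nat.floor_le (Real.sqrt_nonneg y)) (by positivity)
    _ = B * y ^ (1 / 2 - s.re) := by
        rw [Real.sqrt_eq_rpow, sub_eq_add_neg, Real.rpow_add hy0]
        ring

theorem hyp1_empty (f : ℕ → ℂ) (s : ℂ) (y : ℝ) (hy : y < 1) : Ssum f s y = 0 := by
  unfold Ssum
  have : ⌊y⌋₊ = 0 := Nat.floor_eq_zero.2 hy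
  rw [this]
  simp

theorem thm_Hyp1 (h : St_A1) : St_Hyp1 := by
  refine ⟨24, by norm_num, ?_⟩
  intro k₁ k₂ _ _ ψ₁ ψ₂ K h1 h2 hk1 hk2 s hs hs' hL y hy
  have hk : (1 : ℝ) ≤ K := by
    have : (1 : ℝ) ≤ k₁ := by exact_mod_cast NeZero.one_le
    linarith
  have hns : 0 ≤ ‖s‖ := norm_nonneg s
  rcases lt_or_ge y 1 with hy1 | hy1
  · rw [hyp1_empty _ _ _ hy1, norm_zero]
    positivity
  set L₁ := ψ₁.LFunction s with hL1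
  set L₂ := ψ₂.LFunction s with hL2
  set B := 4 * K * (1 + ‖s‖) with hB
  have hB0 : 0 ≤ B := by positivity
  have g1 : ∀ v : ℝ, 1 ≤ v → ‖Ssum (cf ψ₁) s v - L₁‖ ≤ B * v ^ (-s.re) := by
    intro v hv
    refine (h k₁ ψ₁ h1 s (by linarith) v hv).trans ?_
    have : 0 ≤ v ^ (-s.re) := by positivity
    exact mul_le_mul_of_nonneg_right (by rw [hB]; nlinarith) this
  have g2 : ∀ v : ℝ, 1 ≤ v → ‖Ssum (cf ψ₂) s v - L₂‖ ≤ B * v ^ (-s.re) := by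
    intro v hv
    refine (h k₂ ψ₂ h2 s (by linarith) v hv).trans ?_
    have : 0 ≤ v ^ (-s.re) := by positivity
    exact mul_le_mul_of_nonneg_right (by rw [hB]; nlinarith) this
  have n1 : ∀ n, ‖cf ψ₁ n‖ ≤ 1 := fun n => ψ₁.norm_le_one _
  have n2 : ∀ n, ‖cf ψ₂ n‖ ≤ 1 := fun n => ψ₂.norm_le_one _
  have r1 := hyp1_err (cf ψ₁) n1 (cf ψ₂) s L₂ B y hB0 hy1 g2
  have r2 := hyp1_err (cf ψ₂) n2 (cf ψ₁) s L₁ B y hB0 hy1 g1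
  have hsq : 1 ≤ √y := Real.one_le_sqrt.2 hy1
  have r3 := g1 (√y) hsq
  have r4 := g2 (√y) hsq
  have key : Ssum (cv (cf ψ₁) (cf ψ₂)) s y =
      ∑ m ∈ Icc 1 ⌊√y⌋₊, cf ψ₁ m * (m : ℂ) ^ (-s) * (Ssum (cf ψ₂) s (y / m) - L₂) +
      ∑ n ∈ Icc 1 ⌊√y⌋₊, cf ψ₂ n * (n : ℂ) ^ (-s) * (Ssum (cf ψ₁) s (y / n) - L₁) -
      (Ssum (cf ψ₁) s (√y) - L₁) * (Ssum (cf ψ₂) s (√y) - L₂) := by
    rw [hyp1_hyperbola _ _ _ _ hy1]
    have a1 : ∑ m ∈ Icc 1 ⌊√y⌋₊, cf ψ₁ m * (m : ℂ) ^ (-s) * (Ssum (cf ψ₂) s (y / m) - L₂) =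
        ∑ m ∈ Icc 1 ⌊√y⌋₊, cf ψ₁ m * (m : ℂ) ^ (-s) * Ssum (cf ψ₂) s (y / m) -
          Ssum (cf ψ₁) s (√y) * L₂ := by
      rw [Ssum, sum_mul, ← sum_sub_distrib]
      exact sum_congr rfl fun m _ => by ring
    have a2 : ∑ n ∈ Icc 1 ⌊√y⌋₊, cf ψ₂ n * (n : ℂ) ^ (-s) * (Ssum (cf ψ₁) s (y / n) - L₁) =
        ∑ n ∈ Icc 1 ⌊√y⌋₊, cf ψ₂ n * (n : ℂ) ^ (-s) * Ssum (cf ψ₁) s (y / n) -
          Ssum (cf ψ₂) s (√y) * L₁ := by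
      rw [Ssum, sum_mul, ← sum_sub_distrib]
      exact sum_congr rfl fun m _ => by ring
    rw [a1, a2]
    linear_combination hL
  have hy0 : 0 < y := by linarith
  have p1 : y ^ (1 / 2 - s.re) ≤ y ^ (-(3 / 8 : ℝ)) :=
    Real.rpow_le_rpow_of_exponent_le hy1 (by linarith)
  have p2 : (√y) ^ (-s.re) * (√y) ^ (-s.re) ≤ y ^ (-(3 / 8 : ℝ)) := by
    rw [← Real.mul_rpow (Real.sqrt_nonneg y) (Real.sqrt_nonneg y), Real.mul_self_sqrt hy0.le]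
    exact Real.rpow_le_rpow_of_exponent_le hy1 (by linarith)
  have p3 : ‖(Ssum (cf ψ₁) s (√y) - L₁) * (Ssum (cf ψ₂) s (√y) - L₂)‖ ≤
      B ^ 2 * y ^ (-(3 / 8 : ℝ)) := by
    rw [norm_mul]
    calc ‖Ssum (cf ψ₁) s (√y) - L₁‖ * ‖Ssum (cf ψ₂) s (√y) - L₂‖
        ≤ (B * (√y) ^ (-s.re)) * (B * (√y) ^ (-s.re)) :=
          mul_le_mul r3 r4 (norm_nonneg _) (by positivity)
      _ = B ^ 2 * ((√y) ^ (-s.re) * (√y) ^ (-s.re)) := by ring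
      _ ≤ B ^ 2 * y ^ (-(3 / 8 : ℝ)) := mul_le_mul_of_nonneg_left p2 (by positivity)
  have hY : 0 < y ^ (-(3 / 8 : ℝ)) := by positivity
  have r1' := r1.trans (mul_le_mul_of_nonneg_left p1 hB0)
  have r2' := r2.trans (mul_le_mul_of_nonneg_left p1 hB0)
  have hBB : 2 * B + B ^ 2 ≤ 24 * K ^ 2 * (1 + ‖s‖) ^ 2 := by
    have h5 : 1 ≤ K * (1 + ‖s‖) := by nlinarith
    have h6 : K * (1 + ‖s‖) ≤ (K * (1 + ‖s‖)) ^ 2 := by nlinarith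
    rw [hB]
    nlinarith
  rw [key]
  calc _ ≤ ‖∑ m ∈ Icc 1 ⌊√y⌋₊, cf ψ₁ m * (m : ℂ) ^ (-s) * (Ssum (cf ψ₂) s (y / m) - L₂)‖ +
        ‖∑ n ∈ Icc 1 ⌊√y⌋₊, cf ψ₂ n * (n : ℂ) ^ (-s) * (Ssum (cf ψ₁) s (y / n) - L₁)‖ +
        ‖(Ssum (cf ψ₁) s (√y) - L₁) * (Ssum (cf ψ₂) s (√y) - L₂)‖ :=
        (norm_sub_le _ _).trans (add_le_add_left (norm_add_le _ _) _)
    _ ≤ (2 * B + B ^ 2) * y ^ (-(3 / 8 : ℝ)) := by linarith
    _ ≤ _ := mul_le_mul_of_nonneg_right hBB hY.le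

end Pool.Agent.MVX
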