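import Pool.Agent.MVX.StE

set_option autoImplicit false

/-!
# Project MVX [Hyp2]: the hyperbola method for `1 * χ`
-/

namespace Pool.Agent.MVX

open Finset

/-- a sum of convolutions is a double sum -/
theorem hyp2_double (F : ℕ → ℕ → ℂ) (N : ℕ) :
    ∑ n ∈ Icc 1 N, ∑ d ∈ n.divisors, F d (n / d) =
      ∑ a ∈ Icc 1 N, ∑ b ∈ Icc 1 N, if a * b ≤ N then F a b else 0 := by
  have hI : Icc 1 N = Ioc 0 N := by ext; simp; omega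
  rw [hI]
  have h1 : ∀ n ∈ Ioc 0 N, ∑ d ∈ n.divisors, F d (n / d) =
      ∑ x ∈ Ioc 0 N ×ˢ Ioc 0 N, if x.1 * x.2 = n then F x.1 x.2 else 0 := by
    intro n hn
    rw [mem_Ioc] at hn
    rw [← Nat.sum_divisorsAntidiagonal (fun a b => F a b),
      Nat.divisorsAntidiagonal_eq_prod_filter_of_le hn.1.ne' hn.2, sum_filter]
  rw [sum_congr rfl h1, sum_comm, sum_product]
  refine sum_congr rfl fun a ha => sum_congr rfl fun b hb => ?_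
  rw [mem_Ioc] at ha hb
  have h2 : 0 < a * b := Nat.mul_pos ha.1 hb.1
  by_cases h : a * b ≤ N
  · rw [if_pos h, sum_ite_eq, if_pos (mem_Ioc.2 ⟨h2, h⟩)]
  · rw [if_neg h, sum_ite_eq, if_neg (fun hh => h (mem_Ioc.1 hh).2)]

theorem hyp2_cut (y : ℝ) (hy : 1 ≤ y) (a : ℕ) (ha : 1 ≤ a) (G : ℕ → ℂ) :
    ∑ b ∈ Icc 1 ⌊y / a⌋₊, G b = ∑ b ∈ Icc 1 ⌊y⌋₊, if a * b ≤ ⌊y⌋₊ then G b else 0 := by
  have hy0 : (0 : ℝ) ≤ y := by linarith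
  have ha0 : (0 : ℝ) < a := by exact_mod_cast ha
  rw [← sum_filter]
  refine sum_congr ?_ fun _ _ => rfl
  ext b
  simp only [mem_Icc, mem_filter]
  rw [Nat.le_floor_iff (by positivity), Nat.le_floor_iff hy0, Nat.le_floor_iff hy0, le_div_iff₀ ha0]
  push_cast
  constructor
  · rintro ⟨h1, h2⟩
    refine ⟨⟨h1, ?_⟩, by linarith [mul_comm (a : ℝ) b]⟩
    have h3 : (1 : ℝ) ≤ a := by exact_mod_cast ha
    have h4 : (0 : ℝ) ≤ b := Nat.cast_nonneg b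
    nlinarith
  · rintro ⟨⟨h1, _⟩, h2⟩
    exact ⟨h1, by linarith [mul_comm (a : ℝ) b]⟩

theorem hyp2_sub (N M : ℕ) (hM : M ≤ N) (G : ℕ → ℂ) :
    ∑ a ∈ Icc 1 M, G a = ∑ a ∈ Icc 1 N, if a ≤ M then G a else 0 := by
  rw [← sum_filter]
  refine sum_congr ?_ fun _ _ => rfl
  ext a
  simp only [mem_Icc, mem_filter]
  omega

/-- the hyperbola method -/
theorem hyp2_hyp (F : ℕ → ℕ → ℂ) (y : ℝ) (hy : 1 ≤ y) :
    ∑ n ∈ Icc 1 ⌊y⌋₊, ∑ d ∈ n.divisors, F d (n / d) =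
      ∑ a ∈ Icc 1 ⌊√y⌋₊, ∑ b ∈ Icc 1 ⌊y / a⌋₊, F a b +
      ∑ b ∈ Icc 1 ⌊√y⌋₊, ∑ a ∈ Icc 1 ⌊y / b⌋₊, F a b -
      ∑ a ∈ Icc 1 ⌊√y⌋₊, ∑ b ∈ Icc 1 ⌊√y⌋₊, F a b := by
  have hy0 : (0 : ℝ) ≤ y := by linarith
  have hw1 : 1 ≤ √y := Real.one_le_sqrt.2 hy
  have hwy : √y * √y = y := Real.mul_self_sqrt hy0
  have hMN : ⌊√y⌋₊ ≤ ⌊y⌋₊ := Nat.floor_le_floor (by nlinarith)
  have hsmall : ∀ a b : ℕ, a ≤ ⌊√y⌋₊ → b ≤ ⌊√y⌋₊ → a * b ≤ ⌊y⌋₊ := by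
    intro a b ha hb
    rw [Nat.le_floor_iff (by positivity)] at ha hb
    rw [Nat.le_floor_iff hy0]
    push_cast
    calc (a : ℝ) * b ≤ √y * √y := mul_le_mul ha hb (Nat.cast_nonneg b) (by positivity)
      _ = y := hwy
  have hbig : ∀ a b : ℕ, a * b ≤ ⌊y⌋₊ → a ≤ ⌊√y⌋₊ ∨ b ≤ ⌊√y⌋₊ := by
    intro a b h
    by_contra hcon
    push Not at hcon
    obtain ⟨h1, h2⟩ := hcon
    rw [Nat.floor_lt (by positivity)] at h1 h2
    rw [Nat.le_floor_iff hy0] at h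
    push_cast at h
    have : √y * √y < (a : ℝ) * b := mul_lt_mul'' h1 h2 (by positivity) (by positivity)
    linarith
  rw [hyp2_double]
  have e1 : ∑ a ∈ Icc 1 ⌊√y⌋₊, ∑ b ∈ Icc 1 ⌊y / a⌋₊, F a b =
      ∑ a ∈ Icc 1 ⌊y⌋₊, ∑ b ∈ Icc 1 ⌊y⌋₊,
        if a ≤ ⌊√y⌋₊ then (if a * b ≤ ⌊y⌋₊ then F a b else 0) else 0 := by
    rw [hyp2_sub _ _ hMN]
    refine sum_congr rfl fun a ha => ?_
    rw [mem_Icc] at ha
    by_cases h : a ≤ ⌊√y⌋₊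
    · simp only [if_pos h]
      exact hyp2_cut y hy a ha.1 _
    · simp only [if_neg h, sum_const_zero]
  have e2 : ∑ b ∈ Icc 1 ⌊√y⌋₊, ∑ a ∈ Icc 1 ⌊y / b⌋₊, F a b =
      ∑ a ∈ Icc 1 ⌊y⌋₊, ∑ b ∈ Icc 1 ⌊y⌋₊,
        if b ≤ ⌊√y⌋₊ then (if a * b ≤ ⌊y⌋₊ then F a b else 0) else 0 := by
    rw [hyp2_sub _ _ hMN, sum_comm (s := Icc 1 ⌊y⌋₊) (t := Icc 1 ⌊y⌋₊)]
    refine sum_congr rfl fun b hb => ?_
    rw [mem_Icc] at hb
    by_cases h : b ≤ ⌊√y⌋₊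
    · simp only [if_pos h]
      rw [hyp2_cut y hy b hb.1]
      refine sum_congr rfl fun a _ => ?_
      rw [mul_comm b a]
    · simp only [if_neg h, sum_const_zero]
  have e3 : ∑ a ∈ Icc 1 ⌊√y⌋₊, ∑ b ∈ Icc 1 ⌊√y⌋₊, F a b =
      ∑ a ∈ Icc 1 ⌊y⌋₊, ∑ b ∈ Icc 1 ⌊y⌋₊,
        if a ≤ ⌊√y⌋₊ then (if b ≤ ⌊√y⌋₊ then F a b else 0) else 0 := by
    rw [hyp2_sub _ _ hMN]
    refine sum_congr rfl fun a ha => ?_
    by_cases h : a ≤ ⌊√y⌋₊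
    · simp only [if_pos h]
      exact hyp2_sub _ _ hMN _
    · simp only [if_neg h, sum_const_zero]
  rw [e1, e2, e3, ← sum_add_distrib, ← sum_sub_distrib]
  refine sum_congr rfl fun a _ => ?_
  rw [← sum_add_distrib, ← sum_sub_distrib]
  refine sum_congr rfl fun b _ => ?_
  by_cases ha : a ≤ ⌊√y⌋₊
  · by_cases hb : b ≤ ⌊√y⌋₊
    · have := hsmall a b ha hb
      simp [ha, hb, this]
    · simp [ha, hb]
  · by_cases hb : b ≤ ⌊√y⌋₊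
    · simp [ha, hb]
    · have h3 : ¬ a * b ≤ ⌊y⌋₊ := by
        intro h
        rcases hbig a b h with h4 | h4
        · exact ha h4
        · exact hb h4
      simp [ha, hb, h3]

/-- the convolution `1 * χ` -/
theorem hyp2_conv {q : ℕ} (χ : DirichletCharacter ℂ q) (s : ℂ) (y : ℝ) (hy : 1 ≤ y) :
    Ssum (cv (fun _ => 1) (cf χ)) s y =
      ∑ a ∈ Icc 1 ⌊√y⌋₊, (a : ℂ) ^ (-s) * Ssum (cf χ) s (y / a) +
      ∑ b ∈ Icc 1 ⌊√y⌋₊, cf χ b * (b : ℂ) ^ (-s) * Ssum (fun _ => 1) s (y / b) -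
      Ssum (fun _ => 1) s (√y) * Ssum (cf χ) s (√y) := by
  have h0 : Ssum (cv (fun _ => 1) (cf χ)) s y = ∑ n ∈ Icc 1 ⌊y⌋₊, ∑ d ∈ n.divisors,
      (d : ℂ) ^ (-s) * (cf χ (n / d) * ((n / d : ℕ) : ℂ) ^ (-s)) := by
    unfold Ssum cv
    refine sum_congr rfl fun n _ => ?_
    rw [sum_mul]
    refine sum_congr rfl fun d hd => ?_
    have h1 : d * (n / d) = n := Nat.mul_div_cancel' (Nat.dvd_of_mem_divisors hd)
    have h2 : (n : ℂ) ^ (-s) = (d : ℂ) ^ (-s) * ((n / d : ℕ) : ℂ) ^ (-s) := by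
      conv_lhs => rw [← h1]
      rw [Nat.cast_mul, Complex.natCast_mul_natCast_cpow]
    rw [h2, one_mul]
    ring
  rw [h0, hyp2_hyp (fun a b => (a : ℂ) ^ (-s) * (cf χ b * (b : ℂ) ^ (-s))) y hy]
  unfold Ssum
  congr 1
  · congr 1
    · refine sum_congr rfl fun a _ => ?_
      rw [mul_sum]
    · refine sum_congr rfl fun b _ => ?_
      rw [mul_sum]
      refine sum_congr rfl fun a _ => ?_
      ring
  · rw [sum_mul_sum]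
    refine sum_congr rfl fun a _ => sum_congr rfl fun b _ => ?_
    ring

/-- the power which appears in the main term -/
theorem hyp2_pow (s : ℂ) (y : ℝ) (hy : 0 < y) (b : ℕ) (hb : 1 ≤ b) :
    (b : ℂ) ^ (-s) * ((y / b : ℝ) : ℂ) ^ (1 - s) = (y : ℂ) ^ (1 - s) * (b : ℂ) ^ (-(1 : ℂ)) := by
  have hb0 : (0 : ℝ) < b := by exact_mod_cast hb
  have hbc : (b : ℂ) ≠ 0 := by exact_mod_cast (by omega : b ≠ 0)
  have h1 : (y : ℂ) ^ (1 - s) = ((y / b : ℝ) : ℂ) ^ (1 - s) * (((b : ℝ) : ℂ)) ^ (1 - s) := by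
    rw [← Complex.mul_cpow_ofReal_nonneg (by positivity) hb0.le, ← Complex.ofReal_mul,
      div_mul_cancel₀ _ hb0.ne']
  have h2 : (((b : ℝ) : ℂ)) ^ (1 - s) = (b : ℂ) * (b : ℂ) ^ (-s) := by
    rw [Complex.ofReal_natCast, sub_eq_add_neg, Complex.cpow_add _ _ hbc, Complex.cpow_one]
  rw [h1, h2, Complex.cpow_neg_one]
  field_simp

/-- the exact formula with the errors `E1`, `E2`, `E3` -/
theorem hyp2_formula {q : ℕ} (χ : DirichletCharacter ℂ q) (s Z L L1 : ℂ) (hZL : Z * L = 0)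
    (y : ℝ) (hy : 1 ≤ y) :
    Ssum (cv (fun _ => 1) (cf χ)) s y - L1 * ((y : ℂ) ^ (1 - s) / (1 - s)) =
      ∑ a ∈ Icc 1 ⌊√y⌋₊, (a : ℂ) ^ (-s) * (Ssum (cf χ) s (y / a) - L) +
      ∑ b ∈ Icc 1 ⌊√y⌋₊, cf χ b * (b : ℂ) ^ (-s) *
        (Ssum (fun _ => 1) s (y / b) - ((y / b : ℝ) : ℂ) ^ (1 - s) / (1 - s) - Z) +
      (y : ℂ) ^ (1 - s) / (1 - s) * (Ssum (cf χ) 1 (√y) - L1) -
      (Ssum (fun _ => 1) s (√y) - Z) * (Ssum (cf χ) s (√y) - L) := by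
  have hy0 : 0 < y := by linarith
  have h1 : ∑ a ∈ Icc 1 ⌊√y⌋₊, (a : ℂ) ^ (-s) * (Ssum (cf χ) s (y / a) - L) =
      ∑ a ∈ Icc 1 ⌊√y⌋₊, (a : ℂ) ^ (-s) * Ssum (cf χ) s (y / a) - Ssum (fun _ => 1) s (√y) * L := by
    unfold Ssum
    rw [sum_mul, ← sum_sub_distrib]
    refine sum_congr rfl fun a _ => ?_
    ring
  have h2 : ∑ b ∈ Icc 1 ⌊√y⌋₊, cf χ b * (b : ℂ) ^ (-s) *
        (Ssum (fun _ => 1) s (y / b) - ((y / b : ℝ) : ℂ) ^ (1 - s) / (1 - s) - Z) =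
      ∑ b ∈ Icc 1 ⌊√y⌋₊, cf χ b * (b : ℂ) ^ (-s) * Ssum (fun _ => 1) s (y / b) -
        (y : ℂ) ^ (1 - s) / (1 - s) * Ssum (cf χ) 1 (√y) - Z * Ssum (cf χ) s (√y) := by
    have e : ∀ b ∈ Icc 1 ⌊√y⌋₊, cf χ b * (b : ℂ) ^ (-s) *
        (Ssum (fun _ => 1) s (y / b) - ((y / b : ℝ) : ℂ) ^ (1 - s) / (1 - s) - Z) =
        cf χ b * (b : ℂ) ^ (-s) * Ssum (fun _ => 1) s (y / b) -
          (y : ℂ) ^ (1 - s) / (1 - s) * (cf χ b * (b : ℂ) ^ (-(1 : ℂ))) -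
          Z * (cf χ b * (b : ℂ) ^ (-s)) := by
      intro b hb
      rw [mem_Icc] at hb
      have h3 := hyp2_pow s y hy0 b hb.1
      calc cf χ b * (b : ℂ) ^ (-s) *
            (Ssum (fun _ => 1) s (y / b) - ((y / b : ℝ) : ℂ) ^ (1 - s) / (1 - s) - Z)
          = cf χ b * (b : ℂ) ^ (-s) * Ssum (fun _ => 1) s (y / b) -
            cf χ b * ((b : ℂ) ^ (-s) * ((y / b : ℝ) : ℂ) ^ (1 - s)) / (1 - s) -
            Z * (cf χ b * (b : ℂ) ^ (-s)) := by ring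
        _ = _ := by rw [h3]; ring
    rw [sum_congr rfl e, sum_sub_distrib, sum_sub_distrib, ← mul_sum, ← mul_sum]
    unfold Ssum
    rfl
  rw [h1, h2, hyp2_conv χ s y hy]
  linear_combination hZL

/-- The powers of `y`. -/
theorem hyp2_rpow (y e : ℝ) (hy : 1 ≤ y) (he : e ≤ -(3 / 8)) : y ^ e ≤ y ^ (-(1 / 4 : ℝ)) :=
  Real.rpow_le_rpow_of_exponent_le hy (by linarith)

theorem hyp2_bound (C₁ Q A I M X w y σ : ℝ) (hC₁ : 0 < C₁) (hQ : 1 ≤ Q) (hA : 1 ≤ A) (hI : 0 ≤ I)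
    (hy : 1 ≤ y) (hw : w = √y) (hMw : M ≤ w) (hσ : 7 / 8 ≤ σ)
    (hX : X ≤ M * (4 * Q * A * y ^ (-σ)) + M * (C₁ * 1 * A * y ^ (-σ)) +
      y ^ (1 - σ) * I * (4 * Q * (1 + 1) * w ^ (-(1 : ℝ))) +
      (w ^ (1 - σ) * I + C₁ * 1 * A * w ^ (-σ)) * (4 * Q * A * w ^ (-σ))) :
    X ≤ (16 + 5 * C₁) * Q ^ 2 * A ^ 2 * (1 + I) * y ^ (-(1 / 4 : ℝ)) := by
  have hy0 : 0 < y := by linarith
  set Y := y ^ (-(1 / 4 : ℝ)) with hY
  have hY0 : 0 < Y := Real.rpow_pos_of_pos hy0 _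
  have hwr : ∀ e : ℝ, w ^ e = y ^ (e / 2) := by
    intro e
    rw [hw, Real.sqrt_eq_rpow, ← Real.rpow_mul hy0.le]
    congr 1
    ring
  have hw1 : w = y ^ (1 / 2 : ℝ) := by rw [hw, Real.sqrt_eq_rpow]
  have hw0 : 0 < w := by rw [hw1]; exact Real.rpow_pos_of_pos hy0 _
  have p1 : w * y ^ (-σ) ≤ Y := by
    rw [hw1, ← Real.rpow_add hy0]
    exact hyp2_rpow y _ hy (by linarith)
  have p2 : y ^ (1 - σ) * w ^ (-(1 : ℝ)) ≤ Y := by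
    rw [hwr, ← Real.rpow_add hy0]
    exact hyp2_rpow y _ hy (by linarith)
  have p3 : w ^ (1 - σ) * w ^ (-σ) ≤ Y := by
    rw [hwr, hwr, ← Real.rpow_add hy0]
    exact hyp2_rpow y _ hy (by linarith)
  have p4 : w ^ (-σ) * w ^ (-σ) ≤ Y := by
    rw [hwr, ← Real.rpow_add hy0]
    exact hyp2_rpow y _ hy (by linarith)
  have hyσ : 0 ≤ y ^ (-σ) := Real.rpow_nonneg hy0.le _
  have p0 : M * y ^ (-σ) ≤ Y := (mul_le_mul_of_nonneg_right hMw hyσ).trans p1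
  have hB : X ≤ (4 * Q * A + C₁ * A + 8 * Q * I + 4 * Q * A * I + 4 * C₁ * Q * A ^ 2) * Y := by
    have q1 : M * (4 * Q * A * y ^ (-σ)) ≤ 4 * Q * A * Y := by
      have := mul_le_mul_of_nonneg_left p0 (by positivity : 0 ≤ 4 * Q * A)
      linarith
    have q2 : M * (C₁ * 1 * A * y ^ (-σ)) ≤ C₁ * A * Y := by
      have := mul_le_mul_of_nonneg_left p0 (by positivity : 0 ≤ C₁ * A)
      linarith
    have q3 : y ^ (1 - σ) * I * (4 * Q * (1 + 1) * w ^ (-(1 : ℝ))) ≤ 8 * Q * I * Y := by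
      have := mul_le_mul_of_nonneg_left p2 (by positivity : 0 ≤ 8 * Q * I)
      linarith
    have q4 : (w ^ (1 - σ) * I + C₁ * 1 * A * w ^ (-σ)) * (4 * Q * A * w ^ (-σ)) ≤
        (4 * Q * A * I + 4 * C₁ * Q * A ^ 2) * Y := by
      have r1 := mul_le_mul_of_nonneg_left p3 (by positivity : 0 ≤ 4 * Q * A * I)
      have r2 := mul_le_mul_of_nonneg_left p4 (by positivity : 0 ≤ 4 * C₁ * Q * A ^ 2)
      linarith
    linarith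
  refine hB.trans (mul_le_mul_of_nonneg_right ?_ hY0.le)
  have hQA : 1 ≤ Q * A := one_le_mul_of_one_le_of_one_le hQ hA
  have hQ2 : Q ≤ Q ^ 2 := by nlinarith
  have hA2 : A ≤ A ^ 2 := by nlinarith
  have hS : Q * A ≤ Q ^ 2 * A ^ 2 := by
    have : Q ^ 2 * A ^ 2 = (Q * A) * (Q * A) := by ring
    rw [this]
    nlinarith
  have hS1 : Q * A ^ 2 ≤ Q ^ 2 * A ^ 2 := mul_le_mul_of_nonneg_right hQ2 (by positivity)
  have hS2 : A ≤ Q ^ 2 * A ^ 2 := by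
    have : A ≤ Q * A := by nlinarith
    linarith
  have hS3 : Q ≤ Q ^ 2 * A ^ 2 := by
    have : Q ≤ Q * A := by nlinarith
    linarith
  have hS0 : 0 ≤ Q ^ 2 * A ^ 2 := by positivity
  have t1 : 4 * Q * A ≤ 4 * (Q ^ 2 * A ^ 2) := by linarith
  have t2 : C₁ * A ≤ C₁ * (Q ^ 2 * A ^ 2) := mul_le_mul_of_nonneg_left hS2 hC₁.le
  have t3 : 8 * Q * I ≤ 8 * (Q ^ 2 * A ^ 2) * I := by
    have := mul_le_mul_of_nonneg_right hS3 hI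
    linarith
  have t4 : 4 * Q * A * I ≤ 4 * (Q ^ 2 * A ^ 2) * I := by
    have := mul_le_mul_of_nonneg_right hS hI
    linarith
  have t5 : 4 * C₁ * Q * A ^ 2 ≤ 4 * C₁ * (Q ^ 2 * A ^ 2) := by
    have := mul_le_mul_of_nonneg_left hS1 (by positivity : 0 ≤ 4 * C₁)
    linarith
  have t6 : 0 ≤ (Q ^ 2 * A ^ 2) * I := mul_nonneg hS0 hI
  have t7 : 0 ≤ C₁ * ((Q ^ 2 * A ^ 2) * I) := mul_nonneg hC₁.le t6
  nlinarith

theorem thm_Hyp2 (h1 : St_A1) (h2 : St_A1p) : St_Hyp2 := by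
  obtain ⟨C₁, hC₁, h2⟩ := h2
  refine ⟨16 + 5 * C₁, by positivity, ?_⟩
  intro q _ χ hχ s hs1 hs2 hs3 hz y hy
  have hs3' : 1 - s ≠ 0 := sub_ne_zero.2 (Ne.symm hs3)
  have hn : 0 < ‖1 - s‖ := norm_pos_iff.2 hs3'
  have hQ : (1 : ℝ) ≤ q := by exact_mod_cast NeZero.one_le
  have hA : (1 : ℝ) ≤ 1 + ‖s‖ := by linarith [norm_nonneg s]
  have hI : 0 ≤ 1 / ‖1 - s‖ := by positivity
  rcases le_or_gt 1 y with hy1 | hy1
  · -- the main case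
    have hw1 : 1 ≤ √y := Real.one_le_sqrt.2 hy1
    have hw0 : 0 < √y := by linarith
    have hwy : √y * √y = y := Real.mul_self_sqrt hy.le
    have hc1 : cf (1 : DirichletCharacter ℂ 1) = fun _ => 1 := by
      funext n
      have : (n : ZMod 1) = 1 := Subsingleton.elim _ _
      simp [cf, this]
    have E1 : ∀ v : ℝ, 1 ≤ v →
        ‖Ssum (fun _ => 1) s v - (v : ℂ) ^ (1 - s) / (1 - s) - riemannZeta s‖ ≤
          C₁ * 1 * (1 + ‖s‖) * v ^ (-s.re) := by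
      intro v hv
      have h3 := h2 1 s (by linarith) hs3 v hv
      rw [hc1, DirichletCharacter.LFunction_modOne_eq] at h3
      simpa using h3
    have E2 : ∀ v : ℝ, 1 ≤ v → ‖Ssum (cf χ) s v - χ.LFunction s‖ ≤
        4 * q * (1 + ‖s‖) * v ^ (-s.re) := fun v hv => h1 q χ hχ s (by linarith) v hv
    have E3 : ‖Ssum (cf χ) 1 (√y) - χ.LFunction 1‖ ≤ 4 * q * (1 + 1) * √y ^ (-(1 : ℝ)) := by
      have h3 := h1 q χ hχ 1 (by norm_num) (√y) hw1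
      simpa using h3
    have hM : ((⌊√y⌋₊ : ℕ) : ℝ) ≤ √y := Nat.floor_le hw0.le
    have hcard : ((Icc 1 ⌊√y⌋₊).card : ℝ) = (⌊√y⌋₊ : ℕ) := by simp
    have hdiv : ∀ a ∈ Icc 1 ⌊√y⌋₊, (0 : ℝ) < a ∧ 1 ≤ y / a := by
      intro a ha
      rw [mem_Icc] at ha
      have ha0 : (1 : ℝ) ≤ a := by exact_mod_cast ha.1
      have ha1 : (a : ℝ) ≤ √y := (Nat.le_floor_iff hw0.le).1 ha.2
      refine ⟨by linarith, ?_⟩
      rw [le_div_iff₀ (by linarith)]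
      nlinarith
    have hpw : ∀ a ∈ Icc 1 ⌊√y⌋₊, ‖(a : ℂ) ^ (-s)‖ * (y / a) ^ (-s.re) = y ^ (-s.re) := by
      intro a ha
      have h3 := (hdiv a ha).1
      have h4 : ‖(a : ℂ) ^ (-s)‖ = (a : ℝ) ^ (-s.re) := by
        have h5 := Complex.norm_cpow_eq_rpow_re_of_pos h3 (-s)
        rw [Complex.ofReal_natCast, Complex.neg_re] at h5
        exact h5
      rw [h4, ← Real.mul_rpow h3.le (by positivity), mul_div_cancel₀ _ h3.ne']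
    have B1 : ‖∑ a ∈ Icc 1 ⌊√y⌋₊, (a : ℂ) ^ (-s) * (Ssum (cf χ) s (y / a) - χ.LFunction s)‖ ≤
        (⌊√y⌋₊ : ℕ) * (4 * q * (1 + ‖s‖) * y ^ (-s.re)) := by
      rw [← hcard, ← nsmul_eq_mul, ← sum_const]
      refine (norm_sum_le _ _).trans (sum_le_sum fun a ha => ?_)
      rw [norm_mul]
      calc ‖(a : ℂ) ^ (-s)‖ * ‖Ssum (cf χ) s (y / a) - χ.LFunction s‖
          ≤ ‖(a : ℂ) ^ (-s)‖ * (4 * q * (1 + ‖s‖) * (y / a) ^ (-s.re)) :=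
            mul_le_mul_of_nonneg_left (E2 _ (hdiv a ha).2) (norm_nonneg _)
        _ = 4 * q * (1 + ‖s‖) * (‖(a : ℂ) ^ (-s)‖ * (y / a) ^ (-s.re)) := by ring
        _ = _ := by rw [hpw a ha]
    have B2 : ‖∑ b ∈ Icc 1 ⌊√y⌋₊, cf χ b * (b : ℂ) ^ (-s) *
        (Ssum (fun _ => 1) s (y / b) - ((y / b : ℝ) : ℂ) ^ (1 - s) / (1 - s) - riemannZeta s)‖ ≤
        (⌊√y⌋₊ : ℕ) * (C₁ * 1 * (1 + ‖s‖) * y ^ (-s.re)) := by
      rw [← hcard, ← nsmul_eq_mul, ← sum_const]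
      refine (norm_sum_le _ _).trans (sum_le_sum fun b hb => ?_)
      rw [norm_mul, norm_mul]
      have h3 : ‖cf χ b‖ ≤ 1 := χ.norm_le_one _
      calc ‖cf χ b‖ * ‖(b : ℂ) ^ (-s)‖ *
            ‖Ssum (fun _ => 1) s (y / b) - ((y / b : ℝ) : ℂ) ^ (1 - s) / (1 - s) - riemannZeta s‖
          ≤ 1 * ‖(b : ℂ) ^ (-s)‖ * (C₁ * 1 * (1 + ‖s‖) * (y / b) ^ (-s.re)) :=
            mul_le_mul (mul_le_mul_of_nonneg_right h3 (norm_nonneg _)) (E1 _ (hdiv b hb).2)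
              (norm_nonneg _) (by positivity)
        _ = C₁ * 1 * (1 + ‖s‖) * (‖(b : ℂ) ^ (-s)‖ * (y / b) ^ (-s.re)) := by ring
        _ = _ := by rw [hpw b hb]
    have hyc : ‖(y : ℂ) ^ (1 - s)‖ = y ^ (1 - s.re) := by
      have h5 := Complex.norm_cpow_eq_rpow_re_of_pos hy (1 - s)
      rw [Complex.sub_re, Complex.one_re] at h5
      exact h5
    have hwc : ‖(√y : ℂ) ^ (1 - s)‖ = √y ^ (1 - s.re) := by
      have h5 := Complex.norm_cpow_eq_rpow_re_of_pos hw0 (1 - s)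
      rw [Complex.sub_re, Complex.one_re] at h5
      exact h5
    have B3 : ‖(y : ℂ) ^ (1 - s) / (1 - s) * (Ssum (cf χ) 1 (√y) - χ.LFunction 1)‖ ≤
        y ^ (1 - s.re) * (1 / ‖1 - s‖) * (4 * q * (1 + 1) * √y ^ (-(1 : ℝ))) := by
      rw [norm_mul, norm_div, hyc]
      have h6 : y ^ (1 - s.re) / ‖1 - s‖ = y ^ (1 - s.re) * (1 / ‖1 - s‖) := by ring
      rw [h6]
      exact mul_le_mul_of_nonneg_left E3 (by positivity)
    have B4 : ‖(Ssum (fun _ => 1) s (√y) - riemannZeta s) * (Ssum (cf χ) s (√y) - χ.LFunction s)‖ ≤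
        (√y ^ (1 - s.re) * (1 / ‖1 - s‖) + C₁ * 1 * (1 + ‖s‖) * √y ^ (-s.re)) *
          (4 * q * (1 + ‖s‖) * √y ^ (-s.re)) := by
      rw [norm_mul]
      refine mul_le_mul ?_ (E2 _ hw1) (norm_nonneg _) (by positivity)
      have h6 : Ssum (fun _ => 1) s (√y) - riemannZeta s = (√y : ℂ) ^ (1 - s) / (1 - s) +
          (Ssum (fun _ => 1) s (√y) - (√y : ℂ) ^ (1 - s) / (1 - s) - riemannZeta s) := by ring
      rw [h6]
      refine (norm_add_le _ _).trans (add_le_add ?_ (E1 _ hw1))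
      rw [norm_div, hwc]
      exact le_of_eq (by ring)
    have hform := hyp2_formula χ s (riemannZeta s) (χ.LFunction s) (χ.LFunction 1) hz y hy1
    rw [hform]
    refine hyp2_bound C₁ q (1 + ‖s‖) (1 / ‖1 - s‖) (⌊√y⌋₊ : ℕ) _ (√y) y s.re hC₁ hQ hA hI hy1 rfl
      hM hs1 ?_
    refine (norm_sub_le _ _).trans (add_le_add ?_ B4)
    refine (norm_add_le _ _).trans (add_le_add ?_ B3)
    exact (norm_add_le _ _).trans (add_le_add B1 B2)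
  · -- the trivial case
    have h0 : ⌊y⌋₊ = 0 := Nat.floor_eq_zero.2 hy1
    have hP : Ssum (cv (fun _ => 1) (cf χ)) s y = 0 := by
      unfold Ssum
      rw [h0]
      simp
    have hyc : ‖(y : ℂ) ^ (1 - s)‖ = y ^ (1 - s.re) := by
      have h5 := Complex.norm_cpow_eq_rpow_re_of_pos hy (1 - s)
      rw [Complex.sub_re, Complex.one_re] at h5
      exact h5
    have hy2 : y ^ (1 - s.re) ≤ 1 := Real.rpow_le_one hy.le hy1.le (by linarith)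
    have hy3 : 1 ≤ y ^ (-(1 / 4 : ℝ)) :=
      Real.one_le_rpow_of_pos_of_le_one_of_nonpos hy hy1.le (by norm_num)
    have hL : ‖χ.LFunction 1‖ ≤ 9 * q := by
      have h3 := h1 q χ hχ 1 (by norm_num) 1 le_rfl
      have h4 : ‖Ssum (cf χ) 1 1‖ ≤ 1 := by
        unfold Ssum
        simp only [Nat.floor_one, Icc_self, sum_singleton, Nat.cast_one, Complex.one_cpow, mul_one]
        exact χ.norm_le_one _
      have h5 : ‖χ.LFunction 1‖ ≤ ‖Ssum (cf χ) 1 1‖ + ‖Ssum (cf χ) 1 1 - χ.LFunction 1‖ := by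
        have h6 : χ.LFunction 1 = Ssum (cf χ) 1 1 - (Ssum (cf χ) 1 1 - χ.LFunction 1) := by ring
        conv_lhs => rw [h6]
        exact norm_sub_le _ _
      have h7 : ‖Ssum (cf χ) 1 1 - χ.LFunction 1‖ ≤ 8 * q := by
        refine h3.trans (le_of_eq ?_)
        simp
        ring
      linarith
    rw [hP, zero_sub, norm_neg, norm_mul, norm_div, hyc]
    have hI' : y ^ (1 - s.re) / ‖1 - s‖ ≤ 1 / ‖1 - s‖ := div_le_div_of_nonneg_right hy2 hn.le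
    have step1 : ‖χ.LFunction 1‖ * (y ^ (1 - s.re) / ‖1 - s‖) ≤ 9 * q * (1 / ‖1 - s‖) :=
      mul_le_mul hL hI' (by positivity) (by positivity)
    refine step1.trans ?_
    have hS : (q : ℝ) ≤ (q : ℝ) ^ 2 * (1 + ‖s‖) ^ 2 := by
      have h8 : (1 : ℝ) ≤ (1 + ‖s‖) ^ 2 := by nlinarith
      have h9 : (q : ℝ) ≤ (q : ℝ) ^ 2 := by nlinarith
      nlinarith
    have step2 : 9 * (q : ℝ) * (1 / ‖1 - s‖) ≤
        (16 + 5 * C₁) * (q : ℝ) ^ 2 * (1 + ‖s‖) ^ 2 * (1 + 1 / ‖1 - s‖) := by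
      have t1 : (q : ℝ) * (1 / ‖1 - s‖) ≤ (q : ℝ) ^ 2 * (1 + ‖s‖) ^ 2 * (1 / ‖1 - s‖) :=
        mul_le_mul_of_nonneg_right hS hI
      have t2 : 0 ≤ (q : ℝ) ^ 2 * (1 + ‖s‖) ^ 2 := by positivity
      have t3 : 0 ≤ (q : ℝ) ^ 2 * (1 + ‖s‖) ^ 2 * (1 / ‖1 - s‖) := mul_nonneg t2 hI
      have t4 : 0 ≤ C₁ * ((q : ℝ) ^ 2 * (1 + ‖s‖) ^ 2) := mul_nonneg hC₁.le t2
      have t5 : 0 ≤ C₁ * ((q : ℝ) ^ 2 * (1 + ‖s‖) ^ 2 * (1 / ‖1 - s‖)) := mul_nonneg hC₁.le t3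
      nlinarith
    refine step2.trans ?_
    exact le_mul_of_one_le_right (by positivity) hy3

end Pool.Agent.MVX
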