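import Pool.Agent.MVX.StA

set_option autoImplicit false

/-!
# Project MVX, module L0: primitive characters which are not different are equal (helper75)
-/

namespace Pool.Agent.MVX

theorem thm_L0 : St_L0 := by
  intro q q' _ _ χ ψ hχ hψ h
  have h0 : MT.prodChar χ ψ⁻¹ = 1 := not_not.1 h
  have e1 : χ.changeLevel (q.dvd_mul_right q') = ψ.changeLevel (q'.dvd_mul_left q) := by
    unfold MT.prodChar at h0
    rw [map_inv] at h0
    exact mul_inv_eq_one.1 h0
  have e2 : q = q' := Nat.dvd_antisymm (MT.level_dvd_gcd χ ψ hχ e1)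
    (MT.level_dvd_gcd ψ χ hψ (MT.changeLevel_eq_symm χ ψ e1))
  subst e2
  have e3 : χ = ψ := DirichletCharacter.changeLevel_injective (q.dvd_mul_right q) e1
  rw [e3]

end Pool.Agent.MVX
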