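import Pool.Agent.MVX.StA

/-!
# Project MVX, module Lan: the local lemma of Landau
-/

set_option autoImplicit false

namespace Pool.Agent.MVX

open Finset Filter Topology Metric

/-- the absolute values of `1 - conj(a) w` and `w - a` agree on the unit circle -/
theorem lan_refl {w a : ℂ} (hw : ‖w‖ = 1) :
    ‖1 - (starRingEnd ℂ) a * w‖ = ‖w - a‖ := by
  have h1 : w * (starRingEnd ℂ) w = 1 := by
    rw [Complex.mul_conj, Complex.normSq_eq_norm_sq, hw]
    norm_num
  have h2 : 1 - (starRingEnd ℂ) a * w = w * (starRingEnd ℂ) (w - a) := by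
    rw [map_sub, mul_sub, h1]
    ring
  rw [h2, norm_mul, hw, one_mul, RCLike.norm_conj]

/-- maximum principle on a disc -/
theorem lan_max {h : ℂ → ℂ} (hh : Differentiable ℂ h) {c : ℂ} {B : ℝ}
    (hB : ∀ z, ‖z - c‖ = 1 → ‖h z‖ ≤ B) : ∀ z ∈ closedBall c 1, ‖h z‖ ≤ B := by
  intro z hz
  refine Complex.norm_le_of_forall_mem_frontier_norm_le (U := ball c 1) isBounded_ball
    hh.diffContOnCl ?_ ?_
  · intro w hw
    rw [frontier_ball c one_ne_zero, mem_sphere, dist_eq_norm] at hw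
    exact hB w hw
  · rw [closure_ball c one_ne_zero]
    exact hz

/-- the logarithmic derivative of an entire function without small zeros -/
theorem lan_log {g : ℂ → ℂ} (hg : Differentiable ℂ g) {c : ℂ} {B : ℝ} (hB : 0 < B)
    (h0 : ∀ z ∈ ball c (3 / 4), g z ≠ 0)
    (hb : ∀ z ∈ ball c (3 / 4), ‖g z‖ ≤ Real.exp B * ‖g c‖) :
    ∀ s ∈ closedBall c (5 / 8), ‖deriv g s / g s‖ ≤ 400 * B := by
  have hcb : c ∈ ball c (3 / 4 : ℝ) := mem_ball_self (by norm_num)
  have hgc : g c ≠ 0 := h0 c hcb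
  have hq : DifferentiableOn ℂ (fun z => deriv g z / g z) (ball c (3 / 4)) := by
    intro z hz
    have h1 : DifferentiableAt ℂ (deriv g) z := (hg.contDiff.differentiable_deriv_two) z
    exact (h1.div (hg z) (h0 z hz)).differentiableWithinAt
  obtain ⟨l, hl0, hl⟩ := (hq.isExactOn_ball).with_val_at c 0
  have hld : DifferentiableOn ℂ l (ball c (3 / 4)) := fun z hz =>
    (hl z hz).differentiableAt.differentiableWithinAt
  have hexp : ∀ z ∈ ball c (3 / 4 : ℝ), g z = g c * Complex.exp (l z) := by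
    have hd : ∀ z ∈ ball c (3 / 4 : ℝ), HasDerivAt (fun z => g z * Complex.exp (-l z)) 0 z := by
      intro z hz
      have h1 : HasDerivAt (fun z => g z * Complex.exp (-l z)) (deriv g z * Complex.exp (-l z) +
          g z * (Complex.exp (-l z) * -(deriv g z / g z))) z :=
        (hg z).hasDerivAt.mul ((hl z hz).neg.cexp)
      have h2 : deriv g z * Complex.exp (-l z) +
          g z * (Complex.exp (-l z) * -(deriv g z / g z)) = 0 := by
        have := h0 z hz
        field_simp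
        ring
      rw [h2] at h1
      exact h1
    obtain ⟨a, ha⟩ := isOpen_ball.exists_is_const_of_deriv_eq_zero
      (convex_ball c (3 / 4 : ℝ)).isPreconnected
      (fun z hz => (hd z hz).differentiableAt.differentiableWithinAt)
      (fun z hz => (hd z hz).deriv)
    intro z hz
    have h1 := ha z hz
    have h2 := ha c hcb
    simp only [hl0, neg_zero, Complex.exp_zero, mul_one] at h1 h2
    rw [h2, ← h1, mul_assoc, ← Complex.exp_add]
    simp
  have hre : ∀ z ∈ ball c (3 / 4 : ℝ), (l z).re ≤ B := by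
    intro z hz
    have h1 := hb z hz
    rw [hexp z hz, norm_mul, Complex.norm_exp, mul_comm] at h1
    have h2 : 0 < ‖g c‖ := norm_pos_iff.mpr hgc
    have h3 : Real.exp (l z).re ≤ Real.exp B := le_of_mul_le_mul_right h1 h2
    exact Real.exp_le_exp.mp h3
  have hbc : ∀ z ∈ closedBall c (7 / 10 : ℝ), ‖l z‖ ≤ 28 * B := by
    intro z hz
    have hz1 : ‖z - c‖ ≤ 7 / 10 := by
      rw [mem_closedBall, dist_eq_norm] at hz
      exact hz
    have hsh : ∀ w ∈ ball (0 : ℂ) (3 / 4 : ℝ), w + c ∈ ball c (3 / 4 : ℝ) := by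
      intro w hw
      rw [mem_ball, dist_zero_right] at hw
      rw [mem_ball, dist_eq_norm, add_sub_cancel_right]
      exact hw
    have h1 := Complex.borelCaratheodory_zero (f := fun w => l (w + c)) (M := B) (R := 3 / 4)
      (z := z - c) hB ?_ ?_ (by norm_num) ?_ ?_
    · have h2 : 2 * B * ‖z - c‖ / (3 / 4 - ‖z - c‖) ≤ 28 * B := by
        rw [div_le_iff₀ (by linarith)]
        nlinarith [norm_nonneg (z - c)]
      simp only [sub_add_cancel] at h1
      exact h1.trans h2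
    · intro w hw
      have h3 : DifferentiableAt ℂ l (w + c) := (hl _ (hsh w hw)).differentiableAt
      exact (h3.comp w (by fun_prop : DifferentiableAt ℂ (fun w => w + c) w)).differentiableWithinAt
    · intro w hw
      exact hre _ (hsh w hw)
    · rw [mem_ball, dist_zero_right]
      linarith
    · simp [hl0]
  intro s hs
  have hs1 : ‖s - c‖ ≤ 5 / 8 := by
    rw [mem_closedBall, dist_eq_norm] at hs
    exact hs
  have hsub : closedBall s (7 / 100 : ℝ) ⊆ closedBall c (7 / 10 : ℝ) := by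
    intro z hz
    rw [mem_closedBall, dist_eq_norm] at hz ⊢
    calc ‖z - c‖ = ‖(z - s) + (s - c)‖ := by ring_nf
      _ ≤ ‖z - s‖ + ‖s - c‖ := norm_add_le _ _
      _ ≤ 7 / 10 := by linarith
  have hsb : closedBall c (7 / 10 : ℝ) ⊆ ball c (3 / 4 : ℝ) :=
    closedBall_subset_ball (by norm_num)
  have hsB : s ∈ ball c (3 / 4 : ℝ) :=
    hsb (hsub (mem_closedBall_self (by norm_num)))
  have h1 : ‖deriv l s‖ ≤ 28 * B / (7 / 100) := by
    refine Complex.norm_deriv_le_of_forall_mem_sphere_norm_le (by norm_num) ?_ ?_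
    · refine DifferentiableOn.diffContOnCl_ball (U := ball c (3 / 4 : ℝ)) hld ?_
      exact hsub.trans hsb
    · intro z hz
      exact hbc z (hsub (sphere_subset_closedBall hz))
  rw [(hl s hsB).deriv] at h1
  calc ‖deriv g s / g s‖ ≤ 28 * B / (7 / 100) := h1
    _ = 400 * B := by ring

theorem thm_Lan (h : St_Fac) : St_Lan := by
  refine ⟨3600, by norm_num, ?_⟩
  intro f c M Z hf hM hfc hbd hZ
  obtain ⟨g, hgd, hgP, hg0⟩ := h f hf ⟨c, hfc⟩ Z
  set m : ℂ → ℕ := fun ρ => analyticOrderNatAt f ρ with hm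
  set n : ℕ := ∑ ρ ∈ Z, m ρ with hn
  set P : ℂ → ℂ := fun z => ∏ ρ ∈ Z, (z - ρ) ^ m ρ with hP
  set Q : ℂ → ℂ := fun z => ∏ ρ ∈ Z, (1 - (starRingEnd ℂ) (ρ - c) * (z - c)) ^ m ρ with hQ
  have hfP : ∀ z, f z = g z * P z := hgP
  have hQd : Differentiable ℂ Q := by
    rw [hQ]
    fun_prop
  have hPd : Differentiable ℂ P := by
    rw [hP]
    fun_prop
  have hZd : ∀ ρ ∈ Z, ‖ρ - c‖ ≤ 3 / 4 := by
    intro ρ hρ
    have h1 := ((hZ ρ).mp hρ).1
    rw [mem_closedBall, dist_eq_norm] at h1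
    exact h1
  have hE : 0 < Real.exp M := Real.exp_pos M
  have hsph : ∀ z, ‖z - c‖ = 1 → ‖f z‖ ≤ Real.exp M * ‖f c‖ := by
    intro z hz
    apply hbd
    rw [mem_closedBall, dist_eq_norm, hz]
  have hgc : g c ≠ 0 := hg0 c (Or.inr hfc)
  have hgc' : 0 < ‖g c‖ := norm_pos_iff.mpr hgc
  -- the bound at the centre
  have hPc : ‖P c‖ ≤ (3 / 4 : ℝ) ^ n := by
    rw [hP, hn]
    simp only [norm_prod, norm_pow]
    rw [← Finset.prod_pow_eq_pow_sum]
    refine Finset.prod_le_prod (fun _ _ => by positivity) ?_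
    intro ρ hρ
    refine pow_le_pow_left₀ (norm_nonneg _) ?_ _
    rw [norm_sub_rev]
    exact hZd ρ hρ
  have hgQ : ‖g c‖ ≤ Real.exp M * ‖f c‖ := by
    have h1 := lan_max (h := fun z => g z * Q z) (hgd.mul hQd) (c := c)
      (B := Real.exp M * ‖f c‖) ?_ c (mem_closedBall_self zero_le_one)
    · have h2 : Q c = 1 := by
        rw [hQ]
        simp
      rw [h2, mul_one] at h1
      exact h1
    · intro z hz
      have h2 : ‖g z * Q z‖ = ‖f z‖ := by
        rw [hfP z, norm_mul, norm_mul]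
        congr 1
        rw [hQ, hP]
        simp only [norm_prod, norm_pow]
        refine Finset.prod_congr rfl ?_
        intro ρ _
        rw [lan_refl hz]
        congr 2
        ring
      rw [h2]
      exact hsph z hz
  have hfc1 : ‖f c‖ ≤ ‖g c‖ * (3 / 4 : ℝ) ^ n := by
    rw [hfP c, norm_mul]
    exact mul_le_mul_of_nonneg_left hPc (norm_nonneg _)
  have hn4 : (n : ℝ) ≤ 4 * M := by
    have h1 : ‖g c‖ ≤ Real.exp M * (‖g c‖ * (3 / 4 : ℝ) ^ n) :=
      hgQ.trans (mul_le_mul_of_nonneg_left hfc1 hE.le)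
    have h2 : 1 ≤ Real.exp M * (3 / 4 : ℝ) ^ n := by
      have h3 : 1 * ‖g c‖ ≤ (Real.exp M * (3 / 4 : ℝ) ^ n) * ‖g c‖ := by
        calc 1 * ‖g c‖ = ‖g c‖ := one_mul _
          _ ≤ Real.exp M * (‖g c‖ * (3 / 4 : ℝ) ^ n) := h1
          _ = _ := by ring
      exact le_of_mul_le_mul_right h3 hgc'
    have h4 : (0 : ℝ) ≤ M + n * Real.log (3 / 4) := by
      have h5 := Real.log_le_log one_pos h2
      rw [Real.log_one, Real.log_mul hE.ne' (by positivity), Real.log_exp, Real.log_pow] at h5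
      exact h5
    have h6 : Real.log (3 / 4) ≤ -(1 / 4) := by
      have h7 := Real.log_le_sub_one_of_pos (show (0 : ℝ) < 3 / 4 by norm_num)
      linarith
    have h8 : (n : ℝ) * Real.log (3 / 4) ≤ n * (-(1 / 4)) :=
      mul_le_mul_of_nonneg_left h6 (Nat.cast_nonneg n)
    linarith
  have hsum : ∑ ρ ∈ Z, (analyticOrderNatAt f ρ : ℝ) = n := by
    rw [hn]
    push_cast
    rfl
  refine ⟨?_, ?_⟩
  · rw [hsum]
    linarith
  -- the bound for `g` on the circle
  have hgs : ∀ z, ‖z - c‖ = 1 → ‖g z‖ ≤ Real.exp (9 * M) * ‖g c‖ := by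
    intro z hz
    have hPz : (1 / 4 : ℝ) ^ n ≤ ‖P z‖ := by
      rw [hP, hn]
      simp only [norm_prod, norm_pow]
      rw [← Finset.prod_pow_eq_pow_sum]
      refine Finset.prod_le_prod (fun _ _ => by positivity) ?_
      intro ρ hρ
      refine pow_le_pow_left₀ (by norm_num) ?_ _
      have h1 : ‖z - c‖ ≤ ‖z - ρ‖ + ‖ρ - c‖ := by
        calc ‖z - c‖ = ‖(z - ρ) + (ρ - c)‖ := by ring_nf
          _ ≤ _ := norm_add_le _ _
      have h2 := hZd ρ hρ
      linarith
    have h1 : ‖g z‖ * (1 / 4 : ℝ) ^ n ≤ Real.exp M * (‖g c‖ * (3 / 4 : ℝ) ^ n) := by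
      calc ‖g z‖ * (1 / 4 : ℝ) ^ n ≤ ‖g z‖ * ‖P z‖ :=
            mul_le_mul_of_nonneg_left hPz (norm_nonneg _)
        _ = ‖f z‖ := by rw [hfP z, norm_mul]
        _ ≤ Real.exp M * ‖f c‖ := hsph z hz
        _ ≤ _ := mul_le_mul_of_nonneg_left hfc1 hE.le
    have h2 : (3 / 4 : ℝ) ^ n = (1 / 4 : ℝ) ^ n * 3 ^ n := by
      rw [← mul_pow]
      norm_num
    have h3 : ‖g z‖ ≤ Real.exp M * (3 ^ n * ‖g c‖) := by
      have h4 : (0 : ℝ) < (1 / 4 : ℝ) ^ n := by positivity
      refine le_of_mul_le_mul_right ?_ h4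
      calc ‖g z‖ * (1 / 4 : ℝ) ^ n ≤ Real.exp M * (‖g c‖ * (3 / 4 : ℝ) ^ n) := h1
        _ = _ := by rw [h2]; ring
    have h5 : (3 : ℝ) ^ n ≤ Real.exp (8 * M) := by
      have h6 : (3 : ℝ) ≤ Real.exp 2 := by
        have := Real.add_one_le_exp (2 : ℝ)
        linarith
      calc (3 : ℝ) ^ n ≤ Real.exp 2 ^ n := pow_le_pow_left₀ (by norm_num) h6 n
        _ = Real.exp (n * 2) := by rw [← Real.exp_nat_mul]
        _ ≤ Real.exp (8 * M) := Real.exp_le_exp.mpr (by linarith)
    calc ‖g z‖ ≤ Real.exp M * (3 ^ n * ‖g c‖) := h3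
      _ ≤ Real.exp M * (Real.exp (8 * M) * ‖g c‖) := by
          refine mul_le_mul_of_nonneg_left ?_ hE.le
          exact mul_le_mul_of_nonneg_right h5 (norm_nonneg _)
      _ = Real.exp (9 * M) * ‖g c‖ := by
          rw [← mul_assoc, ← Real.exp_add]
          ring_nf
  have hgb := lan_max hgd hgs
  have hL := lan_log hgd (c := c) (B := 9 * M) (by linarith)
    (fun z hz => by
      apply hg0
      by_cases hfz : f z = 0
      · exact Or.inl ((hZ z).mpr ⟨ball_subset_closedBall hz, hfz⟩)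
      · exact Or.inr hfz)
    (fun z hz => hgb z (ball_subset_closedBall (ball_subset_ball (by norm_num) hz)))
  intro s hs hfs
  have hsP : P s ≠ 0 := by
    intro h1
    apply hfs
    rw [hfP s, h1, mul_zero]
  have hgs0 : g s ≠ 0 := by
    intro h1
    apply hfs
    rw [hfP s, h1, zero_mul]
  have hne : ∀ ρ ∈ Z, s - ρ ≠ 0 := by
    intro ρ hρ h1
    apply hfs
    rw [sub_eq_zero.mp h1]
    exact ((hZ ρ).mp hρ).2
  have hlog : deriv f s / f s = deriv g s / g s + ∑ ρ ∈ Z, (m ρ : ℂ) / (s - ρ) := by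
    have h1 : f = fun z => g z * P z := funext hfP
    have h2 : logDeriv f s = logDeriv g s + logDeriv P s := by
      rw [h1]
      exact logDeriv_mul s hgs0 hsP (hgd s) (hPd s)
    have h3 : logDeriv P s = ∑ ρ ∈ Z, (m ρ : ℂ) / (s - ρ) := by
      have h5 : logDeriv P s = ∑ ρ ∈ Z, logDeriv (fun z : ℂ => (z - ρ) ^ m ρ) s :=
        logDeriv_prod (s := Z) (f := fun ρ z => (z - ρ) ^ m ρ) (x := s)
          (fun ρ hρ => pow_ne_zero _ (hne ρ hρ)) (fun ρ _ => by fun_prop)
      rw [h5]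
      refine Finset.sum_congr rfl ?_
      intro ρ _
      rw [logDeriv_fun_pow (by fun_prop)]
      have h4 : logDeriv (fun z : ℂ => z - ρ) s = 1 / (s - ρ) := by
        rw [logDeriv_apply]
        simp
      rw [h4]
      ring
    rw [← logDeriv_apply, h2, h3, logDeriv_apply]
  have hfin : deriv f s / f s - ∑ ρ ∈ Z, (analyticOrderNatAt f ρ : ℂ) / (s - ρ) =
      deriv g s / g s := by
    rw [hlog, hm]
    ring
  rw [hfin]
  calc ‖deriv g s / g s‖ ≤ 400 * (9 * M) := hL s hs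
    _ = 3600 * M := by ring

end Pool.Agent.MVX
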