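import Pool.Agent.MVX.StA

/-!
# Project MVX, module Loc: the lemma of Landau for Dirichlet L-functions
-/

set_option autoImplicit false

namespace Pool.Agent.MVX

open Finset Filter Topology Metric

/-- the centre of `disc` -/
theorem loc_center (t : ℝ) : (((3 / 2 : ℝ) : ℂ) + t * Complex.I) = 3 / 2 + t * Complex.I := by
  push_cast
  ring

theorem thm_Loc (h1 : St_Lan) (h2 : St_A2) : St_Loc := by
  obtain ⟨C₁, hC₁, hL⟩ := h1
  obtain ⟨C₂, hC₂, hA⟩ := h2
  set A : ℝ := Real.log (36 * C₂ ^ 2) with hAdef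
  have hsq : (1 : ℝ) ≤ C₂ ^ 2 := one_le_pow₀ hC₂
  have hA0 : 0 ≤ A := Real.log_nonneg (by linarith)
  have hAe : Real.exp A = 36 * C₂ ^ 2 := Real.exp_log (by linarith)
  refine ⟨C₁ * (4 + 2 * A), by positivity, ?_⟩
  intro T hT q _ χ hq t ht
  have hlog : 1 / 2 ≤ Real.log T := by
    have h3 : Real.log 2 ≤ Real.log T := Real.log_le_log (by norm_num) hT
    have h4 := Real.log_two_gt_d9
    linarith
  have hT0 : 0 < T := by linarith
  obtain ⟨hup, hlow, -⟩ := hA q χ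
  have hlow' := hlow t
  have hc0 : Lf χ (3 / 2 + t * Complex.I) ≠ 0 := by
    apply Lf_ne_zero
    simp
    norm_num
  have hM1 : 1 ≤ (4 + 2 * A) * Real.log T := by nlinarith
  have key : Real.exp ((4 + 2 * A) * Real.log T) ≥ 36 * C₂ ^ 2 * T ^ 4 := by
    have h3 : Real.exp (4 * Real.log T) = T ^ 4 := by
      have h4 : (4 : ℝ) * Real.log T = ((4 : ℕ) : ℝ) * Real.log T := by norm_num
      rw [h4, Real.exp_nat_mul, Real.exp_log hT0]
    have h5 : Real.exp A ≤ Real.exp (2 * A * Real.log T) := by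
      apply Real.exp_le_exp.mpr
      nlinarith
    have h6 : (4 + 2 * A) * Real.log T = 2 * A * Real.log T + 4 * Real.log T := by ring
    rw [h6, Real.exp_add, h3, ← hAe]
    exact mul_le_mul_of_nonneg_right h5 (by positivity)
  have hbd : ∀ z ∈ closedBall (((3 / 2 : ℝ) : ℂ) + t * Complex.I) 1, ‖Lf χ z‖ ≤
      Real.exp ((4 + 2 * A) * Real.log T) * ‖Lf χ (((3 / 2 : ℝ) : ℂ) + t * Complex.I)‖ := by
    intro z hz
    rw [loc_center] at hz ⊢
    rw [mem_closedBall, dist_eq_norm] at hz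
    have hre : 1 / 2 ≤ z.re := by
      have h3 := (Complex.abs_re_le_norm (z - (3 / 2 + t * Complex.I))).trans hz
      have h4 := (abs_le.mp h3).1
      simp at h4
      norm_num at h4
      linarith
    have hn : ‖z‖ ≤ 5 / 2 + 4 * T := by
      have h3 : ‖z‖ ≤ ‖z - (3 / 2 + t * Complex.I)‖ + ‖(3 / 2 : ℂ) + t * Complex.I‖ := by
        calc ‖z‖ = ‖(z - (3 / 2 + t * Complex.I)) + (3 / 2 + t * Complex.I)‖ := by
              rw [sub_add_cancel]
          _ ≤ _ := norm_add_le _ _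
      have h4 : ‖(3 / 2 : ℂ) + t * Complex.I‖ ≤ 3 / 2 + |t| := by
        refine (norm_add_le _ _).trans ?_
        rw [norm_mul, Complex.norm_I, mul_one, Complex.norm_real, Real.norm_eq_abs]
        norm_num
      linarith
    have hn2 : (1 + ‖z‖) ^ 2 ≤ 36 * T ^ 2 := by
      have h3 : 1 + ‖z‖ ≤ 6 * T := by linarith
      calc (1 + ‖z‖) ^ 2 ≤ (6 * T) ^ 2 := pow_le_pow_left₀ (by positivity) h3 2
        _ = 36 * T ^ 2 := by ring
    have hq0 : (0 : ℝ) ≤ q := Nat.cast_nonneg q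
    calc ‖Lf χ z‖ ≤ C₂ * q * (1 + ‖z‖) ^ 2 := hup z hre
      _ ≤ C₂ * T ^ 2 * (36 * T ^ 2) := by
          refine mul_le_mul (mul_le_mul_of_nonneg_left hq (by linarith)) hn2 (by positivity)
            (by positivity)
      _ = (36 * C₂ * T ^ 4) * 1 := by ring
      _ ≤ (36 * C₂ * T ^ 4) * (C₂ * ‖Lf χ (3 / 2 + t * Complex.I)‖) :=
          mul_le_mul_of_nonneg_left hlow' (by positivity)
      _ = (36 * C₂ ^ 2 * T ^ 4) * ‖Lf χ (3 / 2 + t * Complex.I)‖ := by ring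
      _ ≤ _ := mul_le_mul_of_nonneg_right key (norm_nonneg _)
  obtain ⟨r1, r2⟩ := hL (Lf χ) (((3 / 2 : ℝ) : ℂ) + t * Complex.I) ((4 + 2 * A) * Real.log T)
    (zs χ (disc (3 / 2) t (3 / 4))) (Lf_differentiable χ) hM1 (by rw [loc_center]; exact hc0) hbd
    (fun ρ => mem_zs χ (disc_bounded _ _ _) ρ)
  refine ⟨?_, ?_⟩
  · calc ∑ ρ ∈ zs χ (disc (3 / 2) t (3 / 4)), (zm χ ρ : ℝ) ≤
        C₁ * ((4 + 2 * A) * Real.log T) := r1
      _ = _ := by ring
  · intro s hs h0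
    calc ‖deriv (Lf χ) s / Lf χ s -
        ∑ ρ ∈ zs χ (disc (3 / 2) t (3 / 4)), (zm χ ρ : ℂ) / (s - ρ)‖ ≤
        C₁ * ((4 + 2 * A) * Real.log T) := r2 s hs h0
      _ = _ := by ring

end Pool.Agent.MVX
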