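import Pool.Agent.MVX.StE

/-!
# Project MVX, module Mass: total mass of the sifted `1 * χ` at the exceptional zero
-/

set_option autoImplicit false

namespace Pool.Agent.MVX

open Finset

/-- a quadratic character has real values -/
theorem mass_real {q : ℕ} {χ : DirichletCharacter ℂ q} (h : χ ^ 2 = 1) (a : ZMod q) :
    χ a = (((χ a).re : ℝ) : ℂ) := by
  by_cases ha : IsUnit a
  · have h1 : (χ ^ 2) a = χ a ^ 2 := MulChar.pow_apply' χ two_ne_zero a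
    rw [h, MulChar.one_apply ha] at h1
    have h2 : (χ a - 1) * (χ a + 1) = 0 := by linear_combination -h1
    rcases mul_eq_zero.mp h2 with h3 | h3
    · rw [sub_eq_zero.mp h3]
      simp
    · rw [eq_neg_of_add_eq_zero_left h3]
      simp
  · rw [MulChar.map_nonunit χ ha]
    simp

/-- `1 * χ` is `ax χ` -/
theorem mass_cv {q : ℕ} {χ : DirichletCharacter ℂ q} (h : χ ^ 2 = 1) (n : ℕ) :
    cv (fun _ => 1) (cf χ) n = ((ax χ n : ℝ) : ℂ) := by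
  unfold cv ax cf
  rw [Complex.ofReal_sum]
  simp only [one_mul]
  rw [Nat.sum_div_divisors n (fun d => χ ((d : ℕ) : ZMod q))]
  exact Finset.sum_congr rfl (fun d _ => mass_real h _)

theorem mass_SsumD {q : ℕ} {χ : DirichletCharacter ℂ q} (h : χ ^ 2 = 1) (D : ℕ) (β x : ℝ) :
    SsumD D (cv (fun _ => 1) (cf χ)) (β : ℂ) x =
      ((∑ n ∈ (Icc 1 ⌊x⌋₊).filter (fun n => D ∣ n), ax χ n * (n : ℝ) ^ (-β) : ℝ) : ℂ) := by
  unfold SsumD
  rw [Complex.ofReal_sum]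
  refine Finset.sum_congr rfl ?_
  intro n _
  rw [mass_cv h, Complex.ofReal_mul, Complex.ofReal_cpow (Nat.cast_nonneg n)]
  simp

theorem mass_sqf {d e : ℕ} (hd : Squarefree d) (he : Squarefree e) : Squarefree (d.lcm e) := by
  have hd0 : d ≠ 0 := hd.ne_zero
  have he0 : e ≠ 0 := he.ne_zero
  rw [Nat.squarefree_iff_factorization_le_one (Nat.lcm_ne_zero hd0 he0)]
  intro p
  rw [Nat.factorization_lcm hd0 he0]
  exact sup_le ((Nat.squarefree_iff_factorization_le_one hd0).mp hd p)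
    ((Nat.squarefree_iff_factorization_le_one he0).mp he p)

theorem mass_expand {θ : ℕ → ℝ} {Y : ℕ} (hθ : ∀ d, θ d ≠ 0 → 1 ≤ d ∧ d ≤ Y) {n : ℕ}
    (hn : n ≠ 0) : sq θ n = ∑ d ∈ Icc 1 Y, ∑ e ∈ Icc 1 Y,
      if d.lcm e ∣ n then θ d * θ e else 0 := by
  have h1 : ∑ d ∈ n.divisors, θ d = ∑ d ∈ Icc 1 Y, if d ∣ n then θ d else 0 := by
    rw [← Finset.sum_filter]
    refine Finset.sum_subset_zero_on_sdiff ?_ ?_ (fun _ _ => rfl) |>.symm
    · intro d hd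
      rw [Finset.mem_filter] at hd
      exact Nat.mem_divisors.mpr ⟨hd.2, hn⟩
    · intro d hd
      rw [Finset.mem_sdiff, Finset.mem_filter, Finset.mem_Icc] at hd
      by_contra h0
      exact hd.2 ⟨hθ d h0, (Nat.mem_divisors.mp hd.1).1⟩
  unfold sq
  rw [h1, pow_two, Finset.sum_mul_sum]
  refine Finset.sum_congr rfl fun d _ => Finset.sum_congr rfl fun e _ => ?_
  by_cases hd : d ∣ n
  · by_cases he : e ∣ n
    · rw [if_pos hd, if_pos he, if_pos (Nat.lcm_dvd hd he)]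
    · have h2 : ¬ d.lcm e ∣ n := fun h => he ((Nat.dvd_lcm_right d e).trans h)
      rw [if_neg he, if_neg h2, mul_zero]
  · have h2 : ¬ d.lcm e ∣ n := fun h => hd ((Nat.dvd_lcm_left d e).trans h)
    rw [if_neg hd, if_neg h2, zero_mul]

theorem mass_sum {θ : ℕ → ℝ} {Y : ℕ} (hθ : ∀ d, θ d ≠ 0 → 1 ≤ d ∧ d ≤ Y) (F : ℕ → ℝ) (X : ℕ) :
    ∑ n ∈ Icc 1 X, F n * sq θ n = ∑ d ∈ Icc 1 Y, ∑ e ∈ Icc 1 Y, θ d * θ e *
      ∑ n ∈ (Icc 1 X).filter (fun n => d.lcm e ∣ n), F n := by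
  have h1 : ∀ n ∈ Icc 1 X, F n * sq θ n = ∑ d ∈ Icc 1 Y, ∑ e ∈ Icc 1 Y,
      if d.lcm e ∣ n then θ d * θ e * F n else 0 := by
    intro n hn
    have hn0 : n ≠ 0 := by
      have := (Finset.mem_Icc.mp hn).1
      omega
    rw [mass_expand hθ hn0, Finset.mul_sum]
    refine Finset.sum_congr rfl fun d _ => ?_
    rw [Finset.mul_sum]
    refine Finset.sum_congr rfl fun e _ => ?_
    split_ifs
    · ring
    · ring
  rw [Finset.sum_congr rfl h1, Finset.sum_comm]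
  refine Finset.sum_congr rfl fun d _ => ?_
  rw [Finset.sum_comm]
  refine Finset.sum_congr rfl fun e _ => ?_
  rw [Finset.mul_sum, Finset.sum_filter]

/-- the main estimate, abstract form -/
theorem mass_quad {θ : ℕ → ℝ} {Y : ℕ} {R : ℕ → ℝ} {L : ℂ} {g : ℕ → ℝ} {E : ℝ}
    (hE : 0 ≤ E) (hθ1 : ∀ d, |θ d| ≤ 1)
    (h : ∀ d ∈ Icc 1 Y, ∀ e ∈ Icc 1 Y, θ d * θ e ≠ 0 →
      ‖((R (d.lcm e) : ℝ) : ℂ) - L * ((g (d.lcm e) : ℝ) : ℂ)‖ ≤ E) :
    ‖((∑ d ∈ Icc 1 Y, ∑ e ∈ Icc 1 Y, θ d * θ e * R (d.lcm e) : ℝ) : ℂ) -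
      L * ((∑ d ∈ Icc 1 Y, ∑ e ∈ Icc 1 Y, θ d * θ e * g (d.lcm e) : ℝ) : ℂ)‖ ≤
        (Y : ℝ) * Y * E := by
  have h1 : ((∑ d ∈ Icc 1 Y, ∑ e ∈ Icc 1 Y, θ d * θ e * R (d.lcm e) : ℝ) : ℂ) -
      L * ((∑ d ∈ Icc 1 Y, ∑ e ∈ Icc 1 Y, θ d * θ e * g (d.lcm e) : ℝ) : ℂ) =
      ∑ d ∈ Icc 1 Y, ∑ e ∈ Icc 1 Y, ((θ d * θ e : ℝ) : ℂ) *
        (((R (d.lcm e) : ℝ) : ℂ) - L * ((g (d.lcm e) : ℝ) : ℂ)) := by
    push_cast
    rw [Finset.mul_sum, ← Finset.sum_sub_distrib]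
    refine Finset.sum_congr rfl fun d _ => ?_
    rw [Finset.mul_sum, ← Finset.sum_sub_distrib]
    refine Finset.sum_congr rfl fun e _ => ?_
    ring
  rw [h1]
  have h2 : ∀ d ∈ Icc 1 Y, ‖∑ e ∈ Icc 1 Y, ((θ d * θ e : ℝ) : ℂ) *
        (((R (d.lcm e) : ℝ) : ℂ) - L * ((g (d.lcm e) : ℝ) : ℂ))‖ ≤ Y * E := by
    intro d hd
    refine (norm_sum_le _ _).trans ?_
    have h3 : ∀ e ∈ Icc 1 Y, ‖((θ d * θ e : ℝ) : ℂ) *
        (((R (d.lcm e) : ℝ) : ℂ) - L * ((g (d.lcm e) : ℝ) : ℂ))‖ ≤ E := by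
      intro e he
      by_cases h0 : θ d * θ e = 0
      · rw [h0]
        simpa using hE
      · rw [norm_mul, Complex.norm_real, Real.norm_eq_abs, abs_mul]
        have h4 := h d hd e he h0
        have h5 : |θ d| * |θ e| ≤ 1 := mul_le_one₀ (hθ1 d) (abs_nonneg _) (hθ1 e)
        calc |θ d| * |θ e| * ‖((R (d.lcm e) : ℝ) : ℂ) - L * ((g (d.lcm e) : ℝ) : ℂ)‖ ≤
            1 * E := mul_le_mul h5 h4 (norm_nonneg _) zero_le_one
          _ = E := one_mul E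
    refine (Finset.sum_le_card_nsmul _ _ _ h3).trans ?_
    rw [Nat.card_Icc, add_tsub_cancel_right, nsmul_eq_mul]
  refine (norm_sum_le _ _).trans ?_
  refine (Finset.sum_le_card_nsmul _ _ _ h2).trans ?_
  rw [Nat.card_Icc, add_tsub_cancel_right, nsmul_eq_mul, mul_assoc]

/-- the error term of DD2 at a real point -/
theorem mass_err {C c T δ q D x s4 : ℝ} (hC : 0 < C) (hc : 0 < c) (hT : 1 ≤ T) (hδ0 : 0 < δ)
    (hδ : c / T ≤ δ) (hδ1 : δ ≤ 1) (hq0 : 0 ≤ q) (hq : q ≤ T) (hx : 0 ≤ x)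
    (hs4 : s4 = ‖((1 - δ : ℝ) : ℂ)‖) :
    C * q ^ 2 * (1 + s4) ^ 2 * (1 + 1 / δ) * D ^ 2 * x ≤
      (4 * C * (1 + 1 / c)) * T ^ 3 * D ^ 2 * x := by
  have h1 : s4 ≤ 1 := by
    rw [hs4, Complex.norm_real, Real.norm_eq_abs, abs_of_nonneg (by linarith)]
    linarith
  have h1' : 0 ≤ s4 := by
    rw [hs4]
    exact norm_nonneg _
  have h2 : 1 / δ ≤ T / c := by
    rw [div_le_div_iff₀ hδ0 hc]
    rw [div_le_iff₀ (by linarith)] at hδ
    linarith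
  have h3 : 1 + 1 / δ ≤ (1 + 1 / c) * T := by
    have : (1 + 1 / c) * T = T + T / c := by ring
    rw [this]
    linarith
  have h4 : q ^ 2 ≤ T ^ 2 := pow_le_pow_left₀ hq0 hq 2
  have h5 : (1 + s4) ^ 2 ≤ 4 := by nlinarith
  have h6 : C * q ^ 2 * (1 + s4) ^ 2 * (1 + 1 / δ) ≤ (4 * C * (1 + 1 / c)) * T ^ 3 := by
    calc C * q ^ 2 * (1 + s4) ^ 2 * (1 + 1 / δ) ≤ C * T ^ 2 * 4 * ((1 + 1 / c) * T) := by
          gcongr
      _ = _ := by ring
  have h7 : 0 ≤ D ^ 2 * x := by positivity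
  calc C * q ^ 2 * (1 + s4) ^ 2 * (1 + 1 / δ) * D ^ 2 * x =
        (C * q ^ 2 * (1 + s4) ^ 2 * (1 + 1 / δ)) * (D ^ 2 * x) := by ring
    _ ≤ ((4 * C * (1 + 1 / c)) * T ^ 3) * (D ^ 2 * x) := mul_le_mul_of_nonneg_right h6 h7
    _ = _ := by ring

theorem mass_rpow {T : ℝ} (hT : 0 < T) (k m : ℕ) (h : k = 4 * m) :
    (T ^ k) ^ (-(1 / 4 : ℝ)) = (T ^ m)⁻¹ := by
  subst h
  rw [← Real.rpow_natCast T (4 * m), ← Real.rpow_mul hT.le, ← Real.rpow_natCast T m,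
    ← Real.rpow_neg hT.le]
  congr 1
  push_cast
  ring

theorem mass_exp {T δ : ℝ} (hT : 0 < T) (h0 : 0 ≤ δ * Real.log T) (h1 : δ * Real.log T ≤ 1) :
    (T ^ 1000) ^ δ ≤ 1 + 1000 * Real.exp 1000 * (δ * Real.log T) := by
  have h2 : (T ^ 1000) ^ δ = Real.exp (1000 * (δ * Real.log T)) := by
    rw [Real.rpow_def_of_pos (by positivity), Real.log_pow]
    congr 1
    push_cast
    ring
  rw [h2]
  set u := δ * Real.log T with hu
  have h3 : 1 - 1000 * u ≤ Real.exp (-(1000 * u)) := by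
    have := Real.add_one_le_exp (-(1000 * u))
    linarith
  have h4 : Real.exp (1000 * u) * (1 - 1000 * u) ≤ 1 := by
    calc Real.exp (1000 * u) * (1 - 1000 * u) ≤ Real.exp (1000 * u) * Real.exp (-(1000 * u)) :=
          mul_le_mul_of_nonneg_left h3 (Real.exp_pos _).le
      _ = 1 := by rw [← Real.exp_add]; simp
  have h5 : Real.exp (1000 * u) ≤ Real.exp 1000 := Real.exp_le_exp.mpr (by linarith)
  have h6 : Real.exp (1000 * u) * (1000 * u) ≤ Real.exp 1000 * (1000 * u) :=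
    mul_le_mul_of_nonneg_right h5 (by linarith)
  nlinarith

theorem mass_main {x β : ℝ} (hx : 0 < x) :
    ((x : ℝ) : ℂ) ^ (1 - (β : ℂ)) / (1 - (β : ℂ)) = ((x ^ (1 - β) / (1 - β) : ℝ) : ℂ) := by
  rw [Complex.ofReal_div, Complex.ofReal_cpow hx.le]
  push_cast
  rfl

theorem thm_Mass (h1 : St_Zlow) (h2 : St_DD2) (h3 : St_Sel) (h4 : St_GS) : St_Mass := by
  obtain ⟨c, hc, hZ⟩ := h1 1 one_pos
  obtain ⟨C, hC, hD⟩ := h2
  set K : ℝ := 4 * C * (1 + 1 / c) with hK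
  have hK0 : 0 < K := by positivity
  set B : ℝ := 1000 * Real.exp 1000 with hB
  have hB0 : 0 < B := by positivity
  refine ⟨B + K / c * (2 + B) + 1 + K, Real.exp 8, by positivity, ?_, ?_⟩
  · have := Real.add_one_le_exp (8 : ℝ)
    linarith
  intro T hT q _ χ hχ2 hχ1 hq β hβ hβ1 hL
  have hlog : 8 ≤ Real.log T := by
    rw [← Real.log_exp 8]
    exact Real.log_le_log (Real.exp_pos 8) hT
  have hT1 : 1 ≤ T := by
    have := Real.add_one_le_exp (8 : ℝ)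
    linarith
  have hT0 : 0 < T := by linarith
  set δ : ℝ := 1 - β with hδ
  have hδ0 : 0 < δ := by linarith
  have hu1 : δ * Real.log T ≤ 1 := by
    have h5 : δ ≤ 1 / Real.log T := by linarith
    rw [le_div_iff₀ (by linarith)] at h5
    exact h5
  have hu0 : 0 < δ * Real.log T := by
    have : 0 < Real.log T := by linarith
    positivity
  have hδ8 : δ ≤ 1 / 8 := by
    have h5 := mul_le_mul_of_nonneg_left hlog hδ0.le
    linarith
  have hq1 : (1 : ℝ) ≤ q := by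
    have : 1 ≤ q := Nat.one_le_iff_ne_zero.mpr (NeZero.ne q)
    exact_mod_cast this
  have hcT : c / T ≤ δ := by
    have h5 := hZ q χ hχ2 hχ1 β (by linarith) hβ1 hL
    rw [Real.rpow_neg_one] at h5
    have h6 : c / T ≤ c * (q : ℝ)⁻¹ := by
      rw [div_eq_mul_inv]
      refine mul_le_mul_of_nonneg_left ?_ hc.le
      exact inv_anti₀ (by linarith) hq
    linarith
  have hTu : 1 / T ≤ δ * Real.log T / c := by
    have h5 : 1 / T ≤ δ / c := by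
      rw [le_div_iff₀ hc]
      calc 1 / T * c = c / T := by ring
        _ ≤ δ := hcT
    have h6 : δ / c ≤ δ * Real.log T / c := by
      refine div_le_div_of_nonneg_right ?_ hc.le
      exact le_mul_of_one_le_right hδ0.le (by linarith)
    linarith
  obtain ⟨ha, hg, hG⟩ := h4 q χ hχ2
  obtain ⟨θ, hθ1, hθs, hθb, hSu, hS0⟩ := h3 (ga χ) hg (T ^ 32) (one_le_pow₀ hT1)
  set Y : ℕ := ⌊T ^ 32⌋₊ with hY
  set S : ℝ := ∑ d ∈ Icc 1 Y, ∑ e ∈ Icc 1 Y, θ d * θ e * pr (ga χ) (d.lcm e) with hS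
  set G : ℝ := GG (ga χ) (T ^ 32) with hGdef
  set F : ℕ → ℝ := fun n => ax χ n * (n : ℝ) ^ (-β) with hF
  have hF0 : ∀ n, 0 ≤ F n := fun n => mul_nonneg (ha n) (Real.rpow_nonneg (Nat.cast_nonneg n) _)
  have hax1 : ax χ 1 = 1 := by
    unfold ax
    simp
  have hYT : (Y : ℝ) ≤ T ^ 32 := Nat.floor_le (by positivity)
  have hθY : ∀ d, θ d ≠ 0 → 1 ≤ d ∧ d ≤ Y := fun d hd =>
    ⟨(hθs d hd).1, Nat.le_floor (hθs d hd).2.1⟩
  have hs78 : 7 / 8 ≤ ((β : ℂ)).re := by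
    rw [Complex.ofReal_re]
    linarith
  have hs1 : ((β : ℂ)).re ≤ 1 := by
    rw [Complex.ofReal_re]
    linarith
  have hsne : ((β : ℂ)) ≠ 1 := by
    intro h5
    have h6 : β = 1 := by exact_mod_cast h5
    linarith
  have hzero : riemannZeta (β : ℂ) * χ.LFunction (β : ℂ) = 0 := by rw [hL, mul_zero]
  have hnorm : ‖(β : ℂ)‖ = ‖((1 - δ : ℝ) : ℂ)‖ := by
    rw [hδ]
    simp
  have hnorm2 : ‖(1 : ℂ) - (β : ℂ)‖ = δ := by
    rw [← Complex.ofReal_one, ← Complex.ofReal_sub, Complex.norm_real, Real.norm_eq_abs,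
      abs_of_pos hδ0]
  -- DD2 with the error in convenient form
  have hDD : ∀ D : ℕ, Squarefree D → ∀ x : ℝ, 0 < x →
      ‖((∑ n ∈ (Icc 1 ⌊x⌋₊).filter (fun n => D ∣ n), F n : ℝ) : ℂ) -
        (χ.LFunction 1 * ((x ^ δ / δ : ℝ) : ℂ)) * ((pr (ga χ) D : ℝ) : ℂ)‖ ≤
        K * T ^ 3 * (D : ℝ) ^ 2 * x ^ (-(1 / 4 : ℝ)) := by
    intro D hDs x hx
    have h5 := hD q χ hχ1 hχ2 (β : ℂ) hs78 hs1 hsne hzero D hDs x hx
    rw [mass_SsumD hχ2, mass_main hx, hnorm2] at h5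
    refine h5.trans ?_
    exact mass_err hC hc hT1 hδ0 hcT (by linarith) (by linarith) hq
      (Real.rpow_nonneg hx.le _) hnorm
  -- the case D = 1
  have hy0 : 0 < T ^ 32 := by positivity
  have e1 := hDD 1 squarefree_one (T ^ 32) hy0
  set A : ℝ := ∑ n ∈ (Icc 1 Y).filter (fun n => 1 ∣ n), F n with hA
  have hpr1 : pr (ga χ) 1 = 1 := by
    unfold pr
    simp
  rw [hpr1, mass_rpow hT0 32 8 (by norm_num)] at e1
  have hT8 : K * T ^ 3 * ((1 : ℕ) : ℝ) ^ 2 * (T ^ 8)⁻¹ ≤ K * (1 / T) := by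
    have h5 : T ^ 3 * (T ^ 8)⁻¹ ≤ 1 / T := by
      rw [← div_eq_mul_inv, div_le_div_iff₀ (by positivity) hT0]
      calc T ^ 3 * T = T ^ 4 := by ring
        _ ≤ T ^ 8 := pow_le_pow_right₀ hT1 (by norm_num)
        _ = 1 * T ^ 8 := (one_mul _).symm
    calc K * T ^ 3 * ((1 : ℕ) : ℝ) ^ 2 * (T ^ 8)⁻¹ = K * (T ^ 3 * (T ^ 8)⁻¹) := by
          push_cast
          ring
      _ ≤ K * (1 / T) := mul_le_mul_of_nonneg_left h5 hK0.le
  have hT1' : 1 / T ≤ 1 := by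
    rw [div_le_one hT0]
    exact hT1
  set L1 : ℂ := χ.LFunction 1 with hL1
  have hyδ : 1 ≤ (T ^ 32) ^ δ := Real.one_le_rpow (one_le_pow₀ hT1) hδ0.le
  have e2 : ‖L1‖ * ((T ^ 32) ^ δ / δ) ≤ A + K * (1 / T) := by
    have h5 : ‖L1 * (((T ^ 32) ^ δ / δ : ℝ) : ℂ)‖ = ‖L1‖ * ((T ^ 32) ^ δ / δ) := by
      rw [norm_mul, Complex.norm_real, Real.norm_eq_abs, abs_of_nonneg (by positivity)]
    have h6 : ‖((A : ℝ) : ℂ)‖ = A := by
      rw [Complex.norm_real, Real.norm_eq_abs, abs_of_nonneg]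
      exact Finset.sum_nonneg fun n _ => hF0 n
    rw [← h5]
    have h7 : L1 * (((T ^ 32) ^ δ / δ : ℝ) : ℂ) = ((A : ℝ) : ℂ) -
        (((A : ℝ) : ℂ) - (L1 * (((T ^ 32) ^ δ / δ : ℝ) : ℂ)) * ((1 : ℝ) : ℂ)) := by
      push_cast
      ring
    rw [h7]
    refine (norm_sub_le _ _).trans ?_
    rw [h6]
    linarith [e1.trans hT8]
  have hGA : A ≤ (T ^ 32) ^ δ * G := by
    have h5 := hG (T ^ 32) (one_le_pow₀ hT1)
    have h6 : A ≤ (T ^ 32) ^ δ * ∑ n ∈ Icc 1 Y, ax χ n / n := by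
      rw [hA, Finset.filter_true_of_mem (fun n _ => one_dvd n), Finset.mul_sum]
      refine Finset.sum_le_sum ?_
      intro n hn
      have hn1 : 1 ≤ n := (Finset.mem_Icc.mp hn).1
      have hn0 : (0 : ℝ) < n := by exact_mod_cast hn1
      have hnY : (n : ℝ) ≤ T ^ 32 := by
        have : n ≤ Y := (Finset.mem_Icc.mp hn).2
        exact le_trans (by exact_mod_cast this) hYT
      have h7 : (n : ℝ) ^ (-β) = (n : ℝ) ^ δ / n := by
        rw [hδ, sub_eq_add_neg, Real.rpow_add hn0, Real.rpow_one]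
        field_simp
      have h8 : (n : ℝ) ^ δ ≤ (T ^ 32) ^ δ := Real.rpow_le_rpow hn0.le hnY hδ0.le
      rw [hF]
      simp only []
      rw [h7]
      have h9 : 0 ≤ ax χ n / n := div_nonneg (ha n) hn0.le
      calc ax χ n * ((n : ℝ) ^ δ / n) = (n : ℝ) ^ δ * (ax χ n / n) := by ring
        _ ≤ (T ^ 32) ^ δ * (ax χ n / n) := mul_le_mul_of_nonneg_right h8 h9
    exact h6.trans (mul_le_mul_of_nonneg_left h5 (by linarith))
  have hG1 : 1 ≤ G := by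
    have h5 := hG (T ^ 32) (one_le_pow₀ hT1)
    refine le_trans ?_ h5
    have h6 : (1 : ℕ) ∈ Icc 1 Y := by
      rw [Finset.mem_Icc]
      refine ⟨le_refl _, Nat.le_floor ?_⟩
      rw [Nat.cast_one]
      exact one_le_pow₀ hT1
    have h7 := Finset.single_le_sum (f := fun n : ℕ => ax χ n / (n : ℝ)) (s := Icc 1 Y)
      (fun n _ => div_nonneg (ha n) (Nat.cast_nonneg n)) h6
    simpa [hax1] using h7
  have hKT0 : 0 ≤ K * (1 / T) := by positivity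
  have e3 : ‖L1‖ ≤ δ * G * (1 + K * (1 / T)) := by
    have h5 : ‖L1‖ * ((T ^ 32) ^ δ / δ) ≤ (T ^ 32) ^ δ * G * (1 + K * (1 / T)) := by
      refine e2.trans ?_
      have h6 : K * (1 / T) ≤ (T ^ 32) ^ δ * G * (K * (1 / T)) := by
        have h7 : 1 ≤ (T ^ 32) ^ δ * G := one_le_mul_of_one_le_of_one_le hyδ hG1
        exact le_mul_of_one_le_left hKT0 h7
      linarith
    have h8 : 0 < (T ^ 32) ^ δ := by linarith
    have h9 : ‖L1‖ * ((T ^ 32) ^ δ / δ) = (‖L1‖ / δ) * (T ^ 32) ^ δ := by ring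
    rw [h9] at h5
    have h10 : ‖L1‖ / δ ≤ G * (1 + K * (1 / T)) := by
      refine le_of_mul_le_mul_right ?_ h8
      calc ‖L1‖ / δ * (T ^ 32) ^ δ ≤ (T ^ 32) ^ δ * G * (1 + K * (1 / T)) := h5
        _ = _ := by ring
    rw [div_le_iff₀ hδ0] at h10
    calc ‖L1‖ ≤ G * (1 + K * (1 / T)) * δ := h10
      _ = _ := by ring
  have e4 : ‖L1‖ * S ≤ δ * (1 + K * (1 / T)) := by
    have h5 : G * S ≤ 1 := by
      have h6 : S ≤ 1 / G := hSu
      rw [le_div_iff₀ (by linarith)] at h6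
      linarith
    calc ‖L1‖ * S ≤ (δ * G * (1 + K * (1 / T))) * S := mul_le_mul_of_nonneg_right e3 hS0
      _ = (δ * (1 + K * (1 / T))) * (G * S) := by ring
      _ ≤ (δ * (1 + K * (1 / T))) * 1 := mul_le_mul_of_nonneg_left h5 (by positivity)
      _ = _ := mul_one _
  -- the quadratic form
  set X : ℕ := ⌊T ^ 1000⌋₊ with hX
  set W : ℝ := ∑ n ∈ Icc 1 X, F n * sq θ n with hW
  have hx0 : 0 < T ^ 1000 := by positivity
  have e5 : ‖((W : ℝ) : ℂ) - (L1 * (((T ^ 1000) ^ δ / δ : ℝ) : ℂ)) * ((S : ℝ) : ℂ)‖ ≤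
      (Y : ℝ) * Y * (K * T ^ 3 * (T ^ 64) ^ 2 * (T ^ 250)⁻¹) := by
    have h5 := mass_quad (θ := θ) (Y := Y)
      (R := fun D => ∑ n ∈ (Icc 1 X).filter (fun n => D ∣ n), F n)
      (L := L1 * (((T ^ 1000) ^ δ / δ : ℝ) : ℂ)) (g := pr (ga χ))
      (E := K * T ^ 3 * (T ^ 64) ^ 2 * (T ^ 250)⁻¹) (by positivity) hθb ?_
    · rw [hW, mass_sum hθY F X, hS]
      exact h5
    · intro d _ e _ hde
      have hd := hθs d (left_ne_zero_of_mul hde)
      have he := hθs e (right_ne_zero_of_mul hde)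
      refine (hDD (d.lcm e) (mass_sqf hd.2.2 he.2.2) (T ^ 1000) hx0).trans ?_
      rw [mass_rpow hT0 1000 250 (by norm_num)]
      have h6 : ((d.lcm e : ℕ) : ℝ) ≤ T ^ 64 := by
        have h7 : d.lcm e ≤ d * e := Nat.le_of_dvd
          (Nat.mul_pos hd.1 he.1) (Nat.lcm_dvd_mul d e)
        calc ((d.lcm e : ℕ) : ℝ) ≤ ((d * e : ℕ) : ℝ) := by exact_mod_cast h7
          _ = (d : ℝ) * e := by push_cast; ring
          _ ≤ T ^ 32 * T ^ 32 := mul_le_mul hd.2.1 he.2.1 (Nat.cast_nonneg e) hy0.le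
          _ = T ^ 64 := by ring
      have h8 : ((d.lcm e : ℕ) : ℝ) ^ 2 ≤ (T ^ 64) ^ 2 :=
        pow_le_pow_left₀ (Nat.cast_nonneg _) h6 2
      refine mul_le_mul_of_nonneg_right ?_ (by positivity)
      exact mul_le_mul_of_nonneg_left h8 (by positivity)
  have e6 : (Y : ℝ) * Y * (K * T ^ 3 * (T ^ 64) ^ 2 * (T ^ 250)⁻¹) ≤ K * (1 / T) := by
    have h5 : (Y : ℝ) * Y ≤ T ^ 32 * T ^ 32 :=
      mul_le_mul hYT hYT (Nat.cast_nonneg _) hy0.le
    have h6 : T ^ 195 * (T ^ 250)⁻¹ ≤ 1 / T := by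
      rw [← div_eq_mul_inv, div_le_div_iff₀ (by positivity) hT0]
      calc T ^ 195 * T = T ^ 196 := by ring
        _ ≤ T ^ 250 := pow_le_pow_right₀ hT1 (by norm_num)
        _ = 1 * T ^ 250 := (one_mul _).symm
    calc (Y : ℝ) * Y * (K * T ^ 3 * (T ^ 64) ^ 2 * (T ^ 250)⁻¹) ≤
          (T ^ 32 * T ^ 32) * (K * T ^ 3 * (T ^ 64) ^ 2 * (T ^ 250)⁻¹) :=
          mul_le_mul_of_nonneg_right h5 (by positivity)
      _ = K * (T ^ 195 * (T ^ 250)⁻¹) := by ring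
      _ ≤ K * (1 / T) := mul_le_mul_of_nonneg_left h6 hK0.le
  have e7 : W ≤ (1 + K * (1 / T)) * (T ^ 1000) ^ δ + K * (1 / T) := by
    have h5 : ‖(L1 * (((T ^ 1000) ^ δ / δ : ℝ) : ℂ)) * ((S : ℝ) : ℂ)‖ =
        (‖L1‖ * S) * ((T ^ 1000) ^ δ / δ) := by
      rw [norm_mul, norm_mul, Complex.norm_real, Complex.norm_real, Real.norm_eq_abs,
        Real.norm_eq_abs, abs_of_nonneg (show 0 ≤ (T ^ 1000) ^ δ / δ by positivity),
        abs_of_nonneg hS0]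
      ring
    have h6 : W ≤ ‖((W : ℝ) : ℂ)‖ := by
      rw [Complex.norm_real]
      exact le_abs_self W
    have h7 : ‖((W : ℝ) : ℂ)‖ ≤ ‖((W : ℝ) : ℂ) -
        (L1 * (((T ^ 1000) ^ δ / δ : ℝ) : ℂ)) * ((S : ℝ) : ℂ)‖ +
        ‖(L1 * (((T ^ 1000) ^ δ / δ : ℝ) : ℂ)) * ((S : ℝ) : ℂ)‖ := by
      calc ‖((W : ℝ) : ℂ)‖ = ‖(((W : ℝ) : ℂ) -
          (L1 * (((T ^ 1000) ^ δ / δ : ℝ) : ℂ)) * ((S : ℝ) : ℂ)) +
          (L1 * (((T ^ 1000) ^ δ / δ : ℝ) : ℂ)) * ((S : ℝ) : ℂ)‖ := by rw [sub_add_cancel]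
        _ ≤ _ := norm_add_le _ _
    have h8 : (‖L1‖ * S) * ((T ^ 1000) ^ δ / δ) ≤ (1 + K * (1 / T)) * (T ^ 1000) ^ δ := by
      calc (‖L1‖ * S) * ((T ^ 1000) ^ δ / δ) ≤
            (δ * (1 + K * (1 / T))) * ((T ^ 1000) ^ δ / δ) :=
            mul_le_mul_of_nonneg_right e4 (by positivity)
        _ = _ := by field_simp
    rw [h5] at h7
    linarith [e5.trans e6]
  have e8 := mass_exp hT0 hu0.le hu1
  rw [← hB] at e8
  set u : ℝ := δ * Real.log T with hu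
  have hKT : K * (1 / T) ≤ K / c * u := by
    calc K * (1 / T) ≤ K * (u / c) := mul_le_mul_of_nonneg_left hTu hK0.le
      _ = _ := by ring
  have hKc : 0 < K / c := by positivity
  have e9 : W ≤ 1 + (B + K / c * (2 + B)) * u := by
    have h5 : (1 + K * (1 / T)) * (T ^ 1000) ^ δ ≤ (1 + K / c * u) * (1 + B * u) := by
      refine mul_le_mul (by linarith) e8 (Real.rpow_nonneg hx0.le _) (by positivity)
    have h6 : u * u ≤ u := mul_le_of_le_one_left hu0.le hu1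
    have h7 : (1 + K / c * u) * (1 + B * u) + K / c * u ≤ 1 + (B + K / c * (2 + B)) * u := by
      have h8 : K / c * B * (u * u) ≤ K / c * B * u :=
        mul_le_mul_of_nonneg_left h6 (by positivity)
      calc (1 + K / c * u) * (1 + B * u) + K / c * u =
            1 + B * u + 2 * (K / c) * u + K / c * B * (u * u) := by ring
        _ ≤ 1 + B * u + 2 * (K / c) * u + K / c * B * u := by linarith
        _ = 1 + (B + K / c * (2 + B)) * u := by ring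
    linarith
  have hX1 : 1 ≤ X := by
    refine Nat.le_floor ?_
    rw [Nat.cast_one]
    exact one_le_pow₀ hT1
  have e10 : W = 1 + ∑ n ∈ Icc 2 X, F n * sq θ n := by
    have h5 : Icc 1 X = insert 1 (Icc 2 X) := by
      ext n
      rw [Finset.mem_insert, Finset.mem_Icc, Finset.mem_Icc]
      omega
    rw [hW, h5, Finset.sum_insert (by simp)]
    congr 1
    rw [hF]
    unfold sq
    simp [hax1, hθ1]
  refine ⟨θ, hθ1, hθs, hθb, ?_, ?_⟩
  · have h5 : ∑ n ∈ Icc 2 X, ax χ n * sq θ n * (n : ℝ) ^ (-β) =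
        ∑ n ∈ Icc 2 X, F n * sq θ n := by
      refine Finset.sum_congr rfl ?_
      intro n _
      rw [hF]
      ring
    rw [h5]
    have h6 : ∑ n ∈ Icc 2 X, F n * sq θ n ≤ (B + K / c * (2 + B)) * u := by linarith
    refine h6.trans ?_
    have h7 : (B + K / c * (2 + B) + 1 + K) * u =
        (B + K / c * (2 + B)) * u + (1 + K) * u := by ring
    rw [h7]
    have h8 : 0 ≤ (1 + K) * u := by positivity
    linarith
  · rw [abs_of_nonneg hS0]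
    refine e4.trans ?_
    have h5 : 1 + K * (1 / T) ≤ B + K / c * (2 + B) + 1 + K := by
      have h6 : K * (1 / T) ≤ K * 1 := mul_le_mul_of_nonneg_left hT1' hK0.le
      have h7 : 0 ≤ K / c * (2 + B) := by positivity
      linarith
    calc δ * (1 + K * (1 / T)) ≤ δ * (B + K / c * (2 + B) + 1 + K) :=
          mul_le_mul_of_nonneg_left h5 hδ0.le
      _ = _ := by ring

end Pool.Agent.MVX
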