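import Pool.Agent.MVX.StD

set_option autoImplicit false

/-!
# Project MVX, module Mk: the quadratic form restricted to numbers coprime to `k` (helper75)
-/

namespace Pool.Agent.MVX

open Finset

theorem mk_cop (k t : ℕ) :
    ((range (k * t)).filter fun j => j.Coprime k).card = t * Nat.totient k := by
  induction t with
  | zero => simp
  | succ t ih =>
    have h1 : range (k * (t + 1)) = range (k * t) ∪ Ico (k * t) (k * t + k) := by
      ext x
      simp only [mem_range, mem_union, mem_Ico]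
      rw [mul_add, mul_one]
      omega
    have h2 : Disjoint ((range (k * t)).filter fun j => j.Coprime k)
        ((Ico (k * t) (k * t + k)).filter fun j => j.Coprime k) := by
      rw [Finset.disjoint_left]
      intro x hx hx'
      have h3 := mem_range.1 (mem_filter.1 hx).1
      have h4 := (mem_Ico.1 (mem_filter.1 hx').1).1
      omega
    have h5 : ((Ico (k * t) (k * t + k)).filter fun j => j.Coprime k).card = Nat.totient k := by
      have h6 := Nat.filter_coprime_Ico_eq_totient k (k * t)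
      rw [← h6]
      congr 1
      exact Finset.filter_congr fun x _ => Nat.coprime_comm
    rw [h1, filter_union, card_union_of_disjoint h2, ih, h5]
    ring

theorem mk_cnt {k m N : ℕ} (hm : 0 < m) (hmk : m.Coprime k) (hN : k * m ∣ N) :
    (((range N).filter fun n => n.Coprime k ∧ m ∣ n).card) * (k * m) = N * Nat.totient k := by
  obtain ⟨t, rfl⟩ := hN
  have h1 : ((range (k * m * t)).filter fun n => n.Coprime k ∧ m ∣ n) =
      ((range (k * t)).filter fun j => j.Coprime k).image fun j => m * j := by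
    ext n
    simp only [mem_filter, mem_range, mem_image]
    constructor
    · rintro ⟨h1, h2, ⟨j, rfl⟩⟩
      refine ⟨j, ⟨?_, ?_⟩, rfl⟩
      · have h3 : m * j < m * (k * t) := by
          calc m * j < k * m * t := h1
            _ = m * (k * t) := by ring
        exact lt_of_mul_lt_mul_left h3 (Nat.zero_le m)
      · exact Nat.Coprime.coprime_dvd_left (Dvd.intro_left m rfl) h2
    · rintro ⟨j, ⟨h1, h2⟩, rfl⟩
      refine ⟨?_, Nat.Coprime.mul_left hmk h2, Dvd.intro j rfl⟩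
      calc m * j < m * (k * t) := Nat.mul_lt_mul_of_pos_left h1 hm
        _ = k * m * t := by ring
  rw [h1, card_image_of_injective _ (fun a b h => Nat.eq_of_mul_eq_mul_left hm h), mk_cop]
  ring

/-- the weights -/
noncomputable def mk_w (y : ℝ) (d : ℕ) : ℝ :=
  (ArithmeticFunction.moebius d : ℝ) * Real.log (y / d) / Real.log y

/-- the mean value over a period -/
theorem mk_sum (y : ℝ) {k N : ℕ} (hk : 0 < k)
    (hN : ∀ d ∈ Icc 1 ⌊y⌋₊, ∀ e ∈ Icc 1 ⌊y⌋₊, k * d.lcm e ∣ N) :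
    ∑ n ∈ (range N).filter (fun n => n.Coprime k),
      (∑ d ∈ (Icc 1 ⌊y⌋₊).filter (fun d => d ∣ n), mk_w y d) ^ 2 = N * Mk y k := by
  have h1 : ∀ n ∈ (range N).filter (fun n => n.Coprime k),
      (∑ d ∈ (Icc 1 ⌊y⌋₊).filter (fun d => d ∣ n), mk_w y d) ^ 2 =
        ∑ d ∈ (Icc 1 ⌊y⌋₊).filter (fun d => d.Coprime k),
          ∑ e ∈ (Icc 1 ⌊y⌋₊).filter (fun e => e.Coprime k),
            if d.lcm e ∣ n then mk_w y d * mk_w y e else 0 := by
    intro n hn
    have hc : n.Coprime k := (mem_filter.1 hn).2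
    have h2 : ∑ d ∈ (Icc 1 ⌊y⌋₊).filter (fun d => d ∣ n), mk_w y d =
        ∑ d ∈ (Icc 1 ⌊y⌋₊).filter (fun d => d.Coprime k), if d ∣ n then mk_w y d else 0 := by
      rw [← sum_filter, filter_filter]
      refine sum_congr (filter_congr fun d _ => ?_) fun _ _ => rfl
      exact ⟨fun h => ⟨Nat.Coprime.coprime_dvd_left h hc, h⟩, fun h => h.2⟩
    rw [h2, pow_two, sum_mul_sum]
    refine sum_congr rfl fun d _ => sum_congr rfl fun e _ => ?_
    by_cases hd : d ∣ n
    · by_cases he : e ∣ n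
      · rw [if_pos hd, if_pos he, if_pos (Nat.lcm_dvd hd he)]
      · rw [if_pos hd, if_neg he, mul_zero,
          if_neg fun h => he ((Nat.dvd_lcm_right d e).trans h)]
    · rw [if_neg hd, zero_mul, if_neg fun h => hd ((Nat.dvd_lcm_left d e).trans h)]
  rw [sum_congr rfl h1, sum_comm]
  unfold Mk
  rw [← mul_assoc, mul_sum]
  refine sum_congr rfl fun d hd => ?_
  rw [sum_comm, mul_sum]
  refine sum_congr rfl fun e he => ?_
  obtain ⟨hd1, hd2⟩ := mem_filter.1 hd
  obtain ⟨he1, he2⟩ := mem_filter.1 he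
  have hd0 : 0 < d := (mem_Icc.1 hd1).1
  have he0 : 0 < e := (mem_Icc.1 he1).1
  have hl : 0 < d.lcm e := Nat.lcm_pos hd0 he0
  have hcl : (d.lcm e).Coprime k :=
    Nat.Coprime.coprime_dvd_left (Nat.lcm_dvd_mul d e) (Nat.Coprime.mul_left hd2 he2)
  have h3 := mk_cnt hl hcl (hN d hd1 e he1)
  rw [← sum_filter, filter_filter, sum_const, nsmul_eq_mul]
  have h4 : ((((range N).filter fun n => n.Coprime k ∧ d.lcm e ∣ n).card : ℕ) : ℝ) *
      ((k : ℝ) * ((d.lcm e : ℕ) : ℝ)) = (N : ℝ) * (Nat.totient k : ℝ) := by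
    exact_mod_cast h3
  have hk' : (k : ℝ) ≠ 0 := by
    have : k ≠ 0 := hk.ne'
    exact_mod_cast this
  have hl' : ((d.lcm e : ℕ) : ℝ) ≠ 0 := by
    have : d.lcm e ≠ 0 := hl.ne'
    exact_mod_cast this
  have h5 : ((((range N).filter fun n => n.Coprime k ∧ d.lcm e ∣ n).card : ℕ) : ℝ) =
      (N : ℝ) * (Nat.totient k : ℝ) / ((k : ℝ) * ((d.lcm e : ℕ) : ℝ)) := by
    rw [eq_div_iff (mul_ne_zero hk' hl'), h4]
  rw [h5]
  unfold mk_w
  field_simp

theorem thm_Mk (h : St_BV) : St_Mk := by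
  obtain ⟨C, hC, hB⟩ := h
  refine ⟨C, hC, fun y hy k hk => ?_⟩
  have hly : 0 < Real.log y := Real.log_pos (by linarith)
  have hdvd : ∀ d ∈ Icc 1 ⌊y⌋₊, d ∣ (⌊y⌋₊).factorial := fun d hd =>
    Nat.dvd_factorial (mem_Icc.1 hd).1 (mem_Icc.1 hd).2
  have hNk : ∀ d ∈ Icc 1 ⌊y⌋₊, ∀ e ∈ Icc 1 ⌊y⌋₊, k * d.lcm e ∣ k * (⌊y⌋₊).factorial :=
    fun d hd e he => Nat.mul_dvd_mul_left k (Nat.lcm_dvd (hdvd d hd) (hdvd e he))
  have hN1 : ∀ d ∈ Icc 1 ⌊y⌋₊, ∀ e ∈ Icc 1 ⌊y⌋₊, 1 * d.lcm e ∣ k * (⌊y⌋₊).factorial := by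
    intro d hd e he
    rw [one_mul]
    exact (Nat.lcm_dvd (hdvd d hd) (hdvd e he)).trans (Dvd.intro_left k rfl)
  have e1 := mk_sum y hk hNk
  have e2 := mk_sum y Nat.one_pos hN1
  have hNpos : (0 : ℝ) < ((k * (⌊y⌋₊).factorial : ℕ) : ℝ) := by
    have : 0 < k * (⌊y⌋₊).factorial := Nat.mul_pos hk (Nat.factorial_pos _)
    exact_mod_cast this
  have h0 : 0 ≤ Mk y k := by
    have h1 : 0 ≤ ((k * (⌊y⌋₊).factorial : ℕ) : ℝ) * Mk y k := by
      rw [← e1]
      exact sum_nonneg fun n _ => sq_nonneg _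
    exact nonneg_of_mul_nonneg_right h1 hNpos
  have hle : Mk y k ≤ Mk y 1 := by
    have h1 : ((k * (⌊y⌋₊).factorial : ℕ) : ℝ) * Mk y k ≤
        ((k * (⌊y⌋₊).factorial : ℕ) : ℝ) * Mk y 1 := by
      rw [← e1, ← e2]
      refine sum_le_sum_of_subset_of_nonneg ?_ fun _ _ _ => sq_nonneg _
      intro n hn
      rw [mem_filter] at hn ⊢
      exact ⟨hn.1, Nat.coprime_one_right n⟩
    exact le_of_mul_le_mul_left h1 hNpos
  have hQ : Mk y 1 = QBV y 0 / Real.log y ^ 2 := by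
    unfold Mk QBV
    have hf : (Icc 1 ⌊y⌋₊).filter (fun d => d.Coprime 1) = Icc 1 ⌊y⌋₊ :=
      filter_true_of_mem fun d _ => Nat.coprime_one_right d
    rw [hf, Nat.totient_one, Nat.cast_one, div_one, one_mul, sum_div]
    refine sum_congr rfl fun d _ => ?_
    rw [sum_div]
    refine sum_congr rfl fun e _ => ?_
    rw [add_zero, Real.rpow_neg_one]
    field_simp
  obtain ⟨-, hB2⟩ := hB y hy 0 le_rfl (by rw [zero_mul]; norm_num)
  refine ⟨h0, hle.trans ?_⟩
  rw [hQ, div_le_div_iff₀ (by positivity) hly]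
  calc QBV y 0 * Real.log y ≤ (C * Real.log y) * Real.log y :=
        mul_le_mul_of_nonneg_right hB2 hly.le
    _ = C * Real.log y ^ 2 := by ring

end Pool.Agent.MVX
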