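import Pool.Agent.MVX.StE

set_option autoImplicit false

/-!
# Project MVX, module Mul: multiples of a squarefree number in a convolution
-/

namespace Pool.Agent.MVX

open Finset

private lemma mul_cv (f g : ℕ → ℂ) (n : ℕ) :
    cv f g n = ∑ x ∈ n.divisorsAntidiagonal, f x.1 * g x.2 :=
  (Nat.sum_divisorsAntidiagonal (fun a b => f a * g b)).symm

/-- the recursion of the convolution at a prime -/
private lemma mul_rec {f g : ℕ → ℂ} (hf : ∀ m n, f (m * n) = f m * f n)
    (hg : ∀ m n, g (m * n) = g m * g n) {p : ℕ} (hp : p.Prime) {k : ℕ} (hk : 1 ≤ k) :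
    cv f g (p * k) = (f p + g p) * cv f g k -
      if p ∣ k then f p * g p * cv f g (k / p) else 0 := by
  classical
  have hp0 : p ≠ 0 := hp.ne_zero
  have hk0 : k ≠ 0 := by omega
  rw [mul_cv, mul_cv]
  set A := (p * k).divisorsAntidiagonal with hA
  have hmem : ∀ x : ℕ × ℕ, x ∈ A ↔ x.1 * x.2 = p * k := by
    intro x
    rw [hA, Nat.mem_divisorsAntidiagonal]
    exact ⟨fun h => h.1, fun h => ⟨h, mul_ne_zero hp0 hk0⟩⟩
  -- the pairs with `p ∣ x.1`
  have h1 : ∑ x ∈ A.filter (fun x => p ∣ x.1), f x.1 * g x.2 =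
      f p * ∑ x ∈ k.divisorsAntidiagonal, f x.1 * g x.2 := by
    rw [Finset.mul_sum]
    symm
    refine Finset.sum_bij (fun x _ => (p * x.1, x.2)) ?_ ?_ ?_ ?_
    · intro x hx
      rw [Nat.mem_divisorsAntidiagonal] at hx
      rw [Finset.mem_filter, hmem]
      exact ⟨by rw [mul_assoc, hx.1], dvd_mul_right _ _⟩
    · intro x _ y _ h
      rw [Prod.mk.injEq] at h
      exact Prod.ext (Nat.eq_of_mul_eq_mul_left hp.pos h.1) h.2
    · rintro ⟨a, b⟩ hx
      rw [Finset.mem_filter, hmem] at hx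
      obtain ⟨h2, a', rfl⟩ := hx
      refine ⟨(a', b), ?_, rfl⟩
      rw [Nat.mem_divisorsAntidiagonal]
      dsimp only at h2 ⊢
      rw [mul_assoc] at h2
      exact ⟨Nat.eq_of_mul_eq_mul_left hp.pos h2, hk0⟩
    · intro x _
      rw [hf]
      ring
  have h2 : ∑ x ∈ A.filter (fun x => p ∣ x.2), f x.1 * g x.2 =
      g p * ∑ x ∈ k.divisorsAntidiagonal, f x.1 * g x.2 := by
    rw [Finset.mul_sum]
    symm
    refine Finset.sum_bij (fun x _ => (x.1, p * x.2)) ?_ ?_ ?_ ?_
    · intro x hx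
      rw [Nat.mem_divisorsAntidiagonal] at hx
      rw [Finset.mem_filter, hmem]
      exact ⟨by rw [mul_left_comm, hx.1], dvd_mul_right _ _⟩
    · intro x _ y _ h
      rw [Prod.mk.injEq] at h
      exact Prod.ext h.1 (Nat.eq_of_mul_eq_mul_left hp.pos h.2)
    · rintro ⟨a, b⟩ hx
      rw [Finset.mem_filter, hmem] at hx
      obtain ⟨h2, b', rfl⟩ := hx
      refine ⟨(a, b'), ?_, rfl⟩
      rw [Nat.mem_divisorsAntidiagonal]
      dsimp only at h2 ⊢
      rw [mul_left_comm] at h2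
      exact ⟨Nat.eq_of_mul_eq_mul_left hp.pos h2, hk0⟩
    · intro x _
      rw [hg]
      ring
  have h3 : ∑ x ∈ A.filter (fun x => p ∣ x.1 ∧ p ∣ x.2), f x.1 * g x.2 =
      if p ∣ k then f p * g p * cv f g (k / p) else 0 := by
    split_ifs with hpk
    · obtain ⟨l, rfl⟩ := hpk
      have hl0 : l ≠ 0 := by
        rintro rfl
        exact hk0 (mul_zero _)
      rw [Nat.mul_div_cancel_left l hp.pos, mul_cv, Finset.mul_sum]
      symm
      refine Finset.sum_bij (fun x _ => (p * x.1, p * x.2)) ?_ ?_ ?_ ?_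
      · intro x hx
        rw [Nat.mem_divisorsAntidiagonal] at hx
        rw [Finset.mem_filter, hmem]
        refine ⟨?_, dvd_mul_right _ _, dvd_mul_right _ _⟩
        calc p * x.1 * (p * x.2) = p * (p * (x.1 * x.2)) := by ring
          _ = _ := by rw [hx.1]
      · intro x _ y _ h
        rw [Prod.mk.injEq] at h
        exact Prod.ext (Nat.eq_of_mul_eq_mul_left hp.pos h.1)
          (Nat.eq_of_mul_eq_mul_left hp.pos h.2)
      · rintro ⟨a, b⟩ hx
        rw [Finset.mem_filter, hmem] at hx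
        obtain ⟨h2, ⟨a', rfl⟩, ⟨b', rfl⟩⟩ := hx
        refine ⟨(a', b'), ?_, rfl⟩
        rw [Nat.mem_divisorsAntidiagonal]
        dsimp only at h2 ⊢
        have h4 : p * (p * (a' * b')) = p * (p * l) := by rw [← h2]; ring
        exact ⟨Nat.eq_of_mul_eq_mul_left hp.pos (Nat.eq_of_mul_eq_mul_left hp.pos h4), hl0⟩
      · intro x _
        rw [hf, hg]
        ring
    · apply Finset.sum_eq_zero
      intro x hx
      exfalso
      rw [Finset.mem_filter, hmem] at hx
      obtain ⟨h2, ⟨a', ha⟩, ⟨b', hb⟩⟩ := hx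
      rw [ha, hb] at h2
      apply hpk
      refine ⟨a' * b', ?_⟩
      apply Nat.eq_of_mul_eq_mul_left hp.pos
      rw [← h2]
      ring
  have h4 : ∑ x ∈ A, f x.1 * g x.2 = ∑ x ∈ A.filter (fun x => p ∣ x.1), f x.1 * g x.2 +
      ∑ x ∈ A.filter (fun x => p ∣ x.2), f x.1 * g x.2 -
      ∑ x ∈ A.filter (fun x => p ∣ x.1 ∧ p ∣ x.2), f x.1 * g x.2 := by
    rw [Finset.sum_filter, Finset.sum_filter, Finset.sum_filter, ← Finset.sum_add_distrib,
      ← Finset.sum_sub_distrib]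
    refine Finset.sum_congr rfl fun x hx => ?_
    rw [hmem] at hx
    have h5 : p ∣ x.1 ∨ p ∣ x.2 := by
      rw [← hp.dvd_mul, hx]
      exact dvd_mul_right _ _
    by_cases h6 : p ∣ x.1
    · by_cases h7 : p ∣ x.2
      · rw [if_pos h6, if_pos h7, if_pos ⟨h6, h7⟩]
        ring
      · rw [if_pos h6, if_neg h7, if_neg fun h => h7 h.2]
        ring
    · rw [if_neg h6, if_pos (h5.resolve_left h6), if_neg fun h => h6 h.1]
      ring
  rw [h4, h1, h2, h3, add_mul]

/-- substitution `n = p k` -/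
private lemma mul_subst (G : ℕ → ℂ) {p : ℕ} (hp : 0 < p) {v : ℝ} (hv : 0 ≤ v) (Q : ℕ → Prop)
    [DecidablePred Q] :
    ∑ n ∈ (Icc 1 ⌊v⌋₊).filter (fun n => p ∣ n ∧ Q n), G n =
      ∑ k ∈ (Icc 1 ⌊v / p⌋₊).filter (fun k => Q (p * k)), G (p * k) := by
  have hp' : (0 : ℝ) < p := by exact_mod_cast hp
  symm
  refine Finset.sum_bij (fun k _ => p * k) ?_ ?_ ?_ ?_
  · intro k hk
    rw [Finset.mem_filter, Finset.mem_Icc] at hk ⊢
    obtain ⟨⟨h1, h2⟩, h3⟩ := hk
    refine ⟨⟨Nat.mul_pos hp h1, ?_⟩, dvd_mul_right _ _, h3⟩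
    rw [Nat.le_floor_iff hv]
    rw [Nat.le_floor_iff (by positivity), le_div_iff₀ hp'] at h2
    push_cast
    linarith
  · intro a _ b _ h
    exact Nat.eq_of_mul_eq_mul_left hp h
  · intro n hn
    rw [Finset.mem_filter, Finset.mem_Icc] at hn
    obtain ⟨⟨h1, h2⟩, ⟨k, rfl⟩, h3⟩ := hn
    refine ⟨k, ?_, rfl⟩
    rw [Finset.mem_filter, Finset.mem_Icc]
    refine ⟨⟨Nat.pos_of_mul_pos_left h1, ?_⟩, h3⟩
    rw [Nat.le_floor_iff hv] at h2
    rw [Nat.le_floor_iff (by positivity), le_div_iff₀ hp']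
    push_cast at h2
    linarith
  · intro k _
    rfl

private lemma mul_cpow (a b : ℕ) (s : ℂ) :
    ((a * b : ℕ) : ℂ) ^ (-s) = (a : ℂ) ^ (-s) * (b : ℂ) ^ (-s) := by
  rw [Nat.cast_mul, Complex.natCast_mul_natCast_cpow]

/-- the recursion of the sums at a prime -/
private lemma mul_SD {f g : ℕ → ℂ} (hf : ∀ m n, f (m * n) = f m * f n)
    (hg : ∀ m n, g (m * n) = g m * g n) {p D : ℕ} (hp : p.Prime) (hD : p.Coprime D) (s : ℂ)
    {v : ℝ} (hv : 0 ≤ v) :
    SsumD (p * D) (cv f g) s v = (f p + g p) * (p : ℂ) ^ (-s) * SsumD D (cv f g) s (v / p) -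
      f p * g p * ((p : ℂ) ^ (-s) * (p : ℂ) ^ (-s)) * SsumD D (cv f g) s (v / p / p) := by
  have hvp : 0 ≤ v / p := by positivity
  have h1 : SsumD (p * D) (cv f g) s v =
      ∑ k ∈ (Icc 1 ⌊v / p⌋₊).filter (fun k => D ∣ k),
        cv f g (p * k) * ((p * k : ℕ) : ℂ) ^ (-s) := by
    unfold SsumD
    have h2 : (Icc 1 ⌊v⌋₊).filter (fun n => p * D ∣ n) =
        (Icc 1 ⌊v⌋₊).filter (fun n => p ∣ n ∧ D ∣ n) := by
      refine Finset.filter_congr fun n _ => ?_
      exact ⟨fun h => ⟨(dvd_mul_right _ _).trans h, (dvd_mul_left _ _).trans h⟩,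
        fun h => hD.mul_dvd_of_dvd_of_dvd h.1 h.2⟩
    rw [h2, mul_subst _ hp.pos hv]
    refine Finset.sum_congr (Finset.filter_congr fun k _ => ?_) fun _ _ => rfl
    exact ⟨fun h => hD.symm.dvd_of_dvd_mul_left h, fun h => h.mul_left _⟩
  have h3 : ∀ k ∈ (Icc 1 ⌊v / p⌋₊).filter (fun k => D ∣ k),
      cv f g (p * k) * ((p * k : ℕ) : ℂ) ^ (-s) =
      (f p + g p) * (p : ℂ) ^ (-s) * (cv f g k * (k : ℂ) ^ (-s)) -
        f p * g p * (p : ℂ) ^ (-s) *
          (if p ∣ k then cv f g (k / p) * (k : ℂ) ^ (-s) else 0) := by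
    intro k hk
    rw [Finset.mem_filter, Finset.mem_Icc] at hk
    rw [mul_rec hf hg hp hk.1.1, mul_cpow]
    split_ifs <;> ring
  rw [h1, Finset.sum_congr rfl h3, Finset.sum_sub_distrib, ← Finset.mul_sum, ← Finset.mul_sum]
  have h4 : ∑ k ∈ (Icc 1 ⌊v / p⌋₊).filter (fun k => D ∣ k),
      (if p ∣ k then cv f g (k / p) * (k : ℂ) ^ (-s) else 0) =
      (p : ℂ) ^ (-s) * SsumD D (cv f g) s (v / p / p) := by
    rw [← Finset.sum_filter, Finset.filter_filter]
    have h5 : (Icc 1 ⌊v / p⌋₊).filter (fun k => D ∣ k ∧ p ∣ k) =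
        (Icc 1 ⌊v / p⌋₊).filter (fun k => p ∣ k ∧ D ∣ k) :=
      Finset.filter_congr fun k _ => and_comm
    rw [h5, mul_subst _ hp.pos hvp]
    unfold SsumD
    rw [Finset.mul_sum]
    refine Finset.sum_congr (Finset.filter_congr fun k _ => ?_) fun k _ => ?_
    · exact ⟨fun h => hD.symm.dvd_of_dvd_mul_left h, fun h => h.mul_left _⟩
    · rw [Nat.mul_div_cancel_left k hp.pos, mul_cpow]
      ring
  rw [h4]
  unfold SsumD
  ring

/-- the divisors of `p D` -/
private lemma mul_div {β : Type} [AddCommMonoid β] (F : ℕ → β) {p D : ℕ} (hp : p.Prime)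
    (hD : p.Coprime D) (hD0 : D ≠ 0) :
    ∑ d ∈ (p * D).divisors, F d = ∑ d ∈ D.divisors, F d + ∑ d ∈ D.divisors, F (p * d) := by
  classical
  have h1 : (p * D).divisors = D.divisors ∪ D.divisors.image (p * ·) := by
    ext d
    simp only [Finset.mem_union, Finset.mem_image, Nat.mem_divisors]
    constructor
    · rintro ⟨h1, -⟩
      by_cases h2 : p ∣ d
      · obtain ⟨e, rfl⟩ := h2
        exact Or.inr ⟨e, ⟨Nat.dvd_of_mul_dvd_mul_left hp.pos h1, hD0⟩, rfl⟩
      · refine Or.inl ⟨?_, hD0⟩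
        exact Nat.Coprime.dvd_of_dvd_mul_left ((hp.coprime_iff_not_dvd.2 h2).symm) h1
    · rintro (⟨h1, -⟩ | ⟨e, ⟨h1, -⟩, rfl⟩)
      · exact ⟨h1.mul_left _, mul_ne_zero hp.ne_zero hD0⟩
      · exact ⟨Nat.mul_dvd_mul_left _ h1, mul_ne_zero hp.ne_zero hD0⟩
  rw [h1, Finset.sum_union, Finset.sum_image]
  · intro a _ b _ h
    exact Nat.eq_of_mul_eq_mul_left hp.pos h
  · rw [Finset.disjoint_left]
    intro d hd hd'
    obtain ⟨e, he, rfl⟩ := Finset.mem_image.1 hd'
    have h2 : p ∣ D := (dvd_mul_right _ _).trans (Nat.dvd_of_mem_divisors hd)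
    exact (hp.coprime_iff_not_dvd.1 hD) h2

theorem thm_Mul : St_Mul := by
  intro f g hf hg D
  have hf1 : ∀ n, f 1 * f n = f n := fun n => by rw [← hf, one_mul]
  have hg1 : ∀ n, g 1 * g n = g n := fun n => by rw [← hg, one_mul]
  induction D using Nat.strong_induction_on with
  | _ D ih =>
  intro hsq s v hv
  rcases eq_or_ne D 1 with rfl | hD1
  · simp only [Nat.divisors_one, Finset.sum_singleton, Nat.div_self Nat.one_pos,
      ArithmeticFunction.moebius_apply_one, mul_one, Nat.cast_one, Int.cast_one, one_mul, div_one,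
      Complex.one_cpow]
    unfold SsumD Ssum
    rw [Finset.mul_sum]
    have h1 : (Icc 1 ⌊v⌋₊).filter (fun n => 1 ∣ n) = Icc 1 ⌊v⌋₊ :=
      Finset.filter_true_of_mem fun n _ => one_dvd n
    rw [h1]
    refine Finset.sum_congr rfl fun n _ => ?_
    have h2 : cv f g n = f 1 * g 1 * cv f g n := by
      unfold cv
      rw [Finset.mul_sum]
      refine Finset.sum_congr rfl fun d _ => ?_
      calc f d * g (n / d) = (f 1 * f d) * (g 1 * g (n / d)) := by rw [hf1, hg1]
        _ = _ := by ring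
    calc cv f g n * (n : ℂ) ^ (-s) = (f 1 * g 1 * cv f g n) * (n : ℂ) ^ (-s) := by rw [← h2]
      _ = _ := by ring
  · have hD0 : D ≠ 0 := hsq.ne_zero
    obtain ⟨p, hp, hpD⟩ := Nat.exists_prime_and_dvd hD1
    obtain ⟨E, rfl⟩ := hpD
    obtain ⟨hcop, -, hE⟩ := Nat.squarefree_mul_iff.1 hsq
    have hE0 : E ≠ 0 := hE.ne_zero
    have hlt : E < p * E := by
      have := hp.two_le
      have hE1 : 0 < E := Nat.pos_of_ne_zero hE0
      nlinarith
    have hp' : (0 : ℝ) < p := by exact_mod_cast hp.pos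
    rw [mul_SD hf hg hp hcop s hv, ih E hlt hE s (v / p) (by positivity),
      ih E hlt hE s (v / p / p) (by positivity), mul_div _ hp hcop hE0]
    -- the terms with `p ∤ c`
    have e1 : ∀ c ∈ E.divisors, (∑ a ∈ (p * E / c).divisors,
        (ArithmeticFunction.moebius c : ℂ) * f (a * c) * g (p * E / c / a * c) *
          ((p * E * c : ℕ) : ℂ) ^ (-s) * Ssum (cv f g) s (v / ((p * E * c : ℕ) : ℝ))) =
        (f p + g p) * (p : ℂ) ^ (-s) * ∑ a ∈ (E / c).divisors,
          (ArithmeticFunction.moebius c : ℂ) * f (a * c) * g (E / c / a * c) *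
            ((E * c : ℕ) : ℂ) ^ (-s) * Ssum (cv f g) s (v / p / ((E * c : ℕ) : ℝ)) := by
      intro c hc
      obtain ⟨hcE, -⟩ := Nat.mem_divisors.1 hc
      have hc0 : 0 < c := Nat.pos_of_mem_divisors hc
      have h1 : p * E / c = p * (E / c) := Nat.mul_div_assoc _ hcE
      have h2 : E / c ≠ 0 := (Nat.div_pos (Nat.le_of_dvd (Nat.pos_of_ne_zero hE0) hcE) hc0).ne'
      have h3 : p.Coprime (E / c) := Nat.Coprime.coprime_dvd_right (Nat.div_dvd_of_dvd hcE) hcop
      have h4 : v / ((p * E * c : ℕ) : ℝ) = v / p / ((E * c : ℕ) : ℝ) := by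
        push_cast
        rw [div_div, mul_assoc]
      rw [h1, mul_div _ hp h3 h2, h4, mul_assoc p E c, mul_cpow, add_mul, add_mul, add_comm,
        Finset.mul_sum, Finset.mul_sum]
      congr 1
      · refine Finset.sum_congr rfl fun a ha => ?_
        have h5 : p * (E / c) / (p * a) = E / c / a := Nat.mul_div_mul_left _ _ hp.pos
        rw [h5, mul_assoc p a c, hf p (a * c)]
        ring
      · refine Finset.sum_congr rfl fun a ha => ?_
        have h5 : p * (E / c) / a = p * (E / c / a) :=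
          Nat.mul_div_assoc _ (Nat.dvd_of_mem_divisors ha)
        rw [h5, mul_assoc p _ c, hg p]
        ring
    have e2 : ∀ c ∈ E.divisors, (∑ a ∈ (p * E / (p * c)).divisors,
        (ArithmeticFunction.moebius (p * c) : ℂ) * f (a * (p * c)) *
          g (p * E / (p * c) / a * (p * c)) * ((p * E * (p * c) : ℕ) : ℂ) ^ (-s) *
            Ssum (cv f g) s (v / ((p * E * (p * c) : ℕ) : ℝ))) =
        -(f p * g p * ((p : ℂ) ^ (-s) * (p : ℂ) ^ (-s)) * ∑ a ∈ (E / c).divisors,
          (ArithmeticFunction.moebius c : ℂ) * f (a * c) * g (E / c / a * c) *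
            ((E * c : ℕ) : ℂ) ^ (-s) * Ssum (cv f g) s (v / p / p / ((E * c : ℕ) : ℝ))) := by
      intro c hc
      obtain ⟨hcE, -⟩ := Nat.mem_divisors.1 hc
      have h1 : p * E / (p * c) = E / c := Nat.mul_div_mul_left _ _ hp.pos
      have h3 : p.Coprime c := Nat.Coprime.coprime_dvd_right hcE hcop
      have h4 : v / ((p * E * (p * c) : ℕ) : ℝ) = v / p / p / ((E * c : ℕ) : ℝ) := by
        push_cast
        rw [div_div, div_div]
        congr 1
        ring
      have h5 : (ArithmeticFunction.moebius (p * c) : ℂ) =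
          -(ArithmeticFunction.moebius c : ℂ) := by
        rw [ArithmeticFunction.isMultiplicative_moebius.map_mul_of_coprime h3,
          ArithmeticFunction.moebius_apply_prime hp]
        push_cast
        ring
      have h6 : p * E * (p * c) = p * (p * (E * c)) := by ring
      rw [h1, h4, h5, h6, mul_cpow, mul_cpow, Finset.mul_sum, ← Finset.sum_neg_distrib]
      refine Finset.sum_congr rfl fun a _ => ?_
      have h7 : a * (p * c) = p * (a * c) := by ring
      have h8 : E / c / a * (p * c) = p * (E / c / a * c) := by ring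
      rw [h7, h8, hf p, hg p]
      ring
    rw [Finset.sum_congr rfl e1, Finset.sum_congr rfl e2, Finset.sum_neg_distrib,
      ← Finset.mul_sum, ← Finset.mul_sum, sub_eq_add_neg]

end Pool.Agent.MVX
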