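import Pool.Agent.MVX.StD

/-!
# Project MVX, module N1: from spaced zeros to all zeros with multiplicity
-/

set_option autoImplicit false

namespace Pool.Agent.MVX

open Finset

theorem n1_zc (c : Chr) [h : NeZero c.1] (K : Set ℂ) : zc c K = zs c.2 K := by
  unfold zc
  rw [dif_neg h.out]

theorem n1_mc (c : Chr) [h : NeZero c.1] (ρ : ℂ) : mc c ρ = zm c.2 ρ := by
  unfold mc
  rw [dif_neg h.out]

theorem n1_PS {T : ℝ} (hT : 0 ≤ T) {c : Chr} (h : c ∈ PS T) :
    c.1 ≠ 0 ∧ ((c.1 : ℕ) : ℝ) ≤ T ∧ c.2.IsPrimitive := by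
  unfold PS at h
  rw [Finset.mem_sigma, Finset.mem_Icc, mem_prm] at h
  refine ⟨by omega, ?_, h.2⟩
  exact (Nat.le_floor_iff hT).mp h.1.2

/-- the multiplicity of all zeros in one class -/
theorem n1_class {C T η : ℝ} (hC : 0 < C) (hT : Real.exp 20 ≤ T) (hη : 0 ≤ η) (hη1 : η ≤ 1 / 400)
    {q : ℕ} [NeZero q] (χ : DirichletCharacter ℂ q)
    (hcnt : ∀ t : ℝ, |t| ≤ 3 * T → ∀ r : ℝ, 0 < r → r ≤ 1 / 8 →
      ∑ ρ ∈ zs χ (disc 1 t r), (zm χ ρ : ℝ) ≤ C * (1 + r * Real.log T)) (m : ℤ)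
    (S : Finset ℂ) (hS : ∀ ρ ∈ S, ρ ∈ zs χ (rect (1 - η) T) ∧ ⌊ρ.im * Real.log T⌋ = m) :
    ∑ ρ ∈ S, (zm χ ρ : ℝ) ≤ 3 * C * T ^ η := by
  have hlog : 20 ≤ Real.log T := by
    rw [← Real.log_exp 20]
    exact Real.log_le_log (Real.exp_pos 20) hT
  have hT1 : 1 ≤ T := by
    have := Real.add_one_le_exp (20 : ℝ)
    linarith
  have hT0 : 0 < T := by linarith
  have hl0 : 0 < Real.log T := by linarith
  have hTη : 0 < T ^ η := Real.rpow_pos_of_pos hT0 η
  rcases S.eq_empty_or_nonempty with h0 | ⟨ρ₀, hρ₀⟩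
  · rw [h0, Finset.sum_empty]
    positivity
  have him : ∀ ρ ∈ S, |ρ.im - m / Real.log T| ≤ 1 / Real.log T := by
    intro ρ hρ
    have h1 := (hS ρ hρ).2
    have h2 := Int.floor_le (ρ.im * Real.log T)
    have h3 := Int.lt_floor_add_one (ρ.im * Real.log T)
    rw [h1] at h2 h3
    have h4 : ρ.im - m / Real.log T = (ρ.im * Real.log T - m) / Real.log T := by
      field_simp
    rw [h4, abs_div, abs_of_pos hl0]
    refine div_le_div_of_nonneg_right ?_ hl0.le
    rw [abs_le]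
    constructor <;> linarith
  have hl1 : 1 / Real.log T ≤ 1 / 20 := one_div_le_one_div_of_le (by norm_num) hlog
  have ht : |(m : ℝ) / Real.log T| ≤ 3 * T := by
    have h1 := him ρ₀ hρ₀
    have h2 := ((mem_zs χ (rect_bounded _ _) ρ₀).mp (hS ρ₀ hρ₀).1).1.2.2
    have h3 : |(m : ℝ) / Real.log T| ≤ |ρ₀.im| + |ρ₀.im - m / Real.log T| := by
      have h4 := abs_sub_abs_le_abs_sub ((m : ℝ) / Real.log T) ρ₀.im
      rw [abs_sub_comm ((m : ℝ) / Real.log T) ρ₀.im] at h4
      linarith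
    linarith
  set r : ℝ := η + 2 / Real.log T with hr
  have hr0 : 0 < r := by positivity
  have h2l : 2 / Real.log T ≤ 1 / 10 := by
    have : 2 / Real.log T = 2 * (1 / Real.log T) := by ring
    rw [this]
    linarith
  have hr8 : r ≤ 1 / 8 := by
    rw [hr]
    linarith
  have h1 := hcnt _ ht r hr0 hr8
  have hsub : S ⊆ zs χ (disc 1 ((m : ℝ) / Real.log T) r) := by
    intro ρ hρ
    have h2 := (mem_zs χ (rect_bounded _ _) ρ).mp (hS ρ hρ).1
    refine (mem_zs χ (disc_bounded _ _ _) ρ).mpr ⟨?_, h2.2⟩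
    unfold disc
    rw [Metric.mem_closedBall, dist_eq_norm]
    refine (Complex.norm_le_abs_re_add_abs_im _).trans ?_
    have h3 : (ρ - (((1 : ℝ) : ℂ) + (((m : ℝ) / Real.log T : ℝ) : ℂ) * Complex.I)).re =
        ρ.re - 1 := by simp
    have h4 : (ρ - (((1 : ℝ) : ℂ) + (((m : ℝ) / Real.log T : ℝ) : ℂ) * Complex.I)).im =
        ρ.im - m / Real.log T := by simp
    rw [h3, h4]
    have h5 : |ρ.re - 1| ≤ η := by
      rw [abs_le]
      constructor
      · linarith [h2.1.1]
      · linarith [h2.1.2.1]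
    have h6 := him ρ hρ
    have h7 : 1 / Real.log T ≤ 2 / Real.log T := by
      refine div_le_div_of_nonneg_right (by norm_num) hl0.le
    rw [hr]
    linarith
  have h2 : ∑ ρ ∈ S, (zm χ ρ : ℝ) ≤ C * (1 + r * Real.log T) :=
    (Finset.sum_le_sum_of_subset_of_nonneg hsub (fun _ _ _ => Nat.cast_nonneg _)).trans h1
  refine h2.trans ?_
  have h3 : 1 + r * Real.log T = 3 + η * Real.log T := by
    rw [hr]
    field_simp
    ring
  have h4 : 1 + η * Real.log T ≤ T ^ η := by
    rw [Real.rpow_def_of_pos hT0]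
    have := Real.add_one_le_exp (Real.log T * η)
    linarith [mul_comm (Real.log T) η]
  have h5 : 0 ≤ η * Real.log T := by positivity
  rw [h3]
  calc C * (3 + η * Real.log T) ≤ C * (3 * T ^ η) :=
        mul_le_mul_of_nonneg_left (by linarith) hC.le
    _ = _ := by ring

theorem thm_N1 (h1 : St_Dens) (h2 : St_Cnt) (h3 : St_L0) : St_N1 := by
  classical
  obtain ⟨C₁, T₁, hC₁, hT₁, hD⟩ := h1
  obtain ⟨C₂, hC₂, hN⟩ := h2
  refine ⟨6 * C₁ * C₂ + C₁ + 1, max T₁ (Real.exp 20), by positivity,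
    hT₁.trans (le_max_left _ _), ?_⟩
  intro T hT η hη hη1
  have hTT₁ : T₁ ≤ T := (le_max_left _ _).trans hT
  have hT20 : Real.exp 20 ≤ T := (le_max_right _ _).trans hT
  have hT2 : 2 ≤ T := hT₁.trans hTT₁
  have hT1 : 1 ≤ T := by linarith
  have hT0 : 0 < T := by linarith
  have hl0 : 0 < Real.log T := Real.log_pos (by linarith)
  set f : Chr → Finset ℂ := fun c => (zc c (rect (1 - η) T)).filter
    (fun ρ => c.1 = 1 → T ^ (1 / 4 : ℝ) ≤ |ρ.im|) with hf
  set Z : Finset ((_ : Chr) × ℂ) := (PS T).sigma f with hZ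
  set kp : ((_ : Chr) × ℂ) → Chr × ℤ := fun z => (z.1, ⌊z.2.im * Real.log T⌋) with hkp
  set K : Finset (Chr × ℤ) := Z.image kp with hK
  have hNT : (NT1 η T : ℝ) = ∑ z ∈ Z, (mc z.1 z.2 : ℝ) := by
    unfold NT1
    rw [hZ, Finset.sum_sigma]
    push_cast
    rfl
  -- number of classes
  have hcard : ∀ K' : Finset (Chr × ℤ), K' ⊆ K →
      (∀ k ∈ K', ∀ k' ∈ K', k ≠ k' → k.1 = k'.1 → 2 ≤ |k.2 - k'.2|) →
      (K'.card : ℝ) ≤ C₁ * T ^ (C₁ * η) := by
    intro K' hsub hsp
    have hch : ∀ k : {k // k ∈ K'}, ∃ z ∈ Z, kp z = k.1 := by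
      intro k
      have h4 := hsub k.2
      rw [hK, Finset.mem_image] at h4
      exact h4
    choose z hz hzk using hch
    have hzc : ∀ k : {k // k ∈ K'}, (z k).1 ∈ PS T ∧ (z k).2 ∈ f (z k).1 := by
      intro k
      have h4 := hz k
      rw [hZ, Finset.mem_sigma] at h4
      exact h4
    have hk1 : ∀ k : {k // k ∈ K'}, (z k).1 = k.1.1 := fun k => congrArg Prod.fst (hzk k)
    have hk2 : ∀ k : {k // k ∈ K'}, ⌊(z k).2.im * Real.log T⌋ = k.1.2 :=
      fun k => congrArg Prod.snd (hzk k)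
    have hne : ∀ k : {k // k ∈ K'}, NeZero ((z k).1).1 :=
      fun k => ⟨(n1_PS hT0.le (hzc k).1).1⟩
    have hzero : ∀ k : {k // k ∈ K'}, (z k).2 ∈ rect (1 - η) T ∧ Lf ((z k).1).2 (z k).2 = 0 ∧
        (((z k).1).1 = 1 → T ^ (1 / 4 : ℝ) ≤ |(z k).2.im|) := by
      intro k
      have h4 := (hzc k).2
      rw [hf, Finset.mem_filter, n1_zc, mem_zs _ (rect_bounded _ _)] at h4
      exact ⟨h4.1.1, h4.1.2, h4.2⟩
    have h5 := hD T hTT₁ η hη hη1 {k // k ∈ K'} (fun k => (z k).1) (fun k => (z k).2)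
      (fun k => (n1_PS hT0.le (hzc k).1).2.1) (fun k => (hzero k).1) (fun k => (hzero k).2.1)
      ?_ ?_ ?_
    · rw [Fintype.card_coe] at h5
      exact h5
    · intro k hk
      apply (hzero k).2.2
      have h6 := (n1_PS hT0.le (hzc k).1).2.2
      rw [hk] at h6
      rw [DirichletCharacter.isPrimitive_def, DirichletCharacter.conductor_one] at h6
      exact h6.symm
    · intro i j hij
      by_contra h6
      exact hij (h3 _ _ _ _ (n1_PS hT0.le (hzc i).1).2.2 (n1_PS hT0.le (hzc j).1).2.2 h6)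
    · intro i j hij hc
      have h6 : i.1 ≠ j.1 := fun h => hij (Subtype.ext h)
      have h7 : i.1.1 = j.1.1 := by
        rw [← hk1 i, ← hk1 j]
        exact hc
      have h8 := hsp i.1 i.2 j.1 j.2 h6 h7
      rw [← hk2 i, ← hk2 j] at h8
      have a1 := Int.floor_le ((z i).2.im * Real.log T)
      have a2 := Int.lt_floor_add_one ((z i).2.im * Real.log T)
      have b1 := Int.floor_le ((z j).2.im * Real.log T)
      have b2 := Int.lt_floor_add_one ((z j).2.im * Real.log T)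
      have h9 : (2 : ℝ) ≤ |((⌊(z i).2.im * Real.log T⌋ : ℤ) : ℝ) -
          ((⌊(z j).2.im * Real.log T⌋ : ℤ) : ℝ)| := by exact_mod_cast h8
      have h10 : 1 ≤ |(z i).2.im * Real.log T - (z j).2.im * Real.log T| := by
        rcases le_abs.mp h9 with h11 | h11
        · refine le_trans ?_ (le_abs_self _)
          linarith
        · refine le_trans ?_ (neg_le_abs _)
          linarith
      rw [← sub_mul, abs_mul, abs_of_pos hl0] at h10
      rw [div_le_iff₀ hl0]
      exact h10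
  have hcardK : (K.card : ℝ) ≤ 2 * (C₁ * T ^ (C₁ * η)) := by
    have h4 := Finset.card_filter_add_card_filter_not (s := K) (fun k : Chr × ℤ => k.2 % 2 = 0)
    have h5 := hcard (K.filter (fun k => k.2 % 2 = 0)) (Finset.filter_subset _ _) (by
      intro k hk k' hk' hne heq
      rw [Finset.mem_filter] at hk hk'
      have h6 : k.2 ≠ k'.2 := fun h => hne (Prod.ext heq h)
      rw [le_abs]
      omega)
    have h6 := hcard (K.filter (fun k => ¬ k.2 % 2 = 0)) (Finset.filter_subset _ _) (by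
      intro k hk k' hk' hne heq
      rw [Finset.mem_filter] at hk hk'
      have h6 : k.2 ≠ k'.2 := fun h => hne (Prod.ext heq h)
      rw [le_abs]
      omega)
    rw [← h4]
    push_cast
    linarith
  -- mass of a class
  have hmass : ∀ k ∈ K, ∑ z ∈ Z.filter (fun z => kp z = k), (mc z.1 z.2 : ℝ) ≤
      3 * C₂ * T ^ η := by
    intro k hk
    by_cases hkP : k.1 ∈ PS T
    · obtain ⟨hq0, hqT, hprim⟩ := n1_PS hT0.le hkP
      have : NeZero k.1.1 := ⟨hq0⟩
      have hq2 : ((k.1.1 : ℕ) : ℝ) ≤ T ^ 2 := by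
        refine hqT.trans ?_
        calc T = T * 1 := (mul_one T).symm
          _ ≤ T * T := mul_le_mul_of_nonneg_left hT1 hT0.le
          _ = T ^ 2 := by ring
      have h4 := n1_class (C := C₂) (T := T) (η := η) hC₂ hT20 hη hη1 k.1.2
        (hN T hT2 k.1.1 k.1.2 hq2) k.2
        ((f k.1).filter (fun ρ => ⌊ρ.im * Real.log T⌋ = k.2)) (by
          intro ρ hρ
          rw [Finset.mem_filter] at hρ
          refine ⟨?_, hρ.2⟩
          have h5 := hρ.1
          rw [hf, Finset.mem_filter, n1_zc] at h5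
          exact h5.1)
      refine le_trans (le_of_eq ?_) h4
      refine Finset.sum_bij' (fun z _ => z.2) (fun ρ _ => (⟨k.1, ρ⟩ : (_ : Chr) × ℂ))
        ?_ ?_ ?_ ?_ ?_
      · intro z hz
        rw [Finset.mem_filter, hZ, Finset.mem_sigma] at hz
        have h5 : z.1 = k.1 := congrArg Prod.fst hz.2
        have h6 : ⌊z.2.im * Real.log T⌋ = k.2 := congrArg Prod.snd hz.2
        rw [Finset.mem_filter, ← h5]
        exact ⟨hz.1.2, h6⟩
      · intro ρ hρ
        rw [Finset.mem_filter] at hρ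
        rw [Finset.mem_filter, hZ, Finset.mem_sigma]
        refine ⟨⟨hkP, hρ.1⟩, ?_⟩
        rw [hkp]
        exact Prod.ext rfl hρ.2
      · intro z hz
        rw [Finset.mem_filter] at hz
        have h5 : z.1 = k.1 := congrArg Prod.fst hz.2
        obtain ⟨z1, z2⟩ := z
        simp only at h5
        subst h5
        rfl
      · intro ρ _
        rfl
      · intro z hz
        rw [Finset.mem_filter] at hz
        have h5 : z.1 = k.1 := congrArg Prod.fst hz.2
        rw [h5, n1_mc]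
    · have h4 : Z.filter (fun z => kp z = k) = ∅ := by
        rw [Finset.filter_eq_empty_iff]
        intro z hz h5
        rw [hZ, Finset.mem_sigma] at hz
        apply hkP
        have h6 : z.1 = k.1 := congrArg Prod.fst h5
        rw [← h6]
        exact hz.1
      rw [h4, Finset.sum_empty]
      have : 0 < T ^ η := Real.rpow_pos_of_pos hT0 η
      positivity
  have hTη : 0 < T ^ η := Real.rpow_pos_of_pos hT0 η
  have hfin : (NT1 η T : ℝ) ≤ (2 * (C₁ * T ^ (C₁ * η))) * (3 * C₂ * T ^ η) := by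
    rw [hNT, ← Finset.sum_fiberwise_of_maps_to (s := Z) (t := K) (g := kp)
      (fun z hz => Finset.mem_image_of_mem kp hz)]
    refine (Finset.sum_le_card_nsmul _ _ _ hmass).trans ?_
    rw [nsmul_eq_mul]
    exact mul_le_mul_of_nonneg_right hcardK (by positivity)
  refine hfin.trans ?_
  have h4 : (2 * (C₁ * T ^ (C₁ * η))) * (3 * C₂ * T ^ η) =
      6 * C₁ * C₂ * T ^ ((C₁ + 1) * η) := by
    have h5 : T ^ ((C₁ + 1) * η) = T ^ (C₁ * η) * T ^ η := by
      rw [← Real.rpow_add hT0]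
      congr 1
      ring
    rw [h5]
    ring
  rw [h4]
  have h6 : T ^ ((C₁ + 1) * η) ≤ T ^ ((6 * C₁ * C₂ + C₁ + 1) * η) := by
    refine Real.rpow_le_rpow_of_exponent_le hT1 ?_
    refine mul_le_mul_of_nonneg_right ?_ hη
    have : 0 ≤ 6 * C₁ * C₂ := by positivity
    linarith
  refine mul_le_mul ?_ h6 (Real.rpow_nonneg hT0.le _) (by positivity)
  linarith

end Pool.Agent.MVX
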