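import Pool.Agent.MVX.StD

set_option autoImplicit false

/-!
# Project MVX, NTt: the number of all zeros near the line `Re s = 1`
-/

namespace Pool.Agent.MVX

open Finset

/-- the trivial character -/
noncomputable def ntt_one : Chr := ⟨1, 1⟩

/-- the number of zeros of `ζ` in the rectangle -/
noncomputable def ntt_Z (η T : ℝ) : ℕ := ∑ ρ ∈ zc ntt_one (rect (1 - η) T), mc ntt_one ρ

theorem ntt_mem_zc (K : Set ℂ) (hK : Bornology.IsBounded K) (ρ : ℂ) :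
    ρ ∈ zc ntt_one K ↔ ρ ∈ K ∧ Lf (1 : DirichletCharacter ℂ 1) ρ = 0 := by
  unfold zc ntt_one
  rw [dif_neg one_ne_zero]
  exact mem_zs (1 : DirichletCharacter ℂ 1) hK ρ

theorem ntt_zc_mono {K L : Set ℂ} (hL : Bornology.IsBounded L) (h : K ⊆ L) :
    zc ntt_one K ⊆ zc ntt_one L := by
  intro ρ hρ
  rw [ntt_mem_zc K (hL.subset h)] at hρ
  rw [ntt_mem_zc L hL]
  exact ⟨h hρ.1, hρ.2⟩

theorem ntt_rect {a b S T : ℝ} (h : b ≤ a) (h2 : S ≤ T) : rect a S ⊆ rect b T := by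
  intro z hz
  exact ⟨h.trans hz.1, hz.2.1, hz.2.2.trans h2⟩

theorem ntt_Z_mono {η η' S T : ℝ} (h : η ≤ η') (h2 : S ≤ T) : ntt_Z η S ≤ ntt_Z η' T := by
  unfold ntt_Z
  exact sum_le_sum_of_subset (ntt_zc_mono (rect_bounded _ _) (ntt_rect (by linarith) h2))

theorem ntt_one_mem {T : ℝ} (hT : 1 ≤ T) : ntt_one ∈ PS T := by
  unfold PS ntt_one
  rw [mem_sigma, mem_Icc]
  refine ⟨⟨le_rfl, Nat.le_floor (by simpa using hT)⟩, ?_⟩
  exact (mem_prm _).2 DirichletCharacter.isPrimitive_one_level_one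

theorem ntt_Z_le {η T : ℝ} (hT : 1 ≤ T) : ntt_Z η T ≤ NT η T := by
  unfold NT ntt_Z
  exact single_le_sum (f := fun c => ∑ ρ ∈ zc c (rect (1 - η) T), mc c ρ)
    (fun c _ => Nat.zero_le _) (ntt_one_mem hT)

theorem ntt_one_of {c : Chr} (h : c.1 = 1) : c = ntt_one := by
  obtain ⟨q, χ⟩ := c
  subst h
  unfold ntt_one
  rw [DirichletCharacter.level_one χ]

/-- the missing zeros -/
theorem ntt_split {η T : ℝ} : NT η T ≤ NT1 η T + ntt_Z η (T ^ (1 / 4 : ℝ)) := by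
  classical
  have h1 : NT η T = NT1 η T + ∑ c ∈ PS T, ∑ ρ ∈ (zc c (rect (1 - η) T)).filter
      (fun ρ => ¬ (c.1 = 1 → T ^ (1 / 4 : ℝ) ≤ |ρ.im|)), mc c ρ := by
    unfold NT NT1
    rw [← sum_add_distrib]
    refine sum_congr rfl fun c _ => ?_
    exact (sum_filter_add_sum_filter_not _ _ _).symm
  rw [h1]
  apply Nat.add_le_add_left
  have h2 : ∀ c ∈ PS T, ∑ ρ ∈ (zc c (rect (1 - η) T)).filter
      (fun ρ => ¬ (c.1 = 1 → T ^ (1 / 4 : ℝ) ≤ |ρ.im|)), mc c ρ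
      ≤ if c = ntt_one then ntt_Z η (T ^ (1 / 4 : ℝ)) else 0 := by
    intro c _
    by_cases hc : c = ntt_one
    · rw [if_pos hc]
      subst hc
      unfold ntt_Z
      apply sum_le_sum_of_subset
      intro ρ hρ
      rw [mem_filter, ntt_mem_zc _ (rect_bounded _ _)] at hρ
      rw [ntt_mem_zc _ (rect_bounded _ _)]
      obtain ⟨⟨h3, h4⟩, h5⟩ := hρ
      push Not at h5
      exact ⟨⟨h3.1, h3.2.1, h5.2.le⟩, h4⟩
    · rw [if_neg hc]
      have h3 : (zc c (rect (1 - η) T)).filter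
          (fun ρ => ¬ (c.1 = 1 → T ^ (1 / 4 : ℝ) ≤ |ρ.im|)) = ∅ := by
        apply filter_false_of_mem
        intro ρ _ h4
        push Not at h4
        exact hc (ntt_one_of h4.1)
      rw [h3, sum_empty]
  refine (sum_le_sum h2).trans ?_
  rw [sum_ite_eq']
  split_ifs
  · exact le_rfl
  · exact Nat.zero_le _

/-- no zeros of `ζ` very close to the line -/
theorem ntt_zero {c₀ T : ℝ} {η : ℝ} (hT : 1 ≤ T)
    (h : ∀ (q₁ : ℕ) [NeZero q₁] (χ₁ : DirichletCharacter ℂ q₁), χ₁.IsPrimitive → (q₁ : ℝ) ≤ T →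
      ∀ ρ₁ ∈ rect (1 - c₀ / Real.log T) T, Lf χ₁ ρ₁ = 0 → χ₁ ≠ 1)
    (hη : η ≤ c₀ / Real.log T) : ntt_Z η T = 0 := by
  unfold ntt_Z
  have h1 : zc ntt_one (rect (1 - η) T) = ∅ := by
    rw [eq_empty_iff_forall_notMem]
    intro ρ hρ
    rw [ntt_mem_zc _ (rect_bounded _ _)] at hρ
    exact h 1 (1 : DirichletCharacter ℂ 1) DirichletCharacter.isPrimitive_one_level_one
      (by simpa using hT) ρ (ntt_rect (by linarith) le_rfl hρ.1) hρ.2 rfl
  rw [h1, sum_empty]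

theorem ntt_exp {C C₂ y c₀ : ℝ} (hC : 0 < C) (hc₀ : 0 < c₀) (h1 : 2 * C ≤ C₂)
    (h2 : 4 / (3 * c₀) ≤ C₂) (hy : c₀ ≤ y) :
    C * Real.exp (C * y) + C₂ * Real.exp (C₂ * y / 4) ≤ C₂ * Real.exp (C₂ * y) := by
  have hy0 : 0 < y := by linarith
  have hC2 : 0 < C₂ := by linarith
  have h3 : Real.exp (C * y) ≤ Real.exp (C₂ * y) := by
    apply Real.exp_le_exp.2
    apply mul_le_mul_of_nonneg_right _ hy0.le
    linarith
  have h4 : 2 * Real.exp (C₂ * y / 4) ≤ Real.exp (C₂ * y) := by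
    have h5 : Real.exp (C₂ * y) = Real.exp (3 * C₂ * y / 4) * Real.exp (C₂ * y / 4) := by
      rw [← Real.exp_add]
      congr 1
      ring
    rw [h5]
    apply mul_le_mul_of_nonneg_right _ (Real.exp_pos _).le
    have h6 : 1 ≤ 3 * C₂ * y / 4 := by
      rw [div_le_iff₀ (by linarith)] at h2
      have h7 : C₂ * c₀ ≤ C₂ * y := mul_le_mul_of_nonneg_left hy hC2.le
      nlinarith
    have h8 := Real.add_one_le_exp (3 * C₂ * y / 4)
    linarith
  have h9 : C * Real.exp (C * y) ≤ C₂ / 2 * Real.exp (C₂ * y) := by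
    apply mul_le_mul _ h3 (Real.exp_pos _).le (by linarith)
    linarith
  have h10 : C₂ * Real.exp (C₂ * y / 4) ≤ C₂ / 2 * Real.exp (C₂ * y) := by
    have := mul_le_mul_of_nonneg_left h4 (by linarith : (0 : ℝ) ≤ C₂ / 2)
    linarith
  linarith

theorem thm_NTt (h1 : St_N1) (h2 : St_Exc) : St_NTt := by
  obtain ⟨C, T₁, hC, hT₁, hN⟩ := h1
  obtain ⟨c₀, T₂, hc₀, hc₁, hT₂, hE⟩ := h2
  set T₃ : ℝ := max T₁ T₂ with hT₃
  have hT₃2 : 2 ≤ T₃ := hT₁.trans (le_max_left _ _)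
  set C₂ : ℝ := 2 * C + 4 / (3 * c₀) + (ntt_Z (1 / 400) T₃ : ℝ) with hC₂
  have hp : 0 < 4 / (3 * c₀) := by positivity
  have hK0 : (0 : ℝ) ≤ (ntt_Z (1 / 400) T₃ : ℝ) := Nat.cast_nonneg _
  have hC₂0 : 0 < C₂ := by linarith
  have key : ∀ n : ℕ, ∀ T : ℝ, 1 ≤ T → T ≤ T₃ ^ ((4 : ℝ) ^ n) → ∀ η : ℝ, 0 ≤ η → η ≤ 1 / 400 →
      (ntt_Z η T : ℝ) ≤ C₂ * T ^ (C₂ * η) := by
    intro n
    induction n with
    | zero =>
      intro T hT1 hT η h0 h400
      rw [pow_zero, Real.rpow_one] at hT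
      have h3 : (ntt_Z η T : ℝ) ≤ (ntt_Z (1 / 400) T₃ : ℝ) := by
        exact_mod_cast ntt_Z_mono h400 hT
      have h4 : (1 : ℝ) ≤ T ^ (C₂ * η) := Real.one_le_rpow hT1 (by positivity)
      calc (ntt_Z η T : ℝ) ≤ C₂ := by linarith
        _ ≤ C₂ * T ^ (C₂ * η) := le_mul_of_one_le_right hC₂0.le h4
    | succ n ih =>
      intro T hT1 hT η h0 h400
      rcases le_total T T₃ with hle | hge
      · have h3 : (ntt_Z η T : ℝ) ≤ (ntt_Z (1 / 400) T₃ : ℝ) := by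
          exact_mod_cast ntt_Z_mono h400 hle
        have h4 : (1 : ℝ) ≤ T ^ (C₂ * η) := Real.one_le_rpow hT1 (by positivity)
        calc (ntt_Z η T : ℝ) ≤ C₂ := by linarith
          _ ≤ C₂ * T ^ (C₂ * η) := le_mul_of_one_le_right hC₂0.le h4
      · have hT0 : 0 < T := by linarith
        have hlog : 0 < Real.log T := Real.log_pos (by linarith)
        have hTT1 : T₁ ≤ T := (le_max_left _ _).trans hge
        have hTT2 : T₂ ≤ T := (le_max_right _ _).trans hge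
        rcases le_total η (c₀ / Real.log T) with hs | hb
        · rw [ntt_zero hT1 (fun q _ χ hχ hq ρ hρ hL => (hE T hTT2 q χ hχ hq ρ hρ hL).1) hs]
          rw [Nat.cast_zero]
          positivity
        · have hy : c₀ ≤ η * Real.log T := by
            rwa [div_le_iff₀ hlog] at hb
          have h5 : (ntt_Z η T : ℝ) ≤ NT1 η T + ntt_Z η (T ^ (1 / 4 : ℝ)) := by
            exact_mod_cast (ntt_Z_le hT1).trans ntt_split
          have h6 := hN T hTT1 η h0 h400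
          have h7 : T ^ (1 / 4 : ℝ) ≤ T₃ ^ ((4 : ℝ) ^ n) := by
            have h8 : T₃ ^ ((4 : ℝ) ^ n) = (T₃ ^ ((4 : ℝ) ^ (n + 1))) ^ (1 / 4 : ℝ) := by
              rw [← Real.rpow_mul (by linarith)]
              congr 1
              rw [pow_succ]
              ring
            rw [h8]
            exact Real.rpow_le_rpow hT0.le hT (by norm_num)
          have h8 : (1 : ℝ) ≤ T ^ (1 / 4 : ℝ) := Real.one_le_rpow hT1 (by norm_num)
          have h9 := ih (T ^ (1 / 4 : ℝ)) h8 h7 η h0 h400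
          have h10 : T ^ (C * η) = Real.exp (C * (η * Real.log T)) := by
            rw [Real.rpow_def_of_pos hT0]
            congr 1
            ring
          have h11 : (T ^ (1 / 4 : ℝ)) ^ (C₂ * η) = Real.exp (C₂ * (η * Real.log T) / 4) := by
            rw [← Real.rpow_mul hT0.le, Real.rpow_def_of_pos hT0]
            congr 1
            ring
          have h12 : T ^ (C₂ * η) = Real.exp (C₂ * (η * Real.log T)) := by
            rw [Real.rpow_def_of_pos hT0]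
            congr 1
            ring
          rw [h10] at h6
          rw [h11] at h9
          rw [h12]
          have h13 := ntt_exp (C := C) (C₂ := C₂) (y := η * Real.log T) (c₀ := c₀) hC hc₀
            (by linarith) (by linarith) hy
          linarith
  have hall : ∀ T : ℝ, 1 ≤ T → ∀ η : ℝ, 0 ≤ η → η ≤ 1 / 400 →
      (ntt_Z η T : ℝ) ≤ C₂ * T ^ (C₂ * η) := by
    intro T hT1
    obtain ⟨n, hn⟩ := pow_unbounded_of_one_lt T (by norm_num : (1 : ℝ) < 2)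
    refine key n T hT1 (hn.le.trans ?_)
    have h3 : (n : ℝ) ≤ (4 : ℝ) ^ n := by
      have : n < 4 ^ n := Nat.lt_pow_self (by norm_num)
      exact_mod_cast this.le
    calc (2 : ℝ) ^ n = (2 : ℝ) ^ (n : ℝ) := (Real.rpow_natCast _ _).symm
      _ ≤ (2 : ℝ) ^ ((4 : ℝ) ^ n) := Real.rpow_le_rpow_of_exponent_le (by norm_num) h3
      _ ≤ T₃ ^ ((4 : ℝ) ^ n) := Real.rpow_le_rpow (by norm_num) hT₃2 (by positivity)
  refine ⟨C + C₂, T₁, by linarith, hT₁, ?_⟩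
  intro T hT η h0 h400
  have hT1 : 1 ≤ T := by linarith
  have hT0 : 0 < T := by linarith
  have h5 : (NT η T : ℝ) ≤ NT1 η T + ntt_Z η (T ^ (1 / 4 : ℝ)) := by
    exact_mod_cast ntt_split
  have h6 := hN T hT η h0 h400
  have h8 : (1 : ℝ) ≤ T ^ (1 / 4 : ℝ) := Real.one_le_rpow hT1 (by norm_num)
  have h9 := hall (T ^ (1 / 4 : ℝ)) h8 η h0 h400
  have h10 : T ^ (C * η) ≤ T ^ ((C + C₂) * η) := by
    apply Real.rpow_le_rpow_of_exponent_le hT1
    nlinarith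
  have h11 : (T ^ (1 / 4 : ℝ)) ^ (C₂ * η) ≤ T ^ ((C + C₂) * η) := by
    rw [← Real.rpow_mul hT0.le]
    apply Real.rpow_le_rpow_of_exponent_le hT1
    nlinarith [mul_nonneg hC₂0.le h0, mul_nonneg hC.le h0]
  calc (NT η T : ℝ) ≤ C * T ^ (C * η) + C₂ * (T ^ (1 / 4 : ℝ)) ^ (C₂ * η) := by linarith
    _ ≤ C * T ^ ((C + C₂) * η) + C₂ * T ^ ((C + C₂) * η) :=
        add_le_add (mul_le_mul_of_nonneg_left h10 hC.le) (mul_le_mul_of_nonneg_left h11 hC₂0.le)
    _ = (C + C₂) * T ^ ((C + C₂) * η) := by ring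

end Pool.Agent.MVX
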