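import Pool.Agent.MVX.PerK

set_option autoImplicit false

/-!
# Project MVX, L-core: Perron's formula for `1/(s - ρ)`
-/

namespace Pool.Agent.MVX

open MeasureTheory Set Complex

/-- `1/(s-ρ)` as an integral -/
lemma perr_inv {ρ s : ℂ} (h : ρ.re < s.re) :
    ∫ y : ℝ in Ioi (1 : ℝ), (y : ℂ) ^ (ρ - 1 - s) = (s - ρ)⁻¹ := by
  have h1 : (ρ - 1 - s).re < -1 := by
    simp only [sub_re, one_re]
    linarith
  rw [integral_Ioi_cpow_of_lt h1 one_pos]
  have h2 : s - ρ ≠ 0 := by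
    intro h3
    have := congrArg Complex.re h3
    rw [sub_re, zero_re] at this
    linarith
  have h3 : ρ - 1 - s + 1 = -(s - ρ) := by ring
  rw [h3, ofReal_one, one_cpow, neg_div_neg_eq, one_div]

lemma perr_scale {σ x : ℝ} (hx : 0 < x) (t : ℝ) {y : ℝ} (hy : 0 < y) :
    (y : ℂ) ^ (-((σ : ℂ) + t * I)) * ker x σ t = y * ker (x / y) σ t := by
  have hyc : (y : ℂ) ≠ 0 := by exact_mod_cast hy.ne'
  have hq : 0 < x / y := div_pos hx hy
  unfold ker
  have h1 : (x : ℂ) = ((x / y : ℝ) : ℂ) * (y : ℂ) := by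
    push_cast
    field_simp
  have h2 : (x : ℂ) ^ ((σ : ℂ) + t * I + 1) =
      ((x / y : ℝ) : ℂ) ^ ((σ : ℂ) + t * I + 1) * (((y : ℂ) ^ ((σ : ℂ) + t * I)) * y) := by
    rw [h1, mul_cpow_ofReal_nonneg hq.le hy.le, cpow_add _ _ hyc, cpow_one]
  rw [h2, cpow_neg]
  have h3 : (y : ℂ) ^ ((σ : ℂ) + t * I) ≠ 0 := by
    rw [Ne, cpow_eq_zero_iff]
    exact fun h => hyc h.1
  field_simp

lemma perr_poly {ρ : ℂ} (hρ : 0 < ρ.re) {x : ℝ} (hx : 1 ≤ x) :
    ∫ y : ℝ in Ioi (1 : ℝ), (y : ℂ) ^ (ρ - 1) * ((max (x - y) 0 : ℝ) : ℂ) =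
      (x : ℂ) ^ (ρ + 1) / (ρ * (ρ + 1)) - x / ρ + 1 / (ρ + 1) := by
  have hρ0 : ρ ≠ 0 := by
    intro h
    rw [h] at hρ
    simp at hρ
  have hρ1 : ρ + 1 ≠ 0 := by
    intro h
    have := congrArg Complex.re h
    rw [add_re, one_re, zero_re] at this
    linarith
  have hxc : (x : ℂ) ≠ 0 := by
    have : x ≠ 0 := by linarith
    exact_mod_cast this
  have h1 : ∫ y : ℝ in Ioi (1 : ℝ), (y : ℂ) ^ (ρ - 1) * ((max (x - y) 0 : ℝ) : ℂ) =
      ∫ y : ℝ in Ioc 1 x, (y : ℂ) ^ (ρ - 1) * ((max (x - y) 0 : ℝ) : ℂ) := by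
    apply setIntegral_eq_of_subset_of_forall_sdiff_eq_zero measurableSet_Ioi
      (Ioc_subset_Ioi_self)
    intro y hy
    have : x < y := by
      by_contra h
      exact hy.2 ⟨hy.1, not_lt.1 h⟩
    rw [max_eq_right (by linarith)]
    simp
  rw [h1, ← intervalIntegral.integral_of_le hx]
  have h2 : ∫ y : ℝ in (1 : ℝ)..x, (y : ℂ) ^ (ρ - 1) * ((max (x - y) 0 : ℝ) : ℂ) =
      ∫ y : ℝ in (1 : ℝ)..x, ((x : ℂ) * (y : ℂ) ^ (ρ - 1) - (y : ℂ) ^ ρ) := by
    apply intervalIntegral.integral_congr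
    intro y hy
    rw [uIcc_of_le hx] at hy
    have hy0 : (y : ℂ) ≠ 0 := by
      have : y ≠ 0 := by linarith [hy.1]
      exact_mod_cast this
    show (y : ℂ) ^ (ρ - 1) * ((max (x - y) 0 : ℝ) : ℂ) = (x : ℂ) * (y : ℂ) ^ (ρ - 1) - (y : ℂ) ^ ρ
    rw [max_eq_left (by linarith [hy.2])]
    have : (y : ℂ) ^ ρ = (y : ℂ) ^ (ρ - 1) * y := by
      nth_rewrite 1 [show ρ = (ρ - 1) + 1 by ring]
      rw [cpow_add _ _ hy0, cpow_one]
    rw [this]
    push_cast
    ring
  have hi1 : IntervalIntegrable (fun y : ℝ => (y : ℂ) ^ (ρ - 1)) volume 1 x :=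
    intervalIntegral.intervalIntegrable_cpow' (by simp; linarith)
  have hi2 : IntervalIntegrable (fun y : ℝ => (y : ℂ) ^ ρ) volume 1 x :=
    intervalIntegral.intervalIntegrable_cpow' (by linarith)
  rw [h2, intervalIntegral.integral_sub (hi1.const_mul _) hi2,
    intervalIntegral.integral_const_mul, integral_cpow (Or.inl (by simp; linarith)),
    integral_cpow (Or.inl (by linarith))]
  have h3 : (x : ℂ) ^ (ρ + 1) = (x : ℂ) ^ ρ * x := by rw [cpow_add _ _ hxc, cpow_one]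
  rw [sub_add_cancel, h3]
  simp only [ofReal_one, one_cpow]
  field_simp
  ring

theorem thm_PerR : St_PerR := by
  intro ρ σ x hσ hρ hρσ hx
  have hx0 : 0 < x := by linarith
  have hs : ∀ t : ℝ, ρ.re < ((σ : ℂ) + t * I).re := by
    intro t
    rw [perk_re]
    exact hρσ
  have hne : ∀ t : ℝ, (σ : ℂ) + t * I - ρ ≠ 0 := by
    intro t h
    have := congrArg Complex.re h
    rw [sub_re, perk_re, zero_re] at this
    linarith
  constructor
  · have hc : Continuous (fun t : ℝ => ((σ : ℂ) + t * I - ρ)⁻¹) :=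
      Continuous.inv₀ (by fun_prop) hne
    refine (perk_ker_int hσ hx0).bdd_mul (c := (σ - ρ.re)⁻¹) hc.aestronglyMeasurable
      (Filter.Eventually.of_forall fun t => ?_)
    rw [norm_inv]
    apply inv_anti₀ (by linarith)
    have := Complex.abs_re_le_norm ((σ : ℂ) + t * I - ρ)
    rw [sub_re, perk_re] at this
    exact (le_abs_self _).trans this
  · set F : ℝ → ℝ → ℂ := fun t y => (y : ℂ) ^ (ρ - 1 - ((σ : ℂ) + t * I)) * ker x σ t with hF
    have e1 : ∀ t : ℝ, ((σ : ℂ) + t * I - ρ)⁻¹ * ker x σ t = ∫ y in Ioi (1 : ℝ), F t y := by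
      intro t
      rw [hF]
      show _ = ∫ y : ℝ in Ioi (1 : ℝ), (y : ℂ) ^ (ρ - 1 - ((σ : ℂ) + t * I)) * ker x σ t
      rw [integral_mul_const, perr_inv (hs t)]
    have e2 : ∀ y ∈ Ioi (1 : ℝ), ∫ t : ℝ, F t y =
        2 * Real.pi * ((y : ℂ) ^ (ρ - 1) * ((max (x - y) 0 : ℝ) : ℂ)) := by
      intro y hy
      have hy0 : 0 < y := lt_trans one_pos hy
      have hyc : (y : ℂ) ≠ 0 := by exact_mod_cast hy0.ne'
      have e3 : ∀ t : ℝ, F t y = (y : ℂ) ^ (ρ - 1) * y * ker (x / y) σ t := by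
        intro t
        rw [hF]
        show (y : ℂ) ^ (ρ - 1 - ((σ : ℂ) + t * I)) * ker x σ t = _
        rw [show ρ - 1 - ((σ : ℂ) + t * I) = (ρ - 1) + (-((σ : ℂ) + t * I)) by ring,
          cpow_add _ _ hyc, mul_assoc, perr_scale hx0 t hy0]
        ring
      simp only [e3]
      rw [integral_const_mul, perk_main hσ (div_pos hx0 hy0)]
      have e4 : max (x - y) 0 = y * max (x / y - 1) 0 := by
        rw [mul_max_of_nonneg _ _ hy0.le, mul_zero]
        congr 1
        field_simp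
      rw [e4]
      push_cast
      ring
    -- absolute convergence
    have hint : Integrable (Function.uncurry F) (volume.prod (volume.restrict (Ioi (1 : ℝ)))) := by
      have hg : Integrable (fun y : ℝ => y ^ (ρ.re - 1 - σ)) (volume.restrict (Ioi (1 : ℝ))) :=
        integrableOn_Ioi_rpow_of_lt (by linarith) one_pos
      have hd := (perk_ker_int hσ hx0).norm.mul_prod hg
      refine Integrable.mono' hd ?_ ?_
      · apply Measurable.aestronglyMeasurable
        have hk : Measurable (fun p : ℝ × ℝ => ker x σ p.1) :=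
          (perk_cont hσ hx0).measurable.comp measurable_fst
        apply Measurable.mul _ hk
        apply Measurable.pow
        · exact Complex.measurable_ofReal.comp measurable_snd
        · exact (by fun_prop : Continuous fun p : ℝ × ℝ =>
            ρ - 1 - ((σ : ℂ) + p.1 * I)).measurable
      · have hae : ∀ᵐ p : ℝ × ℝ ∂(volume.prod (volume.restrict (Ioi (1 : ℝ)))), p.2 ∈ Ioi (1 : ℝ) := by
          have := (ae_restrict_mem (μ := (volume : Measure ℝ)) (measurableSet_Ioi (a := (1 : ℝ))))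
          exact (Measure.quasiMeasurePreserving_snd (μ := (volume : Measure ℝ))
            (ν := volume.restrict (Ioi (1 : ℝ)))).ae this
        filter_upwards [hae] with p hp
        have hp0 : 0 < p.2 := lt_trans one_pos hp
        show ‖(p.2 : ℂ) ^ (ρ - 1 - ((σ : ℂ) + p.1 * I)) * ker x σ p.1‖ ≤
          ‖ker x σ p.1‖ * p.2 ^ (ρ.re - 1 - σ)
        rw [norm_mul, Complex.norm_cpow_eq_rpow_re_of_pos hp0, mul_comm]
        apply le_of_eq
        congr 2
        simp
    simp only [e1]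
    rw [integral_integral_swap hint, setIntegral_congr_fun measurableSet_Ioi e2,
      integral_const_mul, perr_poly hρ hx]

end Pool.Agent.MVX
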