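import Pool.Agent.MVX.PerK

set_option autoImplicit false

/-!
# Project MVX, L-core: Perron's formula for Dirichlet series
-/

namespace Pool.Agent.MVX

open MeasureTheory Set Complex

lemma pers_norm (σ t : ℝ) {n : ℕ} (hn : 0 < n) :
    ‖(n : ℂ) ^ (-((σ : ℂ) + t * I))‖ = (n : ℝ) ^ (-σ) := by
  rw [Complex.norm_natCast_cpow_of_pos hn]
  congr 1
  simp

lemma pers_term (a : ℕ → ℂ) (ha : a 0 = 0) (σ t : ℝ) (n : ℕ) :
    ‖a n * (n : ℂ) ^ (-((σ : ℂ) + t * I))‖ = ‖a n‖ * (n : ℝ) ^ (-σ) := by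
  rcases Nat.eq_zero_or_pos n with rfl | hn
  · rw [ha]
    simp
  · rw [norm_mul, pers_norm σ t hn]

lemma pers_scale {σ : ℝ} {x : ℝ} (hx : 0 < x) (t : ℝ) {n : ℕ} (hn : 0 < n) :
    (n : ℂ) ^ (-((σ : ℂ) + t * I)) * ker x σ t = n * ker (x / n) σ t := by
  have hn' : (0 : ℝ) < n := by exact_mod_cast hn
  have hnc : (n : ℂ) ≠ 0 := by exact_mod_cast hn.ne'
  have hq : 0 < x / n := div_pos hx hn'
  unfold ker
  have h1 : (x : ℂ) = ((x / n : ℝ) : ℂ) * ((n : ℝ) : ℂ) := by
    push_cast
    field_simp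
  have h2 : (x : ℂ) ^ ((σ : ℂ) + t * I + 1) =
      ((x / n : ℝ) : ℂ) ^ ((σ : ℂ) + t * I + 1) * (((n : ℂ) ^ ((σ : ℂ) + t * I)) * n) := by
    rw [h1, mul_cpow_ofReal_nonneg hq.le hn'.le, ofReal_natCast, cpow_add _ _ hnc, cpow_one]
  rw [h2, cpow_neg]
  have h3 : (n : ℂ) ^ ((σ : ℂ) + t * I) ≠ 0 := by
    rw [Ne, cpow_eq_zero_iff]
    exact fun h => hnc h.1
  field_simp

theorem thm_PerS : St_PerS := by
  intro a σ x hσ hx ha hsum
  -- the Dirichlet series on the line
  have hDc : Continuous (fun t : ℝ => ∑' n : ℕ, a n * (n : ℂ) ^ (-((σ : ℂ) + t * I))) := by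
    apply continuous_tsum (u := fun n : ℕ => ‖a n‖ * (n : ℝ) ^ (-σ)) _ hsum
    · intro n t
      exact (pers_term a ha σ t n).le
    · intro n
      rcases Nat.eq_zero_or_pos n with rfl | hn
      · simp only [ha, zero_mul]
        exact continuous_const
      · apply Continuous.mul continuous_const
        apply Continuous.const_cpow (by fun_prop)
        left
        exact_mod_cast hn.ne'
  have hDb : ∀ t : ℝ, ‖∑' n : ℕ, a n * (n : ℂ) ^ (-((σ : ℂ) + t * I))‖ ≤
      ∑' n : ℕ, ‖a n‖ * (n : ℝ) ^ (-σ) := by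
    intro t
    apply tsum_of_norm_bounded hsum.hasSum
    intro n
    exact (pers_term a ha σ t n).le
  refine ⟨(perk_ker_int hσ hx).bdd_mul hDc.aestronglyMeasurable
    (Filter.Eventually.of_forall hDb), ?_⟩
  -- exchange of sum and integral
  set F : ℕ → ℝ → ℂ := fun n t => a n * (n : ℂ) ^ (-((σ : ℂ) + t * I)) * ker x σ t with hF
  have hFn : ∀ n t, ‖F n t‖ = ‖a n‖ * (n : ℝ) ^ (-σ) * ‖ker x σ t‖ := by
    intro n t
    rw [hF]
    show ‖a n * (n : ℂ) ^ (-((σ : ℂ) + t * I)) * ker x σ t‖ = _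
    rw [norm_mul, pers_term a ha σ t n]
  have hFi : ∀ n, Integrable (F n) := by
    intro n
    refine Integrable.mono' ((perk_ker_int hσ hx).norm.const_mul (‖a n‖ * (n : ℝ) ^ (-σ))) ?_
      (Filter.Eventually.of_forall fun t => (hFn n t).le)
    rcases Nat.eq_zero_or_pos n with rfl | hn
    · simp only [hF, ha, zero_mul]
      exact aestronglyMeasurable_const
    · apply Continuous.aestronglyMeasurable
      apply Continuous.mul _ (perk_cont hσ hx)
      apply Continuous.mul continuous_const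
      apply Continuous.const_cpow (by fun_prop)
      left
      exact_mod_cast hn.ne'
  have hFs : Summable fun n => ∫ t, ‖F n t‖ := by
    simp only [hFn]
    simp only [integral_const_mul]
    exact hsum.mul_right _
  have h1 := (hasSum_integral_of_summable_integral_norm hFi hFs).tsum_eq
  have h2 : ∀ t : ℝ, (∑' n : ℕ, a n * (n : ℂ) ^ (-((σ : ℂ) + t * I))) * ker x σ t =
      ∑' n, F n t := by
    intro t
    rw [hF, tsum_mul_right]
  have h3 : ∀ n, ∫ t, F n t = 2 * Real.pi * (((max (x - n) 0 : ℝ) : ℂ) * a n) := by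
    intro n
    rcases Nat.eq_zero_or_pos n with rfl | hn
    · simp [hF, ha]
    · have hn' : (0 : ℝ) < n := by exact_mod_cast hn
      have e : ∀ t, F n t = a n * n * ker (x / n) σ t := by
        intro t
        rw [hF]
        show a n * (n : ℂ) ^ (-((σ : ℂ) + t * I)) * ker x σ t = _
        rw [mul_assoc, pers_scale hx t hn]
        ring
      simp only [e]
      rw [integral_const_mul, perk_main hσ (div_pos hx hn')]
      have e2 : max (x - n) 0 = n * max (x / n - 1) 0 := by
        rw [mul_max_of_nonneg _ _ hn'.le, mul_zero]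
        congr 1
        field_simp
      rw [e2]
      push_cast
      ring
  simp only [h2]
  rw [← h1]
  simp only [h3]
  rw [tsum_mul_left]
  congr 1
  rw [tsum_eq_sum (s := Finset.Icc 1 ⌊x⌋₊)]
  · apply Finset.sum_congr rfl
    intro n hn
    have : (n : ℝ) ≤ x := by
      have := (Finset.mem_Icc.1 hn).2
      exact (Nat.le_floor_iff hx.le).1 this
    rw [max_eq_left (by linarith)]
    push_cast
    ring
  · intro n hn
    rcases Nat.eq_zero_or_pos n with rfl | hn0
    · rw [ha, mul_zero]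
    · have : x < n := by
        by_contra h
        apply hn
        exact Finset.mem_Icc.2 ⟨hn0, (Nat.le_floor_iff hx.le).2 (not_lt.1 h)⟩
      rw [max_eq_right (by linarith)]
      simp

end Pool.Agent.MVX
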