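import Pool.Agent.MVX.StE

set_option autoImplicit false

/-!
# MVX / Sel

Selberg's weights for a general density `g` with `0 < g p < 1`: adapted from `GBQ/Sel`.
-/

namespace Pool.Agent.MVX

open Finset Filter

/-- the squarefree numbers up to `ξ` -/
noncomputable def sel_R (ξ : ℕ) : Finset ℕ := (Icc 1 ξ).filter Squarefree

/-- the product of `g / (1 - g)` -/
noncomputable def sel_h (g : ℕ → ℝ) (d : ℕ) : ℝ := ∏ p ∈ d.primeFactors, g p / (1 - g p)

lemma sel_mem {ξ r : ℕ} : r ∈ sel_R ξ ↔ (1 ≤ r ∧ r ≤ ξ) ∧ Squarefree r := by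
  unfold sel_R
  rw [mem_filter, mem_Icc]

lemma sel_dvd {ξ d r : ℕ} (hr : r ∈ sel_R ξ) (h : d ∣ r) : d ∈ sel_R ξ := by
  rw [sel_mem] at hr ⊢
  exact ⟨⟨Nat.pos_of_dvd_of_pos h hr.1.1, (Nat.le_of_dvd hr.1.1 h).trans hr.1.2⟩,
    hr.2.squarefree_of_dvd h⟩

section sel

variable {g : ℕ → ℝ} (hg : ∀ p : ℕ, p.Prime → 0 < g p ∧ g p < 1)

include hg

lemma sel_hp {p : ℕ} (hp : p.Prime) : 0 < g p / (1 - g p) :=
  div_pos (hg p hp).1 (by linarith [(hg p hp).2])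

lemma sel_gd_pos (d : ℕ) : 0 < pr g d :=
  prod_pos fun p hp => (hg p (Nat.prime_of_mem_primeFactors hp)).1

lemma sel_hd_pos (d : ℕ) : 0 < sel_h g d :=
  prod_pos fun p hp => sel_hp hg (Nat.prime_of_mem_primeFactors hp)

/-- `1/g = 1 + 1/h` -/
lemma sel_inv_g {p : ℕ} (hp : p.Prime) : (g p)⁻¹ = 1 + (g p / (1 - g p))⁻¹ := by
  have h1 := (hg p hp).1
  have h2 : 0 < 1 - g p := by linarith [(hg p hp).2]
  rw [inv_div]
  field_simp
  ring

omit hg in
lemma sel_gd_one : pr g 1 = 1 := by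
  unfold pr
  simp

omit hg in
lemma sel_hd_one : sel_h g 1 = 1 := by
  unfold sel_h
  simp

omit hg in
lemma sel_hd_prime {p : ℕ} (hp : p.Prime) : sel_h g p = g p / (1 - g p) := by
  unfold sel_h
  rw [hp.primeFactors, prod_singleton]

omit hg in
lemma sel_hd_mul {m n : ℕ} (h : m.Coprime n) : sel_h g (m * n) = sel_h g m * sel_h g n := by
  unfold sel_h
  rw [h.primeFactors_mul, prod_union h.disjoint_primeFactors]

omit hg in
/-- a product over the primes of a squarefree number, expanded -/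
lemma sel_expand (f : ℕ → ℝ) {m : ℕ} (hm : Squarefree m) :
    ∏ p ∈ m.primeFactors, (1 + f p) = ∑ r ∈ m.divisors, ∏ p ∈ r.primeFactors, f p := by
  obtain ⟨F, hF⟩ : ∃ F : ArithmeticFunction ℝ, ∀ d : ℕ, d ≠ 0 → F d = ∏ p ∈ d.primeFactors, f p :=
    ⟨⟨fun d => if d = 0 then 0 else ∏ p ∈ d.primeFactors, f p, by simp⟩, fun d hd => by
      change (if d = 0 then 0 else ∏ p ∈ d.primeFactors, f p) = _
      rw [if_neg hd]⟩
  have hmult : F.IsMultiplicative := by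
    constructor
    · rw [hF 1 one_ne_zero]
      simp
    · intro a c hac
      rcases Nat.eq_zero_or_pos a with rfl | ha
      · simp
      rcases Nat.eq_zero_or_pos c with rfl | hc
      · simp
      rw [hF _ (by positivity), hF _ (by omega), hF _ (by omega), hac.primeFactors_mul,
        prod_union hac.disjoint_primeFactors]
  have h1 := hmult.prodPrimeFactors_one_add_of_squarefree hm
  have h2 : ∑ d ∈ m.divisors, F d = ∑ r ∈ m.divisors, ∏ p ∈ r.primeFactors, f p :=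
    sum_congr rfl fun d hd => hF d (Nat.pos_of_mem_divisors hd).ne'
  rw [← h2, ← h1]
  refine prod_congr rfl fun p hp => ?_
  have hp' := Nat.prime_of_mem_primeFactors hp
  rw [hF p hp'.ne_zero, hp'.primeFactors, prod_singleton]

lemma sel_inv_gd {m : ℕ} (h : Squarefree m) : (pr g m)⁻¹ = ∑ r ∈ m.divisors, (sel_h g r)⁻¹ := by
  have h1 := sel_expand (fun p => (g p / (1 - g p))⁻¹) h
  have h2 : ∑ r ∈ m.divisors, ∏ p ∈ r.primeFactors, (g p / (1 - g p))⁻¹ =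
      ∑ r ∈ m.divisors, (sel_h g r)⁻¹ := by
    refine sum_congr rfl fun r _ => ?_
    unfold sel_h
    rw [Finset.prod_inv_distrib]
  rw [← h2, ← h1]
  unfold pr
  rw [← Finset.prod_inv_distrib]
  exact prod_congr rfl fun p hp => sel_inv_g hg (Nat.prime_of_mem_primeFactors hp)

lemma sel_sum_hd {d : ℕ} (h : Squarefree d) :
    pr g d * ∑ k ∈ d.divisors, sel_h g k = sel_h g d := by
  have h1 := sel_expand (fun p => g p / (1 - g p)) h
  have h2 : ∑ k ∈ d.divisors, sel_h g k = ∏ p ∈ d.primeFactors, (1 + g p / (1 - g p)) := h1.symm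
  rw [h2]
  unfold pr sel_h
  rw [← Finset.prod_mul_distrib]
  refine prod_congr rfl fun p hp => ?_
  have h3 : 0 < 1 - g p := by linarith [(hg p (Nat.prime_of_mem_primeFactors hp)).2]
  field_simp
  ring

omit hg in
lemma sel_gd_lcm {d₁ d₂ : ℕ} (h1 : d₁ ≠ 0) (h2 : d₂ ≠ 0) :
    pr g (Nat.lcm d₁ d₂) * pr g (Nat.gcd d₁ d₂) = pr g d₁ * pr g d₂ := by
  unfold pr
  have e1 : (Nat.lcm d₁ d₂).primeFactors = d₁.primeFactors ∪ d₂.primeFactors := by
    ext p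
    rw [mem_union, Nat.mem_primeFactors, Nat.mem_primeFactors, Nat.mem_primeFactors]
    constructor
    · rintro ⟨hp, hd', _⟩
      have h3 : p ∣ d₁ * d₂ := hd'.trans (Nat.lcm_dvd_mul d₁ d₂)
      rcases (hp.dvd_mul).1 h3 with h4 | h4
      · left; exact ⟨hp, h4, h1⟩
      · right; exact ⟨hp, h4, h2⟩
    · rintro (⟨hp, h4, _⟩ | ⟨hp, h4, _⟩)
      · exact ⟨hp, h4.trans (Nat.dvd_lcm_left _ _), Nat.lcm_ne_zero h1 h2⟩
      · exact ⟨hp, h4.trans (Nat.dvd_lcm_right _ _), Nat.lcm_ne_zero h1 h2⟩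
  have e2 : (Nat.gcd d₁ d₂).primeFactors = d₁.primeFactors ∩ d₂.primeFactors := by
    ext p
    rw [mem_inter, Nat.mem_primeFactors, Nat.mem_primeFactors, Nat.mem_primeFactors]
    constructor
    · rintro ⟨hp, hd', _⟩
      exact ⟨⟨hp, hd'.trans (Nat.gcd_dvd_left _ _), h1⟩, ⟨hp, hd'.trans (Nat.gcd_dvd_right _ _), h2⟩⟩
    · rintro ⟨⟨hp, h4, _⟩, ⟨_, h5, _⟩⟩
      exact ⟨hp, Nat.dvd_gcd h4 h5, by
        have := Nat.gcd_pos_of_pos_left d₂ (Nat.pos_of_ne_zero h1)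
        omega⟩
  rw [e1, e2, Finset.prod_union_inter]

/-- diagonalisation -/
lemma sel_quad {ξ : ℕ} (a : ℕ → ℝ) :
    ∑ d₁ ∈ sel_R ξ, ∑ d₂ ∈ sel_R ξ, a d₁ * a d₂ * pr g (Nat.lcm d₁ d₂) =
      ∑ r ∈ sel_R ξ, (sel_h g r)⁻¹ *
        (∑ d ∈ (sel_R ξ).filter (fun d => r ∣ d), a d * pr g d) ^ 2 := by
  have h1 : ∀ d₁ ∈ sel_R ξ, ∀ d₂ ∈ sel_R ξ, a d₁ * a d₂ * pr g (Nat.lcm d₁ d₂) =
      ∑ r ∈ sel_R ξ, (sel_h g r)⁻¹ * ((if r ∣ d₁ then a d₁ * pr g d₁ else 0) *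
        (if r ∣ d₂ then a d₂ * pr g d₂ else 0)) := by
    intro d₁ hd1 d₂ hd2
    have hz1 : d₁ ≠ 0 := by rw [sel_mem] at hd1; omega
    have hz2 : d₂ ≠ 0 := by rw [sel_mem] at hd2; omega
    have hgR : Nat.gcd d₁ d₂ ∈ sel_R ξ := sel_dvd hd1 (Nat.gcd_dvd_left _ _)
    have hgs : Squarefree (Nat.gcd d₁ d₂) := (sel_mem.1 hgR).2
    have hgp := sel_gd_pos hg (Nat.gcd d₁ d₂)
    have e1 : pr g (Nat.lcm d₁ d₂) = pr g d₁ * pr g d₂ * (pr g (Nat.gcd d₁ d₂))⁻¹ := by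
      rw [← sel_gd_lcm hz1 hz2]
      field_simp
    rw [e1, sel_inv_gd hg hgs]
    have e2 : ∑ r ∈ (Nat.gcd d₁ d₂).divisors, (sel_h g r)⁻¹ =
        ∑ r ∈ sel_R ξ, if r ∣ d₁ ∧ r ∣ d₂ then (sel_h g r)⁻¹ else 0 := by
      rw [← Finset.sum_filter]
      refine sum_congr ?_ fun _ _ => rfl
      ext r
      rw [Nat.mem_divisors, mem_filter]
      constructor
      · rintro ⟨h3, _⟩
        exact ⟨sel_dvd hgR h3, h3.trans (Nat.gcd_dvd_left _ _), h3.trans (Nat.gcd_dvd_right _ _)⟩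
      · rintro ⟨_, h3, h4⟩
        exact ⟨Nat.dvd_gcd h3 h4, hgs.ne_zero⟩
    rw [e2, Finset.mul_sum, Finset.mul_sum]
    refine sum_congr rfl fun r _ => ?_
    by_cases h3 : r ∣ d₁ <;> by_cases h4 : r ∣ d₂ <;> simp only [h3, h4, true_and, and_true,
      and_self, if_true, if_false, mul_zero, zero_mul, false_and, and_false] <;> ring
  rw [sum_congr rfl fun d₁ hd1 => sum_congr rfl fun d₂ hd2 => h1 d₁ hd1 d₂ hd2]
  have h2 : ∀ d₁ ∈ sel_R ξ, ∑ d₂ ∈ sel_R ξ, ∑ r ∈ sel_R ξ,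
      (sel_h g r)⁻¹ * ((if r ∣ d₁ then a d₁ * pr g d₁ else 0) *
        (if r ∣ d₂ then a d₂ * pr g d₂ else 0)) =
      ∑ r ∈ sel_R ξ, ∑ d₂ ∈ sel_R ξ,
      (sel_h g r)⁻¹ * ((if r ∣ d₁ then a d₁ * pr g d₁ else 0) *
        (if r ∣ d₂ then a d₂ * pr g d₂ else 0)) :=
    fun d₁ _ => Finset.sum_comm
  rw [sum_congr rfl h2, Finset.sum_comm]
  refine sum_congr rfl fun r _ => ?_
  rw [Finset.sum_filter, pow_two, Finset.sum_mul_sum, Finset.mul_sum]
  refine sum_congr rfl fun d₁ _ => ?_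
  rw [Finset.mul_sum]

omit hg in
/-- Moebius sums over the divisors of `s` divisible by `r` -/
lemma sel_mu {r s : ℕ} (hs : Squarefree s) (hr : r ∣ s) :
    ∑ d ∈ s.divisors.filter (fun d => r ∣ d), ((ArithmeticFunction.moebius d : ℤ) : ℝ) =
      if r = s then ((ArithmeticFunction.moebius r : ℤ) : ℝ) else 0 := by
  obtain ⟨t, rfl⟩ := hr
  have hr0 : r ≠ 0 := left_ne_zero_of_mul hs.ne_zero
  have ht0 : t ≠ 0 := right_ne_zero_of_mul hs.ne_zero
  have hcop : r.Coprime t := Nat.coprime_of_squarefree_mul hs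
  have e1 : (r * t).divisors.filter (fun d => r ∣ d) = t.divisors.image (fun e => r * e) := by
    ext d
    rw [mem_filter, Nat.mem_divisors, mem_image]
    constructor
    · rintro ⟨⟨h1, _⟩, ⟨e, rfl⟩⟩
      exact ⟨e, Nat.mem_divisors.2 ⟨Nat.dvd_of_mul_dvd_mul_left (Nat.pos_of_ne_zero hr0) h1, ht0⟩,
        rfl⟩
    · rintro ⟨e, he, rfl⟩
      rw [Nat.mem_divisors] at he
      exact ⟨⟨Nat.mul_dvd_mul_left r he.1, hs.ne_zero⟩, Nat.dvd_mul_right _ _⟩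
  rw [e1, Finset.sum_image (fun x _ y _ h => Nat.eq_of_mul_eq_mul_left (Nat.pos_of_ne_zero hr0) h)]
  have e2 : ∀ e ∈ t.divisors, ((ArithmeticFunction.moebius (r * e) : ℤ) : ℝ) =
      ((ArithmeticFunction.moebius r : ℤ) : ℝ) * ((ArithmeticFunction.moebius e : ℤ) : ℝ) := by
    intro e he
    rw [Nat.mem_divisors] at he
    have : r.Coprime e := hcop.coprime_dvd_right he.1
    rw [ArithmeticFunction.isMultiplicative_moebius.map_mul_of_coprime this]
    push_cast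
    rfl
  rw [sum_congr rfl e2, ← Finset.mul_sum]
  have e3 : ∑ e ∈ t.divisors, ((ArithmeticFunction.moebius e : ℤ) : ℝ) = if t = 1 then 1 else 0 := by
    have h1 := congrArg (fun f : ArithmeticFunction ℤ => f t) ArithmeticFunction.moebius_mul_coe_zeta
    have h2 : ∑ e ∈ t.divisors, ArithmeticFunction.moebius e = if t = 1 then 1 else 0 := by
      rw [← ArithmeticFunction.coe_mul_zeta_apply, h1]
      exact ArithmeticFunction.one_apply
    have h3 := congrArg (fun x : ℤ => (x : ℝ)) h2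
    push_cast at h3
    exact h3
  rw [e3]
  by_cases ht : t = 1
  · subst ht
    simp
  · rw [if_neg ht, if_neg, mul_zero]
    intro h
    apply ht
    have : r * 1 = r * t := by rw [mul_one]; exact h
    exact (Nat.eq_of_mul_eq_mul_left (Nat.pos_of_ne_zero hr0) this).symm

/-- the sum in the denominator -/
noncomputable def sel_G (g : ℕ → ℝ) (ξ : ℕ) : ℝ := ∑ r ∈ sel_R ξ, sel_h g r

/-- the weights of Selberg -/
noncomputable def sel_L (g : ℕ → ℝ) (ξ d : ℕ) : ℝ :=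
  if d ∈ sel_R ξ then ((ArithmeticFunction.moebius d : ℤ) : ℝ) / pr g d *
    (∑ r ∈ (sel_R ξ).filter (fun r => d ∣ r), sel_h g r) / sel_G g ξ else 0

lemma sel_inner {ξ r : ℕ} (hr : r ∈ sel_R ξ) :
    ∑ d ∈ (sel_R ξ).filter (fun d => r ∣ d), sel_L g ξ d * pr g d =
      ((ArithmeticFunction.moebius r : ℤ) : ℝ) * sel_h g r / sel_G g ξ := by
  have h1 : ∀ d ∈ (sel_R ξ).filter (fun d => r ∣ d), sel_L g ξ d * pr g d =
      (∑ s ∈ sel_R ξ, if d ∣ s then ((ArithmeticFunction.moebius d : ℤ) : ℝ) * sel_h g s else 0) /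
        sel_G g ξ := by
    intro d hd'
    rw [mem_filter] at hd'
    unfold sel_L
    rw [if_pos hd'.1, ← Finset.sum_filter, ← Finset.mul_sum]
    have := sel_gd_pos hg d
    field_simp
  rw [sum_congr rfl h1, ← Finset.sum_div]
  congr 1
  rw [Finset.sum_comm]
  have h2 : ∀ s ∈ sel_R ξ, ∑ d ∈ (sel_R ξ).filter (fun d => r ∣ d),
      (if d ∣ s then ((ArithmeticFunction.moebius d : ℤ) : ℝ) * sel_h g s else 0) =
      if r = s then ((ArithmeticFunction.moebius r : ℤ) : ℝ) * sel_h g r else 0 := by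
    intro s hs
    rw [← Finset.sum_filter, Finset.filter_filter]
    by_cases hrs : r ∣ s
    · have e1 : (sel_R ξ).filter (fun d => r ∣ d ∧ d ∣ s) =
          s.divisors.filter (fun d => r ∣ d) := by
        ext d
        rw [mem_filter, mem_filter, Nat.mem_divisors]
        constructor
        · rintro ⟨_, h3, h4⟩
          exact ⟨⟨h4, (sel_mem.1 hs).2.ne_zero⟩, h3⟩
        · rintro ⟨⟨h3, _⟩, h4⟩
          exact ⟨sel_dvd hs h3, h4, h3⟩
      rw [e1, ← Finset.sum_mul, sel_mu (sel_mem.1 hs).2 hrs]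
      by_cases h3 : r = s
      · rw [if_pos h3, if_pos h3, h3]
      · rw [if_neg h3, if_neg h3, zero_mul]
    · rw [if_neg (fun h : r = s => hrs (h ▸ dvd_refl r))]
      apply Finset.sum_eq_zero
      intro d hd'
      rw [mem_filter] at hd'
      exact absurd (hd'.2.1.trans hd'.2.2) hrs
  rw [sum_congr rfl h2, Finset.sum_ite_eq, if_pos hr]

omit hg in
lemma sel_sf_mul {a b : ℕ} (ha : Squarefree a) (hb : Squarefree b) (h : a.Coprime b) :
    Squarefree (a * b) := (Nat.squarefree_mul h).2 ⟨ha, hb⟩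

lemma sel_S_le {ξ d : ℕ} (hdR : d ∈ sel_R ξ) :
    ∑ r ∈ (sel_R ξ).filter (fun r => d ∣ r), sel_h g r ≤ pr g d * sel_G g ξ := by
  have hsf := (sel_mem.1 hdR).2
  have hd0 : 0 < d := (sel_mem.1 hdR).1.1
  set T := (sel_R ξ).filter (fun s => s.Coprime d ∧ d * s ≤ ξ) with hT
  have e1 : (sel_R ξ).filter (fun r => d ∣ r) = T.image (fun s => d * s) := by
    ext r
    rw [mem_filter, mem_image]
    constructor
    · rintro ⟨h1, ⟨s, rfl⟩⟩
      refine ⟨s, ?_, rfl⟩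
      rw [hT, mem_filter]
      refine ⟨sel_dvd h1 (Nat.dvd_mul_left _ _), ?_, (sel_mem.1 h1).1.2⟩
      exact (Nat.coprime_of_squarefree_mul (sel_mem.1 h1).2).symm
    · rintro ⟨s, hs, rfl⟩
      rw [hT, mem_filter] at hs
      refine ⟨?_, Nat.dvd_mul_right _ _⟩
      have hs1 := sel_mem.1 hs.1
      rw [sel_mem]
      exact ⟨⟨Nat.mul_pos hd0 hs1.1.1, hs.2.2⟩, sel_sf_mul hsf hs1.2 hs.2.1.symm⟩
  rw [e1, Finset.sum_image (fun x _ y _ h => Nat.eq_of_mul_eq_mul_left hd0 h)]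
  have e2 : ∑ s ∈ T, sel_h g (d * s) =
      pr g d * ((∑ k ∈ d.divisors, sel_h g k) * ∑ s ∈ T, sel_h g s) := by
    rw [← mul_assoc, sel_sum_hd hg hsf, Finset.mul_sum]
    refine sum_congr rfl fun s hs => ?_
    rw [hT, mem_filter] at hs
    exact sel_hd_mul hs.2.1.symm
  rw [e2]
  apply mul_le_mul_of_nonneg_left _ (sel_gd_pos hg d).le
  rw [Finset.sum_mul_sum, ← Finset.sum_product']
  have e3 : ∑ x ∈ d.divisors ×ˢ T, sel_h g x.1 * sel_h g x.2 =
      ∑ x ∈ d.divisors ×ˢ T, sel_h g (x.1 * x.2) := by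
    refine sum_congr rfl fun x hx => ?_
    rw [mem_product, hT, mem_filter, Nat.mem_divisors] at hx
    exact (sel_hd_mul (hx.2.2.1.coprime_dvd_right hx.1.1).symm).symm
  unfold sel_G
  rw [e3, ← Finset.sum_image (f := sel_h g) (g := fun x : ℕ × ℕ => x.1 * x.2)]
  · apply sum_le_sum_of_subset_of_nonneg
    · intro r hr
      rw [mem_image] at hr
      obtain ⟨x, hx, rfl⟩ := hr
      rw [mem_product, hT, mem_filter, Nat.mem_divisors] at hx
      have hx1 := sel_mem.1 hx.2.1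
      have hk : Squarefree x.1 := hsf.squarefree_of_dvd hx.1.1
      have hk0 : 0 < x.1 := Nat.pos_of_dvd_of_pos hx.1.1 hd0
      rw [sel_mem]
      refine ⟨⟨Nat.mul_pos hk0 hx1.1.1, ?_⟩, sel_sf_mul hk hx1.2
        (hx.2.2.1.coprime_dvd_right hx.1.1).symm⟩
      exact (Nat.mul_le_mul_right _ (Nat.le_of_dvd hd0 hx.1.1)).trans hx.2.2.2
    · intro r _ _
      exact (sel_hd_pos hg r).le
  · intro x hx y hy hxy
    rw [mem_coe, mem_product, hT, mem_filter, Nat.mem_divisors] at hx hy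
    have hxy' : x.1 * x.2 = y.1 * y.2 := hxy
    have g1 : Nat.gcd (x.1 * x.2) d = x.1 := by
      rw [Nat.Coprime.gcd_mul_right_cancel x.1 hx.2.2.1]
      exact Nat.gcd_eq_left hx.1.1
    have g2 : Nat.gcd (y.1 * y.2) d = y.1 := by
      rw [Nat.Coprime.gcd_mul_right_cancel y.1 hy.2.2.1]
      exact Nat.gcd_eq_left hy.1.1
    have h1 : x.1 = y.1 := by rw [← g1, ← g2, hxy']
    have h0 : 0 < x.1 := Nat.pos_of_dvd_of_pos hx.1.1 hd0
    rw [← h1] at hxy'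
    exact Prod.ext h1 (Nat.eq_of_mul_eq_mul_left h0 hxy')

omit hg in
lemma sel_one_mem {ξ : ℕ} (hξ : 1 ≤ ξ) : 1 ∈ sel_R ξ :=
  sel_mem.2 ⟨⟨le_refl _, hξ⟩, squarefree_one⟩

lemma sel_G_pos {ξ : ℕ} (h : 1 ≤ ξ) : 0 < sel_G g ξ :=
  Finset.sum_pos (fun r _ => sel_hd_pos hg r) ⟨1, sel_one_mem h⟩

omit hg in
lemma sel_abs_mu (d : ℕ) : |((ArithmeticFunction.moebius d : ℤ) : ℝ)| ≤ 1 := by
  have h1 := ArithmeticFunction.abs_moebius_le_one (n := d)
  exact_mod_cast h1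

lemma sel_abs {ξ : ℕ} (hξ : 1 ≤ ξ) (d : ℕ) : |sel_L g ξ d| ≤ 1 := by
  unfold sel_L
  split_ifs with h
  · have hg' := sel_gd_pos hg d
    have hG := sel_G_pos hg hξ
    have hS := sel_S_le hg h
    have hS0 : 0 ≤ ∑ r ∈ (sel_R ξ).filter (fun r => d ∣ r), sel_h g r :=
      sum_nonneg fun r _ => (sel_hd_pos hg r).le
    rw [abs_div, abs_mul, abs_div, abs_of_pos hg', abs_of_pos hG, abs_of_nonneg hS0,
      div_le_one hG, div_mul_eq_mul_div, div_le_iff₀ hg']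
    calc |((ArithmeticFunction.moebius d : ℤ) : ℝ)| *
          ∑ r ∈ (sel_R ξ).filter (fun r => d ∣ r), sel_h g r ≤
          1 * ∑ r ∈ (sel_R ξ).filter (fun r => d ∣ r), sel_h g r :=
        mul_le_mul_of_nonneg_right (sel_abs_mu d) hS0
      _ ≤ sel_G g ξ * pr g d := by rw [one_mul, mul_comm]; exact hS
  · simp

lemma sel_one {ξ : ℕ} (hξ : 1 ≤ ξ) : sel_L g ξ 1 = 1 := by
  have hG := sel_G_pos hg hξ
  unfold sel_L
  rw [if_pos (sel_one_mem hξ), sel_gd_one, ArithmeticFunction.moebius_apply_one]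
  have e : (sel_R ξ).filter (fun r => 1 ∣ r) = sel_R ξ := by
    apply Finset.filter_true_of_mem
    intro r _
    exact one_dvd r
  rw [e]
  change _ / 1 * sel_G g ξ / sel_G g ξ = 1
  push_cast
  rw [div_one, one_mul, div_self hG.ne']

omit hg in
lemma sel_zero {ξ d : ℕ} (h : d ∉ sel_R ξ) : sel_L g ξ d = 0 := by
  unfold sel_L
  rw [if_neg h]

lemma sel_value {ξ : ℕ} (hξ : 1 ≤ ξ) :
    ∑ d₁ ∈ sel_R ξ, ∑ d₂ ∈ sel_R ξ, sel_L g ξ d₁ * sel_L g ξ d₂ * pr g (Nat.lcm d₁ d₂) =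
      1 / sel_G g ξ := by
  have hG := sel_G_pos hg hξ
  rw [sel_quad hg]
  have h1 : ∀ r ∈ sel_R ξ, (sel_h g r)⁻¹ *
      (∑ d ∈ (sel_R ξ).filter (fun d => r ∣ d), sel_L g ξ d * pr g d) ^ 2 =
      sel_h g r / sel_G g ξ ^ 2 := by
    intro r hr
    have hh := sel_hd_pos hg r
    rw [sel_inner hg hr]
    have hmu : (((ArithmeticFunction.moebius r : ℤ) : ℝ)) ^ 2 = 1 := by
      have h2 := ArithmeticFunction.moebius_sq_eq_one_of_squarefree (sel_mem.1 hr).2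
      exact_mod_cast h2
    rw [div_pow, mul_pow, hmu]
    field_simp
  rw [sum_congr rfl h1, ← Finset.sum_div]
  change sel_G g ξ / sel_G g ξ ^ 2 = _
  field_simp

end sel

theorem thm_Sel : St_Sel := by
  intro g hg y hy
  have hξ : 1 ≤ ⌊y⌋₊ := Nat.le_floor (by rw [Nat.cast_one]; exact hy)
  have hval := sel_value hg hξ
  have hG := sel_G_pos hg hξ
  have hsum : ∑ d ∈ Icc 1 ⌊y⌋₊, ∑ e ∈ Icc 1 ⌊y⌋₊, sel_L g ⌊y⌋₊ d * sel_L g ⌊y⌋₊ e *
      pr g (d.lcm e) = 1 / sel_G g ⌊y⌋₊ := by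
    rw [← hval]
    have hsub : sel_R ⌊y⌋₊ ⊆ Icc 1 ⌊y⌋₊ := filter_subset _ _
    symm
    rw [← Finset.sum_subset hsub (fun d _ hd => by
      apply Finset.sum_eq_zero
      intro e _
      rw [sel_zero hd, zero_mul, zero_mul])]
    refine sum_congr rfl fun d _ => ?_
    refine Finset.sum_subset hsub (fun e _ he => ?_)
    rw [sel_zero he, mul_zero, zero_mul]
  refine ⟨sel_L g ⌊y⌋₊, sel_one hg hξ, ?_, sel_abs hg hξ, ?_, ?_⟩
  · intro d hd
    have h1 : d ∈ sel_R ⌊y⌋₊ := by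
      by_contra h
      exact hd (sel_zero h)
    rw [sel_mem] at h1
    refine ⟨h1.1.1, ?_, h1.2⟩
    exact (Nat.cast_le.2 h1.1.2).trans (Nat.floor_le (by linarith))
  · rw [hsum]
    exact le_of_eq rfl
  · rw [hsum]
    positivity

end Pool.Agent.MVX
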