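import Pool.Agent.MVX.StA

/-!
# MVX, module Unq: two zeros cannot both be very close to the line `Re s = 1`
-/

set_option autoImplicit false

namespace Pool.Agent.MVX

open Finset Complex
open scoped ArithmeticFunction

/-- the point `1 + a + i t` -/
noncomputable def unq_pt (a t : ℝ) : ℂ := ((1 + a : ℝ) : ℂ) + (t : ℂ) * I

theorem unq_pt_re (a t : ℝ) : (unq_pt a t).re = 1 + a := by simp [unq_pt]

theorem unq_pt_im (a t : ℝ) : (unq_pt a t).im = t := by simp [unq_pt]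

/-- the real part of `1 / z` -/
theorem unq_re_inv (z : ℂ) : (1 / z).re = z.re / (z.re ^ 2 + z.im ^ 2) := by
  rw [one_div, inv_re, normSq_apply]
  congr 1
  ring

/-- the Dirichlet series of `Λ χ` -/
noncomputable def unq_D {q : ℕ} (χ : DirichletCharacter ℂ q) (s : ℂ) : ℂ :=
  LSeries ((fun n : ℕ => χ (n : ZMod q)) * fun n : ℕ => (ArithmeticFunction.vonMangoldt n : ℂ)) s

/-- the terms -/
noncomputable def unq_T {q : ℕ} (χ : DirichletCharacter ℂ q) (s : ℂ) (n : ℕ) : ℂ :=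
  LSeries.term ((fun n : ℕ => χ (n : ZMod q)) * fun n : ℕ =>
    (ArithmeticFunction.vonMangoldt n : ℂ)) s n

theorem unq_hasSum {q : ℕ} (χ : DirichletCharacter ℂ q) {s : ℂ} (hs : 1 < s.re) :
    HasSum (unq_T χ s) (unq_D χ s) :=
  (DirichletCharacter.LSeriesSummable_twist_vonMangoldt χ hs).LSeriesHasSum

theorem unq_D_eq {q : ℕ} [NeZero q] (χ : DirichletCharacter ℂ q) {s : ℂ} (hs : 1 < s.re)
    (e : ℝ) (he1 : χ = 1 → e = (1 / (s - 1)).re) (he2 : χ ≠ 1 → e = 0) :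
    (unq_D χ s).re = -(deriv (Lf χ) s / Lf χ s).re + e := by
  have h1 : unq_D χ s = -(deriv χ.LFunction s / χ.LFunction s) := by
    rw [unq_D, DirichletCharacter.deriv_LFunction_eq_deriv_LSeries χ hs,
      DirichletCharacter.LFunction_eq_LSeries χ hs, ← neg_div]
    exact DirichletCharacter.LSeries_twist_vonMangoldt_eq χ hs
  by_cases h : χ = 1
  · rw [he1 h]
    subst h
    have hs1 : s ≠ 1 := by
      rintro rfl
      simp at hs
    have hL : (1 : DirichletCharacter ℂ q).LFunction s ≠ 0 := by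
      have h2 := Lf_ne_zero (1 : DirichletCharacter ℂ q) hs.le
      rwa [Ne, Lf_eq_zero_iff _ hs1] at h2
    have h3 : deriv (Lf (1 : DirichletCharacter ℂ q)) s =
        (s - 1) * deriv (1 : DirichletCharacter ℂ q).LFunction s +
          (1 : DirichletCharacter ℂ q).LFunction s := by
      rw [Lf_one]
      exact DirichletCharacter.deriv_LFunctionTrivChar₁_apply_of_ne_one q hs1
    have h4 : Lf (1 : DirichletCharacter ℂ q) s =
        (s - 1) * (1 : DirichletCharacter ℂ q).LFunction s := by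
      rw [Lf_one, DirichletCharacter.LFunctionTrivChar₁, Function.update_of_ne hs1]
    have h5 : deriv (Lf (1 : DirichletCharacter ℂ q)) s / Lf (1 : DirichletCharacter ℂ q) s =
        deriv (1 : DirichletCharacter ℂ q).LFunction s / (1 : DirichletCharacter ℂ q).LFunction s +
          1 / (s - 1) := by
      rw [h3, h4]
      have h6 : s - 1 ≠ 0 := sub_ne_zero.mpr hs1
      field_simp
    rw [h1, h5, neg_re, add_re]
    ring
  · rw [he2 h, h1, Lf_of_ne h, neg_re, add_zero]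

/-- the terms of the three series -/
theorem unq_term {q₁ q₂ q₃ : ℕ} (χ₁ : DirichletCharacter ℂ q₁) (χ₂ : DirichletCharacter ℂ q₂)
    (χ₃ : DirichletCharacter ℂ q₃)
    (h : ∀ n : ℕ, χ₃ (n : ZMod q₃) = χ₁ (n : ZMod q₁) * (starRingEnd ℂ) (χ₂ (n : ZMod q₂)))
    (a t₁ t₂ : ℝ) (n : ℕ) :
    0 ≤ 3 * (unq_T (1 : DirichletCharacter ℂ 1) (unq_pt a 0) n).re +
      2 * (unq_T χ₁ (unq_pt a t₁) n).re + 2 * (unq_T χ₂ (unq_pt a t₂) n).re +
      2 * (unq_T χ₃ (unq_pt a (t₁ - t₂)) n).re := by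
  rcases Nat.eq_zero_or_pos n with rfl | hn
  · simp [unq_T]
  have hn0 : (n : ℂ) ≠ 0 := by exact_mod_cast hn.ne'
  set u : ℝ → ℂ := fun t => (n : ℂ) ^ (-((t : ℂ) * I)) with hu
  have hunorm : ∀ t, ‖u t‖ = 1 := by
    intro t
    rw [hu]
    simp only
    rw [Complex.norm_natCast_cpow_of_pos hn]
    simp
  have hsub : u (t₁ - t₂) = u t₁ * (starRingEnd ℂ) (u t₂) := by
    have h1 : (starRingEnd ℂ) (u t₂) = (u t₂)⁻¹ := by
      rw [Complex.inv_def, Complex.normSq_eq_norm_sq, hunorm]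
      simp
    rw [h1, hu]
    simp only
    rw [← cpow_neg, ← cpow_add _ _ hn0]
    congr 1
    push_cast
    ring
  set r : ℝ := ArithmeticFunction.vonMangoldt n * (n : ℝ) ^ (-(1 + a)) with hr
  have hr0 : 0 ≤ r := mul_nonneg ArithmeticFunction.vonMangoldt_nonneg (by positivity)
  have hT : ∀ (q : ℕ) (χ : DirichletCharacter ℂ q) (t : ℝ),
      unq_T χ (unq_pt a t) n = (r : ℂ) * (χ (n : ZMod q) * u t) := by
    intro q χ t
    rw [unq_T, LSeries.term_of_ne_zero hn.ne', Pi.mul_apply, div_eq_mul_inv, ← cpow_neg, unq_pt,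
      neg_add, cpow_add _ _ hn0, hr, hu]
    have h1 : (n : ℂ) ^ (-((1 + a : ℝ) : ℂ)) = (((n : ℝ) ^ (-(1 + a)) : ℝ) : ℂ) := by
      rw [ofReal_cpow (Nat.cast_nonneg n)]
      push_cast
      ring_nf
    rw [h1]
    push_cast
    ring
  have hone : (1 : DirichletCharacter ℂ 1) (n : ZMod 1) = 1 := by
    rw [MulChar.one_apply (isUnit_of_subsingleton _)]
  have hu0 : u 0 = 1 := by
    rw [hu]
    simp
  have hn1 : ∀ (q : ℕ) (χ : DirichletCharacter ℂ q) (t : ℝ), ‖χ (n : ZMod q) * u t‖ ≤ 1 := by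
    intro q χ t
    rw [norm_mul, hunorm, mul_one]
    exact DirichletCharacter.norm_le_one χ _
  set w₁ : ℂ := χ₁ (n : ZMod q₁) * u t₁ with hw₁
  set w₂ : ℂ := χ₂ (n : ZMod q₂) * u t₂ with hw₂
  have hw₃ : χ₃ (n : ZMod q₃) * u (t₁ - t₂) = w₁ * (starRingEnd ℂ) w₂ := by
    rw [h, hsub, hw₁, hw₂, map_mul]
    ring
  have h1 := hn1 q₁ χ₁ t₁
  have h2 := hn1 q₂ χ₂ t₂
  rw [← hw₁] at h1
  rw [← hw₂] at h2
  rw [hT, hT, hT, hT, hone, hu0, hw₃, ← hw₁, ← hw₂]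
  have hre : ∀ z : ℂ, ((r : ℂ) * z).re = r * z.re := fun z => by simp
  rw [hre, hre, hre, hre]
  have h3 : ‖w₁‖ ^ 2 = w₁.re ^ 2 + w₁.im ^ 2 := by
    rw [← Complex.normSq_eq_norm_sq, normSq_apply]
    ring
  have h4 : ‖w₂‖ ^ 2 = w₂.re ^ 2 + w₂.im ^ 2 := by
    rw [← Complex.normSq_eq_norm_sq, normSq_apply]
    ring
  have h5 : ‖w₁‖ ^ 2 ≤ 1 := pow_le_one₀ (norm_nonneg _) h1
  have h6 : ‖w₂‖ ^ 2 ≤ 1 := pow_le_one₀ (norm_nonneg _) h2
  rw [h3] at h5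
  rw [h4] at h6
  have h7 : (w₁ * (starRingEnd ℂ) w₂).re = w₁.re * w₂.re + w₁.im * w₂.im := by
    simp [mul_re]
  rw [h7, mul_one, one_re]
  have h8 : 0 ≤ 3 * 1 + 2 * w₁.re + 2 * w₂.re + 2 * (w₁.re * w₂.re + w₁.im * w₂.im) := by
    nlinarith [sq_nonneg (1 + w₁.re + w₂.re), sq_nonneg (w₁.im + w₂.im)]
  calc (0 : ℝ) ≤ r * (3 * 1 + 2 * w₁.re + 2 * w₂.re + 2 * (w₁.re * w₂.re + w₁.im * w₂.im)) :=
        mul_nonneg hr0 h8
    _ = _ := by ring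

/-- the positivity of the sum -/
theorem unq_pos {q₁ q₂ q₃ : ℕ} (χ₁ : DirichletCharacter ℂ q₁) (χ₂ : DirichletCharacter ℂ q₂)
    (χ₃ : DirichletCharacter ℂ q₃)
    (h : ∀ n : ℕ, χ₃ (n : ZMod q₃) = χ₁ (n : ZMod q₁) * (starRingEnd ℂ) (χ₂ (n : ZMod q₂)))
    (a t₁ t₂ : ℝ) (ha : 0 < a) :
    0 ≤ 3 * (unq_D (1 : DirichletCharacter ℂ 1) (unq_pt a 0)).re +
      2 * (unq_D χ₁ (unq_pt a t₁)).re + 2 * (unq_D χ₂ (unq_pt a t₂)).re +
      2 * (unq_D χ₃ (unq_pt a (t₁ - t₂))).re := by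
  have hs : ∀ t, 1 < (unq_pt a t).re := fun t => by rw [unq_pt_re]; linarith
  have hH : ∀ (q : ℕ) (χ : DirichletCharacter ℂ q) (t : ℝ),
      HasSum (fun n => (unq_T χ (unq_pt a t) n).re) (unq_D χ (unq_pt a t)).re := fun q χ t =>
    Complex.hasSum_re (unq_hasSum χ (hs t))
  have h1 := ((((hH 1 1 0).mul_left 3).add ((hH q₁ χ₁ t₁).mul_left 2)).add
    ((hH q₂ χ₂ t₂).mul_left 2)).add ((hH q₃ χ₃ (t₁ - t₂)).mul_left 2)
  exact h1.nonneg fun n => unq_term χ₁ χ₂ χ₃ h a t₁ t₂ n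

theorem unq_re_nonneg {q : ℕ} [NeZero q] (χ : DirichletCharacter ℂ q) {a t : ℝ} (ha : 0 < a)
    {ρ : ℂ} (hρ : Lf χ ρ = 0) : 0 ≤ (1 / (unq_pt a t - ρ)).re := by
  have h1 : ρ.re < 1 := by
    by_contra h
    exact Lf_ne_zero χ (not_lt.mp h) hρ
  rw [unq_re_inv]
  refine div_nonneg ?_ (by positivity)
  rw [sub_re, unq_pt_re]
  linarith

/-- upper bound for the Dirichlet series -/
theorem unq_up (hLoc : St_Loc) : ∃ C : ℝ, 0 < C ∧ ∀ T : ℝ, 2 ≤ T → ∀ (q : ℕ) [NeZero q]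
    (χ : DirichletCharacter ℂ q), (q : ℝ) ≤ T ^ 2 → ∀ t : ℝ, |t| ≤ 4 * T → ∀ a : ℝ, 0 < a →
    a ≤ 1 / 2 → ∀ K ⊆ zs χ (disc (3 / 2) t (3 / 4)), ∀ e : ℝ,
    (χ = 1 → e = (1 / (unq_pt a t - 1)).re) → (χ ≠ 1 → e = 0) →
    (unq_D χ (unq_pt a t)).re ≤
      -∑ ρ ∈ K, (zm χ ρ : ℝ) * (1 / (unq_pt a t - ρ)).re + C * Real.log T + e := by
  obtain ⟨C, hC, h⟩ := hLoc
  refine ⟨C, hC, ?_⟩
  intro T hT q _ χ hq t ht a ha ha2 K hK e he1 he2
  have hs : 1 < (unq_pt a t).re := by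
    rw [unq_pt_re]
    linarith
  have h1 := (h T hT q χ hq t ht).2 (unq_pt a t) (by
    rw [disc, Metric.mem_closedBall, dist_eq_norm]
    have h2 : unq_pt a t - (((3 / 2 : ℝ) : ℂ) + (t : ℂ) * I) = ((a - 1 / 2 : ℝ) : ℂ) := by
      rw [unq_pt]
      push_cast
      ring
    rw [h2, Complex.norm_real, Real.norm_eq_abs, abs_le]
    constructor <;> linarith) (Lf_ne_zero χ hs.le)
  rw [unq_D_eq χ hs e he1 he2]
  have h2 := (Complex.abs_re_le_norm _).trans h1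
  rw [sub_re, re_sum] at h2
  have h3 := (abs_le.mp h2).1
  have h4 : ∀ ρ, ((zm χ ρ : ℂ) / (unq_pt a t - ρ)).re =
      (zm χ ρ : ℝ) * (1 / (unq_pt a t - ρ)).re := by
    intro ρ
    have h5 : (zm χ ρ : ℂ) / (unq_pt a t - ρ) =
        ((zm χ ρ : ℝ) : ℂ) * (1 / (unq_pt a t - ρ)) := by
      push_cast
      ring
    rw [h5, re_ofReal_mul]
  simp only [h4] at h3
  have h6 : ∑ ρ ∈ K, (zm χ ρ : ℝ) * (1 / (unq_pt a t - ρ)).re ≤
      ∑ ρ ∈ zs χ (disc (3 / 2) t (3 / 4)), (zm χ ρ : ℝ) * (1 / (unq_pt a t - ρ)).re := by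
    refine Finset.sum_le_sum_of_subset_of_nonneg hK fun ρ hρ _ => ?_
    exact mul_nonneg (Nat.cast_nonneg _)
      (unq_re_nonneg χ ha ((mem_zs χ (disc_bounded _ _ _) ρ).mp hρ).2)
  linarith

/-- the zeros for principal characters are not close to `1` -/
theorem unq_far : ∃ d₀ : ℝ, 0 < d₀ ∧ ∀ (q : ℕ) [NeZero q] (ρ : ℂ), 0 < ρ.re →
    Lf (1 : DirichletCharacter ℂ q) ρ = 0 → d₀ ≤ ‖ρ - 1‖ := by
  have hne : Lf (1 : DirichletCharacter ℂ 1) 1 ≠ 0 := Lf_ne_zero _ (by simp)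
  have hcont : ContinuousAt (Lf (1 : DirichletCharacter ℂ 1)) 1 :=
    (Lf_differentiable _).continuous.continuousAt
  obtain ⟨d₀, hd₀, h⟩ := Metric.eventually_nhds_iff.mp (hcont.eventually_ne hne)
  refine ⟨d₀, hd₀, ?_⟩
  intro q _ ρ hρ hz
  by_contra hcon
  push Not at hcon
  have h1 := h (y := ρ) (by rwa [dist_eq_norm])
  have hρ1 : ρ ≠ 1 := by
    rintro rfl
    exact Lf_ne_zero (1 : DirichletCharacter ℂ q) (by simp) hz
  apply h1
  rw [Lf_eq_zero_iff _ hρ1] at hz ⊢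
  have h2 : DirichletCharacter.LFunctionTrivChar q ρ = 0 := hz
  rw [DirichletCharacter.LFunctionTrivChar_eq_mul_riemannZeta hρ1, mul_eq_zero] at h2
  have h3 : riemannZeta ρ = 0 := by
    refine h2.resolve_left ?_
    refine Finset.prod_ne_zero_iff.mpr ?_
    intro p hp
    have hpp := Nat.prime_of_mem_primeFactors hp
    rw [sub_ne_zero]
    intro h4
    have h5 : ‖(p : ℂ) ^ (-ρ)‖ < 1 := by
      rw [Complex.norm_natCast_cpow_of_pos hpp.pos]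
      refine Real.rpow_lt_one_of_one_lt_of_neg (by exact_mod_cast hpp.one_lt) ?_
      rw [neg_re]
      linarith
    rw [← h4, norm_one] at h5
    exact lt_irrefl _ h5
  rw [DirichletCharacter.LFunction_modOne_eq]
  exact h3

/-- lower bound for the real parts -/
theorem unq_low {a x y : ℝ} (ha : 0 < a) (h1 : a ≤ x) (h2 : x ≤ 11 / 10 * a) :
    100 / 121 * (a / (a ^ 2 + y ^ 2)) ≤ x / (x ^ 2 + y ^ 2) := by
  have hx : 0 < x := ha.trans_le h1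
  rw [← mul_div_assoc, div_le_div_iff₀ (by positivity) (by positivity)]
  have h3 : x ^ 2 + y ^ 2 ≤ 121 / 100 * (a ^ 2 + y ^ 2) := by
    nlinarith [sq_nonneg y, mul_nonneg ha.le ha.le]
  have h4 : 0 ≤ a ^ 2 + y ^ 2 := by positivity
  nlinarith [mul_le_mul_of_nonneg_left h3 (by positivity : (0 : ℝ) ≤ 100 / 121 * a),
    mul_le_mul_of_nonneg_right h1 h4]

theorem unq_two {A₁ A₂ X₁ X₂ z₁ z₂ : ℝ} (p₁ : 0 ≤ A₁) (p₂ : 0 ≤ A₂)
    (r₁ : 100 / 121 * A₁ ≤ X₁) (r₂ : 100 / 121 * A₂ ≤ X₂) (h₁ : 1 ≤ z₁) (h₂ : 1 ≤ z₂) :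
    100 / 121 * (A₁ + A₂) ≤ z₁ * X₁ + z₂ * X₂ := by
  have x₁ : 0 ≤ X₁ := le_trans (by positivity) r₁
  have x₂ : 0 ≤ X₂ := le_trans (by positivity) r₂
  have y₁ := le_mul_of_one_le_left x₁ h₁
  have y₂ := le_mul_of_one_le_left x₂ h₂
  linarith

theorem unq_dbl {A X z : ℝ} (p : 0 ≤ A) (r : 100 / 121 * A ≤ X) (h : 2 ≤ z) :
    100 / 121 * (A + A) ≤ z * X := by
  have x : 0 ≤ X := le_trans (by positivity) r
  have y := mul_le_mul_of_nonneg_right h x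
  linarith

theorem unq_rhalf {a y : ℝ} (ha : 0 < a) (haS : a ≤ 1 / 640) (hy : 1 / 8 ≤ |y|) :
    a / (a ^ 2 + y ^ 2) ≤ 0 + 1 / 2 := by
  rw [zero_add, div_le_iff₀ (by positivity)]
  have h3 : (1 / 8 : ℝ) ^ 2 ≤ y ^ 2 := by
    rw [← sq_abs y]
    exact pow_le_pow_left₀ (by norm_num) hy 2
  nlinarith [sq_nonneg a]

/-- the numerical contradiction -/
theorem unq_num {C l a S₁ S₂ e₁ e₂ e₃ D₀ D₁ D₂ D₃ r : ℝ} (hC : 0 < C) (hl : 16 ≤ l)
    (ha : a = 1 / (40 * (C + 1)) / l) (hr : 0 ≤ r)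
    (hpos : 0 ≤ 3 * D₀ + 2 * D₁ + 2 * D₂ + 2 * D₃) (h0 : D₀ ≤ C * l + 1 / a)
    (h1 : D₁ ≤ -S₁ + C * l + e₁) (h2 : D₂ ≤ -S₂ + C * l + e₂) (h3 : D₃ ≤ C * l + e₃)
    (he₁ : e₁ ≤ l) (he₂ : e₂ ≤ l)
    (hS₁ : 100 / 121 * (1 / a + r) ≤ S₁) (hS₂ : 100 / 121 * (1 / a + r) ≤ S₂)
    (he₃ : e₃ ≤ r + 1 / 2) : False := by
  have hl0 : 0 < l := by linarith
  have hX : 1 / a = 40 * (C + 1) * l := by
    rw [ha]
    field_simp
  rw [hX] at h0 hS₁ hS₂
  nlinarith [mul_pos hC hl0]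

theorem unq_conj {q : ℕ} [NeZero q] (χ : DirichletCharacter ℂ q) (n : ℕ) :
    χ⁻¹ (n : ZMod q) = (starRingEnd ℂ) (χ (n : ZMod q)) := by
  rw [← MulChar.star_apply' χ (n : ZMod q)]
  rfl

set_option maxHeartbeats 1000000 in
/-- **Unq** -/
theorem thm_Unq (h1 : St_Loc) (_h2 : St_A2) : St_Unq := by
  obtain ⟨C, hC, hup⟩ := unq_up h1
  obtain ⟨d, hd, hfar⟩ := unq_far
  set c : ℝ := 1 / (40 * (C + 1)) with hc
  have hc0 : 0 < c := by positivity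
  have hc1 : c ≤ 1 / 40 := by
    rw [hc]
    refine one_div_le_one_div_of_le (by norm_num) ?_
    linarith
  set M₀ : ℝ := 16 + 4 / d ^ 2 + 2 / d with hM₀
  refine ⟨c / 10, Real.exp M₀, by positivity, ?_, ?_⟩
  · have h2 : (16 : ℝ) ≤ M₀ := by
      rw [hM₀]
      have : 0 ≤ 4 / d ^ 2 := by positivity
      have : 0 ≤ 2 / d := by positivity
      linarith
    have h3 := Real.add_one_le_exp M₀
    linarith
  intro T hT
  set l : ℝ := Real.log T with hl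
  have hT0 : 0 < T := (Real.exp_pos _).trans_le hT
  have hlM : M₀ ≤ l := (Real.le_log_iff_exp_le hT0).mpr hT
  have hp1 : 0 ≤ 4 / d ^ 2 := by positivity
  have hp2 : 0 ≤ 2 / d := by positivity
  have hl16 : 16 ≤ l := by linarith
  have hl4 : 4 / d ^ 2 ≤ l := by linarith
  have hl2 : 2 / d ≤ l := by linarith
  have hl0 : 0 < l := by linarith
  have hT2 : 2 ≤ T := by
    have h3 := Real.add_one_le_exp M₀
    linarith
  set a : ℝ := c / l with ha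
  have ha0 : 0 < a := by positivity
  have haS : a ≤ 1 / 640 := by
    rw [ha, div_le_iff₀ hl0]
    linarith
  have ha2 : a ≤ 1 / 2 := by linarith
  have hc0l : c / 10 / l = a / 10 := by
    rw [ha]
    ring
  -- the term of the principal character
  have hE : ∀ (q : ℕ) [NeZero q] (χ : DirichletCharacter ℂ q) (ρ : ℂ),
      ρ ∈ rect (1 - c / 10 / l) T → Lf χ ρ = 0 → ∃ e : ℝ,
        (χ = 1 → e = (1 / (unq_pt a ρ.im - 1)).re) ∧ (χ ≠ 1 → e = 0) ∧ e ≤ l := by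
    intro q _ χ ρ hρ hz
    by_cases h : χ = 1
    · refine ⟨_, fun _ => rfl, fun h' => absurd h h', ?_⟩
      subst h
      rw [hc0l] at hρ
      have h3 := hfar q ρ (by linarith [hρ.1]) hz
      have h4 := h3.trans (Complex.norm_le_abs_re_add_abs_im _)
      rw [sub_re, sub_im, one_re, one_im, sub_zero] at h4
      have h5 : |ρ.re - 1| ≤ a / 10 := by
        rw [abs_le]
        constructor
        · linarith [hρ.1]
        · linarith [hρ.2.1]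
      have h6 : a / 10 ≤ d / 2 := by
        have h7 : a ≤ 1 / l := by
          rw [ha]
          refine div_le_div_of_nonneg_right ?_ hl0.le
          linarith
        have h8 : 1 / l ≤ d / 2 := by
          rw [div_le_iff₀ hl0]
          rw [div_le_iff₀ hd] at hl2
          linarith
        linarith
      have h7 : d / 2 ≤ |ρ.im| := by linarith
      have h8 : (d / 2) ^ 2 ≤ ρ.im ^ 2 := by
        rw [← sq_abs ρ.im]
        exact pow_le_pow_left₀ (by positivity) h7 2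
      rw [unq_re_inv, sub_re, sub_im, unq_pt_re, unq_pt_im, one_re, one_im, sub_zero]
      have h9 : 1 + a - 1 = a := by ring
      rw [h9]
      refine le_trans ?_ hl4
      rw [div_le_div_iff₀ (by positivity) (by positivity)]
      nlinarith [sq_nonneg a]
    · exact ⟨0, fun h' => absurd h' h, fun _ => rfl, hl0.le⟩
  -- the real parts of the kept zeros
  have hR : ∀ (ρ : ℂ) (t : ℝ), ρ ∈ rect (1 - c / 10 / l) T →
      100 / 121 * (a / (a ^ 2 + (t - ρ.im) ^ 2)) ≤ (1 / (unq_pt a t - ρ)).re := by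
    intro ρ t hρ
    rw [hc0l] at hρ
    rw [unq_re_inv, sub_re, sub_im, unq_pt_re, unq_pt_im]
    refine unq_low ha0 ?_ ?_
    · linarith [hρ.2.1]
    · linarith [hρ.1]
  have hR0 : a / (a ^ 2 + (0 : ℝ) ^ 2) = 1 / a := by
    rw [zero_pow (by norm_num), add_zero, sq, ← div_div, div_self ha0.ne']
  have hmem : ∀ (q : ℕ) [NeZero q] (χ : DirichletCharacter ℂ q) (ρ : ℂ) (t : ℝ),
      ρ ∈ rect (1 - c / 10 / l) T → Lf χ ρ = 0 → |t - ρ.im| ≤ 1 / 8 →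
        ρ ∈ zs χ (disc (3 / 2) t (3 / 4)) := by
    intro q _ χ ρ t hρ hz ht
    rw [mem_zs χ (disc_bounded _ _ _)]
    refine ⟨?_, hz⟩
    rw [hc0l] at hρ
    rw [disc, Metric.mem_closedBall, dist_eq_norm]
    refine (Complex.norm_le_abs_re_add_abs_im _).trans ?_
    have h3 : (ρ - (((3 / 2 : ℝ) : ℂ) + (t : ℂ) * I)).re = ρ.re - 3 / 2 := by simp
    have h4 : (ρ - (((3 / 2 : ℝ) : ℂ) + (t : ℂ) * I)).im = -(t - ρ.im) := by simp
    rw [h3, h4, abs_neg]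
    have h5 : |ρ.re - 3 / 2| ≤ 1 / 2 + a / 10 := by
      rw [abs_le]
      constructor
      · linarith [hρ.1]
      · linarith [hρ.2.1]
    linarith
  -- one kept zero
  have hone : ∀ (q : ℕ) [NeZero q] (χ : DirichletCharacter ℂ q) (ρ : ℂ),
      ρ ∈ rect (1 - c / 10 / l) T → Lf χ ρ = 0 →
        ∃ K ⊆ zs χ (disc (3 / 2) ρ.im (3 / 4)),
          100 / 121 * (1 / a + 0) ≤ ∑ ρ' ∈ K, (zm χ ρ' : ℝ) * (1 / (unq_pt a ρ.im - ρ')).re := by
    intro q _ χ ρ hρ hz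
    refine ⟨{ρ}, ?_, ?_⟩
    · rw [Finset.singleton_subset_iff]
      exact hmem q χ ρ ρ.im hρ hz (by rw [sub_self, abs_zero]; norm_num)
    · rw [Finset.sum_singleton]
      have h3 := hR ρ ρ.im hρ
      rw [sub_self, hR0] at h3
      have h4 : (1 : ℝ) ≤ zm χ ρ := by exact_mod_cast zm_pos χ hz
      have h5 : 0 ≤ 100 / 121 * (1 / a) := by positivity
      rw [add_zero]
      nlinarith
  have hD0 : (unq_D (1 : DirichletCharacter ℂ 1) (unq_pt a 0)).re ≤ C * l + 1 / a := by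
    have h3 := hup T hT2 1 1 (by
      rw [Nat.cast_one]
      nlinarith) 0 (by
      rw [abs_zero]
      positivity) a ha0 ha2 ∅ (Finset.empty_subset _) (1 / (unq_pt a 0 - 1)).re (fun _ => rfl)
      (fun h => absurd rfl h)
    rw [Finset.sum_empty, neg_zero, zero_add] at h3
    have h4 : (1 / (unq_pt a 0 - 1)).re = 1 / a := by
      rw [unq_re_inv, sub_re, sub_im, unq_pt_re, unq_pt_im, one_re, one_im, sub_zero]
      have h9 : 1 + a - 1 = a := by ring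
      rw [h9, hR0]
    rw [h4] at h3
    exact h3
  have haC : a = 1 / (40 * (C + 1)) / l := rfl
  refine ⟨?_, ?_⟩
  · -- different characters
    intro q₁ q₂ _ _ χ₁ χ₂ hq₁ hq₂ hdif ρ₁ hρ₁ ρ₂ hρ₂ hz₁ hz₂
    have hqT : ∀ q : ℕ, (q : ℝ) ≤ T → (q : ℝ) ≤ T ^ 2 := fun q hq => by nlinarith
    obtain ⟨e₁, he1, he1', he1l⟩ := hE q₁ χ₁ ρ₁ hρ₁ hz₁
    obtain ⟨e₂, he2, he2', he2l⟩ := hE q₂ χ₂ ρ₂ hρ₂ hz₂
    obtain ⟨K₁, hK₁, hS₁⟩ := hone q₁ χ₁ ρ₁ hρ₁ hz₁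
    obtain ⟨K₂, hK₂, hS₂⟩ := hone q₂ χ₂ ρ₂ hρ₂ hz₂
    have him : ∀ ρ : ℂ, ρ ∈ rect (1 - c / 10 / l) T → |ρ.im| ≤ 4 * T := fun ρ hρ =>
      hρ.2.2.trans (by linarith)
    have u1 := hup T hT2 q₁ χ₁ (hqT _ hq₁) ρ₁.im (him _ hρ₁) a ha0 ha2 K₁ hK₁ e₁ he1 he1'
    have u2 := hup T hT2 q₂ χ₂ (hqT _ hq₂) ρ₂.im (him _ hρ₂) a ha0 ha2 K₂ hK₂ e₂ he2 he2'
    have u3 := hup T hT2 (q₁ * q₂) (MT.prodChar χ₁ χ₂⁻¹) (by
        push_cast
        have := mul_le_mul hq₁ hq₂ (Nat.cast_nonneg _) hT0.le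
        nlinarith) (ρ₁.im - ρ₂.im) (by
        have h3 := abs_sub ρ₁.im ρ₂.im
        have h4 := hρ₁.2.2
        have h5 := hρ₂.2.2
        linarith) a ha0 ha2 ∅ (Finset.empty_subset _) 0 (fun h => absurd h hdif) (fun _ => rfl)
    rw [Finset.sum_empty, neg_zero, zero_add] at u3
    have hpos := unq_pos χ₁ χ₂ (MT.prodChar χ₁ χ₂⁻¹) (fun n => by
      rw [MT.prodChar_nat, unq_conj]) a ρ₁.im ρ₂.im ha0
    exact unq_num hC hl16 haC le_rfl hpos hD0 u1 u2 u3 he1l he2l hS₁ hS₂ (by norm_num)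
  · -- the same character
    intro q _ χ hq
    by_contra hcon
    push Not at hcon
    have hqT : (q : ℝ) ≤ T ^ 2 := by nlinarith
    have hb := rect_bounded (1 - c / 10 / l) T
    have hZ : ∀ ρ, ρ ∈ zs χ (rect (1 - c / 10 / l) T) ↔
        ρ ∈ rect (1 - c / 10 / l) T ∧ Lf χ ρ = 0 := fun ρ => mem_zs χ hb ρ
    have hpair : ∃ ρ₁ ∈ zs χ (rect (1 - c / 10 / l) T), ∃ ρ₂ ∈ zs χ (rect (1 - c / 10 / l) T),
        ρ₁ ≠ ρ₂ ∨ (ρ₁ = ρ₂ ∧ 2 ≤ zm χ ρ₁) := by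
      by_contra hno
      push Not at hno
      have h3 : (zs χ (rect (1 - c / 10 / l) T)).card ≤ 1 := by
        rw [Finset.card_le_one]
        intro x hx y hy
        exact (hno x hx y hy).1
      have h4 : ∀ ρ ∈ zs χ (rect (1 - c / 10 / l) T), zm χ ρ ≤ 1 := by
        intro ρ hρ
        have h5 := (hno ρ hρ ρ hρ).2 rfl
        omega
      have h5 : ∑ ρ ∈ zs χ (rect (1 - c / 10 / l) T), zm χ ρ ≤
          (zs χ (rect (1 - c / 10 / l) T)).card • 1 := Finset.sum_le_card_nsmul _ _ _ h4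
      rw [smul_eq_mul, mul_one] at h5
      exact absurd (hcon.trans_le (h5.trans h3)) (lt_irrefl _)
    obtain ⟨ρ₁, hρ₁', ρ₂, hρ₂', hor⟩ := hpair
    obtain ⟨hρ₁, hz₁⟩ := (hZ ρ₁).mp hρ₁'
    obtain ⟨hρ₂, hz₂⟩ := (hZ ρ₂).mp hρ₂'
    obtain ⟨e₁, he1, he1', he1l⟩ := hE q χ ρ₁ hρ₁ hz₁
    obtain ⟨e₂, he2, he2', he2l⟩ := hE q χ ρ₂ hρ₂ hz₂
    have him : ∀ ρ : ℂ, ρ ∈ rect (1 - c / 10 / l) T → |ρ.im| ≤ 4 * T := fun ρ hρ =>
      hρ.2.2.trans (by linarith)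
    have u3 := hup T hT2 q (1 : DirichletCharacter ℂ q) hqT (ρ₁.im - ρ₂.im) (by
        have h3 := abs_sub ρ₁.im ρ₂.im
        have h4 := hρ₁.2.2
        have h5 := hρ₂.2.2
        linarith) a ha0 ha2 ∅ (Finset.empty_subset _) _ (fun _ => rfl) (fun h => absurd rfl h)
    rw [Finset.sum_empty, neg_zero, zero_add] at u3
    have hpos := unq_pos χ χ (1 : DirichletCharacter ℂ q) (fun n => by
      rw [← unq_conj, ← MulChar.mul_apply, mul_inv_cancel]) a ρ₁.im ρ₂.im ha0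
    have he3 : (1 / (unq_pt a (ρ₁.im - ρ₂.im) - 1)).re =
        a / (a ^ 2 + (ρ₁.im - ρ₂.im) ^ 2) := by
      rw [unq_re_inv, sub_re, sub_im, unq_pt_re, unq_pt_im, one_re, one_im, sub_zero]
      have h9 : 1 + a - 1 = a := by ring
      rw [h9]
    rw [he3] at u3
    set r : ℝ := a / (a ^ 2 + (ρ₁.im - ρ₂.im) ^ 2) with hr
    have hr0 : 0 ≤ r := by positivity
    by_cases hD : |ρ₁.im - ρ₂.im| ≤ 1 / 8
    · have hK : ∀ t : ℝ, t = ρ₁.im ∨ t = ρ₂.im → ∃ K ⊆ zs χ (disc (3 / 2) t (3 / 4)),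
          100 / 121 * (1 / a + r) ≤ ∑ ρ' ∈ K, (zm χ ρ' : ℝ) * (1 / (unq_pt a t - ρ')).re := by
        intro t ht
        have hm1 : ρ₁ ∈ zs χ (disc (3 / 2) t (3 / 4)) := by
          refine hmem q χ ρ₁ t hρ₁ hz₁ ?_
          rcases ht with rfl | rfl
          · rw [sub_self, abs_zero]
            norm_num
          · rw [abs_sub_comm]
            exact hD
        have hm2 : ρ₂ ∈ zs χ (disc (3 / 2) t (3 / 4)) := by
          refine hmem q χ ρ₂ t hρ₂ hz₂ ?_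
          rcases ht with rfl | rfl
          · exact hD
          · rw [sub_self, abs_zero]
            norm_num
        have r1 := hR ρ₁ t hρ₁
        have r2 := hR ρ₂ t hρ₂
        have z1 : (1 : ℝ) ≤ zm χ ρ₁ := by exact_mod_cast zm_pos χ hz₁
        have z2 : (1 : ℝ) ≤ zm χ ρ₂ := by exact_mod_cast zm_pos χ hz₂
        have p1 : 0 ≤ a / (a ^ 2 + (t - ρ₁.im) ^ 2) := by positivity
        have p2 : 0 ≤ a / (a ^ 2 + (t - ρ₂.im) ^ 2) := by positivity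
        have hsum : a / (a ^ 2 + (t - ρ₁.im) ^ 2) + a / (a ^ 2 + (t - ρ₂.im) ^ 2) = 1 / a + r := by
          rcases ht with rfl | rfl
          · rw [sub_self, hR0]
          · rw [sub_self, hR0, hr, add_comm, ← neg_sub ρ₁.im ρ₂.im, neg_sq]
        rcases hor with hne | ⟨heq, hz2⟩
        · refine ⟨{ρ₁, ρ₂}, ?_, ?_⟩
          · intro x hx
            rw [Finset.mem_insert, Finset.mem_singleton] at hx
            rcases hx with rfl | rfl
            · exact hm1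
            · exact hm2
          · rw [Finset.sum_pair hne, ← hsum]
            exact unq_two p1 p2 r1 r2 z1 z2
        · refine ⟨{ρ₁}, Finset.singleton_subset_iff.mpr hm1, ?_⟩
          rw [Finset.sum_singleton, ← hsum]
          have h5 : (2 : ℝ) ≤ zm χ ρ₁ := by exact_mod_cast hz2
          rw [← heq]
          exact unq_dbl p1 r1 h5
      obtain ⟨K₁, hK₁, hS₁⟩ := hK ρ₁.im (Or.inl rfl)
      obtain ⟨K₂, hK₂, hS₂⟩ := hK ρ₂.im (Or.inr rfl)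
      have u1 := hup T hT2 q χ hqT ρ₁.im (him _ hρ₁) a ha0 ha2 K₁ hK₁ e₁ he1 he1'
      have u2 := hup T hT2 q χ hqT ρ₂.im (him _ hρ₂) a ha0 ha2 K₂ hK₂ e₂ he2 he2'
      exact unq_num hC hl16 haC hr0 hpos hD0 u1 u2 u3 he1l he2l hS₁ hS₂ (by linarith)
    · obtain ⟨K₁, hK₁, hS₁⟩ := hone q χ ρ₁ hρ₁ hz₁
      obtain ⟨K₂, hK₂, hS₂⟩ := hone q χ ρ₂ hρ₂ hz₂
      have u1 := hup T hT2 q χ hqT ρ₁.im (him _ hρ₁) a ha0 ha2 K₁ hK₁ e₁ he1 he1'
      have u2 := hup T hT2 q χ hqT ρ₂.im (him _ hρ₂) a ha0 ha2 K₂ hK₂ e₂ he2 he2'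
      have hr2 : r ≤ 0 + 1 / 2 := unq_rhalf ha0 haS (not_le.mp hD).le
      exact unq_num hC hl16 haC le_rfl hpos hD0 u1 u2 u3 he1l he2l hS₁ hS₂ hr2

end Pool.Agent.MVX
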