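import Pool.Agent.MVX.StF

set_option autoImplicit false

/-!
# Project MVX, L-core, module Wbd: bound of the window kernel of a zero
-/

namespace Pool.Agent.MVX

open Finset Filter MeasureTheory

theorem wbd_diff (ρ : ℂ) (h0 : 1 / 2 ≤ ρ.re) (s t : ℝ) (hs : 0 ≤ s) (hst : s ≤ t) :
    ‖(t : ℂ) ^ ρ - (s : ℂ) ^ ρ‖ ≤ ‖ρ‖ * ((t ^ ρ.re - s ^ ρ.re) / ρ.re) := by
  have hρ : ρ ≠ 0 := by
    intro h
    rw [h] at h0
    norm_num at h0
  have h1 := integral_cpow (a := s) (b := t) (r := ρ - 1) (Or.inl (by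
    rw [Complex.sub_re, Complex.one_re]; linarith))
  rw [sub_add_cancel] at h1
  have h2 : (t : ℂ) ^ ρ - (s : ℂ) ^ ρ = ρ * ∫ u in s..t, (u : ℂ) ^ (ρ - 1) := by
    rw [h1]
    field_simp
  rw [h2, norm_mul]
  apply mul_le_mul_of_nonneg_left _ (norm_nonneg _)
  have h3 : ‖∫ u in s..t, (u : ℂ) ^ (ρ - 1)‖ ≤ ∫ u in s..t, u ^ (ρ.re - 1) := by
    apply intervalIntegral.norm_integral_le_of_norm_le hst
    · filter_upwards with u hu
      have hu0 : 0 < u := lt_of_le_of_lt hs hu.1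
      rw [Complex.norm_cpow_eq_rpow_re_of_pos hu0, Complex.sub_re, Complex.one_re]
    · exact intervalIntegral.intervalIntegrable_rpow' (by linarith)
  refine h3.trans (le_of_eq ?_)
  rw [integral_rpow (Or.inl (by linarith)), sub_add_cancel]

theorem wbd_main (ρ : ℂ) (h0 : 1 / 2 ≤ ρ.re) (x H K : ℝ) (hH : 0 < H) (hx : H ≤ x)
    (hK : ∀ s t : ℝ, x - H ≤ s → s ≤ x → t = s + H → (t ^ ρ.re - s ^ ρ.re) / ρ.re ≤ K) :
    ‖((x + H : ℝ) : ℂ) ^ (ρ + 1) - 2 * (x : ℂ) ^ (ρ + 1) + ((x - H : ℝ) : ℂ) ^ (ρ + 1)‖ ≤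
      ‖ρ * (ρ + 1)‖ * (K * H) := by
  have hρ1 : ρ + 1 ≠ 0 := by
    intro h
    have := congrArg Complex.re h
    rw [Complex.add_re, Complex.one_re, Complex.zero_re] at this
    linarith
  have hre : -1 < ρ.re := by linarith
  have i1 := integral_cpow (a := x) (b := x + H) (r := ρ) (Or.inl hre)
  have i2 := integral_cpow (a := x - H) (b := x) (r := ρ) (Or.inl hre)
  have i3 : ∫ u in (x - H)..x, ((u + H : ℝ) : ℂ) ^ ρ = ∫ u in x..(x + H), (u : ℂ) ^ ρ := by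
    rw [intervalIntegral.integral_comp_add_right (fun u : ℝ => (u : ℂ) ^ ρ) H, sub_add_cancel]
  have int2 : IntervalIntegrable (fun u : ℝ => (u : ℂ) ^ ρ) volume (x - H) x :=
    intervalIntegral.intervalIntegrable_cpow' hre
  have int1 : IntervalIntegrable (fun u : ℝ => ((u + H : ℝ) : ℂ) ^ ρ) volume (x - H) x := by
    have : IntervalIntegrable (fun u : ℝ => (u : ℂ) ^ ρ) volume x (x + H) :=
      intervalIntegral.intervalIntegrable_cpow' hre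
    have h := this.comp_add_right H
    rwa [add_sub_cancel_right] at h
  have hkey : ((x + H : ℝ) : ℂ) ^ (ρ + 1) - 2 * (x : ℂ) ^ (ρ + 1) + ((x - H : ℝ) : ℂ) ^ (ρ + 1) =
      (ρ + 1) * ∫ u in (x - H)..x, (((u + H : ℝ) : ℂ) ^ ρ - (u : ℂ) ^ ρ) := by
    rw [intervalIntegral.integral_sub int1 int2, i3, i1, i2]
    field_simp
    ring
  rw [hkey, norm_mul, norm_mul]
  have hb : ‖∫ u in (x - H)..x, (((u + H : ℝ) : ℂ) ^ ρ - (u : ℂ) ^ ρ)‖ ≤
      ‖ρ‖ * K * |x - (x - H)| := by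
    apply intervalIntegral.norm_integral_le_of_norm_le_const
    intro u hu
    rw [Set.uIoc_of_le (by linarith)] at hu
    have h1 := wbd_diff ρ h0 u (u + H) (by linarith [hu.1]) (by linarith)
    refine h1.trans ?_
    exact mul_le_mul_of_nonneg_left (hK u (u + H) hu.1.le hu.2 rfl) (norm_nonneg _)
  rw [sub_sub_cancel, abs_of_pos hH] at hb
  calc ‖ρ + 1‖ * ‖∫ u in (x - H)..x, (((u + H : ℝ) : ℂ) ^ ρ - (u : ℂ) ^ ρ)‖
      ≤ ‖ρ + 1‖ * (‖ρ‖ * K * H) := mul_le_mul_of_nonneg_left hb (norm_nonneg _)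
    _ = _ := by ring

theorem wbd_case1 (σ : ℝ) (h0 : 1 / 2 ≤ σ) (h1 : σ ≤ 1) (x H s : ℝ) (hH : 0 < H)
    (hx : 2 * H ≤ x) (hs : x - H ≤ s) : ((s + H) ^ σ - s ^ σ) / σ ≤ 2 * H * x ^ (σ - 1) := by
  have hx0 : 0 < x := by linarith
  have hs0 : 0 < s := by linarith
  have hσ : 0 < σ := by linarith
  have hb : (s + H) ^ σ ≤ s ^ σ * (1 + σ * (H / s)) := by
    have e1 : s + H = s * (1 + H / s) := by
      field_simp
    rw [e1, Real.mul_rpow hs0.le (by positivity)]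
    apply mul_le_mul_of_nonneg_left _ (Real.rpow_nonneg hs0.le _)
    exact rpow_one_add_le_one_add_mul_self (by
      have : 0 < H / s := by positivity
      linarith) hσ.le h1
  have h2 : ((s + H) ^ σ - s ^ σ) / σ ≤ H * s ^ (σ - 1) := by
    rw [div_le_iff₀ hσ, Real.rpow_sub hs0, Real.rpow_one]
    have e2 : H * (s ^ σ / s) * σ = s ^ σ * (σ * (H / s)) := by ring
    rw [e2]
    linarith
  have h3 : s ^ (σ - 1) ≤ 2 * x ^ (σ - 1) := by
    have e3 : s ^ (σ - 1) ≤ (x / 2) ^ (σ - 1) :=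
      Real.rpow_le_rpow_of_nonpos (by linarith) (by linarith) (by linarith)
    have e4 : (x / 2) ^ (σ - 1) = x ^ (σ - 1) * 2 ^ (1 - σ) := by
      rw [Real.div_rpow hx0.le (by norm_num), div_eq_mul_inv, ← Real.rpow_neg (by norm_num)]
      congr 2
      ring
    have e5 : (2 : ℝ) ^ (1 - σ) ≤ 2 := by
      calc (2 : ℝ) ^ (1 - σ) ≤ (2 : ℝ) ^ (1 : ℝ) :=
            Real.rpow_le_rpow_of_exponent_le (by norm_num) (by linarith)
        _ = 2 := Real.rpow_one 2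
    rw [e4] at e3
    have e6 : 0 ≤ x ^ (σ - 1) := Real.rpow_nonneg hx0.le _
    nlinarith
  calc ((s + H) ^ σ - s ^ σ) / σ ≤ H * s ^ (σ - 1) := h2
    _ ≤ H * (2 * x ^ (σ - 1)) := mul_le_mul_of_nonneg_left h3 hH.le
    _ = _ := by ring

theorem wbd_case2 (σ : ℝ) (h0 : 1 / 2 ≤ σ) (h1 : σ ≤ 1) (x H s : ℝ) (hH : 0 < H)
    (hx : H ≤ x) (hx2 : x ≤ 2 * H) (hs : x - H ≤ s) (hsx : s ≤ x) :
    ((s + H) ^ σ - s ^ σ) / σ ≤ 8 * H * x ^ (σ - 1) := by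
  have hx0 : 0 < x := by linarith
  have hs0 : 0 ≤ s := by linarith
  have hσ : 0 < σ := by linarith
  have e1 : (s + H) ^ σ ≤ (2 * x) ^ σ := Real.rpow_le_rpow (by linarith) (by linarith) hσ.le
  have e2 : (2 * x) ^ σ ≤ 2 * x ^ σ := by
    rw [Real.mul_rpow (by norm_num) hx0.le]
    apply mul_le_mul_of_nonneg_right _ (Real.rpow_nonneg hx0.le _)
    calc (2 : ℝ) ^ σ ≤ (2 : ℝ) ^ (1 : ℝ) :=
          Real.rpow_le_rpow_of_exponent_le (by norm_num) h1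
      _ = 2 := Real.rpow_one 2
  have e3 : 0 ≤ s ^ σ := Real.rpow_nonneg hs0 _
  have e4 : x ^ σ = x * x ^ (σ - 1) := by
    rw [Real.rpow_sub hx0, Real.rpow_one]
    field_simp
  have e5 : 0 ≤ x ^ (σ - 1) := Real.rpow_nonneg hx0.le _
  rw [div_le_iff₀ hσ]
  have e6 : x * x ^ (σ - 1) ≤ 2 * H * x ^ (σ - 1) := mul_le_mul_of_nonneg_right hx2 e5
  have e7 : 4 * H * x ^ (σ - 1) ≤ 8 * H * x ^ (σ - 1) * σ := by
    have : 0 ≤ H * x ^ (σ - 1) := by positivity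
    nlinarith
  calc (s + H) ^ σ - s ^ σ ≤ 2 * x ^ σ := by linarith
    _ = 2 * (x * x ^ (σ - 1)) := by rw [e4]
    _ ≤ 2 * (2 * H * x ^ (σ - 1)) := by linarith
    _ ≤ 8 * H * x ^ (σ - 1) * σ := by linarith

theorem thm_Wbd : St_Wbd := by
  intro ρ h0 h1 H x hH hHx
  have hHR : (0 : ℝ) < H := by exact_mod_cast hH
  have hHxR : (H : ℝ) ≤ x := by exact_mod_cast hHx
  have hx0 : (0 : ℝ) < x := by linarith
  have hK : ∀ s t : ℝ, (x : ℝ) - H ≤ s → s ≤ x → t = s + H →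
      (t ^ ρ.re - s ^ ρ.re) / ρ.re ≤ 8 * H * (x : ℝ) ^ (ρ.re - 1) := by
    intro s t hs hsx ht
    rw [ht]
    rcases le_total (2 * (H : ℝ)) x with h | h
    · refine (wbd_case1 ρ.re h0 h1 x H s hHR h hs).trans ?_
      have : 0 ≤ (H : ℝ) * (x : ℝ) ^ (ρ.re - 1) :=
        mul_nonneg hHR.le (Real.rpow_nonneg hx0.le _)
      nlinarith
    · exact wbd_case2 ρ.re h0 h1 x H s hHR hHxR h hs hsx
  have hm := wbd_main ρ h0 x H _ hHR hHxR hK
  have hρ : ρ ≠ 0 := by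
    intro h
    rw [h] at h0
    norm_num at h0
  have hρ1 : ρ + 1 ≠ 0 := by
    intro h
    have := congrArg Complex.re h
    rw [Complex.add_re, Complex.one_re, Complex.zero_re] at this
    linarith
  have hpos : 0 < ‖ρ * (ρ + 1)‖ := norm_pos_iff.2 (mul_ne_zero hρ hρ1)
  have hW : Wn ρ H x = ((H : ℂ) ^ 2)⁻¹ * ((((x : ℝ) + H : ℝ) : ℂ) ^ (ρ + 1) -
      2 * (((x : ℝ)) : ℂ) ^ (ρ + 1) + (((x : ℝ) - H : ℝ) : ℂ) ^ (ρ + 1)) / (ρ * (ρ + 1)) := by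
    rw [Wn, Nat.cast_sub hHx]
    push_cast
    rfl
  rw [hW, norm_div, norm_mul, norm_inv, norm_pow, Complex.norm_natCast, div_le_iff₀ hpos]
  have hinv : 0 ≤ ((H : ℝ) ^ 2)⁻¹ := by positivity
  refine (mul_le_mul_of_nonneg_left hm hinv).trans (le_of_eq ?_)
  field_simp

end Pool.Agent.MVX
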