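import Pool.Agent.MVX.StD

set_option autoImplicit false

/-!
# Project MVX, module Wsum: weighted sum over the zeros
-/

namespace Pool.Agent.MVX

open Finset

private theorem wsum_card (T : ℝ) (hT : 0 ≤ T) : ((PS T).card : ℝ) ≤ T ^ 2 := by
  classical
  have h1 : (PS T).card ≤ ⌊T⌋₊ ^ 2 := by
    unfold PS
    rw [card_sigma]
    calc ∑ q ∈ Icc 1 ⌊T⌋₊, (prm q).card ≤ ∑ q ∈ Icc 1 ⌊T⌋₊, ⌊T⌋₊ := by
          refine sum_le_sum fun q hq => ?_
          rw [mem_Icc] at hq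
          have : NeZero q := ⟨by omega⟩
          calc (prm q).card ≤ Fintype.card (DirichletCharacter ℂ q) := card_le_univ _
            _ = Nat.card (DirichletCharacter ℂ q) := (Nat.card_eq_fintype_card).symm
            _ = q.totient := DirichletCharacter.card_eq_totient_of_hasEnoughRootsOfUnity ℂ q
            _ ≤ q := Nat.totient_le q
            _ ≤ ⌊T⌋₊ := hq.2
      _ = ⌊T⌋₊ ^ 2 := by simp [sq]
  have h2 : ((PS T).card : ℝ) ≤ (⌊T⌋₊ : ℝ) ^ 2 := by exact_mod_cast h1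
  exact h2.trans (pow_le_pow_left₀ (Nat.cast_nonneg _) (Nat.floor_le hT) 2)

private theorem wsum_PS {T : ℝ} {c : Chr} (hT : 0 ≤ T) (h : c ∈ PS T) : c.1 ≠ 0 ∧ (c.1 : ℝ) ≤ T := by
  unfold PS at h
  obtain ⟨h1, _⟩ := mem_sigma.1 h
  rw [mem_Icc] at h1
  exact ⟨by omega, (Nat.cast_le.2 h1.2).trans (Nat.floor_le hT)⟩

private theorem wsum_PS_mono {T T' : ℝ} (h : T ≤ T') : PS T ⊆ PS T' := by
  unfold PS
  exact sigma_mono (Icc_subset_Icc_right (Nat.floor_mono h)) fun _ => Subset.refl _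

private theorem wsum_zc {c : Chr} {K K' : Set ℂ} (hK : Bornology.IsBounded K)
    (hK' : Bornology.IsBounded K') {ρ : ℂ} (h : ρ ∈ zc c K) (h' : ρ ∈ K') :
    ρ ∈ K ∧ ρ ∈ zc c K' := by
  unfold zc at h ⊢
  by_cases h0 : c.1 = 0
  · rw [dif_pos h0] at h
    exact absurd h (notMem_empty _)
  · rw [dif_neg h0] at h ⊢
    have : NeZero c.1 := ⟨h0⟩
    have h1 := (mem_zs c.2 hK ρ).1 h
    exact ⟨h1.1, (mem_zs c.2 hK' ρ).2 ⟨h', h1.2⟩⟩

private theorem wsum_mem {c : Chr} {K : Set ℂ} (hK : Bornology.IsBounded K) {ρ : ℂ}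
    (h : ρ ∈ zc c K) : ρ ∈ K := by
  unfold zc at h
  by_cases h0 : c.1 = 0
  · rw [dif_pos h0] at h
    exact absurd h (notMem_empty _)
  · rw [dif_neg h0] at h
    have : NeZero c.1 := ⟨h0⟩
    exact ((mem_zs c.2 hK ρ).1 h).1

/-- the zeros in a group -/
private theorem wsum_group {T η : ℝ} (hT : 1 ≤ T) :
    ∑ c ∈ PS T, ∑ ρ ∈ zc c (rect (7 / 8) (T + 1)), (if 1 - ρ.re ≤ η then (mc c ρ : ℝ) else 0) ≤
      (NT η (2 * T) : ℝ) := by
  classical
  unfold NT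
  push_cast
  refine (sum_le_sum fun c _ => ?_).trans (sum_le_sum_of_subset_of_nonneg
    (wsum_PS_mono (T := T) (T' := 2 * T) (by linarith)) fun c _ _ =>
      sum_nonneg fun ρ _ => Nat.cast_nonneg _)
  rw [← sum_filter]
  refine sum_le_sum_of_subset_of_nonneg (fun ρ hρ => ?_) fun ρ _ _ => Nat.cast_nonneg _
  obtain ⟨h1, h2⟩ := mem_filter.1 hρ
  have h3 := wsum_mem (rect_bounded _ _) h1
  refine (wsum_zc (rect_bounded _ _) (rect_bounded _ _) h1 ?_).2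
  exact ⟨by linarith, h3.2.1, h3.2.2.trans (by linarith)⟩

/-- all zeros -/
private theorem wsum_all {C T : ℝ} (hT : 2 ≤ T) (hC : 0 < C)
    (hHB : ∀ (q : ℕ) [NeZero q] (χ : DirichletCharacter ℂ q), (q : ℝ) ≤ T →
      ∑ ρ ∈ zs χ (rect (7 / 8) (T + 1)), (zm χ ρ : ℝ) ≤ C * T * Real.log T) :
    ∑ c ∈ PS T, ∑ ρ ∈ zc c (rect (7 / 8) (T + 1)), (mc c ρ : ℝ) ≤ C * T ^ 4 := by
  have h1 : ∀ c ∈ PS T, ∑ ρ ∈ zc c (rect (7 / 8) (T + 1)), (mc c ρ : ℝ) ≤ C * T * Real.log T := by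
    intro c hc
    obtain ⟨h0, h2⟩ := wsum_PS (by linarith) hc
    have : NeZero c.1 := ⟨h0⟩
    have h3 := hHB c.1 c.2 h2
    have e1 : zc c (rect (7 / 8) (T + 1)) = zs c.2 (rect (7 / 8) (T + 1)) := by
      unfold zc
      rw [dif_neg h0]
    have e2 : ∀ ρ, mc c ρ = zm c.2 ρ := by
      intro ρ
      unfold mc
      rw [dif_neg h0]
    rw [e1]
    simp only [e2]
    exact h3
  have hlog0 : 0 ≤ Real.log T := Real.log_nonneg (by linarith)
  have hlog : Real.log T ≤ T := by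
    have := Real.log_le_sub_one_of_pos (by linarith : (0 : ℝ) < T)
    linarith
  calc _ ≤ ∑ c ∈ PS T, C * T * Real.log T := sum_le_sum h1
    _ = (PS T).card * (C * T * Real.log T) := by rw [sum_const, nsmul_eq_mul]
    _ ≤ T ^ 2 * (C * T * T) := by
        refine mul_le_mul (wsum_card T (by linarith)) ?_ (by positivity) (by positivity)
        exact mul_le_mul_of_nonneg_left hlog (by positivity)
    _ = C * T ^ 4 := by ring

theorem thm_Wsum (h1 : St_NTt) (h2 : St_HB) : St_Wsum := by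
  classical
  obtain ⟨C₁, T₁, hC₁, hT₁, hNT⟩ := h1
  obtain ⟨C₂, hC₂, hHB⟩ := h2
  have hD : 0 < C₁ * Real.exp (2 * C₁) := by positivity
  refine ⟨C₂ + 2 * (C₁ * Real.exp (2 * C₁)), 6000 + 4 * C₁, max T₁ (Real.exp 2000), by positivity,
    by linarith, hT₁.trans (le_max_left _ _), ?_⟩
  intro T hT Y hY η₀ hη0 hη1
  have hT1 : T₁ ≤ T := (le_max_left _ _).trans hT
  have hT2 : 2 ≤ T := hT₁.trans hT1
  have hT0 : 0 < T := by linarith
  obtain ⟨L, hL⟩ : ∃ L : ℝ, L = Real.log T := ⟨_, rfl⟩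
  have hL1 : 2000 ≤ L := by
    rw [hL, Real.le_log_iff_exp_le hT0]
    exact (le_max_right _ _).trans hT
  have hL0 : 0 < L := by linarith
  have hYT : T ^ (6000 + 4 * C₁) ≤ Y := hY
  have hY1 : 1 ≤ Y := le_trans (Real.one_le_rpow (by linarith) (by linarith)) hYT
  have hY0 : 0 < Y := by linarith
  obtain ⟨y, hy⟩ : ∃ y : ℝ, y = Real.log Y := ⟨_, rfl⟩
  have hyL : (6000 + 4 * C₁) * L ≤ y := by
    rw [hy, hL, ← Real.log_rpow hT0]
    exact Real.log_le_log (Real.rpow_pos_of_pos hT0 _) hYT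
  have hy0 : 0 ≤ y := by
    have : 0 ≤ (6000 + 4 * C₁) * L := by positivity
    linarith
  have hYexp : ∀ a : ℝ, Y ^ a = Real.exp (y * a) := fun a => by
    rw [Real.rpow_def_of_pos hY0, hy]
  -- the number of groups
  set M : ℕ := ⌊(1 / 400 - η₀) * L⌋₊ with hM
  have hMk : ∀ k ∈ range M, η₀ + ((k : ℝ) + 1) / L ≤ 1 / 400 := by
    intro k hk
    have h3 : k + 1 ≤ M := mem_range.1 hk
    have h4 : ((k : ℝ) + 1) ≤ M := by exact_mod_cast h3
    have h5 : (M : ℝ) ≤ (1 / 400 - η₀) * L :=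
      Nat.floor_le (mul_nonneg (by linarith) hL0.le)
    have h6 : ((k : ℝ) + 1) / L ≤ 1 / 400 - η₀ := by
      rw [div_le_iff₀ hL0]
      linarith
    linarith
  -- the pointwise bound
  have hpt : ∀ c : Chr, ∀ ρ : ℂ, η₀ ≤ 1 - ρ.re → (mc c ρ : ℝ) * Y ^ (-(1 - ρ.re)) ≤
      (mc c ρ : ℝ) * Y ^ (-(1 / 500 : ℝ)) + ∑ k ∈ range M, Y ^ (-(η₀ + (k : ℝ) / L)) *
        (if 1 - ρ.re ≤ η₀ + ((k : ℝ) + 1) / L then (mc c ρ : ℝ) else 0) := by
    intro c ρ hρ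
    have hm0 : (0 : ℝ) ≤ mc c ρ := Nat.cast_nonneg _
    have hterm : ∀ k ∈ range M, 0 ≤ Y ^ (-(η₀ + (k : ℝ) / L)) *
        (if 1 - ρ.re ≤ η₀ + ((k : ℝ) + 1) / L then (mc c ρ : ℝ) else 0) := by
      intro k _
      refine mul_nonneg (Real.rpow_nonneg hY0.le _) ?_
      split_ifs
      · exact hm0
      · exact le_rfl
    rcases le_or_gt (1 / 500) (1 - ρ.re) with h3 | h3
    · have h4 : Y ^ (-(1 - ρ.re)) ≤ Y ^ (-(1 / 500 : ℝ)) :=
        Real.rpow_le_rpow_of_exponent_le hY1 (by linarith)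
      have h5 := mul_le_mul_of_nonneg_left h4 hm0
      have h6 := sum_nonneg hterm
      linarith
    · set k : ℕ := ⌊(1 - ρ.re - η₀) * L⌋₊ with hk
      have h4 : 0 ≤ (1 - ρ.re - η₀) * L := mul_nonneg (by linarith) hL0.le
      have h5 : (k : ℝ) ≤ (1 - ρ.re - η₀) * L := Nat.floor_le h4
      have h6 : (1 - ρ.re - η₀) * L < k + 1 := Nat.lt_floor_add_one _
      have h7 : k ∈ range M := by
        rw [mem_range]
        have h8 : k + 1 ≤ M := by
          refine Nat.le_floor ?_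
          push_cast
          nlinarith
        omega
      have h8 : (k : ℝ) / L ≤ 1 - ρ.re - η₀ := by
        rw [div_le_iff₀ hL0]
        exact h5
      have h9 : 1 - ρ.re ≤ η₀ + ((k : ℝ) + 1) / L := by
        have h10 : 1 - ρ.re - η₀ ≤ ((k : ℝ) + 1) / L := by
          rw [le_div_iff₀ hL0]
          exact h6.le
        linarith
      have h10 := single_le_sum hterm h7
      rw [if_pos h9] at h10
      have h11 : Y ^ (-(1 - ρ.re)) ≤ Y ^ (-(η₀ + (k : ℝ) / L)) :=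
        Real.rpow_le_rpow_of_exponent_le hY1 (by linarith)
      have h12 := mul_le_mul_of_nonneg_left h11 hm0
      have h13 : 0 ≤ (mc c ρ : ℝ) * Y ^ (-(1 / 500 : ℝ)) :=
        mul_nonneg hm0 (Real.rpow_nonneg hY0.le _)
      linarith
  -- the sum over all zeros
  have hsum : ∑ c ∈ PS T, ∑ ρ ∈ (zc c (rect (7 / 8) (T + 1))).filter (fun ρ => η₀ ≤ 1 - ρ.re),
      (mc c ρ : ℝ) * Y ^ (-(1 - ρ.re)) ≤
      (∑ c ∈ PS T, ∑ ρ ∈ zc c (rect (7 / 8) (T + 1)), (mc c ρ : ℝ)) * Y ^ (-(1 / 500 : ℝ)) +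
      ∑ k ∈ range M, Y ^ (-(η₀ + (k : ℝ) / L)) * ∑ c ∈ PS T, ∑ ρ ∈ zc c (rect (7 / 8) (T + 1)),
        (if 1 - ρ.re ≤ η₀ + ((k : ℝ) + 1) / L then (mc c ρ : ℝ) else 0) := by
    have e1 : (∑ c ∈ PS T, ∑ ρ ∈ zc c (rect (7 / 8) (T + 1)), (mc c ρ : ℝ)) *
        Y ^ (-(1 / 500 : ℝ)) + ∑ k ∈ range M, Y ^ (-(η₀ + (k : ℝ) / L)) *
        ∑ c ∈ PS T, ∑ ρ ∈ zc c (rect (7 / 8) (T + 1)),
        (if 1 - ρ.re ≤ η₀ + ((k : ℝ) + 1) / L then (mc c ρ : ℝ) else 0) =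
        ∑ c ∈ PS T, ∑ ρ ∈ zc c (rect (7 / 8) (T + 1)), ((mc c ρ : ℝ) * Y ^ (-(1 / 500 : ℝ)) +
          ∑ k ∈ range M, Y ^ (-(η₀ + (k : ℝ) / L)) *
          (if 1 - ρ.re ≤ η₀ + ((k : ℝ) + 1) / L then (mc c ρ : ℝ) else 0)) := by
      simp only [sum_add_distrib, sum_mul, mul_sum]
      congr 1
      rw [sum_comm]
      refine sum_congr rfl fun c _ => ?_
      rw [sum_comm]
    rw [e1]
    refine sum_le_sum fun c _ => ?_
    refine (sum_le_sum fun ρ hρ => hpt c ρ (mem_filter.1 hρ).2).trans ?_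
    refine sum_le_sum_of_subset_of_nonneg (filter_subset _ _) fun ρ _ _ => ?_
    refine add_nonneg (mul_nonneg (Nat.cast_nonneg _) (Real.rpow_nonneg hY0.le _))
      (sum_nonneg fun k _ => mul_nonneg (Real.rpow_nonneg hY0.le _) ?_)
    split_ifs
    · exact Nat.cast_nonneg _
    · exact le_rfl
  refine hsum.trans ?_
  -- the far zeros
  have hfar : (∑ c ∈ PS T, ∑ ρ ∈ zc c (rect (7 / 8) (T + 1)), (mc c ρ : ℝ)) *
      Y ^ (-(1 / 500 : ℝ)) ≤ C₂ * Y ^ (-(1 / 800 : ℝ)) := by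
    have h3 := wsum_all (C := C₂) hT2 hC₂ fun q _ χ hq => (hHB T hT2 q χ hq).2.2
    have h4 : T ^ 4 * Y ^ (-(1 / 500 : ℝ)) ≤ Y ^ (-(1 / 800 : ℝ)) := by
      have e1 : T ^ 4 = Real.exp (4 * L) := by
        rw [hL, show (4 : ℝ) * Real.log T = ((4 : ℕ) : ℝ) * Real.log T by norm_num,
          Real.exp_nat_mul, Real.exp_log hT0]
      rw [e1, hYexp, hYexp, ← Real.exp_add, Real.exp_le_exp]
      have h5 : 0 ≤ C₁ * L := by positivity
      nlinarith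
    calc _ ≤ (C₂ * T ^ 4) * Y ^ (-(1 / 500 : ℝ)) :=
          mul_le_mul_of_nonneg_right h3 (Real.rpow_nonneg hY0.le _)
      _ = C₂ * (T ^ 4 * Y ^ (-(1 / 500 : ℝ))) := by ring
      _ ≤ _ := mul_le_mul_of_nonneg_left h4 hC₂.le
  -- the near zeros
  have hnear : ∀ k ∈ range M, Y ^ (-(η₀ + (k : ℝ) / L)) * ∑ c ∈ PS T,
      ∑ ρ ∈ zc c (rect (7 / 8) (T + 1)),
      (if 1 - ρ.re ≤ η₀ + ((k : ℝ) + 1) / L then (mc c ρ : ℝ) else 0) ≤
      (C₁ * Real.exp (2 * C₁)) * Y ^ (-(η₀ / 2)) * (1 / 2) ^ k := by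
    intro k hk
    have hηk := hMk k hk
    have hk0 : (0 : ℝ) ≤ k := Nat.cast_nonneg _
    have h3 := wsum_group (T := T) (η := η₀ + ((k : ℝ) + 1) / L) (by linarith)
    have h4 := hNT (2 * T) (by linarith) (η₀ + ((k : ℝ) + 1) / L) (by positivity) hηk
    have h5 : (2 * T) ^ (C₁ * (η₀ + ((k : ℝ) + 1) / L)) ≤
        Real.exp (2 * C₁ * (η₀ * L + k + 1)) := by
      rw [Real.rpow_def_of_pos (by linarith), Real.exp_le_exp]
      have h6 : Real.log (2 * T) ≤ 2 * L := by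
        rw [Real.log_mul (by norm_num) hT0.ne', ← hL]
        have h7 : Real.log 2 ≤ L := by
          rw [hL]
          exact Real.log_le_log (by norm_num) hT2
        linarith
      have h7 : 0 ≤ C₁ * (η₀ + ((k : ℝ) + 1) / L) := by positivity
      have h8 := mul_le_mul_of_nonneg_right h6 h7
      have h9 : 2 * L * (C₁ * (η₀ + ((k : ℝ) + 1) / L)) = 2 * C₁ * (η₀ * L + k + 1) := by
        field_simp
        ring
      linarith
    have hw0 : 0 ≤ Y ^ (-(η₀ + (k : ℝ) / L)) := Real.rpow_nonneg hY0.le _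
    have h6 : Real.exp (-(k : ℝ)) ≤ (1 / 2 : ℝ) ^ k := by
      have h7 : (2 : ℝ) ≤ Real.exp 1 := by
        have := Real.add_one_le_exp (1 : ℝ)
        linarith
      have h8 : Real.exp (-(k : ℝ)) = (Real.exp 1)⁻¹ ^ k := by
        rw [← Real.exp_neg, ← Real.exp_nat_mul]
        congr 1
        ring
      rw [h8, one_div]
      exact pow_le_pow_left₀ (by positivity) (inv_anti₀ (by norm_num) h7) k
    calc _ ≤ Y ^ (-(η₀ + (k : ℝ) / L)) * (C₁ * Real.exp (2 * C₁ * (η₀ * L + k + 1))) := by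
          refine mul_le_mul_of_nonneg_left ?_ hw0
          exact h3.trans (h4.trans (mul_le_mul_of_nonneg_left h5 hC₁.le))
      _ = C₁ * Real.exp (y * (-(η₀ + (k : ℝ) / L)) + 2 * C₁ * (η₀ * L + k + 1)) := by
          rw [hYexp, Real.exp_add]
          ring
      _ ≤ C₁ * Real.exp (2 * C₁ + y * (-(η₀ / 2)) + -(k : ℝ)) := by
          refine mul_le_mul_of_nonneg_left (Real.exp_le_exp.2 ?_) hC₁.le
          have h7 : (6000 + 4 * C₁) * k ≤ y * ((k : ℝ) / L) := by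
            have h8 : (6000 + 4 * C₁) * L * ((k : ℝ) / L) ≤ y * ((k : ℝ) / L) :=
              mul_le_mul_of_nonneg_right hyL (by positivity)
            have h9 : (6000 + 4 * C₁) * L * ((k : ℝ) / L) = (6000 + 4 * C₁) * k := by
              field_simp
            linarith
          have h8 : (6000 + 4 * C₁) * L * (η₀ / 2) ≤ y * (η₀ / 2) :=
            mul_le_mul_of_nonneg_right hyL (by linarith)
          have h9 : 0 ≤ C₁ * k := by positivity
          have h10 : 0 ≤ L * η₀ := by positivity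
          have h11 : 0 ≤ C₁ * (L * η₀) := by positivity
          nlinarith
      _ = (C₁ * Real.exp (2 * C₁)) * Y ^ (-(η₀ / 2)) * Real.exp (-(k : ℝ)) := by
          rw [hYexp, Real.exp_add, Real.exp_add]
          ring
      _ ≤ _ := mul_le_mul_of_nonneg_left h6
          (mul_nonneg hD.le (Real.rpow_nonneg hY0.le _))
  have hnear2 : ∑ k ∈ range M, Y ^ (-(η₀ + (k : ℝ) / L)) * ∑ c ∈ PS T,
      ∑ ρ ∈ zc c (rect (7 / 8) (T + 1)),
      (if 1 - ρ.re ≤ η₀ + ((k : ℝ) + 1) / L then (mc c ρ : ℝ) else 0) ≤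
      (C₁ * Real.exp (2 * C₁)) * Y ^ (-(η₀ / 2)) * 2 := by
    refine (sum_le_sum hnear).trans ?_
    rw [← mul_sum]
    exact mul_le_mul_of_nonneg_left (sum_geometric_two_le M)
      (mul_nonneg hD.le (Real.rpow_nonneg hY0.le _))
  have hp1 : 0 ≤ Y ^ (-(η₀ / 2)) := Real.rpow_nonneg hY0.le _
  have hp2 : 0 ≤ Y ^ (-(1 / 800 : ℝ)) := Real.rpow_nonneg hY0.le _
  have hp3 : 0 ≤ C₂ * Y ^ (-(η₀ / 2)) := mul_nonneg hC₂.le hp1
  have hp4 : 0 ≤ (C₁ * Real.exp (2 * C₁)) * Y ^ (-(1 / 800 : ℝ)) := mul_nonneg hD.le hp2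
  linarith

end Pool.Agent.MVX
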