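import Pool.Agent.MVX.StE
import Pool.Agent.BVX.A4

set_option autoImplicit false

/-!
# Project MVX, Zlow: Siegel's bound for the real zero
-/

namespace Pool.Agent.MVX

open Finset

/-- upper bound for `L(z,χ)` near `1` -/
theorem zlow_bound (h : St_A1) (e : ℝ) (he : 0 < e) (he1 : e ≤ 1) (q : ℕ) [NeZero q]
    (χ : DirichletCharacter ℂ q) (hχ : χ ≠ 1) (z : ℂ) (hz : z ∈ Metric.closedBall (1 : ℂ) (e / 8)) :
    ‖χ.LFunction z‖ ≤ (13 + 8 / e) * (q : ℝ) ^ (e / 2) := by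
  have hq : (1 : ℝ) ≤ q := by
    exact_mod_cast Nat.one_le_iff_ne_zero.mpr (NeZero.ne q)
  have hq0 : (0 : ℝ) < q := by linarith
  rw [Metric.mem_closedBall, dist_eq_norm] at hz
  have hre : 1 - e / 8 ≤ z.re := by
    have h1 := Complex.abs_re_le_norm (z - 1)
    rw [Complex.sub_re, Complex.one_re] at h1
    have h2 := neg_abs_le (z.re - 1)
    linarith
  have hnz : ‖z‖ ≤ 2 := by
    have h1 : ‖z‖ ≤ ‖z - 1‖ + ‖(1 : ℂ)‖ := by
      have := norm_add_le (z - 1) 1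
      rwa [sub_add_cancel] at this
    rw [norm_one] at h1
    linarith
  have hv : (1 : ℝ) ≤ (q : ℝ) ^ 2 := one_le_pow₀ hq
  have hA := h q χ hχ z (by linarith) ((q : ℝ) ^ 2) hv
  have hqe : (1 : ℝ) ≤ (q : ℝ) ^ (e / 2) := Real.one_le_rpow hq (by linarith)
  -- the error of A1
  have hE : 4 * (q : ℝ) * (1 + ‖z‖) * ((q : ℝ) ^ 2) ^ (-z.re) ≤ 12 := by
    have h1 : ((q : ℝ) ^ 2) ^ (-z.re) ≤ ((q : ℝ) ^ 2) ^ (-(1 / 2 : ℝ)) :=
      Real.rpow_le_rpow_of_exponent_le hv (by linarith)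
    have h2 : ((q : ℝ) ^ 2) ^ (-(1 / 2 : ℝ)) = (q : ℝ)⁻¹ := by
      rw [← Real.rpow_natCast, ← Real.rpow_mul hq0.le, ← Real.rpow_neg_one]
      norm_num
    rw [h2] at h1
    calc 4 * (q : ℝ) * (1 + ‖z‖) * ((q : ℝ) ^ 2) ^ (-z.re)
        ≤ 4 * (q : ℝ) * (1 + 2) * (q : ℝ)⁻¹ := by gcongr
      _ = 12 := by
          field_simp
          norm_num
  -- the partial sum
  have hS : ‖Ssum (cf χ) z ((q : ℝ) ^ 2)‖ ≤ (1 + 8 / e) * (q : ℝ) ^ (e / 2) := by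
    have hfl : ⌊(q : ℝ) ^ 2⌋₊ = q ^ 2 := by
      have : ((q : ℝ) ^ 2) = ((q ^ 2 : ℕ) : ℝ) := by push_cast; ring
      rw [this, Nat.floor_natCast]
    unfold Ssum
    rw [hfl]
    have h1 : ∀ n ∈ Icc 1 (q ^ 2), ‖cf χ n * (n : ℂ) ^ (-z)‖ ≤ (q : ℝ) ^ (e / 4) * (n : ℝ)⁻¹ := by
      intro n hn
      rw [mem_Icc] at hn
      have hn1 : (1 : ℝ) ≤ n := by exact_mod_cast hn.1
      have hn0 : (0 : ℝ) < n := by linarith
      have hn2 : (n : ℝ) ≤ (q : ℝ) ^ 2 := by exact_mod_cast hn.2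
      rw [norm_mul]
      have h2 : ‖cf χ n‖ ≤ 1 := χ.norm_le_one _
      have h3 : ‖(n : ℂ) ^ (-z)‖ = (n : ℝ) ^ (-z.re) := by
        have := Complex.norm_cpow_eq_rpow_re_of_pos hn0 (-z)
        rw [Complex.neg_re] at this
        rw [← this]
        norm_cast
      have h4 : (n : ℝ) ^ (-z.re) ≤ (n : ℝ) ^ (e / 8 + -1) :=
        Real.rpow_le_rpow_of_exponent_le hn1 (by linarith)
      have h5 : (n : ℝ) ^ (e / 8) ≤ ((q : ℝ) ^ 2) ^ (e / 8) :=
        Real.rpow_le_rpow hn0.le hn2 (by linarith)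
      have h6 : ((q : ℝ) ^ 2) ^ (e / 8) = (q : ℝ) ^ (e / 4) := by
        rw [← Real.rpow_natCast, ← Real.rpow_mul hq0.le]
        congr 1
        push_cast
        ring
      rw [Real.rpow_add hn0, Real.rpow_neg_one] at h4
      rw [h3]
      calc ‖cf χ n‖ * (n : ℝ) ^ (-z.re) ≤ 1 * ((n : ℝ) ^ (e / 8) * (n : ℝ)⁻¹) := by
            apply mul_le_mul h2 h4 (by positivity) zero_le_one
        _ ≤ (q : ℝ) ^ (e / 4) * (n : ℝ)⁻¹ := by
            rw [one_mul, ← h6]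
            exact mul_le_mul_of_nonneg_right h5 (by positivity)
    refine (norm_sum_le_of_le _ h1).trans ?_
    rw [← mul_sum]
    have h7 : ∑ n ∈ Icc 1 (q ^ 2), ((n : ℝ))⁻¹ ≤ 1 + 2 * Real.log q := by
      have h8 := harmonic_le_one_add_log (q ^ 2)
      have h9 : ((harmonic (q ^ 2) : ℚ) : ℝ) = ∑ n ∈ Icc 1 (q ^ 2), ((n : ℝ))⁻¹ := by
        rw [harmonic_eq_sum_Icc]
        push_cast
        rfl
      rw [h9] at h8
      have h10 : Real.log ((q ^ 2 : ℕ) : ℝ) = 2 * Real.log q := by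
        rw [Nat.cast_pow, Real.log_pow]
        norm_num
      rw [h10] at h8
      exact h8
    have h8 : Real.log q ≤ (q : ℝ) ^ (e / 4) / (e / 4) :=
      Real.log_le_rpow_div hq0.le (by linarith)
    have h9 : (1 : ℝ) ≤ (q : ℝ) ^ (e / 4) := Real.one_le_rpow hq (by linarith)
    have h10 : (q : ℝ) ^ (e / 4) / (e / 4) = 4 / e * (q : ℝ) ^ (e / 4) := by
      field_simp
    have h11 : (q : ℝ) ^ (e / 4) * (q : ℝ) ^ (e / 4) = (q : ℝ) ^ (e / 2) := by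
      rw [← Real.rpow_add hq0]
      congr 1
      ring
    have h12 : ∑ n ∈ Icc 1 (q ^ 2), ((n : ℝ))⁻¹ ≤ (1 + 8 / e) * (q : ℝ) ^ (e / 4) := by
      rw [h10] at h8
      have h13 : (1 + 8 / e) * (q : ℝ) ^ (e / 4)
          = (q : ℝ) ^ (e / 4) + 2 * (4 / e * (q : ℝ) ^ (e / 4)) := by ring
      rw [h13]
      linarith
    calc (q : ℝ) ^ (e / 4) * ∑ n ∈ Icc 1 (q ^ 2), ((n : ℝ))⁻¹
        ≤ (q : ℝ) ^ (e / 4) * ((1 + 8 / e) * (q : ℝ) ^ (e / 4)) :=
          mul_le_mul_of_nonneg_left h12 (by positivity)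
      _ = (1 + 8 / e) * ((q : ℝ) ^ (e / 4) * (q : ℝ) ^ (e / 4)) := by ring
      _ = (1 + 8 / e) * (q : ℝ) ^ (e / 2) := by rw [h11]
  have hfin : ‖χ.LFunction z‖ ≤ ‖Ssum (cf χ) z ((q : ℝ) ^ 2)‖
      + ‖Ssum (cf χ) z ((q : ℝ) ^ 2) - χ.LFunction z‖ := by
    have := norm_sub_le (Ssum (cf χ) z ((q : ℝ) ^ 2))
      (Ssum (cf χ) z ((q : ℝ) ^ 2) - χ.LFunction z)
    rwa [sub_sub_cancel] at this
  have h20 : (13 + 8 / e) * (q : ℝ) ^ (e / 2)
      = (1 + 8 / e) * (q : ℝ) ^ (e / 2) + 12 * (q : ℝ) ^ (e / 2) := by ring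
  rw [h20]
  linarith

theorem zlow_one (h : St_A1) (e : ℝ) (he : 0 < e) (he1 : e ≤ 1) : ∃ c : ℝ, 0 < c ∧
    ∀ (q : ℕ) [NeZero q] (χ : DirichletCharacter ℂ q), χ ^ 2 = 1 → χ ≠ 1 → ∀ β : ℝ, 1 / 2 < β →
      β < 1 → χ.LFunction (β : ℂ) = 0 → c * (q : ℝ) ^ (-e) ≤ 1 - β := by
  obtain ⟨c, hc, hS⟩ := BVX.siegel (e / 2) (by linarith)
  set K : ℝ := (13 + 8 / e) * (16 / e) with hK
  have hK0 : 0 < K := by positivity
  refine ⟨min (e / 16) (c / K), lt_min (by linarith) (by positivity), ?_⟩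
  intro q _ χ h2 hχ β _ hβ1 hL
  have hq : (1 : ℝ) ≤ q := by
    exact_mod_cast Nat.one_le_iff_ne_zero.mpr (NeZero.ne q)
  have hq0 : (0 : ℝ) < q := by linarith
  have hqe0 : 0 < (q : ℝ) ^ (-e) := Real.rpow_pos_of_pos hq0 _
  rcases lt_or_ge (e / 16) (1 - β) with hbig | hsmall
  · have h1 : (q : ℝ) ^ (-e) ≤ 1 := Real.rpow_le_one_of_one_le_of_nonpos hq (by linarith)
    calc min (e / 16) (c / K) * (q : ℝ) ^ (-e) ≤ e / 16 * 1 :=
          mul_le_mul (min_le_left _ _) h1 hqe0.le (by linarith)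
      _ ≤ 1 - β := by linarith
  · have hd : Differentiable ℂ χ.LFunction := DirichletCharacter.differentiable_LFunction hχ
    have hder : ∀ x ∈ Metric.closedBall (1 : ℂ) (e / 16),
        ‖deriv χ.LFunction x‖ ≤ K * (q : ℝ) ^ (e / 2) := by
      intro x hx
      have h1 := Complex.norm_deriv_le_of_forall_mem_sphere_norm_le (f := χ.LFunction) (c := x)
        (R := e / 16) (C := (13 + 8 / e) * (q : ℝ) ^ (e / 2)) (by linarith) hd.diffContOnCl
        (fun z hz => by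
          apply zlow_bound h e he he1 q χ hχ z
          rw [Metric.mem_closedBall] at hx ⊢
          rw [Metric.mem_sphere] at hz
          have := dist_triangle z x 1
          linarith)
      have h3 : (13 + 8 / e) * (q : ℝ) ^ (e / 2) / (e / 16) = K * (q : ℝ) ^ (e / 2) := by
        rw [hK]
        field_simp
      rwa [h3] at h1
    have hb : (β : ℂ) ∈ Metric.closedBall (1 : ℂ) (e / 16) := by
      rw [Metric.mem_closedBall, dist_eq_norm]
      have h1 : (β : ℂ) - 1 = ((β - 1 : ℝ) : ℂ) := by push_cast; ring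
      rw [h1, Complex.norm_real, Real.norm_eq_abs, abs_of_nonpos (by linarith)]
      linarith
    have h1 := Convex.norm_image_sub_le_of_norm_deriv_le (f := χ.LFunction)
      (s := Metric.closedBall (1 : ℂ) (e / 16)) (x := (β : ℂ)) (y := 1)
      (fun x _ => hd x) hder (convex_closedBall _ _) hb
      (Metric.mem_closedBall_self (by linarith))
    rw [hL, sub_zero] at h1
    have h3 : ‖(1 : ℂ) - β‖ = 1 - β := by
      have h1 : (1 : ℂ) - β = ((1 - β : ℝ) : ℂ) := by push_cast; ring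
      rw [h1, Complex.norm_real, Real.norm_eq_abs, abs_of_nonneg (by linarith)]
    rw [h3] at h1
    have h4 := (hS q χ h2 hχ).trans h1
    have hqp : 0 < (q : ℝ) ^ (e / 2) := Real.rpow_pos_of_pos hq0 _
    have h5 : c / K ≤ (1 - β) * (q : ℝ) ^ e := by
      rw [div_le_iff₀ hqp] at h4
      rw [div_le_iff₀ hK0]
      have h6 : (q : ℝ) ^ e = (q : ℝ) ^ (e / 2) * (q : ℝ) ^ (e / 2) := by
        rw [← Real.rpow_add hq0]
        congr 1
        ring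
      rw [h6]
      calc c ≤ K * (q : ℝ) ^ (e / 2) * (1 - β) * (q : ℝ) ^ (e / 2) := h4
        _ = (1 - β) * ((q : ℝ) ^ (e / 2) * (q : ℝ) ^ (e / 2)) * K := by ring
    have h7 : (q : ℝ) ^ e * (q : ℝ) ^ (-e) = 1 := by
      rw [← Real.rpow_add hq0, add_neg_cancel, Real.rpow_zero]
    calc min (e / 16) (c / K) * (q : ℝ) ^ (-e) ≤ c / K * (q : ℝ) ^ (-e) :=
          mul_le_mul_of_nonneg_right (min_le_right _ _) hqe0.le
      _ ≤ (1 - β) * (q : ℝ) ^ e * (q : ℝ) ^ (-e) := mul_le_mul_of_nonneg_right h5 hqe0.le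
      _ = 1 - β := by rw [mul_assoc, h7, mul_one]

theorem thm_Zlow (h : St_A1) : St_Zlow := by
  intro ε hε
  obtain ⟨c, hc, hS⟩ := zlow_one h (min ε 1) (lt_min hε one_pos) (min_le_right _ _)
  refine ⟨c, hc, ?_⟩
  intro q _ χ h2 hχ β hβ hβ1 hL
  refine le_trans ?_ (hS q χ h2 hχ β hβ hβ1 hL)
  have hq : (1 : ℝ) ≤ q := by
    exact_mod_cast Nat.one_le_iff_ne_zero.mpr (NeZero.ne q)
  apply mul_le_mul_of_nonneg_left _ hc.le
  exact Real.rpow_le_rpow_of_exponent_le hq (neg_le_neg (min_le_left _ _))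

end Pool.Agent.MVX
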