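import Pool.Agent.MVX.A1
import Pool.Agent.MVX.A1p
import Pool.Agent.MVX.A2
import Pool.Agent.MVX.BV
import Pool.Agent.MVX.Bdec
import Pool.Agent.MVX.Ch
import Pool.Agent.MVX.Cnt
import Pool.Agent.MVX.DD1
import Pool.Agent.MVX.DD2
import Pool.Agent.MVX.DH
import Pool.Agent.MVX.Dens
import Pool.Agent.MVX.Det
import Pool.Agent.MVX.DuN
import Pool.Agent.MVX.Dua
import Pool.Agent.MVX.EF
import Pool.Agent.MVX.EFW
import Pool.Agent.MVX.Exc
import Pool.Agent.MVX.Fac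
import Pool.Agent.MVX.Fsq
import Pool.Agent.MVX.GS
import Pool.Agent.MVX.H
import Pool.Agent.MVX.HB
import Pool.Agent.MVX.Hyp1
import Pool.Agent.MVX.Hyp2
import Pool.Agent.MVX.L0
import Pool.Agent.MVX.Lan
import Pool.Agent.MVX.Loc
import Pool.Agent.MVX.Mass
import Pool.Agent.MVX.Mk
import Pool.Agent.MVX.Mul
import Pool.Agent.MVX.N1
import Pool.Agent.MVX.NTt
import Pool.Agent.MVX.PerR
import Pool.Agent.MVX.PerS
import Pool.Agent.MVX.Sel
import Pool.Agent.MVX.Um2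
import Pool.Agent.MVX.Unq
import Pool.Agent.MVX.Wbd
import Pool.Agent.MVX.Wsum
import Pool.Agent.MVX.Zlow

set_option autoImplicit false

/-! Assembly of the L-core, first part. -/

namespace Pool.Agent.MVX

theorem asm_A2 : St_A2 := thm_A2 thm_A1 thm_A1p
theorem asm_Loc : St_Loc := thm_Loc (thm_Lan thm_Fac) asm_A2
theorem asm_Cnt : St_Cnt := thm_Cnt asm_Loc asm_A2
theorem asm_HB : St_HB := thm_HB asm_Loc asm_A2
theorem asm_EF : St_EF := thm_EF thm_PerS thm_PerR asm_HB thm_Fac asm_A2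
theorem asm_Unq : St_Unq := thm_Unq asm_Loc asm_A2
theorem asm_Exc : St_Exc := thm_Exc asm_Unq thm_L0
theorem asm_BV : St_BV := thm_BV thm_H
theorem asm_Mk : St_Mk := thm_Mk asm_BV
theorem asm_Fsq : St_Fsq := thm_Fsq asm_BV
theorem asm_Det : St_Det := thm_Det thm_A1 thm_A1p
theorem asm_Dens (h : St_DuP) : St_Dens := thm_Dens asm_Det thm_DuN h thm_Dua asm_Fsq
theorem asm_NTt (h : St_DuP) : St_NTt := thm_NTt (thm_N1 (asm_Dens h) asm_Cnt thm_L0) asm_Exc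
theorem asm_Wsum (h : St_DuP) : St_Wsum := thm_Wsum (asm_NTt h) asm_HB
theorem asm_Zlow : St_Zlow := thm_Zlow thm_A1
theorem asm_DD1 : St_DD1 := thm_DD1 (thm_Hyp1 thm_A1) thm_Mul
theorem asm_DD2 : St_DD2 := thm_DD2 (thm_Hyp2 thm_A1 thm_A1p) thm_Mul
theorem asm_Mass : St_Mass := thm_Mass asm_Zlow asm_DD2 thm_Sel thm_GS
theorem asm_DH : St_DH := thm_DH asm_Mass asm_DD1 asm_DD2 asm_Exc thm_L0
theorem asm_EFW : St_EFW := thm_EFW thm_Bdec asm_EF

end Pool.Agent.MVX
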