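import Pool.Agent.MVX.StA

/-!
# Project MVX, module Fac: an entire function divided by finitely many of its zeros
-/

set_option autoImplicit false

namespace Pool.Agent.MVX

open Finset Filter Topology

/-- dividing an entire function by one of its zeros -/
theorem fac_one {g : ℂ → ℂ} (hg : Differentiable ℂ g) (h0 : ∃ z, g z ≠ 0) (ρ : ℂ) :
    ∃ G : ℂ → ℂ, Differentiable ℂ G ∧ G ρ ≠ 0 ∧
      ∀ z, g z = G z * (z - ρ) ^ (analyticOrderNatAt g ρ) := by
  have ha : AnalyticAt ℂ g ρ := hg.analyticAt ρ
  have hfin : analyticOrderAt g ρ ≠ ⊤ := by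
    intro h1
    have h2 : AnalyticOnNhd ℂ g Set.univ := fun w _ => hg.analyticAt w
    have h3 := h2.eqOn_zero_of_preconnected_of_eventuallyEq_zero isPreconnected_univ
      (Set.mem_univ ρ) (analyticOrderAt_eq_top.mp h1)
    obtain ⟨z, hz⟩ := h0
    exact hz (h3 (Set.mem_univ z))
  obtain ⟨h, hha, hh0, hev⟩ := ha.analyticOrderAt_ne_top.mp hfin
  set n : ℕ := analyticOrderNatAt g ρ with hn
  classical
  refine ⟨fun z => if z = ρ then h ρ else g z / (z - ρ) ^ n, ?_, ?_, ?_⟩
  · intro z
    by_cases hz : z = ρ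
    · subst hz
      have hdh : DifferentiableAt ℂ h z := hha.differentiableAt
      refine hdh.congr_of_eventuallyEq ?_
      filter_upwards [hev] with w hw
      by_cases hwz : w = z
      · rw [if_pos hwz, hwz]
      · rw [if_neg hwz, hw, smul_eq_mul]
        have : (w - z) ^ n ≠ 0 := pow_ne_zero _ (sub_ne_zero.mpr hwz)
        field_simp
    · have h1 : DifferentiableAt ℂ (fun w => g w / (w - ρ) ^ n) z := by
        refine (hg z).div ?_ (pow_ne_zero _ (sub_ne_zero.mpr hz))
        fun_prop
      refine h1.congr_of_eventuallyEq ?_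
      filter_upwards [isOpen_ne.mem_nhds hz] with w hw
      rw [if_neg hw]
  · simp only [if_true]
    exact hh0
  · intro z
    by_cases hz : z = ρ
    · have h1 : g ρ = (ρ - ρ) ^ n • h ρ := hev.self_of_nhds
      simp only [hz, if_true]
      rw [h1, smul_eq_mul, mul_comm]
    · simp only [if_neg hz]
      have : (z - ρ) ^ n ≠ 0 := pow_ne_zero _ (sub_ne_zero.mpr hz)
      field_simp

/-- the order does not change by a factor which does not vanish -/
theorem fac_order {f g P : ℂ → ℂ} (hg : Differentiable ℂ g) (hP : Differentiable ℂ P)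
    (h : ∀ z, f z = g z * P z) {ρ : ℂ} (hρ : P ρ ≠ 0) :
    analyticOrderNatAt g ρ = analyticOrderNatAt f ρ := by
  have h1 : f = g * P := by
    funext z
    exact h z
  have h2 : analyticOrderAt f ρ = analyticOrderAt g ρ := by
    rw [h1, analyticOrderAt_mul (hg.analyticAt ρ) (hP.analyticAt ρ),
      (hP.analyticAt ρ).analyticOrderAt_eq_zero.mpr hρ, add_zero]
  unfold analyticOrderNatAt
  rw [h2]

theorem thm_Fac : St_Fac := by
  intro f hf h0 S
  classical
  induction S using Finset.induction_on with
  | empty =>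
    refine ⟨f, hf, ?_, ?_⟩
    · intro z
      simp
    · rintro z (hz | hz)
      · simp at hz
      · exact hz
  | insert ρ S hρ ih =>
    obtain ⟨g, hgd, hgP, hg0⟩ := ih
    have hPd : Differentiable ℂ (fun z : ℂ => ∏ σ ∈ S, (z - σ) ^ (analyticOrderNatAt f σ)) := by
      fun_prop
    have hPρ : ∏ σ ∈ S, (ρ - σ) ^ (analyticOrderNatAt f σ) ≠ 0 := by
      refine Finset.prod_ne_zero_iff.mpr ?_
      intro σ hσ
      refine pow_ne_zero _ (sub_ne_zero.mpr ?_)
      rintro rfl
      exact hρ hσ
    have hg1 : ∃ z, g z ≠ 0 := by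
      obtain ⟨z, hz⟩ := h0
      refine ⟨z, ?_⟩
      intro h1
      apply hz
      rw [hgP z, h1, zero_mul]
    obtain ⟨G, hGd, hG0, hGe⟩ := fac_one hgd hg1 ρ
    rw [fac_order hgd hPd hgP hPρ] at hGe
    refine ⟨G, hGd, ?_, ?_⟩
    · intro z
      rw [Finset.prod_insert hρ, hgP z, hGe z]
      ring
    · intro z hz
      by_cases hzρ : z = ρ
      · rw [hzρ]
        exact hG0
      · have h1 : g z ≠ 0 := by
          apply hg0
          rcases hz with hz | hz
          · rw [Finset.mem_insert] at hz
            rcases hz with hz | hz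
            · exact absurd hz hzρ
            · exact Or.inl hz
          · exact Or.inr hz
        intro h2
        apply h1
        rw [hGe z, h2, zero_mul]

end Pool.Agent.MVX
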