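import Pool.Agent.MVX.Asm
import Pool.Agent.MVII.AsmC

set_option autoImplicit false

/-! The theorem of the hand-in MP_4011c3_nt.PowerSaving. -/

namespace Pool.Agent.MVX

open Finset

/-- a power saving for the exceptional set, uniformly in `m` -/
theorem final : ∃ C : ℕ, ∀ ε : ℝ, 0 < ε → ∃ (δ : ℝ) (R N₀ : ℕ), 0 < δ ∧ ∀ N ≥ N₀, ∀ m : ℕ,
    ∀ F : Finset ℕ,
    (∀ n ∈ F, n ≤ N ∧ GBQ.Admissible m n ∧
      (MVII.SolN R m n = ∅ ∨ (12 * m ≤ n ∧ ((MVII.SolN R m n).card : ℝ) < (n : ℝ) ^ (1 - ε)))) →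
    (F.card : ℝ) ≤ (N : ℝ) ^ (1 - δ) ∧ (m : ℝ) * F.card ≤ N * Real.log N ^ C :=
  MVII.part2C gp

end Pool.Agent.MVX
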