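import Pool.Agent.MVX.GP
import Pool.Agent.MT.Repel

set_option autoImplicit false

/-!
# Project MVX, L-core: definitions and the basic facts about zero sets
-/

namespace Pool.Agent.MVX

open Finset Filter Topology

/-- `L(s, χ)`, multiplied by `s - 1` if `χ` is principal; an entire function. -/
noncomputable def Lf {q : ℕ} [NeZero q] (χ : DirichletCharacter ℂ q) : ℂ → ℂ := by
  classical exact if χ = 1 then DirichletCharacter.LFunctionTrivChar₁ q else χ.LFunction

theorem Lf_one (q : ℕ) [NeZero q] :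
    Lf (1 : DirichletCharacter ℂ q) = DirichletCharacter.LFunctionTrivChar₁ q := by
  simp [Lf]

theorem Lf_of_ne {q : ℕ} [NeZero q] {χ : DirichletCharacter ℂ q} (h : χ ≠ 1) :
    Lf χ = χ.LFunction := by
  simp [Lf, h]

theorem Lf_differentiable {q : ℕ} [NeZero q] (χ : DirichletCharacter ℂ q) :
    Differentiable ℂ (Lf χ) := by
  by_cases h : χ = 1
  · subst h
    rw [Lf_one]
    exact DirichletCharacter.differentiable_LFunctionTrivChar₁ q
  · rw [Lf_of_ne h]
    exact DirichletCharacter.differentiable_LFunction h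

/-- For a nonprincipal character nothing is changed, for a principal one only the factor `s - 1`
is added. -/
theorem Lf_eq_zero_iff {q : ℕ} [NeZero q] (χ : DirichletCharacter ℂ q) {s : ℂ} (hs : s ≠ 1) :
    Lf χ s = 0 ↔ χ.LFunction s = 0 := by
  by_cases h : χ = 1
  · subst h
    rw [Lf_one, DirichletCharacter.LFunctionTrivChar₁, Function.update_of_ne hs, mul_eq_zero]
    constructor
    · rintro (h1 | h1)
      · exact absurd (sub_eq_zero.mp h1) hs
      · exact h1
    · intro h1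
      exact Or.inr h1
  · rw [Lf_of_ne h]

theorem Lf_ne_zero {q : ℕ} [NeZero q] (χ : DirichletCharacter ℂ q) {s : ℂ} (hs : 1 ≤ s.re) :
    Lf χ s ≠ 0 := by
  by_cases h1 : s = 1
  · subst h1
    by_cases h : χ = 1
    · subst h
      rw [Lf_one]
      exact DirichletCharacter.LFunctionTrivChar₁_apply_one_ne_zero q
    · rw [Lf_of_ne h]
      exact DirichletCharacter.LFunction_ne_zero_of_one_le_re χ (Or.inl h) (by simp)
  · rw [Ne, Lf_eq_zero_iff χ h1]
    exact DirichletCharacter.LFunction_ne_zero_of_one_le_re χ (Or.inr h1) hs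

/-- The multiplicity of a zero. -/
noncomputable def zm {q : ℕ} [NeZero q] (χ : DirichletCharacter ℂ q) (ρ : ℂ) : ℕ :=
  analyticOrderNatAt (Lf χ) ρ

theorem zeros_finite {f : ℂ → ℂ} (hf : Differentiable ℂ f) (h0 : ∃ z, f z ≠ 0) {K : Set ℂ}
    (hK : Bornology.IsBounded K) : (K ∩ f ⁻¹' {0}).Finite := by
  obtain ⟨z, hz⟩ := h0
  have h1 : AnalyticOnNhd ℂ f Set.univ := fun w _ => hf.analyticAt w
  have h2 : (f ⁻¹' {0})ᶜ ∈ codiscreteWithin (Set.univ : Set ℂ) :=
    h1.preimage_zero_mem_codiscrete hz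
  obtain ⟨R, hR⟩ := hK.subset_closedBall (0 : ℂ)
  have hc : IsCompact (Metric.closedBall (0 : ℂ) R) := isCompact_closedBall 0 R
  have h3 := (mem_codiscrete'.mp h2)
  have h4 : IsClosed (f ⁻¹' {0}) := isClosed_singleton.preimage hf.continuous
  have h5 : (Metric.closedBall (0 : ℂ) R ∩ f ⁻¹' {0}).Finite := by
    refine (hc.inter_right h4).finite ?_
    have h6 := h3.2
    rw [compl_compl] at h6
    exact h6.mono Set.inter_subset_right
  exact h5.subset (Set.inter_subset_inter_left _ hR)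

/-- The finite set of zeros of `Lf χ` in a bounded set `K` (`∅` if the set is infinite). -/
noncomputable def zs {q : ℕ} [NeZero q] (χ : DirichletCharacter ℂ q) (K : Set ℂ) : Finset ℂ := by
  classical exact if h : (K ∩ Lf χ ⁻¹' {0}).Finite then h.toFinset else ∅

theorem mem_zs {q : ℕ} [NeZero q] (χ : DirichletCharacter ℂ q) {K : Set ℂ}
    (hK : Bornology.IsBounded K) (ρ : ℂ) : ρ ∈ zs χ K ↔ ρ ∈ K ∧ Lf χ ρ = 0 := by
  have h := zeros_finite (Lf_differentiable χ) ⟨2, Lf_ne_zero χ (by norm_num)⟩ hK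
  simp [zs, h]

theorem zm_pos {q : ℕ} [NeZero q] (χ : DirichletCharacter ℂ q) {ρ : ℂ} (h : Lf χ ρ = 0) :
    0 < zm χ ρ := by
  have ha : AnalyticAt ℂ (Lf χ) ρ := (Lf_differentiable χ).analyticAt ρ
  rw [zm, pos_iff_ne_zero, analyticOrderNatAt, Ne, ENat.toNat_eq_zero, not_or]
  refine ⟨?_, ?_⟩
  · rw [ha.analyticOrderAt_eq_zero]
    exact not_not.mpr h
  · intro h1
    have h2 : AnalyticOnNhd ℂ (Lf χ) Set.univ := fun w _ => (Lf_differentiable χ).analyticAt w
    have h3 := h2.eqOn_zero_of_preconnected_of_eventuallyEq_zero isPreconnected_univ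
      (Set.mem_univ ρ) (analyticOrderAt_eq_top.mp h1)
    exact Lf_ne_zero χ (s := 2) (by norm_num) (h3 (Set.mem_univ _))

/-- Rectangles `a ≤ Re ≤ 1`, `|Im| ≤ T`. -/
def rect (a T : ℝ) : Set ℂ := {z | a ≤ z.re ∧ z.re ≤ 1 ∧ |z.im| ≤ T}

theorem rect_bounded (a T : ℝ) : Bornology.IsBounded (rect a T) := by
  refine (Metric.isBounded_closedBall (x := (0 : ℂ)) (r := (|a| + 1) + |T|)).subset ?_
  intro z hz
  rw [Metric.mem_closedBall, dist_zero_right]
  refine (Complex.norm_le_abs_re_add_abs_im z).trans ?_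
  have h1 : |z.re| ≤ |a| + 1 := by
    rw [abs_le]
    constructor
    · have := neg_abs_le a
      linarith [hz.1]
    · linarith [hz.2.1, abs_nonneg a]
  have h2 : |z.im| ≤ |T| := hz.2.2.trans (le_abs_self T)
  linarith

/-- The closed disc with centre `a + i t`. -/
noncomputable def disc (a t r : ℝ) : Set ℂ := Metric.closedBall (a + t * Complex.I) r

theorem disc_bounded (a t r : ℝ) : Bornology.IsBounded (disc a t r) := Metric.isBounded_closedBall

/-- `∑_{n ≤ v} f(n) n^{-s}` -/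
noncomputable def Ssum (f : ℕ → ℂ) (s : ℂ) (v : ℝ) : ℂ :=
  ∑ n ∈ Icc 1 ⌊v⌋₊, f n * (n : ℂ) ^ (-s)

/-- `χ` as a function on `ℕ` -/
noncomputable def cf {q : ℕ} (χ : DirichletCharacter ℂ q) : ℕ → ℂ := fun n => χ (n : ZMod q)

/-- The two characters are different in the sense that `χ * conj ψ` is not principal. -/
def Dif {q q' : ℕ} (χ : DirichletCharacter ℂ q) (ψ : DirichletCharacter ℂ q') : Prop :=
  MT.prodChar χ ψ⁻¹ ≠ 1

end Pool.Agent.MVX
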