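import Pool.Agent.MVX.StA
import Mathlib.Analysis.MellinInversion

set_option autoImplicit false

/-!
# Project MVX, L-core: the scalar Perron formula with the kernel `1/(s(s+1))`
-/

namespace Pool.Agent.MVX

open MeasureTheory Set Complex

/-- `max (1 - u) 0` for `u > 0` -/
noncomputable def perk_f (u : ℝ) : ℂ :=
  indicator (Ioc (0 : ℝ) 1) (fun _ => (1 : ℂ)) u -
    indicator (Ioc (0 : ℝ) 1) (fun t : ℝ => (t : ℂ) ^ (1 : ℂ)) u

lemma perk_f_eq {u : ℝ} (hu : 0 < u) : perk_f u = ((max (1 - u) 0 : ℝ) : ℂ) := by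
  unfold perk_f
  by_cases h : u ≤ 1
  · have hm : u ∈ Ioc (0 : ℝ) 1 := ⟨hu, h⟩
    rw [indicator_of_mem hm, indicator_of_mem hm, max_eq_left (by linarith), cpow_one]
    push_cast
    ring
  · have hm : u ∉ Ioc (0 : ℝ) 1 := fun h' => h h'.2
    rw [indicator_of_notMem hm, indicator_of_notMem hm, max_eq_right (by linarith)]
    simp

lemma perk_mellin {s : ℂ} (hs : 0 < s.re) : HasMellin perk_f s (1 / s - 1 / (s + 1)) := by
  have h1 := hasMellin_one_Ioc hs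
  have h2 := hasMellin_cpow_Ioc (1 : ℂ) (s := s) (by simp; linarith)
  have h3 := hasMellin_sub h1.1 h2.1
  rw [h1.2, h2.2] at h3
  exact h3

lemma perk_re (σ t : ℝ) : ((σ : ℂ) + t * I).re = σ := by simp

lemma perk_im (σ t : ℝ) : ((σ : ℂ) + t * I).im = t := by simp

lemma perk_ne {σ : ℝ} (hσ : 0 < σ) (t : ℝ) : (σ : ℂ) + t * I ≠ 0 := by
  intro h
  have := congrArg Complex.re h
  rw [perk_re] at this
  simp at this
  exact hσ.ne' this

lemma perk_ne' {σ : ℝ} (hσ : 0 < σ) (t : ℝ) : (σ : ℂ) + t * I + 1 ≠ 0 := by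
  intro h
  have := congrArg Complex.re h
  rw [add_re, perk_re] at this
  simp at this
  linarith

lemma perk_norm {σ : ℝ} (hσ : 0 < σ) (t : ℝ) :
    σ ^ 2 + t ^ 2 ≤ ‖((σ : ℂ) + t * I) * ((σ : ℂ) + t * I + 1)‖ := by
  rw [norm_mul]
  have h1 : ‖(σ : ℂ) + t * I‖ ^ 2 = σ ^ 2 + t ^ 2 := by
    rw [Complex.sq_norm, normSq_apply, perk_re, perk_im]
    ring
  have h2 : ‖(σ : ℂ) + t * I + 1‖ ^ 2 = (σ + 1) ^ 2 + t ^ 2 := by
    rw [Complex.sq_norm, normSq_apply, add_re, add_im, perk_re, perk_im]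
    simp
    ring
  have h3 : ‖(σ : ℂ) + t * I‖ ≤ ‖(σ : ℂ) + t * I + 1‖ := by
    apply le_of_sq_le_sq _ (norm_nonneg _)
    rw [h1, h2]
    nlinarith
  calc σ ^ 2 + t ^ 2 = ‖(σ : ℂ) + t * I‖ * ‖(σ : ℂ) + t * I‖ := by rw [← h1]; ring
    _ ≤ _ := mul_le_mul_of_nonneg_left h3 (norm_nonneg _)

lemma perk_int {σ : ℝ} (hσ : 0 < σ) :
    Integrable (fun t : ℝ => (((σ : ℂ) + t * I) * ((σ : ℂ) + t * I + 1))⁻¹) := by
  have hc : Continuous (fun t : ℝ => (((σ : ℂ) + t * I) * ((σ : ℂ) + t * I + 1))⁻¹) := by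
    apply Continuous.inv₀ (by fun_prop)
    intro t
    exact mul_ne_zero (perk_ne hσ t) (perk_ne' hσ t)
  refine Integrable.mono' (g := fun t : ℝ => (1 + 1 / σ ^ 2) * (1 + t ^ 2)⁻¹)
    (integrable_inv_one_add_sq.const_mul _) hc.aestronglyMeasurable ?_
  refine Filter.Eventually.of_forall fun t => ?_
  rw [norm_inv]
  have h1 := perk_norm hσ t
  have h2 : 0 < σ ^ 2 + t ^ 2 := by positivity
  have h3 : ‖((σ : ℂ) + t * I) * ((σ : ℂ) + t * I + 1)‖⁻¹ ≤ (σ ^ 2 + t ^ 2)⁻¹ :=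
    inv_anti₀ h2 h1
  refine h3.trans ?_
  rw [inv_eq_one_div, div_le_iff₀ h2, mul_assoc, ← div_eq_inv_mul, mul_div_assoc']
  rw [le_div_iff₀ (by positivity)]
  have h4 : (1 + 1 / σ ^ 2) * (σ ^ 2 + t ^ 2) = σ ^ 2 + t ^ 2 + 1 + t ^ 2 / σ ^ 2 := by
    field_simp
    ring
  rw [h4]
  have : 0 ≤ t ^ 2 / σ ^ 2 := by positivity
  nlinarith [sq_nonneg σ]

lemma perk_cont {σ : ℝ} (hσ : 0 < σ) {v : ℝ} (hv : 0 < v) : Continuous (fun t : ℝ => ker v σ t) := by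
  unfold ker
  apply Continuous.div
  · apply Continuous.const_cpow (by fun_prop)
    left
    exact_mod_cast hv.ne'
  · fun_prop
  · intro t
    exact mul_ne_zero (perk_ne hσ t) (perk_ne' hσ t)

lemma perk_ker_norm {σ : ℝ} {v : ℝ} (hv : 0 < v) (t : ℝ) :
    ‖ker v σ t‖ = v ^ (σ + 1) * ‖(((σ : ℂ) + t * I) * ((σ : ℂ) + t * I + 1))⁻¹‖ := by
  unfold ker
  rw [norm_div, Complex.norm_cpow_eq_rpow_re_of_pos hv, norm_inv, div_eq_mul_inv]
  congr 2
  simp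

lemma perk_ker_int {σ : ℝ} (hσ : 0 < σ) {v : ℝ} (hv : 0 < v) :
    Integrable (fun t : ℝ => ker v σ t) := by
  refine Integrable.mono' ((perk_int hσ).norm.const_mul (v ^ (σ + 1)))
    (perk_cont hσ hv).aestronglyMeasurable ?_
  exact Filter.Eventually.of_forall fun t => (perk_ker_norm hv t).le

/-- the scalar Perron formula -/
theorem perk_main {σ : ℝ} (hσ : 0 < σ) {v : ℝ} (hv : 0 < v) :
    ∫ t : ℝ, ker v σ t = 2 * Real.pi * ((max (v - 1) 0 : ℝ) : ℂ) := by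
  have hm : ∀ t : ℝ, mellin perk_f ((σ : ℂ) + t * I) =
      (((σ : ℂ) + t * I) * ((σ : ℂ) + t * I + 1))⁻¹ := by
    intro t
    rw [(perk_mellin (s := (σ : ℂ) + t * I) (by rw [perk_re]; exact hσ)).2]
    have h1 := perk_ne hσ t
    have h2 := perk_ne' hσ t
    field_simp
    ring
  have hu : 0 < v⁻¹ := inv_pos.2 hv
  have hvi : VerticalIntegrable (mellin perk_f) σ := by
    unfold VerticalIntegrable
    simp only [hm]
    exact perk_int hσ
  have hca : ContinuousAt perk_f v⁻¹ := by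
    have h1 : ContinuousAt (fun u : ℝ => ((max (1 - u) 0 : ℝ) : ℂ)) v⁻¹ := by
      apply Continuous.continuousAt
      fun_prop
    apply h1.congr
    filter_upwards [lt_mem_nhds hu] with u hu'
    exact (perk_f_eq hu').symm
  have key := mellinInv_mellin_eq σ perk_f hu
    (perk_mellin (s := (σ : ℂ)) (by simpa using hσ)).1 hvi hca
  rw [perk_f_eq hu, mellinInv] at key
  have e1 : ∀ t : ℝ, ((v⁻¹ : ℝ) : ℂ) ^ (-((σ : ℂ) + t * I)) • mellin perk_f ((σ : ℂ) + t * I) =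
      (v : ℂ)⁻¹ * ker v σ t := by
    intro t
    have hv' : (v : ℂ) ≠ 0 := by exact_mod_cast hv.ne'
    rw [hm t, ker, smul_eq_mul, cpow_add _ _ hv', cpow_one]
    have : ((v⁻¹ : ℝ) : ℂ) ^ (-((σ : ℂ) + t * I)) = (v : ℂ) ^ ((σ : ℂ) + t * I) := by
      rw [cpow_neg, ofReal_inv, inv_cpow _ _ (by
        rw [Complex.arg_ofReal_of_nonneg hv.le]; exact Real.pi_pos.ne), inv_inv]
    rw [this]
    field_simp
  simp only [e1] at key
  rw [integral_const_mul] at key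
  have hpi : (Real.pi : ℂ) ≠ 0 := by exact_mod_cast Real.pi_pos.ne'
  have hv' : (v : ℂ) ≠ 0 := by exact_mod_cast hv.ne'
  have e2 : ∫ t : ℝ, ker v σ t = 2 * Real.pi * v * ((max (1 - v⁻¹) 0 : ℝ) : ℂ) := by
    rw [← key, Complex.real_smul]
    push_cast
    field_simp
  rw [e2]
  have e3 : max (v - 1) 0 = v * max (1 - v⁻¹) 0 := by
    rw [mul_max_of_nonneg _ _ hv.le, mul_zero]
    congr 1
    field_simp
  rw [e3]
  push_cast
  ring

end Pool.Agent.MVX
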