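import Pool.Agent.MVX.LD

set_option autoImplicit false

/-!
# Project MVX, L-core, part A: local theory of zeros, explicit formula, the exceptional zero

All characters are arbitrary (primitive or not) unless said otherwise.
-/

namespace Pool.Agent.MVX

open Finset MeasureTheory

/-- **A1.** Partial sums of `L(s, χ)`, `χ` nonprincipal, `Re s ≥ 1/2`.
PROOF. `T(n) = sum_(k<=n) χ(k)` has `|T| ≤ q` (`BVX.a1_T_bound`), and for `Re s > 1/4` `BVX.a1_G_eq`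
gives `L(s, χ) = sum_n T(n) (n^-s - (n+1)^-s)`. Abel summation on `n ≤ N = floor v` gives
`L - Ssum = sum_(n>N) (T(n) - T(N)) (n^-s - (n+1)^-s)`, and `|n^-s - (n+1)^-s| ≤ |s| n^(-σ-1)`
(better: `≤ |s| ∫_n^(n+1) u^(-σ-1) du`), so the sum is `≤ 2q |s| (N+1)^-σ / σ ≤ 4 q |s| v^-σ`. -/
def St_A1 : Prop := ∀ (q : ℕ) [NeZero q] (χ : DirichletCharacter ℂ q), χ ≠ 1 →
  ∀ s : ℂ, 1 / 2 ≤ s.re → ∀ v : ℝ, 1 ≤ v →
    ‖Ssum (cf χ) s v - χ.LFunction s‖ ≤ 4 * q * (1 + ‖s‖) * v ^ (-s.re)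

/-- **A1p.** The same for the principal character modulo `q`.
PROOF. Let `κ = φ(q)/q`, `h(n) = 1_((n,q)=1) - κ`: it has mean `0` over periods, so its partial sums
are `≤ q`, and `H(s) = sum h(n) n^-s` converges and is analytic for `Re s > 0` (as in A1), with tail
`≤ 4 q |s| v^-σ`. For `Re s > 1`: `L(s, χ0) = H(s) + κ ζ(s)`, hence (both sides analytic in
`Re s > 0`, `s ≠ 1`) for all those `s`. For `ζ`: `sum_(n<=v) n^-s = v^(1-s)/(1-s) + ζ(s) + O((1+|s|) v^-σ)`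
(Euler-Maclaurin with the fractional part: `ζ(s) = s/(s-1) - s ∫_1^∞ {u} u^(-s-1) du`). -/
def St_A1p : Prop := ∃ C : ℝ, 0 < C ∧ ∀ (q : ℕ) [NeZero q] (s : ℂ), 1 / 2 ≤ s.re → s ≠ 1 →
  ∀ v : ℝ, 1 ≤ v →
    ‖Ssum (cf (1 : DirichletCharacter ℂ q)) s v
      - ((Nat.totient q : ℂ) / q) * ((v : ℂ) ^ (1 - s) / (1 - s))
      - (1 : DirichletCharacter ℂ q).LFunction s‖ ≤ C * q * (1 + ‖s‖) * v ^ (-s.re)

/-- **A2.** Growth of `Lf`, lower bound on `Re s = 3/2`, logarithmic derivative to the right of `1`.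
PROOF. Upper bound: A1 and A1p with `v = 1` (`Ssum = 1` or so) for `1/2 ≤ Re z`, multiply by `z - 1` for
the principal character (at `z = 1` by continuity); for `Re z` large this is still fine because
A1, A1p hold for all `Re s ≥ 1/2`. Lower bound: `|1/L(s,χ)| = |sum μ(n) χ(n) n^-s| ≤ ζ(3/2)`, and
`|z - 1| ≥ 1/2`. Third: `|L'/L(s,χ)| = |sum Λ(n) χ(n) n^-s| ≤ -ζ'/ζ(σ) ≤ C/(σ-1)` for `1 < σ ≤ 2`, and the
factor `s - 1` contributes `1/(s-1)`. -/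
def St_A2 : Prop := ∃ C : ℝ, 1 ≤ C ∧ ∀ (q : ℕ) [NeZero q] (χ : DirichletCharacter ℂ q),
  (∀ z : ℂ, 1 / 2 ≤ z.re → ‖Lf χ z‖ ≤ C * q * (1 + ‖z‖) ^ 2) ∧
  (∀ t : ℝ, 1 ≤ C * ‖Lf χ (3 / 2 + t * Complex.I)‖) ∧
  (∀ s : ℂ, 1 < s.re → s.re ≤ 2 → ‖deriv (Lf χ) s / Lf χ s‖ ≤ C / (s.re - 1))

/-- **Fac.** Taking out finitely many zeros of an entire function.
PROOF. Induction on `S`: if `f = (z-ρ)^n g` near `ρ`, `n` the order, `g` analytic at `ρ`, `g(ρ) ≠ 0`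
(`n` is finite because `f` is not identically `0`), then `f(z)/(z-ρ)^n` (`z ≠ ρ`) extended by `g(ρ)` is
entire, has the same order as `f` at all other points. -/
def St_Fac : Prop := ∀ (f : ℂ → ℂ), Differentiable ℂ f → (∃ z, f z ≠ 0) → ∀ S : Finset ℂ,
  ∃ g : ℂ → ℂ, Differentiable ℂ g ∧
    (∀ z, f z = g z * ∏ ρ ∈ S, (z - ρ) ^ (analyticOrderNatAt f ρ)) ∧
    ∀ z, z ∈ S ∨ f z ≠ 0 → g z ≠ 0

/-- **Lan** (Landau's local lemma).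
PROOF. WLOG `c = 0`. `g` from Fac with `S = Z`, `n = sum of orders`. (1) `h(z) = g(z) prod (1 - conj(ρ) z)^ord`
is entire with `|h| = |f| ≤ e^M |f(0)|` on `|z| = 1`, so `|h(0)| = |g(0)| ≤ e^M |f(0)|`, and
`|f(0)| = |g(0)| prod |ρ|^ord ≤ |g(0)| (3/4)^n`: `n ≤ M / log(4/3) ≤ 4M`. (2) On `|z| = 1`:
`|prod (z-ρ)^ord| ≥ 4^-n`, so `|g| ≤ 4^n e^M |f(0)| ≤ e^(7M) |g(0)|` on the closed unit disc (maximum
principle). On the open disc `|z| < 3/4 ` (even closed) `g ≠ 0`, so `g/g(0) = exp(l)` with `l` analytic on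
the open disc of radius `3/4`, `l(0) = 0`, `Re l ≤ 7M`
(Mathlib: existence of logarithms on discs, `Complex.borelCaratheodory_zero`): `|l| ≤ C M` for
`|z| ≤ 0.7`, by Cauchy `|l'| ≤ C M` for `|z| ≤ 5/8`, and `l' = g'/g = f'/f - sum ord/(z-ρ)`. -/
def St_Lan : Prop := ∃ C : ℝ, 0 < C ∧ ∀ (f : ℂ → ℂ) (c : ℂ) (M : ℝ) (Z : Finset ℂ),
  Differentiable ℂ f → 1 ≤ M → f c ≠ 0 →
  (∀ z ∈ Metric.closedBall c 1, ‖f z‖ ≤ Real.exp M * ‖f c‖) →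
  (∀ ρ, ρ ∈ Z ↔ ρ ∈ Metric.closedBall c (3 / 4) ∧ f ρ = 0) →
    (∑ ρ ∈ Z, (analyticOrderNatAt f ρ : ℝ) ≤ C * M) ∧
    ∀ s ∈ Metric.closedBall c (5 / 8), f s ≠ 0 →
      ‖deriv f s / f s - ∑ ρ ∈ Z, (analyticOrderNatAt f ρ : ℂ) / (s - ρ)‖ ≤ C * M

/-- **Loc.** Landau's lemma for `Lf χ` at the centre `3/2 + i t`.
PROOF. St_Lan with St_A2: on the closed unit disc around `3/2 + it` (`Re ≥ 1/2`)
`|Lf| ≤ C q (1 + |z|)^2 ≤ T^C' |Lf(c)|`. -/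
def St_Loc : Prop := ∃ C : ℝ, 0 < C ∧ ∀ T : ℝ, 2 ≤ T → ∀ (q : ℕ) [NeZero q]
  (χ : DirichletCharacter ℂ q), (q : ℝ) ≤ T ^ 2 → ∀ t : ℝ, |t| ≤ 4 * T →
    (∑ ρ ∈ zs χ (disc (3 / 2) t (3 / 4)), (zm χ ρ : ℝ) ≤ C * Real.log T) ∧
    ∀ s ∈ disc (3 / 2) t (5 / 8), Lf χ s ≠ 0 →
      ‖deriv (Lf χ) s / Lf χ s - ∑ ρ ∈ zs χ (disc (3 / 2) t (3 / 4)), (zm χ ρ : ℂ) / (s - ρ)‖
        ≤ C * Real.log T

/-- **Cnt.** Zeros in small discs around `1 + i t`.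
PROOF. `s = 1 + r + it` lies in `disc (3/2) t (5/8)`; by Loc and A2 (third part)
`Re sum zm/(s-ρ) ≤ C/r + C log T`; all terms have real part `≥ 0` (`Re ρ < 1`: `Lf_ne_zero`), the zeros
in `disc 1 t r` have `Re (s-ρ) ≥ r`, `|s-ρ| ≤ 2r`, so real part `≥ 1/(4r)`, and `disc 1 t r` is
contained in `disc (3/2) t (3/4)`. -/
def St_Cnt : Prop := ∃ C : ℝ, 0 < C ∧ ∀ T : ℝ, 2 ≤ T → ∀ (q : ℕ) [NeZero q]
  (χ : DirichletCharacter ℂ q), (q : ℝ) ≤ T ^ 2 → ∀ t : ℝ, |t| ≤ 3 * T → ∀ r : ℝ, 0 < r → r ≤ 1 / 8 →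
    ∑ ρ ∈ zs χ (disc 1 t r), (zm χ ρ : ℝ) ≤ C * (1 + r * Real.log T)

/-- **HB.** The logarithmic derivative after removing the zeros `ρ` with `Re ρ ≥ 7/8`, `|Im ρ| ≤ T + 1`.
PROOF. Grouping lemma: zeros with `Re ≥ 7/8` and `|Im ρ - t'| ≤ 2/5` lie in `disc (3/2) t' (3/4)`, so there are
`≤ C log T` of them (with multiplicity) in each unit interval of `Im ρ` (for `|t'| ≤ T + 3`): the number
of all is `≤ C T log T` (iii); for every `s` and `d ≤ 1` with `|s - ρ| ≥ d` for all these `ρ`: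
`sum zm/|s-ρ| ≤ C log T (1/d + log T)` (unit intervals at distance `k` from `Im s` contribute
`C log T / k`; if `|Im s| > 2T+4` all are at distance `≥ T`).
(i) `s` in the region, `t = Im s`: by Loc `Lf'/Lf(s) = sum over D = disc (3/2) t (3/4) + O(log T)`. The
zeros in `D`, not in the rectangle, are at distance `≥ 1/16` from `s` (`Re ρ < 7/8` or `|Im ρ| > T + 1`), the
zeros in the rectangle, not in `D`, have `|Im ρ - t| ≥ 2/5`: grouping lemma (for this subset) with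
`d = 2/5`.
(ii) `|Lf'/Lf| ≤ C/(Re s - 1)` by A2 and the grouping lemma with `d = Re s - 1` (`Re ρ < 1`). -/
def St_HB : Prop := ∃ C : ℝ, 0 < C ∧ ∀ T : ℝ, 2 ≤ T → ∀ (q : ℕ) [NeZero q]
  (χ : DirichletCharacter ℂ q), (q : ℝ) ≤ T →
    (∀ s : ℂ, 15 / 16 ≤ s.re → s.re ≤ 2 → |s.im| ≤ T → Lf χ s ≠ 0 →
      ‖deriv (Lf χ) s / Lf χ s - ∑ ρ ∈ zs χ (rect (7 / 8) (T + 1)), (zm χ ρ : ℂ) / (s - ρ)‖
        ≤ C * Real.log T ^ 2) ∧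
    (∀ s : ℂ, 1 < s.re → s.re ≤ 2 →
      ‖deriv (Lf χ) s / Lf χ s - ∑ ρ ∈ zs χ (rect (7 / 8) (T + 1)), (zm χ ρ : ℂ) / (s - ρ)‖
        ≤ C * Real.log T * (1 / (s.re - 1) + Real.log T)) ∧
    (∑ ρ ∈ zs χ (rect (7 / 8) (T + 1)), (zm χ ρ : ℝ) ≤ C * T * Real.log T)

/-- the Perron kernel of order 1 on the line `Re s = σ` -/
noncomputable def ker (x σ t : ℝ) : ℂ :=
  (x : ℂ) ^ ((σ : ℂ) + t * Complex.I + 1) /
    (((σ : ℂ) + t * Complex.I) * ((σ : ℂ) + t * Complex.I + 1))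

/-- **PerS.** Perron's formula with the kernel `1/(s(s+1))`, for Dirichlet series.
PROOF. For `v > 0` : `(1/2π) ∫ v^(σ+1+it)/((σ+it)(σ+1+it)) dt = max(v-1, 0)`: Fourier inversion for the
continuous integrable function `y -> e^(-σ y) (1 - e^-y)` (`y ≥ 0`, else `0`), whose transform
`1/((σ+it)(σ+1+it))` is integrable (`MeasureTheory.Integrable.fourierInv_fourier_eq` or the Mellin inversion
of Mathlib). Then `x^(s+1) n^-s = n (x/n)^(s+1)` and dominated convergence / `integral_tsum`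
(`sum |a n| n^-σ < ∞`, `∫ dt/|s(s+1)| < ∞`); `n max(x/n - 1, 0) = max(x-n, 0)`. -/
def St_PerS : Prop := ∀ (a : ℕ → ℂ) (σ x : ℝ), 0 < σ → 0 < x → a 0 = 0 →
  Summable (fun n : ℕ => ‖a n‖ * (n : ℝ) ^ (-σ)) →
    Integrable (fun t : ℝ => (∑' n : ℕ, a n * (n : ℂ) ^ (-((σ : ℂ) + t * Complex.I))) * ker x σ t) ∧
    ∫ t : ℝ, (∑' n : ℕ, a n * (n : ℂ) ^ (-((σ : ℂ) + t * Complex.I))) * ker x σ t =
      2 * Real.pi * ∑ n ∈ Icc 1 ⌊x⌋₊, ((x : ℂ) - n) * a n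

/-- **PerR.** The same for `1/(s-ρ) = ∫_1^∞ y^(ρ-1) y^-s dy`.
PROOF. Fubini with the scalar formula of PerS: the value is
`2π ∫_1^x (x-y) y^(ρ-1) dy = 2π (x^(ρ+1)/(ρ(ρ+1)) - x/ρ + 1/(ρ+1))`; absolute convergence from
`∫_1^∞ y^(Re ρ - 1 - σ) dy < ∞`. -/
def St_PerR : Prop := ∀ (ρ : ℂ) (σ x : ℝ), 0 < σ → 0 < ρ.re → ρ.re < σ → 1 ≤ x →
    Integrable (fun t : ℝ => ((σ : ℂ) + t * Complex.I - ρ)⁻¹ * ker x σ t) ∧
    ∫ t : ℝ, ((σ : ℂ) + t * Complex.I - ρ)⁻¹ * ker x σ t =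
      2 * Real.pi * ((x : ℂ) ^ (ρ + 1) / (ρ * (ρ + 1)) - x / ρ + 1 / (ρ + 1))

/-- **EF.** The explicit formula as an inequality.
PROOF. Let `x ≥ 2`, `σ = 1 + 1/(2 log x)` (`≤ 2`, `x^(σ+1) = e^(1/2) x^2`). `G(s) = Lf'/Lf(s) - sum_(ρ in Z) zm/(s-ρ)`,
`Z = zs χ (rect (7/8) (T+1))`. By PerS (`Lf'/Lf = -sum Λ χ n^-s` plus `1/(s-1)` for the principal
character) and PerR (`ρ` in `Z`, and `ρ = 1` for the principal character):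
`∫ G(σ+it) ker dt = 2π (-psi_1(x) + 1_(χ=1) (x^2/2 - x + 1/2) - sum zm (x^(ρ+1)/(ρ(ρ+1)) - x/ρ + 1/(ρ+1)))`.
The terms `x/ρ, 1/(ρ+1)` are `≤ 3x C T log T`. The integral: `|t| > T` by HB (ii):
`≤ C log T (log x + log T) x^2 / T`. For `|t| ≤ T`: `G` equals near the rectangle
`[15/16, σ] x [-T, T]` the function `g'/g` with `g` from Fac for `Z` (analytic there: `g ≠ 0` on
the rectangle because zeros of `Lf` there are in `Z`, and `g'/g = G` off the zeros; on `Z` use the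
bound by continuity), so by Cauchy-Goursat (`Complex.integral_boundary_rect_eq_zero_of_differentiableOn`)
the integral over the right side is the sum of the integrals over the other three sides:
left `≤ C log^2 T x^(31/16)`, top and bottom `≤ C log^2 T x^2/T^2` (HB (i)). For `0 ≤ x < 2` the left side is
trivially `≤ 2 + 4 sum zm ≤ C T log T` (HB (iii); the sum over `n` is `0`). -/
def St_EF : Prop := ∃ C : ℝ, 0 < C ∧ ∀ T : ℝ, 2 ≤ T → ∀ (q : ℕ) [NeZero q]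
  (χ : DirichletCharacter ℂ q), (q : ℝ) ≤ T → ∀ x : ℝ, 0 ≤ x → ∀ p : ℂ,
    (χ = 1 → p = 1) → (χ ≠ 1 → p = 0) →
    ‖∑ n ∈ Icc 1 ⌊x⌋₊, ((x : ℂ) - n) * (((ArithmeticFunction.vonMangoldt n : ℝ) : ℂ) * χ (n : ZMod q))
      - p * ((x : ℂ) ^ 2 / 2)
      + ∑ ρ ∈ zs χ (rect (7 / 8) (T + 1)), (zm χ ρ : ℂ) * ((x : ℂ) ^ (ρ + 1) / (ρ * (ρ + 1)))‖
      ≤ C * (x + 2) ^ 2 * (Real.log T * Real.log (x + 2)) ^ 2 *
        (T * (x + 2) ^ (-(1 / 16 : ℝ)) + 1 / T)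

/-- **L0.** Primitive characters which are not different in the sense of `Dif` are equal.
PROOF. `prodChar χ ψ⁻¹ = 1` means that the two changed levels to `q q'` are equal, so by `MT.level_dvd_gcd`
(both ways) `q = q'`, and then `χ = ψ` because `changeLevel` is injective. -/
def St_L0 : Prop := ∀ (q q' : ℕ) [NeZero q] [NeZero q'] (χ : DirichletCharacter ℂ q)
  (ψ : DirichletCharacter ℂ q'), χ.IsPrimitive → ψ.IsPrimitive → ¬ Dif χ ψ →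
    (⟨q, χ⟩ : Chr) = ⟨q', ψ⟩

/-- **Unq.** Two zeros (with multiplicity) cannot both be very close to the line `Re s = 1`.
PROOF. Let `a = c/log T`, `f_j(n) = χ_j(n) n^(-iγ_j)`, and sum `Λ(n) n^(-1-a) |1 + f_1(n) + f_2(n)|^2 ≥ 0`:
`0 ≤ 3(1/a + C) + 2 Re(-L'/L(1+a+iγ_1, χ_1)) + 2 Re(-L'/L(1+a+iγ_2, χ_2)) + 2 Re(-L'/L(1+a+i(γ_1-γ_2), χ_1 conj χ_2))`.
By Loc (real parts of `1/(s-ρ)` are `≥ 0`, so any set of zeros of `disc (3/2) t (3/4)` may be kept)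
`-Re L'/L(1+a+iγ_j, χ_j) ≤ -sum_(kept) zm Re 1/(1+a+iγ_j-ρ) + C log T` (for a principal `χ_j` there is an
additional `Re 1/(a+iγ_j)`, bounded because `ζ` has no zero near `1`, so `|γ_j|` is bounded below if `T` is
large).
(1) Different characters: keep `ρ_j`; last term `≤ C log T` (modulus `q_1 q_2 ≤ T^2`, height `≤ 2T`):
`0 ≤ 3/a - 4/(a + c0/log T) + C log T`: false for `c` small, `c0 = c/10`.
(2) Same `χ`, zeros `ρ_1 ≠ ρ_2`, `Δ = γ_1-γ_2`, `r = a^2/(a^2+Δ^2)`: if `|Δ| ≤ 1/4` keep both zeros in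
both sums: each middle term is `≤ -(1-ε)(1+r)/a + C log T`; the last term (principal character) is
`≤ Re 1/(a+iΔ) + C log T = r/a + C log T`: `0 ≤ (3 - 4(1-ε)(1+r) + 2r)/a + C log T < 0`. If `|Δ| > 1/4`,
`r/a ≤ 16 a`: the same without the second zero. Double zero: `Δ = 0`, `r = 1` with the weight
`|1 + f|^2`: `0 ≤ 2/a - 4(1-ε)/a + C log T`. -/
def St_Unq : Prop := ∃ c₀ T₀ : ℝ, 0 < c₀ ∧ 2 ≤ T₀ ∧ ∀ T : ℝ, T₀ ≤ T →
  (∀ (q₁ q₂ : ℕ) [NeZero q₁] [NeZero q₂] (χ₁ : DirichletCharacter ℂ q₁)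
    (χ₂ : DirichletCharacter ℂ q₂), (q₁ : ℝ) ≤ T → (q₂ : ℝ) ≤ T → Dif χ₁ χ₂ →
    ∀ ρ₁ ∈ rect (1 - c₀ / Real.log T) T, ∀ ρ₂ ∈ rect (1 - c₀ / Real.log T) T,
      Lf χ₁ ρ₁ = 0 → Lf χ₂ ρ₂ = 0 → False) ∧
  (∀ (q : ℕ) [NeZero q] (χ : DirichletCharacter ℂ q), (q : ℝ) ≤ T →
    ∑ ρ ∈ zs χ (rect (1 - c₀ / Real.log T) T), zm χ ρ ≤ 1)

/-- **Exc.** Landau-Page: at most one exceptional zero, and it is real and simple, of a real character.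
PROOF. Let `ρ₁` be a zero of `L(s, χ₁)` in the region. Then `conj ρ₁` is a zero of `L(s, χ₁⁻¹)` in the
region; by Unq (1) and L0 `χ₁⁻¹ = χ₁`, and by Unq (2) `conj ρ₁ = ρ₁` and `zm = 1`. If `χ₁ = 1` then
`q₁ = 1` and `Lf 1` has no real zero in a neighbourhood of `1`: exclude by `T ≥ T₀`. For other
`(q₂, χ₂, ρ₂)` use Unq (1) + L0, then Unq (2). -/
def St_Exc : Prop := ∃ c₀ T₀ : ℝ, 0 < c₀ ∧ c₀ ≤ 1 ∧ 2 ≤ T₀ ∧ ∀ T : ℝ, T₀ ≤ T →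
  ∀ (q₁ : ℕ) [NeZero q₁] (χ₁ : DirichletCharacter ℂ q₁), χ₁.IsPrimitive → (q₁ : ℝ) ≤ T →
  ∀ ρ₁ ∈ rect (1 - c₀ / Real.log T) T, Lf χ₁ ρ₁ = 0 →
    χ₁ ≠ 1 ∧ χ₁ ^ 2 = 1 ∧ ρ₁.im = 0 ∧ zm χ₁ ρ₁ = 1 ∧
    ∀ (q₂ : ℕ) [NeZero q₂] (χ₂ : DirichletCharacter ℂ q₂), χ₂.IsPrimitive → (q₂ : ℝ) ≤ T →
    ∀ ρ₂ ∈ rect (1 - c₀ / Real.log T) T, Lf χ₂ ρ₂ = 0 →
      (⟨q₂, χ₂⟩ : Chr) = ⟨q₁, χ₁⟩ ∧ ρ₂ = ρ₁

end Pool.Agent.MVX
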