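import Pool.Agent.MVX.StA

set_option autoImplicit false

/-!
# Project MVX, L-core, part D: log-free zero density
-/

namespace Pool.Agent.MVX

open Finset

/-- The weight `(1/log y) sum_(d | n, d <= y) μ(d) log(y/d)`. -/
noncomputable def gw (y : ℝ) (n : ℕ) : ℝ :=
  (∑ d ∈ n.divisors.filter (fun d : ℕ => (d : ℝ) ≤ y),
    (ArithmeticFunction.moebius d : ℝ) * Real.log (y / d)) / Real.log y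

/-- The Barban-Vehov weight: `f(1) = 1`, `f(n) = 0` for `1 < n ≤ z`. -/
noncomputable def fBV (z : ℝ) (n : ℕ) : ℝ := 2 * gw (z ^ 2) n - gw z n

/-- `log⁺` -/
noncomputable def lp (x : ℝ) : ℝ := max 0 (Real.log x)

/-- Trapezoid in the logarithmic scale: support `[T^10, T^42]`, equal to `1` on `[T^12, T^40]`. -/
noncomputable def VT (T u : ℝ) : ℝ :=
  (lp (T ^ 42 / u) - lp (T ^ 40 / u) - lp (T ^ 12 / u) + lp (T ^ 10 / u)) / (2 * Real.log T)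

/-- **H.** PROOF. `k = 1`: `h_1(Y) = sum_(b<=Y) μ(b)/b log(Y/b)`; from
`1 = sum_(b<=Y) (μ(b)/b) H(Y/b)`, `H(v) = sum_(n<=v) 1/n = log v + γ + O(1/v)`, and `|sum_(b<=Y) μ(b)/b| ≤ 1`:
`|h_1| ≤ C`. General `k`: `μ(j) 1_((j,k)=1) = sum_(ab=j, a | k^∞) μ(b)`, so
`h_k(Y) = sum_(a | k^∞, a <= Y) (1/a) h_1(Y/a)` and `sum_(a | k^∞) 1/a = k/φ(k)` (or induction over
the primes of `k`: `h_(kp)(Y) = sum_(i>=0) p^-i h_k(Y/p^i)`). -/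
def St_H : Prop := ∃ C : ℝ, 0 < C ∧ ∀ k : ℕ, 1 ≤ k → ∀ Y : ℝ,
  |∑ j ∈ (Icc 1 ⌊Y⌋₊).filter (fun j => j.Coprime k),
    (ArithmeticFunction.moebius j : ℝ) / j * Real.log (Y / j)| ≤ C * (k / (Nat.totient k : ℝ))

/-- the quadratic form of the weights `μ(d) log(y/d)` with exponent `1 + ε` -/
noncomputable def QBV (y ε : ℝ) : ℝ :=
  ∑ d ∈ Icc 1 ⌊y⌋₊, ∑ e ∈ Icc 1 ⌊y⌋₊,
    ((ArithmeticFunction.moebius d : ℝ) * Real.log (y / d)) *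
      ((ArithmeticFunction.moebius e : ℝ) * Real.log (y / e)) * ((d.lcm e : ℕ) : ℝ) ^ (-(1 + ε))

/-- **BV.** PROOF. `[d,e]^(-1-ε) = (de)^(-1-ε) (d,e)^(1+ε)`, `(d,e)^(1+ε) = sum_(k | d, k | e) J(k)`,
`J(k) = sum_(c | k) μ(k/c) c^(1+ε)`, `0 ≤ J(k) ≤ k^(1+ε)`. So
`Q = sum_(k<=y, squarefree) J(k) k^(-2-2ε) (sum_(j<=y/k, (j,k)=1) μ(j) j^(-1-ε) log(y/(kj)))^2 ≥ 0`. Inner sum:
`e^(-εu) (L-u)_+ = e^(-εL) (L-u)_+ + ∫_u^L (v-u) F''(v) dv`, `F''(v) = e^(-εv) (ε^2 (L-v) + 2ε)`, `L = log(y/k)`,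
`u = log j`, so it is `e^(-εL) h_k(e^L) + ∫_0^L h_k(e^v) F''(v) dv`, in absolute value
`≤ C (k/φ(k)) (3 + ε L) ≤ 7 C k/φ(k)`. Finally `sum_(k<=y) μ^2(k) k^(1+ε-2-2ε) (k/φ(k))^2 ≤ sum μ^2(k) (k/φ(k))^2/k
≤ prod_(p<=y) (1 + p/(p-1)^2) ≤ C log y`. -/
def St_BV : Prop := ∃ C : ℝ, 0 < C ∧ ∀ y : ℝ, 2 ≤ y → ∀ ε : ℝ, 0 ≤ ε → ε * Real.log y ≤ 4 →
  0 ≤ QBV y ε ∧ QBV y ε ≤ C * Real.log y

/-- **Fsq.** PROOF. `f^2 ≤ 2 (4 gw(z^2,n)^2 + gw(z,n)^2)`; with `ε = 1/log z`: `1/n ≤ x^ε n^(-1-ε) ≤ e^A n^(-1-ε)`;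
`sum_n gw(y,n)^2 n^(-1-ε) = ζ(1+ε) QBV(y,ε)/log^2 y ≤ (1 + 1/ε) C/log y` for `y = z, z^2` (expand the square:
`n` runs over the multiples of `[d,e]`). -/
def St_Fsq : Prop := ∀ A : ℝ, 0 < A → ∃ C : ℝ, 0 < C ∧ ∀ z : ℝ, 2 ≤ z → ∀ x : ℝ, 1 ≤ x → x ≤ z ^ A →
  ∑ n ∈ Icc 1 ⌊x⌋₊, fBV z n ^ 2 / n ≤ C

/-- density of `1_((n,k)=1) gw(y,n)^2` -/
noncomputable def Mk (y : ℝ) (k : ℕ) : ℝ :=
  ((Nat.totient k : ℝ) / k) *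
    ∑ d ∈ (Icc 1 ⌊y⌋₊).filter (fun d => d.Coprime k), ∑ e ∈ (Icc 1 ⌊y⌋₊).filter (fun e => e.Coprime k),
      ((ArithmeticFunction.moebius d : ℝ) * Real.log (y / d) / Real.log y) *
      ((ArithmeticFunction.moebius e : ℝ) * Real.log (y / e) / Real.log y) / ((d.lcm e : ℕ) : ℝ)

/-- **Mk.** PROOF. `Mk(y,k)` is the mean value of `1_((n,k)=1) gw(y,n)^2` over a period
`N = k * lcm(1..y)` (`gw(y,n)^2 = sum_(d,e | n)`; for `(n,k)=1` only `d, e` coprime to `k` matter, and the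
number of `n ≤ N`, `(n,k)=1`, `[d,e] | n` is `N φ(k)/(k [d,e])` if `(de,k)=1`). So
`0 ≤ Mk(y,k) ≤ Mk(y,1) = QBV(y,0)/log^2 y ≤ C/log y`. -/
def St_Mk : Prop := ∃ C : ℝ, 0 < C ∧ ∀ y : ℝ, 2 ≤ y → ∀ k : ℕ, 1 ≤ k →
  0 ≤ Mk y k ∧ Mk y k ≤ C / Real.log y

/-- **Det** (zero detector). PROOF. `f(n) g(n) = sum_([d,e] | n) ν_d θ_e`, `|ν_d|, |θ_e| ≤ 1`, `d ≤ T^24`, `e ≤ T`,
`f(1) g(1) = 1`, `f(n) = 0` for `1 < n ≤ T^12`. So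
`1 + sum_(T^12<n<=T^40) = sum_(n<=T^40) f g χ n^-ρ = sum_(d,e) ν_d θ_e χ([d,e]) [d,e]^-ρ Ssum(cf χ) ρ (T^40/[d,e])`.
`χ ≠ 1`: `L(ρ,χ) = 0`, A1: `|Ssum(v)| ≤ 8 T^2 * 2 v^-β` (for `v ≥ 1`; `Ssum = 0` for `v < 1`), total
`≤ T^25 * 16 T^2 * T^(-40 β) ≤ 1/4`. `χ = 1`: by A1p there is in addition
`κ (T^40)^(1-ρ)/(1-ρ) * sum ν_d θ_e χ([d,e])/[d,e]` (for `v < 1` the main term is `≤ 1/|1-ρ|`, also admissible), and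
`sum_(d,e) 1/[d,e] ≤ (log)^3`-type, so it is `≤ T^(1/10) (1+25 log T)^4 T^(-1/4) ≤ 1/8`. -/
def St_Det : Prop := ∃ T₀ : ℝ, 2 ≤ T₀ ∧ ∀ T : ℝ, T₀ ≤ T → ∀ (q : ℕ) [NeZero q]
  (χ : DirichletCharacter ℂ q), (q : ℝ) ≤ T → ∀ ρ ∈ rect (1 - 1 / 400) T, Lf χ ρ = 0 →
    (χ = 1 → T ^ (1 / 4 : ℝ) ≤ |ρ.im|) →
    1 / 2 ≤ ‖∑ n ∈ Ioc ⌊T ^ 12⌋₊ ⌊T ^ 40⌋₊,
      (((fBV (T ^ 12) n * gw T n : ℝ) : ℂ) * χ (n : ZMod q)) * (n : ℂ) ^ (-ρ)‖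

/-- **DuN.** PROOF. `gw(T,n)^2 = sum_(d,e | n)`, `d, e ≤ T`, coefficients `≤ 1`; `D = [d,e] ≤ T^2`; the inner sum
`ψ(D) D^-w sum_m ψ(m) m^-w V(mD)`: partial sums of `ψ` are `≤ T^2`, the function `u^-w V(uD)` vanishes for
`u ≤ T^10/D` and has variation `≤ C (1+|w|) (T^10/D)^-Re w`; total `≤ T^2 * T^2 * C (1+3T) T^(-10 Re w) ≤ 1/T`. -/
def St_DuN : Prop := ∃ T₀ : ℝ, 2 ≤ T₀ ∧ ∀ T : ℝ, T₀ ≤ T → ∀ (k : ℕ) [NeZero k]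
  (ψ : DirichletCharacter ℂ k), (k : ℝ) ≤ T ^ 2 → ψ ≠ 1 → ∀ w : ℂ, 1 - 1 / 200 ≤ w.re → w.re ≤ 1 →
    |w.im| ≤ 2 * T →
    ‖∑ n ∈ Icc 1 ⌊T ^ 42⌋₊, (((VT T n * gw T n ^ 2 : ℝ) : ℂ) * ψ (n : ZMod k)) * (n : ℂ) ^ (-w)‖ ≤ 1 / T

/-- **DuP.** PROOF. As DuN, now for `(D,k) = 1`: `sum_((m,k)=1) m^-w V(mD) = κ ∫_0^∞ u^-w V(uD) du + O(T^2 (1+|w|) (T^10/D)^-Re w)`
(`1_((m,k)=1) - κ` has partial sums `≤ k`, sum minus integral is `≤` variation), and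
`∫ u^-w V(uD) du = D^(w-1) I(w)`, so the main term is `Mk(T,k) I(w)`,
`I(w) = ∫_0^∞ v^-w V(v) dv = (Y_1^(1-w) - Y_2^(1-w) - Y_3^(1-w) + Y_4^(1-w))/((1-w)^2 2 log T)`,
`Y = T^42, T^40, T^12, T^10` (for `w ≠ 1`, `Re w < 1` by `∫_0^Y v^-w log(Y/v) dv = Y^(1-w)/(1-w)^2`; for `Re w = 1` by
continuity or directly), `|I| ≤ 32 log T * T^(42(1-Re w))` trivially. With `0 ≤ Mk ≤ C/log T` the bound follows; the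
error is `≤ T^4 C T T^(-10 Re w) ≤ T^-4`, smaller than the right side (`≥ c/(T log T)^2`). -/
def St_DuP : Prop := ∃ C T₀ : ℝ, 0 < C ∧ 2 ≤ T₀ ∧ ∀ T : ℝ, T₀ ≤ T → ∀ (k : ℕ) [NeZero k],
  (k : ℝ) ≤ T ^ 2 → ∀ w : ℂ, 1 - 1 / 200 ≤ w.re → w.re ≤ 1 → |w.im| ≤ 2 * T →
    ‖∑ n ∈ Icc 1 ⌊T ^ 42⌋₊, (((VT T n * gw T n ^ 2 : ℝ) : ℂ) *
      (1 : DirichletCharacter ℂ k) (n : ZMod k)) * (n : ℂ) ^ (-w)‖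
      ≤ C * T ^ (C * (1 - w.re)) / (1 + (w.im * Real.log T) ^ 2)

/-- **Dua** (duality with a majorant). PROOF. Let `A_j = sum_n a_n b_j(n)`, `S = sum_j |A_j|^2 = sum_n a_n (sum_j conj(A_j) b_j(n))`.
Cauchy: `S^2 ≤ sum |a_n|^2 * sum_(n, V>=1) |sum_j conj(A_j) b_j(n)|^2 ≤ sum|a|^2 * sum_n V(n) |...|^2`, and the last
sum is `sum_(i,j) conj(A_i) A_j sum_n V b_i conj(b_j) ≤ sum_(i,j) (|A_i|^2+|A_j|^2)/2 |S_ij| ≤ B S`. -/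
def St_Dua : Prop := ∀ (ι : Type) [Fintype ι] (R : Finset ℕ) (a : ℕ → ℂ) (b : ι → ℕ → ℂ) (V : ℕ → ℝ)
  (B : ℝ), 0 ≤ B → (∀ n ∈ R, 0 ≤ V n) → (∀ n ∈ R, a n ≠ 0 → 1 ≤ V n) →
  (∀ i, ∑ j, ‖∑ n ∈ R, (V n : ℂ) * (b i n * (starRingEnd ℂ) (b j n))‖ ≤ B) →
    ∑ j, ‖∑ n ∈ R, a n * b j n‖ ^ 2 ≤ B * ∑ n ∈ R, ‖a n‖ ^ 2

/-- **Dens** (log-free zero density). PROOF. Dua with `R = Icc 1 T^42`, `a_n = f(n) n^(-1/2)` for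
`T^12 < n ≤ T^40` (else `0`), `b_j(n) = g(n) χ_j(n) n^(1/2-ρ_j)`, `V = VT T`, `w = ρ_i + conj ρ_j - 1`
(`b_i conj b_j = g^2 χ_i conj χ_j n^-w`, `|w.im| ≤ 2T`, `1 - w.re ≤ 2η`). Det: `card/4 ≤ sum_j |..|^2`. Fsq with
`A = 4`: `sum |a|^2 ≤ C`. `sum_j |S_ij| ≤ card/T` (DuN, different characters, `MT.prodChar χ_i χ_j⁻¹`) plus
(DuP, `c j = c i`) `C T^(2Cη) sum_j 1/(1 + ((γ_i-γ_j) log T)^2) ≤ C' T^(2Cη)` by the spacing. So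
`card ≤ C card/T + C T^(2Cη)`. -/
def St_Dens : Prop := ∃ C T₀ : ℝ, 0 < C ∧ 2 ≤ T₀ ∧ ∀ T : ℝ, T₀ ≤ T → ∀ η : ℝ, 0 ≤ η → η ≤ 1 / 400 →
  ∀ (ι : Type) [Fintype ι] (c : ι → Chr) [∀ i, NeZero (c i).1] (ρ : ι → ℂ),
    (∀ i, ((c i).1 : ℝ) ≤ T) → (∀ i, ρ i ∈ rect (1 - η) T) → (∀ i, Lf (c i).2 (ρ i) = 0) →
    (∀ i, (c i).2 = 1 → T ^ (1 / 4 : ℝ) ≤ |(ρ i).im|) →
    (∀ i j, c i ≠ c j → Dif (c i).2 (c j).2) →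
    (∀ i j, i ≠ j → c i = c j → 1 / Real.log T ≤ |(ρ i).im - (ρ j).im|) →
      (Fintype.card ι : ℝ) ≤ C * T ^ (C * η)

/-- the primitive characters of conductor `≤ T` -/
noncomputable def PS (T : ℝ) : Finset Chr := (Icc 1 ⌊T⌋₊).sigma (fun q => prm q)

/-- zeros of `c` in `K` -/
noncomputable def zc (c : Chr) (K : Set ℂ) : Finset ℂ :=
  if h : c.1 = 0 then ∅ else @zs c.1 ⟨h⟩ c.2 K

/-- multiplicity -/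
noncomputable def mc (c : Chr) (ρ : ℂ) : ℕ :=
  if h : c.1 = 0 then 0 else @zm c.1 ⟨h⟩ c.2 ρ

/-- number of zeros (all primitive characters of conductor `≤ T`) with `Re ≥ 1 - η`, `|Im| ≤ T` -/
noncomputable def NT (η T : ℝ) : ℕ := ∑ c ∈ PS T, ∑ ρ ∈ zc c (rect (1 - η) T), mc c ρ

/-- the same without the zeros of the trivial character with `|Im| < T^(1/4)` -/
noncomputable def NT1 (η T : ℝ) : ℕ := ∑ c ∈ PS T, ∑ ρ ∈ (zc c (rect (1 - η) T)).filter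
  (fun ρ => c.1 = 1 → T ^ (1 / 4 : ℝ) ≤ |ρ.im|), mc c ρ

/-- **N1.** PROOF. Put every zero into the class `(c, k)`, `k = floor(Im ρ log T)`. One zero from each nonempty class
with `k` even: spacing `≥ 1/log T`, L0 gives `Dif` for different primitive characters, so Dens: `≤ C T^(Cη)` classes
with `k` even, and the same for odd `k`. A class lies in `disc 1 (k/log T) (η + 1/log T)` (take `r = η + 2/log T`), so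
by Cnt it has `≤ C (1 + (η + 2/log T) log T) ≤ 3 C e^(η log T)` zeros. -/
def St_N1 : Prop := ∃ C T₀ : ℝ, 0 < C ∧ 2 ≤ T₀ ∧ ∀ T : ℝ, T₀ ≤ T → ∀ η : ℝ, 0 ≤ η → η ≤ 1 / 400 →
  (NT1 η T : ℝ) ≤ C * T ^ (C * η)

/-- **NTt.** PROOF. Only the zeros of `ζ` with `|Im ρ| < T^(1/4)` are missing. Let `Z(η,T)` be the number of zeros of `ζ`
in `rect (1-η) T`. `Z(η,T) ≤ NT1 η T + Z(η, T^(1/4))`. If `η log T < c₀` then `Z(η,T) = 0` for `T ≥ T₀` (Exc: `χ₁ ≠ 1`).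
Induction (`T -> T^(1/4)` until `T^(1/4) < T₀`, where `Z ≤ Z(1/400, T₀)` is a constant): claim
`Z(η,T) ≤ C₂ T^(C₂ η)`. With `y = η log T ≥ c₀`: `C e^(Cy) + C₂ e^(C₂ y/4) ≤ C₂ e^(C₂ y)` if `C₂ ≥ 2C` and
`e^(3 C₂ c₀/4) ≥ 2`. -/
def St_NTt : Prop := ∃ C T₀ : ℝ, 0 < C ∧ 2 ≤ T₀ ∧ ∀ T : ℝ, T₀ ≤ T → ∀ η : ℝ, 0 ≤ η → η ≤ 1 / 400 →
  (NT η T : ℝ) ≤ C * T ^ (C * η)

/-- **Wsum.** Weighted sum over all zeros with `1 - Re ρ ≥ η₀`. PROOF. Zeros with `1/500 ≤ 1 - β ≤ 1/8`: number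
`≤ T^2 * C T log T ≤ T^4` (HB (iii)), weight `≤ Y^(-1/500)`, and `Y ≥ T^A`: in total `≤ Y^(-1/800)` (`A ≥ 6000`). The others: they are
in `rect _ (2T)`; group by `1 - β` in `[η_k, η_(k+1))`, `η_k = η₀ + k/log T` : at most `NT η_(k+1) (2T) ≤ C e^(2C (η₀ log T + k + 1))` zeros
of weight `≤ Y^(-η_k) ≤ e^(-(η₀ log T + k) A/2) Y^(-η₀/2)`: the sum is `≤ C' Y^(-η₀/2)` if `A ≥ 4C + 2`. -/
def St_Wsum : Prop := ∃ C A T₀ : ℝ, 0 < C ∧ 1 ≤ A ∧ 2 ≤ T₀ ∧ ∀ T : ℝ, T₀ ≤ T → ∀ Y : ℝ, T ^ A ≤ Y →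
  ∀ η₀ : ℝ, 0 ≤ η₀ → η₀ ≤ 1 / 400 →
    ∑ c ∈ PS T, ∑ ρ ∈ (zc c (rect (7 / 8) (T + 1))).filter (fun ρ => η₀ ≤ 1 - ρ.re),
      (mc c ρ : ℝ) * Y ^ (-(1 - ρ.re)) ≤ C * (Y ^ (-(η₀ / 2)) + Y ^ (-(1 / 800 : ℝ)))

end Pool.Agent.MVX
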