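import Pool.Agent.MVX.StD

set_option autoImplicit false

/-!
# Project MVX, L-core, part E: the Deuring-Heilbronn phenomenon by the Selberg sieve
-/

namespace Pool.Agent.MVX

open Finset

/-- Dirichlet convolution on `n ≥ 1` -/
noncomputable def cv (f g : ℕ → ℂ) (n : ℕ) : ℂ := ∑ d ∈ n.divisors, f d * g (n / d)

/-- `sum_(n <= v, D | n) f(n) n^-s` -/
noncomputable def SsumD (D : ℕ) (f : ℕ → ℂ) (s : ℂ) (v : ℝ) : ℂ :=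
  ∑ n ∈ (Icc 1 ⌊v⌋₊).filter (fun n => D ∣ n), f n * (n : ℂ) ^ (-s)

/-- `a = 1 * χ` for a real character, as real numbers -/
noncomputable def ax {q : ℕ} (χ : DirichletCharacter ℂ q) (n : ℕ) : ℝ :=
  ∑ d ∈ n.divisors, (χ (d : ZMod q)).re

/-- `1 - (1 - 1/p)(1 - χ(p)/p)` -/
noncomputable def ga {q : ℕ} (χ : DirichletCharacter ℂ q) (p : ℕ) : ℝ :=
  1 - (1 - 1 / (p : ℝ)) * (1 - (χ (p : ZMod q)).re / p)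

/-- product over the primes of `D` -/
noncomputable def pr (g : ℕ → ℝ) (D : ℕ) : ℝ := ∏ p ∈ D.primeFactors, g p

/-- **Zlow** (Siegel's theorem for the zero). PROOF. `BVX.siegel`: `|L(1,χ)| ≥ c q^(-ε/2)`. WLOG `1 - β ≤ ε/8`, `ε < 1`. For
`Re z ≥ 1 - ε/4`, `|z| ≤ 2`: A1 with `v = q^2`: `|L(z)| ≤ sum_(n<=q^2) n^(-1+ε/4) + 12 q q^(-2(1-ε/4)) ≤ C q^(ε/2)`... so
(Cauchy, radius `ε/8`) `|L'| ≤ C q^(ε/2)` on `[β, 1]` and `|L(1)| = |L(1) - L(β)| ≤ (1-β) C q^(ε/2)`. -/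
def St_Zlow : Prop := ∀ ε : ℝ, 0 < ε → ∃ c : ℝ, 0 < c ∧ ∀ (q : ℕ) [NeZero q]
  (χ : DirichletCharacter ℂ q), χ ^ 2 = 1 → χ ≠ 1 → ∀ β : ℝ, 1 / 2 < β → β < 1 →
    χ.LFunction (β : ℂ) = 0 → c * (q : ℝ) ^ (-ε) ≤ 1 - β

/-- **Hyp1** (hyperbola method, two nonprincipal characters, a zero of the product). PROOF. `B = 4K(1+|s|)`,
`S_i(v) = Ssum (cf ψ_i) s v`, `L_i = L(s, ψ_i)`: `|S_i(v) - L_i| ≤ B v^-σ` (A1), `v ≥ 1`.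
`P = sum_(m<=√y) ψ_1(m) m^-s S_2(y/m) + sum_(n<=√y) ψ_2(n) n^-s S_1(y/n) - S_1(√y) S_2(√y)
= L_1 L_2 - (S_1(√y)-L_1)(S_2(√y)-L_2) + O(2B y^(1/2-σ))`, and `L_1 L_2 = 0`. For `0 < y < 1`: `P = 0`. -/
def St_Hyp1 : Prop := ∃ C : ℝ, 0 < C ∧ ∀ (k₁ k₂ : ℕ) [NeZero k₁] [NeZero k₂]
  (ψ₁ : DirichletCharacter ℂ k₁) (ψ₂ : DirichletCharacter ℂ k₂) (K : ℝ), ψ₁ ≠ 1 → ψ₂ ≠ 1 →
  (k₁ : ℝ) ≤ K → (k₂ : ℝ) ≤ K → ∀ s : ℂ, 7 / 8 ≤ s.re → s.re ≤ 1 →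
  ψ₁.LFunction s * ψ₂.LFunction s = 0 → ∀ y : ℝ, 0 < y →
    ‖Ssum (cv (cf ψ₁) (cf ψ₂)) s y‖ ≤ C * K ^ 2 * (1 + ‖s‖) ^ 2 * y ^ (-(3 / 8 : ℝ))

/-- **Hyp2** (hyperbola method for `1 * χ`). PROOF. `S_1(v) = v^(1-s)/(1-s) + ζ(s) + O((1+|s|) v^-σ)` (A1p, `q = 1`),
`S_2(v) = L_2 + O(B v^-σ)`, `sum_(n<=v) χ(n)/n = L(1,χ) + O(q/v)`:
`P = L_2 S_1(√y) + (y^(1-s)/(1-s)) sum_(n<=√y) χ(n)/n + L_1 S_2(√y) - S_1(√y) S_2(√y) + O(B y^(1/2-σ))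
= (y^(1-s)/(1-s)) L(1,χ) + [L_1 L_2 - (S_1-L_1)(S_2-L_2)] + errors`, with `|y^(1-s)| ≤ y^(1/8)`. For `0 < y < 1` the
left side is `0` minus the main term, `≤ C q/|1-s|`, and the right side is larger. -/
def St_Hyp2 : Prop := ∃ C : ℝ, 0 < C ∧ ∀ (q : ℕ) [NeZero q] (χ : DirichletCharacter ℂ q), χ ≠ 1 →
  ∀ s : ℂ, 7 / 8 ≤ s.re → s.re ≤ 1 → s ≠ 1 → riemannZeta s * χ.LFunction s = 0 → ∀ y : ℝ, 0 < y →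
    ‖Ssum (cv (fun _ => 1) (cf χ)) s y - χ.LFunction 1 * ((y : ℂ) ^ (1 - s) / (1 - s))‖
      ≤ C * (q : ℝ) ^ 2 * (1 + ‖s‖) ^ 2 * (1 + 1 / ‖1 - s‖) * y ^ (-(1 / 4 : ℝ))

/-- **Mul** (multiples of a squarefree number, completely multiplicative factors). PROOF. For squarefree `D`:
`1_(D | mn) = prod_(p | D) (1_(p|m) + 1_(p|n) - 1_(p|m) 1_(p|n)) = sum_(abc=D) μ(c) 1_(ac | m) 1_(bc | n)`; write `m = ac m'`,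
`n = bc n'` : `mn = abc^2 m'n' = Dc m'n'`. The sum runs over the `c | D` and the factorizations `D/c = ab`. -/
def St_Mul : Prop := ∀ (f g : ℕ → ℂ), (∀ m n, f (m * n) = f m * f n) → (∀ m n, g (m * n) = g m * g n) →
  ∀ (D : ℕ), Squarefree D → ∀ (s : ℂ) (v : ℝ), 0 ≤ v →
    SsumD D (cv f g) s v = ∑ c ∈ D.divisors, ∑ a ∈ (D / c).divisors,
      (ArithmeticFunction.moebius c : ℂ) * f (a * c) * g (D / c / a * c) * ((D * c : ℕ) : ℂ) ^ (-s) *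
        Ssum (cv f g) s (v / ((D * c : ℕ) : ℝ))

/-- **DD1.** PROOF. Mul + Hyp1: each of the `3^ω(D) ≤ D^2` terms is
`≤ (Dc)^-σ C K^2 (1+|s|)^2 (x/(Dc))^(-3/8) ≤ C K^2 (1+|s|)^2 x^(-3/8)`. -/
def St_DD1 : Prop := ∃ C : ℝ, 0 < C ∧ ∀ (k₁ k₂ : ℕ) [NeZero k₁] [NeZero k₂]
  (ψ₁ : DirichletCharacter ℂ k₁) (ψ₂ : DirichletCharacter ℂ k₂) (K : ℝ), ψ₁ ≠ 1 → ψ₂ ≠ 1 →
  (k₁ : ℝ) ≤ K → (k₂ : ℝ) ≤ K → ∀ s : ℂ, 7 / 8 ≤ s.re → s.re ≤ 1 →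
  ψ₁.LFunction s * ψ₂.LFunction s = 0 → ∀ D : ℕ, Squarefree D → ∀ x : ℝ, 0 < x →
    ‖SsumD D (cv (cf ψ₁) (cf ψ₂)) s x‖ ≤ C * K ^ 2 * (1 + ‖s‖) ^ 2 * D ^ 2 * x ^ (-(3 / 8 : ℝ))

/-- **DD2.** PROOF. Mul + Hyp2: the main terms give `L(1,χ) x^(1-s)/(1-s)` times
`sum_(c, a) μ(c) χ(bc) (Dc)^-s (Dc)^(s-1) = sum μ(c) χ(bc)/(Dc) = prod_(p | D) (1/p + χ(p)/p - χ(p)/p^2) = pr (ga χ) D`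
(`χ` real valued). -/
def St_DD2 : Prop := ∃ C : ℝ, 0 < C ∧ ∀ (q : ℕ) [NeZero q] (χ : DirichletCharacter ℂ q), χ ≠ 1 → χ ^ 2 = 1 →
  ∀ s : ℂ, 7 / 8 ≤ s.re → s.re ≤ 1 → s ≠ 1 → riemannZeta s * χ.LFunction s = 0 →
  ∀ D : ℕ, Squarefree D → ∀ x : ℝ, 0 < x →
    ‖SsumD D (cv (fun _ => 1) (cf χ)) s x
        - χ.LFunction 1 * ((x : ℂ) ^ (1 - s) / (1 - s)) * ((pr (ga χ) D : ℝ) : ℂ)‖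
      ≤ C * (q : ℝ) ^ 2 * (1 + ‖s‖) ^ 2 * (1 + 1 / ‖1 - s‖) * D ^ 2 * x ^ (-(1 / 4 : ℝ))

/-- `sum_(d <= y squarefree) prod_(p | d) g(p)/(1-g(p))` -/
noncomputable def GG (g : ℕ → ℝ) (y : ℝ) : ℝ :=
  ∑ d ∈ (Icc 1 ⌊y⌋₊).filter Squarefree, ∏ p ∈ d.primeFactors, g p / (1 - g p)

/-- **Sel** (Selberg's weights). PROOF. Standard diagonalization (the same as in every account of the Selberg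
sieve): with `h(d) = prod g/(1-g)`, `pr g [d,e] = pr g d * pr g e * sum_(k | (d,e)) 1/h'(k)`, ... minimum `1/GG g y` under `θ 1 = 1`, and
`|θ d| ≤ 1`. Check the library first (`grep -ri selberg Pool/Agent`). -/
def St_Sel : Prop := ∀ (g : ℕ → ℝ), (∀ p : ℕ, p.Prime → 0 < g p ∧ g p < 1) → ∀ y : ℝ, 1 ≤ y →
  ∃ θ : ℕ → ℝ, θ 1 = 1 ∧ (∀ d, θ d ≠ 0 → 1 ≤ d ∧ (d : ℝ) ≤ y ∧ Squarefree d) ∧ (∀ d, |θ d| ≤ 1) ∧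
    ∑ d ∈ Icc 1 ⌊y⌋₊, ∑ e ∈ Icc 1 ⌊y⌋₊, θ d * θ e * pr g (d.lcm e) ≤ 1 / GG g y ∧
    0 ≤ ∑ d ∈ Icc 1 ⌊y⌋₊, ∑ e ∈ Icc 1 ⌊y⌋₊, θ d * θ e * pr g (d.lcm e)

/-- **GS.** PROOF. For real `χ` (values `0, 1, -1`): `a = ax χ` is multiplicative, nonnegative, and
`sum_(k>=1) a(p^k) p^-k = 1/((1-1/p)(1-χ(p)/p)) - 1 = g/(1-g)`, `g = ga χ p` in `(0,1)`. Every `n ≤ y` has its radical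
`≤ y`, so `sum_(n<=y) a(n)/n ≤ sum_(d<=y, squarefree) prod_(p | d) sum_(k>=1) a(p^k) p^-k = GG`. -/
def St_GS : Prop := ∀ (q : ℕ) [NeZero q] (χ : DirichletCharacter ℂ q), χ ^ 2 = 1 →
  (∀ n, 0 ≤ ax χ n) ∧ (∀ p : ℕ, p.Prime → 0 < ga χ p ∧ ga χ p < 1) ∧
  ∀ y : ℝ, 1 ≤ y → ∑ n ∈ Icc 1 ⌊y⌋₊, ax χ n / n ≤ GG (ga χ) y

/-- the square of the sieve weight -/
noncomputable def sq (θ : ℕ → ℝ) (n : ℕ) : ℝ := (∑ d ∈ n.divisors, θ d) ^ 2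

/-- **Mass.** PROOF. `y = T^32`, `θ` from Sel for `g = ga χ`, `δ = 1-β`. Zlow (`ε = 1`): `δ ≥ c/T`.
(1) DD2 with `D = 1`, `x = y`, `s = β` (`L(β,χ) = 0`): `sum_(n<=y) a(n) n^-β = L(1,χ) y^δ/δ + O(T^2 (T/c) y^(-1/4)) = .. + O(T^-4)`
(`a = ax χ`, `cv (fun _ => 1) (cf χ) n = ax χ n` since `χ` is real valued), and
`GG ≥ sum_(n<=y) a(n)/n ≥ y^-δ sum_(n<=y) a(n) n^-β = L(1,χ)/δ + O(T^-4)`; the left side of (1) is `≥ a(1) = 1`, so `L(1,χ)` is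
real positive and `GG ≥ 1`. Hence `L(1,χ)/(δ GG) ≤ 1 + O(T^-4)`; with `S = sum θθ pr (ga χ) [d,e]` in `[0, 1/GG]`:
`L(1,χ) S ≤ 2δ`.
(2) DD2 for all `D = [d,e] ≤ T^64`, `x = T^1000`, `s = β`:
`sum_(n<=x) a(n) g(n)^2 n^-β = (L(1,χ) S/δ) x^δ + error`, `g(n) = sum_(d | n) θ d`,
`|error| ≤ T^64 * C T^2 * 4 * (2T/c) * T^128 * T^-250 ≤ T^-4`. So it is `≤ x^δ (1 + O(T^-4)) + T^-4 ≤ 1 + e^1000 δ log T + O(T^-4)`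
(`δ log T ≤ 1`), the term `n = 1` is `1`, and `T^-4 ≤ C δ`. -/
def St_Mass : Prop := ∃ C T₀ : ℝ, 0 < C ∧ 2 ≤ T₀ ∧ ∀ T : ℝ, T₀ ≤ T → ∀ (q : ℕ) [NeZero q]
  (χ : DirichletCharacter ℂ q), χ ^ 2 = 1 → χ ≠ 1 → (q : ℝ) ≤ T → ∀ β : ℝ, 1 - 1 / Real.log T ≤ β →
  β < 1 → χ.LFunction (β : ℂ) = 0 →
    ∃ θ : ℕ → ℝ, θ 1 = 1 ∧ (∀ d, θ d ≠ 0 → 1 ≤ d ∧ (d : ℝ) ≤ T ^ 32 ∧ Squarefree d) ∧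
      (∀ d, |θ d| ≤ 1) ∧
      (∑ n ∈ Icc 2 ⌊T ^ 1000⌋₊, ax χ n * sq θ n * (n : ℝ) ^ (-β) ≤ C * ((1 - β) * Real.log T)) ∧
      ‖χ.LFunction 1‖ * |∑ d ∈ Icc 1 ⌊T ^ 32⌋₊, ∑ e ∈ Icc 1 ⌊T ^ 32⌋₊,
        θ d * θ e * pr (ga χ) (d.lcm e)| ≤ C * (1 - β)

/-- **DH** (Deuring-Heilbronn). PROOF. `θ`, `g`, `a = ax χ₁`, `x = T^1000` from Mass; `c₁ ≤ c₀` of Exc (at `T`).
Case A: `χ ≠ 1` and `(q,χ) ≠ (q₁,χ₁)`. `a(n) χ(n) = cv (cf χ) (cf ψ) n`, `ψ = MT.prodChar χ χ₁` modulo `q q₁ ≤ T^2`,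
not principal (L0, `χ₁⁻¹ = χ₁`). `sum_(n<=x) a(n) g(n)^2 χ(n) n^-ρ = sum_(d,e) θ_d θ_e SsumD [d,e] (..) ρ x`, by DD1 (`K = T^2`, `L(ρ,χ) = 0`)
`≤ T^64 * C T^4 (2+T)^2 T^128 T^-375 ≤ 1/4`. The term `n = 1` is `1`. So
`3/4 ≤ sum_(2<=n<=x) a(n) g(n)^2 n^(-Re ρ) ≤ x^(1-Re ρ) sum_(2<=n<=x) a g^2 n^-β₁ ≤ T^(1000(1-Re ρ)) C (1-β₁) log T`
(`n^(β₁-Re ρ) ≤ x^(1-Re ρ)`).
Case B: `χ = 1` (so `q = 1`) or `(q,χ) = (q₁,χ₁)`, `ρ ≠ β₁`: `ζ(ρ) L(ρ,χ₁) = 0` and `ρ ≠ 1`. Now `sum_(n<=x) a(n) g(n)^2 n^-ρ`, by DD2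
`= L(1,χ₁) x^(1-ρ)/(1-ρ) S + error`, `|1-ρ| ≥ c₀/log T` by Exc (`ρ` is not in the region: `χ = 1` is excluded there, and
`χ = χ₁` gives `ρ = β₁`), so the main term is `≤ C (1-β₁) (log T/c₀) T^(1000(1-Re ρ))`, error `≤ 1/4`; continue as in A. -/
def St_DH : Prop := ∃ C c₁ T₀ : ℝ, 0 < C ∧ 0 < c₁ ∧ 2 ≤ T₀ ∧ ∀ T : ℝ, T₀ ≤ T →
  ∀ (q₁ : ℕ) [NeZero q₁] (χ₁ : DirichletCharacter ℂ q₁), χ₁.IsPrimitive → χ₁ ^ 2 = 1 → χ₁ ≠ 1 →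
  (q₁ : ℝ) ≤ T → ∀ β₁ : ℝ, 1 - c₁ / Real.log T ≤ β₁ → β₁ < 1 → χ₁.LFunction (β₁ : ℂ) = 0 →
  ∀ (q : ℕ) [NeZero q] (χ : DirichletCharacter ℂ q), χ.IsPrimitive → (q : ℝ) ≤ T →
  ∀ ρ ∈ rect (7 / 8) T, Lf χ ρ = 0 → ¬ ((⟨q, χ⟩ : Chr) = ⟨q₁, χ₁⟩ ∧ ρ = (β₁ : ℂ)) →
    1 ≤ C * ((1 - β₁) * Real.log T) * T ^ (C * (1 - ρ.re))

end Pool.Agent.MVX
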