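import Pool.Agent.MVX.StE

set_option autoImplicit false

/-!
# Project MVX, L-core, part F: windows and the proof of `GP`
-/

namespace Pool.Agent.MVX

open Finset Filter

/-- The Riesz sum `sum_(n <= y) (y - n) Λ(n) χ(n)`. -/
noncomputable def Rz {q : ℕ} (χ : DirichletCharacter ℂ q) (y : ℝ) : ℂ :=
  ∑ n ∈ Icc 1 ⌊y⌋₊, ((y : ℂ) - n) * (((ArithmeticFunction.vonMangoldt n : ℝ) : ℂ) * χ (n : ZMod q))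

/-- second difference of `x^(ρ+1)/(ρ(ρ+1))`, normalized -/
noncomputable def Wn (ρ : ℂ) (H x : ℕ) : ℂ :=
  ((H : ℂ) ^ 2)⁻¹ * (((x + H : ℕ) : ℂ) ^ (ρ + 1) - 2 * (x : ℂ) ^ (ρ + 1) +
    ((x - H : ℕ) : ℂ) ^ (ρ + 1)) / (ρ * (ρ + 1))

/-- **Bdec.** PROOF. `tent H x n = (x+H-n)_+ - 2 (x-n)_+ + (x-H-n)_+`. -/
def St_Bdec : Prop := ∀ (q : ℕ) (χ : DirichletCharacter ℂ q) (H x : ℕ), 1 ≤ H → H ≤ x →
  Bm H x χ = ((H : ℂ) ^ 2)⁻¹ * (Rz χ ((x + H : ℕ) : ℝ) - 2 * Rz χ (x : ℝ) + Rz χ ((x - H : ℕ) : ℝ))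

/-- **Wbd.** PROOF. `Wn ρ H x = H^-2 ∫_0^H ∫_0^H (x-H+u+v)^(ρ-1) du dv`. If `H ≤ x/2` the integrand is `≤ (x/2)^(σ-1) ≤ 2 x^(σ-1)`,
otherwise `≤ H^-1 ∫_0^(x+H) t^(σ-1) dt = (x+H)^σ/(σ H) ≤ 8 x^(σ-1)`. (For `x = H` the value at `0` is `0^(ρ+1) = 0`.) -/
def St_Wbd : Prop := ∀ ρ : ℂ, 1 / 2 ≤ ρ.re → ρ.re ≤ 1 → ∀ H x : ℕ, 1 ≤ H → H ≤ x →
  ‖Wn ρ H x‖ ≤ 8 * (x : ℝ) ^ (ρ.re - 1)

/-- **Um1.** The discrete and the continuous mean. PROOF. `Wn b H x = H^-2 ∫ t^(b-1) tent(t) dt`; sum minus integral of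
`t^(b-1) tent(t)` is at most the total variation plus the contribution of `[0,1]`, `≤ C H`. -/
def St_Um1 : Prop := ∃ C : ℝ, 0 < C ∧ ∀ b : ℝ, 1 / 2 ≤ b → b ≤ 1 → ∀ H x : ℕ, 1 ≤ H → H ≤ x →
  ‖Wn (b : ℂ) H x - ((Um b H x : ℝ) : ℂ)‖ ≤ C / H

/-- **Um2.** PROOF. Total mass of the tent is `H^2` (`1 ≤ H ≤ x`). The `n ≤ √X` have mass `≤ √X H`, relative `≤ X^(-2/5)`; for
`n > √X`: `n^(b-1) ≤ e^(-λ'/2)`, `λ' = (1-b) log X`, and `e^(-lam/2) ≤ 1 - 3 lam/8` for `lam = min 1 λ'`, while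
`X^(-2/5) ≤ X^(-1/10)/8 ≤ lam/8`. -/
def St_Um2 : Prop := ∃ X₀ : ℝ, 1 ≤ X₀ ∧ ∀ X : ℝ, X₀ ≤ X → ∀ b : ℝ, 1 / 2 < b → b < 1 →
  X ^ (-(1 / 10 : ℝ)) ≤ (1 - b) * Real.log X → ∀ H x : ℕ, X ^ (9 / 10 : ℝ) ≤ H → H ≤ x → (x : ℝ) ≤ X →
    0 ≤ Um b H x ∧ Um b H x ≤ 1 - min 1 ((1 - b) * Real.log X) / 4

/-- **Ch.** There is a real primitive nonprincipal character. PROOF. `ZMod.χ₄` in `ℂ`. -/
def St_Ch : Prop := ∃ (q : ℕ) (_ : NeZero q) (χ : DirichletCharacter ℂ q),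
  1 < q ∧ χ.IsPrimitive ∧ χ ^ 2 = 1 ∧ χ ≠ 1

/-- **EFW** (explicit formula for the local means). PROOF. Bdec, EF at `x+H`, `x`, `x-H` (the main term `y^2/2` has second
difference `H^2`), linear combination of the zeros gives `Wn`. Error `≤ 4 H^-2 C (2X+2)^2 (log T log(2X+2))^2 (T y^(-1/16) + 1/T)`,
where the factor `(y+2)^2 (T (y+2)^(-1/16))` is largest at `y = x+H ≤ 2X`, and there `(x+2)^(-1/16) ≤ X^(-1/20)`, `H ≥ X^(1-aδ)`. -/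
def St_EFW : Prop := ∃ C : ℝ, 0 < C ∧ ∀ (X δ : ℝ) (a : ℕ), 2 ≤ X → 0 < δ → (a + 1) * δ ≤ 1 / 10 →
  ∀ T : ℝ, 2 ≤ T → T ≤ X → ∀ (q : ℕ) [NeZero q] (χ : DirichletCharacter ℂ q), (q : ℝ) ≤ T → ∀ p : ℂ,
    (χ = 1 → p = 1) → (χ ≠ 1 → p = 0) → ∀ H x : ℕ, Win X δ a H x →
    ‖Bm H x χ - p + ∑ ρ ∈ zs χ (rect (7 / 8) (T + 1)), (zm χ ρ : ℂ) * Wn ρ H x‖
      ≤ C * X ^ (2 * a * δ) * (Real.log T * Real.log (2 * X + 2)) ^ 2 * (T * X ^ (-(1 / 20 : ℝ)) + 1 / T)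

/-- **GPf** (the interface). PROOF. Given `κ` (WLOG `κ ≤ 1/10`) and `a`. `δ` small, `T = X^((2a+4)δ)`, `T' = 2T`, `Y = X^(1/2) ≥ T'^A`
(`A` of Wsum). `c₀` from Exc, applied at `T'`: its region contains `rect (1 - c₀/(2 log T)) (T+1)` for large `T`.
Let `L = ` the family `PS(X^δ)`.
CASE 1: no `c` in `PS(X^δ)` has a zero in `R = rect (1 - min(c₀,c₁)/log T') T'`. Then `e = 0`, `lam = 1`, `χ₁` from Ch,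
`E c = 8 sum_(ρ in zc c (rect (7/8) (T+1))) mc c ρ Y^(-(1-Re ρ)) + err`, `err` = right side of EFW (`≤ X^(-3δ)` for large `X` if
`(4a+8) δ ≤ 1/30`: `X^(2aδ) (log)^4 (T X^(-1/20) + 1/T)`, `1/T = X^(-(2a+4)δ)`). EFW + Wbd (`x ≥ X^(1/2)`, so `x^(β-1) ≤ Y^(-(1-β))`) give the
window bounds; Wsum with `η₀ = min(c₀,c₁)/log T'`: `sum E ≤ C (Y^(-η₀/2) + Y^(-1/800)) + X^(2δ) X^(-3δ)`, `Y^(-η₀/2) = exp(-c/(C(a) δ)) ≤ κ/4` for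
`δ` small.
CASE 2: some `c = (q₁, χ₁)` in `PS(X^δ)` has a zero in `R`: by Exc it is real `= β₁`, simple, `χ₁` real `≠ 1`, and no other zero of any
primitive character of conductor `≤ T'` is in `R`. `e = 1`, `b = β₁`, `lam = min 1 ((1-β₁) log X)`. Zlow (`ε = κ/2`): `lam ≥ X^(-κδ)`
for large `X`. DH at `T'`: every other zero in `rect (7/8) T'` has `1 ≤ C ((1-β₁) log T') T'^(C(1-β))`, so `1 - β ≥ η₀` with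
`η₀ = max(c/log T', log(1/(C λ_T))/(C log T'))`, `λ_T = (1-β₁) log T' ≤ C(a) δ (1-β₁) log X` (truncate `η₀` at `1/400`:
`Y^(-1/800)` is `≤ κ lam^3/8` because `lam ≥ X^(-κδ)`). `E` as before, without the zero `β₁`, plus `C/H` (Um1) for `χ₁`. Wsum:
`sum E ≤ C (Y^(-η₀/2) + Y^(-1/800)) + X^-δ + C/H`. `Y^(-η₀/2) ≤ (C λ_T)^(4)` for `δ` small (`Y ≥ T'^(8C)`), and if `lam = (1-β₁) log X ≤ 1` this is
`≤ (C C(a) δ)^4 lam^4 ≤ (κ/8) lam^3`; if `lam = 1` use `Y^(-η₀/2) ≤ exp(-c/(C(a) δ)) ≤ κ/8`. Um2 gives `0 ≤ Um ≤ 1 - lam/4`. -/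
def St_GPf : Prop := GP

end Pool.Agent.MVX
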