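import Pool.Agent.MVX.StF

set_option autoImplicit false

/-!
# Project MVX, L-core, module Um2: upper bound of `Um`
-/

namespace Pool.Agent.MVX

open Finset Filter

theorem um2_tent_nonneg (H x n : ℕ) : 0 ≤ tent H x n := le_max_left _ _

theorem um2_tent_le (H x n : ℕ) : tent H x n ≤ H := by
  rw [tent]
  apply max_le (Nat.cast_nonneg _)
  have := abs_nonneg ((n : ℝ) - x)
  linarith

theorem um2_sum_a (H : ℕ) : ∑ j ∈ range H, ((H : ℝ) - j) = H * (H + 1) / 2 := by
  have h : ∀ m : ℕ, ∑ j ∈ range m, ((H : ℝ) - j) = m * H - m * (m - 1) / 2 := by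
    intro m
    induction m with
    | zero => simp
    | succ m ih =>
      rw [sum_range_succ, ih]
      push_cast
      ring
  rw [h]
  ring

theorem um2_mass (H x : ℕ) (hx : H ≤ x) : ∑ n ∈ Icc 1 (x + H), tent H x n ≤ (H : ℝ) ^ 2 := by
  have h1 : ∑ n ∈ Icc 1 (x + H), tent H x n ≤ ∑ n ∈ range ((x + 1) + H), tent H x n := by
    apply sum_le_sum_of_subset_of_nonneg
    · intro n hn
      rw [mem_Icc] at hn
      rw [mem_range]
      omega
    · intro n _ _
      exact um2_tent_nonneg H x n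
  have h2 : ∑ n ∈ range (x + 1), tent H x n = ∑ j ∈ range H, ((H : ℝ) - j) := by
    rw [← sum_range_reflect]
    obtain ⟨r, hr⟩ : ∃ r, x + 1 = H + r := ⟨x + 1 - H, by omega⟩
    have h3 : ∀ j ∈ range (x + 1), tent H x (x + 1 - 1 - j) = max 0 ((H : ℝ) - j) := by
      intro j hj
      rw [mem_range] at hj
      have h4 : ((x + 1 - 1 - j : ℕ) : ℝ) = (x : ℝ) - j := by
        have : x + 1 - 1 - j = x - j := by omega
        rw [this, Nat.cast_sub (by omega)]
      rw [tent, h4]
      congr 2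
      rw [show (x : ℝ) - j - x = -j by ring, abs_neg, abs_of_nonneg (Nat.cast_nonneg _)]
    rw [sum_congr rfl h3, hr, sum_range_add]
    have h5 : ∑ j ∈ range r, max 0 ((H : ℝ) - ((H + j : ℕ) : ℝ)) = 0 := by
      apply sum_eq_zero
      intro j _
      apply max_eq_left
      push_cast
      have : (0 : ℝ) ≤ j := Nat.cast_nonneg _
      linarith
    rw [h5, add_zero]
    apply sum_congr rfl
    intro j hj
    rw [mem_range] at hj
    apply max_eq_right
    have : (j : ℝ) ≤ H := by exact_mod_cast hj.le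
    linarith
  have h6 : ∑ j ∈ range H, tent H x (x + 1 + j) = ∑ j ∈ range H, ((H : ℝ) - (j + 1)) := by
    apply sum_congr rfl
    intro j hj
    rw [mem_range] at hj
    rw [tent]
    push_cast
    rw [show (x : ℝ) + 1 + j - x = j + 1 by ring, abs_of_nonneg (by positivity)]
    apply max_eq_right
    have : (j : ℝ) + 1 ≤ H := by exact_mod_cast hj
    linarith
  rw [sum_range_add, h2, h6] at h1
  have h7 : ∑ j ∈ range H, ((H : ℝ) - (j + 1)) = ∑ j ∈ range H, ((H : ℝ) - j) - H := by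
    rw [eq_sub_iff_add_eq]
    have : (H : ℝ) = ∑ j ∈ range H, (1 : ℝ) := by simp
    nth_rewrite 2 [this]
    rw [← sum_add_distrib]
    apply sum_congr rfl
    intro j _
    ring
  rw [h7, um2_sum_a] at h1
  refine h1.trans (le_of_eq ?_)
  ring

theorem um2_exp (v : ℝ) (h0 : 0 ≤ v) (h1 : v ≤ 1 / 2) : Real.exp (-v) ≤ 1 - 3 * v / 4 := by
  have h2 := Real.quadratic_le_exp_of_nonneg h0
  have h3 : 0 < 1 + v + v ^ 2 / 2 := by positivity
  rw [Real.exp_neg]
  have h4 : (Real.exp v)⁻¹ ≤ (1 + v + v ^ 2 / 2)⁻¹ := inv_anti₀ h3 h2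
  refine h4.trans ?_
  rw [inv_le_iff_one_le_mul₀ h3]
  nlinarith [mul_nonneg h0 h0, mul_nonneg (mul_nonneg h0 h0) h0, mul_nonneg h0 (sub_nonneg.2 h1),
    mul_nonneg (mul_nonneg h0 h0) (sub_nonneg.2 h1)]

theorem thm_Um2 : St_Um2 := by
  refine ⟨1024, by norm_num, ?_⟩
  intro X hX b hb0 hb1 hlam H x hH hx hxX
  have hX1 : (1 : ℝ) ≤ X := by linarith
  have hX0 : (0 : ℝ) < X := by linarith
  have hHpos : (0 : ℝ) < H := lt_of_lt_of_le (Real.rpow_pos_of_pos hX0 _) hH
  have hlog : 0 ≤ Real.log X := Real.log_nonneg hX1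
  set lp := (1 - b) * Real.log X with hlp
  have hlp0 : 0 ≤ lp := mul_nonneg (by linarith) hlog
  constructor
  · rw [Um]
    refine mul_nonneg (by positivity) (sum_nonneg fun n _ => ?_)
    exact mul_nonneg (Real.rpow_nonneg (Nat.cast_nonneg _) _) (um2_tent_nonneg H x n)
  · -- the two parts of the sum
    have hpt : ∀ n ∈ Icc 1 (x + H), (n : ℝ) ^ (b - 1) * tent H x n ≤
        (if (n : ℝ) ≤ Real.sqrt X then (H : ℝ) else 0) + Real.exp (-(lp / 2)) * tent H x n := by
      intro n hn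
      rw [mem_Icc] at hn
      have hn1 : (1 : ℝ) ≤ n := by exact_mod_cast hn.1
      have ht := um2_tent_nonneg H x n
      split_ifs with h
      · have h1 : (n : ℝ) ^ (b - 1) ≤ 1 := Real.rpow_le_one_of_one_le_of_nonpos hn1 (by linarith)
        have h2 : (n : ℝ) ^ (b - 1) * tent H x n ≤ 1 * tent H x n :=
          mul_le_mul_of_nonneg_right h1 ht
        have h3 := um2_tent_le H x n
        have h4 : 0 ≤ Real.exp (-(lp / 2)) * tent H x n := mul_nonneg (Real.exp_pos _).le ht
        linarith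
      · rw [zero_add]
        apply mul_le_mul_of_nonneg_right _ ht
        push Not at h
        have hs : 0 < Real.sqrt X := Real.sqrt_pos.2 hX0
        have h1 : (n : ℝ) ^ (b - 1) ≤ (Real.sqrt X) ^ (b - 1) :=
          Real.rpow_le_rpow_of_nonpos hs h.le (by linarith)
        refine h1.trans (le_of_eq ?_)
        rw [Real.sqrt_eq_rpow, ← Real.rpow_mul hX0.le, Real.rpow_def_of_pos hX0, hlp]
        congr 1
        ring
    have hsum := sum_le_sum hpt
    rw [sum_add_distrib, ← mul_sum] at hsum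
    have hcard : ∑ n ∈ Icc 1 (x + H), (if (n : ℝ) ≤ Real.sqrt X then (H : ℝ) else 0) ≤
        Real.sqrt X * H := by
      rw [← sum_filter, sum_const, nsmul_eq_mul]
      apply mul_le_mul_of_nonneg_right _ hHpos.le
      have h1 : (filter (fun n : ℕ => (n : ℝ) ≤ Real.sqrt X) (Icc 1 (x + H))) ⊆
          Icc 1 ⌊Real.sqrt X⌋₊ := by
        intro n hn
        rw [mem_filter, mem_Icc] at hn
        rw [mem_Icc]
        exact ⟨hn.1.1, Nat.le_floor hn.2⟩
      have h2 := card_le_card h1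
      rw [Nat.card_Icc] at h2
      have h3 : ((filter (fun n : ℕ => (n : ℝ) ≤ Real.sqrt X) (Icc 1 (x + H))).card : ℝ) ≤
          ⌊Real.sqrt X⌋₊ := by
        exact_mod_cast h2
      exact h3.trans (Nat.floor_le (Real.sqrt_nonneg X))
    have hmass := um2_mass H x hx
    have hexp0 : 0 ≤ Real.exp (-(lp / 2)) := (Real.exp_pos _).le
    have htot : ∑ n ∈ Icc 1 (x + H), (n : ℝ) ^ (b - 1) * tent H x n ≤
        Real.sqrt X * H + Real.exp (-(lp / 2)) * (H : ℝ) ^ 2 := by
      have := mul_le_mul_of_nonneg_left hmass hexp0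
      linarith
    have hUm : Um b H x ≤ Real.sqrt X / H + Real.exp (-(lp / 2)) := by
      rw [Um]
      have h1 : 0 ≤ ((H : ℝ) ^ 2)⁻¹ := by positivity
      refine (mul_le_mul_of_nonneg_left htot h1).trans (le_of_eq ?_)
      field_simp
    -- first summand
    set lam := min 1 lp with hlamd
    have hlam0 : 0 ≤ lam := le_min zero_le_one hlp0
    have hlam1 : lam ≤ 1 := min_le_left _ _
    have hlamX : X ^ (-(1 / 10 : ℝ)) ≤ lam := by
      apply le_min _ hlam
      exact Real.rpow_le_one_of_one_le_of_nonpos hX1 (by norm_num)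
    have hfirst : Real.sqrt X / H ≤ lam / 8 := by
      rw [div_le_iff₀ hHpos]
      have h8 : (8 : ℝ) ≤ X ^ (3 / 10 : ℝ) := by
        have h1 : (8 : ℝ) = (1024 : ℝ) ^ (3 / 10 : ℝ) := by
          rw [show (1024 : ℝ) = (2 : ℝ) ^ (10 : ℝ) by norm_num, ← Real.rpow_mul (by norm_num)]
          norm_num
        rw [h1]
        exact Real.rpow_le_rpow (by norm_num) hX (by norm_num)
      have h2 : Real.sqrt X = X ^ (-(1 / 10) : ℝ) * X ^ (-(3 / 10) : ℝ) * X ^ (9 / 10 : ℝ) := by
        rw [Real.sqrt_eq_rpow, ← Real.rpow_add hX0, ← Real.rpow_add hX0]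
        norm_num
      have h3 : X ^ (-(3 / 10) : ℝ) ≤ 1 / 8 := by
        rw [Real.rpow_neg hX0.le, one_div]
        exact inv_anti₀ (by norm_num) h8
      have h4 : 0 ≤ X ^ (-(3 / 10) : ℝ) := Real.rpow_nonneg hX0.le _
      have h5 : 0 ≤ X ^ (9 / 10 : ℝ) := Real.rpow_nonneg hX0.le _
      have h6 : 0 ≤ X ^ (-(1 / 10) : ℝ) := Real.rpow_nonneg hX0.le _
      rw [h2]
      calc X ^ (-(1 / 10) : ℝ) * X ^ (-(3 / 10) : ℝ) * X ^ (9 / 10 : ℝ)
          ≤ lam * (1 / 8) * H := by
            apply mul_le_mul _ hH h5 (by positivity)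
            exact mul_le_mul hlamX h3 h4 hlam0
        _ = lam / 8 * H := by ring
    have hsecond : Real.exp (-(lp / 2)) ≤ 1 - 3 * lam / 8 := by
      have h1 : Real.exp (-(lp / 2)) ≤ Real.exp (-(lam / 2)) := by
        apply Real.exp_le_exp.2
        have : lam ≤ lp := min_le_right _ _
        linarith
      have h2 := um2_exp (lam / 2) (by linarith) (by linarith)
      linarith
    linarith

end Pool.Agent.MVX
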